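import Pool.Agent.Lib.TWHT.HtDefs

/-!
# TANK W, leaf (Ht), row R8: the operators for a tight element

* `exists_nxT`: the `L`-linear extensions of the operators `T` of the base and the scalars;
* `roots_pm`: the roots of the elements of the base with monomials;
* `NsdOne`: the property `NSDp` for the operators of one tight letter, with pure monomials;
* **`exists_htOp`**.
-/

set_option autoImplicit false
set_option linter.unusedSectionVars false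

open Polynomial

namespace Pool.Agent.TWHT

open Pool.Agent.H15JM (RVal)
open Pool.Agent.LU1 (VPos adj)
open Pool.Agent.D2 (Ctx0)
open Pool.Agent.D2P (clI mem_clI)
open Pool.Agent.TWM
open Pool.Agent.TWS
open Pool.Agent.TWC
open Pool.Agent.TWIV (OpX exists_opX)
open Pool.Agent.TWC.Key (hd ev sp lf)

universe u

variable {k Ω : Type u} [Field k] [Field Ω] [Algebra k Ω] {v : RVal Ω}
  {W L C P E LE : IntermediateField k Ω} {x : ℕ → Ω} {r : ℝ} {p : ℕ}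

section Ex

variable [hp : Fact p.Prime] [CharP Ω p] [hcx : Fact (Ctx0 k v)]

/-- The extensions to `LE` of the operators of `T`. -/
def extS (T : Submodule k (Opr v E)) (L LE : IntermediateField k Ω) : Set (Opr v LE) :=
  {Φ | ∃ φ ∈ T, IsExt L φ Φ}

/-- **The `L`-linear extensions of the operators to `Ω`.** -/
theorem exists_nxT (hO : SphC v) {T : Submodule k (Opr v E)} (hLT : L ≤ LE) (hELE : E ≤ LE)
    (h1 : ∀ φ ∈ T, (φ : Module.End k E) 1 = 0) :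
    ∃ 𝒜 : Submodule k (Module.End k Ω), OpX v L LE (extS T L LE) 𝒜 ∧ NX v L E T 𝒜 ∧
      (1 : Module.End k Ω) ∈ 𝒜 ∧
      (∀ φ ∈ T, ∀ Φ : Opr v LE, IsExt L φ Φ → ∃ ψ ∈ 𝒜, ∀ x ∈ LE, ψ x = fn Φ x) ∧
      ∀ ψ ∈ 𝒜, ∃ (c : k) (φ : Opr v E) (Φ : Opr v LE), φ ∈ T ∧ IsExt L φ Φ ∧
        ∀ x ∈ LE, ψ x = algebraMap k Ω c * x + fn Φ x := by
  obtain ⟨𝒜, hA⟩ := exists_opX hO hLT (extS T L LE) (by
    rintro Φ ⟨φ, -, hφ⟩
    exact hφ.lin) (by
    rintro Φ ⟨φ, hφT, hφ⟩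
    refine ⟨0, ?_⟩
    rw [hφ.eq 1 (one_mem E), fn_of_mem φ (one_mem E), map_zero]
    have h2 : (⟨1, one_mem E⟩ : E) = 1 := rfl
    rw [h2, h1 φ hφT]
    rfl)
  have hrep : ∀ ψ ∈ 𝒜, ∃ (c : k) (φ : Opr v E) (Φ : Opr v LE), φ ∈ T ∧ IsExt L φ Φ ∧
      ∀ x ∈ LE, ψ x = algebraMap k Ω c * x + fn Φ x := by
    intro ψ hψ
    obtain ⟨c, Φ, hΦ, h2⟩ := hA.rep ψ hψ
    have h3 : ∃ φ ∈ T, IsExt L φ Φ := by
      clear h2
      induction hΦ using Submodule.span_induction with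
      | mem Φ hΦ => exact hΦ
      | zero => exact ⟨0, zero_mem _, fun e _ => by rw [fn_opZero, fn_opZero], fun l _ x _ => by
          rw [fn_opZero, fn_opZero, mul_zero]⟩
      | add Φ Ψ _ _ h3 h4 =>
        obtain ⟨φ, h5, h6⟩ := h3
        obtain ⟨ψ, h7, h8⟩ := h4
        exact ⟨φ + ψ, add_mem h5 h7, fun e he => by rw [fn_opAdd, fn_opAdd, h6.eq e he, h8.eq e he],
          fun l hl x hx => by rw [fn_opAdd, fn_opAdd, h6.lin l hl x hx, h8.lin l hl x hx, mul_add]⟩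
      | smul a Φ _ h3 =>
        obtain ⟨φ, h5, h6⟩ := h3
        exact ⟨a • φ, Submodule.smul_mem _ a h5,
          fun e he => by rw [fn_opSmul, fn_opSmul, h6.eq e he],
          fun l hl x hx => by rw [fn_opSmul, fn_opSmul, h6.lin l hl x hx, mul_smul_comm]⟩
    obtain ⟨φ, h4, h5⟩ := h3
    exact ⟨c, φ, Φ, h4, h5, h2⟩
  refine ⟨𝒜, hA, ⟨hA.op.ge, hA.lin, fun ψ hψ => ?_⟩, hA.op.one, fun φ hφ Φ hΦ =>
    hA.mem Φ ⟨φ, hφ, hΦ⟩, hrep⟩
  obtain ⟨c, φ, Φ, h2, h3, h4⟩ := hrep ψ hψ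
  exact ⟨c, φ, h2, fun x hx => by rw [h4 x (hELE hx), h3.eq x hx]⟩

end Ex

section Main

variable [hp : Fact p.Prime] [CharP k p] [CharP Ω p] [PerfectRing k p] [IsAlgClosed Ω]
  [hcx : Fact (Ctx0 k v)]

omit [CharP k p] [PerfectRing k p] [IsAlgClosed Ω] hcx in
theorem roots_sup {A K : IntermediateField k Ω} {S : Set Ω} (hA : ∀ a ∈ A, ∃ b ∈ K, b ^ p = a)
    (hS : ∀ s ∈ S, ∃ b ∈ K, b ^ p = s) :
    ∀ a ∈ A ⊔ IntermediateField.adjoin k S, ∃ b ∈ K, b ^ p = a := by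
  have hk : ∀ x : k, algebraMap k Ω x ∈ K.toSubfield.map (frobenius Ω p) := fun x =>
    hA _ (A.algebraMap_mem x)
  set K' : IntermediateField k Ω := Subfield.toIntermediateField
    (K.toSubfield.map (frobenius Ω p)) hk with hK'
  have h1 : ∀ x, x ∈ K' ↔ ∃ b ∈ K, b ^ p = x := fun x => by
    change (∃ b ∈ K, frobenius Ω p b = x) ↔ ∃ b ∈ K, b ^ p = x
    exact Iff.rfl
  have h2 : A ⊔ IntermediateField.adjoin k S ≤ K' :=
    sup_le (fun x hx => (h1 x).2 (hA x hx)) (IntermediateField.adjoin_le_iff.2 fun x hx =>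
      (h1 x).2 (hS x hx))
  exact fun a ha => (h1 a).1 (h2 ha)

omit [CharP k p] [PerfectRing k p] hcx in
theorem roots_clI {A K : IntermediateField k Ω} (hK : Cld v K)
    (hA : ∀ a ∈ A, ∃ b ∈ K, b ^ p = a) : ∀ a ∈ clI v A, ∃ b ∈ K, b ^ p = a := by
  intro a ha
  have hp0 : (0 : ℝ) < p := by exact_mod_cast hp.out.pos
  obtain ⟨b, hb⟩ := IsAlgClosed.exists_pow_nat_eq a hp.out.pos
  refine ⟨b, hK (mem_clI.2 fun r => ?_), hb⟩
  obtain ⟨a₀, ha₀, h1⟩ := (mem_clI.1 ha) (p * r)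
  obtain ⟨b₀, hb₀, h2⟩ := hA a₀ ha₀
  refine ⟨b₀, hb₀, fun h0 => ?_⟩
  rw [← hb, ← h2, ← sub_pow_char] at h1
  have h3 := h1 (pow_ne_zero p h0)
  rw [v.map_pow h0] at h3
  exact le_of_mul_le_mul_left h3 hp0

/-- Division by `p` in `GK`. -/
theorem exists_gk_div {γ : ℝ} {Λ : Submodule ℚ ℝ} {g : ℝ} (hg : g ∈ GK p γ Λ) :
    ∃ c : ℤ, g / p - c * (γ / p) ∈ GK p γ Λ := by
  have hp0 : (p : ℝ) ≠ 0 := by exact_mod_cast hp.out.ne_zero
  obtain ⟨n, hn, m, l, hl, h1⟩ := hg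
  have hcop : IsCoprime (n : ℤ) (p : ℤ) :=
    Nat.isCoprime_iff_coprime.2 ((Nat.Prime.coprime_iff_not_dvd hp.out).2 hn).symm
  obtain ⟨s, t, hst⟩ := hcop
  refine ⟨m * s, n, hn, m * t, (1 / (p : ℚ)) • l, Λ.smul_mem _ hl, ?_⟩
  have h2 : (s : ℝ) * n + t * p = 1 := by exact_mod_cast hst
  rw [Rat.smul_def]
  push_cast
  field_simp
  linear_combination h1 - (m * γ) * h2

omit [PerfectRing k p] hcx in
/-- **The roots of the elements of the base with monomials.** -/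
theorem roots_pm (hc : CompleteV v) {M : ℝ → Ω} {Λ : Submodule ℚ ℝ} (hM : Mns v x M Λ)
    (hr : ∀ n, x (n + 1) ^ p = x n) (hx0 : x 0 ≠ 0) (hxW : x 0 ∈ W)
    (hW : ∀ a ∈ W, ∃ Q ∈ PI W, (Q.eval (x 1)) ^ p = a) :
    ∀ a ∈ PM v W (GK p (v (x 0)) Λ) M, ∃ Q ∈ PI (PM v W (GK p (v (x 0)) Λ) M),
      (Q.eval (x 1)) ^ p = a := by
  have hp0 : (p : ℝ) ≠ 0 := by exact_mod_cast hp.out.ne_zero
  have htop : ∀ g : ℝ, g ∈ (⊤ : AddSubgroup ℝ) := AddSubgroup.mem_top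
  set B := PM v W (GK p (v (x 0)) Λ) M with hB
  have hxB : x 0 ∈ B := PM.le hxW
  have hK : Cld v (adj B (x 1)) := cld_adj_pow hc PM.cld (by rw [hr]; exact hxB)
  have hBK : B ≤ adj B (x 1) := (D2P.mem_adj_self B (x 1)).2
  have h1 : ∀ a ∈ B, ∃ b ∈ adj B (x 1), b ^ p = a := by
    rw [hB]
    refine roots_clI hK (roots_sup (fun a ha => ?_) ?_)
    · obtain ⟨Q, hQ, h2⟩ := hW a ha
      exact ⟨_, eval_mem_adj (PI_mono PM.le hQ) _, h2⟩
    · rintro _ ⟨g, hg, rfl⟩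
      obtain ⟨c, h2⟩ := exists_gk_div hg
      refine ⟨M (g / p), ?_, ?_⟩
      · have e1 : g / p = (g / p - c * (v (x 0) / p)) + c * (v (x 0) / p) := by ring
        have h3 : M (v (x 0) / p) = x 1 := by
          rw [hM.root hr 1, pow_one]
        rw [e1, hM.ms.mul _ (htop _) _ (htop _), TWS.MS.zpow hM.ms (htop _), h3]
        exact mul_mem (hBK (PM.mon h2)) (zpow_mem (D2P.mem_adj_self B (x 1)).1 c)
      · rw [← hM.ms.pow (htop _) p]
        congr 1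
        field_simp
  intro a ha
  obtain ⟨b, hb, h2⟩ := h1 a ha
  obtain ⟨Q, hQ, h3⟩ := exists_poly_adj hr hxB 1 hb
  exact ⟨Q, hQ, by rw [← h3, h2]⟩

/-- **The property `V'`** for the operators of one tight element (`m = 1` in `TWC.NsdAt`), with the
operators on the torsion. -/
def NsdOne (p : ℕ) [Fact p.Prime] [CharP k p] [CharP Ω p] [PerfectRing k p] (v : RVal Ω)
    [Fact (Ctx0 k v)] (hc : CompleteV v) (W L : IntermediateField k Ω) (X : ℕ → Ω) (r : ℝ) : Prop :=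
  ∀ (M : ℝ → Ω) (Λ : Submodule ℚ ℝ), TWC.Mns v X M Λ →
    (∀ g ∈ VG v (EW v W X), M g ∈ EW v W X) →
    ∀ D : TWC.PDat p v (PM v W (GK p (v (X 0)) Λ) M) (PM v L (GK p (v (X 0)) Λ) M)
      (PM v (EW v W X) (GK p (v (X 0)) Λ) M) (fun n => (![X n] : Fin 1 → Ω))
      (fun n l => M ((![r] : Fin 1 → ℝ) l / p ^ n)) ![r], NSDp p (D.oper hc)

/-- **R8.** The operators for a tight element of any base. -/
theorem exists_htOp (hc : CompleteV v) (hO : SphC v) (hM : ∃ M : ℝ → Ω, MS v ⊤ M)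
    {W E : IntermediateField k Ω} {X : ℕ → Ω} {r : ℝ} (hv : v (X 0) ≠ 0)
    (hE : E = EW v W X) (hrt : ∀ a ∈ W, ∃ Q ∈ PI W, (Q.eval (X 1)) ^ p = a)
    (hRat : RatV v W (v (X 0)))
    (hdiv : ∀ g ∈ VG v W, g / p ∈ VG v W) (hW : Tgt p v W X r) (hL : Tgt p v L X r) (hle : W ≤ L)
    (hN : NsdOne p v hc W L X r) {n : ℕ} (hT : TowR v n E (clI v (L ⊔ E))) :
    ∃ (G : AddSubgroup ℝ) (M : ℝ → Ω) (T : Submodule k (Opr v (PM v E G M)))
      (𝒜 : Submodule k (Module.End k Ω)), HtOp p v W E L (clI v (L ⊔ E)) G M T 𝒜 := by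
  subst hE
  have hx0 : X 0 ≠ 0 := ne_zero_of_far hW.root (hW.dst 0).far
  have hperf := perf_one (v := v) hW.root hrt
  obtain ⟨M, Λ, hMn, hMP, H, D⟩ := exists_data1 hcx.out hc hM hv hperf hRat hdiv hW hL hle
    hT.imm
  have hroot := roots_pm hc hMn hW.root hx0 hW.mem hrt
  set G := GK p (v (X 0)) Λ with hG
  set P := EW v W X with hP
  have hMP' : ∀ g ∈ VG v P, M g ∈ P := fun g hg => hMP.mem g trivial hg
  have htop : ∀ g : ℝ, g ∈ (⊤ : AddSubgroup ℝ) := AddSubgroup.mem_top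
  have hcH : ∀ (n : ℕ) (l : Fin 1), Hg P G M (M ((![r] : Fin 1 → ℝ) l / p ^ n)) :=
    fun n l => Hg.of_top hMn.ms hMP' H.vals _
  have hNp := hN M Λ hMn hMP' D
  have h := D.oper hc
  have hlin : ∀ φ ∈ adjT (genW p v (PM v W G M) (PM v P G M) (fun n => ![X n])
      (fun n l => M ((![r] : Fin 1 → ℝ) l / p ^ n))), ∀ a ∈ PM v W G M,
      ∀ x ∈ PM v P G M, fn φ (a * x) = a * fn φ x := by
    intro φ hφ a ha y hy
    have h1 := h.lin φ hφ ⟨a, PM.mono H.CP ha⟩ ha ⟨y, hy⟩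
    have h2 := congrArg (fun y : PM v P G M => (y : Ω)) h1
    rw [fn_of_mem φ (mul_mem (PM.mono H.CP ha) hy), fn_of_mem φ hy]
    exact h2
  have hLLP : PM v L G M ≤ PM v (clI v (L ⊔ P)) G M :=
    PM.mono (le_sup_left.trans (TWC.self_le_clI v _))
  have hPLP : PM v P G M ≤ PM v (clI v (L ⊔ P)) G M :=
    PM.mono (le_sup_right.trans (TWC.self_le_clI v _))
  obtain ⟨𝒜, hA, hnx, h1, hmem, hrep⟩ := exists_nxT (L := PM v L G M)
    (LE := PM v (clI v (L ⊔ P)) G M) hO hLLP hPLP h.one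
  have hnil : NilpB v (adjT (genW p v (PM v W G M) (PM v P G M) (fun n => ![X n])
      (fun n l => M ((![r] : Fin 1 → ℝ) l / p ^ n)))) (PM v L G M)
      (PM v (clI v (L ⊔ P)) G M) := by
    have h2 := D.nilpB hc
    rwa [← PM.sup] at h2
  exact ⟨G, M, _, 𝒜,
    { D := H.descM hc D
      sph := hO
      op := h
      nil := hnil
      nsd := hNp
      ms := hMn.ms
      mon := fun g => (Hg.of_top hMn.ms hMP' H.vals g).mem
      vals := H.vals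
      hom := ⟨HomS _, fun φ hφ => hφ.1, span_homog H hcH hlin, fun φ hφ => hφ.2⟩
      nx := hnx
      one := h1
      mem := hmem
      rep := hrep
      dat := ⟨X, r, hv, hW, hL, rfl, H, D, rfl, hroot⟩ }⟩

end Main

end Pool.Agent.TWHT
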