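import Pool.Agent.Lib.TWHT.Exit9
import Pool.Agent.Lib.TWHT.HtI
import Pool.Agent.Lib.TWJ2.NearH
import Pool.Agent.Lib.TWC.SlackX
import Pool.Agent.Lib.TWC.HandG
import Pool.Agent.Lib.TWF.RtsT

/-!
# TANK W, leaf (Ht): from the rows to the leaf

* `HtCoreRow`: the descent of towers of length three from `EW v W X` to `W`;
* `HtNsdRow`: the property `NSDp`, `W` the closure of the algebraic closure of `k(X 0)`;
* `HtEntRow`: the tower over `EW v W X` of a purely inseparable extension;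
* `HtTgtRow`: `X` is tight in the closure of `K₀(al)`;
* `tow3_sph`: the tower over `W`, `Ω` spherically complete; `tow3_any`: any `Ω`, by the Hahn field;
* **`leafD_altH_of_rows`**: the leaf of the honest floors over a tight base.
-/

set_option autoImplicit false

open Polynomial

namespace Pool.Agent.TWHT

open Pool.Agent.H15JM (RVal)
open Pool.Agent.LU1 (VPos adj)
open Pool.Agent.D2 (Ctx0)
open Pool.Agent.D2P (clI mem_clI mem_adj_self)
open Pool.Agent.TWM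
open Pool.Agent.TWS (VG TowR SphC MonG RatV IsoE HF hv)
open Pool.Agent.TWC (EW Tgt towR_map towR_of_map tgt_map vg_map ratv_map ratv_of_ctx perf_ew
  exists_ms)
open Pool.Agent.TWF (WX Hon AltH LeafD OnB Bs rts_tgt)
open Pool.Agent.TWS7 (PDiv)
open Pool.Agent.TWJ2 (Bad wx_map)

universe u

section Rows

variable (p : ℕ) [Fact p.Prime] (k : Type u) [Field k] [CharP k p] [PerfectRing k p]

/-- **Rows R7, R8**: the descent. -/
def HtCoreRow : Prop :=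
  ∀ (Ω : Type u) [Field Ω] [Algebra k Ω] [IsAlgClosed Ω] [CharP Ω p] (v : RVal Ω)
    [Fact (Ctx0 k v)] (hc : CompleteV v) (W L : IntermediateField k Ω) (X : ℕ → Ω) (r : ℝ),
    SphC v → (∃ M : ℝ → Ω, MS v ⊤ M) → v (X 0) ≠ 0 →
    (∀ a ∈ W, ∃ Q ∈ PI W, (Q.eval (X 1)) ^ p = a) → RatV v W (v (X 0)) →
    (∀ g ∈ VG v W, g / p ∈ VG v W) → Tgt p v W X r → Tgt p v L X r → W ≤ L →
    NsdOne p v hc W L X r → TowR v 3 (EW v W X) (clI v (L ⊔ EW v W X)) → TowR v 3 W L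

/-- **Row R7** for all the fields. -/
def HtR7 : Prop :=
  ∀ (Ω : Type u) [Field Ω] [Algebra k Ω] [IsAlgClosed Ω] [CharP Ω p] (v : RVal Ω)
    [Fact (Ctx0 k v)] (C P L LP : IntermediateField k Ω) (G : AddSubgroup ℝ) (M : ℝ → Ω)
    (T : Submodule k (TWC.Opr v (TWS.PM v P G M))) (𝒜 : Submodule k (Module.End k Ω)),
    HtOp p v C P L LP G M T 𝒜 → TowR v 3 P LP → TowR v 3 C L

/-- R8 (`exists_htOp`) and R7 give the descent. -/
theorem htCoreRow_of_r7 (h7 : HtR7 p k) : HtCoreRow p k := by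
  intro Ω _ _ _ _ v _ hc W L X r hO hM hv hrt hRat hdiv hW hL hle hN hT
  obtain ⟨G, M, T, 𝒜, H⟩ := exists_htOp hc hO hM hv rfl hrt hRat hdiv hW hL hle hN hT
  exact h7 Ω v W (EW v W X) L _ G M T 𝒜 H hT

/-- **Row (74)**: `NSDp` for the closure of the algebraic closure of `k(X 0)`. -/
def HtNsdRow : Prop :=
  ∀ (Ω : Type u) [Field Ω] [Algebra k Ω] [IsAlgClosed Ω] [CharP Ω p] (v : RVal Ω)
    [Fact (Ctx0 k v)] (hc : CompleteV v) (W L : IntermediateField k Ω) (X : ℕ → Ω) (r : ℝ),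
    SphC v → (∃ M : ℝ → Ω, MS v ⊤ M) → X 0 ≠ 0 → v (X 0) ≠ 0 → W = WX v W (X 0) →
    (∀ a ∈ W, ∃ Q ∈ PI W, (Q.eval (X 1)) ^ p = a) → RatV v W (v (X 0)) →
    (∀ g ∈ VG v W, g / p ∈ VG v W) → Tgt p v W X r → Tgt p v L X r → W ≤ L →
    NsdOne p v hc W L X r

end Rows

section Rows

variable (p : ℕ) [Fact p.Prime] (k : Type u) [Field k]

/-- **Row R9**: the entry. -/
def HtEntRow : Prop :=
  ∀ (Ω : Type u) [Field Ω] [Algebra k Ω] [IsAlgClosed Ω] [CharP Ω p] (v : RVal Ω)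
    [Fact (Ctx0 k v)], CompleteV v → ∀ (W K L : IntermediateField k Ω) (X : ℕ → Ω) (r : ℝ),
    (∃ M : ℝ → Ω, MonG v (EW v W X) ⊤ M) → (∀ a ∈ EW v W X, ∃ b ∈ EW v W X, b ^ p = a) →
    Tgt p v W X r → TowR v 3 W K → K ≤ L → (∀ a ∈ L, a ^ p ∈ K) → Cld v L →
    TowR v 3 (EW v W X) (clI v (L ⊔ EW v W X))

/-- **Row (68)**: `X` is tight in the closure of `K₀(al)`. -/
def HtTgtRow : Prop :=
  ∀ (Ω : Type u) [Field Ω] [Algebra k Ω] [IsAlgClosed Ω] [CharP Ω p] (v : RVal Ω)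
    (K₀ : IntermediateField k Ω) (al : Ω) (C₁ C W : IntermediateField k Ω) (X : ℕ → Ω)
    (y : Ω) (r s : ℝ), Bad p v k 1 K₀ al → PDiv p v (clI v K₀) → Bs p v C₁ C →
    TowR v 2 C (clI v K₀) → Hon p v C W (X 0) y s → Tgt p v W X r →
    Tgt p v (clI v (adj K₀ al)) X r

end Rows

section Main

variable {p : ℕ} [hp : Fact p.Prime] {k : Type u} [Field k] [CharP k p] [IsAlgClosed k]
  [PerfectRing k p] {Ω : Type u} [Field Ω] [Algebra k Ω] [IsAlgClosed Ω] [CharP Ω p] {v : RVal Ω}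
  {W K L : IntermediateField k Ω} {X : ℕ → Ω} {r : ℝ}

/-- **The tower over `W`**, `Ω` spherically complete with all real values. -/
theorem tow3_sph (hcore : HtCoreRow p k) (hnsd : HtNsdRow p k) (hent : HtEntRow p k)
    (h0 : Ctx0 k v) (hc : CompleteV v) (hO : SphC v)
    (hval : ∀ ρ : ℝ, ∃ c : Ω, c ≠ 0 ∧ v c = ρ) (hX0 : X 0 ≠ 0) (hv : v (X 0) ≠ 0)
    (hWX : W = WX v W (X 0)) (hRat : RatV v W (v (X 0))) (hdiv : ∀ g ∈ VG v W, g / p ∈ VG v W)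
    (hW : Tgt p v W X r) (hL : Tgt p v L X r) (hT : TowR v 3 W K) (hKL : K ≤ L)
    (hpow : ∀ a ∈ L, a ^ p ∈ K) : TowR v 3 W L := by
  have : Fact (Ctx0 k v) := ⟨h0⟩
  have hMS := exists_ms hval
  have hrt : ∀ a ∈ W, ∃ Q ∈ PI W, (Q.eval (X 1)) ^ p = a := by
    have h1 := rts_tgt h0 hc hW hX0 hv
    rwa [← hWX] at h1
  have hperf := perf_ew (v := v) hW.root hrt
  have hle : W ≤ L := hT.le.trans hKL
  have hX0W : X 0 ∈ W := hW.mem
  obtain ⟨M₀, hM₀⟩ := hMS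
  obtain ⟨M, hMs, hMx⟩ := TWS.exists_MS hM₀ hX0 hv
  have hMG : MonG v (EW v W X) ⊤ M := TWS.monG_top p h0 hMs hMx TWC.EW.cld hperf
    (TWC.EW.le hX0W) (hRat.imm (TWC.imm_EW h0 hdiv hW.root hX0W))
  have hE := hent Ω v hc W K L X r ⟨M, hMG⟩ hperf hW hT hKL hpow hL.cld
  exact hcore Ω v hc W L X r hO ⟨M₀, hM₀⟩ hv hrt hRat hdiv hW hL hle
    (hnsd Ω v hc W L X r hO ⟨M₀, hM₀⟩ hX0 hv hWX hrt hRat hdiv hW hL hle) hE

omit [CharP Ω p] in
/-- **The tower over `W`**, `Ω` complete. -/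
theorem tow3_any (hcore : HtCoreRow p k) (hnsd : HtNsdRow p k) (hent : HtEntRow p k)
    (h0 : Ctx0 k v) (hc : CompleteV v) (hX0 : X 0 ≠ 0) (hv : v (X 0) ≠ 0)
    (hWX : W = WX v W (X 0)) (hRat : RatV v W (v (X 0))) (hdiv : ∀ g ∈ VG v W, g / p ∈ VG v W)
    (hW : Tgt p v W X r) (hL : Tgt p v L X r) (hT : TowR v 3 W K) (hKL : K ≤ L)
    (hpow : ∀ a ∈ L, a ^ p ∈ K) : TowR v 3 W L := by
  obtain ⟨φ, hφ⟩ := TWS.exists_emb h0
  have hI : IsoE v (TWS.hv k) φ := ⟨hφ⟩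
  have : CharP (HF k) p := charP_of_injective_algebraMap (algebraMap k (HF k)).injective p
  refine towR_of_map hI hc ?_
  have hvX : TWS.hv k (φ (X 0)) = v (X 0) := hφ _ hX0
  refine tow3_sph (K := K.map φ) (X := fun n => φ (X n)) (r := r) hcore hnsd hent
    (TWS.ctx0_hv k) (TWS.completeV_hv k) (TWS.sphC_hv k) (TWS.exists_val k)
    (IsoE.ne_zero hX0) ?_ ?_ ?_ ?_ (tgt_map hI hc hW) (tgt_map hI hc hL) (towR_map hI hc hT)
    (IntermediateField.map_mono φ hKL) ?_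
  · rw [hvX]
    exact hv
  · rw [wx_map hI hc, ← hWX]
  · rw [hvX]
    exact ratv_map hI hRat
  · rw [vg_map hI]
    exact hdiv
  · rintro _ ⟨a, ha, rfl⟩
    exact ⟨a ^ p, hpow a ha, map_pow φ a p⟩

end Main

/-- **THE LEAF OF THE HONEST FLOORS OVER A TIGHT BASE**, from the rows. -/
theorem leafD_altH_of_rows {p : ℕ} [hp : Fact p.Prime] {k : Type u} [Field k] [CharP k p]
    [IsAlgClosed k] [PerfectRing k p] (hcore : HtCoreRow p k) (hnsd : HtNsdRow p k)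
    (hent : HtEntRow p k) (htgt : HtTgtRow p k) :
    LeafD p k (OnB p fun _ _ _ v C => AltH p v C) := by
  refine leafD_altH fun Ω _ _ _ _ v K₀ al C₁ C W X y r s hb hd hB hT hH hTg => ?_
  have h0 := hb.ctx.toCtx0
  have hL := htgt Ω v K₀ al C₁ C W X y r s hb hd hB hT hH hTg
  have hT3 : TowR v 3 W (clI v K₀) := by
    rw [hH.eq] at hT
    exact TowR.succ hH.tl hT
  refine tow3_any hcore hnsd hent h0 hb.cpl hH.t0 hH.vt hH.alg (ratv_of_ctx hb.ctx hH.t0 hH.vt W)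
    ?_ hTg hL hT3 ?_ ?_
  · rw [← VG.imm hT3.imm]
    exact TW.pdiv_iff_vg.1 hd
  · exact clI_mono fun a ha => (mem_adj_self K₀ al).2 ha
  · exact TWC.pow_mem_clI p (TWJ.pow_mem_of_adj1 p hb.mem)

end Pool.Agent.TWHT
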