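import Pool.Agent.Lib.TWCT.Alt0

/-!
# TANK W, leaf (Ht), the descent: fields generated by one element over their `p`-th powers

* `pbF`: the field `M ^ p [b]`, `b` in `M`;
* `PB1.sep` (B1): separable extensions of a field `N = N ^ p [x]`;
* `pb1_base` (B2): the field `k (x)`, `k` perfect;
* `sep_of_not_pow` (B6): an element which is not a `p`-th power in `N` is a separating element of
  the part of `N` which is algebraic over it.
-/

set_option autoImplicit false

open Polynomial

namespace Pool.Agent.TWHT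

open Pool.Agent.LU1 (adj)
open Pool.Agent.TWCT (PB1)

universe u

variable {k Ω : Type u} [Field k] [Field Ω] [Algebra k Ω]
  {p : ℕ} {N N' : IntermediateField k Ω} {x : Ω}

/-! ## The field `M ^ p [b]` -/

/-- `f` is in `M ^ p [b]`. -/
def IsPb (p : ℕ) (M : IntermediateField k Ω) (b f : Ω) : Prop :=
  ∃ h : ℕ → Ω, (∀ j, h j ∈ M) ∧ f = ∑ j ∈ Finset.range p, h j ^ p * b ^ j

theorem isPb_zero [hp : Fact p.Prime] {M : IntermediateField k Ω} {b : Ω} : IsPb p M b 0 :=
  ⟨fun _ => 0, fun _ => M.zero_mem, by simp [hp.out.ne_zero]⟩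

theorem IsPb.add [hp : Fact p.Prime] [CharP Ω p] {M : IntermediateField k Ω} {b f g : Ω}
    (hf : IsPb p M b f) (hg : IsPb p M b g) : IsPb p M b (f + g) := by
  obtain ⟨h, hh, rfl⟩ := hf
  obtain ⟨h', hh', rfl⟩ := hg
  refine ⟨fun j => h j + h' j, fun j => M.add_mem (hh j) (hh' j), ?_⟩
  rw [← Finset.sum_add_distrib]
  refine Finset.sum_congr rfl fun j _ => ?_
  show _ = (h j + h' j) ^ p * b ^ j
  rw [add_pow_char, add_mul]

theorem IsPb.neg [hp : Fact p.Prime] [CharP Ω p] {M : IntermediateField k Ω} {b f : Ω}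
    (hf : IsPb p M b f) : IsPb p M b (-f) := by
  obtain ⟨h, hh, rfl⟩ := hf
  refine ⟨fun j => - h j, fun j => M.neg_mem (hh j), ?_⟩
  rw [← Finset.sum_neg_distrib]
  refine Finset.sum_congr rfl fun j _ => ?_
  have h1 : (-h j) ^ p = -(h j ^ p) := by
    have := map_neg (frobenius Ω p) (h j)
    simpa only [frobenius_def] using this
  rw [h1, neg_mul]

theorem IsPb.sum [hp : Fact p.Prime] [CharP Ω p] {M : IntermediateField k Ω} {b : Ω} {ι : Type*}
    (s : Finset ι) {f : ι → Ω} (hf : ∀ i ∈ s, IsPb p M b (f i)) : IsPb p M b (∑ i ∈ s, f i) :=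
  Finset.sum_induction f (IsPb p M b) (fun _ _ h h' => h.add h') isPb_zero hf

theorem IsPb.pow_mul {M : IntermediateField k Ω} {b f g : Ω}
    (hf : IsPb p M b f) (hg : g ∈ M) : IsPb p M b (g ^ p * f) := by
  obtain ⟨h, hh, rfl⟩ := hf
  refine ⟨fun j => g * h j, fun j => M.mul_mem hg (hh j), ?_⟩
  rw [Finset.mul_sum]
  refine Finset.sum_congr rfl fun j _ => ?_
  rw [mul_pow, mul_assoc]

theorem isPb_pow [hp : Fact p.Prime] {M : IntermediateField k Ω} {b g : Ω} (hg : g ∈ M) :
    IsPb p M b (g ^ p) := by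
  refine ⟨fun j => if j = 0 then g else 0, fun j => ?_, ?_⟩
  · dsimp only
    split_ifs
    · exact hg
    · exact M.zero_mem
  · rw [Finset.sum_eq_single 0]
    · simp
    · intro j _ hj
      simp [hj, hp.out.ne_zero]
    · intro h0
      exact absurd (Finset.mem_range.2 hp.out.pos) h0

theorem isPb_one [hp : Fact p.Prime] {M : IntermediateField k Ω} {b : Ω} : IsPb p M b 1 := by
  have := isPb_pow (p := p) (M := M) (b := b) M.one_mem
  rwa [one_pow] at this

theorem IsPb.gen_mul [hp : Fact p.Prime] [CharP Ω p] {M : IntermediateField k Ω} {b f : Ω}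
    (hf : IsPb p M b f) (hb : b ∈ M) : IsPb p M b (b * f) := by
  obtain ⟨h, hh, rfl⟩ := hf
  rw [Finset.mul_sum]
  refine IsPb.sum _ fun i hi => ?_
  have hi' := Finset.mem_range.1 hi
  rcases Nat.lt_or_ge (i + 1) p with h1 | h1
  · refine ⟨fun j => if j = i + 1 then h i else 0, fun j => ?_, ?_⟩
    · dsimp only
      split_ifs
      · exact hh i
      · exact M.zero_mem
    · rw [Finset.sum_eq_single (i + 1)]
      · simp only [if_true]
        ring
      · intro j _ hj
        simp [hj, hp.out.ne_zero]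
      · intro h0
        exact absurd (Finset.mem_range.2 h1) h0
  · have h2 : i + 1 = p := by omega
    have e : b * (h i ^ p * b ^ i) = (b * h i) ^ p := by
      have e1 : b ^ p = b ^ i * b := by rw [← pow_succ, h2]
      rw [mul_pow, e1]
      ring
    rw [e]
    exact isPb_pow (M.mul_mem hb (hh i))

theorem IsPb.mul [hp : Fact p.Prime] [CharP Ω p] {M : IntermediateField k Ω} {b f g : Ω}
    (hf : IsPb p M b f) (hg : IsPb p M b g) (hb : b ∈ M) : IsPb p M b (f * g) := by
  obtain ⟨h, hh, rfl⟩ := hf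
  rw [Finset.sum_mul]
  refine IsPb.sum _ fun i _ => ?_
  have h1 : ∀ n : ℕ, IsPb p M b (b ^ n * g) := by
    intro n
    induction n with
    | zero => simpa using hg
    | succ n ih =>
      have := ih.gen_mul hb
      rwa [← mul_assoc, ← pow_succ'] at this
  have := (h1 i).pow_mul (hh i)
  rwa [← mul_assoc] at this

theorem IsPb.pow [hp : Fact p.Prime] [CharP Ω p] {M : IntermediateField k Ω} {b f : Ω}
    (hf : IsPb p M b f) (hb : b ∈ M) (n : ℕ) : IsPb p M b (f ^ n) := by
  induction n with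
  | zero =>
    rw [pow_zero]
    exact isPb_one
  | succ n ih =>
    rw [pow_succ]
    exact ih.mul hf hb

theorem IsPb.mem {M : IntermediateField k Ω} {b f : Ω} (hf : IsPb p M b f) (hb : b ∈ M) : f ∈ M := by
  obtain ⟨h, hh, rfl⟩ := hf
  exact M.sum_mem fun j _ => M.mul_mem (pow_mem (hh j) _) (pow_mem hb _)

theorem IsPb.inv [hp : Fact p.Prime] [CharP Ω p] {M : IntermediateField k Ω} {b f : Ω}
    (hf : IsPb p M b f) (hb : b ∈ M) : IsPb p M b f⁻¹ := by
  by_cases h0 : f = 0
  · rw [h0, inv_zero]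
    exact isPb_zero
  have e : f⁻¹ = f⁻¹ ^ p * f ^ (p - 1) := by
    have h1 : f ^ p = f ^ (p - 1) * f := by
      rw [← pow_succ, Nat.sub_add_cancel hp.out.one_le]
    rw [inv_pow, h1, mul_inv]
    field_simp
  rw [e]
  exact (hf.pow hb _).pow_mul (M.inv_mem (hf.mem hb))

/-- The field `M ^ p [b]`, `b` in `M`. -/
def pbF (p : ℕ) [hp : Fact p.Prime] [CharP Ω p] (M : IntermediateField k Ω) {b : Ω} (hb : b ∈ M) :
    Subfield Ω where
  carrier := {f | IsPb p M b f}
  mul_mem' h h' := h.mul h' hb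
  one_mem' := isPb_one
  add_mem' h h' := h.add h'
  zero_mem' := isPb_zero
  neg_mem' h := h.neg
  inv_mem' _ h := h.inv hb

theorem mem_pbF [hp : Fact p.Prime] [CharP Ω p] {M : IntermediateField k Ω} {b f : Ω}
    (hb : b ∈ M) : f ∈ pbF p M hb ↔ IsPb p M b f := Iff.rfl

theorem gen_mem_pbF [hp : Fact p.Prime] [CharP Ω p] {M : IntermediateField k Ω} {b : Ω}
    (hb : b ∈ M) : b ∈ pbF p M hb := by
  have := (isPb_one (p := p) (M := M) (b := b)).gen_mul hb
  rwa [mul_one] at this

/-! ## Separable extensions and `k (x)` -/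

/-- **(B1)** A separable extension `N'` of a field `N = N ^ p [x]` is `N' ^ p [x]`. -/
theorem PB1.sep [hp : Fact p.Prime] [CharP Ω p] (h : PB1 p N x) (hx : x ∈ N) (hN : N ≤ N')
    (hs : ∀ g ∈ N', IsSeparable N g) : PB1 p N' x := by
  intro g hg
  have hx' : x ∈ N' := hN hx
  let S : IntermediateField N Ω := (pbF p N' hx').toIntermediateField (by
    rintro ⟨f, hf⟩
    obtain ⟨c, hc, e⟩ := h f hf
    exact ⟨c, fun j => hN (hc j), e⟩)
  have : ExpChar N p := ExpChar.prime hp.out
  have h1 : IntermediateField.adjoin N {g} = IntermediateField.adjoin N {g ^ p} :=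
    IntermediateField.adjoin_simple_eq_adjoin_pow_expChar_of_isSeparable N Ω (hs g hg) p
  have h2 : IntermediateField.adjoin N {g ^ p} ≤ S := by
    rw [IntermediateField.adjoin_le_iff, Set.singleton_subset_iff]
    exact isPb_pow (p := p) (M := N') (b := x) hg
  have h3 : g ∈ S := h2 (h1 ▸ IntermediateField.mem_adjoin_simple_self N g)
  exact h3

/-- **(B2)** `k (x) = k (x) ^ p [x]`, `k` perfect. -/
theorem pb1_base [hp : Fact p.Prime] [CharP k p] [CharP Ω p] [PerfectRing k p] (x : Ω) :
    PB1 p (adj (⊥ : IntermediateField k Ω) x) x := by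
  intro g hg
  have hx : x ∈ adj (⊥ : IntermediateField k Ω) x :=
    (le_sup_right : IntermediateField.adjoin k {x} ≤ _) (IntermediateField.mem_adjoin_simple_self k x)
  let S : IntermediateField k Ω := (pbF p _ hx).toIntermediateField (by
    intro c
    obtain ⟨d, hd⟩ := (PerfectRing.bijective_frobenius (R := k) (p := p)).2 c
    have hd' : d ^ p = c := hd
    rw [← hd', map_pow]
    exact isPb_pow (IntermediateField.algebraMap_mem _ d))
  have h2 : adj (⊥ : IntermediateField k Ω) x ≤ S := by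
    refine sup_le bot_le ?_
    rw [IntermediateField.adjoin_le_iff, Set.singleton_subset_iff]
    exact gen_mem_pbF hx
  exact h2 hg

/-! ## Separating elements -/

/-- An element outside a subfield `K` whose `p`-th power is in `K` has degree `p` over `K`. -/
theorem finrank_insep [hp : Fact p.Prime] [CharP Ω p] (K : Subfield Ω) {y : Ω} (hy : y ^ p ∈ K)
    (hn : y ∉ K) : IsIntegral K y ∧ Module.finrank K (IntermediateField.adjoin K {y}) = p := by
  have hmon : (X ^ p - C (⟨y ^ p, hy⟩ : K) : K[X]).Monic := monic_X_pow_sub_C _ hp.out.ne_zero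
  have hroot : aeval y (X ^ p - C (⟨y ^ p, hy⟩ : K) : K[X]) = 0 := by
    rw [map_sub, map_pow, aeval_X, aeval_C]
    exact sub_self _
  have hint : IsIntegral K y := ⟨_, hmon, by rw [← aeval_def]; exact hroot⟩
  have hirr : Irreducible (X ^ p - C (⟨y ^ p, hy⟩ : K) : K[X]) := by
    refine X_pow_sub_C_irreducible_of_prime hp.out fun z hz => hn ?_
    have h1 : (z : Ω) ^ p = y ^ p := congrArg Subtype.val hz
    have h2 : (z : Ω) = y := by
      have := frobenius_inj Ω p
      exact this (by simpa only [frobenius_def] using h1)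
    exact h2 ▸ z.2
  refine ⟨hint, ?_⟩
  rw [IntermediateField.adjoin.finrank hint, ← minpoly.eq_of_irreducible_of_monic hirr hroot hmon,
    natDegree_X_pow_sub_C]

/-- **Exchange.** If `E = E ^ p [x]`, `x`, `b` are in `E` and not in `E ^ p`, then a subfield with
`E ^ p` and `b` contains `x`. -/
theorem PB1.exch [hp : Fact p.Prime] [CharP Ω p] (h : PB1 p N x) (hx : x ∈ N)
    (hxp : ∀ g ∈ N, g ^ p ≠ x) {b : Ω} (hb : b ∈ N) (hbp : ∀ g ∈ N, g ^ p ≠ b) {P : Subfield Ω}
    (hP : ∀ g ∈ N, g ^ p ∈ P) (hbP : b ∈ P) : x ∈ P := by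
  let K : Subfield Ω := N.toSubfield.map (frobenius Ω p)
  have hK : ∀ y : Ω, y ∈ K ↔ ∃ g ∈ N, g ^ p = y := fun y => by
    rw [Subfield.mem_map]
    rfl
  have hx1 : x ^ p ∈ K := (hK _).2 ⟨x, hx, rfl⟩
  have hx2 : x ∉ K := fun h0 => by
    obtain ⟨g, hg, e⟩ := (hK _).1 h0
    exact hxp g hg e
  have hb1 : b ^ p ∈ K := (hK _).2 ⟨b, hb, rfl⟩
  have hb2 : b ∉ K := fun h0 => by
    obtain ⟨g, hg, e⟩ := (hK _).1 h0
    exact hbp g hg e
  obtain ⟨hix, hfx⟩ := finrank_insep (p := p) K hx1 hx2
  obtain ⟨-, hfb⟩ := finrank_insep (p := p) K hb1 hb2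
  have hle : IntermediateField.adjoin K {b} ≤ IntermediateField.adjoin K {x} := by
    rw [IntermediateField.adjoin_le_iff, Set.singleton_subset_iff]
    obtain ⟨c, hc, e⟩ := h b hb
    have hxL := IntermediateField.mem_adjoin_simple_self K x
    rw [e]
    refine (IntermediateField.adjoin K {x}).sum_mem fun j _ => mul_mem ?_ (pow_mem hxL j)
    exact IntermediateField.algebraMap_mem (IntermediateField.adjoin K {x})
      (⟨c j ^ p, (hK _).2 ⟨c j, hc j, rfl⟩⟩ : K)
  have : FiniteDimensional K (IntermediateField.adjoin K {x}) :=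
    IntermediateField.adjoin.finiteDimensional hix
  have heq := IntermediateField.eq_of_le_of_finrank_eq hle (hfb.trans hfx.symm)
  let S : IntermediateField K Ω := P.toIntermediateField (by
    rintro ⟨y, hy⟩
    obtain ⟨g, hg, e⟩ := (hK _).1 hy
    exact e ▸ hP g hg)
  have h2 : IntermediateField.adjoin K {b} ≤ S := by
    rw [IntermediateField.adjoin_le_iff, Set.singleton_subset_iff]
    exact hbP
  have h3 : x ∈ S := h2 (heq ▸ IntermediateField.mem_adjoin_simple_self K x)
  exact h3

/-- **(B6)** `x` is a separating element of the part of `N` which is algebraic over `k (x)`. -/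
theorem sep_of_not_pow [hp : Fact p.Prime] [CharP k p] [CharP Ω p] [PerfectRing k p]
    (hx : x ∈ N) (hxp : ∀ g ∈ N, g ^ p ≠ x) {a : Ω} (ha : a ∈ N)
    (hal : IsAlgebraic (adj (⊥ : IntermediateField k Ω) x) a) :
    IsSeparable (adj (⊥ : IntermediateField k Ω) x) a := by
  classical
  have hFN : adj (⊥ : IntermediateField k Ω) x ≤ N := by
    refine sup_le bot_le ?_
    rw [IntermediateField.adjoin_le_iff, Set.singleton_subset_iff]
    exact hx
  have hxF : x ∈ adj (⊥ : IntermediateField k Ω) x :=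
    (le_sup_right : IntermediateField.adjoin k {x} ≤ _) (IntermediateField.mem_adjoin_simple_self k x)
  have hF : PB1 p (adj (⊥ : IntermediateField k Ω) x) x := pb1_base x
  generalize adj (⊥ : IntermediateField k Ω) x = F at hal hFN hxF hF ⊢
  have : ExpChar F p := ExpChar.prime hp.out
  have hex : ∃ n : ℕ, IsSeparable F (a ^ p ^ n) := by
    obtain ⟨g, hg, n, hn⟩ := (minpoly.irreducible hal.isIntegral).hasSeparableContraction p
    refine ⟨n, ?_⟩
    have h1 : aeval (a ^ p ^ n) g = 0 := by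
      rw [← expand_aeval, hn, minpoly.aeval]
    exact hg.of_dvd (minpoly.dvd F _ h1)
  rcases Nat.eq_zero_or_pos (Nat.find hex) with h0 | h0
  · have := Nat.find_spec hex
    rwa [h0, pow_zero, pow_one] at this
  exfalso
  obtain ⟨m, hm⟩ : ∃ m, Nat.find hex = m + 1 := ⟨Nat.find hex - 1, by omega⟩
  have hb := Nat.find_spec hex
  have hc : ¬ IsSeparable F (a ^ p ^ m) := Nat.find_min hex (by omega)
  rw [hm, pow_succ, pow_mul] at hb
  have hcN : a ^ p ^ m ∈ N := pow_mem ha _
  generalize a ^ p ^ m = c at hb hc hcN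
  -- the field `F (c ^ p)`
  let E : IntermediateField k Ω := (IntermediateField.adjoin F {c ^ p}).restrictScalars k
  have hEsep : ∀ g ∈ E, IsSeparable F g := by
    have : Algebra.IsSeparable F (IntermediateField.adjoin F {c ^ p}) :=
      (IntermediateField.isSeparable_adjoin_simple_iff_isSeparable F Ω).2 hb
    intro g hg
    exact IntermediateField.isSeparable_of_mem_isSeparable F Ω hg
  have hFE : F ≤ E := fun f hf => IntermediateField.algebraMap_mem (IntermediateField.adjoin F {c ^ p})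
    (⟨f, hf⟩ : F)
  have hbE : c ^ p ∈ E := IntermediateField.mem_adjoin_simple_self F (c ^ p)
  have hEN : E ≤ N := by
    let N' : IntermediateField F Ω := N.toSubfield.toIntermediateField (fun f => hFN f.2)
    have h1 : IntermediateField.adjoin F {c ^ p} ≤ N' := by
      rw [IntermediateField.adjoin_le_iff, Set.singleton_subset_iff]
      exact pow_mem hcN p
    exact fun g hg => h1 hg
  have hpbE : PB1 p E x := PB1.sep hF hxF hFE hEsep
  have hxN := PB1.exch hpbE (hFE hxF) (fun g hg => hxp g (hEN hg)) hbE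
    (fun g hg e => hc (by
      have h2 : g = c := frobenius_inj Ω p (by simpa only [frobenius_def] using e)
      exact h2 ▸ hEsep g hg))
    (P := N.toSubfield.map (frobenius Ω p))
    (fun g hg => Subfield.mem_map.2 ⟨g, hEN hg, rfl⟩) (Subfield.mem_map.2 ⟨c, hcN, rfl⟩)
  obtain ⟨g, hg, e⟩ := Subfield.mem_map.1 hxN
  exact hxp g hg e

end Pool.Agent.TWHT
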