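import Pool.Agent.Lib.TWA.Disc
import Pool.Agent.Lib.TWM.B1

/-!
# TANK W, leaf (Ht), row H1, piece (B5): finite extensions of `k(x)` are discrete

`disc_fin`: `N = k(x, S)`, `S` a finite set of elements algebraic over `k(x)`, `v x ≠ 0`: the values of
the closure of `N` are the integral multiples of one value `γ > 0` of `N`.
-/

set_option autoImplicit false

open Polynomial

namespace Pool.Agent.TWHT

open Pool.Agent.H15JM (RVal)
open Pool.Agent.LU1 (VPos adj)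
open Pool.Agent.D2 (Ctx0)
open Pool.Agent.D2P (hen clI mem_clI mem_adj_self)
open Pool.Agent.TWA (kd)
open Pool.Agent.TWM

universe u

variable {k Ω : Type u} [Field k] [Field Ω] [Algebra k Ω] {v : RVal Ω} {x : Ω}

theorem adj_inv_b5 (x : Ω) : adj (⊥ : IntermediateField k Ω) x⁻¹ = adj ⊥ x := by
  refine le_antisymm (D2P.adj_le bot_le (inv_mem (mem_adj_self _ x).1))
    (D2P.adj_le bot_le ?_)
  have h1 : (x⁻¹)⁻¹ ∈ adj (⊥ : IntermediateField k Ω) x⁻¹ := inv_mem (mem_adj_self _ x⁻¹).1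
  rwa [inv_inv] at h1

theorem disc_fin_pos [hcx : Fact (Ctx0 k v)] (hx0 : x ≠ 0) (hvx : 0 < v x) (S : Finset Ω)
    (hS : ∀ s ∈ S, IsAlgebraic (adj (⊥ : IntermediateField k Ω) x) s) :
    ∃ γ : ℝ, 0 < γ ∧ (∃ e ∈ adj (⊥ : IntermediateField k Ω) x ⊔
        IntermediateField.adjoin k (S : Set Ω), e ≠ 0 ∧ v e = γ) ∧
      ∀ a ∈ adj (⊥ : IntermediateField k Ω) x ⊔ IntermediateField.adjoin k (S : Set Ω), a ≠ 0 →
        ∃ z : ℤ, v a = z * γ := by
  rw [TWA.kd_eq] at hS ⊢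
  set M : IntermediateField (kd k x) Ω := IntermediateField.adjoin (kd k x) (S : Set Ω) with hM
  have hfd : FiniteDimensional (kd k x) M :=
    IntermediateField.finiteDimensional_adjoin fun s hs => (hS s hs).isIntegral
  have hMN : kd k x ⊔ IntermediateField.adjoin k (S : Set Ω) = M.restrictScalars k := by
    rw [hM, IntermediateField.restrictScalars_adjoin, IntermediateField.adjoin_union,
      IntermediateField.adjoin_self]
  have hmem : ∀ a, a ∈ kd k x ⊔ IntermediateField.adjoin k (S : Set Ω) ↔ a ∈ M := fun a => by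
    rw [hMN]
    rfl
  obtain ⟨π, hπ, hπ0, hπv, hmin⟩ := TWA.exists_unif hcx.out hx0 hvx M
  refine ⟨v π, hπv, ⟨π, (hmem π).2 hπ, hπ0, rfl⟩, fun a ha ha0 => ?_⟩
  obtain ⟨z, hz⟩ : ∃ z : ℤ, z = ⌊v a / v π⌋ := ⟨_, rfl⟩
  have hq0 : π ^ (-z) ≠ 0 := zpow_ne_zero _ hπ0
  have h0 : a * π ^ (-z) ≠ 0 := mul_ne_zero ha0 hq0
  have hv : v (a * π ^ (-z)) = v a - z * v π := by
    rw [v.map_mul ha0 hq0, v.map_zpow hπ0]
    push_cast
    ring
  have h1 : (z : ℝ) * v π ≤ v a := by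
    have := Int.floor_le (v a / v π)
    rw [← hz, le_div_iff₀ hπv] at this
    exact this
  have h2 : v a < ((z : ℝ) + 1) * v π := by
    have := Int.lt_floor_add_one (v a / v π)
    rw [← hz, div_lt_iff₀ hπv] at this
    exact this
  refine ⟨z, ?_⟩
  by_contra hne
  have h3 : 0 < v (a * π ^ (-z)) := by
    rw [hv]
    rcases lt_or_eq_of_le h1 with h | h
    · linarith
    · exact absurd h.symm hne
  have h4 := hmin _ (mul_mem ((hmem a).1 ha) (zpow_mem hπ _)) h0 h3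
  rw [hv] at h4
  linarith

/-- **(B5)**: finite extensions of `k(x)` are discrete. -/
theorem disc_fin [hcx : Fact (Ctx0 k v)] (hx0 : x ≠ 0) (hvx : v x ≠ 0) (S : Finset Ω)
    (hS : ∀ s ∈ S, IsAlgebraic (adj (⊥ : IntermediateField k Ω) x) s) :
    ∃ γ : ℝ, 0 < γ ∧ (∃ e ∈ adj (⊥ : IntermediateField k Ω) x ⊔
        IntermediateField.adjoin k (S : Set Ω), e ≠ 0 ∧ v e = γ) ∧
      ∀ a ∈ clI v (adj (⊥ : IntermediateField k Ω) x ⊔ IntermediateField.adjoin k (S : Set Ω)),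
        a ≠ 0 → ∃ z : ℤ, v a = z * γ := by
  obtain ⟨γ, hγ, he, h1⟩ : ∃ γ : ℝ, 0 < γ ∧ (∃ e ∈ adj (⊥ : IntermediateField k Ω) x ⊔
        IntermediateField.adjoin k (S : Set Ω), e ≠ 0 ∧ v e = γ) ∧
      ∀ a ∈ adj (⊥ : IntermediateField k Ω) x ⊔ IntermediateField.adjoin k (S : Set Ω), a ≠ 0 →
        ∃ z : ℤ, v a = z * γ := by
    rcases lt_or_gt_of_ne hvx with h | h
    · have h2 := disc_fin_pos (k := k) (v := v) (inv_ne_zero hx0)
        (by rw [v.map_inv hx0]; linarith) S (by rwa [adj_inv_b5])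
      rwa [adj_inv_b5] at h2
    · exact disc_fin_pos hx0 h S hS
  refine ⟨γ, hγ, he, fun a ha ha0 => ?_⟩
  obtain ⟨b, hb, h2⟩ := mem_clI.1 ha (v a + 1)
  obtain ⟨h4, h5⟩ := Gt.val_eq ha0 (Gt.of_ge h2 (by linarith))
  obtain ⟨z, hz⟩ := h1 b hb h4
  exact ⟨z, by rw [← h5, hz]⟩

end Pool.Agent.TWHT
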