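import Pool.Agent.Lib.TWHT.Hd

/-!
# TANK W, leaf (Ht): `p`-bases of closures and of the tame base

* `HDer.coef_bound`: the coefficients of an element of `N` are bounded by the element;
* `HDer.pb1_clI`: `x` is a `p`-basis of the closure of `N`;
* `pb1_tb`: `x` is a `p`-basis of the tame base.
-/

set_option autoImplicit false

open Polynomial

namespace Pool.Agent.TWHT

open Pool.Agent.H15JM (RVal)
open Pool.Agent.LU1 (VPos adj)
open Pool.Agent.D2 (Ctx0)
open Pool.Agent.D2P (hen clI mem_clI)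
open Pool.Agent.TWM
open Pool.Agent.TWCT (PB1 RStep)

universe u

variable {k Ω : Type u} [Field k] [Field Ω] [Algebra k Ω] {v : RVal Ω}
  {p : ℕ} {N N' : IntermediateField k Ω} {x : Ω} {D : ℕ → Ω → Ω}

theorem HDer.one (h : HDer p v N x D) (m : ℕ) : D (m + 1) 1 = 0 := by
  induction m using Nat.strong_induction_on with
  | _ m ih =>
    have h1 := h.mul (m + 1) 1 (one_mem _) 1 (one_mem _)
    rw [mul_one, Finset.Nat.sum_antidiagonal_succ', h.zero 1 (one_mem _), mul_one] at h1
    have h2 : ∑ q ∈ Finset.HasAntidiagonal.antidiagonal m, D q.1 1 * D (q.2 + 1) 1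
        = D (m + 1) 1 := by
      cases m with
      | zero => simp [h.zero 1 (one_mem _)]
      | succ m =>
        rw [Finset.Nat.sum_antidiagonal_succ, h.zero 1 (one_mem _), one_mul,
          Finset.sum_eq_zero (s := Finset.HasAntidiagonal.antidiagonal m), add_zero]
        intro q hq
        have h3 := Finset.HasAntidiagonal.mem_antidiagonal.1 hq
        rw [ih q.1 (by omega), zero_mul]
    rw [h2] at h1
    exact left_eq_add.1 h1

theorem HDer.mul_x (h : HDer p v N x D) (m : ℕ) {f : Ω} (hf : f ∈ N) :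
    D (m + 1) (f * x) = D (m + 1) f * x + D m f * D 1 x := by
  rw [h.mul _ f hf x h.mem, Finset.Nat.sum_antidiagonal_succ', h.zero x h.mem]
  congr 1
  cases m with
  | zero => simp
  | succ m =>
    rw [Finset.Nat.sum_antidiagonal_succ', Finset.sum_eq_zero
      (s := Finset.HasAntidiagonal.antidiagonal m), add_zero]
    intro q _
    rw [h.x2 _ (by omega), mul_zero]

theorem HDer.pow_x (h : HDer p v N x D) (j m : ℕ) (hjm : j ≤ m) :
    D m (x ^ j) = if j = m then D 1 x ^ m else 0 := by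
  induction j generalizing m with
  | zero =>
    cases m with
    | zero => simp [h.zero 1 (one_mem _)]
    | succ m => rw [pow_zero, h.one, if_neg (by omega)]
  | succ j ih =>
    obtain ⟨m, rfl⟩ : ∃ m', m = m' + 1 := ⟨m - 1, by omega⟩
    rw [pow_succ, h.mul_x m (pow_mem h.mem j), ih (m + 1) (by omega), if_neg (by omega), zero_mul,
      zero_add, ih m (by omega)]
    by_cases h1 : j = m
    · rw [if_pos h1, if_pos (by omega), pow_succ]
    · rw [if_neg h1, if_neg (by omega), zero_mul]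

theorem HDer.pow_mul (h : HDer p v N x D) {m : ℕ} (hm : m < p) {f g : Ω} (hf : f ∈ N)
    (hg : g ∈ N) : D m (f ^ p * g) = f ^ p * D m g := by
  rw [h.mul m _ (pow_mem hf p) g hg]
  cases m with
  | zero => simp [h.zero _ (pow_mem hf p)]
  | succ m =>
    rw [Finset.Nat.sum_antidiagonal_succ, h.zero _ (pow_mem hf p), Finset.sum_eq_zero
      (s := Finset.HasAntidiagonal.antidiagonal m), add_zero]
    intro q hq
    have h1 := Finset.HasAntidiagonal.mem_antidiagonal.1 hq
    rw [h.frob0 (q.1 + 1) (fun hd => ?_) f hf, zero_mul]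
    have := Nat.le_of_dvd (Nat.succ_pos _) hd
    omega

theorem HDer.sum (h : HDer p v N x D) (m : ℕ) {s : Finset ℕ} {f : ℕ → Ω} (hf : ∀ j, f j ∈ N) :
    D m (∑ j ∈ s, f j) = ∑ j ∈ s, D m (f j) := by
  classical
  induction s using Finset.induction_on with
  | empty =>
    rw [Finset.sum_empty, Finset.sum_empty]
    have h1 := h.add m 0 (zero_mem _) 0 (zero_mem _)
    rw [add_zero] at h1
    exact left_eq_add.1 h1
  | insert a s ha ih =>
    rw [Finset.sum_insert ha, Finset.sum_insert ha, h.add m _ (hf a) _ (sum_mem fun j _ => hf j), ih]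

/-- The coefficients are bounded. -/
theorem HDer.coef_bound (h : HDer p v N x D) (hx0 : x ≠ 0) (hD1 : D 1 x ≠ 0) (s : ℕ)
    (hs : s ≤ p) : ∃ c : ℝ, 0 ≤ c ∧ ∀ g : ℕ → Ω, (∀ j, g j ∈ N) → ∀ b : ℝ,
      v.Ge b (∑ j ∈ Finset.range s, g j ^ p * x ^ j) → ∀ j, j < s → v.Ge (b - c) (g j ^ p) := by
  induction s with
  | zero => exact ⟨0, le_rfl, fun g _ b _ j hj => absurd hj (Nat.not_lt_zero j)⟩
  | succ s ih =>
    obtain ⟨c, hc, hcb⟩ := ih (by omega)
    set c1 : ℝ := |s * v (D 1 x)| with hc1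
    set c2 : ℝ := |s * v x| with hc2
    have h1 : (0 : ℝ) ≤ c1 := abs_nonneg _
    have h2 : (0 : ℝ) ≤ c2 := abs_nonneg _
    have h1' : s * v (D 1 x) ≤ c1 := le_abs_self _
    have h2' : -c2 ≤ s * v x := neg_abs_le _
    refine ⟨c + c1 + c2, by positivity, fun g hg b hb j hj => ?_⟩
    have h3 : D s (∑ j ∈ Finset.range (s + 1), g j ^ p * x ^ j) = g s ^ p * D 1 x ^ s := by
      rw [h.sum s (fun j => mul_mem (pow_mem (hg j) p) (pow_mem h.mem j)), Finset.sum_range_succ,
        Finset.sum_eq_zero, zero_add, h.pow_mul (by omega) (hg s) (pow_mem h.mem s),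
        h.pow_x s s le_rfl, if_pos rfl]
      intro j hj
      have hj' := Finset.mem_range.1 hj
      rw [h.pow_mul (by omega) (hg j) (pow_mem h.mem j), h.pow_x j s hj'.le, if_neg hj'.ne,
        mul_zero]
    have h4 : v.Ge (b - c1) (g s ^ p) := by
      intro hne
      have h5 := h.ge s _ (sum_mem fun j _ => mul_mem (pow_mem (hg j) p) (pow_mem h.mem j)) b hb
      rw [h3] at h5
      have h6 := h5 (mul_ne_zero hne (pow_ne_zero _ hD1))
      rw [v.map_mul hne (pow_ne_zero _ hD1), v.map_pow hD1] at h6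
      linarith
    rcases Nat.lt_succ_iff_lt_or_eq.1 hj with hj | rfl
    · have h5 : v.Ge (b - c1 - c2) (∑ j ∈ Finset.range s, g j ^ p * x ^ j) := by
        have h6 : ∑ j ∈ Finset.range s, g j ^ p * x ^ j
            = (∑ j ∈ Finset.range (s + 1), g j ^ p * x ^ j) - g s ^ p * x ^ s := by
          rw [Finset.sum_range_succ, add_sub_cancel_right]
        rw [h6]
        refine (hb.mono (by linarith)).sub ?_
        have h7 : v.Ge (s * v x) (x ^ s) := RVal.Ge.of_le (by rw [v.map_pow hx0])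
        exact (h4.mul h7).mono (by linarith)
      exact (hcb g hg _ h5 j hj).mono (by linarith)
    · exact h4.mono (by linarith)

/-- **(B3)**: closures. -/
theorem HDer.pb1_clI [hp : Fact p.Prime] [CharP k p] [CharP Ω p] (hc : CompleteV v)
    (h : HDer p v N x D) (hpb : PB1 p N x) (hx0 : x ≠ 0) (hD1 : D 1 x ≠ 0) :
    PB1 p (clI v N) x := by
  intro f hf
  have hp0 : (0 : ℝ) < p := Nat.cast_pos.2 hp.out.pos
  obtain ⟨c, hc0, hcb⟩ := h.coef_bound hx0 hD1 p le_rfl
  choose g hg hfg using fun n : ℕ => (mem_clI.1 hf) (n : ℝ)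
  choose a ha hga using fun n : ℕ => hpb (g n) (hg n)
  -- the differences
  have key : ∀ (b : ℝ) (m n : ℕ), b ≤ m → b ≤ n → ∀ j, j < p →
      v.Ge ((b - c) / p) (a m j - a n j) := by
    intro b m n hm hn j hj
    have h1 : v.Ge b (∑ j ∈ Finset.range p, (a m j - a n j) ^ p * x ^ j) := by
      have h2 : ∑ j ∈ Finset.range p, (a m j - a n j) ^ p * x ^ j = (f - g n) - (f - g m) := by
        rw [sub_sub_sub_cancel_left, hga m, hga n, ← Finset.sum_sub_distrib]
        refine Finset.sum_congr rfl fun j _ => ?_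
        rw [sub_pow_char, sub_mul]
      rw [h2]
      exact ((hfg n).mono hn).sub ((hfg m).mono hm)
    have h2 := hcb (fun j => a m j - a n j) (fun j => sub_mem (ha m j) (ha n j)) b h1 j hj
    intro hne
    have h3 := h2 (pow_ne_zero _ hne)
    rw [v.map_pow hne] at h3
    rw [div_le_iff₀ hp0]
    linarith
  have hlim : ∀ j : ℕ, j < p → ∃ y : Ω, ∀ b : ℝ, ∃ M : ℕ, ∀ n, M ≤ n → v.Ge b (y - a n j) := by
    intro j hj
    refine hc (fun n => a n j) fun b => ?_
    obtain ⟨M, hM⟩ := exists_nat_ge (b * p + c)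
    refine ⟨M, fun m n hm hn => ?_⟩
    have hm' : (M : ℝ) ≤ m := Nat.cast_le.2 hm
    have hn' : (M : ℝ) ≤ n := Nat.cast_le.2 hn
    refine (key (b * p + c) m n (hM.trans hm') (hM.trans hn') j hj).mono ?_
    rw [le_div_iff₀ hp0]
    linarith
  choose! y hy using hlim
  have hycl : ∀ j, j < p → y j ∈ clI v N := by
    intro j hj
    refine mem_clI.2 fun b => ?_
    obtain ⟨M, hM⟩ := hy j hj b
    exact ⟨a M j, ha M j, hM M le_rfl⟩
  refine ⟨fun j => if j < p then y j else 0, fun j => ?_, ?_⟩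
  · by_cases hj : j < p
    · simpa only [if_pos hj] using hycl j hj
    · simpa only [if_neg hj] using zero_mem (clI v N)
  · have h1 : ∑ j ∈ Finset.range p, (if j < p then y j else 0) ^ p * x ^ j
        = ∑ j ∈ Finset.range p, y j ^ p * x ^ j :=
      Finset.sum_congr rfl fun j hj => by rw [if_pos (Finset.mem_range.1 hj)]
    rw [h1, ← sub_eq_zero]
    -- the difference has every value
    have h2 : ∀ b : ℝ, v.Ge b (f - ∑ j ∈ Finset.range p, y j ^ p * x ^ j) := by
      intro b
      have h3 : ∀ j, j < p → ∃ M : ℕ, ∀ n, M ≤ n → v.Ge b ((y j - a n j) ^ p * x ^ j) := by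
        intro j hj
        obtain ⟨M, hM⟩ := hy j hj ((b - j * v x) / p)
        refine ⟨M, fun n hn hne => ?_⟩
        have h4 : y j - a n j ≠ 0 := fun h0 => hne (by
          rw [h0, zero_pow hp.out.ne_zero, zero_mul])
        rw [v.map_mul (pow_ne_zero _ h4) (pow_ne_zero _ hx0), v.map_pow h4, v.map_pow hx0]
        have h5 := hM n hn h4
        rw [div_le_iff₀ hp0] at h5
        linarith
      choose! M hM using h3
      obtain ⟨n₁, hn₁⟩ := exists_nat_ge b
      set n : ℕ := n₁ + ∑ j ∈ Finset.range p, M j with hn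
      have h4 : f - ∑ j ∈ Finset.range p, y j ^ p * x ^ j
          = (f - g n) - ∑ j ∈ Finset.range p, (y j - a n j) ^ p * x ^ j := by
        have h5 : ∑ j ∈ Finset.range p, (y j - a n j) ^ p * x ^ j
            = ∑ j ∈ Finset.range p, y j ^ p * x ^ j - g n := by
          rw [hga n, ← Finset.sum_sub_distrib]
          refine Finset.sum_congr rfl fun j _ => ?_
          rw [sub_pow_char, sub_mul]
        rw [h5]
        ring
      rw [h4]
      refine ((hfg n).mono ?_).sub (RVal.Ge.sum _ _ fun j hj => hM j (Finset.mem_range.1 hj) n ?_)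
      · refine hn₁.trans ?_
        rw [hn]
        push_cast
        have : (0 : ℝ) ≤ ∑ j ∈ Finset.range p, (M j : ℝ) :=
          Finset.sum_nonneg fun j _ => Nat.cast_nonneg _
        linarith
      · exact (Finset.single_le_sum (f := M) (fun _ _ => Nat.zero_le _) hj).trans
          (Nat.le_add_left _ _)
    by_contra hne
    have h3 := h2 (v (f - ∑ j ∈ Finset.range p, y j ^ p * x ^ j) + 1) hne
    linarith

/-- Roots of order prime to `p`. -/
theorem pb1_root_tame [hp : Fact p.Prime] {y : Ω} {n : ℕ} (hn : ¬ p ∣ n) (hyn : y ^ n = x)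
    (hy : y ∈ N) (hy0 : y ≠ 0) (h : PB1 p N y) : PB1 p N x := by
  intro f hf
  obtain ⟨a, ha, hfa⟩ := h f hf
  refine ⟨fun j => a ((n * j) % p) / y ^ ((n * j) / p), fun j => div_mem (ha _) (pow_mem hy _), ?_⟩
  rw [hfa]
  symm
  have hinj : Set.InjOn (fun j => (n * j) % p) (Finset.range p : Finset ℕ) := by
    intro i hi j hj hij
    have hi' := Finset.mem_range.1 (Finset.mem_coe.1 hi)
    have hj' := Finset.mem_range.1 (Finset.mem_coe.1 hj)
    have h1 : n * i ≡ n * j [MOD p] := hij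
    have h2 : i ≡ j [MOD p] := Nat.ModEq.cancel_left_of_coprime
      ((Nat.Prime.coprime_iff_not_dvd hp.out).2 hn) h1
    exact Nat.ModEq.eq_of_lt_of_lt h2 hi' hj'
  have hmaps : Set.MapsTo (fun j => (n * j) % p) (Finset.range p : Finset ℕ)
      (Finset.range p : Finset ℕ) := fun j _ =>
    Finset.mem_coe.2 (Finset.mem_range.2 (Nat.mod_lt _ hp.out.pos))
  refine Finset.sum_nbij (fun j => (n * j) % p) (fun j hj => hmaps hj) hinj
    (Finset.surjOn_of_injOn_of_card_le _ hmaps hinj le_rfl) fun j _ => ?_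
  have h1 : x ^ j = y ^ ((n * j) % p) * (y ^ ((n * j) / p)) ^ p := by
    rw [← hyn, ← _root_.pow_mul, ← _root_.pow_mul, ← pow_add, mul_comm ((n * j) / p) p, Nat.mod_add_div]
  have h2 : (y ^ ((n * j) / p)) ^ p ≠ 0 := pow_ne_zero _ (pow_ne_zero _ hy0)
  rw [h1, div_pow]
  field_simp

/-- `y` is a `p`-basis of `k(y)`. -/
theorem pb1_adj_bot [hp : Fact p.Prime] [CharP k p] [CharP Ω p] [PerfectRing k p] (y : Ω) :
    PB1 p (adj (⊥ : IntermediateField k Ω) y) y := by
  have hyA : y ∈ adj (⊥ : IntermediateField k Ω) y := (D2P.mem_adj_self _ y).1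
  have hmem : ∀ Q : Polynomial k, aeval y Q ∈ adj (⊥ : IntermediateField k Ω) y := by
    intro Q
    rw [aeval_eq_sum_range]
    exact sum_mem fun i _ => by
      rw [Algebra.smul_def]
      exact mul_mem ((adj (⊥ : IntermediateField k Ω) y).algebraMap_mem _) (pow_mem hyA _)
  have key : ∀ P : Polynomial k, ∃ h : ℕ → Ω, (∀ j, h j ∈ adj (⊥ : IntermediateField k Ω) y) ∧
      aeval y P = ∑ j ∈ Finset.range p, h j ^ p * y ^ j := by
    intro P
    induction P using Polynomial.induction_on' with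
    | add P Q hP hQ =>
      obtain ⟨h, hh, h1⟩ := hP
      obtain ⟨g, hg, h2⟩ := hQ
      refine ⟨fun j => h j + g j, fun j => add_mem (hh j) (hg j), ?_⟩
      rw [map_add, h1, h2, ← Finset.sum_add_distrib]
      refine Finset.sum_congr rfl fun j _ => ?_
      rw [add_pow_char, add_mul]
    | monomial n a =>
      obtain ⟨c, rfl⟩ : ∃ c : k, c ^ p = a := ⟨(frobeniusEquiv k p).symm a, by simp⟩
      refine ⟨fun j => if j = n % p then algebraMap k Ω c * y ^ (n / p) else 0, fun j => ?_, ?_⟩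
      · beta_reduce
        by_cases hj : j = n % p
        · rw [if_pos hj]
          exact mul_mem ((adj (⊥ : IntermediateField k Ω) y).algebraMap_mem _) (pow_mem hyA _)
        · rw [if_neg hj]
          exact zero_mem _
      · rw [Finset.sum_eq_single (n % p)]
        · beta_reduce
          rw [if_pos rfl, aeval_monomial, mul_pow, map_pow, mul_assoc,
            ← _root_.pow_mul, ← pow_add, mul_comm (n / p) p, add_comm, Nat.mod_add_div]
        · intro j _ hj
          beta_reduce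
          rw [if_neg hj, zero_pow hp.out.ne_zero, zero_mul]
        · intro hj
          exact absurd (Finset.mem_range.2 (Nat.mod_lt n hp.out.pos)) hj
  intro f hf
  obtain ⟨P, Q, hfPQ⟩ := TWCT.mem_adj_bot hf
  obtain ⟨h, hh, h1⟩ := key (P * Q ^ (p - 1))
  refine ⟨fun j => h j / aeval y Q, fun j => div_mem (hh j) (hmem Q), ?_⟩
  by_cases hQ : aeval y Q = 0
  · rw [hfPQ, hQ, div_zero]
    symm
    refine Finset.sum_eq_zero fun j _ => ?_
    beta_reduce
    rw [div_zero, zero_pow hp.out.ne_zero, zero_mul]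
  · have h2 : ∑ j ∈ Finset.range p, (h j / aeval y Q) ^ p * y ^ j
        = aeval y (P * Q ^ (p - 1)) / aeval y Q ^ p := by
      rw [h1, Finset.sum_div]
      refine Finset.sum_congr rfl fun j _ => ?_
      rw [div_pow, div_mul_eq_mul_div]
    rw [h2, hfPQ, map_mul, map_pow, div_eq_div_iff hQ (pow_ne_zero _ hQ), mul_assoc, ← pow_succ,
      Nat.sub_add_cancel hp.out.one_le]

/-- **(B4)**: the tame base. -/
theorem pb1_tb [IsAlgClosed k] [IsAlgClosed Ω] [hp : Fact p.Prime] [CharP k p] [CharP Ω p]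
    [_hcx : Fact (Ctx0 k v)] (hc : CompleteV v) (hx0 : x ≠ 0) (hvx : v x ≠ 0)
    {C : IntermediateField k Ω} (hC : TWCT.tb hp.out v k hx0 ≤ C) (hD1 : D 1 x ≠ 0)
    (hD : ∀ N : IntermediateField k Ω, N ≤ C → x ∈ N → PB1 p N x → HDer p v N x D) :
    PB1 p (TWCT.tb hp.out v k hx0) x := by
  have : PerfectRing k p := PerfectField.toPerfectRing p
  intro f hf
  obtain ⟨y, ⟨n, hn, hyn⟩, hfy⟩ := (TWCT.mem_tb hp.out hx0).1 hf
  obtain ⟨hn0, hy0, -, -⟩ := TWCT.root_val hp.out hn hyn hx0 hvx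
  have hle : clI v (adj (⊥ : IntermediateField k Ω) y) ≤ TWCT.tb hp.out v k hx0 :=
    TWCT.cadj_le_tb hp.out hx0 ⟨n, hn, hyn⟩
  have hyA : y ∈ adj (⊥ : IntermediateField k Ω) y := (D2P.mem_adj_self _ y).1
  have hxA : x ∈ adj (⊥ : IntermediateField k Ω) y := by
    rw [← hyn]
    exact pow_mem hyA n
  have h1 : PB1 p (adj (⊥ : IntermediateField k Ω) y) x := pb1_root_tame hn hyn hyA hy0
    (pb1_adj_bot y)
  have h2 := hD _ ((TWC.self_le_clI v _).trans (hle.trans hC)) hxA h1
  obtain ⟨a, ha, hfa⟩ := h2.pb1_clI hc h1 hx0 hD1 f hfy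
  exact ⟨a, fun j => hle (ha j), hfa⟩

end Pool.Agent.TWHT
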