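import Pool.Agent.Lib.TWHT.Hd

/-!
# TANK W, leaf (Ht): the uniform gain on the tame base
-/

set_option autoImplicit false

open Polynomial

namespace Pool.Agent.TWHT

open Pool.Agent.H15JM (RVal)
open Pool.Agent.LU1 (VPos adj)
open Pool.Agent.D2 (Ctx0)
open Pool.Agent.D2P (hen clI mem_clI mem_adj_self)
open Pool.Agent.TWM
open Pool.Agent.TWCT (PB1 RStep)

universe u

variable {k Ω : Type u} [Field k] [Field Ω] [Algebra k Ω] {v : RVal Ω}
  {p : ℕ} {N N' : IntermediateField k Ω} {x : Ω} {D : ℕ → Ω → Ω}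

/-- `D m f` has value at least `a + δ m`. -/
def GnAt (v : RVal Ω) (D : ℕ → Ω → Ω) (δ a : ℝ) (f : Ω) : Prop :=
  ∀ m : ℕ, v.Ge (a + δ * m) (D m f)

variable {δ a b : ℝ} {f g y : Ω}

theorem GnAt.mul (h : HDer p v N x D) (hf : f ∈ N) (hg : g ∈ N) (h1 : GnAt v D δ a f)
    (h2 : GnAt v D δ b g) : GnAt v D δ (a + b) (f * g) := by
  intro m
  rw [h.mul m f hf g hg]
  refine RVal.Ge.sum _ _ fun ij hij => ?_
  rw [Finset.HasAntidiagonal.mem_antidiagonal] at hij
  have h3 : (m : ℝ) = ij.1 + ij.2 := by exact_mod_cast hij.symm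
  refine ((h1 ij.1).mul (h2 ij.2)).mono ?_
  rw [h3]
  linarith

theorem HDer.zero' (h : HDer p v N x D) (m : ℕ) : D m 0 = 0 := by
  have h1 := h.add m 0 (zero_mem N) 0 (zero_mem N)
  rw [add_zero] at h1
  have h2 : D m 0 + 0 = D m 0 + D m 0 := by rw [add_zero]; exact h1
  exact (add_left_cancel h2).symm

theorem HDer.one' (hp : p.Prime) (h : HDer p v N x D) (m : ℕ) : 1 ≤ m → D m 1 = 0 := by
  induction m using Nat.strong_induction_on with
  | _ m ih =>
    intro hm
    by_cases hpm : p ∣ m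
    · obtain ⟨m', rfl⟩ := hpm
      have h1 := h.frob m' 1 (one_mem N)
      rw [one_pow] at h1
      have hm' : 1 ≤ m' := by
        rcases Nat.eq_zero_or_pos m' with h0 | h0
        · rw [h0, mul_zero] at hm
          omega
        · exact h0
      have hlt : m' < p * m' := by
        have := hp.two_le
        nlinarith
      rw [h1, ih m' hlt hm', zero_pow hp.ne_zero]
    · have h1 := h.frob0 m hpm 1 (one_mem N)
      rwa [one_pow] at h1

theorem HDer.frob_pow (hp : p.Prime) (h : HDer p v N x D) (hg : g ∈ N) (r : ℕ) :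
    ∀ i : ℕ, 0 < i → i < p ^ r → D i (g ^ p ^ r) = 0 := by
  induction r with
  | zero =>
    intro i h1 h2
    rw [pow_zero] at h2
    omega
  | succ r ih =>
    intro i h1 h2
    rw [pow_succ, pow_mul]
    by_cases hpi : p ∣ i
    · obtain ⟨j, rfl⟩ := hpi
      rw [h.frob j _ (pow_mem hg _)]
      have h3 : 0 < j := Nat.pos_of_ne_zero fun h0 => by
        rw [h0, mul_zero] at h1
        omega
      have h4 : j < p ^ r := by
        rw [pow_succ, mul_comm (p ^ r) p] at h2
        exact Nat.lt_of_mul_lt_mul_left h2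
      rw [ih j h3 h4, zero_pow hp.ne_zero]
    · exact h.frob0 i hpi _ (pow_mem hg _)

theorem GnAt.one (hp : p.Prime) (h : HDer p v N x D) : GnAt v D δ 0 1 := by
  intro m
  rcases Nat.eq_zero_or_pos m with rfl | hm
  · rw [h.zero 1 (one_mem N), Nat.cast_zero, mul_zero, add_zero]
    exact RVal.Ge.of_le (by rw [v.map_one])
  · rw [h.one' hp m hm]
    exact RVal.Ge.zero

theorem GnAt.pow (hp : p.Prime) (h : HDer p v N x D) (hf : f ∈ N) (h1 : GnAt v D δ a f) (n : ℕ) :
    GnAt v D δ (n * a) (f ^ n) := by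
  induction n with
  | zero =>
    rw [pow_zero, Nat.cast_zero, zero_mul]
    exact GnAt.one hp h
  | succ n ih =>
    have h2 := ih.mul h (pow_mem hf n) hf h1
    rw [pow_succ]
    push_cast
    rwa [add_mul, one_mul]

theorem GnAt.smul (h0 : Ctx0 k v) (h : HDer p v N x D) (hf : f ∈ N) (h1 : GnAt v D δ a f) (c : k) :
    GnAt v D δ a (algebraMap k Ω c * f) := by
  intro m
  rw [h.smul m c f hf]
  have h2 := (h0.ge c).mul (h1 m)
  rwa [zero_add] at h2

theorem GnAt.sum (h : HDer p v N x D) {ι : Type*} (s : Finset ι) {g : ι → Ω}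
    (hg : ∀ i ∈ s, g i ∈ N) (h1 : ∀ i ∈ s, GnAt v D δ a (g i)) : GnAt v D δ a (∑ i ∈ s, g i) := by
  classical
  induction s using Finset.induction_on with
  | empty =>
    intro m
    rw [Finset.sum_empty, h.zero' m]
    exact RVal.Ge.zero
  | insert i s hi ih =>
    intro m
    rw [Finset.sum_insert hi, h.add m _ (hg i (Finset.mem_insert_self i s)) _
      (sum_mem fun j hj => hg j (Finset.mem_insert_of_mem hj))]
    exact (h1 i (Finset.mem_insert_self i s) m).add
      (ih (fun j hj => hg j (Finset.mem_insert_of_mem hj))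
        (fun j hj => h1 j (Finset.mem_insert_of_mem hj)) m)

/-- Division. -/
theorem ge_of_mul (hg : g ≠ 0) (h : v.Ge (a + v g) (f * g)) : v.Ge a f := by
  have h1 := h.mul (RVal.ge_self (v := v) g⁻¹)
  rw [mul_assoc, mul_inv_cancel₀ hg, mul_one, v.map_inv hg] at h1
  exact h1.mono (by linarith)

theorem gnAt_self (h : HDer p v N x D) (h1 : v.Ge (v x + δ) (D 1 x)) :
    GnAt v D δ (v x) x := by
  intro m
  rcases m with _ | _ | m
  · rw [h.zero x h.mem, Nat.cast_zero, mul_zero, add_zero]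
    exact RVal.ge_self x
  · have e : v x + δ * ((0 + 1 : ℕ) : ℝ) = v x + δ := by
      push_cast
      ring
    rw [e]
    exact h1
  · rw [h.x2 (m + 1 + 1) (by omega)]
    exact RVal.Ge.zero

/-- The gain at a root of order prime to `p` of `x`. -/
theorem GnAt.root (hp : p.Prime) (h : HDer p v N x D)
    (h1 : v.Ge (v x + δ) (D 1 x)) {n : ℕ} (hn : ¬ p ∣ n) (hy : y ∈ N) (hy0 : y ≠ 0)
    (hyx : y ^ n = x) (hv : v x = n * v y) : GnAt v D δ (v y) y := by
  intro m
  rcases Nat.eq_zero_or_pos m with rfl | hm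
  · rw [h.zero y hy, Nat.cast_zero, mul_zero, add_zero]
    exact RVal.ge_self y
  have hmr : m < p ^ m := Nat.lt_pow_self hp.one_lt
  have hr1 : 1 < p ^ m := Nat.one_lt_pow hm.ne' hp.one_lt
  have hco : n.Coprime (p ^ m) :=
    Nat.Coprime.pow_right m ((Nat.Prime.coprime_iff_not_dvd hp).2 hn).symm
  obtain ⟨n', -, hn'⟩ := Nat.exists_mul_mod_eq_one_of_coprime hco hr1
  obtain ⟨e, he⟩ : ∃ e : ℕ, n * n' = 1 + p ^ m * e := by
    refine ⟨n * n' / p ^ m, ?_⟩
    have h2 := Nat.div_add_mod (n * n') (p ^ m)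
    rw [hn'] at h2
    omega
  have hG : y ^ e ∈ N := pow_mem hy e
  have hG0 : (y ^ e) ^ p ^ m ≠ 0 := pow_ne_zero _ (pow_ne_zero _ hy0)
  have hxy : x ^ n' = y * (y ^ e) ^ p ^ m := by
    rw [← hyx, ← pow_mul, he, pow_add, pow_one, ← pow_mul, mul_comm e]
  have h2 : D m (x ^ n') = D m y * (y ^ e) ^ p ^ m := by
    rw [hxy, h.mul m y hy _ (pow_mem hG _),
      Finset.sum_eq_single_of_mem ((m, 0) : ℕ × ℕ) (by rw [Finset.HasAntidiagonal.mem_antidiagonal, add_zero])]
    · rw [h.zero _ (pow_mem hG _)]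
    · rintro ⟨i, j⟩ hij hne
      rw [Finset.HasAntidiagonal.mem_antidiagonal] at hij
      have hij' : i + j = m := hij
      have hj : 0 < j := Nat.pos_of_ne_zero fun h0 => hne (by
        rw [h0, add_zero] at hij'
        rw [hij', h0])
      change D i y * D j ((y ^ e) ^ p ^ m) = 0
      rw [h.frob_pow hp hG m j hj (by omega), mul_zero]
  have h3 := (gnAt_self h h1).pow hp h h.mem n' m
  rw [h2] at h3
  refine ge_of_mul hG0 (h3.mono (le_of_eq ?_))
  rw [v.map_pow (pow_ne_zero _ hy0), v.map_pow hy0, hv]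
  have h4 : ((n : ℝ) * n') = 1 + p ^ m * e := by exact_mod_cast he
  push_cast
  linear_combination (-(v y)) * h4

/-- The gain for a polynomial in `y`. -/
theorem GnAt.aeval (h0 : Ctx0 k v) (hp : p.Prime) (h : HDer p v N x D) (hy : y ∈ N) (hy0 : y ≠ 0)
    (hyv : v y ≠ 0) (hG : GnAt v D δ (v y) y) (P : Polynomial k) (hb : v.Ge b (aeval y P)) :
    GnAt v D δ b (aeval y P) := by
  classical
  by_cases hP : P = 0
  · intro m
    rw [hP, map_zero, h.zero' m]
    exact RVal.Ge.zero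
  have hc : ∀ i ∈ P.support, algebraMap k Ω (P.coeff i) ≠ 0 := fun i hi =>
    (_root_.map_ne_zero _).2 (mem_support_iff.1 hi)
  have hval : ∀ i ∈ P.support, v (algebraMap k Ω (P.coeff i) * y ^ i) = i * v y := by
    intro i hi
    rw [v.map_mul (hc i hi) (pow_ne_zero _ hy0), h0.triv _ (mem_support_iff.1 hi), v.map_pow hy0,
      zero_add]
  have hsum : Polynomial.aeval y P = ∑ i ∈ P.support, algebraMap k Ω (P.coeff i) * y ^ i := by
    rw [Polynomial.aeval_def, Polynomial.eval₂_eq_sum, Polynomial.sum_def]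
  obtain ⟨i, hi, h1, h2, h3⟩ := val_sum_distinct (v := v) P.support
    (fun i => algebraMap k Ω (P.coeff i) * y ^ i)
    (fun i hi => mul_ne_zero (hc i hi) (pow_ne_zero _ hy0))
    (fun i hi j hj hij => by
      rw [hval i hi, hval j hj] at hij
      exact_mod_cast mul_right_cancel₀ hyv hij)
    (by
      rw [Finset.nonempty_iff_ne_empty]
      intro h0
      exact hP (Polynomial.support_eq_empty.1 h0))
  rw [hsum] at hb ⊢
  refine GnAt.sum h _ (fun j _ => mul_mem (N.algebraMap_mem _) (pow_mem hy j)) fun j hj m => ?_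
  have h4 := (hG.pow hp h hy j).smul h0 h (pow_mem hy j) (P.coeff j) m
  refine h4.mono ?_
  have h5 := hb h1
  rw [h2] at h5
  have h6 := h3 j hj
  rw [hval j hj] at h6
  linarith

/-- The gain for a quotient. -/
theorem GnAt.div (h : HDer p v N x D) (hf : f ∈ N) (hg : g ∈ N) (hf0 : f ≠ 0) (hg0 : g ≠ 0)
    (h1 : GnAt v D δ (v f) f) (h2 : GnAt v D δ (v g) g) : GnAt v D δ (v (f / g)) (f / g) := by
  intro m
  induction m using Nat.strong_induction_on with
  | _ m ih =>
    have hq : f / g ∈ N := div_mem hf hg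
    have e1 : f = f / g * g := (div_mul_cancel₀ f hg0).symm
    have e2 : D m f = ∑ ij ∈ Finset.HasAntidiagonal.antidiagonal m, D ij.1 (f / g) * D ij.2 g := by
      conv_lhs => rw [e1]
      exact h.mul m _ hq g hg
    rw [← Finset.add_sum_erase _ _ (show ((m, 0) : ℕ × ℕ) ∈ Finset.HasAntidiagonal.antidiagonal m by
      rw [Finset.HasAntidiagonal.mem_antidiagonal, add_zero])] at e2
    have e3 : D m (f / g) * g = D m f - ∑ ij ∈ (Finset.HasAntidiagonal.antidiagonal m).erase (m, 0),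
        D ij.1 (f / g) * D ij.2 g := by
      rw [e2, h.zero g hg]
      ring
    have hfg : v f = v (f / g) + v g := by
      rw [v.map_div hf0 hg0]
      ring
    refine ge_of_mul hg0 ?_
    rw [e3]
    refine RVal.Ge.sub ((h1 m).mono (le_of_eq (by rw [hfg]; ring))) (RVal.Ge.sum _ _ fun ij hij => ?_)
    obtain ⟨hne, hij⟩ := Finset.mem_erase.1 hij
    rw [Finset.HasAntidiagonal.mem_antidiagonal] at hij
    have hlt : ij.1 < m := by
      rcases Nat.eq_zero_or_pos ij.2 with h0 | h0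
      · exact absurd (Prod.ext (by rw [← hij, h0, add_zero]) h0) hne
      · omega
    refine ((ih ij.1 hlt).mul (h2 ij.2)).mono ?_
    have h3 : (m : ℝ) = ij.1 + ij.2 := by exact_mod_cast hij.symm
    rw [h3]
    linarith

/-- The gain on `k(y)`. -/
theorem ug_adj (h0 : Ctx0 k v) (hp : p.Prime) (h : HDer p v N x D) (hy : y ∈ N) (hy0 : y ≠ 0)
    (hyv : v y ≠ 0) (hG : GnAt v D δ (v y) y) :
    UG v (adj (⊥ : IntermediateField k Ω) y) D δ := by
  intro m f hf b hb
  obtain ⟨P, Q, rfl⟩ := TWCT.mem_adj_bot hf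
  have hm : ∀ P : Polynomial k, Polynomial.aeval y P ∈ N := fun P => by
    rw [Polynomial.aeval_def, Polynomial.eval₂_eq_sum, Polynomial.sum_def]
    exact sum_mem fun i _ => mul_mem (N.algebraMap_mem _) (pow_mem hy i)
  by_cases hP : Polynomial.aeval y P = 0
  · rw [hP, zero_div, h.zero' m]
    exact RVal.Ge.zero
  by_cases hQ : Polynomial.aeval y Q = 0
  · rw [hQ, div_zero, h.zero' m]
    exact RVal.Ge.zero
  have h1 := GnAt.div h (hm P) (hm Q) hP hQ
    (GnAt.aeval h0 hp h hy hy0 hyv hG P (RVal.ge_self _))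
    (GnAt.aeval h0 hp h hy hy0 hyv hG Q (RVal.ge_self _)) m
  refine h1.mono ?_
  have h2 := hb (div_ne_zero hP hQ)
  linarith

/-- **(I) THE BASE**: the tame base over `k(x)`. -/
theorem HDer.ug_tb [IsAlgClosed k] [IsAlgClosed Ω] [hp : Fact p.Prime] [CharP k p] [CharP Ω p]
    [hcx : Fact (Ctx0 k v)] (hx0 : x ≠ 0) (hvx : v x ≠ 0) (h : HDer p v N x D)
    (hN : TWCT.tb hp.out v k hx0 ≤ N) {δ : ℝ} (hδ : 0 ≤ δ) (h1 : v.Ge (v x + δ) (D 1 x)) :
    UG v (TWCT.tb hp.out v k hx0) D δ := by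
  intro m f hf b hb
  obtain ⟨y, ⟨n, hn, hyn⟩, hfy⟩ := (TWCT.mem_tb hp.out hx0).1 hf
  obtain ⟨hn0, hy0, hv, hyv⟩ := TWCT.root_val (v := v) hp.out hn hyn hx0 hvx
  have hle : cadj v (⊥ : IntermediateField k Ω) y ≤ N :=
    (TWCT.cadj_le_tb hp.out hx0 ⟨n, hn, hyn⟩).trans hN
  have hyN : y ∈ N := hle (self_mem_cadj v _ y)
  have h2 := ug_adj hcx.out hp.out h hyN hy0 hyv
    (GnAt.root hp.out h h1 hn hyN hy0 hyn hv)
  exact UG.clI h hle hδ h2 m f hfy b hb

end Pool.Agent.TWHT
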