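import Pool.Agent.Lib.TWHT.HdI
import Pool.Agent.Lib.TWHT.HdI2
import Pool.Agent.Lib.TWHT.HdB
import Pool.Agent.Lib.TWHT.HdB2
import Pool.Agent.Lib.TWS.MonC

/-!
# TANK W, leaf (Ht): the uniform gain over the finite separable extensions of `k(x)`

`ug_fin`: `v c₀` not commensurable with `v x`, `D m f ∈ c₀ ^ m N`; the gain is linear on the closure
of `k(x)(S)`, `S` finite and separable: tower of reduced Artin-Schreier steps over the tame base.
-/

set_option autoImplicit false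

open Polynomial

namespace Pool.Agent.TWHT

open Pool.Agent.H15JM (RVal)
open Pool.Agent.LU1 (VPos adj)
open Pool.Agent.D2 (Ctx0)
open Pool.Agent.D2P (hen clI mem_clI mem_adj_self isSeparable_mono)
open Pool.Agent.TWM
open Pool.Agent.TWS (VG)
open Pool.Agent.TWCT (PB1 RStep)

universe u

variable {k Ω : Type u} [Field k] [Field Ω] [Algebra k Ω] {v : RVal Ω}
  {p : ℕ} {C : IntermediateField k Ω} {x c₀ : Ω} {D : ℕ → Ω → Ω}

/-- The tame base is contained in `C`. -/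
theorem tb_le [IsAlgClosed k] [IsAlgClosed Ω] [hp : Fact p.Prime] [CharP k p] [CharP Ω p]
    (h0 : Ctx0 k v) (hC : Cld v C) (hx0 : x ≠ 0) (hvx : v x ≠ 0)
    (hxC : x ∈ C) (hroot : ∀ n : ℕ, ¬ p ∣ n → v x / n ∈ VG v C) :
    TWCT.tb hp.out v k hx0 ≤ C := by
  intro g hg
  obtain ⟨y, ⟨n, hn, hyn⟩, hgy⟩ := (TWCT.mem_tb hp.out hx0).1 hg
  obtain ⟨hn0, hy0, hv, -⟩ := TWCT.root_val (v := v) hp.out hn hyn hx0 hvx
  have hn0' : (n : ℝ) ≠ 0 := by exact_mod_cast hn0.ne'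
  have hyC : y ∈ C := by
    refine TWS.root_mem p h0 hC hn hy0 (by rw [hyn]; exact hxC) ?_
    have h1 := hroot n hn
    rwa [hv, mul_div_cancel_left₀ _ hn0'] at h1
  exact cadj_le hC bot_le hyC hgy

/-- The values of the algebraic elements of the tame base are commensurable with `v x`. -/
theorem comm_of_tb [IsAlgClosed k] [IsAlgClosed Ω] [hp : Fact p.Prime]
    (h0 : Ctx0 k v) (hx0 : x ≠ 0) (hvx : v x ≠ 0) {g : Ω} (hg0 : g ≠ 0)
    (hg : IsAlgebraic (TWCT.tb hp.out v k hx0) g) :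
    ∃ (n : ℕ) (z : ℤ), n ≠ 0 ∧ (n : ℝ) * v g = z * v x := by
  obtain ⟨f, hf0, m, hm0, hm⟩ := LU1.comm_value (v := v) (TWCT.tb hp.out v k hx0) g hg0 hg
  obtain ⟨y, ⟨n, hn, hyn⟩, hfy⟩ := (TWCT.mem_tb hp.out hx0).1 f.2
  obtain ⟨hn0, hy0, hxy, hyv⟩ := TWCT.root_val (v := v) hp.out hn hyn hx0 hvx
  obtain ⟨l, hl⟩ := TWCT.val_cadj_bot h0 hy0 hyv hfy hf0
  refine ⟨n * m, l, mul_ne_zero hn0.ne' hm0.ne', ?_⟩
  push_cast
  rw [mul_assoc, ← hm, hl, hxy]
  ring

/-- No value of `D m f`, `m ≥ 1`, is a value. -/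
theorem irr_of_comm {N : IntermediateField k Ω} (hc0 : c₀ ≠ 0)
    (hirr : ∀ (n : ℕ) (m : ℤ), n ≠ 0 → (n : ℝ) * v c₀ ≠ m * v x)
    (hq : ∀ g ∈ N, g ≠ 0 → ∃ (n : ℕ) (z : ℤ), n ≠ 0 ∧ (n : ℝ) * v g = z * v x)
    (hD : ∀ m : ℕ, ∀ f ∈ N, ∃ g ∈ N, D m f = c₀ ^ m * g) :
    ∀ m : ℕ, 1 ≤ m → ∀ f ∈ N, D m f ≠ 0 → ∀ g ∈ N, g ≠ 0 → v (D m f) ≠ v g := by
  intro m hm f hf hDf g hg hg0 heq
  obtain ⟨g', hg', e⟩ := hD m f hf
  have hg'0 : g' ≠ 0 := by
    rintro rfl
    rw [mul_zero] at e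
    exact hDf e
  obtain ⟨n, z, hn, h1⟩ := hq g hg hg0
  obtain ⟨n', z', hn', h2⟩ := hq g' hg' hg'0
  rw [e, v.map_mul (pow_ne_zero _ hc0) hg'0, v.map_pow hc0] at heq
  refine hirr (n * n' * m) (z * n' - z' * n) (mul_ne_zero (mul_ne_zero hn hn') (by omega)) ?_
  push_cast
  have h3 : (m : ℝ) * v c₀ = v g - v g' := by linarith
  calc (n : ℝ) * n' * m * v c₀ = n * n' * (m * v c₀) := by ring
    _ = n' * (n * v g) - n * (n' * v g') := by rw [h3]; ring
    _ = (z * n' - z' * n) * v x := by rw [h1, h2]; ring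

/-- **Uniform gain**, if `x` is a `p`-basis of the closure. -/
theorem ug_fin_of [IsAlgClosed k] [IsAlgClosed Ω] [hp : Fact p.Prime] [CharP k p] [CharP Ω p]
    [hcx : Fact (Ctx0 k v)] (hc : CompleteV v) (hC : Cld v C) (hx0 : x ≠ 0) (hvx : v x ≠ 0)
    (hxC : x ∈ C) (hroot : ∀ n : ℕ, ¬ p ∣ n → v x / n ∈ VG v C) (hc0 : c₀ ≠ 0)
    (hlt : v x < v c₀) (hirr : ∀ (n : ℕ) (m : ℤ), n ≠ 0 → (n : ℝ) * v c₀ ≠ m * v x)
    (hD1 : D 1 x = c₀)
    (hD : ∀ N : IntermediateField k Ω, N ≤ C → x ∈ N → PB1 p N x →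
      HDer p v N x D ∧ ∀ m : ℕ, ∀ f ∈ N, ∃ g ∈ N, D m f = c₀ ^ m * g)
    (S : Finset Ω) (hS : ∀ s ∈ S, s ∈ C ∧ IsSeparable (adj (⊥ : IntermediateField k Ω) x) s)
    (hpb : PB1 p (clI v (adj (⊥ : IntermediateField k Ω) x ⊔
      IntermediateField.adjoin k (S : Set Ω))) x) :
    ∃ δ : ℝ, 0 < δ ∧
      UG v (clI v (adj (⊥ : IntermediateField k Ω) x ⊔ IntermediateField.adjoin k (S : Set Ω))) D δ := by
  classical
  have h0 := hcx.out
  obtain ⟨T, hT⟩ : ∃ T, T = TWCT.tb hp.out v k hx0 := ⟨_, rfl⟩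
  have hTC : T ≤ C := by
    rw [hT]
    exact tb_le h0 hC hx0 hvx hxC hroot
  have hbx : adj (⊥ : IntermediateField k Ω) x ≤ T := by
    rw [hT]
    exact (TWC.self_le_clI v _).trans (TWCT.self_le_tb hp.out hx0)
  have hxT : x ∈ T := hbx (mem_adj_self _ x).1
  have hpT : PB1 p T x := by
    rw [hT]
    exact pb1_tb hc hx0 hvx (by rw [← hT]; exact hTC) (D := D) (by rw [hD1]; exact hc0)
      fun N h1 h2 h3 => (hD N h1 h2 h3).1
  -- the elements
  obtain ⟨s, hs⟩ := (Finset.countable_toSet (insert x S)).exists_eq_range ⟨x, by simp⟩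
  have hsm : ∀ n, s n ∈ insert x S := fun n => by
    have h1 : s n ∈ ((insert x S : Finset Ω) : Set Ω) := by
      rw [hs]
      exact ⟨n, rfl⟩
    exact h1
  have hsN : ∀ n, IsSeparable T (s n) := by
    intro n
    rcases Finset.mem_insert.1 (hsm n) with h1 | h1
    · rw [h1]
      exact isSeparable_algebraMap (F := T) (⟨x, hxT⟩ : T)
    · exact isSeparable_mono hbx (hS _ h1).2
  have hsW : ∀ n, s n ∈ C := by
    intro n
    rcases Finset.mem_insert.1 (hsm n) with h1 | h1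
    · rw [h1]
      exact hxC
    · exact (hS _ h1).1
  obtain ⟨M, θ, hM0, hB, hstep, hall⟩ := TWCT.exists_seq p hp.out h0
    (by rw [hT]; exact TWCT.tb_good hp.out h0 hx0 hvx) hTC hsN hsW
  have hmono : Monotone M := monotone_nat_of_le_succ fun i => by
    rcases hstep i with ⟨-, h1⟩ | h1
    · exact h1.ge
    · exact h1.le
  -- the gain
  have key : ∀ i, ∃ δ : ℝ, 0 < δ ∧ UG v (M i) D δ := by
    intro i
    induction i with
    | zero =>
      rw [hM0]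
      refine ⟨v c₀ - v x, by linarith, ?_⟩
      have h1 := (hD T hTC hxT hpT).1
      rw [hT]
      refine HDer.ug_tb hx0 hvx h1 (by rw [hT]) (by linarith) ?_
      rw [hD1]
      exact RVal.Ge.of_le (by linarith)
    | succ i ih =>
      obtain ⟨δ, hδ, h1⟩ := ih
      rcases hstep i with ⟨-, h2⟩ | h2
      · rw [h2]
        exact ⟨δ, hδ, h1⟩
      · have hxM : x ∈ M (i + 1) := (hB (i + 1)).le hxT
        have hpM : PB1 p (M (i + 1)) x := PB1.sep hpT hxT (hB (i + 1)).le (hB (i + 1)).sep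
        obtain ⟨h3, h4⟩ := hD _ (hB (i + 1)).leW hxM hpM
        refine h3.ug_step h2 (irr_of_comm hc0 hirr (fun g hg hg0 => ?_) h4) hδ h1
        refine comm_of_tb (p := p) h0 hx0 hvx hg0 ?_
        rw [← hT]
        exact ((hB (i + 1)).sep g hg).isIntegral.isAlgebraic
  -- all the elements are in one field
  have hfin : ∃ i, ∀ t ∈ S, t ∈ M i := by
    have h1 : ∀ U : Finset Ω, U ⊆ S → ∃ i, ∀ t ∈ U, t ∈ M i := by
      intro U
      induction U using Finset.induction_on with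
      | empty => exact fun _ => ⟨0, fun t ht => absurd ht (Finset.notMem_empty t)⟩
      | insert a U ha ih =>
        intro hU
        obtain ⟨i, hi⟩ := ih fun t ht => hU (Finset.mem_insert_of_mem ht)
        have h2 : a ∈ Set.range s := by
          rw [← hs]
          exact Finset.mem_coe.2 (Finset.mem_insert_of_mem (hU (Finset.mem_insert_self a U)))
        obtain ⟨n, rfl⟩ := h2
        obtain ⟨j, hj⟩ := hall n
        refine ⟨max i j, fun t ht => ?_⟩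
        rcases Finset.mem_insert.1 ht with rfl | ht
        · exact hmono (le_max_right i j) hj
        · exact hmono (le_max_left i j) (hi t ht)
    exact h1 S subset_rfl
  obtain ⟨i, hi⟩ := hfin
  obtain ⟨δ, hδ, h1⟩ := key i
  have hle : adj (⊥ : IntermediateField k Ω) x ⊔ IntermediateField.adjoin k (S : Set Ω) ≤ M i := by
    refine sup_le (hbx.trans (hB i).le) ?_
    rw [IntermediateField.adjoin_le_iff]
    exact fun t ht => hi t (Finset.mem_coe.1 ht)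
  have hcl : clI v (adj (⊥ : IntermediateField k Ω) x ⊔ IntermediateField.adjoin k (S : Set Ω)) ≤ C :=
    fun a ha => hC (D2P.cl_mono (hle.trans (hB i).leW) (mem_clI.1 ha))
  have hxc : x ∈ clI v (adj (⊥ : IntermediateField k Ω) x ⊔ IntermediateField.adjoin k (S : Set Ω)) :=
    TWC.self_le_clI v _ ((le_sup_left : adj (⊥ : IntermediateField k Ω) x ≤ _) (mem_adj_self _ x).1)
  exact ⟨δ, hδ, UG.clI (hD _ hcl hxc hpb).1 le_rfl hδ.le (h1.le hle)⟩

/-- The elements of `k(x)(S)` are separable over `k(x)`. -/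
theorem sep_sup {B : IntermediateField k Ω} {S : Finset Ω} (hS : ∀ s ∈ S, IsSeparable B s) :
    ∀ g ∈ B ⊔ IntermediateField.adjoin k (S : Set Ω), IsSeparable B g := by
  intro g hg
  have h1 : B ⊔ IntermediateField.adjoin k (S : Set Ω) ≤
      (separableClosure B Ω).restrictScalars k := by
    refine sup_le (fun a ha => ?_) ?_
    · exact mem_separableClosure_iff.2 (isSeparable_algebraMap (F := B) (⟨a, ha⟩ : B))
    · rw [IntermediateField.adjoin_le_iff]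
      exact fun s hs => mem_separableClosure_iff.2 (hS s (Finset.mem_coe.1 hs))
  exact mem_separableClosure_iff.1 (h1 hg)

/-- **(F)** **Uniform gain**, `v c₀` not in `ℚ v x`. -/
theorem ug_fin [IsAlgClosed k] [IsAlgClosed Ω] [hp : Fact p.Prime] [CharP k p] [CharP Ω p]
    [hcx : Fact (Ctx0 k v)] (hc : CompleteV v) (hC : Cld v C) (hx0 : x ≠ 0) (hvx : v x ≠ 0)
    (hxC : x ∈ C) (hroot : ∀ n : ℕ, ¬ p ∣ n → v x / n ∈ VG v C) (hc0 : c₀ ≠ 0)
    (hlt : v x < v c₀) (hirr : ∀ (n : ℕ) (m : ℤ), n ≠ 0 → (n : ℝ) * v c₀ ≠ m * v x)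
    (hD1 : D 1 x = c₀)
    (hD : ∀ N : IntermediateField k Ω, N ≤ C → x ∈ N → PB1 p N x →
      HDer p v N x D ∧ ∀ m : ℕ, ∀ f ∈ N, ∃ g ∈ N, D m f = c₀ ^ m * g)
    (S : Finset Ω) (hS : ∀ s ∈ S, s ∈ C ∧ IsSeparable (adj (⊥ : IntermediateField k Ω) x) s) :
    ∃ δ : ℝ, 0 < δ ∧
      UG v (clI v (adj (⊥ : IntermediateField k Ω) x ⊔ IntermediateField.adjoin k (S : Set Ω))) D δ := by
  have : PerfectRing k p := PerfectField.toPerfectRing p
  refine ug_fin_of hc hC hx0 hvx hxC hroot hc0 hlt hirr hD1 hD S hS ?_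
  have hxB : x ∈ adj (⊥ : IntermediateField k Ω) x := (mem_adj_self _ x).1
  have h1 : PB1 p (adj (⊥ : IntermediateField k Ω) x ⊔ IntermediateField.adjoin k (S : Set Ω)) x :=
    PB1.sep (pb1_adj_bot x) hxB le_sup_left (sep_sup fun s hs => (hS s hs).2)
  have hle : adj (⊥ : IntermediateField k Ω) x ⊔ IntermediateField.adjoin k (S : Set Ω) ≤ C := by
    refine sup_le (D2P.adj_le bot_le hxC) ?_
    rw [IntermediateField.adjoin_le_iff]
    exact fun t ht => (hS t (Finset.mem_coe.1 ht)).1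
  exact (hD _ hle (le_sup_left (a := adj (⊥ : IntermediateField k Ω) x) hxB) h1).1.pb1_clI hc h1 hx0
    (by rw [hD1]; exact hc0)

end Pool.Agent.TWHT
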