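import Pool.Agent.Lib.TWHT.HdB
import Pool.Agent.Lib.TWHT.HdB2

/-!
# TANK W, leaf (Ht): `x` is a `p`-basis of the closures of the finite separable extensions of `k(x)`
-/

set_option autoImplicit false

open Polynomial

namespace Pool.Agent.TWHT

open Pool.Agent.H15JM (RVal)
open Pool.Agent.LU1 (VPos adj)
open Pool.Agent.D2 (Ctx0)
open Pool.Agent.D2P (hen clI mem_clI)
open Pool.Agent.TWM
open Pool.Agent.TWCT (PB1 RStep)

universe u

variable {k Ω : Type u} [Field k] [Field Ω] [Algebra k Ω] {v : RVal Ω}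
  {p : ℕ} {C : IntermediateField k Ω} {x : Ω} {D : ℕ → Ω → Ω}

/-- The field generated by separable elements is separable. -/
theorem sepP_sup {N : IntermediateField k Ω} {S : Set Ω} (hS : ∀ s ∈ S, IsSeparable N s) {g : Ω}
    (hg : g ∈ N ⊔ IntermediateField.adjoin k S) : IsSeparable N g := by
  have h1 : N ⊔ IntermediateField.adjoin k S ≤
      (IntermediateField.adjoin N S).restrictScalars k := by
    refine sup_le (fun a ha => ?_) (IntermediateField.adjoin_le_iff.2
      (IntermediateField.subset_adjoin N S))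
    exact (IntermediateField.adjoin N S).algebraMap_mem ⟨a, ha⟩
  have h2 : g ∈ IntermediateField.adjoin N S := h1 hg
  have h3 : IntermediateField.adjoin N S ≤ separableClosure N Ω :=
    IntermediateField.adjoin_le_iff.2 fun s hs => mem_separableClosure_iff.2 (hS s hs)
  exact mem_separableClosure_iff.1 (h3 h2)

/-- **(P)**: `x` is a `p`-basis of the finite separable extensions of `k(x)`. -/
theorem pb1_fin [hp : Fact p.Prime] [CharP k p] [CharP Ω p] [PerfectRing k p]
    (hc : CompleteV v) (_hC : Cld v C) (hx0 : x ≠ 0)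
    (hxC : x ∈ C) (hD1 : D 1 x ≠ 0)
    (hD : ∀ N : IntermediateField k Ω, N ≤ C → x ∈ N → PB1 p N x → HDer p v N x D)
    (S : Finset Ω) (hS : ∀ s ∈ S, s ∈ C ∧ IsSeparable (adj (⊥ : IntermediateField k Ω) x) s) :
    PB1 p (clI v (adj (⊥ : IntermediateField k Ω) x ⊔ IntermediateField.adjoin k (S : Set Ω))) x := by
  have hxA : x ∈ adj (⊥ : IntermediateField k Ω) x := (D2P.mem_adj_self _ x).1
  have hA : adj (⊥ : IntermediateField k Ω) x ≤ C := D2P.adj_le bot_le hxC
  have hN : adj (⊥ : IntermediateField k Ω) x ⊔ IntermediateField.adjoin k (S : Set Ω) ≤ C :=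
    sup_le hA (IntermediateField.adjoin_le_iff.2 fun s hs => (hS s hs).1)
  have h1 : PB1 p (adj (⊥ : IntermediateField k Ω) x ⊔ IntermediateField.adjoin k (S : Set Ω)) x :=
    PB1.sep (pb1_adj_bot x) hxA le_sup_left fun g hg => sepP_sup (fun s hs => (hS s hs).2) hg
  exact (hD _ hN ((le_sup_left : _ ≤ adj (⊥ : IntermediateField k Ω) x ⊔ _) hxA) h1).pb1_clI hc h1
    hx0 hD1

end Pool.Agent.TWHT
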