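import Pool.Agent.Lib.TWHT.NsdR
import Pool.Agent.Lib.TWHT.HdB
import Pool.Agent.Lib.TWHT.HdB5
import Pool.Agent.Lib.TWHT.HdF
import Pool.Agent.Lib.TWHT.HdP
import Pool.Agent.Lib.TWHT.Glue

/-!
# TANK W, leaf (Ht), H1: `NSDp` for one tight letter (`NsdOne`)

* `NS v x S`: the closure of `k(x)(S)`;
* `nsd_of_case`: `NSDp`, from the relation on the `NS v x S`, `S` finite and separable;
* `htNsdRow`: the row H1 of the leaf (Ht).
-/

set_option autoImplicit false
set_option linter.unusedSectionVars false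

open Polynomial

namespace Pool.Agent.TWHT

open Pool.Agent.H15JM (RVal)
open Pool.Agent.LU1 (VPos adj)
open Pool.Agent.D2 (Ctx0)
open Pool.Agent.D2P (hen clI mem_clI adj_le)
open Pool.Agent.TWM Pool.Agent.TWS
open Pool.Agent.TWF (WX mem_algIn)
open Pool.Agent.TWCT (PB1 RStep)
open Pool.Agent.TWC (EW Tgt PDat clI_mono' clI_le' self_le_clI)

universe u

variable {k Ω : Type u} [Field k] [Field Ω] [Algebra k Ω] {v : RVal Ω} {p : ℕ}
  {C L E N W : IntermediateField k Ω}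

/-- The residue field of an algebraically closed field is algebraically closed. -/
theorem isAlgClosed_k [IsAlgClosed Ω] (h : Ctx0 k v) : IsAlgClosed k := by
  have hcst : ∀ c : k, v.Ge 0 (algebraMap k Ω c) := fun c h0 => by
    rw [h.triv c fun h2 => h0 (by rw [h2, map_zero])]
  refine IsAlgClosed.of_exists_root k fun P hP hirr => ?_
  have hdeg : P.degree ≠ 0 := fun h0 => hirr.not_isUnit (isUnit_iff_degree_eq_zero.2 h0)
  obtain ⟨z, hz⟩ := IsAlgClosed.exists_aeval_eq_zero Ω P hdeg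
  have hge : v.Ge 0 z := by
    intro hz0
    by_contra hlt
    push Not at hlt
    have h1 : z ^ P.natDegree = - ∑ i ∈ Finset.range P.natDegree, algebraMap k Ω (P.coeff i) * z ^ i := by
      rw [aeval_eq_sum_range, Finset.sum_range_succ, hP.coeff_natDegree, one_smul] at hz
      rw [eq_neg_iff_add_eq_zero, add_comm]
      simpa only [Algebra.smul_def] using hz
    have h2 : v.Ge ((P.natDegree - 1 : ℝ) * v z) (z ^ P.natDegree) := by
      rw [h1]
      refine RVal.Ge.neg (RVal.Ge.sum _ _ fun i hi => ?_)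
      have h3 := (hcst (P.coeff i)).mul (ge_pow (RVal.ge_self (v := v) z) i)
      refine h3.mono ?_
      rw [Finset.mem_range] at hi
      have h4 : (i : ℝ) ≤ P.natDegree - 1 := by
        have : i + 1 ≤ P.natDegree := hi
        have : ((i + 1 : ℕ) : ℝ) ≤ P.natDegree := by exact_mod_cast this
        push_cast at this
        linarith
      nlinarith
    have h3 := h2 (pow_ne_zero _ hz0)
    rw [v.map_pow hz0] at h3
    nlinarith
  obtain ⟨c, hc⟩ : ∃ c : k, Gt v 0 (z - algebraMap k Ω c) := by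
    by_cases h0 : z = 0
    · exact ⟨0, by rw [h0, map_zero, sub_zero]; exact Gt.zero⟩
    rcases (hge h0).lt_or_eq with h1 | h1
    · exact ⟨0, by rw [map_zero, sub_zero]; exact fun _ => h1⟩
    · obtain ⟨c, -, hc⟩ := h.res z h0 h1.symm
      exact ⟨c, hc⟩
  refine ⟨c, ?_⟩
  by_contra hne
  obtain ⟨Q, hQ⟩ := X_sub_C_dvd_sub_C_eval (a := c) (p := P)
  have hQz : v.Ge 0 (aeval z Q) := by
    rw [aeval_eq_sum_range]
    refine RVal.Ge.sum _ _ fun i _ => ?_
    rw [Algebra.smul_def]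
    have h1 := (hcst (Q.coeff i)).mul (ge_pow hge i)
    rwa [mul_zero, add_zero] at h1
  have h1 := congrArg (aeval z) hQ
  rw [map_sub, map_mul, map_sub, hz, aeval_X, aeval_C, aeval_C, zero_sub] at h1
  have h2 := (hc.mul_ge hQz).neg
  rw [← h1, neg_neg, add_zero] at h2
  have h3 := h2 (by rw [Ne, _root_.map_eq_zero]; exact hne)
  rw [h.triv _ hne] at h3
  exact lt_irrefl _ h3

/-- The closure of `k(x)(S)`. -/
noncomputable def NS (v : RVal Ω) (k : Type u) [Field k] [Algebra k Ω] (x : Ω) (S : Finset Ω) :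
    IntermediateField k Ω :=
  clI v (adj (⊥ : IntermediateField k Ω) x ⊔ IntermediateField.adjoin k (S : Set Ω))

section NS

variable {x : Ω} {S S' : Finset Ω}

theorem NS.cld : Cld v (NS v k x S) := cld_clI v _

theorem NS.mem_x : x ∈ NS v k x S :=
  self_le_clI v _ ((le_sup_left : adj (⊥ : IntermediateField k Ω) x ≤ _) (D2P.mem_adj_self _ x).1)

theorem NS.mem {s : Ω} (hs : s ∈ S) : s ∈ NS v k x S :=
  self_le_clI v _ ((le_sup_right : IntermediateField.adjoin k (S : Set Ω) ≤ _)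
    (IntermediateField.subset_adjoin _ _ hs))

theorem NS.mono (h : S ⊆ S') : NS v k x S ≤ NS v k x S' :=
  clI_mono' (sup_le_sup le_rfl (IntermediateField.adjoin.mono k _ _ (by exact_mod_cast h)))

theorem NS.le (hC : Cld v C) (hx : x ∈ C) (hS : ∀ s ∈ S, s ∈ C) : NS v k x S ≤ C := by
  refine clI_le' (sup_le (adj_le bot_le hx) ?_) hC
  rw [IntermediateField.adjoin_le_iff]
  exact fun s hs => hS s hs

end NS

section Main

variable [hp : Fact p.Prime] [CharP k p] [CharP Ω p] [PerfectRing k p] [hcx : Fact (Ctx0 k v)]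
  {M : ℝ → Ω} {Λ : Submodule ℚ ℝ}

omit [CharP k p] [CharP Ω p] [PerfectRing k p] hp in
/-- The values of `NS v x S` are rational over that of `x`. -/
theorem ratV_NS {x : Ω} {S : Finset Ω} (hx0 : x ≠ 0) (hvx : v x ≠ 0) {γ : ℝ}
    (hdisc : ∀ a ∈ NS v k x S, a ≠ 0 → ∃ z : ℤ, v a = z * γ) : RatV v (NS v k x S) (v x) := by
  rintro g ⟨a, ha, ha0, rfl⟩
  obtain ⟨z, hz⟩ := hdisc a ha ha0
  obtain ⟨z', hz'⟩ := hdisc x NS.mem_x hx0
  have h0 : z' ≠ 0 := by
    rintro rfl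
    exact hvx (by rw [hz', Int.cast_zero, zero_mul])
  rcases Int.natAbs_eq z' with h1 | h1
  · refine ⟨z'.natAbs, Int.natAbs_ne_zero.2 h0, z, ?_⟩
    have h2 : (z' : ℝ) = (z'.natAbs : ℝ) := by
      have h3 := congrArg (Int.cast : ℤ → ℝ) h1
      rwa [Int.cast_natCast] at h3
    rw [hz, hz', h2]
    ring
  · refine ⟨z'.natAbs, Int.natAbs_ne_zero.2 h0, -z, ?_⟩
    have h2 : (z' : ℝ) = -(z'.natAbs : ℝ) := by
      have h3 := congrArg (Int.cast : ℤ → ℝ) h1
      rwa [Int.cast_neg, Int.cast_natCast] at h3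
    rw [hz, hz', h2]
    push_cast
    ring

omit [CharP k p] [PerfectRing k p] hcx in
/-- The roots of order prime to `p` are separable. -/
theorem sep_root {x y : Ω} (hx0 : x ≠ 0) {e : ℕ} (he : ¬ p ∣ e) (hy : y ^ e = x) :
    IsSeparable (adj (⊥ : IntermediateField k Ω) x) y := by
  have hxF : x ∈ adj (⊥ : IntermediateField k Ω) x := (D2P.mem_adj_self _ x).1
  have : CharP (adj (⊥ : IntermediateField k Ω) x) p :=
    (algebraMap (adj (⊥ : IntermediateField k Ω) x) Ω).charP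
      (algebraMap (adj (⊥ : IntermediateField k Ω) x) Ω).injective p
  have h1 : (X ^ e - Polynomial.C (⟨x, hxF⟩ : adj (⊥ : IntermediateField k Ω) x)).Separable :=
    separable_X_pow_sub_C' p e _ he fun h0 => hx0 (congrArg Subtype.val h0)
  refine h1.of_dvd (minpoly.dvd _ _ ?_)
  rw [map_sub, map_pow, aeval_X, aeval_C, hy]
  exact sub_self x

/-- **`NSDp`**, from the relations on the `NS v x S`. -/
theorem nsd_of_case [IsAlgClosed Ω] (hc : CompleteV v) {W L : IntermediateField k Ω} {x : ℕ → Ω}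
    {r : ℝ} (hMn : TWC.Mns v x M Λ) (hv : v (x 0) ≠ 0) (hWX : W = WX v W (x 0))
    (hW : Tgt p v W x r)
    (D : PDat p v (PM v W (GK p (v (x 0)) Λ) M) (PM v L (GK p (v (x 0)) Λ) M)
      (PM v (EW v W x) (GK p (v (x 0)) Λ) M) (fun n => (![x n] : Fin 1 → Ω))
      (fun n l => M ((![r] : Fin 1 → ℝ) l / p ^ n)) ![r])
    {Th : ℕ → ℕ → Ω → Ω}
    (hT : Tht p v (PM v W (GK p (v (x 0)) Λ) M) (PM v L (GK p (v (x 0)) Λ) M)
      (PM v (EW v W x) (GK p (v (x 0)) Λ) M) x (fun n => M (r / p ^ n)) r Th)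
    {Dr : ℕ → Ω → Ω}
    (hD : ∀ n m : ℕ, m < p ^ n → ∀ g ∈ PM v (EW v W x) (GK p (v (x 0)) Λ) M,
      g ^ p ^ n ∈ PM v W (GK p (v (x 0)) Λ) M → Dr m (g ^ p ^ n) = Th n m g ^ p ^ n)
    (hD1 : Dr 1 (x 0) = M r)
    (hDN : ∀ N : IntermediateField k Ω, N ≤ PM v W (GK p (v (x 0)) Λ) M → x 0 ∈ N →
      PB1 p N (x 0) → HDer p v N (x 0) Dr ∧ ∀ m : ℕ, ∀ f ∈ N, ∃ g ∈ N, Dr m f = M r ^ m * g)
    {e : ℕ} (he : ¬ p ∣ e)
    (hrel : ∀ S : Finset Ω, M (v (x 0) / e) ∈ S → (∀ s ∈ S, s ∈ PM v W (GK p (v (x 0)) Λ) M ∧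
      IsSeparable (adj (⊥ : IntermediateField k Ω) (x 0)) s) →
      ∀ j, 0 < j → RelN p v (NS v k (x 0) S) Dr j) : NSDp p (D.oper hc) := by
  classical
  have hMs := hMn.ms
  have hx0 : x 0 ≠ 0 := TWC.ne_zero_of_far hW.root (hW.dst 0).far
  set G := GK p (v (x 0)) Λ with hG
  set C' := PM v W G M with hC'
  have hxC : x 0 ∈ C' := PM.le hW.mem
  have hCcl : Cld v C' := PM.cld
  have he0 : (e : ℝ) ≠ 0 := by
    have : e ≠ 0 := fun h => he (h ▸ dvd_zero p)
    exact_mod_cast this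
  have hyG : v (x 0) / e ∈ G := ⟨e, he, 1, 0, Λ.zero_mem, by
    rw [mul_div_cancel₀ _ he0]
    push_cast
    ring⟩
  set y := M (v (x 0) / e) with hy
  have hyC : y ∈ C' := PM.mon hyG
  have hye : y ^ e = x 0 := by
    rw [hy, ← hMs.pow trivial e, mul_div_cancel₀ _ he0, hMn.x0]
  have hysep := sep_root (k := k) (p := p) hx0 he hye
  let ι := {S : Finset Ω // y ∈ S ∧ ∀ s ∈ S, s ∈ C' ∧
    IsSeparable (adj (⊥ : IntermediateField k Ω) (x 0)) s}
  have : Nonempty ι := ⟨⟨{y}, Finset.mem_singleton_self y, fun s hs => by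
    rw [Finset.mem_singleton.1 hs]
    exact ⟨hyC, hysep⟩⟩⟩
  have hN : ∀ S : ι, NS v k (x 0) S.1 ≤ C' := fun S =>
    NS.le hCcl hxC fun s hs => (S.2.2 s hs).1
  refine nsdp_of_rel hc hMn D hT hD (ι := ι) (fun S => NS v k (x 0) S.1) ?_ hN
    (fun S => NS.cld) (fun S => NS.mem_x) ?_ ?_ ?_ fun S j hj => hrel S.1 S.2.1 S.2.2 j hj
  · rintro ⟨S, h1, h2⟩ ⟨S', h3, h4⟩
    refine ⟨⟨S ∪ S', Finset.mem_union_left _ h1, fun s hs => ?_⟩,
      NS.mono Finset.subset_union_left, NS.mono Finset.subset_union_right⟩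
    rcases Finset.mem_union.1 hs with h5 | h5
    · exact h2 s h5
    · exact h4 s h5
  · intro S
    obtain ⟨γ, hγ, -, hd⟩ := disc_fin (v := v) (k := k) hx0 hv S.1 fun s hs =>
      (S.2.2 s hs).2.isIntegral.isAlgebraic
    exact ratV_NS hx0 hv hd
  · intro S m f hf
    have hpb : PB1 p (NS v k (x 0) S.1) (x 0) :=
      pb1_fin hc hCcl hx0 hxC (by rw [hD1]; exact hMs.ne _ trivial)
        (fun N hN hxN hpb => (hDN N hN hxN hpb).1) S.1 S.2.2
    exact (hDN _ (hN S) NS.mem_x hpb).2 m f hf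
  · intro w hw b
    rw [hWX] at hw
    obtain ⟨a, ha, h1⟩ := mem_clI.1 hw b
    obtain ⟨haW, hal⟩ := mem_algIn.1 ha
    have hnp : ∀ g ∈ W, g ^ p ≠ x 0 := by
      intro g hg h2
      have h3 : g = x 1 := root_unique (p := p) (by rw [h2, hW.root 0])
      refine (hW.dst 0).far ⟨g, hg, ?_⟩
      rw [zero_add, h3, sub_self]
      exact Gt.zero
    have hsep := sep_of_not_pow (p := p) hW.mem hnp haW hal
    refine ⟨⟨{y, a}, Finset.mem_insert_self _ _, fun s hs => ?_⟩, a, NS.mem (by simp), h1⟩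
    rcases Finset.mem_insert.1 hs with h2 | h2
    · rw [h2]
      exact ⟨hyC, hysep⟩
    · rw [Finset.mem_singleton.1 h2]
      exact ⟨PM.le haW, hsep⟩

/-- **H1 of the leaf (Ht).** -/
theorem nsdOne_of [IsAlgClosed Ω] (hc : CompleteV v) {W L : IntermediateField k Ω} {X : ℕ → Ω}
    {r : ℝ} (hv : v (X 0) ≠ 0) (hWX : W = WX v W (X 0)) (hRat : RatV v W (v (X 0)))
    (hdiv : ∀ g ∈ VG v W, g / p ∈ VG v W) (hW : Tgt p v W X r) : NsdOne p v hc W L X r := by
  classical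
  intro M Λ hMn hMP D
  have hk : IsAlgClosed k := isAlgClosed_k hcx.out
  have hMs := hMn.ms
  have hx0 : X 0 ≠ 0 := TWC.ne_zero_of_far hW.root (hW.dst 0).far
  obtain ⟨Th, hT⟩ := exists_tht_of_pdat hc D
  have hT : Tht p v (PM v W (GK p (v (X 0)) Λ) M) (PM v L (GK p (v (X 0)) Λ) M)
      (PM v (EW v W X) (GK p (v (X 0)) Λ) M) X (fun n => M (r / p ^ n)) r Th := hT
  obtain ⟨Dr, hD, hD1, hDN⟩ := exists_hder hc hT
  have e0 : r / (p : ℝ) ^ 0 = r := by rw [pow_zero, div_one]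
  simp only [e0] at hD1 hDN
  set G := GK p (v (X 0)) Λ with hG
  set C' := PM v W G M with hC'
  have hxC : X 0 ∈ C' := PM.le hW.mem
  have hCcl : Cld v C' := PM.cld
  have hM0 : M r ≠ 0 := hMs.ne _ trivial
  have hvM : v (M r) = r := hMs.val r trivial
  have himm : Imm v C' (PM v (EW v W X) G M) := Imm.pm
    (monG_GK p hcx.out hMs hMn.x0 hMn.compl.disjoint hW.cld hW.mem hRat)
    (TWC.imm_EW hcx.out hdiv hW.root hW.mem)
  by_cases hrat : ∃ (n : ℕ) (m : ℤ), n ≠ 0 ∧ (n : ℝ) * r = m * v (X 0)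
  · obtain ⟨q, z, hq, hqz⟩ := hrat
    obtain ⟨t, e, he, rfl⟩ := Nat.exists_eq_pow_mul_and_not_dvd hq p hp.out.ne_one
    have he0 : (e : ℝ) ≠ 0 := by
      have : e ≠ 0 := fun h => he (h ▸ dvd_zero p)
      exact_mod_cast this
    refine nsd_of_case hc hMn hv hWX hW D hT hD hD1 hDN he fun S hyS hS j hj => ?_
    have hle : NS v k (X 0) S ≤ C' := NS.le hCcl hxC fun s hs => (hS s hs).1
    have hpb : PB1 p (NS v k (X 0) S) (X 0) :=
      pb1_fin hc hCcl hx0 hxC (by rw [hD1]; exact hM0)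
        (fun N hN hxN hpb => (hDN N hN hxN hpb).1) S hS
    obtain ⟨hder, hmem⟩ := hDN _ hle NS.mem_x hpb
    obtain ⟨γ, hγ, ⟨e', he', he0', hve⟩, hd⟩ := disc_fin (v := v) (k := k) hx0 hv S fun s hs =>
      (hS s hs).2.isIntegral.isAlgebraic
    refine relN_rat hder hpb hx0 hM0 hD1 hmem hγ (self_le_clI v _ he') he0' hve hd
      (fun m hm f hf hf0 => hder_gt hT hD himm hm (hle hf) hf0) hq (z := z)
      (by rw [hvM]; exact hqz) (i₁ := t) (j := j) fun i hi => ?_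
    obtain ⟨i', rfl⟩ : ∃ i', i = i' + t := ⟨i - t, by omega⟩
    have h1 : ((p ^ (i' + t) * j : ℕ) : ℝ) * r = ((p ^ i' * j * z : ℤ) : ℝ) * (v (X 0) / e) := by
      push_cast at hqz ⊢
      rw [pow_add, ← mul_div_assoc, eq_div_iff he0]
      linear_combination ((p : ℝ) ^ i' * j) * hqz
    rw [← hMs.pow (g := r) trivial (p ^ (i' + t) * j), h1, MS.zpow hMs trivial]
    exact zpow_mem (NS.mem hyS) _
  · have he : ¬ p ∣ 1 := fun h => hp.out.one_lt.ne' (Nat.dvd_one.1 h)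
    refine nsd_of_case hc hMn hv hWX hW D hT hD hD1 hDN he fun S hyS hS j hj => ?_
    have hroot : ∀ n : ℕ, ¬ p ∣ n → v (X 0) / n ∈ VG v C' := by
      intro n hn
      have hn0 : (n : ℝ) ≠ 0 := by
        have : n ≠ 0 := fun h => hn (h ▸ dvd_zero p)
        exact_mod_cast this
      have hg : v (X 0) / n ∈ G := ⟨n, hn, 1, 0, Λ.zero_mem, by
        rw [mul_div_cancel₀ _ hn0]
        push_cast
        ring⟩
      exact ⟨M (v (X 0) / n), PM.mon hg, hMs.ne _ trivial, hMs.val _ trivial⟩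
    obtain ⟨δ, hδ, hU⟩ := ug_fin (x := X 0) (c₀ := M r) hc hCcl hx0 hv hxC hroot hM0
      (by rw [hvM]; exact TWC.val_lt_lev hcx.out hdiv hW)
      (fun n m hn h => hrat ⟨n, m, hn, by rwa [hvM] at h⟩) hD1 hDN S hS
    exact relN_ug hδ hU hj

end Main

/-- **Row H1 of the leaf (Ht).** -/
theorem htNsdRow (p : ℕ) [Fact p.Prime] (k : Type u) [Field k] [CharP k p] [PerfectRing k p] :
    HtNsdRow p k := by
  intro Ω _ _ _ _ v _ hc W L X r _ _ _ hv hWX _ hRat hdiv hW _ _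
  exact nsdOne_of hc hv hWX hRat hdiv hW

end Pool.Agent.TWHT
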