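import Pool.Agent.Lib.TWHT.AltHAll
import Pool.Agent.Lib.TWHT.NsdRow

/-!
# TANK W: THE LEAF (Ht) IS CLOSED
-/

set_option autoImplicit false

namespace Pool.Agent.TWHT

open Pool.Agent.TWF (OnB AltH LeafD)

universe u

/-- **THE LEAF (Ht).** -/
theorem leafD_altH_all (p : ℕ) [hp : Fact p.Prime] (k : Type u) [Field k] [CharP k p]
    [IsAlgClosed k] [PerfectRing k p] : LeafD p k (OnB p fun _ _ _ v C => AltH p v C) :=
  leafD_altH_all_of p k (htNsdRow p k)

end Pool.Agent.TWHT
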