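import Pool.Agent.Lib.TWHT.LastS
import Pool.Agent.Lib.TWC.MainW

/-!
# TANK W, leaf (Ht), row R9: the entry
-/

set_option autoImplicit false
set_option linter.unusedSectionVars false

namespace Pool.Agent.TWHT

open Pool.Agent.H15JM (RVal)
open Pool.Agent.D2 (Ctx0)
open Pool.Agent.D2P (hen clI mem_clI)
open Pool.Agent.TWM Pool.Agent.TWS
open Pool.Agent.TWC (EW Tgt)

universe u

variable {k Ω : Type u} [Field k] [Field Ω] [Algebra k Ω] {v : RVal Ω}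
  [hcx : Fact (Ctx0 k v)] {p : ℕ} [hp : Fact p.Prime] [CharP k p] [CharP Ω p]
  [PerfectRing k p] [IsAlgClosed Ω] {W K L : IntermediateField k Ω}

/-- **R9. The entry.** -/
theorem ht_entry85 (hc : CompleteV v) {X : ℕ → Ω} {r : ℝ}
    (hM : ∃ M : ℝ → Ω, MonG v (EW v W X) ⊤ M)
    (hperf : ∀ a ∈ EW v W X, ∃ b ∈ EW v W X, b ^ p = a) (hW : Tgt p v W X r) {n : ℕ} (hn : n ≤ 3)
    (hT : TowR v n W K) (hKL : K ≤ L) (hpow : ∀ a ∈ L, a ^ p ∈ K) :
    TowR v n (EW v W X) (clI v (L ⊔ EW v W X)) := by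
  obtain ⟨M, hM⟩ := hM
  exact tow_stepS p hc hn hM hperf TWC.EW.cld
    (hT.base TWC.EW.le TWC.EW.cld (TWC.EW.le_algc hW.root hW.mem)) hKL hpow

end Pool.Agent.TWHT
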