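import Pool.Agent.Lib.TWC.MainW
import Pool.Agent.Lib.TWC.SlackX
import Pool.Agent.Lib.TWC.Lv0S
import Pool.Agent.Lib.TWTR.BasL
import Pool.Agent.Lib.TWF.InfCov
import Pool.Agent.Lib.TWHT.Glue
import Pool.Agent.Lib.TWHT.Entry9

/-!
# TANK W, leaf (Ht): the entry

* `tgt_stepR`: the step `K → K(al)` for a tight element, of any level, of the lower field;
* `ht_tgt`: the entry of the leaf (Ht): `X` is tight in the closure of `K₀(al)`;
* **`htTgtRow`**, **`htEntRow`**: the rows;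
* **`leafD_altH_of`**: the leaf, from the descent (R7) and from `NSDp`.
-/

set_option autoImplicit false

open Polynomial

namespace Pool.Agent.TWHT

open Pool.Agent.H15JM (RVal)
open Pool.Agent.LU1 (VPos adj)
open Pool.Agent.D2 (Ctx0)
open Pool.Agent.D2P (hen clI mem_clI mem_adj_self adj_le)
open Pool.Agent.TW
open Pool.Agent.TWM (CompleteV cadj cld_clI Cld TL Gt PI MS Imm cld_cadj le_cadj self_mem_cadj
  cadj_le)
open Pool.Agent.TWS (TowR PM MonG VG RatV GK)
open Pool.Agent.TWC (Tgt EW Tow Mns self_le_clI clI_le' clI_mono')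
open Pool.Agent.TWF (Bs Hon OnB AltH LeafD)
open Pool.Agent.TWJ2 (Bad)

universe u

variable {k Ω : Type u} [Field k] [Field Ω] [Algebra k Ω] {v : RVal Ω}

section Step

variable (p : ℕ) [hp : Fact p.Prime] [CharP k p] [CharP Ω p] [IsAlgClosed k] [IsAlgClosed Ω]

/-- **The step `K → K(al)`** for a tight element of any level, in the lower field. -/
theorem tgt_stepR {e D : ℕ} (h : Ctx k v e) (hcv : CompleteV v)
    (hLU : ∀ E : IntermediateField k Ω, E.FG → Full v E → Algebra.trdeg k E = (e + D : ℕ) →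
      BD p v E → LU p v e E)
    {K₀ : IntermediateField k Ω} (hK : K₀.FG) (hKf : Full v K₀)
    (htr : Algebra.trdeg k K₀ = (e + D + 1 : ℕ)) (hBDK : BD p v K₀) {al : Ω}
    (hal : al ^ p ∈ K₀) (hBD : BD p v (adj K₀ al)) {F : IntermediateField k Ω} (hF : F.FG)
    (hFf : Full v F) (hFt : Algebra.trdeg k F = (e + D : ℕ)) {y : Ω} {s : ℝ}
    (hy : TL v (clI v F) y s) (hcl : clI v K₀ = cadj v (clI v F) y)
    {x : ℕ → Ω} {r : ℝ} (hx : Tgt p v (clI v K₀) x r) (hxF : x 0 ∈ clI v F) :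
    HRone v (adj K₀ al) ∨ Tgt p v (clI v (adj K₀ al)) x r := by
  have hp0 : (0 : ℝ) < p := by exact_mod_cast hp.out.pos
  rcases hx.up (cld_clI v _) (TWM.clI_mono (le_sup_left : K₀ ≤ adj K₀ al))
    (TWC.pow_mem_clI p (TWJ.pow_mem_of_adj1 p hal)) with ⟨u, hu, -, hux⟩ | h1
  swap
  · exact Or.inr h1
  left
  -- an element of `K₀(al)` near `x 1`
  obtain ⟨w, hw, h1⟩ := mem_clI.1 hu.mem (r / p + 1)
  have hwx : Gt v (r / p) (w - x 1) := by
    have h2 := (TWM.Gt.of_ge h1 (by linarith : r / p < r / p + 1)).neg.add hux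
    rwa [neg_sub, sub_add_sub_cancel] at h2
  have hwp : Gt v r (w ^ p - x 0) := by
    have h2 : x (0 + 1) ^ p = x 0 := hx.root 0
    rw [zero_add] at h2
    rw [← h2, ← sub_pow_char]
    have := (TWC.gt_pow_iff (v := v) (y := w - x 1) (b := r / p) (N := p) hp.out.pos).2 hwx
    rwa [mul_div_cancel₀ _ hp0.ne'] at this
  have hfar : ∀ g ∈ clI v K₀, ¬ Gt v r (w ^ p - g ^ p) := by
    intro g hg h2
    refine hx.far_pow hg ?_
    have h3 := hwp.neg.add h2
    rwa [neg_sub, sub_add_sub_cancel] at h3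
  have hwK : w ∉ K₀ := fun h2 => hfar w (LUC.Cl.subset h2) (by rw [sub_self]; exact Gt.zero)
  rw [← TWJ.adj_eq_of_mem p hal hw hwK]
  refine TWJ.exit_base p h hcv hLU hK hKf htr hBDK (TWJ.pow_mem_of_adj1 p hal w hw)
    (by rw [TWJ.adj_eq_of_mem p hal hw hwK]; exact hBD) hF hFf hFt hy hcl (ν := r) (g := 0)
    (zero_mem _) hxF ?_ hfar
  rw [zero_pow hp.out.ne_zero, sub_zero]
  exact hwp

end Step

section Entry

variable {p : ℕ} [hp : Fact p.Prime] [CharP k p] [CharP Ω p] [IsAlgClosed k] [IsAlgClosed Ω]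
  {W : IntermediateField k Ω} {X : ℕ → Ω} {r : ℝ}

/-- **THE ENTRY OF THE LEAF (Ht)**: three floors over `W`, and `x` is tight in the closure of
`K₀(al)`. -/
theorem ht_tgt {K₀ : IntermediateField k Ω} {al : Ω} (hb : Bad p v k 1 K₀ al)
    {C₁ C : IntermediateField k Ω} (hB : Bs p v C₁ C) {y : Ω} {s : ℝ}
    (hon : Hon p v C W (X 0) y s) (hX : Tgt p v W X r) (hT : TowR v 2 C (clI v K₀)) :
    TowR v 3 W (clI v K₀) ∧ Tgt p v (clI v K₀) X r ∧ Tgt p v (clI v (adj K₀ al)) X r := by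
  have h3 : TowR v 3 W (clI v K₀) := TowR.succ hon.tl (by rw [← hon.eq]; exact hT)
  have hx : Tgt p v (clI v K₀) X r := hX.towR h3
  refine ⟨h3, hx, ?_⟩
  have hCc : Cld v C := by
    rw [hon.eq]
    exact cld_cadj v _ _
  have hWC : W ≤ C := by
    rw [hon.eq]
    exact le_cadj v _ _
  have hLU : ∀ E : IntermediateField k Ω, E.FG → Full v E →
      Algebra.trdeg k E = (1 + 2 : ℕ) → BD p v E → LU p v 1 E := by
    intro K hK hKf htK hBDK
    exact TWJ.lu_bd_two p hb.ctx (TWJ.stepAll p k 1) (by omega) hK hKf htK hBDK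
  -- the last floor
  obtain ⟨N, z, t, hTN, hz, hcl⟩ := hT.last hCc
  rw [hB.eq] at hTN
  obtain ⟨F, hF, hAF, hFt, rfl⟩ := TWC.tower_fg hB.fg hB.tr hTN
  have hxF : X 0 ∈ clI v F := hTN.le (hB.eq ▸ hWC hX.mem)
  have hFf : Full v F := by
    obtain ⟨a, ha, h1⟩ := mem_clI.1 hxF (v (X 0) + 1)
    have h2 : Gt v (v (X 0)) (X 0 - a) := fun h3 => lt_of_lt_of_le (by linarith) (h1 h3)
    obtain ⟨h3, h4⟩ := Gt.val_eq hon.t0 h2
    exact TWC.full_of_mem hb.ctx ha h3 (by rw [h4]; exact hon.vt)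
  rcases tgt_stepR p (D := 2) hb.ctx hb.cpl hLU hb.fg hb.full (by rw [hb.tr]) hb.bd hb.mem hb.bda
    hF hFf (by rw [hFt]) hz hcl hx hxF with h1 | h1
  · exact absurd h1 hb.no
  · exact h1

/-- **The row.** -/
theorem htTgtRow (p : ℕ) [hp : Fact p.Prime] (k : Type u) [Field k] [CharP k p] [IsAlgClosed k] :
    HtTgtRow p k := fun _ _ _ _ _ _ _ _ _ _ _ _ _ _ _ hb _ hB hT hH hTg =>
  (ht_tgt hb hB hH hTg hT).2.2

/-- **The row R9.** -/
theorem htEntRow (p : ℕ) [hp : Fact p.Prime] (k : Type u) [Field k] [CharP k p] [IsAlgClosed k] :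
    HtEntRow p k := fun _ _ _ _ _ _ _ hc _ _ _ _ _ hM hperf hW hT hKL hpow _ => by
  have : PerfectRing k p := PerfectField.toPerfectRing p
  exact ht_entry85 hc hM hperf hW le_rfl hT hKL hpow

/-- **THE LEAF (Ht)**, from R7 and from the row of helper74. -/
theorem leafD_altH_of (p : ℕ) [hp : Fact p.Prime] (k : Type u) [Field k] [CharP k p]
    [IsAlgClosed k] [PerfectRing k p] (h7 : HtR7 p k) (hnsd : HtNsdRow p k) :
    LeafD p k (OnB p fun _ _ _ v C => AltH p v C) :=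
  leafD_altH_of_rows (htCoreRow_of_r7 p k h7) hnsd (htEntRow p k) (htTgtRow p k)

end Entry

end Pool.Agent.TWHT
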