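import Pool.Agent.Lib.TWIV.Core2
import Pool.Agent.Lib.TWC.SD

/-!
# TANK W, leaf (Ht): the tensor core with nilpotent operators

`V` a module over `k{F}` with operators `O` (`A F ⊆ F A`), letters `y a` (`a ∈ ι`) killed by the
operators, `Y x = F^i y_a`, `x = (a, i)`, independent; unknowns `α ∈ κ`; `Φ_αβ = lam α β + nu α β`,
`nu α β ∈ A`.

* `Nsd1 O`: a finite dimensional `P` with `F P ⊆ P + A P` is torsion over `k{F}`;
* `exists_dual`: functionals dual to the `Y x`, zero on the torsion;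
* `CorN`: the relations;
* `CorN.main`: `m α x = ∑ g α x z • Y z`, `g α x z - g α z x + ρ α x z = 0`.
-/

set_option autoImplicit false
set_option linter.unusedSectionVars false

namespace Pool.Agent.TWHT

open Module Submodule TensorProduct
open Pool.Agent.TWC (Ops act mem_act act_mono tp tmul_mem_tp tp_le tp_mono FF FF_tmul LS LS_fg
  mem_tp_LS it_LS cop cop_tmul Sat it_sum it_smul)
open Pool.Agent.TWIV (Yx shx XN mem_XN F_Yx sum_shx alt alt_add alt_smul alt_zero alt_sum FF_alt)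

universe u w

variable {k : Type u} {V : Type w} [Field k] [AddCommGroup V] [Module k V]
variable {σ : k →+* k} [RingHomSurjective σ] {F : V →ₛₗ[σ] V} {O : Ops F}
variable {ι : Type*} [Fintype ι] {κ : Type*} [Fintype κ]

/-! ### The torsion -/

/-- A finite dimensional `P` with `F P ⊆ P + A P` is torsion. -/
def Nsd1 (O : Ops F) : Prop :=
  ∀ P : Submodule k V, P.FG → (∀ x ∈ P, F x ∈ P ⊔ act O P) → P ≤ Sat F ⊥

/-- A torsion element has a relation. -/
theorem exists_rel {x : V} (hx : x ∈ Sat F ⊥) :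
    ∃ (B : ℕ) (c : ℕ → k), (∑ i ∈ Finset.range B, c i • F^[i] x = 0) ∧ ∃ i < B, c i ≠ 0 := by
  classical
  obtain ⟨T, hT, h1⟩ := hx
  have h2 : ∀ i, F^[i] x ∈ T := fun i => by
    have h3 := h1 i
    rwa [bot_sup_eq] at h3
  have _ : Module.Finite k T := Module.Finite.of_fg hT
  have h3 : ¬ LinearIndependent k fun i : ℕ => (⟨F^[i] x, h2 i⟩ : T) := fun h4 =>
    Set.infinite_univ (α := ℕ) (Set.finite_univ_iff.2 h4.finite)
  rw [linearIndependent_iff'] at h3
  push Not at h3
  obtain ⟨s, g, h4, i, hi, h5⟩ := h3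
  refine ⟨s.sup id + 1, fun j => if j ∈ s then g j else 0, ?_, i,
    Nat.lt_succ_of_le (Finset.le_sup (f := id) hi), ?_⟩
  · have h6 : ∑ j ∈ s, g j • F^[j] x = 0 := by
      have h7 := congrArg Subtype.val h4
      rw [Submodule.coe_sum] at h7
      exact h7
    have h7 : ∑ j ∈ s, (if j ∈ s then g j else 0) • F^[j] x =
        ∑ j ∈ Finset.range (s.sup id + 1), (if j ∈ s then g j else 0) • F^[j] x := by
      refine Finset.sum_subset (fun j hj => ?_) fun j _ hj => ?_
      · exact Finset.mem_range.2 (Nat.lt_succ_of_le (Finset.le_sup (f := id) hj))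
      · rw [if_neg hj, zero_smul]
    rw [← h7, ← h6]
    exact Finset.sum_congr rfl fun j hj => by rw [if_pos hj]
  · change (if i ∈ s then g i else 0) ≠ 0
    rwa [if_pos hi]

/-- The functionals dual to an independent family. -/
theorem exists_dual0 {Z : Type*} [AddCommGroup Z] [Module k Z] {τ : Type*} {Y : τ → Z}
    (hY : LinearIndependent k Y) (x : τ) [DecidableEq τ] :
    ∃ ξ : Z →ₗ[k] k, ∀ z, ξ (Y z) = if z = x then 1 else 0 := by
  obtain ⟨g, hg⟩ := LinearMap.exists_extend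
    ((Basis.span hY).constr k (fun z : τ => if z = x then (1 : k) else 0))
  refine ⟨g, fun z => ?_⟩
  have h1 : Y z = (Submodule.subtype _) (Basis.span hY z) := by
    simp [Basis.span_apply]
  rw [h1, ← LinearMap.comp_apply, hg, Basis.constr_basis]

/-- The letters are independent modulo the torsion. -/
theorem ind_sat {y : ι → V} (hY : LinearIndependent k (Yx F y)) :
    LinearIndependent k fun x => (Sat F ⊥).mkQ (Yx F y x) := by
  classical
  rw [linearIndependent_iff']
  intro s g hs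
  by_contra hne
  push Not at hne
  obtain ⟨x1, hx1, hg1⟩ := hne
  have h1 : ∑ x ∈ s, g x • Yx F y x ∈ Sat F ⊥ := by
    rw [← Submodule.Quotient.mk_eq_zero, ← Submodule.mkQ_apply, map_sum, ← hs]
    exact Finset.sum_congr rfl fun x _ => map_smul _ _ _
  obtain ⟨B, c, h2, i1, hi1, hc1⟩ := exists_rel h1
  -- the leading terms
  obtain ⟨i0, hi0, hmi⟩ := Finset.exists_max_image ((Finset.range B).filter fun i => c i ≠ 0)
    id ⟨i1, Finset.mem_filter.2 ⟨Finset.mem_range.2 hi1, hc1⟩⟩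
  obtain ⟨x0, hx0, hmx⟩ := Finset.exists_max_image (s.filter fun x => g x ≠ 0)
    (fun x => x.2) ⟨x1, Finset.mem_filter.2 ⟨hx1, hg1⟩⟩
  rw [Finset.mem_filter] at hi0 hx0
  obtain ⟨ξ, hξ⟩ := exists_dual0 hY (x0.1, x0.2 + i0)
  have h3 : ∀ i, F^[i] (∑ x ∈ s, g x • Yx F y x) =
      ∑ x ∈ s, σ^[i] (g x) • Yx F y (x.1, x.2 + i) := by
    intro i
    rw [it_sum]
    refine Finset.sum_congr rfl fun x _ => ?_
    rw [it_smul, Yx, Yx, ← Function.iterate_add_apply, add_comm i]
  have h4 := congrArg ξ h2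
  rw [map_zero, map_sum, Finset.sum_eq_single i0] at h4
  · rw [map_smul, h3, map_sum, Finset.sum_eq_single x0, map_smul, hξ, if_pos rfl, smul_eq_mul,
      smul_eq_mul, mul_one] at h4
    · rcases mul_eq_zero.1 h4 with h5 | h5
      · exact hi0.2 h5
      · refine hx0.2 ?_
        have h6 : ∀ (n : ℕ) (a : k), σ^[n] a = 0 → a = 0 := by
          intro n
          induction n with
          | zero => exact fun a ha => ha
          | succ n ih =>
            intro a ha
            rw [Function.iterate_succ_apply'] at ha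
            exact ih a ((map_eq_zero σ).1 ha)
        exact h6 _ _ h5
    · intro x hx hne
      by_cases hg : g x = 0
      · have h5 : σ^[i0] (g x) = 0 := by
          rw [hg]
          exact Function.iterate_fixed (map_zero σ) _
        rw [h5, zero_smul, map_zero]
      · rw [map_smul, hξ, if_neg, smul_zero]
        intro h5
        have h6 : x.1 = x0.1 := (Prod.mk.inj h5).1
        have h7 : x.2 + i0 = x0.2 + i0 := (Prod.mk.inj h5).2
        exact hne (Prod.ext h6 (by omega))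
    · exact fun h5 => absurd hx0.1 h5
  · intro i hi hne
    by_cases hc : c i = 0
    · rw [hc, zero_smul, map_zero]
    · have hlt : i < i0 := by
        have h5 := hmi i (Finset.mem_filter.2 ⟨hi, hc⟩)
        simp only [id] at h5
        omega
      rw [map_smul, h3, map_sum, Finset.sum_eq_zero, smul_zero]
      intro x hx
      by_cases hg : g x = 0
      · have h5 : σ^[i] (g x) = 0 := by
          rw [hg]
          exact Function.iterate_fixed (map_zero σ) _
        rw [h5, zero_smul, map_zero]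
      · rw [map_smul, hξ, if_neg, smul_zero]
        intro h5
        have h6 := congrArg Prod.snd h5
        have h7 := hmx x (Finset.mem_filter.2 ⟨hx, hg⟩)
        simp only at h6
        omega
  · exact fun h5 => absurd hi0.1 h5

/-- **The dual functionals**, zero on the torsion. -/
theorem exists_dual {y : ι → V} (hY : LinearIndependent k (Yx F y)) [DecidableEq (ι × ℕ)]
    (x : ι × ℕ) : ∃ ξ : V →ₗ[k] k, (∀ z, ξ (Yx F y z) = if z = x then 1 else 0) ∧
      ∀ w ∈ Sat F ⊥, ξ w = 0 := by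
  obtain ⟨ξ, hξ⟩ := exists_dual0 (ind_sat hY) x
  refine ⟨ξ.comp (Sat F ⊥).mkQ, fun z => hξ z, fun w hw => ?_⟩
  rw [LinearMap.comp_apply, Submodule.mkQ_apply, (Submodule.Quotient.mk_eq_zero _).2 hw, map_zero]

/-! ### Tensors -/

/-- Slicing the left factor by a functional. -/
noncomputable def sliceL (ξ : V →ₗ[k] k) : V ⊗[k] V →ₗ[k] V :=
  (TensorProduct.lid k V).toLinearMap ∘ₗ TensorProduct.map ξ LinearMap.id

theorem sliceL_tmul (ξ : V →ₗ[k] k) (x y : V) : sliceL ξ (x ⊗ₜ[k] y) = ξ x • y := by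
  simp [sliceL]

theorem sliceL_zero {ξ : V →ₗ[k] k} {P : Submodule k V} (h : ∀ x ∈ P, ξ x = 0) {t : V ⊗[k] V}
    (ht : t ∈ tp P) : sliceL ξ t = 0 := by
  have h1 : tp P ≤ LinearMap.ker (sliceL ξ) := by
    rw [tp_le]
    intro x hx y
    rw [LinearMap.mem_ker, sliceL_tmul, h x hx, zero_smul]
  exact LinearMap.mem_ker.1 (h1 ht)

/-- a family of tensors, `(F ⊗ F) t_j` a combination of `t_l` and `(n ⊗ 1 + 1 ⊗ n) t_l` -/
theorem Nsd1.tensors (hN : Nsd1 O) (hF : Function.Injective F) (t : κ → V ⊗[k] V)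
    (lam : κ → κ → k) (nu : κ → κ → V →ₗ[k] V) (hnu : ∀ i j, nu i j ∈ O.A)
    (h : ∀ j, FF F (t j) = ∑ l, (lam j l • t l + cop (nu j l) (t l))) (j : κ) :
    t j ∈ tp (Sat F ⊥) := by
  have h0 : (⨆ l, LS (t l)) ≤ Sat F ⊥ := by
    refine hN _ (Submodule.fg_iSup _ fun j => LS_fg (t j)) ?_
    set P : Submodule k V := ⨆ l, LS (t l) with hP
    have h1 : ∀ l, t l ∈ tp P := fun l => tp_mono (le_iSup (fun l => LS (t l)) l) (mem_tp_LS _)
    have h2 : tp P ≤ tp (P ⊔ act O P) := tp_mono le_sup_left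
    have h3 : ∀ i j l, cop (nu i j) (t l) ∈ tp (P ⊔ act O P) := by
      intro i j l
      have h4 : tp P ≤ (tp (P ⊔ act O P)).comap (cop (nu i j)) := by
        rw [tp_le]
        intro x hx y
        rw [Submodule.mem_comap, cop_tmul]
        exact add_mem (tmul_mem_tp (Submodule.mem_sup_right (mem_act (hnu i j) hx)) _)
          (tmul_mem_tp (Submodule.mem_sup_left hx) _)
      exact h4 (h1 l)
    have h5 : P ≤ (P ⊔ act O P).comap F := by
      refine iSup_le fun l x hx => ?_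
      have h6 : (FF F)^[1] (t l) ∈ tp (P ⊔ act O P) := by
        rw [Function.iterate_one, h l]
        exact sum_mem fun i _ => add_mem (Submodule.smul_mem _ _ (h2 (h1 i))) (h3 l i i)
      have h7 := it_LS hF h6 hx
      rw [Function.iterate_one] at h7
      exact Submodule.mem_comap.2 h7
    exact fun x hx => Submodule.mem_comap.1 (h5 hx)
  exact tp_mono ((le_iSup (fun l => LS (t l)) j).trans h0) (mem_tp_LS _)

/-- The relations of the tensor core. -/
structure CorN (F : V →ₛₗ[σ] V) (O : Ops F) (y : ι → V) (N : ℕ) (lam : κ → κ → k)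
    (nu : κ → κ → V →ₗ[k] V) (m : κ → ι × ℕ → V) (S ρ : κ → ι × ℕ → ι × ℕ → k) : Prop where
  nuO : ∀ α β, nu α β ∈ O.A
  nuY : ∀ α β x, nu α β (Yx F y x) = 0
  ind : LinearIndependent k (Yx F y)
  mbig : ∀ α x, N ≤ x.2 → m α x = 0
  Sbig : ∀ α x z, N ≤ x.2 → S α x z = 0
  Sbig' : ∀ α x z, N ≤ z.2 → S α x z = 0
  ρbig : ∀ α x z, N ≤ x.2 → ρ α x z = 0
  anti : ∀ α x z, ρ α z x = -ρ α x z
  rel : ∀ α x, F (m α x) = (∑ β, (lam α β • m β (shx x) + nu α β (m β (shx x)))) +
    ∑ z ∈ XN ι N, S α (shx x) z • Yx F y z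
  rel0 : ∀ α a, 0 = (∑ β, (lam α β • m β (a, 0) + nu α β (m β (a, 0)))) +
    ∑ z ∈ XN ι N, S α (a, 0) z • Yx F y z
  rho : ∀ α x z, S α (shx x) (shx z) - S α (shx z) (shx x) =
    (∑ β, lam α β * ρ β (shx x) (shx z)) - σ (ρ α x z)
  rho0 : ∀ α a z, S α (a, 0) z - S α z (a, 0) = ∑ β, lam α β * ρ β (a, 0) z

namespace CorN

variable {y : ι → V} {N : ℕ} {lam : κ → κ → k} {nu : κ → κ → V →ₗ[k] V}
  {m : κ → ι × ℕ → V} {S ρ : κ → ι × ℕ → ι × ℕ → k}

/-- the tensor -/
noncomputable def tt (F : V →ₛₗ[σ] V) (y : ι → V) (N : ℕ) (m : κ → ι × ℕ → V)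
    (ρ : κ → ι × ℕ → ι × ℕ → k) (α : κ) : V ⊗[k] V :=
  (∑ x ∈ XN ι N, alt (Yx F y x) (m α x)) +
    ∑ x ∈ XN ι N, ∑ z ∈ XN ι N, ρ α x z • (Yx F y x ⊗ₜ[k] Yx F y z)

omit [RingHomSurjective σ] in
/-- `∑ S(x,z) alt(Y_x, Y_z)` -/
theorem sum_alt (T : ι × ℕ → ι × ℕ → k) :
    ∑ x ∈ XN ι N, alt (Yx F y x) (∑ z ∈ XN ι N, T x z • Yx F y z) =
      ∑ x ∈ XN ι N, ∑ z ∈ XN ι N, (T x z - T z x) • (Yx F y x ⊗ₜ[k] Yx F y z) := by
  have h1 : ∀ x, alt (k := k) (Yx F y x) (∑ z ∈ XN ι N, T x z • Yx F y z) =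
      (∑ z ∈ XN ι N, T x z • (Yx F y x ⊗ₜ[k] Yx F y z)) -
        ∑ z ∈ XN ι N, T x z • (Yx F y z ⊗ₜ[k] Yx F y x) := by
    intro x
    rw [alt_sum, ← Finset.sum_sub_distrib]
    refine Finset.sum_congr rfl fun z _ => ?_
    rw [alt_smul, alt, smul_sub]
  simp only [h1, Finset.sum_sub_distrib, sub_smul]
  congr 1
  rw [Finset.sum_comm]

variable (h : CorN F O y N lam nu m S ρ)

include h

omit [RingHomSurjective σ] in
theorem ρbig' (α : κ) (x z : ι × ℕ) (hz : N ≤ z.2) : ρ α x z = 0 := by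
  have h1 := h.anti α z x
  rw [h.ρbig α z x hz, neg_zero] at h1
  exact h1

omit [RingHomSurjective σ] in
theorem cop_alt (α β : κ) (x : ι × ℕ) (w : V) :
    cop (nu α β) (alt (Yx F y x) w) = alt (Yx F y x) (nu α β w) := by
  rw [alt, map_sub, cop_tmul, cop_tmul, h.nuY, alt]
  simp

omit [RingHomSurjective σ] in
theorem cop_tt (α β : κ) : cop (nu α β) (tt F y N m ρ β) =
    ∑ x ∈ XN ι N, alt (Yx F y x) (nu α β (m β x)) := by
  rw [tt, map_add, map_sum, map_sum]
  have h1 : ∑ x ∈ XN ι N, cop (nu α β) (∑ z ∈ XN ι N, ρ β x z • (Yx F y x ⊗ₜ[k] Yx F y z)) =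
      0 := by
    refine Finset.sum_eq_zero fun x _ => ?_
    rw [map_sum]
    refine Finset.sum_eq_zero fun z _ => ?_
    rw [map_smul, cop_tmul, h.nuY, h.nuY]
    simp
  rw [h1, add_zero]
  exact Finset.sum_congr rfl fun x _ => h.cop_alt α β x _

/-- `(F ⊗ F) t_α = Φ t_α` -/
theorem FF_tt (α : κ) : FF F (tt F y N m ρ α) =
      ∑ β, (lam α β • tt F y N m ρ β + cop (nu α β) (tt F y N m ρ β)) := by
  classical
  -- the right hand side
  have e1 : ∑ β, (lam α β • tt F y N m ρ β + cop (nu α β) (tt F y N m ρ β)) =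
      (∑ x ∈ XN ι N, alt (Yx F y x) (∑ β, (lam α β • m β x + nu α β (m β x)))) +
      ∑ x ∈ XN ι N, ∑ z ∈ XN ι N, (∑ β, lam α β * ρ β x z) •
        (Yx F y x ⊗ₜ[k] Yx F y z) := by
    have e2 : ∀ β, lam α β • tt F y N m ρ β + cop (nu α β) (tt F y N m ρ β) =
        (∑ x ∈ XN ι N, alt (Yx F y x) (lam α β • m β x + nu α β (m β x))) +
        ∑ x ∈ XN ι N, ∑ z ∈ XN ι N, (lam α β * ρ β x z) •
          (Yx F y x ⊗ₜ[k] Yx F y z) := by
      intro β
      rw [h.cop_tt, tt, smul_add, Finset.smul_sum, Finset.smul_sum, add_right_comm,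
        ← Finset.sum_add_distrib]
      congr 1
      · refine Finset.sum_congr rfl fun x _ => ?_
        rw [alt_add, alt_smul]
      · refine Finset.sum_congr rfl fun x _ => ?_
        rw [Finset.smul_sum]
        refine Finset.sum_congr rfl fun z _ => ?_
        rw [smul_smul]
    rw [Finset.sum_congr rfl fun β _ => e2 β, Finset.sum_add_distrib]
    congr 1
    · rw [Finset.sum_comm]
      refine Finset.sum_congr rfl fun x _ => ?_
      rw [alt_sum]
    · rw [Finset.sum_comm]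
      refine Finset.sum_congr rfl fun x _ => ?_
      rw [Finset.sum_comm]
      refine Finset.sum_congr rfl fun z _ => ?_
      rw [Finset.sum_smul]
  -- the left hand side
  have f1 : FF F (tt F y N m ρ α) = (∑ x ∈ XN ι N, alt (Yx F y (shx x)) (F (m α x))) +
      ∑ x ∈ XN ι N, ∑ z ∈ XN ι N, σ (ρ α x z) •
        (Yx F y (shx x) ⊗ₜ[k] Yx F y (shx z)) := by
    rw [tt, map_add, map_sum, map_sum]
    congr 1
    · refine Finset.sum_congr rfl fun x _ => ?_
      rw [FF_alt, F_Yx]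
    · refine Finset.sum_congr rfl fun x _ => ?_
      rw [map_sum]
      refine Finset.sum_congr rfl fun z _ => ?_
      rw [LinearMap.map_smulₛₗ, FF_tmul, F_Yx, F_Yx]
  -- the first sum
  have f2 : ∑ x ∈ XN ι N, alt (Yx F y (shx x)) (F (m α x)) =
      (∑ x ∈ XN ι N, alt (Yx F y x) (∑ β, (lam α β • m β x + nu α β (m β x)))) +
      ∑ x ∈ XN ι N, ∑ z ∈ XN ι N, (S α x z - S α z x) • (Yx F y x ⊗ₜ[k] Yx F y z) := by
    set f : ι × ℕ → V ⊗[k] V := fun x => alt (Yx F y x)
      ((∑ β, (lam α β • m β x + nu α β (m β x))) + ∑ z ∈ XN ι N, S α x z • Yx F y z) with hf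
    have f3 : ∑ x ∈ XN ι N, alt (Yx F y (shx x)) (F (m α x)) = ∑ x ∈ XN ι N, f (shx x) :=
      Finset.sum_congr rfl fun x _ => by rw [h.rel α x]
    have f4 : ∀ a, f (a, N) = 0 := by
      intro a
      rw [hf]
      simp only [h.mbig _ (a, N) le_rfl, h.Sbig _ (a, N) _ le_rfl, map_zero, smul_zero, zero_smul,
        Finset.sum_const_zero, add_zero, alt_zero]
    have f5 : ∀ a, f (a, 0) = 0 := by
      intro a
      rw [hf]
      simp only
      rw [← h.rel0 α a, alt_zero]
    have f6 := sum_shx N f f4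
    rw [Finset.sum_congr rfl fun a _ => f5 a, Finset.sum_const_zero, add_zero] at f6
    rw [f3, f6, ← sum_alt, ← Finset.sum_add_distrib]
    exact Finset.sum_congr rfl fun x _ => alt_add _ _ _
  -- the second sum
  have g1 : ∑ x ∈ XN ι N, ∑ z ∈ XN ι N, σ (ρ α x z) •
        (Yx F y (shx x) ⊗ₜ[k] Yx F y (shx z)) =
      ∑ x ∈ XN ι N, ∑ z ∈ XN ι N, ((∑ β, lam α β * ρ β x z) -
        (S α x z - S α z x)) • (Yx F y x ⊗ₜ[k] Yx F y z) := by
    set g : ι × ℕ → ι × ℕ → V ⊗[k] V := fun x z =>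
      ((∑ β, lam α β * ρ β x z) - (S α x z - S α z x)) • (Yx F y x ⊗ₜ[k] Yx F y z) with hg
    have g2 : ∀ x z, σ (ρ α x z) • (Yx F y (shx x) ⊗ₜ[k] Yx F y (shx z)) =
        g (shx x) (shx z) := by
      intro x z
      rw [hg]
      simp only
      rw [h.rho α x z]
      congr 1
      ring
    have g3 : ∀ a z, g (a, 0) z = 0 := by
      intro a z
      rw [hg]
      simp only
      rw [h.rho0 α a z, sub_self, zero_smul]
    have g4 : ∀ x a, g x (a, 0) = 0 := by
      intro x a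
      have g5 := h.rho0 α a x
      rw [hg]
      simp only
      have g6 : (∑ β, lam α β * ρ β x (a, 0)) - (S α x (a, 0) - S α (a, 0) x) = 0 := by
        have g7 : ∑ β, lam α β * ρ β x (a, 0) = -∑ β, lam α β * ρ β (a, 0) x := by
          rw [← Finset.sum_neg_distrib]
          refine Finset.sum_congr rfl fun β _ => ?_
          rw [h.anti β (a, 0) x]
          ring
        rw [g7, ← g5]
        ring
      rw [g6, zero_smul]
    have g5 : ∀ x z, N ≤ x.2 → g x z = 0 := by
      intro x z hx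
      rw [hg]
      simp only
      rw [h.Sbig α x z hx, h.Sbig' α z x hx]
      have : ∑ β, lam α β * ρ β x z = 0 :=
        Finset.sum_eq_zero fun β _ => by rw [h.ρbig β x z hx, mul_zero]
      rw [this, sub_self, sub_self, zero_smul]
    have g6 : ∀ x z, N ≤ z.2 → g x z = 0 := by
      intro x z hz
      rw [hg]
      simp only
      rw [h.Sbig α z x hz, h.Sbig' α x z hz]
      have : ∑ β, lam α β * ρ β x z = 0 :=
        Finset.sum_eq_zero fun β _ => by rw [h.ρbig' β x z hz, mul_zero]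
      rw [this, sub_self, sub_self, zero_smul]
    have g7 : ∀ x, ∑ z ∈ XN ι N, g x (shx z) = ∑ z ∈ XN ι N, g x z := by
      intro x
      have g8 := sum_shx N (g x) fun a => g6 x (a, N) le_rfl
      rwa [Finset.sum_congr rfl fun a _ => g4 x a, Finset.sum_const_zero, add_zero] at g8
    have g8 := sum_shx N (fun x => ∑ z ∈ XN ι N, g x z) fun a =>
      Finset.sum_eq_zero fun z _ => g5 (a, N) z le_rfl
    rw [Finset.sum_congr rfl fun a _ => Finset.sum_eq_zero fun z _ => g3 a z,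
      Finset.sum_const_zero, add_zero] at g8
    rw [← g8]
    refine Finset.sum_congr rfl fun x _ => ?_
    rw [← g7]
    exact Finset.sum_congr rfl fun z _ => g2 x z
  rw [e1, f1, f2, g1, add_assoc]
  congr 1
  rw [← Finset.sum_add_distrib]
  refine Finset.sum_congr rfl fun x _ => ?_
  rw [← Finset.sum_add_distrib]
  refine Finset.sum_congr rfl fun z _ => ?_
  rw [← add_smul]
  congr 1
  ring

/-- the tensors are torsion -/
theorem tt_mem (hF : Function.Injective F) (hN : Nsd1 O) (α : κ) :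
    tt F y N m ρ α ∈ tp (Sat F ⊥) :=
  hN.tensors hF (tt F y N m ρ) lam nu h.nuO h.FF_tt α

/-- **The tensor core.** -/
theorem main (hF : Function.Injective F) (hN : Nsd1 O) : ∃ g : κ → ι × ℕ → ι × ℕ → k,
    (∀ α x z, N ≤ x.2 ∨ N ≤ z.2 → g α x z = 0) ∧
    (∀ α x, m α x = ∑ z ∈ XN ι N, g α x z • Yx F y z) ∧
    ∀ α x z, g α x z - g α z x + ρ α x z = 0 := by
  classical
  choose ξ hξ hξ0 using fun x => exists_dual h.ind x
  set g : κ → ι × ℕ → ι × ℕ → k := fun α x z =>
    if x.2 < N ∧ z.2 < N then ξ x (m α z) + ρ α z x else 0 with hg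
  have h1 : ∀ α x, x ∈ XN ι N → m α x = ∑ z ∈ XN ι N, g α x z • Yx F y z := by
    intro α x hx
    have h2 := sliceL_zero (hξ0 x) (h.tt_mem hF hN α)
    rw [tt, map_add, map_sum, map_sum] at h2
    have h3 : ∑ z ∈ XN ι N, sliceL (ξ x) (alt (Yx F y z) (m α z)) =
        m α x - (∑ z ∈ XN ι N, ξ x (m α z) • Yx F y z) := by
      have h4 : ∀ z ∈ XN ι N, sliceL (ξ x) (alt (Yx F y z) (m α z)) =
          (if z = x then m α z else 0) - ξ x (m α z) • Yx F y z := by
        intro z _
        rw [alt, map_sub, sliceL_tmul, sliceL_tmul, hξ]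
        split_ifs
        · rw [one_smul]
        · rw [zero_smul]
      rw [Finset.sum_congr rfl h4, Finset.sum_sub_distrib, Finset.sum_ite_eq' (XN ι N) x,
        if_pos hx]
    have h4 : ∑ z ∈ XN ι N, sliceL (ξ x) (∑ z' ∈ XN ι N, ρ α z z' •
        (Yx F y z ⊗ₜ[k] Yx F y z')) = ∑ z ∈ XN ι N, ρ α x z • Yx F y z := by
      rw [Finset.sum_eq_single_of_mem x hx]
      · rw [map_sum]
        refine Finset.sum_congr rfl fun z _ => ?_
        rw [map_smul, sliceL_tmul, hξ, if_pos rfl, one_smul]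
      · intro z _ hz
        rw [map_sum]
        refine Finset.sum_eq_zero fun z' _ => ?_
        rw [map_smul, sliceL_tmul, hξ, if_neg hz, zero_smul, smul_zero]
    rw [h3, h4] at h2
    have h5 : m α x = (∑ z ∈ XN ι N, ξ x (m α z) • Yx F y z) -
        ∑ z ∈ XN ι N, ρ α x z • Yx F y z := by
      rw [← sub_eq_zero, ← h2]
      abel
    rw [h5, ← Finset.sum_sub_distrib]
    refine Finset.sum_congr rfl fun z hz => ?_
    rw [← sub_smul, hg]
    simp only
    rw [if_pos ⟨mem_XN.1 hx, mem_XN.1 hz⟩, h.anti α x z, sub_eq_add_neg]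
  refine ⟨g, fun α x z hxz => ?_, fun α x => ?_, fun α x z => ?_⟩
  · rw [hg]
    exact if_neg (fun h2 => by rcases hxz with h3 | h3 <;> omega)
  · by_cases hx : x ∈ XN ι N
    · exact h1 α x hx
    · have h2 : N ≤ x.2 := not_lt.1 fun h3 => hx (mem_XN.2 h3)
      rw [h.mbig α x h2]
      refine (Finset.sum_eq_zero fun z _ => ?_).symm
      rw [hg]
      simp only
      rw [if_neg (fun h3 => by omega), zero_smul]
  · by_cases hx : x.2 < N
    · by_cases hz : z.2 < N
      · have h2 : ξ x (m α z) = g α z x := by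
          rw [h1 α z (mem_XN.2 hz), map_sum, Finset.sum_eq_single_of_mem x (mem_XN.2 hx)]
          · rw [map_smul, hξ, if_pos rfl, smul_eq_mul, mul_one]
          · intro z' _ hz'
            rw [map_smul, hξ, if_neg hz', smul_zero]
        have h3 : g α x z = ξ x (m α z) + ρ α z x := if_pos ⟨hx, hz⟩
        rw [h3, h2, h.anti α x z]
        ring
      · have h2 : g α x z = 0 := if_neg (fun h3 => hz h3.2)
        have h3 : g α z x = 0 := if_neg (fun h3 => hz h3.1)
        rw [h2, h3, h.ρbig' α x z (not_lt.1 hz)]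
        ring
    · have h2 : g α x z = 0 := if_neg (fun h3 => hx h3.1)
      have h3 : g α z x = 0 := if_neg (fun h3 => hx h3.2)
      rw [h2, h3, h.ρbig α x z (not_lt.1 hx)]
      ring

end CorN

end Pool.Agent.TWHT
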