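import Pool.Agent.Lib.TWIV.S7e
import Pool.Agent.Lib.TWIV.OpA
import Pool.Agent.Lib.TWHT.NCor

/-!
# TANK W, leaf (Ht), FV(y_0, y_1) with nilpotent operators: the operators

* `ps φ l w = ∑ φ_lj w_j`;
* `NX v L E T 𝒜`: the operators of `𝒜` have norm `≤ 0`, are `L`-linear, and their restrictions to
  `E` are in `k + T`;
* `NX.cadj`: the stability of the closure of `E(w)`, `w ∈ L`; `NX.jet`: the operators commute with
  the jets;
* `Two7.bddN`: the solutions of a system have a bounded degree.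
-/

set_option autoImplicit false
set_option linter.unusedSectionVars false

open Polynomial

namespace Pool.Agent.TWHT

open Pool.Agent.H15JM (RVal)
open Pool.Agent.D2 (Ctx0)
open Pool.Agent.D2P (mem_clI)
open Pool.Agent.TWM
open Pool.Agent.TWC (Nul Cau eq_of_ge Opr fn)
open Pool.Agent.TWIV

universe u

variable {k H : Type u} [Field k] [Field H] [Algebra k H] {v : RVal H}

section Ps

variable {κ : Type*} [Fintype κ] {φ : κ → κ → Module.End k H} {K : IntermediateField k H}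

/-- The operator `∑ φ_lj w_j`. -/
def ps (φ : κ → κ → Module.End k H) (l : κ) (w : κ → H) : H := ∑ j, φ l j (w j)

theorem ps_add (l : κ) (w w' : κ → H) :
    ps φ l (fun j => w j + w' j) = ps φ l w + ps φ l w' := by
  simp only [ps, map_add, Finset.sum_add_distrib]

theorem ps_sub (l : κ) (w w' : κ → H) :
    ps φ l (fun j => w j - w' j) = ps φ l w - ps φ l w' := by
  simp only [ps, map_sub, Finset.sum_sub_distrib]

theorem ps_zero (l : κ) : ps φ l (fun _ => (0 : H)) = 0 := by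
  simp only [ps, map_zero, Finset.sum_const_zero]

theorem ps_ge (hφ : ∀ i j, ∀ (x : H) (b : ℝ), v.Ge b x → v.Ge b (φ i j x)) {l : κ} {w : κ → H}
    {b : ℝ} (h : ∀ j, v.Ge b (w j)) : v.Ge b (ps φ l w) :=
  RVal.Ge.sum _ _ fun j _ => hφ l j _ _ (h j)

theorem ps_gt (hφ : ∀ i j, ∀ (x : H) (b : ℝ), v.Ge b x → v.Ge b (φ i j x)) {l : κ} {w : κ → H}
    {b : ℝ} (h : ∀ j, Gt v b (w j)) : Gt v b (ps φ l w) := by
  refine Gt.sum _ _ fun j _ => ?_
  by_cases h0 : w j = 0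
  · rw [h0, map_zero]
    exact Gt.zero
  · exact Gt.of_ge (hφ l j _ _ (RVal.ge_self (v := v) (w j))) (h j h0)

theorem ps_mem (hK : ∀ i j, ∀ x ∈ K, φ i j x ∈ K) {l : κ} {w : κ → H}
    (h : ∀ j, w j ∈ K) : ps φ l w ∈ K :=
  sum_mem fun j _ => hK l j _ (h j)

theorem ps_nul (hφ : ∀ i j, ∀ (x : H) (b : ℝ), v.Ge b x → v.Ge b (φ i j x)) {l : κ}
    {w : κ → ℕ → H} (h : ∀ j, Nul v (w j)) : Nul v fun n => ps φ l fun j => w j n := by
  classical
  intro ε hε
  choose N hN using fun j => h j ε hε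
  exact ⟨Finset.univ.sup N, fun n hn => ps_ge hφ fun j =>
    hN j n ((Finset.le_sup (f := N) (Finset.mem_univ j)).trans hn)⟩

theorem ps_cau (hφ : ∀ i j, ∀ (x : H) (b : ℝ), v.Ge b x → v.Ge b (φ i j x))
    (hK : ∀ i j, ∀ x ∈ K, φ i j x ∈ K) {l : κ} {w : κ → ℕ → H} (h : ∀ j, Cau v K (w j)) :
    Cau v K fun n => ps φ l fun j => w j n := by
  classical
  refine ⟨fun n => ps_mem hK fun j => (h j).mem n, fun ε hε => ?_⟩
  choose N hN using fun j => (h j).cau ε hε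
  refine ⟨Finset.univ.sup N, fun m n hm hn => ?_⟩
  rw [← ps_sub]
  exact ps_ge hφ fun j => hN j m n ((Finset.le_sup (f := N) (Finset.mem_univ j)).trans hm)
    ((Finset.le_sup (f := N) (Finset.mem_univ j)).trans hn)

/-- The values at constants. -/
theorem ps_const {lam : κ → κ → k} (h1 : ∀ i j, φ i j 1 = algebraMap k H (lam i j)) (l : κ)
    (r : κ → k) : ps φ l (fun j => algebraMap k H (r j)) =
      algebraMap k H (∑ j, lam l j * r j) := by
  rw [ps, map_sum]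
  refine Finset.sum_congr rfl fun j _ => ?_
  rw [Algebra.algebraMap_eq_smul_one, map_smul, h1, Algebra.smul_def, ← map_mul, mul_comm]

end Ps

section Nx

variable [Fact (Ctx0 k v)] {L E F K : IntermediateField k H} {T : Submodule k (Opr v E)}
  {𝒜 : Submodule k (Module.End k H)} {φ : Module.End k H} {w : H}

/-- The operators of `𝒜` have norm `≤ 0`, are `L`-linear, and their restrictions to `E` are in
`k + T`. -/
structure NX (v : RVal H) [Fact (Ctx0 k v)] (L E : IntermediateField k H)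
    (T : Submodule k (Opr v E)) (𝒜 : Submodule k (Module.End k H)) : Prop where
  ge : ∀ φ ∈ 𝒜, ∀ (x : H) (b : ℝ), v.Ge b x → v.Ge b (φ x)
  lin : ∀ φ ∈ 𝒜, ∀ l ∈ L, ∀ x, φ (l * x) = l * φ x
  rep : ∀ φ ∈ 𝒜, ∃ (c : k) (ψ : Opr v E), ψ ∈ T ∧ ∀ x ∈ E, φ x = algebraMap k H c * x + fn ψ x

theorem NX.memE (h : NX v L E T 𝒜) (hφ : φ ∈ 𝒜) {x : H} (hx : x ∈ E) : φ x ∈ E := by
  obtain ⟨c, ψ, -, h1⟩ := h.rep φ hφ
  rw [h1 x hx]
  exact add_mem (mul_mem (E.algebraMap_mem c) hx) (TWC.fn_mem ψ x)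

/-- the operators and the polynomials at `w ∈ L` -/
theorem NX.cjw (h : NX v L E T 𝒜) (hφ : φ ∈ 𝒜) (hw : w ∈ L) (h0 : w ≠ 0) (i : ℕ) :
    cj (w ^ i) φ = φ := by
  ext x
  rw [cj_apply, h.lin φ hφ _ (pow_mem hw i), inv_mul_cancel_left₀ (pow_ne_zero i h0)]

theorem NX.gcf_mem (h : NX v L E T 𝒜) (hφ : φ ∈ 𝒜) (hw : w ∈ L) (h0 : w ≠ 0)
    (hF : ∀ x ∈ F, φ x ∈ F) {f : Polynomial H} (hf : f ∈ PI F) : gcf w φ f ∈ PI F := fun i => by
  rw [coeff_gcf, h.cjw hφ hw h0]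
  exact hF _ (hf i)

variable [IsAlgClosed H]

theorem TL_ne_zero (hw : TL v F w 0) : w ≠ 0 := by
  intro h0
  exact (hw.far 0 (isAlgebraic_zero)).1 h0

/-- **The stability of the closure of `F(w)`.** -/
theorem NX.cadj (h : NX v L E T 𝒜) (hφ : φ ∈ 𝒜) (hw : TL v F w 0) (hwL : w ∈ L)
    (hF : ∀ x ∈ F, φ x ∈ F) {x : H} (hx : x ∈ cadj v F w) : φ x ∈ TWM.cadj v F w := by
  have h0 := TL_ne_zero hw
  refine cld_cadj v F w (mem_clI.2 fun b => ?_)
  obtain ⟨f, hf, h1⟩ := hw.dense hx b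
  refine ⟨φ (f.eval w), ?_, ?_⟩
  · rw [← gcf_eval h0]
    exact eval_mem (PI_mono (le_cadj v F w) (h.gcf_mem hφ hwL h0 hF hf)) (self_mem_cadj v F w)
  · rw [← map_sub]
    exact h.ge φ hφ _ _ h1

variable {p : ℕ} [hp : Fact p.Prime] [CharP H p] [PerfectRing H p] {A : Type*} [AddCommGroup A]
  {pr : A → H →ₗ[k] H} {γ : A} {D : ℕ → H → H}

/-- **The operators commute with the jets.** -/
theorem NX.jet (h : NX v L E T 𝒜) (hφ : φ ∈ 𝒜) (hw : TL v F w 0) (hwL : w ∈ L)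
    (hF : ∀ x ∈ F, φ x ∈ F) (hK : K = TWM.cadj v F w) (hD : JtX p v pr K F w γ D) (J : ℕ) {x : H}
    (hx : x ∈ K) : D J (φ x) = φ (D J x) := by
  have h0 := TL_ne_zero hw
  have hKφ : ∀ x ∈ K, φ x ∈ K := fun x hx => by
    rw [hK] at hx ⊢
    exact h.cadj hφ hw hwL hF hx
  refine eq_of_ge (v := v) fun b => ?_
  obtain ⟨f, hf, h1⟩ := hw.dense (by rw [← hK]; exact hx : x ∈ TWM.cadj v F w) b
  have hfK : f.eval w ∈ K := eval_memK hK hf
  have h2 : D J (φ (f.eval w)) = φ (D J (f.eval w)) := by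
    rw [← gcf_eval h0, hD.poly _ (h.gcf_mem hφ hwL h0 hF hf), hD.poly _ hf, hasse_gcf,
      h.cjw hφ hwL h0, gcf_eval h0]
  have h3 : D J (φ x) - φ (D J x) = D J (φ (x - f.eval w)) - φ (D J (x - f.eval w)) := by
    rw [map_sub, hD.sub J (hKφ _ hx) (hKφ _ hfK), hD.sub J hx hfK, map_sub, h2]
    ring
  rw [h3]
  exact (hD.norm J _ (hKφ _ (sub_mem hx hfK)) _ (h.ge φ hφ _ _ h1)).sub
    (h.ge φ hφ _ _ (hD.norm J _ (sub_mem hx hfK) _ h1))

end Nx

/-! ### The two jets -/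

variable [Fact (Ctx0 k v)] {p : ℕ} [hp : Fact p.Prime] [CharP H p] [PerfectRing H p]
  [IsAlgClosed H] {A : Type*} [AddCommGroup A] {pr : A → H →ₗ[k] H}
  {L E K : IntermediateField k H} {y : ℕ → H} {α : ℕ → A}
  {T₀ : Submodule k (Opr v E)} {𝒜 : Submodule k (Module.End k H)}

/-- The operators of `K`. -/
structure OpK (v : RVal H) (K : IntermediateField k H) (D : Fin 2 → ℕ → H → H)
    (φ : Module.End k H) : Prop where
  ge : ∀ (x : H) (b : ℝ), v.Ge b x → v.Ge b (φ x)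
  mem : ∀ x ∈ K, φ x ∈ K
  jet : ∀ a J, ∀ x ∈ K, D a J (φ x) = φ (D a J x)

theorem Two7.opK {D : Fin 2 → ℕ → H → H} (T : Two7 p v pr E K y α D) (h : NX v L E T₀ 𝒜)
    (hy : ∀ a : Fin 2, y a ∈ L) {φ : Module.End k H} (hφ : φ ∈ 𝒜) : OpK v K D φ := by
  have hE : ∀ x ∈ E, φ x ∈ E := fun x hx => h.memE hφ hx
  have hFo : ∀ a : Fin 2, ∀ x ∈ Fo v E y a, φ x ∈ Fo v E y a := by
    intro a x hx
    have hw : TL v E (y (1 - (a : ℕ))) 0 ∧ y (1 - (a : ℕ)) ∈ L := by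
      fin_cases a
      · exact ⟨T.t0 1, hy 1⟩
      · exact ⟨T.t0 0, hy 0⟩
    exact h.cadj hφ hw.1 hw.2 hE hx
  have hK : ∀ a : Fin 2, K = cadj v (Fo v E y a) (y a) := by
    intro a
    fin_cases a
    · exact T.K0
    · exact T.K1
  refine ⟨h.ge φ hφ, fun x hx => ?_, fun a J x hx => ?_⟩
  · rw [hK 0] at hx ⊢
    exact h.cadj hφ (T.t1 0) (hy 0) (hFo 0) hx
  · exact h.jet hφ (T.t1 a) (hy a) (hFo a) (hK a) (T.jx a) J hx

section

variable {κ : Type*} [Fintype κ] {φ : κ → κ → Module.End k H}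
  {D : Fin 2 → ℕ → H → H} (T : Two7 p v pr E K y α D) (hφ : ∀ i j, OpK v K D (φ i j))

include T hφ

theorem dd_ps (J : ℕ × ℕ) (l : κ) {x : κ → H} (hx : ∀ j, x j ∈ K) :
    DD D J (ps φ l x) = ps φ l (fun j => DD D J (x j)) := by
  rw [DD, ps, ps, (T.jx 1).sum _ _ _ fun j _ => (hφ l j).mem _ (hx j)]
  rw [(T.jx 0).sum _ _ _ fun j _ => (T.jx 1).mem _ _ ((hφ l j).mem _ (hx j))]
  refine Finset.sum_congr rfl fun j _ => ?_
  rw [(hφ l j).jet 1 _ _ (hx j), (hφ l j).jet 0 _ _ ((T.jx 1).mem _ _ (hx j))]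
  rfl

theorem dx_ps (x : Fin 2 × ℕ) (l : κ) {w : κ → H} (hw : ∀ j, w j ∈ K) :
    Dx p D x (ps φ l w) = ps φ l (fun j => Dx p D x (w j)) := by
  rw [Dx, ps, ps, (T.jx x.1).sum _ _ _ fun j _ => (hφ l j).mem _ (hw j)]
  exact Finset.sum_congr rfl fun j _ => (hφ l j).jet x.1 _ _ (hw j)

theorem it_ps (x : Fin 2 × ℕ) (m : ℕ) (l : κ) {w : κ → H} (hw : ∀ j, w j ∈ K) :
    (Dx p D x)^[m] (ps φ l w) = ps φ l (fun j => (Dx p D x)^[m] (w j)) := by
  induction m with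
  | zero => rfl
  | succ m ih =>
    simp only [Function.iterate_succ_apply']
    rw [ih, dx_ps T hφ x l fun j => T.it_mem x m (hw j)]

/-- **The solutions of a system have a bounded degree.** -/
theorem bddN {X : κ → ℕ → H} {f : κ → H} (hX : ∀ l, Cau v K (X l)) (hf : ∀ l, f l ∈ K)
    (hR : ∀ l, Nul v fun n => X l n ^ p - ps φ l (fun j => X j n) - f l) :
    ∃ d, ∀ l, Bnd v D d (X l) := by
  classical
  have hφg : ∀ i j, ∀ (x : H) (b : ℝ), v.Ge b x → v.Ge b (φ i j x) := fun i j => (hφ i j).ge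
  have hφm : ∀ i j, ∀ x ∈ K, φ i j x ∈ K := fun i j => (hφ i j).mem
  have hp0 : (0 : ℝ) < p := by exact_mod_cast hp.out.pos
  have hp1 : (1 : ℝ) ≤ p := by exact_mod_cast hp.out.one_le
  choose df hdf using fun l => T.dd_fin (hf l)
  set d := Finset.univ.sup df with hd
  -- the bound of the sequences
  obtain ⟨K₀, hK₀, n₀, hn₀⟩ : ∃ K₀ : ℝ, 0 ≤ K₀ ∧ ∃ n₀, ∀ n, n₀ ≤ n → ∀ l,
      v.Ge (-K₀) (X l n) := by
    choose N hN using fun l => (hX l).cau 1 one_pos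
    set n₀ := Finset.univ.sup N with hn₀
    have h0 : 0 ≤ ∑ l, |v (X l n₀)| := Finset.sum_nonneg fun l _ => abs_nonneg _
    refine ⟨1 + ∑ l, |v (X l n₀)|, by linarith, n₀, fun n hn l => ?_⟩
    have h1 : N l ≤ n₀ := Finset.le_sup (f := N) (Finset.mem_univ l)
    have e1 : X l n = (X l n - X l n₀) + X l n₀ := by ring
    rw [e1]
    refine RVal.Ge.add ((hN l n n₀ (h1.trans hn) h1).mono (by linarith))
      ((RVal.ge_self (v := v) (X l n₀)).mono ?_)
    have h3 := Finset.single_le_sum (f := fun l => |v (X l n₀)|) (fun l _ => abs_nonneg _)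
      (Finset.mem_univ l)
    have h4 := neg_abs_le (v (X l n₀))
    linarith
  have key : ∀ M : ℕ, ∀ J : ℕ × ℕ, d < J.1 + J.2 → ∀ ε : ℝ, 0 < ε → ∃ N, ∀ n, N ≤ n → ∀ l,
      v.Ge (-(K₀ / (p : ℝ) ^ M + ε)) (DD D J (X l n)) := by
    intro M
    induction M with
    | zero =>
      intro J _ ε hε
      refine ⟨n₀, fun n hn l => T.dd_norm J ((hX l).mem n) ((hn₀ n hn l).mono ?_)⟩
      rw [pow_zero, div_one]
      linarith
    | succ M ih =>
      intro J hJ ε hε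
      have hJ' : d < p * J.1 + p * J.2 := by
        rw [← mul_add]
        exact hJ.trans_le (Nat.le_mul_of_pos_left _ hp.out.pos)
      obtain ⟨N₁, h1⟩ := ih (p * J.1, p * J.2) hJ' ε hε
      have hu : ∀ l n, X l n ^ p - ps φ l (fun j => X j n) - f l ∈ K := fun l n =>
        sub_mem (sub_mem (pow_mem ((hX l).mem n) _) (ps_mem hφm fun j => (hX j).mem n)) (hf l)
      choose N₂ h2 using fun l => T.dd_nul (p * J.1, p * J.2) (hu l) (hR l) ε hε
      refine ⟨max N₁ (Finset.univ.sup N₂), fun n hn l => ?_⟩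
      have hn1 : N₁ ≤ n := (le_max_left _ _).trans hn
      have hn2 : N₂ l ≤ n := ((Finset.le_sup (f := N₂) (Finset.mem_univ l)).trans
        (le_max_right _ _)).trans hn
      have hKM : 0 ≤ K₀ / (p : ℝ) ^ M := by positivity
      have h3 : v.Ge (-ε) (DD D (p * J.1, p * J.2)
        (X l n ^ p - ps φ l (fun j => X j n) - f l)) := h2 l n hn2
      have hph : ps φ l (fun j => X j n) ∈ K := ps_mem hφm fun j => (hX j).mem n
      have hpw : X l n ^ p ∈ K := pow_mem ((hX l).mem n) _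
      rw [T.dd_sub _ (sub_mem hpw hph) (hf l), T.dd_sub _ hpw hph, T.dd_frob J ((hX l).mem n),
        dd_ps T hφ _ _ fun j => (hX j).mem n] at h3
      have h4 : v.Ge (-(K₀ / (p : ℝ) ^ M + ε)) (ps φ l
          (fun j => DD D (p * J.1, p * J.2) (X j n))) := ps_ge hφg fun j => h1 n hn1 j
      have h5 : v.Ge (-(K₀ / (p : ℝ) ^ M + ε)) (DD D (p * J.1, p * J.2) (f l)) := by
        refine (hdf l _ ?_).mono (by linarith)
        exact (Finset.le_sup (f := df) (Finset.mem_univ l)).trans_lt hJ'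
      have h6 : v.Ge (-(K₀ / (p : ℝ) ^ M + ε)) (DD D J (X l n) ^ p) := by
        refine (congrArg (v.Ge _) ?_).mp (((h3.mono (by linarith)).add h4).add h5)
        ring
      refine (ge_pow_inv h6).mono ?_
      rw [neg_div, neg_le_neg_iff, add_div, div_div, ← pow_succ]
      have h7 : ε / p ≤ ε := div_le_self hε.le hp1
      linarith
  refine ⟨d, fun l J hJ ε hε => ?_⟩
  obtain ⟨M, hM⟩ := pow_unbounded_of_one_lt (K₀ / (ε / 2))
    (show (1 : ℝ) < p by exact_mod_cast hp.out.one_lt)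
  obtain ⟨N, hN⟩ := key M J hJ (ε / 2) (by linarith)
  refine ⟨N, fun n hn => (hN n hn l).mono ?_⟩
  have h1 : K₀ / (p : ℝ) ^ M ≤ ε / 2 := by
    rw [div_le_iff₀ (by positivity)]
    rw [div_lt_iff₀ (by linarith)] at hM
    nlinarith
  linarith

end

end Pool.Agent.TWHT
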