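import Pool.Agent.Lib.TWIV.S6D
import Pool.Agent.Lib.TWIV.W1S

/-!
# TANK W, leaf (Ht): the torsion properties of the base, from NSD

* `NSDp`: the strictly dominated subspaces `Y` of `MM v E` are torsion together with `A Y`;
* `sat_tor`: a torsion class is a torsion sequence;
* `hTor_of`, `h1_of`: `HTor` and `H1` for a space of operators `φ = c + ψ`, `ψ ∈ T₀`, on `E`.
-/

set_option autoImplicit false

open Polynomial

namespace Pool.Agent.TWHT

open Pool.Agent.H15JM (RVal)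
open Pool.Agent.D2 (Ctx0)
open Pool.Agent.TWM Pool.Agent.TWC Pool.Agent.TWIV

universe u

variable {k Ω : Type u} [Field k] [Field Ω] [Algebra k Ω] {v : RVal Ω} [hk : Fact (Ctx0 k v)]
  {C E : IntermediateField k Ω} (p : ℕ) [hp : Fact p.Prime] [CharP k p] [CharP Ω p]
  [PerfectRing k p] {T₀ : Submodule k (Opr v E)} {𝒜 : Submodule k (Module.End k Ω)}

/-- The strictly dominated subspaces `Y` are torsion, with `A Y`. -/
def NSDp (h : Oper p v C E T₀) : Prop :=
  ∀ Y : Submodule k (MM v E), Y.FG → ∀ b : ℕ, 1 ≤ b →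
    (∀ y ∈ Y, (MM.fr p v E)^[b] y ∈ V (MM.fr p v E) (Y ⊔ act (h.ops p) Y) b) →
    Y ⊔ act (h.ops p) Y ≤ Sat (MM.fr p v E) ⊥

/-- A torsion class. -/
theorem sat_tor {x : ℕ → Ω} (hx : Cau v E x)
    (h : MM.mk v E ⟨x, hx⟩ ∈ Sat (MM.fr p v E) (⊥ : Submodule k (MM v E))) : Tor p v E x := by
  classical
  obtain ⟨T, hT, h1⟩ := h
  have _ : Module.Finite k T := Module.Finite.iff_fg.2 hT
  -- the powers
  have hF : ∀ c, (MM.fr p v E)^[c] (MM.mk v E ⟨x, hx⟩) =
      MM.mk v E ⟨fun n => x n ^ p ^ c, hx.pow_pow p c⟩ := by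
    intro c
    induction c with
    | zero =>
      rw [Function.iterate_zero, id_eq]
      congr 1
      refine Subtype.ext (funext fun n => ?_)
      change x n = x n ^ p ^ 0
      rw [pow_zero, pow_one]
    | succ c ih =>
      rw [Function.iterate_succ_apply', ih, MM.fr_mk]
      congr 1
      refine Subtype.ext (funext fun n => ?_)
      change (x n ^ p ^ c) ^ p = x n ^ p ^ (c + 1)
      rw [← pow_mul, ← pow_succ]
  have h2 : ∀ c, (MM.fr p v E)^[c] (MM.mk v E ⟨x, hx⟩) ∈ T := fun c => by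
    have h3 := h1 c
    rwa [bot_sup_eq] at h3
  set N := Module.finrank k T with hN
  let f : Fin (N + 1) → T := fun c => ⟨(MM.fr p v E)^[(c : ℕ)] (MM.mk v E ⟨x, hx⟩), h2 c⟩
  have h3 : ¬ LinearIndependent k f := by
    intro h4
    have h5 := h4.fintype_card_le_finrank
    rw [Fintype.card_fin] at h5
    omega
  obtain ⟨g, hg, i, hi⟩ := Fintype.not_linearIndependent_iff.1 h3
  have h4 : ∑ c : Fin (N + 1), g c • (MM.fr p v E)^[(c : ℕ)] (MM.mk v E ⟨x, hx⟩) = 0 := by
    have h5 := congrArg (Subtype.val : T → MM v E) hg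
    rw [AddSubmonoidClass.coe_finsetSum] at h5
    exact h5
  have h5 : MM.mk v E (∑ c : Fin (N + 1), g c • (⟨fun n => x n ^ p ^ (c : ℕ),
      hx.pow_pow p c⟩ : CauS v E)) = 0 := by
    rw [map_sum]
    rw [← h4]
    refine Finset.sum_congr rfl fun c _ => ?_
    rw [map_smul, hF]
  rw [MM.mk_eq_zero] at h5
  obtain ⟨w, hw, h6⟩ := h5
  refine ⟨N, fun j => if hj : j < N + 1 then g ⟨j, hj⟩ else 0,
    ⟨i, Nat.lt_succ_iff.1 i.2, ?_⟩, w, hw, h6.congr fun n => ?_⟩
  · change (if hj : (i : ℕ) < N + 1 then g ⟨i, hj⟩ else 0) ≠ 0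
    rw [dif_pos i.2]
    exact hi
  · congr 1
    rw [← Fin.sum_univ_eq_sum_range
      (fun j => (if hj : j < N + 1 then g ⟨j, hj⟩ else 0) • x n ^ p ^ j),
      AddSubmonoidClass.coe_finsetSum, Finset.sum_apply]
    refine Finset.sum_congr rfl fun c _ => ?_
    rw [dif_pos c.2]
    rfl

section Main

variable {p} (h : Oper p v C E T₀) (hN : NSDp p h)
  (hge : ∀ φ ∈ 𝒜, ∀ (x : Ω) (b : ℝ), v.Ge b x → v.Ge b (φ x))
  (hrep : ∀ φ ∈ 𝒜, ∃ (c : k) (ψ : Opr v E), ψ ∈ T₀ ∧
    ∀ x ∈ E, φ x = algebraMap k Ω c * x + fn ψ x)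

include hge hrep

omit hp [CharP k p] [CharP Ω p] [PerfectRing k p] in
theorem op_cau {φ : Module.End k Ω} (hφ : φ ∈ 𝒜) {x : ℕ → Ω} (hx : Cau v E x) :
    Cau v E fun n => φ (x n) := by
  obtain ⟨c, ψ, -, h1⟩ := hrep φ hφ
  refine ⟨fun n => ?_, fun ε hε => ?_⟩
  · rw [h1 _ (hx.mem n)]
    exact add_mem (mul_mem (E.algebraMap_mem c) (hx.mem n)) (fn_mem ψ _)
  · obtain ⟨N, hN⟩ := hx.cau ε hε
    refine ⟨N, fun m n hm hn => ?_⟩
    rw [← map_sub]
    exact hge φ hφ _ _ (hN m n hm hn)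

include h

/-- The class of `φ x`. -/
theorem op_mem {φ : Module.End k Ω} (hφ : φ ∈ 𝒜) {x : ℕ → Ω} (hx : Cau v E x)
    {Y : Submodule k (MM v E)} (hY : MM.mk v E ⟨x, hx⟩ ∈ Y) :
    MM.mk v E ⟨fun n => φ (x n), op_cau hge hrep hφ hx⟩ ∈ Y ⊔ act (h.ops p) Y := by
  obtain ⟨c, ψ, hψ, h1⟩ := hrep φ hφ
  have h2 : (⟨fun n => φ (x n), op_cau hge hrep hφ hx⟩ : CauS v E) =
      c • (⟨x, hx⟩ : CauS v E) + MM.actS ψ ⟨x, hx⟩ := by
    refine Subtype.ext (funext fun n => ?_)
    change φ (x n) = c • x n + ((ψ : Module.End k E) ⟨x n, hx.mem n⟩ : E)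
    rw [h1 _ (hx.mem n), Algebra.smul_def, fn_of_mem ψ (hx.mem n)]
  rw [h2, map_add, map_smul, ← MM.act_mk]
  refine add_mem (Submodule.mem_sup_left (Y.smul_mem c hY)) (Submodule.mem_sup_right ?_)
  exact mem_act (O := h.ops p) (φ := MM.act ψ) ⟨ψ, hψ, rfl⟩ hY

include hN

/-- The dominated families of sequences. -/
theorem sat_of_dm {κ : Type} [Fintype κ] {m : κ → ℕ → Ω} (hm : ∀ l, Cau v E (m l))
    (hd : ∀ l, Dm v 𝒜 E m fun n => m l n ^ p) :
    let Y := Submodule.span k (Set.range fun l => MM.mk v E ⟨m l, hm l⟩)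
    Y ⊔ act (h.ops p) Y ≤ Sat (MM.fr p v E) ⊥ := by
  intro Y
  refine hN Y (Submodule.fg_span (Set.finite_range _)) 1 le_rfl fun y hy => ?_
  rw [V_succ, V_zero, Submodule.map_bot, sup_bot_eq, Function.iterate_one]
  induction hy using Submodule.span_induction with
  | mem y hy =>
    obtain ⟨l, rfl⟩ := hy
    obtain ⟨φ, e, hφ, he, h1⟩ := hd l
    have h2 : MM.fr p v E (MM.mk v E ⟨m l, hm l⟩) =
        ∑ j, MM.mk v E ⟨fun n => φ j (m j n), op_cau hge hrep (hφ j) (hm j)⟩ := by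
      rw [← sub_eq_zero, MM.fr_mk, ← map_sum, ← map_sub, MM.mk_eq_zero]
      refine ⟨e, he, h1.congr fun n => ?_⟩
      congr 1
      change m l n ^ p - _ = m l n ^ p - _
      congr 1
      rw [AddSubmonoidClass.coe_finsetSum, Finset.sum_apply]
    change MM.fr p v E (MM.mk v E ⟨m l, hm l⟩) ∈ _
    rw [h2]
    exact sum_mem fun j _ => op_mem h hge hrep (hφ j) (hm j) (Submodule.subset_span ⟨j, rfl⟩)
  | zero =>
    rw [map_zero]
    exact zero_mem _
  | add x y _ _ h1 h2 =>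
    rw [map_add]
    exact add_mem h1 h2
  | smul a x _ h1 =>
    rw [map_smulₛₗ]
    exact Submodule.smul_mem _ _ h1

/-- **The field `tor`.** -/
theorem hTor_of : HTor p v 𝒜 E := by
  intro κ _ m hm hd l
  exact sat_tor p (hm l) (sat_of_dm h hN hge hrep hm hd
    (Submodule.mem_sup_left (Submodule.subset_span ⟨l, rfl⟩)))

/-- **The field `h1`.** -/
theorem h1_of : H1 p v E 𝒜 := by
  classical
  intro κ _ m e ψ χ hm he hψ hχ hr
  choose x hx hxn using fun a => Pool.Agent.TWC.Lim.exists_cau (hm a)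
  have hnul : ∀ φ ∈ 𝒜, ∀ z : ℕ → Ω, Nul v z → Nul v fun n => φ (z n) := by
    intro φ hφ z hz ε hε
    obtain ⟨N, hN⟩ := hz ε hε
    exact ⟨N, fun n hn => hge φ hφ _ _ (hN n hn)⟩
  have hd : ∀ l, Dm v 𝒜 E x fun n => x l n ^ p := by
    intro l
    refine ⟨ψ l, e l, hψ l, he l, ?_⟩
    have h1 : Nul v fun n => (m l - x l n) ^ p := (hxn l).pow p
    have h2 : Nul v fun n => ∑ b, ψ l b (m b - x b n) :=
      Nul.sum _ _ fun b _ => hnul _ (hψ l b) _ (hxn b)
    have h3 : Nul v fun _ : ℕ => m l ^ p - ∑ b, ψ l b (m b) - e l := Nul.of_ge fun _ => hr l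
    refine ((h3.sub h1).add h2).congr fun n => ?_
    simp only [map_sub, Finset.sum_sub_distrib, sub_pow_char]
    ring
  have hs := sat_of_dm h hN hge hrep hx hd
  have h1 : MM.mk v E (∑ a, (⟨fun n => χ a (x a n), op_cau hge hrep (hχ a) (hx a)⟩ :
      CauS v E)) ∈ Sat (MM.fr p v E) (⊥ : Submodule k (MM v E)) := by
    rw [map_sum]
    exact sum_mem fun a _ => hs (op_mem h hge hrep (hχ a) (hx a)
      (Submodule.subset_span ⟨a, rfl⟩))
  set s : CauS v E := ∑ a, (⟨fun n => χ a (x a n), op_cau hge hrep (hχ a) (hx a)⟩ : CauS v E)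
    with hs'
  have hsn : ∀ n, (s : ℕ → Ω) n = ∑ a, χ a (x a n) := by
    intro n
    rw [hs', AddSubmonoidClass.coe_finsetSum, Finset.sum_apply]
  obtain ⟨N, b, ⟨j, hj, hbj⟩, w, hw, h2⟩ := sat_tor p s.2 h1
  refine ⟨∑ i ∈ Finset.range (N + 1), monomial i (b i), ?_, w, hw, ?_⟩
  · intro h0
    have h3 := congrArg (fun P : Polynomial k => P.coeff j) h0
    simp only [finsetSum_coeff, coeff_monomial, coeff_zero] at h3
    rw [Finset.sum_ite_eq' (Finset.range (N + 1)) j, if_pos (Finset.mem_range.2 (by omega))] at h3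
    exact hbj h3
  · refine Nul.const_iff.1 ?_
    have hly : ∀ y : Ω, ly p y (∑ i ∈ Finset.range (N + 1), monomial i (b i)) =
        ∑ i ∈ Finset.range (N + 1), b i • y ^ p ^ i := by
      intro y
      have h4 : ∀ i, (∑ i ∈ Finset.range (N + 1), monomial i (b i) : Polynomial k).coeff i =
          if i < N + 1 then b i else 0 := by
        intro i
        rw [finsetSum_coeff]
        simp only [coeff_monomial]
        rw [Finset.sum_ite_eq' (Finset.range (N + 1)) i]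
        simp only [Finset.mem_range]
      have h5 : (∑ i ∈ Finset.range (N + 1), monomial i (b i) : Polynomial k).natDegree <
          N + 1 := by
        refine Nat.lt_succ_of_le (natDegree_sum_le_of_forall_le _ _ fun i hi => ?_)
        exact (natDegree_monomial_le _).trans (Nat.lt_succ_iff.1 (Finset.mem_range.1 hi))
      rw [ly_eq p y _ h5]
      refine Finset.sum_congr rfl fun i hi => ?_
      rw [h4, if_pos (Finset.mem_range.1 hi), Algebra.smul_def]
    have h3 : Nul v fun n => ∑ i ∈ Finset.range (N + 1), b i •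
        (∑ a, χ a (m a - x a n)) ^ p ^ i := by
      refine Nul.sum _ _ fun i _ => ?_
      have h4 : Nul v fun n => ∑ a, χ a (m a - x a n) :=
        Nul.sum _ _ fun a _ => hnul _ (hχ a) _ (hxn a)
      refine ((h4.pow (p ^ i)).mul_ge (c := fun _ => algebraMap k Ω (b i))
        fun _ => hk.out.ge _).congr fun n => ?_
      rw [Algebra.smul_def]
    refine (h2.add h3).congr fun n => ?_
    rw [hly]
    have h4 : ∑ a, χ a (m a) = (s : ℕ → Ω) n + ∑ a, χ a (m a - x a n) := by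
      rw [hsn, ← Finset.sum_add_distrib]
      exact Finset.sum_congr rfl fun a _ => by rw [← map_add, add_sub_cancel]
    rw [h4]
    have h5 : ∀ i, ((s : ℕ → Ω) n + ∑ a, χ a (m a - x a n)) ^ p ^ i =
        (s : ℕ → Ω) n ^ p ^ i + (∑ a, χ a (m a - x a n)) ^ p ^ i := fun i => by rw [add_pow_char_pow]
    simp only [h5, smul_add, Finset.sum_add_distrib]
    ring

end Main

end Pool.Agent.TWHT
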