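import Pool.Agent.Lib.TWIV.FV2S
import Pool.Agent.Lib.TWHT.NTor
import Pool.Agent.Lib.TWHT.N7a
import Pool.Agent.Lib.TWC.First

/-!
# TANK W, leaf (Ht): `FV(y; u)` over the base, from exact systems

* `sys_of_cau`: from sequences to elements;
* `NX.opA`, `NX.stb`: the operators `𝒜`;
* `hom_of_dist`: `u` is a limit of polynomials in `y` over the constants;
* `gen_of_adjT`: the operators of the algebra generated by the `Th N j`;
* `fv2l_of`: the record `FV2L`; **`fv_can_of`**: `FV(y; u)` for systems of elements.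
-/

set_option autoImplicit false
set_option linter.unusedSectionVars false

open Polynomial

namespace Pool.Agent.TWHT

open Pool.Agent.H15JM (RVal)
open Pool.Agent.D2 (Ctx0)
open Pool.Agent.D2P (clI mem_clI)
open Pool.Agent.TWM Pool.Agent.TWC Pool.Agent.TWIV

universe u

variable {k Ω : Type u} [Field k] [Field Ω] [Algebra k Ω] {v : RVal Ω} [hk : Fact (Ctx0 k v)]
  {p : ℕ} [hp : Fact p.Prime] [CharP k p] [CharP Ω p] [PerfectRing k p]
  {W E K KP : IntermediateField k Ω} {T : Submodule k (Opr v E)}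
  {𝒜 : Submodule k (Module.End k Ω)} {y u : Ω}

/-- From sequences to elements. -/
theorem sys_of_cau {A B : IntermediateField k Ω} (hO : OpA v 𝒜)
    (hcau : ∀ (κ : Type) [Fintype κ] (m : κ → ℕ → Ω), (∀ l, Cau v B (m l)) →
      (∀ l, Dm v 𝒜 B m fun n => m l n ^ p) → ∀ l, InBE v B A (m l))
    (κ : Type) [Fintype κ] (X f : κ → Ω) (φ : κ → κ → Module.End k Ω)
    (hφ : ∀ l l', φ l l' ∈ 𝒜) (hX : ∀ l, Lim v B 0 (X l)) (hf : ∀ l, f l ∈ B)
    (hr : ∀ l, v.Ge 0 (X l ^ p - (∑ j, φ l j (X j)) - f l)) (l : κ) :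
    ∃ b ∈ B, Lim v A 0 (X l - b) := by
  choose m hm h1 using fun l => Lim.exists_cau (hX l)
  obtain ⟨β, hβ, ν, hν, h3⟩ := hcau κ m hm (fun l => by
    refine ⟨φ l, f l, hφ l, hf l, ?_⟩
    have h4 : Nul v fun n => (X l - m l n) ^ p := (h1 l).pow p
    have h5 : Nul v fun n => ∑ j, φ l j (X j - m j n) :=
      Nul.sum _ _ fun j _ => hO.nul (hφ l j) (h1 j)
    refine (((Nul.const_iff.2 (hr l)).sub h4).add h5).congr fun n => ?_
    simp only [map_sub, Finset.sum_sub_distrib, sub_pow_char]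
    ring) l
  refine ⟨β, hβ, Lim.of_nul hν.mem (((h1 l).add h3).congr fun n => ?_)⟩
  ring

/-- The operators. -/
theorem opA_of (op : Oper p v W E T) (nx : NX v K E T 𝒜) (one : (1 : Module.End k Ω) ∈ 𝒜) :
    OpA v 𝒜 where
  one := one
  ge := nx.ge
  const := fun φ hφ => by
    obtain ⟨c, ψ, hψ, h1⟩ := nx.rep φ hφ
    refine ⟨c, ?_⟩
    rw [h1 1 (one_mem E), mul_one, fn_of_mem ψ (one_mem E)]
    have h2 := op.one ψ hψ
    have h3 : (⟨1, one_mem E⟩ : E) = 1 := rfl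
    rw [h3, h2, ZeroMemClass.coe_zero, add_zero]

section Hom

variable [IsAlgClosed Ω]

omit hk hp [CharP k p] [CharP Ω p] [PerfectRing k p] [IsAlgClosed Ω] in
theorem cadj_le_clI {N : IntermediateField k Ω} (hy : y ∈ N) : cadj v E y ≤ clI v (N ⊔ E) :=
  cadj_le (cld_clI v _) (fun _ hx => LUC.Cl.subset (le_sup_right (a := N) hx))
    (LUC.Cl.subset (le_sup_left (b := E) hy))

omit hp [CharP k p] [CharP Ω p] [PerfectRing k p] [IsAlgClosed Ω] in
/-- A limit of `E` at distance of the algebraic elements, which is in `K`. -/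
theorem tl_base (D : Desc v W E T K KP) (hW : Cld v W) (hWE : W ≤ E) (hy : y ∈ K)
    (ty : TL v E y 0) : TL v W y 0 where
  lim := by
    intro ε hε
    obtain ⟨a, ha, h1⟩ := ty.lim (ε / 2) (half_pos hε)
    obtain ⟨a', ha', h2⟩ := D.dist W hW le_rfl D.le y hy _ a
      (LUC.Cl.subset (le_sup_right (a := W) ha)) h1 (ε / 2) (half_pos hε)
    exact ⟨a', ha', h2.mono (by linarith)⟩
  far := fun θ hθ => ty.far θ (D2P.isAlgebraic_mono hWE hθ)

omit hp [CharP k p] [CharP Ω p] [PerfectRing k p] in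
/-- `u` is a limit of polynomials in `y` over the constants. -/
theorem hom_of_dist (D : Desc v W E T K KP) (hW : Cld v W) (hWE : W ≤ E) (hy : y ∈ K)
    (ty : TL v E y 0) (hu : u ∈ K) (hl : Lim v (cadj v E y) 0 u) :
    ∀ ε : ℝ, 0 < ε → ∃ g ∈ PI W, v.Ge (-ε) (u - g.eval y) := by
  intro ε hε
  obtain ⟨a, ha, h1⟩ := hl (ε / 2) (half_pos hε)
  obtain ⟨a', ha', h2⟩ := D.dist (cadj v W y) (cld_cadj v W y) (le_cadj v W y)
    (cadj_le D.cld D.le hy) u hu _ a (cadj_le_clI (self_mem_cadj v W y) ha) h1 (ε / 2)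
    (half_pos hε)
  obtain ⟨g, hg, h3⟩ := (tl_base D hW hWE hy ty).dense ha' (-ε)
  refine ⟨g, hg, ?_⟩
  have h4 := (h2.mono (show -ε ≤ 0 - ε / 2 - ε / 2 by linarith)).add h3
  rwa [sub_add_sub_cancel] at h4

end Hom

section Gen

variable {Th : ℕ → ℕ → Ω → Ω}

omit hk [CharP k p] [CharP Ω p] [PerfectRing k p] in
/-- change of the level -/
theorem th_lev (hlev : ∀ N j, 0 < j → j < p ^ N → ∀ x ∈ E, Th (N + 1) (p * j) x = Th N j x)
    {N j : ℕ} (h0 : 0 < j) (hj : j < p ^ N) (m : ℕ) {x : Ω} (hx : x ∈ E) :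
    p ^ m * j < p ^ (N + m) ∧ Th (N + m) (p ^ m * j) x = Th N j x := by
  induction m with
  | zero => rw [pow_zero, one_mul, add_zero]; exact ⟨hj, rfl⟩
  | succ m ih =>
    obtain ⟨h1, h2⟩ := ih
    have h3 : p ^ (m + 1) * j = p * (p ^ m * j) := by ring
    refine ⟨?_, ?_⟩
    · rw [h3, ← add_assoc, pow_succ' p (N + m)]
      exact Nat.mul_lt_mul_of_pos_left h1 hp.out.pos
    · rw [h3, ← add_assoc, hlev _ _ (Nat.mul_pos (pow_pos hp.out.pos m) h0) h1 x hx, h2]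

omit [CharP k p] [CharP Ω p] [PerfectRing k p] in
/-- **The operators of the algebra generated by the `Th N j`.** -/
theorem gen_of_adjT (hlev : ∀ N j, 0 < j → j < p ^ N → ∀ x ∈ E, Th (N + 1) (p * j) x = Th N j x)
    (n : ℕ) {φ : Opr v E}
    (hφ : φ ∈ adjT {φ : Opr v E | ∃ N j, 0 < j ∧ j < p ^ N ∧ ∀ x ∈ E, fn φ x = Th N j x}) :
    GenA p E Th n (fn φ) := by
  refine adjT_induction (P := fun φ => GenA p E Th n (fn φ)) ?_ ?_ ?_ ?_ ?_ hφ
  · rintro φ ⟨N, j, h0, hj, h1⟩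
    have h2 := fun x (hx : x ∈ E) => th_lev hlev h0 hj n hx
    exact GenA.th (N + n) (p ^ n * j) _ (Nat.le_add_left _ _) (h2 0 (zero_mem E)).1 fun x hx => by
      rw [h1 x hx, (h2 x hx).2]
  · have h1 : GenA p E Th n (Th n 0) := GenA.th n 0 _ le_rfl (pow_pos hp.out.pos n) fun _ _ => rfl
    refine GenA.smul (0 : k) _ _ h1 fun x hx => ?_
    rw [fn_opZero, map_zero, zero_mul]
  · exact fun φ ψ h1 h2 => GenA.add _ _ _ h1 h2 fun x hx => by rw [fn_opAdd]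
  · exact fun a φ h1 => GenA.smul a _ _ h1 fun x hx => by rw [fn_opSmul, Algebra.smul_def]
  · exact fun φ ψ h1 h2 => GenA.comp _ _ _ h1 h2 fun x hx => by
      rw [fn_of_mem _ hx, fn_of_mem ψ hx, fn_of_mem φ (SetLike.coe_mem _)]
      rfl

omit [CharP k p] [CharP Ω p] [PerfectRing k p] in
/-- The operators of `𝒜`. -/
theorem gen_of_nx (nx : NX v K E T 𝒜)
    (gen : T ≤ adjT {φ : Opr v E | ∃ N j, 0 < j ∧ j < p ^ N ∧ ∀ x ∈ E, fn φ x = Th N j x})
    (hlev : ∀ N j, 0 < j → j < p ^ N → ∀ x ∈ E, Th (N + 1) (p * j) x = Th N j x)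
    (hz : ∀ N, ∀ x ∈ E, Th N 0 x = x) (n : ℕ) {φ : Module.End k Ω} (hφ : φ ∈ 𝒜) :
    GenA p E Th n φ := by
  obtain ⟨c, ψ, hψ, h1⟩ := nx.rep φ hφ
  have h2 : GenA p E Th n (Th n 0) := GenA.th n 0 _ le_rfl (pow_pos hp.out.pos n) fun _ _ => rfl
  have h3 : GenA p E Th n fun x => algebraMap k Ω c * x :=
    GenA.smul c _ _ h2 fun x hx => by rw [hz n x hx]
  exact GenA.add _ _ _ h3 (gen_of_adjT hlev n (gen hψ)) h1

end Gen

section Main

variable [IsAlgClosed k] [IsAlgClosed Ω]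

/-- The torsion part of the words. -/
def RadT (v : RVal Ω) (E : IntermediateField k Ω) (y : Ω) (T' : Subalgebra k Ω) : Prop :=
  ∀ r ∈ T', Lim v (cadj v E y) 0 r → ∃ b ∈ cadj v E y, ∃ a, Lim v E 0 a ∧ v.Ge 0 (r - b - a)

/-- **The record `FV2L`.** -/
theorem fv2l_of (op : Oper p v W E T) (nsd : NSDp p op) (D : Desc v W E T K KP)
    (nx : NX v K E T 𝒜) (one : (1 : Module.End k Ω) ∈ 𝒜) (hy : y ∈ K) (ty : TL v E y 0)
    (hu : u ∈ K) (tu : TL v (cadj v E y) u 0) (can : Can p v E (cadj v E y) u)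
    (lft : ∀ D, ∃ T' S L' Φ, Lft p v E W y 𝒜 D T' S L' Φ ∧ RadT v E y T') :
    FV2L p v 𝒜 E W y u := by
  have hu0 : u ≠ 0 := TL_ne_zero tu
  have hy0 : y ≠ 0 := TL_ne_zero ty
  have hcj : ∀ w ∈ K, w ≠ 0 → ∀ φ ∈ 𝒜, TWIV.cj w φ = φ := fun w hw h0 φ hφ => by
    have := nx.cjw hφ hw h0 1
    rwa [pow_one] at this
  exact
    { op := opA_of op nx one
      sy := ⟨fun φ hφ x hx => nx.memE hφ hx, fun φ hφ => by rwa [hcj y hy hy0 φ hφ]⟩
      sz := ⟨fun φ hφ x hx => nx.cadj hφ ty hy (fun x hx => nx.memE hφ hx) hx,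
        fun φ hφ => by rwa [hcj u hu hu0 φ hφ]⟩
      ty := ty
      tz := tu
      res := fun x _ h0 => hk.out.residue h0
      can := can
      perf := op.perf
      tor := hTor_of op nsd nx.ge nx.rep
      h1 := h1_of op nsd nx.ge nx.rep
      WE := op.le
      lin := hcj u hu hu0
      linW := fun φ hφ f hf x => nx.lin φ hφ _ (eval_mem (PI_mono D.le hf) hy) x
      hom := hom_of_dist D op.cldC op.le hy ty hu tu.lim
      lft := lft }

/-- **`FV(y; u)`.** -/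
theorem fv_can_of (op : Oper p v W E T) (nsd : NSDp p op) (D : Desc v W E T K KP)
    (nx : NX v K E T 𝒜) (one : (1 : Module.End k Ω) ∈ 𝒜) (hy : y ∈ K) (ty : TL v E y 0)
    (hu : u ∈ K) (tu : TL v (cadj v E y) u 0) (can : Can p v E (cadj v E y) u)
    (lft : ∀ D, ∃ T' S L' Φ, Lft p v E W y 𝒜 D T' S L' Φ ∧ RadT v E y T')
    (κ : Type) [Fintype κ] (X f : κ → Ω) (φ : κ → κ → Module.End k Ω)
    (hφ : ∀ l l', φ l l' ∈ 𝒜) (hX : ∀ l, Lim v (cadj v (cadj v E y) u) 0 (X l))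
    (hf : ∀ l, f l ∈ cadj v (cadj v E y) u)
    (hr : ∀ l, v.Ge 0 (X l ^ p - (∑ j, φ l j (X j)) - f l)) (l : κ) :
    ∃ b ∈ cadj v (cadj v E y) u, Lim v (cadj v E y) 0 (X l - b) :=
  sys_of_cau (opA_of op nx one)
    (fun _ _ _ hm hd l => (fv2l_of op nsd D nx one hy ty hu tu can lft).cau p hm hd l)
    κ X f φ hφ hX hf hr l

/-- **The exact letters** from the exact systems. -/
theorem lft_of_exs {Th : ℕ → ℕ → Ω → Ω} (op : Oper p v W E T) (nx : NX v K E T 𝒜)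
    (gen : T ≤ adjT {φ : Opr v E | ∃ N j, 0 < j ∧ j < p ^ N ∧ ∀ x ∈ E, fn φ x = Th N j x})
    (hlev : ∀ N j, 0 < j → j < p ^ N → ∀ x ∈ E, Th (N + 1) (p * j) x = Th N j x)
    (hz : ∀ N, ∀ x ∈ E, Th N 0 x = x) (hThE : ∀ N, ∀ j < p ^ N, ∀ x ∈ E, Th N j x ∈ E)
    (ty : TL v E y 0)
    (hsys : ∀ D : ℕ, ∃ (N₁ : ℕ) (T : Subalgebra k Ω) (DD : ℕ → Subalgebra k Ω)
      (L₀ : Submodule k Ω) (Th' : ℕ → ℕ → Ω → Ω) (m r : ℕ) (s : Fin m → Ω) (t : Fin r → Ω) (e : Ω)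
      (P : Fin m → k[X]), ExS p v E W y D N₁ Th T DD L₀ Th' ∧ FreT p v E s t ∧ e ∈ E ∧
      (e + ∑ i, TWIV.op p (P i) (s i)) ^ p ^ D = y ∧
      ∀ x ∈ T, x ∈ cadS v (cadS v E s Set.univ) t Set.univ) :
    ∀ D, ∃ T' S L' Φ, Lft p v E W y 𝒜 D T' S L' Φ ∧ RadT v E y T' :=
  lft_of_sys hk.out op.cld op.perf ty hThE
    (fun _ hφ n => gen_of_nx nx gen hlev hz n hφ) hsys

end Main

end Pool.Agent.TWHT
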