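import Pool.Agent.Lib.TWHT.ThH
import Pool.Agent.Lib.TWIV.FLs

/-!
# TANK W, leaf (Ht): the family of the derivatives of a root

`Tht.exists_fam`: `y₀ ^ (p ^ D) = y`, a limit of `C`: the elements `η ^ l θ^[l / p^D] y₀`, `η c_D ∈ C`,
with their jets, satisfy the hypotheses of `exists_letters`.
-/

set_option autoImplicit false
set_option linter.unusedSectionVars false

open Polynomial

namespace Pool.Agent.TWHT

open Pool.Agent.H15JM (RVal)
open Pool.Agent.LU1 (VPos adj)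
open Pool.Agent.D2 (Ctx0)
open Pool.Agent.D2P (clI mem_clI)
open Pool.Agent.TWM Pool.Agent.TWC
open Pool.Agent.TWIV (HSn GeP PR mem_PR taylor_mem_PR coeff_psi op_mono op_zero)

universe u

variable {k Ω : Type u} [Field k] [Field Ω] [Algebra k Ω] {v : RVal Ω} {p : ℕ}
  {B C L E T A : IntermediateField k Ω} {x c : ℕ → Ω} {r : ℝ} {Th : ℕ → ℕ → Ω → Ω}

namespace Tht

variable [hp : Fact p.Prime] [CharP Ω p] [hcx : Fact (Ctx0 k v)]

theorem rootE (hE : ∀ a ∈ E, ∃ b ∈ E, b ^ p = a) (n : ℕ) : ∀ a ∈ E, ∃ b ∈ E, b ^ p ^ n = a := by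
  induction n with
  | zero => exact fun a ha => ⟨a, ha, by rw [pow_zero, pow_one]⟩
  | succ n ih =>
    intro a ha
    obtain ⟨b, hb, rfl⟩ := hE a ha
    obtain ⟨c, hc, rfl⟩ := ih b hb
    exact ⟨c, hc, by rw [pow_succ, pow_mul]⟩

/-- The elements of level `N` are the roots of the elements of `C`. -/
theorem mem_DX_iff (h : Tht p v C L E x c r Th)
    (hrt : ∀ a ∈ C, ∃ Q ∈ PI C, (Q.eval (x 1)) ^ p = a) (N : ℕ) (z : Ω) :
    z ∈ DX C (x N) ↔ z ^ p ^ N ∈ C := by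
  refine ⟨?_, fun hz => root_le_DX h.dat.nbx.root hrt N hz⟩
  rintro ⟨P, hP, rfl⟩
  have h1 : x N ^ p ^ N ∈ C := by
    have h2 := root_pow_add h.dat.nbx.root 0 N
    rw [zero_add] at h2
    rw [h2]
    exact h.dat.base
  rw [eval_eq_sum, Polynomial.sum, sum_pow_char_pow]
  refine sum_mem fun i _ => ?_
  rw [mul_pow, ← pow_mul, mul_comm i, pow_mul]
  exact mul_mem (pow_mem (hP i) _) (pow_mem h1 i)

/-- The elements of level `N` are stable, up to a factor near to `1`. -/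
theorem eta_mem (h : Tht p v C L E x c r Th) {N j : ℕ} (hj : j < p ^ N) {η : Ω}
    (hη : η * c N ∈ C) {σ : Ω} (hσ : σ ∈ DX C (x N)) : η ^ j * Th N j σ ∈ DX C (x N) := by
  obtain ⟨P, hP, rfl⟩ := hσ
  rw [h.ev hj (PI_mono h.dat.le hP), ← mul_assoc, ← mul_pow]
  refine mul_mem (pow_mem (DX.base hη) _) ?_
  have h1 : P ∈ PR (DX C (x N)) := fun i => DX.base (hP i)
  exact taylor_mem_PR h1 DX.self j

/-- **The family of the derivatives of a root.** -/
theorem exists_fam (hc : CompleteV v) (h : Tht p v C L E x c r Th)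
    (hrt : ∀ a ∈ C, ∃ Q ∈ PI C, (Q.eval (x 1)) ^ p = a) {y y₀ : Ω} (hyC : Lim v C 0 y) (D : ℕ)
    (hy₀ : y₀ ∈ clI v (L ⊔ E)) (hy : y₀ ^ p ^ D = y) :
    ∃ (z : Fin (p ^ D) → Ω) (Z : Fin (p ^ D) → Polynomial Ω) (i₀ : Fin (p ^ D)),
      (∀ i, (Z i).coeff 0 = z i) ∧
      (∀ i, ∀ ε : ℝ, 0 < ε → ∃ σ ∈ DX C (x D),
        GeP v (p ^ D) (-ε) (Z i - TWIV.psi (p ^ D) (Th D) σ)) ∧
      (∀ i, ∀ l < p ^ D, ∃ Q : Fin (p ^ D) → k[X],
        Nr v E 0 ((Z i).coeff l - ∑ j, TWIV.op p (Q j) (z j))) ∧ z i₀ ^ p ^ D = y := by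
  classical
  have h0 : Ctx0 k v := hcx.out
  have hq0 : 0 < p ^ D := pow_pos hp.out.pos D
  have hqR : (0 : ℝ) < (p : ℝ) ^ D := pow_pos (by exact_mod_cast hp.out.pos) _
  obtain ⟨η, hηE, hη, hηc⟩ := h.exists_eta D
  have hET := h.dat.leE
  -- approximation of the root
  have hap : ∀ ε : ℝ, 0 < ε → ∃ w ∈ DX C (x D), w ∈ E ∧ v.Ge (-ε) (y₀ - w) := by
    intro ε hε
    obtain ⟨a, ha, h1⟩ := hyC (ε * (p : ℝ) ^ D) (mul_pos hε hqR)
    obtain ⟨w, hw, rfl⟩ := rootE h.dat.perf D a (h.dat.CE ha)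
    refine ⟨w, (h.mem_DX_iff hrt D w).2 ha, hw, ?_⟩
    rw [← hy, ← sub_pow_char_pow] at h1
    intro h2
    have h3 := h1 (pow_ne_zero _ h2)
    rw [v.map_pow h2] at h3
    push_cast at h3
    have h4 : (p : ℝ) ^ D * (-ε) ≤ (p : ℝ) ^ D * v (y₀ - w) := by linarith
    exact le_of_mul_le_mul_left h4 hqR
  have hst : ∀ N j, j < p ^ N → ∀ y ∈ E, Th N j y ∈ E := fun N j hj y hy => h.memE hc hj hy
  have hl₀ : Lim v E 0 y₀ := by
    intro ε hε
    obtain ⟨w, -, hw, h1⟩ := hap ε hε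
    exact ⟨w, hw, by rwa [zero_sub]⟩
  have hηT : ∀ n, η ^ n ∈ clI v (L ⊔ E) := fun n => hET (pow_mem hηE n)
  set z : Fin (p ^ D) → Ω := fun i => η ^ (i : ℕ) * Th D i y₀ with hz
  have hzT : ∀ i, z i ∈ clI v (L ⊔ E) := fun i => mul_mem (hηT _) (h.memT D _ hy₀)
  have hzl : ∀ i, Lim v E 0 (z i) := fun i =>
    lim_mul_unit (pow_mem hηE _) (one_unit_pow hη _) (h.lim_th hET i.2 (hst D _ i.2) hy₀ hl₀)
  refine ⟨z, fun i => TWIV.psi (p ^ D) (Th D) (z i), ⟨0, hq0⟩, fun i => ?_, fun i ε hε => ?_,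
    fun i l hl => ?_, ?_⟩
  · rw [coeff_psi, if_pos hq0, h.zero D (hzT i)]
  · obtain ⟨w, hw, hwE, h1⟩ := hap ε hε
    refine ⟨η ^ (i : ℕ) * Th D i w, h.eta_mem i.2 hηc hw, fun j hj => ?_⟩
    rw [coeff_sub, coeff_psi, coeff_psi, if_pos hj, if_pos hj]
    refine h.near hj (hzT i) (mul_mem (hηT _) (h.memT D _ (hET hwE))) ?_
    have h2 := h.psi_ge i.2 hη (sub_mem hy₀ (hET hwE)) h1
    rw [psi, h.sub D _ hy₀ (hET hwE), mul_sub] at h2
    exact h2
  · simp only [coeff_psi, if_pos hl]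
    have h1 := nr_neg' (nr_mul_sub (pow_mem hηE l) (one_unit_pow hη l)
      (h.lim_th hET hl (hst D l hl) (hzT i) (hzl i)))
    by_cases hil : l + (i : ℕ) < p ^ D
    · refine ⟨fun j => if j = ⟨l + i, hil⟩ then Polynomial.C (((l + i).choose l : ℕ) : k) * X ^ 0
        else 0, ?_⟩
      have h2 : ∀ j : Fin (p ^ D), TWIV.op p (if j = ⟨l + i, hil⟩ then
          Polynomial.C (((l + i).choose l : ℕ) : k) * X ^ 0 else 0) (z j) =
          if j = ⟨l + i, hil⟩ then ((((l + i).choose l : ℕ) : Ω)) * z j else 0 := by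
        intro j
        split_ifs
        · rw [op_mono, pow_zero, pow_one, map_natCast]
        · exact op_zero _
      simp only [h2]
      rw [Finset.sum_ite_eq' Finset.univ, if_pos (Finset.mem_univ _)]
      have h3 : η ^ l * Th D l (z i) = ((((l + i).choose l : ℕ) : Ω)) * z ⟨l + i, hil⟩ :=
        h.psi_comp hl i.2 hil hηc hy₀
      rw [h3, neg_sub] at h1
      exact h1
    · refine ⟨fun _ => 0, ?_⟩
      have h3 : η ^ l * Th D l (z i) = 0 := h.psi_comp_zero hl i.2 (not_lt.1 hil) hηc hy₀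
      rw [h3, zero_sub, neg_neg] at h1
      simp only [op_zero, Finset.sum_const_zero, sub_zero]
      exact h1
  · have h1 : z ⟨0, hq0⟩ = y₀ := by
      rw [hz]
      simp only [pow_zero, one_mul]
      exact h.zero D hy₀
    rw [h1, hy]

end Tht

end Pool.Agent.TWHT
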