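import Pool.Agent.Lib.TWHT.ThL
import Pool.Agent.Lib.TWHT.SysT
import Pool.Agent.Lib.TWIV.FLi

/-!
# TANK W, leaf (Ht): the exact systems of the roots of `y`

`Tht.hsys`: for each `D` the exact system of depth `D` with a root `y ^ (1 / p ^ D)`.
-/

set_option autoImplicit false
set_option linter.unusedSectionVars false

open Polynomial

namespace Pool.Agent.TWHT

open Pool.Agent.H15JM (RVal)
open Pool.Agent.D2 (Ctx0)
open Pool.Agent.TWM Pool.Agent.TWC Pool.Agent.TWIV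

universe u

variable {k Ω : Type u} [Field k] [Field Ω] [Algebra k Ω] {v : RVal Ω} {p : ℕ}
  {C L E : IntermediateField k Ω} {x c : ℕ → Ω} {r : ℝ} {Th : ℕ → ℕ → Ω → Ω}
  {𝒜 : Submodule k (Module.End k Ω)}

/-- **The exact systems.** -/
theorem Tht.hsys [hcx : Fact (Ctx0 k v)] [hp : Fact p.Prime] [CharP k p] [CharP Ω p]
    [IsAlgClosed k] [IsAlgClosed Ω] (hc : CompleteV v) (h : Tht p v C L E x c r Th)
    (hroot : ∀ a ∈ C, ∃ Q ∈ PI C, (Q.eval (x 1)) ^ p = a)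
    (hrep : ∀ N j, 0 < j → j < p ^ N → ∃ ψ ∈ 𝒜, ∀ z ∈ E, ψ z = Th N j z)
    (hge : ∀ ψ ∈ 𝒜, ∀ (z : Ω) (b : ℝ), v.Ge b z → v.Ge b (ψ z))
    {y : Ω} (hl : Lim v C 0 y) (ty : TL v E y 0) (D : ℕ) :
    ∃ (N₁ : ℕ) (T : Subalgebra k Ω) (DD : ℕ → Subalgebra k Ω) (L₀ : Submodule k Ω)
      (Th' : ℕ → ℕ → Ω → Ω) (m r : ℕ) (s : Fin m → Ω) (t : Fin r → Ω) (e : Ω)
      (P : Fin m → k[X]), ExS p v E C y D N₁ Th T DD L₀ Th' ∧ FreT p v E s t ∧ e ∈ E ∧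
      (e + ∑ i, TWIV.op p (P i) (s i)) ^ p ^ D = y ∧
      ∀ x ∈ T, x ∈ cadS v (cadS v E s Set.univ) t Set.univ := by
  obtain ⟨z, Z, i₀, hZ0, hZg, hZs, hy⟩ := h.exists_inp hroot hrep hge hl D
  obtain ⟨m, r', s, t, T, e, P, i₁, hF, htW, htm, hT0, hT, hTL, he, hP, hz, hzl⟩ :=
    exists_letters hcx.out h.dat.perf h.hsn h.dat.CE
      (fun N _ w => h.mem_DX_iff hroot N w)
      (fun N _ j hj h0 w hw => h.base hj h0 (h.dat.le hw)) ty (Nat.zero_le D) hZ0 hZg hZs hy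
  have h1 := exS_exists (p := p) hcx.out h.dat.cldE h.dat.perf (h.hsn.restrict (Nat.zero_le D))
    (fun N _ j hj w hw => h.memE hc hj hw) (W := C) (fun w hw => DX.base hw)
    (fun w hw N _ j hj h0 => h.base hj h0 (h.dat.le hw)) hF htW htm hT0 hT hTL he ⟨i₁, hP⟩ hz hzl
  rwa [hy] at h1

end Pool.Agent.TWHT
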