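import Pool.Agent.Lib.TWHT.ThO
import Pool.Agent.Lib.TWIV.HT12b
import Pool.Agent.Lib.TWIV.HTW

/-!
# TANK W, leaf (Ht): the shape `(1,2)'`

* `HtOp.kld_of_gen`: `x` is killed by the operators as soon as the `Th N j`, `0 < j < p^N`, kill it;
* **`HtOp.shape12_of`**: in the shape `(1,2)'` the operators kill the special vector, from the
  systems of words `WSys`; `HtOp.shape12_lft`: from the exact letters.
-/

set_option autoImplicit false
set_option linter.unusedSectionVars false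

open Polynomial

namespace Pool.Agent.TWHT

open Pool.Agent.H15JM (RVal)
open Pool.Agent.D2 (Ctx0)
open Pool.Agent.TWM Pool.Agent.TWS Pool.Agent.TWIV
open Pool.Agent.TWC (Opr fn IsExt)

universe u

variable {k Ω : Type u} [Field k] [Field Ω] [Algebra k Ω] {v : RVal Ω}
  [hcx : Fact (Ctx0 k v)] {p : ℕ} [hp : Fact p.Prime] [CharP k p] [CharP Ω p]
  [PerfectRing k p] {C P L LP N : IntermediateField k Ω} {G : AddSubgroup ℝ} {M : ℝ → Ω}
  {T : Submodule k (Opr v (PM v P G M))} {𝒜 : Submodule k (Module.End k Ω)}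
  {x : ℕ → Ω} {r : ℝ} {Th : ℕ → ℕ → Ω → Ω} {B : IntermediateField k Ω}

omit hcx [CharP k p] [PerfectRing k p] hp [CharP Ω p] in
theorem nr_add {a b : Ω} (ha : Nr v B 0 a) (hb : Nr v B 0 b) : Nr v B 0 (a + b) := by
  obtain ⟨c, hc, h1⟩ := ha
  obtain ⟨d, hd, h2⟩ := hb
  refine ⟨c + d, add_mem hc hd, ?_⟩
  rw [add_sub_add_comm]
  exact h1.add h2

omit hcx [CharP k p] [PerfectRing k p] hp [CharP Ω p] in
theorem nr_zero12 : Nr v B 0 (0 : Ω) := ⟨0, zero_mem _, by rw [sub_zero]; exact RVal.Ge.zero⟩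

omit [CharP k p] [PerfectRing k p] hp [CharP Ω p] in
theorem nr_smul12 (c : k) {a : Ω} (ha : Nr v B 0 a) : Nr v B 0 (algebraMap k Ω c * a) := by
  obtain ⟨b, hb, h1⟩ := ha
  refine ⟨algebraMap k Ω c * b, mul_mem (B.algebraMap_mem c) hb, ?_⟩
  rw [← mul_sub]
  have := (hcx.out.ge c).mul h1
  rwa [zero_add] at this

/-- `x` is killed by the operators as soon as it is killed by the `Th N j`. -/
theorem HtX.kld_of_gen (X : HtX p v C P L LP G M T 𝒜 x r Th)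
    (hB : StbB p Th (PM v P G M) (PM v LP G M) B) {y : Ω} (hy : y ∈ PM v LP G M)
    (hl : Lim v B 0 y) (h : ∀ N j, 0 < j → j < p ^ N → Nr v B 0 (Th N j y)) :
    Kld T L LP B y := by
  classical
  intro φ hφ Φ hΦ
  obtain ⟨N, lam, h0, h1⟩ := X.comb hφ
  have h2 := (h1 Φ hΦ B hB).2 y hy hl
  have h3 : Nr v B 0 (∑ g ∈ Finset.range (p ^ N), algebraMap k Ω (lam g) * Th N g y) := by
    refine Finset.sum_induction _ (fun t => Nr v B 0 t) (fun _ _ => nr_add) nr_zero12 ?_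
    intro g hg
    rcases Nat.eq_zero_or_pos g with rfl | hg0
    · rw [h0, map_zero, zero_mul]
      exact nr_zero12
    · exact nr_smul12 _ (h N g hg0 (Finset.mem_range.1 hg))
  have h4 := nr_add h2 h3
  rwa [sub_add_cancel] at h4

variable [IsAlgClosed Ω]

/-- **The shape `(1,2)'`**: the operators kill the special vector. -/
theorem HtOp.shape12_of (H : HtOp p v C P L LP G M T 𝒜) {w y z : Ω} (hw : w ∈ PM v L G M)
    (tw : TL v (PM v P G M) w 0) (ty : TL v (cadj v (PM v P G M) w) y 0)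
    (tz : TL v (cadj v (cadj v (PM v P G M) w) y) z 0)
    (hLP : PM v LP G M = cadj v (cadj v (cadj v (PM v P G M) w) y) z)
    (hc : ∀ Y ∈ PM v LP G M, Lim v (PM v P G M) 0 Y → Nr v (cadj v (PM v P G M) w) 0 Y)
    (hfar : ∃ x ∈ PM v LP G M, Lim v (cadj v (PM v P G M) w) 0 x ∧
      ¬ Nr v (cadj v (cadj v (PM v P G M) w) y) 0 x)
    (htop : ¬ ∃ c' b : Ω, Fib v (cadj v (PM v P G M) w) (PM v LP G M) c' b 0 0 ∧
      Lim v (cadj v (PM v P G M) w) 0 b)
    (hs : ∀ n, ∃ S, WSys p v (PM v P G M) w 𝒜 n S) :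
    Kld T L LP (cadj v (PM v P G M) w) y := by
  have _ : PerfectRing Ω p := PerfectField.toPerfectRing p
  obtain ⟨x, r, Th, X⟩ := H.exists_htx
  have hyT : y ∈ PM v LP G M := by
    rw [hLP]
    exact le_cadj _ _ _ (self_mem_cadj _ _ _)
  have hET : cadj v (PM v P G M) w ≤ PM v LP G M := by
    rw [hLP]
    exact (le_cadj _ _ _).trans (le_cadj _ _ _)
  have hW : ∀ φ ∈ 𝒜, WLin v (PM v P G M) w φ := fun φ hφ =>
    ⟨fun x b hb => H.nx.ge φ hφ x b hb, fun x hx => H.nx.memE hφ hx, by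
      ext x
      rw [cj_apply, H.nx.lin φ hφ w hw, inv_mul_cancel_left₀ (tl_ne0 tw)]⟩
  refine X.kld_of_gen (X.stb_cadj H.D.cpl hw) hyT ty.lim fun N j hj hjN => ?_
  refine X.opf.shp_nr H.D.cpl H.sph H.perfE H.opA hW
    (hTor_of H.op H.nsd H.nx.ge H.nx.rep) hs tw ty tz hLP hfar (fun h₁ hh hl => ?_)
    (fun e he hl => ?_) hj hjN
  · refine htop ⟨y, z - -h₁, ⟨ty, tz.sub_mem (neg_mem hh), ?_⟩, by rwa [sub_neg_eq_add]⟩
    rw [cadj_sub_mem (neg_mem hh)]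
    exact hLP
  · obtain ⟨a, ha, h2⟩ := hc (y - e) (sub_mem hyT (hET he)) hl
    refine TL.not_nr' ty (Nr.nr' ⟨e + a, add_mem he ha, ?_⟩)
    rwa [← sub_sub]

/-- **The shape `(1,2)'`**, from the exact letters. -/
theorem HtOp.shape12_lft (H : HtOp p v C P L LP G M T 𝒜) {w y z : Ω} (hw : w ∈ PM v L G M)
    (tw : TL v (PM v P G M) w 0) (ty : TL v (cadj v (PM v P G M) w) y 0)
    (tz : TL v (cadj v (cadj v (PM v P G M) w) y) z 0)
    (hLP : PM v LP G M = cadj v (cadj v (cadj v (PM v P G M) w) y) z)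
    (hc : ∀ Y ∈ PM v LP G M, Lim v (PM v P G M) 0 Y → Nr v (cadj v (PM v P G M) w) 0 Y)
    (hfar : ∃ x ∈ PM v LP G M, Lim v (cadj v (PM v P G M) w) 0 x ∧
      ¬ Nr v (cadj v (cadj v (PM v P G M) w) y) 0 x)
    (htop : ¬ ∃ c' b : Ω, Fib v (cadj v (PM v P G M) w) (PM v LP G M) c' b 0 0 ∧
      Lim v (cadj v (PM v P G M) w) 0 b)
    (hlft : ∀ D, ∃ T' S L' Φ, Lft p v (PM v P G M) (PM v C G M) w 𝒜 D T' S L' Φ ∧
      ∀ r ∈ T', Lim v (cadj v (PM v P G M) w) 0 r →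
        ∃ b ∈ cadj v (PM v P G M) w, ∃ a, Lim v (PM v P G M) 0 a ∧ v.Ge 0 (r - b - a)) :
    Kld T L LP (cadj v (PM v P G M) w) y := by
  have hCL : PM v C G M ≤ PM v L G M := H.D.desc.le
  refine H.shape12_of hw tw ty tz hLP hc hfar htop (exists_wsys (W := PM v C G M) ?_ hlft)
  intro φ hφ f hf x
  exact H.nx.lin φ hφ _ (eval_mem (PI_mono hCL hf) hw) x

end Pool.Agent.TWHT
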