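import Pool.Agent.Lib.TWHT.ThO
import Pool.Agent.Lib.TWHT.FvL
import Pool.Agent.Lib.TWHT.LftH
import Pool.Agent.Lib.TWHT.Shp12

/-!
# TANK W, leaf (Ht): `FV(y; u)` and the shape `(1,2)'`

* `HtOp.lft`: the exact letters over a rational letter `y`;
* **`HtOp.fv_can`**: `FV(y; u)`; **`HtOp.shape12`**: the shape `(1,2)'`.
-/

set_option autoImplicit false
set_option linter.unusedSectionVars false

open Polynomial

namespace Pool.Agent.TWHT

open Pool.Agent.H15JM (RVal)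
open Pool.Agent.D2 (Ctx0)
open Pool.Agent.D2P (hen clI mem_clI)
open Pool.Agent.TWM Pool.Agent.TWS Pool.Agent.TWIV
open Pool.Agent.TWC (Opr fn IsExt Desc Oper NilpC NSD Tow EW Tgt)

universe u

variable {k Ω : Type u} [Field k] [Field Ω] [Algebra k Ω] {v : RVal Ω}
  [hcx : Fact (Ctx0 k v)] {p : ℕ} [hp : Fact p.Prime] [CharP k p] [CharP Ω p]
  [PerfectRing k p] [IsAlgClosed k] [IsAlgClosed Ω]
  {C P L LP : IntermediateField k Ω} {G : AddSubgroup ℝ} {M : ℝ → Ω}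
  {T : Submodule k (Opr v (PM v P G M))} {𝒜 : Submodule k (Module.End k Ω)}

/-- **The exact letters over a rational letter.** -/
theorem HtOp.lft (H : HtOp p v C P L LP G M T 𝒜) {y : Ω} (hy : y ∈ PM v L G M)
    (ty : TL v (PM v P G M) y 0) :
    ∀ D, ∃ T' S L' Φ, Lft p v (PM v P G M) (PM v C G M) y 𝒜 D T' S L' Φ ∧
      RadT v (PM v P G M) y T' := by
  obtain ⟨x, r, Th, X⟩ := H.exists_htx
  have hEL : PM v P G M ≤ PM v LP G M := PM.mono H.D.PLP
  have hl : Lim v (PM v C G M) 0 y := by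
    refine H.D.desc.lim PM.cld le_rfl H.D.desc.le hy ?_
    refine Lim.mono ty.lim (le_sup_right.trans (TWC.self_le_clI v _))
  refine lft_of_exs (Th := Th) H.op H.nx (le_of_eq X.gen)
    (fun N j h0 hj z hz => X.opf.lev N j h0 hj z (hEL hz))
    (fun N z hz => X.hsn.zero N (Nat.zero_le N) z hz)
    (fun N j hj z hz => X.tht.memE H.D.cpl hj hz) ty fun D => ?_
  exact X.tht.hsys H.D.cpl X.root (fun N j h0 hj => by
    obtain ⟨ψ, hψ, h1⟩ := X.opf.rep N j h0 hj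
    exact ⟨ψ, hψ, fun z hz => h1 z (hEL hz)⟩) (fun ψ hψ z b hb => H.nx.ge ψ hψ z b hb) hl ty D

/-- **R3.** `FV(y; u)`. -/
theorem HtOp.fv_can (H : HtOp p v C P L LP G M T 𝒜) {y u : Ω} (hy : y ∈ PM v L G M)
    (ty : TL v (PM v P G M) y 0) (hu : u ∈ PM v L G M) (tu : TL v (cadj v (PM v P G M) y) u 0)
    (can : Can p v (PM v P G M) (cadj v (PM v P G M) y) u) :
    FV p v 𝒜 (cadj v (PM v P G M) y) (cadj v (cadj v (PM v P G M) y) u) :=
  fun κ _ X f φ hφ hX hf hr l => fv_can_of H.op H.nsd H.D.desc H.nx H.one hy ty hu tu can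
    (H.lft hy ty) κ X f φ hφ hX hf hr l

/-- **R4.** The shape `(1,2)'`. -/
theorem HtOp.shape12 (H : HtOp p v C P L LP G M T 𝒜) {w y z : Ω} (hw : w ∈ PM v L G M)
    (tw : TL v (PM v P G M) w 0) (ty : TL v (cadj v (PM v P G M) w) y 0)
    (tz : TL v (cadj v (cadj v (PM v P G M) w) y) z 0)
    (hLP : PM v LP G M = cadj v (cadj v (cadj v (PM v P G M) w) y) z)
    (hc : ∀ Y ∈ PM v LP G M, Lim v (PM v P G M) 0 Y → Nr v (cadj v (PM v P G M) w) 0 Y)
    (hfar : ∃ x ∈ PM v LP G M, Lim v (cadj v (PM v P G M) w) 0 x ∧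
      ¬ Nr v (cadj v (cadj v (PM v P G M) w) y) 0 x)
    (htop : ¬ ∃ c' b : Ω, Fib v (cadj v (PM v P G M) w) (PM v LP G M) c' b 0 0 ∧
      Lim v (cadj v (PM v P G M) w) 0 b) :
    Kld T L LP (cadj v (PM v P G M) w) y :=
  H.shape12_lft hw tw ty tz hLP hc hfar htop fun D => by
    obtain ⟨T', S, L', Φ, h1, h2⟩ := H.lft hw tw D
    exact ⟨T', S, L', Φ, h1, h2⟩

end Pool.Agent.TWHT
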