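import Pool.Agent.Lib.TWIV.S7e

/-!
# TANK W, leaf (Ht): integration in one direction, for jets

`JtX.int1`: `K = F<w>`, `D` the jets in the direction `w`.
-/

set_option autoImplicit false
set_option linter.unusedSectionVars false

open Polynomial

namespace Pool.Agent.TWHT

open Pool.Agent.H15JM (RVal)
open Pool.Agent.D2 (Ctx0)
open Pool.Agent.TWM
open Pool.Agent.TWC (Nul Cau eq_of_ge int_lemma)
open Pool.Agent.TWIV

universe u

variable {k H : Type u} [Field k] [Field H] [Algebra k H] {v : RVal H} {p : ℕ} [hp : Fact p.Prime]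
  [CharP H p] [PerfectRing H p] [IsAlgClosed H] {A : Type*} [AddCommGroup A] {pr : A → H →ₗ[k] H}
  {F K : IntermediateField k H} {w : H} {γ : A}

/-- **Integration in one direction.** -/
theorem int1_of_jtX {D : ℕ → H → H} (hD : JtX p v pr K F w γ D) (hw : TL v F w 0)
    (hK : K = cadj v F w) {N : ℕ} {b : ℕ → H} (hb : ∀ i, b i ∈ K) (hN : ∀ i, N ≤ i → b i = 0)
    (h1 : ∀ i j, Gt v 0 (D (p ^ j) (b i) - D (p ^ i) (b j)))
    (h2 : ∀ i, Gt v 0 ((D (p ^ i))^[p - 1] (b i))) :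
    ∃ G ∈ K, ∀ i, Gt v 0 (D (p ^ i) G - b i) := by
  classical
  have hdense : ∀ i, ∃ f ∈ PI F, Gt v 0 (b i - f.eval w) ∧ (N ≤ i → f = 0) := by
    intro i
    by_cases hi : N ≤ i
    · exact ⟨0, zero_mem _, by rw [hN i hi, eval_zero, sub_zero]; exact Gt.zero,
        fun _ => rfl⟩
    · obtain ⟨f, hf, h3⟩ := hw.dense (hK ▸ hb i : b i ∈ cadj v F w) 1
      exact ⟨f, hf, Gt.of_ge h3 one_pos, fun h4 => absurd h4 hi⟩
  choose f hf hfb hf0 using hdense
  have hfK : ∀ {g : Polynomial H}, g ∈ PI F → g.eval w ∈ K := fun hg => eval_memK hK hg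
  have hgt : ∀ J, ∀ x ∈ K, Gt v 0 x → Gt v 0 (D J x) := by
    intro J x hx hx0
    by_cases h0 : x = 0
    · rw [h0, hD.zero']
      exact Gt.zero
    · exact Gt.of_ge (hD.norm J x hx _ (RVal.ge_self _)) (hx0 h0)
  have h3 : ∀ i J, Gt v 0 (D J (b i) - (hasseDeriv J (f i)).eval w) := by
    intro i J
    rw [← hD.poly _ (hf i) J, ← hD.sub J (hb i) (hfK (hf i))]
    exact hgt J _ (sub_mem (hb i) (hfK (hf i))) (hfb i)
  have hit : ∀ J m, (∀ x ∈ K, (D J)^[m] x ∈ K) ∧
      (∀ x ∈ K, ∀ x' ∈ K, (D J)^[m] (x - x') = (D J)^[m] x - (D J)^[m] x') ∧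
      (∀ x ∈ K, Gt v 0 x → Gt v 0 ((D J)^[m] x)) ∧
      ∀ g ∈ PI F, (D J)^[m] (g.eval w) = ((⇑(hasseDeriv (R := H) J))^[m] g).eval w := by
    intro J m
    induction m with
    | zero => exact ⟨fun x hx => hx, fun x _ x' _ => rfl, fun x _ hx => hx, fun g _ => rfl⟩
    | succ m ih =>
      obtain ⟨i1, i2, i3, i4⟩ := ih
      refine ⟨fun x hx => ?_, fun x hx x' hx' => ?_, fun x hx hx0 => ?_, fun g hg => ?_⟩
      · rw [Function.iterate_succ_apply]
        exact i1 _ (hD.mem J x hx)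
      · rw [Function.iterate_succ_apply, Function.iterate_succ_apply,
          Function.iterate_succ_apply, hD.sub J hx hx', i2 _ (hD.mem J x hx) _ (hD.mem J x' hx')]
      · rw [Function.iterate_succ_apply]
        exact i3 _ (hD.mem J x hx) (hgt J x hx hx0)
      · rw [Function.iterate_succ_apply, Function.iterate_succ_apply, hD.poly g hg J]
        exact i4 _ (hasse_mem_PI hg J)
  obtain ⟨G, hG, h6⟩ := int_lemma hw p (b := f) hf hf0 (fun i j => by
      have h7 := (h1 i j).sub ((h3 i (p ^ j)).sub (h3 j (p ^ i)))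
      refine (congrArg (Gt v 0) ?_).mp h7
      rw [eval_sub]
      ring) (fun i => by
      obtain ⟨i1, i2, i3, i4⟩ := hit (p ^ i) (p - 1)
      have h7 := (h2 i).sub (i3 _ (sub_mem (hb i) (hfK (hf i))) (hfb i))
      refine (congrArg (Gt v 0) ?_).mp h7
      rw [i2 _ (hb i) _ (hfK (hf i)), i4 _ (hf i)]
      ring)
  refine ⟨G.eval w, hfK hG, fun i => ?_⟩
  refine (congrArg (Gt v 0) ?_).mp ((h6 i).sub (hfb i))
  rw [hD.poly G hG, eval_sub]
  ring

end Pool.Agent.TWHT
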