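import Pool.Agent.Lib.TWHT.Tri
import Pool.Agent.Lib.TWIV.S7h

/-!
# TANK W, leaf (Ht): two letters, the second one moved by the operators: the degree

* `Tri.bdd`: the solutions of a system have a bounded degree;
* `Tri.deg`: the degree induction: a system all of whose jets `D_J X`, `J ≠ 0`, are in `K + L(E)`.
-/

set_option autoImplicit false
set_option linter.unusedSectionVars false

open Polynomial

namespace Pool.Agent.TWHT

open Pool.Agent.H15JM (RVal)
open Pool.Agent.D2 (Ctx0)
open Pool.Agent.TWM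
open Pool.Agent.TWC (Nul Cau InBL)
open Pool.Agent.TWIV

universe u

variable {k H : Type u} [Field k] [Field H] [Algebra k H] {v : RVal H} [hk : Fact (Ctx0 k v)]
  {E K : IntermediateField k H} {D : Fin 2 → ℕ → H → H} {P : ℕ}
  {Th : ℕ → Module.End k H} {R : ℕ × ℕ → Finset (ℕ × ℕ)} {c : ℕ → ℕ × ℕ → ℕ × ℕ → k} {w : ℕ}
  {p : ℕ} [hp : Fact p.Prime] [CharP H p] [PerfectRing H p]
  [IsAlgClosed H] {A : Type*} [AddCommGroup A] {pr : A → H →ₗ[k] H} {y : ℕ → H} {α : ℕ → A}

/-- The composition of the jets. -/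
theorem dd_dd (T : Two7 p v pr E K y α D) (J J' : ℕ × ℕ) {x : H} (hx : x ∈ K) :
    DD D J' (DD D J x) = (((J'.1 + J.1).choose J.1 * (J'.2 + J.2).choose J.2 : ℕ) : H) *
      DD D (J'.1 + J.1, J'.2 + J.2) x := by
  have h1 : D 1 J.2 x ∈ K := (T.jx 1).mem _ _ hx
  have h2 : D 1 J'.2 (D 0 J.1 (D 1 J.2 x)) = D 0 J.1 (D 1 J'.2 (D 1 J.2 x)) :=
    T.comm 1 0 J'.2 J.1 _ h1
  have h3 : D 1 (J'.2 + J.2) x ∈ K := (T.jx 1).mem _ _ hx
  change D 0 J'.1 (D 1 J'.2 (D 0 J.1 (D 1 J.2 x))) = _ * D 0 (J'.1 + J.1) (D 1 (J'.2 + J.2) x)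
  rw [h2, (T.jx 0).comp J.1 J'.1 _ ((T.jx 1).mem _ _ h1), (T.jx 1).comp J.2 J'.2 _ hx,
    (T.jx 0).lin _ (((J'.2 + J.2).choose J.2 : ℕ) : H) (natCast_mem _ _) _ h3]
  push_cast
  ring

theorem bnd_dd (T : Two7 p v pr E K y α D) {d : ℕ} {X : ℕ → H} (hX : ∀ n, X n ∈ K)
    (h : Bnd v D (d + 1) X) {J : ℕ × ℕ} (hJ : J ≠ 0) : Bnd v D d fun n => DD D J (X n) := by
  intro J' hJ'
  have h0 : 1 ≤ J.1 + J.2 := by
    rcases Nat.eq_zero_or_pos (J.1 + J.2) with h1 | h1
    · exact absurd (Prod.ext (by simp only [Prod.fst_zero]; omega)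
        (by simp only [Prod.snd_zero]; omega)) hJ
    · exact h1
  have h2 := TWC.Nul.mul_ge (h (J'.1 + J.1, J'.2 + J.2) (by simp only; omega))
    (c := fun _ => (((J'.1 + J.1).choose J.1 * (J'.2 + J.2).choose J.2 : ℕ) : H))
    fun _ => TWM.ge_natCast v _
  exact h2.congr fun n => (dd_dd T J J' (hX n)).symm

theorem cau_dd (T : Two7 p v pr E K y α D) (J : ℕ × ℕ) {X : ℕ → H} (h : Cau v K X) :
    Cau v K fun n => DD D J (X n) := (T.jx 0).cau _ ((T.jx 1).cau _ h)

/-- a sum of null sequences -/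
theorem ps_zero_op {κ : Type*} [Fintype κ] (l : κ) (w : κ → H) :
    ps (fun _ _ : κ => (0 : Module.End k H)) l w = 0 :=
  Finset.sum_eq_zero fun _ _ => rfl

variable {κ : Type*} [Fintype κ]

namespace Tri

variable (t : Tri v E K D P Th R c w) (T : Two7 p v pr E K y α D)

include t T

/-- **The solutions of a system have a bounded degree.** -/
theorem bdd {a : κ → κ → ℕ → k} {X : κ → ℕ → H} {f : κ → H} (hX : ∀ l, Cau v K (X l))
    (hf : ∀ l, f l ∈ K)
    (hR : ∀ l, Nul v fun n => X l n ^ p -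
      ps (fun l j => phT P Th (a l j)) l (fun j => X j n) - f l) :
    ∃ d, ∀ l, Bnd v D d (X l) := by
  classical
  have hφg : ∀ (b : ℕ → k) (x : H) (s : ℝ), v.Ge s x → v.Ge s (phT P Th b x) :=
    fun b => t.phT_ge b
  have hp0 : (0 : ℝ) < p := by exact_mod_cast hp.out.pos
  have hp1 : (1 : ℝ) ≤ p := by exact_mod_cast hp.out.one_le
  choose df hdf using fun l => T.dd_fin (hf l)
  set d := max (Finset.univ.sup df) w with hd
  have hdw : w ≤ d := le_max_right _ _
  -- the bound of the sequences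
  obtain ⟨K₀, hK₀, n₀, hn₀⟩ : ∃ K₀ : ℝ, 0 ≤ K₀ ∧ ∃ n₀, ∀ n, n₀ ≤ n → ∀ l,
      v.Ge (-K₀) (X l n) := by
    choose N hN using fun l => (hX l).cau 1 one_pos
    set n₀ := Finset.univ.sup N with hn₀
    have h0 : 0 ≤ ∑ l, |v (X l n₀)| := Finset.sum_nonneg fun l _ => abs_nonneg _
    refine ⟨1 + ∑ l, |v (X l n₀)|, by linarith, n₀, fun n hn l => ?_⟩
    have h1 : N l ≤ n₀ := Finset.le_sup (f := N) (Finset.mem_univ l)
    have e1 : X l n = (X l n - X l n₀) + X l n₀ := by ring
    rw [e1]
    refine RVal.Ge.add ((hN l n n₀ (h1.trans hn) h1).mono (by linarith))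
      ((RVal.ge_self (v := v) (X l n₀)).mono ?_)
    have h3 := Finset.single_le_sum (f := fun l => |v (X l n₀)|) (fun l _ => abs_nonneg _)
      (Finset.mem_univ l)
    have h4 := neg_abs_le (v (X l n₀))
    linarith
  have key : ∀ M : ℕ, ∀ J : ℕ × ℕ, d < J.1 + J.2 → ∀ ε : ℝ, 0 < ε → ∃ N, ∀ n, N ≤ n → ∀ l,
      v.Ge (-(K₀ / (p : ℝ) ^ M + ε)) (DD D J (X l n)) := by
    intro M
    induction M with
    | zero =>
      intro J _ ε hε
      refine ⟨n₀, fun n hn l => T.dd_norm J ((hX l).mem n) ((hn₀ n hn l).mono ?_)⟩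
      rw [pow_zero, div_one]
      linarith
    | succ M ih =>
      intro J hJ ε hε
      have hJ2 : 2 * (J.1 + J.2) ≤ p * J.1 + p * J.2 := by
        rw [← mul_add]
        exact Nat.mul_le_mul_right _ hp.out.two_le
      have hJ' : d < p * J.1 + p * J.2 := by omega
      -- the jets on the right
      have hr : ∀ J' : ℕ × ℕ, ∃ N, ∀ n, N ≤ n → ∀ l,
          d < J'.1 + J'.2 → v.Ge (-(K₀ / (p : ℝ) ^ M + ε)) (DD D J' (X l n)) := by
        intro J'
        by_cases h : d < J'.1 + J'.2
        · obtain ⟨N, hN⟩ := ih J' h ε hε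
          exact ⟨N, fun n hn l _ => hN n hn l⟩
        · exact ⟨0, fun n _ l h' => absurd h' h⟩
      choose N₁ h1 using hr
      have hph : ∀ l n, ps (fun l j => phT P Th (a l j)) l (fun j => X j n) ∈ K := fun l n =>
        ps_mem (fun i j x hx => t.phT_mem _ hx) fun j => (hX j).mem n
      have hu : ∀ l n, X l n ^ p - ps (fun l j => phT P Th (a l j)) l (fun j => X j n) -
          f l ∈ K := fun l n =>
        sub_mem (sub_mem (pow_mem ((hX l).mem n) _) (hph l n)) (hf l)
      choose N₂ h2 using fun l => T.dd_nul (p * J.1, p * J.2) (hu l) (hR l) ε hε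
      refine ⟨max ((R (p * J.1, p * J.2)).sup N₁) (Finset.univ.sup N₂), fun n hn l => ?_⟩
      have hn1 : ∀ J' ∈ R (p * J.1, p * J.2), N₁ J' ≤ n := fun J' hJ' =>
        ((Finset.le_sup (f := N₁) hJ').trans (le_max_left _ _)).trans hn
      have hn2 : N₂ l ≤ n := ((Finset.le_sup (f := N₂) (Finset.mem_univ l)).trans
        (le_max_right _ _)).trans hn
      have hKM : 0 ≤ K₀ / (p : ℝ) ^ M := by positivity
      have h3 : v.Ge (-ε) (DD D (p * J.1, p * J.2)
        (X l n ^ p - ps (fun l j => phT P Th (a l j)) l (fun j => X j n) - f l)) :=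
          h2 l n hn2
      have hpw : X l n ^ p ∈ K := pow_mem ((hX l).mem n) _
      rw [T.dd_sub _ (sub_mem hpw (hph l n)) (hf l), T.dd_sub _ hpw (hph l n),
        T.dd_frob J ((hX l).mem n), t.dd_ps T a _ _ fun j => (hX j).mem n] at h3
      have h4 : v.Ge (-(K₀ / (p : ℝ) ^ M + ε)) (∑ J' ∈ R (p * J.1, p * J.2),
          ps (fun l j => phT P Th (twc P c (a l j) (p * J.1, p * J.2) J')) l
            fun j => DD D J' (X j n)) := by
        refine RVal.Ge.sum _ _ fun J' hJ'R => ?_
        by_cases hd' : d < J'.1 + J'.2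
        · exact ps_ge (fun i j => hφg _) fun j => h1 J' n (hn1 J' hJ'R) j hd'
        · have h5 : ∀ (b : ℕ → k), phT P Th (twc P c b (p * J.1, p * J.2) J') = 0 := by
            intro b
            have h6 : twc P c b (p * J.1, p * J.2) J' = fun _ => 0 := by
              funext g
              rw [twc]
              refine Finset.sum_eq_zero fun g' hg' => ?_
              have h7 : c g' (p * J.1, p * J.2) J' = 0 := by
                by_contra h8
                have h9 := t.wt g' (by have := Finset.mem_range.1 hg'; omega) _ J' hJ'R h8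
                simp only at h9
                omega
              rw [h7, mul_zero]
            rw [h6]
            exact phT_zero P Th
          have h6 : (fun l j => phT P Th (twc P c (a l j) (p * J.1, p * J.2) J')) =
              fun _ _ : κ => (0 : Module.End k H) := by
            funext l j
            exact h5 _
          rw [h6, ps_zero_op]
          exact RVal.Ge.zero
      have h5 : v.Ge (-(K₀ / (p : ℝ) ^ M + ε)) (DD D (p * J.1, p * J.2) (f l)) := by
        refine (hdf l _ ?_).mono (by linarith)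
        exact ((Finset.le_sup (f := df) (Finset.mem_univ l)).trans (le_max_left _ _)).trans_lt
          hJ'
      have h6 : v.Ge (-(K₀ / (p : ℝ) ^ M + ε)) (DD D J (X l n) ^ p) := by
        refine (congrArg (v.Ge _) ?_).mp (((h3.mono (by linarith)).add h4).add h5)
        ring
      refine (ge_pow_inv h6).mono ?_
      rw [neg_div, neg_le_neg_iff, add_div, div_div, ← pow_succ]
      have h7 : ε / p ≤ ε := div_le_self hε.le hp1
      linarith
  refine ⟨d, fun l J hJ ε hε => ?_⟩
  obtain ⟨M, hM⟩ := pow_unbounded_of_one_lt (K₀ / (ε / 2))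
    (show (1 : ℝ) < p by exact_mod_cast hp.out.one_lt)
  obtain ⟨N, hN⟩ := key M J hJ (ε / 2) (by linarith)
  refine ⟨N, fun n hn => (hN n hn l).mono ?_⟩
  have h1 : K₀ / (p : ℝ) ^ M ≤ ε / 2 := by
    rw [div_le_iff₀ (by positivity)]
    rw [div_lt_iff₀ (by linarith)] at hM
    nlinarith
  linarith

/-- The relation of the jets. -/
theorem dd_rel {a : κ → κ → ℕ → k} {X : κ → ℕ → H} {f : κ → H} (hX : ∀ l, Cau v K (X l))
    (hf : ∀ l, f l ∈ K) {l : κ}
    (hR : Nul v fun n => X l n ^ p -
      ps (fun l j => phT P Th (a l j)) l (fun j => X j n) - f l) (J : ℕ × ℕ) :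
    Nul v fun n => DD D J (X l n) ^ p - (∑ J' ∈ R (p * J.1, p * J.2),
      ps (fun l j => phT P Th (twc P c (a l j) (p * J.1, p * J.2) J')) l
        fun j => DD D J' (X j n)) - DD D (p * J.1, p * J.2) (f l) := by
  have hph : ∀ n, ps (fun l j => phT P Th (a l j)) l (fun j => X j n) ∈ K := fun n =>
    ps_mem (fun i j x hx => t.phT_mem _ hx) fun j => (hX j).mem n
  have hpw : ∀ n, X l n ^ p ∈ K := fun n => pow_mem ((hX l).mem n) _
  refine (T.dd_nul (p * J.1, p * J.2) (fun n => sub_mem (sub_mem (hpw n) (hph n)) (hf l))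
    hR).congr fun n => ?_
  rw [T.dd_sub _ (sub_mem (hpw n) (hph n)) (hf l), T.dd_sub _ (hpw n) (hph n),
    T.dd_frob J ((hX l).mem n), t.dd_ps T a _ _ fun j => (hX j).mem n]

end Tri

/-- The indices of the derived family. -/
def Sdd (d : ℕ) : Finset (ℕ × ℕ) := (Finset.range (d + 2) ×ˢ Finset.range (d + 2)).erase 0

theorem mem_Sdd {d : ℕ} {J : ℕ × ℕ} : J ∈ Sdd d ↔ J ≠ 0 ∧ J.1 < d + 2 ∧ J.2 < d + 2 := by
  rw [Sdd, Finset.mem_erase, Finset.mem_product, Finset.mem_range, Finset.mem_range]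

/-- **The degree induction.** -/
theorem Tri.deg (t : Tri v E K D P Th R c w) (T : Two7 p v pr E K y α D)
    (hstep : ∀ (κ : Type) [Fintype κ] (X : κ → ℕ → H) (f : κ → H) (a : κ → κ → ℕ → k) (d : ℕ),
      (∀ l, Cau v K (X l)) → (∀ l, f l ∈ K) →
      (∀ l, Nul v fun n => X l n ^ p -
        ps (fun l j => phT P Th (a l j)) l (fun j => X j n) - f l) →
      (∀ l, Bnd v D d (X l)) →
      (∀ l J, J ≠ 0 → InBL v K E (fun n => DD D J (X l n))) → ∀ l, InBL v K E (X l)) (d : ℕ) :
    ∀ (κ : Type) [Fintype κ] (X : κ → ℕ → H) (f : κ → H) (a : κ → κ → ℕ → k),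
      (∀ l, Cau v K (X l)) → (∀ l, f l ∈ K) →
      (∀ l, Nul v fun n => X l n ^ p -
        ps (fun l j => phT P Th (a l j)) l (fun j => X j n) - f l) →
      (∀ l, Bnd v D d (X l)) → ∀ l, InBL v K E (X l) := by
  classical
  induction d with
  | zero =>
    intro κ _ X f a hX hf hR hB
    refine hstep κ X f a 0 hX hf hR hB fun l J hJ => ?_
    have h0 : 0 < J.1 + J.2 := by
      rcases Nat.eq_zero_or_pos (J.1 + J.2) with h1 | h1
      · exact absurd (Prod.ext (by simp only [Prod.fst_zero]; omega)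
          (by simp only [Prod.snd_zero]; omega)) hJ
      · exact h1
    exact ⟨0, zero_mem K, fun _ => 0, Cau.const (zero_mem E),
      (hB l J h0).congr fun n => by rw [sub_zero, sub_zero]⟩
  | succ d ih =>
    intro κ _ X f a hX hf hR hB
    refine hstep κ X f a (d + 1) hX hf hR hB fun l J hJ => ?_
    by_cases hJS : J ∈ Sdd d
    swap
    · have h0 : d + 1 < J.1 + J.2 := by
        by_contra h1
        exact hJS (mem_Sdd.2 ⟨hJ, by omega, by omega⟩)
      exact ⟨0, zero_mem K, fun _ => 0, Cau.const (zero_mem E),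
        (hB l J h0).congr fun n => by rw [sub_zero, sub_zero]⟩
    -- the derived family
    let Z : κ × {J // J ∈ Sdd d} → ℕ → H := fun q n => DD D q.2.1 (X q.1 n)
    let pj : κ × {J // J ∈ Sdd d} → ℕ × ℕ := fun q => (p * q.2.1.1, p * q.2.1.2)
    let f' : κ × {J // J ∈ Sdd d} → H := fun q => DD D (pj q) (f q.1)
    let a' : κ × {J // J ∈ Sdd d} → κ × {J // J ∈ Sdd d} → ℕ → k := fun q q' =>
      if q'.2.1 ∈ R (pj q) then twc P c (a q.1 q'.1) (pj q) q'.2.1 else fun _ => 0
    have hpj : ∀ q, pj q ≠ 0 := by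
      intro q h0
      have h1 := (mem_Sdd.1 q.2.2).1
      have h2 : p * q.2.1.1 = 0 := congrArg Prod.fst h0
      have h3 : p * q.2.1.2 = 0 := congrArg Prod.snd h0
      have hp0 := hp.out.ne_zero
      exact h1 (Prod.ext ((Nat.mul_eq_zero.1 h2).resolve_left hp0)
        ((Nat.mul_eq_zero.1 h3).resolve_left hp0))
    have hsum : ∀ q, Nul v fun n => (∑ J' ∈ R (pj q),
        ps (fun l j => phT P Th (twc P c (a l j) (pj q) J')) q.1 fun j => DD D J' (X j n)) -
          ps (fun q q' => phT P Th (a' q q')) q (fun q' => Z q' n) := by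
      intro q
      have h1 : ∀ n, ps (fun q q' => phT P Th (a' q q')) q (fun q' => Z q' n) =
          ∑ J' ∈ (R (pj q)).filter (· ∈ Sdd d),
            ps (fun l j => phT P Th (twc P c (a l j) (pj q) J')) q.1
              fun j => DD D J' (X j n) := by
        intro n
        rw [ps, Fintype.sum_prod_type]
        have h2 : ∀ l' : κ, ∑ s : {J // J ∈ Sdd d}, phT P Th (a' q (l', s)) (Z (l', s) n) =
            ∑ J' ∈ (R (pj q)).filter (· ∈ Sdd d),
              phT P Th (twc P c (a q.1 l') (pj q) J') (DD D J' (X l' n)) := by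
          intro l'
          have h3 : ∀ s : {J // J ∈ Sdd d}, phT P Th (a' q (l', s)) (Z (l', s) n) =
              (fun J' => if J' ∈ R (pj q) then
                phT P Th (twc P c (a q.1 l') (pj q) J') (DD D J' (X l' n)) else 0) s.1 := by
            intro s
            simp only [a', Z]
            split_ifs
            · rfl
            · rw [phT_zero, LinearMap.zero_apply]
          rw [Finset.sum_congr rfl fun s _ => h3 s,
            Finset.sum_coe_sort (Sdd d) (fun J' => if J' ∈ R (pj q) then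
                phT P Th (twc P c (a q.1 l') (pj q) J') (DD D J' (X l' n)) else 0),
            ← Finset.sum_filter]
          refine Finset.sum_congr ?_ fun _ _ => rfl
          ext J'
          rw [Finset.mem_filter, Finset.mem_filter, and_comm]
        rw [Finset.sum_congr rfl fun l' _ => h2 l', Finset.sum_comm]
        rfl
      have h2 : Nul v fun n => ∑ J' ∈ (R (pj q)).filter (¬ · ∈ Sdd d),
            ps (fun l j => phT P Th (twc P c (a l j) (pj q) J')) q.1
              fun j => DD D J' (X j n) := by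
        refine TWC.Nul.sum _ _ fun J' hJ' => ?_
        have h3 := (Finset.mem_filter.1 hJ').2
        by_cases h0 : J' = 0
        · subst h0
          have h4 : (fun l j => phT P Th (twc P c (a l j) (pj q) 0)) =
              fun _ _ : κ => (0 : Module.End k H) := by
            funext l j
            have h5 : twc P c (a l j) (pj q) 0 = fun _ => 0 := by
              funext g
              rw [twc]
              exact Finset.sum_eq_zero fun g' _ => by rw [t.c0 g' _ (hpj q), mul_zero]
            rw [h5]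
            exact phT_zero P Th
          rw [h4]
          exact TWC.Nul.zero.congr fun n => (ps_zero_op _ _).symm
        · have h4 : d + 1 < J'.1 + J'.2 := by
            by_contra h1
            exact h3 (mem_Sdd.2 ⟨h0, by omega, by omega⟩)
          exact ps_nul (fun i j => t.phT_ge _) fun j => hB j J' h4
      refine h2.congr fun n => ?_
      rw [h1, ← Finset.sum_filter_add_sum_filter_not (R (pj q)) (· ∈ Sdd d)]
      ring
    have hZ : ∀ q, Nul v fun n => Z q n ^ p -
        ps (fun q q' => phT P Th (a' q q')) q (fun q' => Z q' n) - f' q := by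
      intro q
      refine ((t.dd_rel T hX hf (hR q.1) q.2.1).add (hsum q)).congr fun n => ?_
      simp only [Z, f', pj]
      ring
    exact ih (κ × {J // J ∈ Sdd d}) Z f' a' (fun q => cau_dd T _ (hX q.1))
      (fun q => T.dd_mem _ (hf q.1)) hZ
      (fun q => bnd_dd T (hX q.1).mem (hB q.1) (mem_Sdd.1 q.2.2).1) (l, ⟨J, hJS⟩)

/-- **The systems, from the step.** -/
theorem Tri.fv (t : Tri v E K D P Th R c w) (T : Two7 p v pr E K y α D)
    (hstep : ∀ (κ : Type) [Fintype κ] (X : κ → ℕ → H) (f : κ → H) (a : κ → κ → ℕ → k) (d : ℕ),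
      (∀ l, Cau v K (X l)) → (∀ l, f l ∈ K) →
      (∀ l, Nul v fun n => X l n ^ p -
        ps (fun l j => phT P Th (a l j)) l (fun j => X j n) - f l) →
      (∀ l, Bnd v D d (X l)) →
      (∀ l J, J ≠ 0 → InBL v K E (fun n => DD D J (X l n))) → ∀ l, InBL v K E (X l))
    {κ : Type} [Fintype κ] {X : κ → ℕ → H} {f : κ → H} {a : κ → κ → ℕ → k}
    (hX : ∀ l, Cau v K (X l)) (hf : ∀ l, f l ∈ K)
    (hR : ∀ l, Nul v fun n => X l n ^ p -
      ps (fun l j => phT P Th (a l j)) l (fun j => X j n) - f l) (l : κ) :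
    InBL v K E (X l) := by
  obtain ⟨d, hd⟩ := t.bdd T hX hf hR
  exact t.deg T hstep d κ X f a hX hf hR hd l

end Pool.Agent.TWHT
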