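import Pool.Agent.Lib.TWC.Lim

/-!
# TANK W, leaf (Ht): the equation `y ^ p = Φ y + q` over a perfect field

`E` perfect, `φ l j` operators of norm `≤ 0` on `E`, `q l` Cauchy sequences of `E`:
`exists_sol`: there are Cauchy sequences `y l` of `E` with `y_l ^ p - ∑ φ_lj y_j - q_l` null.
-/

set_option autoImplicit false
set_option linter.unusedSectionVars false

namespace Pool.Agent.TWHT

open Pool.Agent.H15JM (RVal)
open Pool.Agent.TWM Pool.Agent.TWC

universe u

section Sol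

variable {k Ω : Type u} [Field k] [Field Ω] [Algebra k Ω] {v : RVal Ω} {E : IntermediateField k Ω}
  (p : ℕ) [hp : Fact p.Prime] [CharP Ω p] {ι : Type*} [Fintype ι]

open Classical in
/-- the root in `E` -/
noncomputable def rtE (p : ℕ) (E : IntermediateField k Ω) (a : Ω) : Ω :=
  if h : ∃ b ∈ E, b ^ p = a then h.choose else 0

theorem rtE_mem (a : Ω) : rtE p E a ∈ E := by
  classical
  rw [rtE]
  split_ifs with h
  · exact h.choose_spec.1
  · exact zero_mem E

theorem rtE_pow (hE : ∀ a ∈ E, ∃ b ∈ E, b ^ p = a) {a : Ω} (ha : a ∈ E) : rtE p E a ^ p = a := by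
  classical
  have h := hE a ha
  rw [rtE, dif_pos h]
  exact h.choose_spec.2

theorem rtE_sub (hE : ∀ a ∈ E, ∃ b ∈ E, b ^ p = a) {a b : Ω} (ha : a ∈ E) (hb : b ∈ E) :
    rtE p E (a - b) = rtE p E a - rtE p E b := by
  have h1 : (rtE p E (a - b) - (rtE p E a - rtE p E b)) ^ p = 0 := by
    rw [sub_pow_char, sub_pow_char, rtE_pow p hE (sub_mem ha hb), rtE_pow p hE ha,
      rtE_pow p hE hb, sub_self]
  exact sub_eq_zero.1 (eq_zero_of_pow_eq_zero h1)

theorem rtE_ge (hE : ∀ a ∈ E, ∃ b ∈ E, b ^ p = a) {a : Ω} (ha : a ∈ E) {b : ℝ}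
    (h : v.Ge b a) : v.Ge (b / p) (rtE p E a) := by
  intro h0
  have h1 := rtE_pow p hE ha
  have h2 : a ≠ 0 := by
    rw [← h1]
    exact pow_ne_zero p h0
  have h3 := h h2
  rw [← h1, v.map_pow h0] at h3
  have h4 : (0 : ℝ) < p := by exact_mod_cast hp.out.pos
  rw [div_le_iff₀ h4]
  linarith

/-- the approximations -/
noncomputable def ApS (p : ℕ) (E : IntermediateField k Ω) (φ : ι → ι → Module.End k Ω) :
    ℕ → (ι → Ω) → ι → Ω
  | 0, _, _ => 0
  | m + 1, q, l => rtE p E (∑ j, φ l j (ApS p E φ m q j) + q l)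

variable (hE : ∀ a ∈ E, ∃ b ∈ E, b ^ p = a) {φ : ι → ι → Module.End k Ω}
  (hφm : ∀ l j, ∀ x ∈ E, φ l j x ∈ E)
  (hφ : ∀ l j, ∀ x ∈ E, ∀ b : ℝ, v.Ge b x → v.Ge b (φ l j x))

include hE hφm

theorem ApS_mem (m : ℕ) (q : ι → Ω) (l : ι) : ApS p E φ m q l ∈ E := by
  cases m with
  | zero => exact zero_mem E
  | succ m => exact rtE_mem p _

theorem ApS_rad {q : ι → Ω} (hq : ∀ l, q l ∈ E) (m : ℕ) (l : ι) :
    ∑ j, φ l j (ApS p E φ m q j) + q l ∈ E :=
  add_mem (sum_mem fun j _ => hφm l j _ (ApS_mem p hE hφm m q j)) (hq l)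

theorem ApS_sub {q q' : ι → Ω} (hq : ∀ l, q l ∈ E) (hq' : ∀ l, q' l ∈ E) (m : ℕ) (l : ι) :
    ApS p E φ m (fun j => q j - q' j) l = ApS p E φ m q l - ApS p E φ m q' l := by
  induction m generalizing l with
  | zero => exact (sub_zero (0 : Ω)).symm
  | succ m ih =>
    change rtE p E _ = rtE p E _ - rtE p E _
    rw [← rtE_sub p hE (ApS_rad p hE hφm hq m l) (ApS_rad p hE hφm hq' m l)]
    congr 1
    rw [add_sub_add_comm, ← Finset.sum_sub_distrib]
    congr 1
    refine Finset.sum_congr rfl fun j _ => ?_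
    rw [ih j, map_sub]

include hφ

theorem ApS_ge {q : ι → Ω} (hq : ∀ l, q l ∈ E) {b : ℝ} (hb : 0 ≤ b)
    (h : ∀ l, v.Ge (-b) (q l)) (m : ℕ) (l : ι) : v.Ge (-b) (ApS p E φ m q l) := by
  have hp1 : (1 : ℝ) ≤ p := by exact_mod_cast hp.out.one_lt.le
  induction m generalizing l with
  | zero => exact RVal.Ge.zero
  | succ m ih =>
    have h1 : v.Ge (-b) (∑ j, φ l j (ApS p E φ m q j) + q l) :=
      (RVal.Ge.sum _ _ fun j _ => hφ l j _ (ApS_mem p hE hφm m q j) _ (ih j)).add (h l)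
    refine (rtE_ge p hE (ApS_rad p hE hφm hq m l) h1).mono ?_
    rw [neg_div]
    exact neg_le_neg (div_le_self hb hp1)

theorem ApS_succ {q : ι → Ω} (hq : ∀ l, q l ∈ E) {b : ℝ} (hb : 0 ≤ b)
    (h : ∀ l, v.Ge (-b) (q l)) (m : ℕ) (l : ι) :
    v.Ge (-(b / (p : ℝ) ^ m)) (ApS p E φ (m + 1) q l - ApS p E φ m q l) := by
  induction m generalizing l with
  | zero =>
    rw [pow_zero, div_one]
    exact (ApS_ge p hE hφm hφ hq hb h 1 l).sub (ApS_ge p hE hφm hφ hq hb h 0 l)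
  | succ m ih =>
    have e : ApS p E φ (m + 1 + 1) q l - ApS p E φ (m + 1) q l =
        rtE p E (∑ j, φ l j (ApS p E φ (m + 1) q j - ApS p E φ m q j)) := by
      change rtE p E _ - rtE p E _ = _
      rw [← rtE_sub p hE (ApS_rad p hE hφm hq (m + 1) l) (ApS_rad p hE hφm hq m l)]
      congr 1
      rw [add_sub_add_right_eq_sub, ← Finset.sum_sub_distrib]
      exact Finset.sum_congr rfl fun j _ => (map_sub _ _ _).symm
    rw [e]
    have hm : ∀ j, ApS p E φ (m + 1) q j - ApS p E φ m q j ∈ E := fun j =>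
      sub_mem (ApS_mem p hE hφm _ q j) (ApS_mem p hE hφm _ q j)
    have h1 := rtE_ge p hE (v := v) (sum_mem fun j _ => hφm l j _ (hm j))
      (RVal.Ge.sum Finset.univ _ fun j _ => hφ l j _ (hm j) _ (ih j))
    have e2 : -(b / (p : ℝ) ^ (m + 1)) = -(b / (p : ℝ) ^ m) / p := by
      rw [neg_div, div_div, pow_succ]
    rw [e2]
    exact h1

theorem ApS_diff {q : ι → Ω} (hq : ∀ l, q l ∈ E) {b : ℝ} (hb : 0 ≤ b)
    (h : ∀ l, v.Ge (-b) (q l)) (m n : ℕ) (hmn : m ≤ n) (l : ι) :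
    v.Ge (-(b / (p : ℝ) ^ m)) (ApS p E φ n q l - ApS p E φ m q l) := by
  have hp1 : (1 : ℝ) ≤ p := by exact_mod_cast hp.out.one_lt.le
  induction n, hmn using Nat.le_induction with
  | base =>
    rw [sub_self]
    exact RVal.Ge.zero
  | succ n hn ih =>
    have e : ApS p E φ (n + 1) q l - ApS p E φ m q l =
        (ApS p E φ (n + 1) q l - ApS p E φ n q l) + (ApS p E φ n q l - ApS p E φ m q l) := by
      ring
    rw [e]
    refine ((ApS_succ p hE hφm hφ hq hb h n l).mono ?_).add ih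
    refine neg_le_neg (div_le_div_of_nonneg_left hb (by positivity) ?_)
    exact pow_le_pow_right₀ hp1 hn

/-- **The equation `y ^ p = Φ y + q`.** -/
theorem exists_sol {q : ι → ℕ → Ω} (hq : ∀ l, Cau v E (q l)) :
    ∃ y : ι → ℕ → Ω, (∀ l, Cau v E (y l)) ∧
      ∀ l, Nul v fun n => y l n ^ p - ∑ j, φ l j (y j n) - q l n := by
  classical
  have hp1 : (1 : ℝ) < p := by exact_mod_cast hp.out.one_lt
  -- the bound
  have hB : ∃ B : ℝ, 0 ≤ B ∧ ∃ N₀, ∀ n, N₀ ≤ n → ∀ l, v.Ge (-B) (q l n) := by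
    have h1 : ∀ l, ∃ N, ∀ m n, N ≤ m → N ≤ n → v.Ge (-1) (q l m - q l n) := fun l =>
      (hq l).cau 1 one_pos
    choose N hN using h1
    set N₀ := Finset.univ.sup N with hN₀
    refine ⟨1 + ∑ l, |v (q l N₀)|, by positivity, N₀, fun n hn l => ?_⟩
    have hl : N l ≤ N₀ := Finset.le_sup (f := N) (Finset.mem_univ l)
    have e : q l n = (q l n - q l N₀) + q l N₀ := by ring
    have h2 : |v (q l N₀)| ≤ ∑ l, |v (q l N₀)| :=
      Finset.single_le_sum (f := fun l => |v (q l N₀)|) (fun _ _ => abs_nonneg _)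
        (Finset.mem_univ l)
    rw [e]
    refine ((hN l n N₀ (hl.trans hn) hl).mono ?_).add ((RVal.ge_self _).mono ?_)
    · have : 0 ≤ ∑ l, |v (q l N₀)| := Finset.sum_nonneg fun _ _ => abs_nonneg _
      linarith
    · have h3 := neg_abs_le (v (q l N₀))
      linarith
  obtain ⟨B, hB0, N₀, hB⟩ := hB
  have hqm : ∀ n l, q l n ∈ E := fun n l => (hq l).mem n
  refine ⟨fun l n => ApS p E φ n (fun j => q j n) l, fun l => ⟨fun n =>
    ApS_mem p hE hφm n _ l, fun ε hε => ?_⟩, fun l ε hε => ?_⟩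
  · have h1 : ∀ l, ∃ N, ∀ m n, N ≤ m → N ≤ n → v.Ge (-ε) (q l m - q l n) := fun l =>
      (hq l).cau ε hε
    choose N hN using h1
    obtain ⟨M, hM⟩ := pow_unbounded_of_one_lt (B / ε) hp1
    have hM' : ∀ n, M ≤ n → B / (p : ℝ) ^ M ≤ ε := by
      intro n _
      rw [div_lt_iff₀ hε] at hM
      rw [div_le_iff₀ (by positivity)]
      linarith
    refine ⟨max (max M N₀) (Finset.univ.sup N), fun m n hm hn => ?_⟩
    have hmM : M ≤ m := (le_max_left _ _).trans ((le_max_left _ _).trans hm)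
    have hnM : M ≤ n := (le_max_left _ _).trans ((le_max_left _ _).trans hn)
    have hm0 : N₀ ≤ m := (le_max_right _ _).trans ((le_max_left _ _).trans hm)
    have hn0 : N₀ ≤ n := (le_max_right _ _).trans ((le_max_left _ _).trans hn)
    have hd : ∀ l, v.Ge (-ε) (q l m - q l n) := fun l =>
      hN l m n ((Finset.le_sup (f := N) (Finset.mem_univ l)).trans ((le_max_right _ _).trans hm))
        ((Finset.le_sup (f := N) (Finset.mem_univ l)).trans ((le_max_right _ _).trans hn))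
    have e : ApS p E φ m (fun j => q j m) l - ApS p E φ n (fun j => q j n) l =
        (ApS p E φ m (fun j => q j m) l - ApS p E φ M (fun j => q j m) l) +
        ApS p E φ M (fun j => q j m - q j n) l -
        (ApS p E φ n (fun j => q j n) l - ApS p E φ M (fun j => q j n) l) := by
      rw [ApS_sub p hE hφm (hqm m) (hqm n)]
      ring
    rw [e]
    refine RVal.Ge.sub (RVal.Ge.add ?_ ?_) ?_
    · exact (ApS_diff p hE hφm hφ (hqm m) hB0 (hB m hm0) M m hmM l).mono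
        (neg_le_neg (hM' m hmM))
    · exact ApS_ge p hE hφm hφ (fun l => sub_mem (hqm m l) (hqm n l)) hε.le hd M l
    · exact (ApS_diff p hE hφm hφ (hqm n) hB0 (hB n hn0) M n hnM l).mono
        (neg_le_neg (hM' n hnM))
  · obtain ⟨M, hM⟩ := pow_unbounded_of_one_lt (B / ε) hp1
    refine ⟨max (M + 1) N₀, fun n hn => ?_⟩
    have hn1 : M + 1 ≤ n := (le_max_left _ _).trans hn
    have hn0 : N₀ ≤ n := (le_max_right _ _).trans hn
    obtain ⟨n', rfl⟩ : ∃ n', n = n' + 1 := ⟨n - 1, by omega⟩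
    have hr : ApS p E φ (n' + 1) (fun j => q j (n' + 1)) l ^ p =
        ∑ j, φ l j (ApS p E φ n' (fun j => q j (n' + 1)) j) + q l (n' + 1) :=
      rtE_pow p hE (ApS_rad p hE hφm (hqm (n' + 1)) n' l)
    have e : ApS p E φ (n' + 1) (fun j => q j (n' + 1)) l ^ p -
        ∑ j, φ l j (ApS p E φ (n' + 1) (fun j => q j (n' + 1)) j) - q l (n' + 1) =
        -∑ j, φ l j (ApS p E φ (n' + 1) (fun j => q j (n' + 1)) j -
          ApS p E φ n' (fun j => q j (n' + 1)) j) := by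
      rw [hr]
      simp only [map_sub, Finset.sum_sub_distrib]
      ring
    beta_reduce
    rw [e]
    refine RVal.Ge.neg (RVal.Ge.sum _ _ fun j _ => hφ l j _ (sub_mem
      (ApS_mem p hE hφm _ _ j) (ApS_mem p hE hφm _ _ j)) _ ?_)
    refine (ApS_succ p hE hφm hφ (hqm (n' + 1)) hB0 (hB (n' + 1) hn0) n' j).mono
      (neg_le_neg ?_)
    have h1 : (p : ℝ) ^ M ≤ (p : ℝ) ^ n' := pow_le_pow_right₀ hp1.le (by omega)
    rw [div_lt_iff₀ hε] at hM
    rw [div_le_iff₀ (by positivity)]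
    nlinarith

end Sol

end Pool.Agent.TWHT
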