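import Pool.Agent.Lib.TWHT.N8h
import Pool.Agent.Lib.TWHT.N9
import Pool.Agent.Lib.TWHT.IntJ
import Pool.Agent.Lib.TWHT.SolP

/-!
# TANK W, leaf (Ht), FV(a_1, a_2), the second letter moved: the end

* `Tri.d1_ps`, `DatN.beta1`: the letter `1`, whose jets commute with the operators;
* `endC`: the solutions, from the gauge, the integration in the letter `1`, the solution of
  `y ^ p = Φ y + Q(F) y_1` in the limits of `E`, and `FV(y_0)` (hypothesis `hR1`);
* **`fv_tri`**: the systems over `K = E<y_0, y_1>`.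
-/

set_option autoImplicit false
set_option linter.unusedSectionVars false

open Polynomial

namespace Pool.Agent.TWHT

open Pool.Agent.H15JM (RVal)
open Pool.Agent.D2 (Ctx0)
open Pool.Agent.TWM
open Pool.Agent.TWC (Nul Cau eq_of_ge InBL Opr fn MM CauS cls Oper NSD)
open Pool.Agent.TWIV

universe u

variable {k H : Type u} [Field k] [Field H] [Algebra k H] {v : RVal H} [hk : Fact (Ctx0 k v)]
  {E K : IntermediateField k H} {D : Fin 2 → ℕ → H → H} {P : ℕ}
  {Th : ℕ → Module.End k H} {R : ℕ × ℕ → Finset (ℕ × ℕ)} {c : ℕ → ℕ × ℕ → ℕ × ℕ → k} {w : ℕ}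
  {p : ℕ} [hp : Fact p.Prime] [CharP H p] [PerfectRing H p]
  [IsAlgClosed H] {A : Type*} [AddCommGroup A] {pr : A → H →ₗ[k] H} {y : ℕ → H} {α : ℕ → A}
  {κ : Type*} [Fintype κ]

section Letter

variable (T : Two7 p v pr E K y α D) (t : Tri v E K D P Th R c w)

include T t

/-- The jets in the letter `1` commute with the operators. -/
theorem Tri.d1_phT (a : ℕ → k) (m : ℕ) {x : H} (hx : x ∈ K) :
    D 1 m (phT P Th a x) = phT P Th a (D 1 m x) := by
  rw [phT_apply, phT_apply, (T.jx 1).sum _ _ _ fun g _ => K.smul_mem (t.mem g x hx)]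
  refine Finset.sum_congr rfl fun g hg => ?_
  rw [(T.jx 1).smul _ _ _ (t.mem g x hx), t.let1 g (Finset.mem_range.1 hg) m x hx]

theorem Tri.d1_ps (a : κ → κ → ℕ → k) (m : ℕ) (l : κ) {x : κ → H} (hx : ∀ j, x j ∈ K) :
    D 1 m (ps (fun l j => phT P Th (a l j)) l x) =
      ps (fun l j => phT P Th (a l j)) l fun j => D 1 m (x j) := by
  rw [ps, ps, (T.jx 1).sum _ _ _ fun j _ => t.phT_mem _ (hx j)]
  exact Finset.sum_congr rfl fun j _ => t.d1_phT T _ m (hx j)

theorem Tri.it1_ps (a : κ → κ → ℕ → k) (i m : ℕ) (l : κ) {x : κ → H} (hx : ∀ j, x j ∈ K) :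
    (Dx p D (1, i))^[m] (ps (fun l j => phT P Th (a l j)) l x) =
      ps (fun l j => phT P Th (a l j)) l fun j => (Dx p D (1, i))^[m] (x j) := by
  induction m with
  | zero => rfl
  | succ m ih =>
    simp only [Function.iterate_succ_apply']
    rw [ih]
    exact t.d1_ps T a _ l fun j => T.it_mem (1, i) m (hx j)

variable {a : κ → κ → ℕ → k} {X : κ → ℕ → H} {f : κ → H} {b : κ → Fin 2 × ℕ → H} {N : ℕ}
  (G : DatN p v E K D (fun l j => phT P Th (a l j)) X f b (fun _ _ _ => 0) N)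

include G

/-- `r_(1, i + 1)` is integral. -/
theorem rr1_ge (l : κ) (i : ℕ) :
    v.Ge 0 (DatN.rr p D (fun l j => phT P Th (a l j)) f b l (1, i + 1)) := by
  have hge : ∀ i j : κ, ∀ (x : H) (s : ℝ), v.Ge s x → v.Ge s (phT P Th (a i j) x) :=
    fun i j => t.phT_ge _
  have hph : ∀ n, ps (fun l j => phT P Th (a l j)) l (fun j => X j n) ∈ K := fun n =>
    ps_mem (fun i j x hx => t.phT_mem _ hx) fun j => (G.cX j).mem n
  have hpw : ∀ n, X l n ^ p ∈ K := fun n => pow_mem ((G.cX l).mem n) _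
  have h1 := T.dx_nul (1, i + 1) (fun n => sub_mem (sub_mem (hpw n) (hph n)) (G.mf l)) (G.rel l)
  have h2 : Nul v fun n => ps (fun l j => phT P Th (a l j)) l
      (fun j => Dx p D (1, i + 1) (X j n) - b j (1, i + 1) - 0) :=
    ps_nul hge fun j => G.spl j (1, i + 1)
  have h3 : Nul v fun n => (Dx p D (1, i) (X l n) - b l (1, i) - 0) ^ p :=
    TWC.Nul.pow (G.spl l (1, i)) p
  refine TWC.Nul.const (((h3.sub h2).sub h1).congr fun n => ?_)
  have e1 : Dx p D (1, i + 1) (X l n ^ p) = Dx p D (1, i) (X l n) ^ p :=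
    T.dx_pow (1, i + 1) ((G.cX l).mem n)
  have e2 : Dx p D (1, i + 1) (ps (fun l j => phT P Th (a l j)) l (fun j => X j n)) =
      ps (fun l j => phT P Th (a l j)) l (fun j => Dx p D (1, i + 1) (X j n)) :=
    t.d1_ps T a _ l fun j => (G.cX j).mem n
  have e3 : pv (b l) (1, i + 1) = b l (1, i) := rfl
  rw [T.dx_sub _ (sub_mem (hpw n) (hph n)) (G.mf l), T.dx_sub _ (hpw n) (hph n), e1, e2]
  simp only [sub_zero]
  rw [ps_sub, sub_pow_char, DatN.rr, e3]
  ring

/-- `D_x ^ (p - 1) b_x > 0` for the letter `1`. -/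
theorem DatN.beta1 (l : κ) (i : ℕ) : Gt v 0 ((Dx p D (1, i))^[p - 1] (b l (1, i))) := by
  have hp1 : 1 ≤ p - 1 := by
    have := hp.out.two_le
    omega
  have hge : ∀ i j : κ, ∀ (x : H) (s : ℝ), v.Ge s x → v.Ge s (phT P Th (a i j) x) :=
    fun i j => t.phT_ge _
  suffices key : ∀ d i : ℕ, N ≤ i + d → ∀ l,
      Gt v 0 ((Dx p D (1, i))^[p - 1] (b l (1, i))) from key N i (Nat.le_add_left _ _) l
  intro d
  induction d with
  | zero =>
    intro i hi l
    rw [G.zb l (1, i) hi]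
    exact T.it_gt (1, i) hp1 (zero_mem K) RVal.Ge.zero
  | succ d ih =>
    intro i hi l
    have h1 := rr1_ge T t G l i
    have h3 : ps (fun l j => phT P Th (a l j)) l (fun j => b j (1, i + 1)) ∈ K :=
      ps_mem (fun i j x hx => t.phT_mem _ hx) fun j => G.mb j _
    have h4 : Dx p D (1, i + 1) (f l) ∈ K := T.dx_mem _ (G.mf l)
    have h5 : b l (1, i) ^ p ∈ K := pow_mem (G.mb l _) p
    have e1 : DatN.rr p D (fun l j => phT P Th (a l j)) f b l (1, i + 1) =
        ps (fun l j => phT P Th (a l j)) l (fun j => b j (1, i + 1)) +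
        Dx p D (1, i + 1) (f l) - b l (1, i) ^ p := rfl
    have h2 := T.it_gt (1, i + 1) hp1 (e1 ▸ sub_mem (add_mem h3 h4) h5 :
      DatN.rr p D (fun l j => phT P Th (a l j)) f b l (1, i + 1) ∈ K) h1
    have hd' := t.it1_ps T a (i + 1) (p - 1) l (x := fun j => b j (1, i + 1)) fun j => G.mb j _
    have h6 : (Dx p D (1, i + 1))^[p - 1] (Dx p D (1, i + 1) (f l)) = 0 := by
      have h7 := T.it_p (1, i + 1) (G.mf l)
      have h8 : p = (p - 1) + 1 := by omega
      rw [← Function.iterate_succ_apply, Nat.succ_eq_add_one, ← h8]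
      exact h7
    rw [e1, T.it_sub _ _ (add_mem h3 h4) h5, T.it_add _ _ h3 h4, hd', h6, add_zero,
      T.it_pow 1 i (p - 1) (G.mb l _)] at h2
    have h7 : Gt v 0 (ps (fun l j => phT P Th (a l j)) l
        fun j => (Dx p D (1, i + 1))^[p - 1] (b j (1, i + 1))) :=
      ps_gt hge fun j => ih (i + 1) (by omega) j
    have h8 : Gt v (p * (0 : ℝ)) (((Dx p D (1, i))^[p - 1] (b l (1, i))) ^ p) := by
      rw [mul_zero]
      refine (congrArg (Gt v 0) ?_).mp (h7.sub h2)
      ring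
    exact TWM.gt_of_pow (p := p) h8

end Letter

/-- The systems over `F` with operators `∑ a g • Th g`: the solutions are in `F + L(E)`. -/
def FVT (p : ℕ) (v : RVal H) (P : ℕ) (Th : ℕ → Module.End k H) (E F : IntermediateField k H) :
    Prop :=
  ∀ (κ : Type) [Fintype κ] (X : κ → ℕ → H) (f : κ → H) (a : κ → κ → ℕ → k),
    (∀ l, Cau v F (X l)) → (∀ l, f l ∈ F) →
    (∀ l, Nul v fun n => X l n ^ p -
      ps (fun l j => phT P Th (a l j)) l (fun j => X j n) - f l) → ∀ l, InBL v F E (X l)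

/-- **The end.** -/
theorem endC (T : Two7 p v pr E K y α D) (t : Tri v E K D P Th R c w)
    (hperf : ∀ a ∈ E, ∃ b ∈ E, b ^ p = a)
    (hF : ∀ g, ∀ x ∈ cadj v E (y 0), Th g x ∈ cadj v E (y 0))
    (hR1 : FVT p v P Th E (cadj v E (y 0))) {κ : Type} [Fintype κ]
    {a : κ → κ → ℕ → k} {X : κ → ℕ → H} {f : κ → H} {b : κ → Fin 2 × ℕ → H} {N : ℕ}
    (G : DatN p v E K D (fun l j => phT P Th (a l j)) X f b (fun _ _ _ => 0) N)
    (hs : ∀ l x z, Gt v 0 (Dx p D z (b l x) - Dx p D x (b l z))) (l : κ) :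
    InBL v K E (X l) := by
  classical
  set F : IntermediateField k H := cadj v E (y 0) with hFdef
  have hFo : Fo v E y 1 = F := rfl
  have hEF : E ≤ F := T.leE 1
  have hFK : F ≤ K := T.le 1
  have hge : ∀ i j : κ, ∀ (x : H) (s : ℝ), v.Ge s x → v.Ge s (phT P Th (a i j) x) :=
    fun i j => t.phT_ge _
  have hmK : ∀ i j : κ, ∀ x ∈ K, phT P Th (a i j) x ∈ K := fun i j x hx => t.phT_mem _ hx
  have hmF : ∀ i j : κ, ∀ x ∈ F, phT P Th (a i j) x ∈ F := fun i j x hx => by
    rw [phT_apply]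
    exact sum_mem fun g _ => F.smul_mem (hF g x hx)
  have j1 := T.jx 1
  -- the integration in the letter `1`
  have h1 : ∀ l, ∃ g ∈ K, ∀ i, Gt v 0 (D 1 (p ^ i) g - b l (1, i)) := fun l =>
    int1_of_jtX (T.jx 1) (T.t1 1) T.K1 (N := N) (b := fun i => b l (1, i)) (fun i => G.mb l _)
      (fun i hi => G.zb l (1, i) hi) (fun i j => hs l (1, i) (1, j)) fun i =>
        DatN.beta1 T t G l i
  choose g hg hg1 using h1
  have hX1 : ∀ l, Cau v K fun n => X l n - g l := fun l => (G.cX l).sub (Cau.const (hg l))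
  have h2 : ∀ l, ∃ m, Cau v F m ∧ Nul v fun n => X l n - g l - m n := fun l =>
    const_step (p := p) (D := D 1) (T.t1 1) T.K1 le_rfl j1.add j1.norm j1.poly (hX1 l)
      fun i => by
        have h3 : Nul v fun _ : ℕ => D 1 (p ^ i) (g l) - b l (1, i) :=
          TWC.Nul.of_ge fun _ => (hg1 l i).ge
        refine ((G.spl l (1, i)).sub h3).congr fun n => ?_
        rw [j1.sub _ ((G.cX l).mem n) (hg l)]
        simp only [Dx]
        ring
  choose m hm hm1 using h2
  -- the system of the `m l`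
  set ec : κ → H := fun l => f l + ps (fun l j => phT P Th (a l j)) l (fun j => g j) - g l ^ p
    with hec
  have hecK : ∀ l, ec l ∈ K := fun l =>
    sub_mem (add_mem (G.mf l) (ps_mem hmK fun j => hg j)) (pow_mem (hg l) p)
  have hms : ∀ l, Nul v fun n => m l n ^ p -
      ps (fun l j => phT P Th (a l j)) l (fun j => m j n) - ec l := by
    intro l
    have h3 : Nul v fun n => (X l n - g l - m l n) ^ p := TWC.Nul.pow (hm1 l) p
    have h4 : Nul v fun n => ps (fun l j => phT P Th (a l j)) l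
        (fun j => X j n - g j - m j n) := ps_nul hge hm1
    refine (((G.rel l).sub h3).add h4).congr fun n => ?_
    rw [ps_sub, ps_sub, sub_pow_char, sub_pow_char]
    simp only [hec]
    ring
  have hecl : ∀ l, Lim v F 0 (ec l) := fun l =>
    TWC.Lim.of_nul (m := fun n => m l n ^ p -
      ps (fun l j => phT P Th (a l j)) l (fun j => m j n))
      (fun n => sub_mem (pow_mem ((hm l).mem n) p) (ps_mem hmF fun j => (hm j).mem n))
      ((hms l).neg.congr fun n => by ring)
  have h3 : ∀ l, ∃ e ∈ F, ∃ (n : ℕ) (q : ℕ → k), Gt v 0 (ec l - (e +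
      ∑ i ∈ Finset.range n, algebraMap k H (q i) * y 1 ^ p ^ i)) := fun l =>
    TWC.germ_res hk.out (T.t1 1) p (T.K1 ▸ hecK l) (hecl l)
  choose e he n1 q hq using h3
  -- the solution in the limits of `E`
  obtain ⟨s, hs1, hs2⟩ := TWC.Lim.exists_cau (T.lim 1)
  set Q : κ → ℕ → H := fun l n => ∑ i ∈ Finset.range (n1 l), algebraMap k H (q l i) * s n ^ p ^ i
    with hQ
  have hQc : ∀ l, Cau v E (Q l) := by
    intro l
    have h4 := (∑ i ∈ Finset.range (n1 l), q l i • (⟨fun n => s n ^ p ^ i,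
      hs1.pow_pow p i⟩ : CauS v E) : CauS v E).2
    refine (congrArg (Cau v E) ?_).mp h4
    funext n
    rw [Submodule.coe_sum, Finset.sum_apply, hQ]
    refine Finset.sum_congr rfl fun i _ => ?_
    rw [Submodule.coe_smul, Pi.smul_apply, Algebra.smul_def]
  obtain ⟨z, hz, hz1⟩ := exists_sol p hperf (v := v) (φ := fun l j => phT P Th (a l j))
    (fun l j x hx => t.phT_memE _ hx) (fun l j x _ s hx => hge l j x s hx) hQc
  have hQn : ∀ l, Nul v fun n => ec l - Q l n - e l := by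
    intro l
    have h4 : Nul v fun _ : ℕ => ec l - (e l +
        ∑ i ∈ Finset.range (n1 l), algebraMap k H (q l i) * y 1 ^ p ^ i) :=
      TWC.Nul.of_ge fun _ => (hq l).ge
    have h5 : Nul v fun n => ∑ i ∈ Finset.range (n1 l),
        algebraMap k H (q l i) * (y 1 - s n) ^ p ^ i :=
      TWC.Nul.sum _ _ fun i _ => TWC.Nul.mul_ge (TWC.Nul.pow hs2 (p ^ i)) fun _ => hk.out.ge _
    refine (h4.add h5).congr fun n => ?_
    have h6 : ∑ i ∈ Finset.range (n1 l), algebraMap k H (q l i) * (y 1 - s n) ^ p ^ i =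
        (∑ i ∈ Finset.range (n1 l), algebraMap k H (q l i) * y 1 ^ p ^ i) - Q l n := by
      rw [hQ, ← Finset.sum_sub_distrib]
      refine Finset.sum_congr rfl fun i _ => ?_
      rw [sub_pow_char_pow]
      ring
    rw [h6]
    ring
  -- `FV(y_0)`
  have hZ := hR1 κ (fun l n => m l n - z l n) e a
    (fun l => (hm l).sub ⟨fun n => hEF ((hz l).mem n), (hz l).cau⟩) he (fun l => by
      have h4 := hz1 l
      refine (((hms l).sub h4).add (hQn l)).congr fun n => ?_
      rw [ps_sub, sub_pow_char]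
      simp only [ps]
      ring)
  obtain ⟨b0, hb0, m0, hm0, h4⟩ := hZ l
  refine ⟨g l + b0, add_mem (hg l) (hFK hb0), fun n => m0 n + z l n,
    hm0.add (hz l), ((hm1 l).add h4).congr fun n => ?_⟩
  ring

/-- **The systems over `K = E<y_0, y_1>`, the second letter moved.** -/
theorem fv_tri [CharP k p] [PerfectRing k p] (T : Two7 p v pr E K y α D)
    (t : Tri v E K D P Th R c w) (hP : 0 < P) {C₀ : IntermediateField k H}
    {T₀ : Submodule k (Opr v E)} {ψ : ℕ → Opr v E} {η : ℕ → H} (hr : RepT v E P Th T₀ ψ η)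
    (h : Oper p v C₀ E T₀) (hV : NSD p h)
    (hF : ∀ g, ∀ x ∈ cadj v E (y 0), Th g x ∈ cadj v E (y 0))
    (hR1 : FVT p v P Th E (cadj v E (y 0))) : FVT p v P Th E K := by
  intro κ _ X f a hX hf hR l
  refine t.fv T (fun κ _ X f a d hX hf hR hB hJ l => ?_) hX hf hR l
  obtain ⟨b', M, G, hs⟩ := gauge_step T t hP hr h hV hX hf hR hB hJ
  exact endC T t h.perf hF hR1 G hs l

end Pool.Agent.TWHT
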