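import Pool.Agent.Lib.TWC.PrNil

/-!
# TANK W, leaf (Ht): nilpotency on the classes over every stable field

* `NilpB v T L LE`: as `NilpC`, the images have finite dimension modulo `B + O(0)` for every stable
  field `B`;
* `nilpB_of_match`, `PDat.nilpB`: existence.
-/

set_option autoImplicit false

open Polynomial

namespace Pool.Agent.TWHT

open Pool.Agent.H15JM (RVal)
open Pool.Agent.D2 (Ctx0)
open Pool.Agent.D2P (hen clI mem_clI)
open Pool.Agent.TWM
open Pool.Agent.TWC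
open Pool.Agent.TWC.Key (hd ev sp lf)

universe u

variable {k Ω : Type u} [Field k] [Field Ω] [Algebra k Ω] {v : RVal Ω} [hcx : Fact (Ctx0 k v)]
  {C E L LE B : IntermediateField k Ω} {T : Submodule k (Opr v E)} {G : Set (Opr v E)}
  {D : Set (Opr v LE)}

/-- The operators are nilpotent on the limits of a stable field, modulo this field and `O(0)`, with
images of finite dimension. -/
structure NilpB (v : RVal Ω) [Fact (Ctx0 k v)] {E : IntermediateField k Ω}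
    (T : Submodule k (Opr v E)) (L LE : IntermediateField k Ω) : Prop where
  nil : ∀ B : IntermediateField k Ω, Cld v B → E ≤ B → B ≤ LE →
    (∀ φ ∈ T, ∀ Φ : Opr v LE, IsExt L φ Φ → ∀ b ∈ B, fn Φ b ∈ B) →
    ∀ x ∈ LE, Lim v B 0 x → ∃ m, KilB T L LE B m x
  fd : ∀ B : IntermediateField k Ω, Cld v B → E ≤ B → B ≤ LE →
    (∀ φ ∈ T, ∀ Φ : Opr v LE, IsExt L φ Φ → ∀ b ∈ B, fn Φ b ∈ B) →
    ∀ x ∈ LE, Lim v B 0 x → ∃ (n : ℕ) (s : Fin n → Ω), ∀ φ ∈ T, ∀ Φ : Opr v LE,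
      IsExt L φ Φ → ∃ c : Fin n → k, Nr v B 0 (fn Φ x - ∑ i, algebraMap k Ω (c i) * s i)

theorem NilpB.toC (h : NilpB v T L LE) (hE : Cld v E) (hEL : E ≤ LE) : NilpC v T L LE where
  nil := h.nil
  fd x hx hl := h.fd E hE le_rfl hEL (stab_base hEL) x hx hl

/-- **Nilpotency of the classes.** -/
theorem nilpB_of_match (hM : MatchG v L G D) (hT : T = adjT G) (hD : DExt v T L LE) :
    NilpB v T L LE := by
  classical
  refine ⟨(nilpC_of_match hM hT hD).nil, fun B _ hEB hBL hst x hx hl => ?_⟩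
  obtain ⟨S, hS, h1⟩ := wd_fin hM hx
  have hxZ : x ∈ Zd v LE B D x 0 := by
    refine ⟨hx, x, Submodule.subset_span ⟨[], by simp, by simp, ?_⟩, ?_⟩
    · rw [List.prod_nil, fn_opr_one hx]
    · rw [sub_self]; exact nr_zero'
  obtain ⟨n, s, rfl⟩ : ∃ (n : ℕ) (s : Fin n → Ω), S = Set.range s := by
    refine ⟨hS.toFinset.card, fun i => (hS.toFinset.equivFin.symm i : Ω), ?_⟩
    ext y
    constructor
    · intro hy
      exact ⟨hS.toFinset.equivFin ⟨y, hS.mem_toFinset.2 hy⟩, by simp⟩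
    · rintro ⟨i, rfl⟩
      exact hS.mem_toFinset.1 (hS.toFinset.equivFin.symm i).2
  refine ⟨n, s, fun φ hφ Φ hΦ => ?_⟩
  obtain ⟨-, y, hy, h2⟩ := opr_zd hM hT hD hEB hBL hst hx hl hφ hΦ hxZ
  obtain ⟨t, ht, h3⟩ := h1 y (wd_anti (Nat.zero_le _) hy)
  obtain ⟨c, rfl⟩ := (Submodule.mem_span_range_iff_exists_fun k).1 ht
  refine ⟨c, ?_⟩
  have e1 : fn Φ x - ∑ i, algebraMap k Ω (c i) * s i =
      (fn Φ x - y) + (y - ∑ i, c i • s i) := by
    simp only [Algebra.smul_def]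
    ring
  rw [e1]
  exact Nr.add h2 ⟨0, zero_mem B, by rwa [sub_zero]⟩

section Ops

variable {m : ℕ} {p : ℕ} [hp : Fact p.Prime] [CharP Ω p] {C E L : IntermediateField k Ω}
  {u M : ℕ → Fin m → Ω} {rho : Fin m → ℝ}

/-- **The operators of a pair are nilpotent on the classes.** -/
theorem _root_.Pool.Agent.TWC.PDat.nilpB (hc : CompleteV v) (h : PDat p v C L E u M rho) :
    NilpB v (adjT (genW p v C E u M)) L (clI v (L ⊔ E)) := by
  choose c hcC hcM using h.con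
  have hcL : ∀ n l, c n l ∈ L := fun n l => h.le (hcC n l)
  have hval : ∀ n l, v (c n l) = rho l / p ^ n := by
    intro n l
    have h1 : Gt v (v (M n l)) (M n l - c n l) := by
      rw [h.val, ← neg_sub]
      exact (hcM n l).neg
    rw [(h1.val_eq (h.ne n l)).2, h.val]
  have hdL := h.dnsN h.le
  have hdx := h.dext hc
  have huL : ∀ n l, u n l ∈ clI v (L ⊔ E) := fun n l => h.leE (h.mem n l)
  refine nilpB_of_match (MatchG.of_mat (D := genN p v L (clI v (L ⊔ E)) u c) ?_ ?_ ?_ ?_) rfl hdx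
  · rintro φ ⟨n, F, -, -, h1⟩ ψ ⟨n', G, -, -, h2⟩
    exact h1.comm h.root h.leL huL hdL hcL h2
  · rintro φ ⟨n, F, ⟨l, hl⟩, -, h1⟩
    exact ⟨p, h1.pow_eq_zero h.root h.leL huL hdL hcL ⟨l, fun h0 => hl (h0 ▸ dvd_zero p)⟩⟩
  · intro x hx
    exact genN_fin h.root hdL hx 0
  · rintro φ ⟨n, F, hF0, hF, hφ⟩ Φ hΦ
    obtain ⟨n', j, F', rfl, rfl, h3, h4⟩ := exists_normal hF0 hF
    have hφ' := hφ.coarser h.root h.rootM
    obtain ⟨Ψ, hΨ⟩ := exists_W (M := c) hc h.root hval (fun n l => h.leL (hcL n l)) h.norm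
      (cld_clI v _) h.leL huL hdL n' F' h4
    obtain ⟨Φ', hΦ'⟩ := h.exL hc n' F' h4
    have hE : mW c n' F' / mW M n' F' ∈ E := div_mem (mW_mem (fun n l => h.CE (hcC n l)) _ _)
      (mW_mem h.memM _ _)
    have hu := h.unit_mW hcM n' F'
    refine ⟨Ψ, ⟨n', F', h3, h4, hΨ⟩, _, hE, hu, fun y hy => ?_⟩
    rw [hΦ.uniq hdx (h.isExt hφ' hΦ') hy]
    refine eq_of_ge (v := v) fun b => ?_
    obtain ⟨_, ⟨N, f, rfl⟩, hf, h5⟩ := hdL y hy b
    have h6 : fn Ψ (ev (u N) f) = mW c n' F' / mW M n' F' * fn Φ' (ev (u N) f) := by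
      rw [hΨ.apply h.root, hΦ'.apply h.root, ← mul_assoc, div_mul_cancel₀ _ (mW_ne h.ne n' F')]
    have e1 : fn Ψ y - mW c n' F' / mW M n' F' * fn Φ' y = (fn Ψ y - fn Ψ (ev (u N) f)) -
        mW c n' F' / mW M n' F' * (fn Φ' y - fn Φ' (ev (u N) f)) := by
      rw [h6]
      ring
    rw [e1]
    have h7 := (ge_one_unit hu).mul (fn_near Φ' hy hf h5)
    rw [zero_add] at h7
    exact (fn_near Ψ hy hf h5).sub h7

end Ops

end Pool.Agent.TWHT
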