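import Pool.Agent.Lib.TWC.MainW
import Pool.Agent.Lib.TWIV.Ingl
import Pool.Agent.Lib.TWHT.N7a

/-!
# TANK W, leaf (Ht), row H0: the instance

`x` tight in the closed fields `W ≤ L`, of the same level `r`, `E = EW v W x` perfect, `L E` immediate
over `E`.

* `isoL_one`, `ew_adj_one`, `imm_one`, `perf_one`;
* **`exists_data1`**: the monomials `M`, `PBase` and `PDat` for `PM v W G M`, `PM v L G M`,
  `PM v E G M`, with the constants `M (r / p ^ n)`;
* `genL`: the operators `IsW` over `L`, of positive order; **`exists_nx`**: their `L`-linear extensions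
  to `Ω`, with norm `≤ 0`, and the structure `NX`.
-/

set_option autoImplicit false
set_option linter.unusedSectionVars false

open Polynomial

namespace Pool.Agent.TWHT

open Pool.Agent.H15JM (RVal)
open Pool.Agent.LU1 (VPos adj)
open Pool.Agent.D2 (Ctx0)
open Pool.Agent.D2P (clI mem_clI)
open Pool.Agent.TWM
open Pool.Agent.TWS
open Pool.Agent.TWC
open Pool.Agent.TWIV (OpX exists_opX)
open Pool.Agent.TWC.Key (hd ev sp lf)

universe u

variable {k Ω : Type u} [Field k] [Field Ω] [Algebra k Ω] {v : RVal Ω}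
  {W L C E : IntermediateField k Ω} {x : ℕ → Ω} {r : ℝ} {p : ℕ}

/-- A tight element. -/
theorem isoL_one (h : Tgt p v L x r) : IsoL p v L (fun n => ![x n]) ![r] where
  cld := h.cld
  mem := by
    intro l
    fin_cases l
    exact h.mem
  root := by
    intro n l
    fin_cases l
    exact h.root n
  far := by
    intro l
    fin_cases l
    change ¬ Nr' v (Lx v L (fun n => ![x n]) 0) (r / p) (x 1)
    rw [Lx_zero h.cld]
    have h1 := (h.dst 0).far
    rwa [zero_add, pow_one] at h1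
  lim := by
    intro n l ε hε
    fin_cases l
    change ∃ h ∈ L, v.Ge (r / p ^ n - ε) (x n - h)
    rcases n with _ | n
    · exact ⟨x 0, h.mem, by rw [sub_self]; exact RVal.Ge.zero⟩
    · exact (h.dst n).near ε hε

theorem ew_adj_one {u : ℕ → Fin 1 → Ω} (hu : ∀ n, u n = ![x n]) :
    EW v W x = clI v (W ⊔ IntermediateField.adjoin k {y | ∃ n l, y = u n l}) := by
  refine le_antisymm (EW_le (cld_clI v _) ?_ fun n => ?_) (clI_le' (sup_le EW.le ?_) EW.cld)
  · exact le_sup_left.trans (self_le_clI v _)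
  · refine self_le_clI v _ ((le_sup_right : _ ≤ W ⊔ _)
      (IntermediateField.subset_adjoin _ _ ⟨n, 0, ?_⟩))
    rw [hu]
    rfl
  · rw [IntermediateField.adjoin_le_iff]
    rintro _ ⟨n, l, rfl⟩
    rw [hu]
    fin_cases l
    exact EW.mem n

section Ch

variable [hp : Fact p.Prime] [CharP Ω p] [IsAlgClosed Ω]

/-- `EW v W x` is perfect if `W ^ (1 / p) ≤ W(x 1)`. -/
theorem perf_one (hx : ∀ n, x (n + 1) ^ p = x n)
    (hW : ∀ a ∈ W, ∃ Q ∈ PI W, (Q.eval (x 1)) ^ p = a) :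
    ∀ a ∈ EW v W x, ∃ b ∈ EW v W x, b ^ p = a := by
  refine perf_clI p (perf_sup' (fun a ha => ?_) ?_)
  · obtain ⟨Q, hQ, h2⟩ := hW a ha
    refine ⟨_, ?_, h2⟩
    rw [eval_eq_sum_range]
    refine sum_mem fun i _ => mul_mem ((le_sup_left : W ≤ _) (hQ i)) (pow_mem ?_ i)
    exact (le_sup_right : IntermediateField.adjoin k (Set.range x) ≤ _)
      (IntermediateField.subset_adjoin k _ ⟨1, rfl⟩)
  · rintro _ ⟨n, rfl⟩
    exact ⟨x (n + 1), (le_sup_right : IntermediateField.adjoin k (Set.range x) ≤ _)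
      (IntermediateField.subset_adjoin k _ ⟨n + 1, rfl⟩), hx n⟩

variable [CharP k p]

/-- **The data of one tight letter.** -/
theorem exists_data1 (h0 : Ctx0 k v) (hc : CompleteV v) (hM : ∃ M : ℝ → Ω, MS v ⊤ M)
    (hv : v (x 0) ≠ 0) (hperf : ∀ a ∈ EW v W x, ∃ b ∈ EW v W x, b ^ p = a)
    (hRat : RatV v W (v (x 0))) (hdiv : ∀ g ∈ VG v W, g / p ∈ VG v W)
    (hW : Tgt p v W x r) (hL : Tgt p v L x r) (hle : W ≤ L)
    (hi : Imm v (EW v W x) (clI v (L ⊔ EW v W x))) :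
    ∃ (M : ℝ → Ω) (Λ : Submodule ℚ ℝ), Mns v x M Λ ∧ MonG v (EW v W x) ⊤ M ∧
      PBase p v W (EW v W x) L (GK p (v (x 0)) Λ) M (fun n => ![x n]) ![r] ∧
      PDat p v (PM v W (GK p (v (x 0)) Λ) M) (PM v L (GK p (v (x 0)) Λ) M)
        (PM v (EW v W x) (GK p (v (x 0)) Λ) M) (fun n => ![x n])
        (fun n l => M ((![r] : Fin 1 → ℝ) l / p ^ n)) ![r] := by
  have hx := hW.root
  have hx0W := hW.mem
  have hx0 : x 0 ≠ 0 := ne_zero_of_far hx (hW.dst 0).far
  obtain ⟨M₀, hM₀⟩ := hM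
  obtain ⟨M, hMs, hMx⟩ := TWS.exists_MS hM₀ hx0 hv
  obtain ⟨Λ, hΛ⟩ := Submodule.exists_isCompl (Submodule.span ℚ {v (x 0)})
  have hMn : Mns v x M Λ := ⟨hMs, hMx, hΛ⟩
  set P : IntermediateField k Ω := EW v W x with hPd
  have hcldP : Cld v P := EW.cld
  have hWP : W ≤ P := EW.le
  have hiP : Imm v W P := imm_EW h0 hdiv hx hx0W
  have hMC : MonG v W (GK p (v (x 0)) Λ) M :=
    TWS.monG_GK p h0 hMs hMx hΛ.disjoint hW.cld hx0W hRat
  have hMP : MonG v P ⊤ M :=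
    TWS.monG_top p h0 hMs hMx hcldP hperf (hWP hx0W) (hRat.imm hiP)
  have hMP' : ∀ g ∈ VG v P, M g ∈ P := fun g hg => hMP.mem g trivial hg
  have H : PBase p v W P L (GK p (v (x 0)) Λ) M (fun n => ![x n]) ![r] :=
    { mc := hMC
      cldC := hW.cld
      le := hle
      isoL := isoL_one hL
      base := fun l => by
        fin_cases l
        exact hx0W
      lim := (isoL_one hW).lim
      eq := ew_adj_one fun n => rfl
      perf := hperf
      imm := hiP.trans hi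
      vals := fun t => by
        obtain ⟨n, c, h1⟩ := exists_split p hΛ t
        refine ⟨x n ^ c, zpow_mem (EW.mem n) c, zpow_ne_zero c (root_ne hx hx0 n), _, h1, ?_⟩
        rw [v.map_zpow (root_ne hx hx0 n), val_root hx hx0 n]
        ring }
  have hp0 : (p : ℝ) ≠ 0 := by exact_mod_cast hp.out.ne_zero
  have htop : ∀ g : ℝ, g ∈ (⊤ : AddSubgroup ℝ) := AddSubgroup.mem_top
  have hcH : ∀ (n : ℕ) (l : Fin 1),
      Hg P (GK p (v (x 0)) Λ) M (M ((![r] : Fin 1 → ℝ) l / p ^ n)) :=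
    fun n l => Hg.of_top hMs hMP' H.vals _
  refine ⟨M, Λ, hMn, hMP, H, ?_⟩
  refine H.pdat h0 hc hcH (fun n l => ?_) fun n l => hMs.val _ (htop _)
  rw [← hMs.pow (htop _) p, pow_succ]
  congr 1
  field_simp

end Ch

/-! ### The extensions of the operators -/

section Ex

variable [hp : Fact p.Prime] [CharP Ω p] [hcx : Fact (Ctx0 k v)] {m : ℕ} {u M : ℕ → Fin m → Ω}
  {rho : Fin m → ℝ}

/-- The operators over `L`, of positive order. -/
def genL (p : ℕ) (v : RVal Ω) [Fact (Ctx0 k v)] (L T : IntermediateField k Ω) {m : ℕ}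
    (u M : ℕ → Fin m → Ω) : Set (Opr v T) :=
  {Φ | ∃ (n : ℕ) (F : Fin m → ℕ), (∃ l, F l ≠ 0) ∧ (∀ l, F l < p ^ n) ∧ IsW p L u M Φ n F}

/-- **The extensions.** The operators `𝒜` are `L`-linear, of norm `≤ 0`, and their restrictions to
`E` are in `k + T`; every operator of positive order over `L` has an extension in `𝒜`. -/
theorem exists_nx (hO : SphC v) (hc : CompleteV v) (h : PDat p v C L E u M rho) :
    ∃ 𝒜 : Submodule k (Module.End k Ω),
      OpX v L (clI v (L ⊔ E)) (genL p v L (clI v (L ⊔ E)) u M) 𝒜 ∧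
      NX v L E (adjT (genW p v C E u M)) 𝒜 := by
  have hlin : ∀ φ ∈ genL p v L (clI v (L ⊔ E)) u M, ∀ l ∈ L, ∀ x ∈ clI v (L ⊔ E),
      fn φ (l * x) = l * fn φ x := by
    rintro φ ⟨n, F, -, -, hφ⟩
    exact hφ.lin h.root h.leL (h.dnsN h.le)
  obtain ⟨𝒜, hA⟩ := exists_opX hO h.leL (genL p v L (clI v (L ⊔ E)) u M) hlin (by
    rintro φ ⟨n, F, hF, -, hφ⟩
    refine ⟨0, ?_⟩
    rw [fn_of_mem φ (one_mem _), map_zero]
    have h1 := hφ.one hF
    have h2 : (⟨1, one_mem (clI v (L ⊔ E))⟩ : clI v (L ⊔ E)) = 1 := rfl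
    rw [h2, h1]
    rfl)
  refine ⟨𝒜, hA, ?_⟩
  refine ⟨hA.op.ge, hA.lin, fun ψ hψ => ?_⟩
  obtain ⟨c, φ, hφ, h1⟩ := hA.rep ψ hψ
  have h2 : ∃ φ' ∈ adjT (genW p v C E u M), ∀ x ∈ E, fn φ x = fn φ' x := by
    clear h1
    induction hφ using Submodule.span_induction with
    | mem φ hφ =>
      obtain ⟨n, F, hF0, hF, h3⟩ := hφ
      obtain ⟨φ', h4⟩ := h.exW hc n F hF
      exact ⟨φ', subset_adjT ⟨n, F, hF0, hF, h4⟩, fun x hx => (h.isExt h4 h3).eq x hx⟩
    | zero => exact ⟨0, zero_mem _, fun x _ => by rw [fn_opZero, fn_opZero]⟩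
    | add φ ψ _ _ h3 h4 =>
      obtain ⟨φ', h5, h6⟩ := h3
      obtain ⟨ψ', h7, h8⟩ := h4
      exact ⟨φ' + ψ', add_mem h5 h7, fun x hx => by rw [fn_opAdd, fn_opAdd, h6 x hx, h8 x hx]⟩
    | smul a φ _ h3 =>
      obtain ⟨φ', h5, h6⟩ := h3
      exact ⟨a • φ', Submodule.smul_mem _ a h5, fun x hx => by
        rw [fn_opSmul, fn_opSmul, h6 x hx]⟩
  obtain ⟨φ', h3, h4⟩ := h2
  exact ⟨c, φ', h3, fun x hx => by rw [h1 x (h.leE hx), h4 x hx]⟩

end Ex

end Pool.Agent.TWHT
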