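import Pool.Agent.Lib.TWHT.NTor
import Pool.Agent.Lib.TWHT.NilB
import Pool.Agent.Lib.TWHT.ThI
import Pool.Agent.Lib.TWIV.ZBas

/-!
# TANK W, leaf (Ht): definitions

* `FV p v 𝒜 A B`: the systems over `B` with limits of `B` as unknowns have them in `B + L(A)`;
* `NT p v 𝒜 B T`: no ties: the systems over `B` with unknowns in `T ∩ L(B)` have them in `B + O`;
* `Act1 p v 𝒜 B T w x`: the operators send `x` in the `k{F}`-span of `w`, modulo `B + O`;
* `HtOp`: the operators of the leaf: `T` operators of the perfect base `P` with monomials, `𝒜` their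
  `L`-linear extensions to `Ω` and the scalars; `dat`: they are the operators of one tight letter;
* `ABas`: an adapted homogeneous basis of the limits of `B` in `LP`.
-/

set_option autoImplicit false
set_option linter.unusedSectionVars false

open Polynomial

namespace Pool.Agent.TWHT

open Pool.Agent.H15JM (RVal)
open Pool.Agent.D2 (Ctx0)
open Pool.Agent.D2P (hen clI mem_clI)
open Pool.Agent.TWM Pool.Agent.TWS Pool.Agent.TWIV
open Pool.Agent.TWC (Opr fn fn_of_mem IsExt Desc Oper NilpC NSD Tow EW Tgt PBase PDat genW adjT)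

universe u

variable {k Ω : Type u} [Field k] [Field Ω] [Algebra k Ω] {v : RVal Ω}

section Defs

variable (p : ℕ) [Fact p.Prime] [CharP Ω p] (v : RVal Ω) (𝒜 : Submodule k (Module.End k Ω))

/-- The systems over `B` whose unknowns are limits of `B` have them in `B + L(A)`. -/
def FV (A B : IntermediateField k Ω) : Prop :=
  ∀ (κ : Type) [Fintype κ] (X f : κ → Ω) (φ : κ → κ → Module.End k Ω), (∀ l l', φ l l' ∈ 𝒜) →
    (∀ l, Lim v B 0 (X l)) → (∀ l, f l ∈ B) →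
    (∀ l, v.Ge 0 (X l ^ p - (∑ j, φ l j (X j)) - f l)) → ∀ l, ∃ b ∈ B, Lim v A 0 (X l - b)

/-- **No ties over `B` in `T`.** -/
def NT (B T : IntermediateField k Ω) : Prop :=
  ∀ (κ : Type) [Fintype κ] (X f : κ → Ω) (φ : κ → κ → Module.End k Ω), (∀ l l', φ l l' ∈ 𝒜) →
    (∀ l, X l ∈ T) → (∀ l, Lim v B 0 (X l)) → (∀ l, f l ∈ B) →
    (∀ l, v.Ge 0 (X l ^ p - (∑ j, φ l j (X j)) - f l)) → ∀ l, Nr v B 0 (X l)

end Defs

section Ops

variable [hcx : Fact (Ctx0 k v)] {p : ℕ} [hp : Fact p.Prime] [CharP k p] [CharP Ω p]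
  [PerfectRing k p] {C P L LP N : IntermediateField k Ω} {G : AddSubgroup ℝ} {M : ℝ → Ω}
  {T : Submodule k (Opr v (PM v P G M))} {𝒜 : Submodule k (Module.End k Ω)}

/-- `x` is killed by the operators modulo `B + O`. -/
def Kld (T : Submodule k (Opr v (PM v P G M))) (L LP B : IntermediateField k Ω) (x : Ω) : Prop :=
  ∀ φ ∈ T, ∀ Φ : Opr v (PM v LP G M), IsExt (PM v L G M) φ Φ → Nr v B 0 (fn Φ x)

/-- **The operators of the leaf (Ht).** -/
structure HtOp (p : ℕ) [Fact p.Prime] [CharP k p] [CharP Ω p] [PerfectRing k p] (v : RVal Ω)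
    [Fact (Ctx0 k v)] (C P L LP : IntermediateField k Ω) (G : AddSubgroup ℝ) (M : ℝ → Ω)
    (T : Submodule k (Opr v (PM v P G M))) (𝒜 : Submodule k (Module.End k Ω)) : Prop where
  D : DescM p v C P L LP G M T
  sph : SphC v
  op : Oper p v (PM v C G M) (PM v P G M) T
  nil : NilpB v T (PM v L G M) (PM v LP G M)
  nsd : NSDp p op
  ms : MS v ⊤ M
  mon : ∀ g : ℝ, M g ∈ PM v P G M
  vals : ∀ s : ℝ, ∃ e ∈ P, e ≠ 0 ∧ ∃ g ∈ G, v e + g = s
  hom : ∃ S ⊆ (T : Set (Opr v (PM v P G M))), T ≤ Submodule.span k S ∧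
    ∀ φ ∈ S, ∃ δ ∈ G, ∀ e ∈ P, ∃ e' ∈ P, fn φ e = e' * M δ
  nx : NX v (PM v L G M) (PM v P G M) T 𝒜
  one : (1 : Module.End k Ω) ∈ 𝒜
  mem : ∀ φ ∈ T, ∀ Φ : Opr v (PM v LP G M), IsExt (PM v L G M) φ Φ →
    ∃ ψ ∈ 𝒜, ∀ x ∈ PM v LP G M, ψ x = fn Φ x
  rep : ∀ ψ ∈ 𝒜, ∃ (c : k) (φ : Opr v (PM v P G M)) (Φ : Opr v (PM v LP G M)), φ ∈ T ∧
    IsExt (PM v L G M) φ Φ ∧ ∀ x ∈ PM v LP G M, ψ x = algebraMap k Ω c * x + fn Φ x
  dat : ∃ (x : ℕ → Ω) (r : ℝ), v (x 0) ≠ 0 ∧ Tgt p v C x r ∧ Tgt p v L x r ∧ P = EW v C x ∧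
    PBase p v C P L G M (fun n => (![x n] : Fin 1 → Ω)) ![r] ∧
    PDat p v (PM v C G M) (PM v L G M) (PM v P G M) (fun n => (![x n] : Fin 1 → Ω))
      (fun n l => M ((![r] : Fin 1 → ℝ) l / p ^ n)) ![r] ∧
    T = adjT (genW p v (PM v C G M) (PM v P G M) (fun n => (![x n] : Fin 1 → Ω))
      fun n l => M ((![r] : Fin 1 → ℝ) l / p ^ n)) ∧
    ∀ a ∈ PM v C G M, ∃ Q ∈ PI (PM v C G M), (Q.eval (x 1)) ^ p = a

theorem HtOp.nsd' (H : HtOp p v C P L LP G M T 𝒜) : NSD p H.op :=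
  fun Y hY b hb hd => le_sup_left.trans (H.nsd Y hY b hb hd)

theorem HtOp.pmT (H : HtOp p v C P L LP G M T 𝒜) : PM v P G M = PM v P ⊤ M :=
  le_antisymm (PM.le_of PM.cld PM.le fun g _ => PM.mon trivial)
    (PM.le_of PM.cld PM.le fun g _ => H.mon g)

/-- The base with monomials is perfect. -/
theorem HtOp.perfE (H : HtOp p v C P L LP G M T 𝒜) :
    ∀ a ∈ PM v P G M, ∃ b ∈ PM v P G M, b ^ p = a := H.op.perf

theorem HtOp.opA (H : HtOp p v C P L LP G M T 𝒜) : OpA v 𝒜 where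
  one := H.one
  ge := H.nx.ge
  const φ hφ := by
    obtain ⟨c, ψ, hψ, h1⟩ := H.nx.rep φ hφ
    refine ⟨c, ?_⟩
    have h2 : fn ψ 1 = 0 := by
      rw [fn_of_mem ψ (one_mem _)]
      exact congrArg Subtype.val (H.op.one ψ hψ)
    rw [h1 1 (one_mem _), h2, mul_one, add_zero]

/-- An adapted homogeneous basis of the limits of `B` in `PM v LP G M`. -/
structure ABas (p : ℕ) [Fact p.Prime] [CharP k p] [CharP Ω p] (v : RVal Ω) [Fact (Ctx0 k v)]
    (L LP : IntermediateField k Ω) {P : IntermediateField k Ω} {G : AddSubgroup ℝ} (M : ℝ → Ω)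
    (T : Submodule k (Opr v (PM v P G M))) (B : IntermediateField k Ω) {m : ℕ}
    (a : Fin m → Ω) : Prop where
  bas : ZBas k p M v B (PM v LP G M) Finset.univ a
  hom : ∀ i, ∃ f ∈ LP, ∃ g ∈ G, a i = f * M g
  adp : ∀ i, ∀ φ ∈ T, ∀ Φ : Opr v (PM v LP G M), IsExt (PM v L G M) φ Φ →
    ∃ Q : Fin m → k[X], (∀ j, i ≤ j → Q j = 0) ∧
      Nr v B 0 (fn Φ (a i) - ∑ j, TWM.ev p M 0 0 (Q j) (a j))

end Ops

end Pool.Agent.TWHT
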