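import Pool.Agent.Lib.TWHT.N7g

/-!
# TANK W, leaf (Ht): FV(y_0, y_1) with nilpotent operators

`E` a base with operators `T₀` (`Oper p v C E T₀`, `NSD`), `y_0`, `y_1 ∈ L` limits of `E`, `y_0` of
transcendental type over `E`, `y_1` over `E<y_0>`, `K = E<y_0, y_1> = twr v E y 2`; `𝒜` a space of
operators of norm `≤ 0`, `L`-linear, in `k + T₀` on `E` (`NX v L E T₀ 𝒜`).

* **`fvn_two`**: the solutions `X_l` (formal limits of `K`) of a system
  `X_l ^ p = ∑ φ_lj X_j + f_l`, `φ_lj ∈ 𝒜`, `f_l ∈ K`, are in `K + L(E)`;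
* `fvn_two_elt`: the same for elements of `H`.
-/

set_option autoImplicit false
set_option linter.unusedSectionVars false

open Polynomial

namespace Pool.Agent.TWHT

open Pool.Agent.H15JM (RVal)
open Pool.Agent.D2 (Ctx0)
open Pool.Agent.TWM
open Pool.Agent.TWC (Nul Cau eq_of_ge InBL Opr fn Oper NSD)
open Pool.Agent.TWIV

universe u

variable {k H : Type u} [Field k] [Field H] [Algebra k H] {v : RVal H} {p : ℕ} [hp : Fact p.Prime]
  [CharP k p] [PerfectRing k p] [CharP H p] [PerfectRing H p] [IsAlgClosed H]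
  [hk : Fact (Ctx0 k v)] {L C E K : IntermediateField k H} {y : ℕ → H}
  {T₀ : Submodule k (Opr v E)} {𝒜 : Submodule k (Module.End k H)}

section Deg

variable {A : Type*} [AddCommGroup A] {pr : A → H →ₗ[k] H} {α : ℕ → A}

/-- **The degree induction.** -/
theorem fvn_two_deg {D : Fin 2 → ℕ → H → H} (T : Two7 p v pr E K y α D) (hI : IntP p v K D)
    (hX : NX v L E T₀ 𝒜) (hy : ∀ a : Fin 2, y a ∈ L) (h : Oper p v C E T₀) (hV : NSD p h)
    (d : ℕ) : ∀ (κ : Type) [Fintype κ] (X : κ → ℕ → H)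
    (f : κ → H) (φ : κ → κ → Module.End k H), (∀ l l', φ l l' ∈ 𝒜) →
    (∀ l, Cau v K (X l)) → (∀ l, f l ∈ K) →
    (∀ l, Nul v fun n => X l n ^ p - (∑ j, φ l j (X j n)) - f l) →
    (∀ l, Bnd v D d (X l)) → ∀ l, InBL v K E (X l) := by
  classical
  induction d with
  | zero =>
    intro κ _ X f φ _ hXc _ _ hB l
    obtain ⟨m, hm, h1⟩ := T.const (hXc l) fun a c =>
      T.bnd_dx (hXc l).mem (hB l) a (Nat.pow_pos hp.out.pos)
    exact ⟨0, zero_mem K, m, hm, h1.congr fun n => by rw [sub_zero]⟩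
  | succ d ih =>
    intro κ _ X f φ hφ hXc hf hR hB
    have hK : ∀ i j, OpK v K D (φ i j) := fun i j => Two7.opK T hX hy (hφ i j)
    have hrel : ∀ (l : κ) (a : Fin 2) (i : ℕ), Nul v fun n => (D a (p ^ i) (X l n)) ^ p -
        ps φ l (fun j => Dx p D (a, i + 1) (X j n)) - Dx p D (a, i + 1) (f l) := by
      intro l a i
      have hph : ∀ n, ps φ l (fun j => X j n) ∈ K := fun n =>
        ps_mem (fun i j => (hK i j).mem) fun j => (hXc j).mem n
      have hpw : ∀ n, X l n ^ p ∈ K := fun n => pow_mem ((hXc l).mem n) _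
      have h1 := T.dx_nul (a, i + 1) (fun n => sub_mem (sub_mem (hpw n) (hph n)) (hf l)) (hR l)
      refine h1.congr fun n => ?_
      rw [T.dx_sub _ (sub_mem (hpw n) (hph n)) (hf l), T.dx_sub _ (hpw n) (hph n),
        T.dx_pow _ ((hXc l).mem n), dx_ps T hK _ l fun j => (hXc j).mem n]
      rfl
    obtain ⟨N₀, hN₀⟩ : ∃ N₀ : ℕ, ∀ i, N₀ ≤ i → d + 1 < p ^ i :=
      ⟨d + 1, fun i hi => lt_of_le_of_lt hi (Nat.lt_pow_self hp.out.one_lt)⟩
    have hbig : ∀ (l : κ) (a : Fin 2) (i : ℕ), N₀ ≤ i → Nul v fun n => D a (p ^ i) (X l n) :=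
      fun l a i hi => T.bnd_dx (hXc l).mem (hB l) a (hN₀ i hi)
    -- the derived family
    let Z : κ × Fin 2 × Fin N₀ → ℕ → H := fun q n => D q.2.1 (p ^ (q.2.2 : ℕ)) (X q.1 n)
    let f' : κ × Fin 2 × Fin N₀ → H := fun q => Dx p D (q.2.1, (q.2.2 : ℕ) + 1) (f q.1)
    let φ' : κ × Fin 2 × Fin N₀ → κ × Fin 2 × Fin N₀ → Module.End k H := fun q q' =>
      if q'.2.1 = q.2.1 ∧ (q'.2.2 : ℕ) = (q.2.2 : ℕ) + 1 then φ q.1 q'.1 else 0
    have hφ' : ∀ q q', φ' q q' ∈ 𝒜 := by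
      intro q q'
      simp only [φ']
      split_ifs
      · exact hφ _ _
      · exact zero_mem _
    have hsum : ∀ (q : κ × Fin 2 × Fin N₀), Nul v fun n =>
        ps φ q.1 (fun j => Dx p D (q.2.1, (q.2.2 : ℕ) + 1) (X j n)) - ∑ q', φ' q q' (Z q' n) := by
      rintro ⟨l, a, i⟩
      by_cases hi : (i : ℕ) + 1 < N₀
      · refine TWC.Nul.zero.congr fun n => ?_
        rw [eq_comm, sub_eq_zero, ps, Fintype.sum_prod_type]
        refine Finset.sum_congr rfl fun l' _ => ?_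
        rw [Finset.sum_eq_single (a, (⟨(i : ℕ) + 1, hi⟩ : Fin N₀))]
        · simp only [φ', and_self, if_true]
          rfl
        · rintro ⟨a', i'⟩ _ hne
          have h1 : ¬ (a' = a ∧ (i' : ℕ) = (i : ℕ) + 1) := by
            rintro ⟨h2, h3⟩
            exact hne (Prod.ext h2 (Fin.ext h3))
          simp only [φ']
          rw [if_neg h1, LinearMap.zero_apply]
        · exact fun h1 => absurd (Finset.mem_univ _) h1
      · have h1 : ∀ n, ∑ q', φ' (l, a, i) q' (Z q' n) = 0 := by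
          intro n
          refine Finset.sum_eq_zero fun q' _ => ?_
          have h2 : ¬ (q'.2.1 = a ∧ (q'.2.2 : ℕ) = (i : ℕ) + 1) := by
            rintro ⟨-, h3⟩
            have := q'.2.2.2
            omega
          simp only [φ']
          rw [if_neg h2, LinearMap.zero_apply]
        refine (ps_nul (fun i j => (hK i j).ge) (l := l)
          (w := fun j n => Dx p D (a, (i : ℕ) + 1) (X j n)) fun j =>
            hbig j a ((i : ℕ) + 1) (not_lt.1 hi)).congr fun n => ?_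
        rw [h1, sub_zero]
    have hZ : ∀ q, Nul v fun n => Z q n ^ p - (∑ q', φ' q q' (Z q' n)) - f' q := by
      intro q
      refine ((hrel q.1 q.2.1 q.2.2).add (hsum q)).congr fun n => ?_
      simp only [Z, f']
      ring
    have hIH := ih (κ × Fin 2 × Fin N₀) Z f' φ' hφ'
      (fun q => (T.jx q.2.1).cau _ (hXc q.1)) (fun q => T.dx_mem _ (hf q.1)) hZ
      (fun q => T.bnd_jet (hXc q.1).mem (hB q.1) q.2.1 (Nat.one_le_pow _ _ hp.out.pos))
    have hdat : ∀ (l : κ) (x : Fin 2 × ℕ), ∃ b ∈ K, ∃ m, Cau v E m ∧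
        (Nul v fun n => Dx p D x (X l n) - b - m n) ∧
        (N₀ ≤ x.2 → b = 0 ∧ m = fun _ => 0) := by
      rintro l ⟨a, i⟩
      by_cases hi : i < N₀
      · obtain ⟨b, hb, m, hm, h1⟩ := hIH (l, a, ⟨i, hi⟩)
        exact ⟨b, hb, m, hm, h1, fun h2 => absurd hi (not_lt.2 h2)⟩
      · exact ⟨0, zero_mem K, fun _ => 0, Cau.const (zero_mem E),
          (hbig l a i (not_lt.1 hi)).congr fun n => by simp [Dx], fun _ => ⟨rfl, rfl⟩⟩
    choose b hb m hm hs hz using hdat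
    have G : DatN p v E K D φ X f b m N₀ :=
      ⟨hXc, hf, hR, hb, hm, fun l x hx => (hz l x hx).1, fun l x hx => (hz l x hx).2, hs⟩
    exact fun l => G.concl T hI hX hφ hy h hV l

end Deg

/-! ### The trivial grading -/

/-- The trivial grading. -/
theorem grP_triv : GrP p v (fun _ : PUnit.{1} => (LinearMap.id : H →ₗ[k] H)) where
  one := rfl
  mul _ _ _ _ := rfl
  ge _ _ _ hb := hb
  frob _ _ := rfl

/-- The hypotheses on the letters. -/
theorem twrH_triv (h0 : TL v E (y 0) 0) (h1 : TL v (cadj v E (y 0)) (y 1) 0)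
    (hl : Lim v E 0 (y 1)) :
    TwrH v (fun _ : PUnit.{1} => (LinearMap.id : H →ₗ[k] H)) E y (fun _ => 0) 2 where
  gr _ _ hx := hx
  tl j hj := by
    rcases Nat.lt_succ_iff_lt_or_eq.1 hj with h3 | rfl
    · have h4 : j = 0 := by omega
      subst h4
      exact h0
    · exact h1
  lim j hj := by
    rcases Nat.lt_succ_iff_lt_or_eq.1 hj with h3 | rfl
    · have h4 : j = 0 := by omega
      subst h4
      exact h0.lim
    · exact hl
  deg _ _ := rfl

/-- **FV(y_0, y_1) with nilpotent operators**, sequences. -/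
theorem fvn_two (hc : CompleteV v) (hX : NX v L E T₀ 𝒜) (h : Oper p v C E T₀) (hV : NSD p h)
    (h0 : TL v E (y 0) 0) (h1 : TL v (cadj v E (y 0)) (y 1) 0) (hl : Lim v E 0 (y 1))
    (hy0 : y 0 ∈ L) (hy1 : y 1 ∈ L) {κ : Type} [Fintype κ] {X : κ → ℕ → H} {f : κ → H}
    {φ : κ → κ → Module.End k H} (hφ : ∀ l l', φ l l' ∈ 𝒜)
    (hXc : ∀ l, Cau v (cadj v (cadj v E (y 0)) (y 1)) (X l))
    (hf : ∀ l, f l ∈ cadj v (cadj v E (y 0)) (y 1))
    (hR : ∀ l, Nul v fun n => X l n ^ p - (∑ j, φ l j (X j n)) - f l) (l : κ) :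
    InBL v (cadj v (cadj v E (y 0)) (y 1)) E (X l) := by
  have hT := twrH_triv h0 h1 hl
  obtain ⟨t, ht, T⟩ := exists_two7 (p := p) hc grP_triv hT
  have hI := exists_intP (p := p) hT ht
  have hy : ∀ a : Fin 2, y a ∈ L := by
    intro a
    fin_cases a
    · exact hy0
    · exact hy1
  have hK : ∀ i j, OpK v (twr v E y 2) (fun a => jt (t a)) (φ i j) := fun i j =>
    Two7.opK T hX hy (hφ i j)
  obtain ⟨d, hd⟩ := bddN T hK hXc hf hR
  exact fvn_two_deg T hI hX hy h hV d κ X f φ hφ hXc hf hR hd l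

/-- **FV(y_0, y_1) with nilpotent operators**, elements. -/
theorem fvn_two_elt (hc : CompleteV v) (hX : NX v L E T₀ 𝒜) (h : Oper p v C E T₀) (hV : NSD p h)
    (h0 : TL v E (y 0) 0) (h1 : TL v (cadj v E (y 0)) (y 1) 0) (hl : Lim v E 0 (y 1))
    (hy0 : y 0 ∈ L) (hy1 : y 1 ∈ L) {κ : Type} [Fintype κ] {X f : κ → H}
    {φ : κ → κ → Module.End k H} (hφ : ∀ l l', φ l l' ∈ 𝒜)
    (hXl : ∀ l, Lim v (cadj v (cadj v E (y 0)) (y 1)) 0 (X l))
    (hf : ∀ l, f l ∈ cadj v (cadj v E (y 0)) (y 1))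
    (hR : ∀ l, v.Ge 0 (X l ^ p - (∑ j, φ l j (X j)) - f l)) (l : κ) :
    ∃ b ∈ cadj v (cadj v E (y 0)) (y 1), Lim v E 0 (X l - b) := by
  choose x hx hn using fun l => TWC.Lim.exists_cau (hXl l)
  obtain ⟨b, hb, m, hm, h2⟩ := fvn_two hc hX h hV h0 h1 hl hy0 hy1 hφ hx hf (fun l => by
    have h2 : Nul v fun n => (X l - x l n) ^ p := TWC.Nul.pow (hn l) p
    have h3 : Nul v fun n => ps φ l (fun j => X j - x j n) :=
      ps_nul (fun i j => hX.ge _ (hφ i j)) hn
    refine (((TWC.Nul.of_ge fun _ => hR l).sub h2).add h3).congr fun n => ?_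
    rw [ps_sub, sub_pow_char]
    simp only [ps]
    ring) l
  exact ⟨b, hb, TWC.Lim.of_nul hm.mem (((hn l).add h2).congr fun n => by ring)⟩

end Pool.Agent.TWHT
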