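import Pool.Agent.Lib.TWHT.OneG
import Pool.Agent.Lib.TWHT.N7h
import Pool.Agent.Lib.TWHT.HtDefs

/-!
# TANK W, leaf (Ht): FV(y) with nilpotent operators

`E` a base with operators `T₀` (`Oper p v C E T₀`, `NSD`), `y ∈ L` a limit of `E` of transcendental
type over `E`, `K = E<y>`; `𝒜` a space of operators of norm `≤ 0`, `L`-linear, in `k + T₀` on `E`.

* **`fvn_one`**: the solutions `X_l` (formal limits of `K`) of a system
  `X_l ^ p = ∑ φ_lj X_j + f_l`, `φ_lj ∈ 𝒜`, `f_l ∈ K`, are in `K + L(E)`;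
* `fvn_one_elt`: the same for elements of `H`;
* `complV_of_sphC`; **`HtOp.fv_one`**: row R1 of the leaf (Ht).
-/

set_option autoImplicit false
set_option linter.unusedSectionVars false

open Polynomial

namespace Pool.Agent.TWHT

open Pool.Agent.H15JM (RVal)
open Pool.Agent.D2 (Ctx0)
open Pool.Agent.TWM
open Pool.Agent.TWS (PM)
open Pool.Agent.TWC (Nul Cau eq_of_ge InBL Opr fn Oper NSD)
open Pool.Agent.TWIV

universe u

variable {k H : Type u} [Field k] [Field H] [Algebra k H] {v : RVal H} {p : ℕ} [hp : Fact p.Prime]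
  [CharP k p] [PerfectRing k p] [CharP H p] [PerfectRing H p] [IsAlgClosed H]
  [hk : Fact (Ctx0 k v)] {L C E K : IntermediateField k H} {y : H}
  {T₀ : Submodule k (Opr v E)} {𝒜 : Submodule k (Module.End k H)}

section Deg

variable {A : Type*} [AddCommGroup A] {pr : A → H →ₗ[k] H} {γ : A}

/-- **The degree induction.** -/
theorem fvn_one_deg {D : ℕ → H → H} (T : One7 p v pr E K y γ D) (hI : IntO p v K D)
    (hX : NX v L E T₀ 𝒜) (hy : y ∈ L) (h : Oper p v C E T₀) (hV : NSD p h)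
    (d : ℕ) : ∀ (κ : Type) [Fintype κ] (X : κ → ℕ → H)
    (f : κ → H) (φ : κ → κ → Module.End k H), (∀ l l', φ l l' ∈ 𝒜) →
    (∀ l, Cau v K (X l)) → (∀ l, f l ∈ K) →
    (∀ l, Nul v fun n => X l n ^ p - (∑ j, φ l j (X j n)) - f l) →
    (∀ l, Bnd1 v D d (X l)) → ∀ l, InBL v K E (X l) := by
  classical
  induction d with
  | zero =>
    intro κ _ X f φ _ hXc _ _ hB l
    obtain ⟨m, hm, h1⟩ := T.const (hXc l) fun c => hB l _ (Nat.pow_pos hp.out.pos)
    exact ⟨0, zero_mem K, m, hm, h1.congr fun n => by rw [sub_zero]⟩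
  | succ d ih =>
    intro κ _ X f φ hφ hXc hf hR hB
    have hK : ∀ i j, OpK1 v K D (φ i j) := fun i j => One7.opK T hX hy (hφ i j)
    have hrel : ∀ (l : κ) (i : ℕ), Nul v fun n => (D (p ^ i) (X l n)) ^ p -
        ps φ l (fun j => D1 p D ((), i + 1) (X j n)) - D1 p D ((), i + 1) (f l) := by
      intro l i
      have hph : ∀ n, ps φ l (fun j => X j n) ∈ K := fun n =>
        ps_mem (fun i j => (hK i j).mem) fun j => (hXc j).mem n
      have hpw : ∀ n, X l n ^ p ∈ K := fun n => pow_mem ((hXc l).mem n) _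
      have h1 := T.dx_nul ((), i + 1) (fun n => sub_mem (sub_mem (hpw n) (hph n)) (hf l)) (hR l)
      refine h1.congr fun n => ?_
      rw [T.dx_sub _ (sub_mem (hpw n) (hph n)) (hf l), T.dx_sub _ (hpw n) (hph n),
        T.dx_pow _ ((hXc l).mem n), dx_ps1 T hK _ l fun j => (hXc j).mem n]
      rfl
    obtain ⟨N₀, hN₀⟩ : ∃ N₀ : ℕ, ∀ i, N₀ ≤ i → d + 1 < p ^ i :=
      ⟨d + 1, fun i hi => lt_of_le_of_lt hi (Nat.lt_pow_self hp.out.one_lt)⟩
    have hbig : ∀ (l : κ) (i : ℕ), N₀ ≤ i → Nul v fun n => D (p ^ i) (X l n) :=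
      fun l i hi => hB l _ (hN₀ i hi)
    -- the derived family
    let Z : κ × Fin N₀ → ℕ → H := fun q n => D (p ^ (q.2 : ℕ)) (X q.1 n)
    let f' : κ × Fin N₀ → H := fun q => D1 p D ((), (q.2 : ℕ) + 1) (f q.1)
    let φ' : κ × Fin N₀ → κ × Fin N₀ → Module.End k H := fun q q' =>
      if (q'.2 : ℕ) = (q.2 : ℕ) + 1 then φ q.1 q'.1 else 0
    have hφ' : ∀ q q', φ' q q' ∈ 𝒜 := by
      intro q q'
      simp only [φ']
      split_ifs
      · exact hφ _ _
      · exact zero_mem _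
    have hsum : ∀ (q : κ × Fin N₀), Nul v fun n =>
        ps φ q.1 (fun j => D1 p D ((), (q.2 : ℕ) + 1) (X j n)) - ∑ q', φ' q q' (Z q' n) := by
      rintro ⟨l, i⟩
      by_cases hi : (i : ℕ) + 1 < N₀
      · refine TWC.Nul.zero.congr fun n => ?_
        rw [eq_comm, sub_eq_zero, ps, Fintype.sum_prod_type]
        refine Finset.sum_congr rfl fun l' _ => ?_
        rw [Finset.sum_eq_single (⟨(i : ℕ) + 1, hi⟩ : Fin N₀)]
        · simp only [φ', if_true]
          rfl
        · rintro i' _ hne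
          have h1 : ¬ ((i' : ℕ) = (i : ℕ) + 1) := fun h3 => hne (Fin.ext h3)
          simp only [φ']
          rw [if_neg h1, LinearMap.zero_apply]
        · exact fun h1 => absurd (Finset.mem_univ _) h1
      · have h1 : ∀ n, ∑ q', φ' (l, i) q' (Z q' n) = 0 := by
          intro n
          refine Finset.sum_eq_zero fun q' _ => ?_
          have h2 : ¬ ((q'.2 : ℕ) = (i : ℕ) + 1) := by
            intro h3
            have := q'.2.2
            omega
          simp only [φ']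
          rw [if_neg h2, LinearMap.zero_apply]
        refine (ps_nul (fun i j => (hK i j).ge) (l := l)
          (w := fun j n => D1 p D ((), (i : ℕ) + 1) (X j n)) fun j =>
            hbig j ((i : ℕ) + 1) (not_lt.1 hi)).congr fun n => ?_
        rw [h1, sub_zero]
    have hZ : ∀ q, Nul v fun n => Z q n ^ p - (∑ q', φ' q q' (Z q' n)) - f' q := by
      intro q
      refine ((hrel q.1 q.2).add (hsum q)).congr fun n => ?_
      simp only [Z, f']
      ring
    have hIH := ih (κ × Fin N₀) Z f' φ' hφ'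
      (fun q => T.jx.cau _ (hXc q.1)) (fun q => T.dx_mem _ (hf q.1)) hZ
      (fun q => T.bnd_jet (hXc q.1).mem (hB q.1) (Nat.one_le_pow _ _ hp.out.pos))
    have hdat : ∀ (l : κ) (x : Unit × ℕ), ∃ b ∈ K, ∃ m, Cau v E m ∧
        (Nul v fun n => D1 p D x (X l n) - b - m n) ∧
        (N₀ ≤ x.2 → b = 0 ∧ m = fun _ => 0) := by
      rintro l ⟨a, i⟩
      by_cases hi : i < N₀
      · obtain ⟨b, hb, m, hm, h1⟩ := hIH (l, ⟨i, hi⟩)
        exact ⟨b, hb, m, hm, h1, fun h2 => absurd hi (not_lt.2 h2)⟩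
      · exact ⟨0, zero_mem K, fun _ => 0, Cau.const (zero_mem E),
          (hbig l i (not_lt.1 hi)).congr fun n => by simp [D1], fun _ => ⟨rfl, rfl⟩⟩
    choose b hb m hm hs hz using hdat
    have G : DatO p v E K D φ X f b m N₀ :=
      ⟨hXc, hf, hR, hb, hm, fun l x hx => (hz l x hx).1, fun l x hx => (hz l x hx).2, hs⟩
    exact fun l => G.concl T hI hX hφ hy h hV l

end Deg

/-- **FV(y) with nilpotent operators**, sequences. -/
theorem fvn_one (hc : CompleteV v) (hX : NX v L E T₀ 𝒜) (h : Oper p v C E T₀) (hV : NSD p h)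
    (h0 : TL v E y 0) (hy : y ∈ L) {κ : Type} [Fintype κ] {X : κ → ℕ → H} {f : κ → H}
    {φ : κ → κ → Module.End k H} (hφ : ∀ l l', φ l l' ∈ 𝒜)
    (hXc : ∀ l, Cau v (cadj v E y) (X l)) (hf : ∀ l, f l ∈ cadj v E y)
    (hR : ∀ l, Nul v fun n => X l n ^ p - (∑ j, φ l j (X j n)) - f l) (l : κ) :
    InBL v (cadj v E y) E (X l) := by
  obtain ⟨D, T, hI⟩ := exists_one7 (p := p) (γ := (0 : PUnit.{1})) hc grP_triv
    (fun _ _ hx => hx) h0 rfl
  have hK : ∀ i j, OpK1 v (cadj v E y) D (φ i j) := fun i j => One7.opK T hX hy (hφ i j)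
  obtain ⟨d, hd⟩ := bdd1 T hK hXc hf hR
  exact fvn_one_deg T hI hX hy h hV d κ X f φ hφ hXc hf hR hd l

/-- **FV(y) with nilpotent operators**, elements. -/
theorem fvn_one_elt (hc : CompleteV v) (hX : NX v L E T₀ 𝒜) (h : Oper p v C E T₀) (hV : NSD p h)
    (h0 : TL v E y 0) (hy : y ∈ L) {κ : Type} [Fintype κ] {X f : κ → H}
    {φ : κ → κ → Module.End k H} (hφ : ∀ l l', φ l l' ∈ 𝒜)
    (hXl : ∀ l, Lim v (cadj v E y) 0 (X l)) (hf : ∀ l, f l ∈ cadj v E y)
    (hR : ∀ l, v.Ge 0 (X l ^ p - (∑ j, φ l j (X j)) - f l)) (l : κ) :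
    ∃ b ∈ cadj v E y, Lim v E 0 (X l - b) := by
  choose x hx hn using fun l => TWC.Lim.exists_cau (hXl l)
  obtain ⟨b, hb, m, hm, h2⟩ := fvn_one hc hX h hV h0 hy hφ hx hf (fun l => by
    have h2 : Nul v fun n => (X l - x l n) ^ p := TWC.Nul.pow (hn l) p
    have h3 : Nul v fun n => ps φ l (fun j => X j - x j n) :=
      ps_nul (fun i j => hX.ge _ (hφ i j)) hn
    refine (((TWC.Nul.of_ge fun _ => hR l).sub h2).add h3).congr fun n => ?_
    rw [ps_sub, sub_pow_char]
    simp only [ps]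
    ring) l
  exact ⟨b, hb, TWC.Lim.of_nul hm.mem (((hn l).add h2).congr fun n => by ring)⟩

omit [CharP k p] [PerfectRing k p] [CharP H p] [PerfectRing H p] [IsAlgClosed H] hp hk in
/-- Pseudolimits give limits. -/
theorem complV_of_sphC (hs : TWS.SphC v) : CompleteV v := by
  intro f hf
  choose N hN using fun n : ℕ => hf n
  obtain ⟨y, hy⟩ := hs (fun n => f ((Finset.range (n + 1)).sup N)) (fun n => (n : ℝ))
    fun n m hnm => by
      have h1 : N n ≤ (Finset.range (n + 1)).sup N :=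
        Finset.le_sup (f := N) (Finset.mem_range.2 (Nat.lt_succ_self n))
      have h2 : (Finset.range (n + 1)).sup N ≤ (Finset.range (m + 1)).sup N :=
        Finset.sup_mono (Finset.range_subset_range.2 (by omega))
      exact hN n _ _ (h1.trans h2) h1
  refine ⟨y, fun c => ?_⟩
  obtain ⟨n, hn⟩ := exists_nat_ge c
  refine ⟨N n, fun m hm => ?_⟩
  have h1 : N n ≤ (Finset.range (n + 1)).sup N :=
    Finset.le_sup (f := N) (Finset.mem_range.2 (Nat.lt_succ_self n))
  have h2 := (hy n).add (hN n _ m h1 hm)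
  refine (congrArg (v.Ge c) ?_).mp (h2.mono hn)
  ring

/-- **Row R1.** `FV(y)`. -/
theorem HtOp.fv_one {Ω : Type u} [Field Ω] [Algebra k Ω] {v : RVal Ω} [Fact (Ctx0 k v)]
    [CharP Ω p] [IsAlgClosed Ω] {C P L LP : IntermediateField k Ω} {G : AddSubgroup ℝ} {M : ℝ → Ω}
    {T : Submodule k (Opr v (PM v P G M))} {𝒜 : Submodule k (Module.End k Ω)}
    (H : HtOp p v C P L LP G M T 𝒜) {y : Ω} (hy : y ∈ PM v L G M)
    (ty : TL v (PM v P G M) y 0) : FV p v 𝒜 (PM v P G M) (cadj v (PM v P G M) y) := by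
  intro κ _ X f φ hφ hX hf hR l
  exact fvn_one_elt (complV_of_sphC H.sph) H.nx H.op H.nsd' ty hy hφ hX hf hR l

end Pool.Agent.TWHT
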