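import Pool.Agent.Lib.TWHT.ThO

/-!
# TANK W, leaf (Ht): the operators are combinations of the `Th N g`, up to a gain

`E` the perfect base, `T = clI v (L ⊔ E)`, `Th` the operators of `Tht`.

* `Tht.ge_comp`: `Th N i (Th N j y) = binom(i + j, i) Th N (i + j) y` up to a gain;
* `Tht.gain_ext`: for `φ` in the algebra generated by the `Th N j`, `Φ` its extension:
  `Φ = ∑_(0 < g < p ^ N) λ_g Th N g` up to a gain `κ > 0`, at every level `N ≥ N₀`;
* **`HtX.combG`**: the same for a finite family of operators of `𝒜`, one `κ`, one level;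
* `nr_of_gain`: the form modulo `B + O`.
-/

set_option autoImplicit false
set_option linter.unusedSectionVars false

open Polynomial

namespace Pool.Agent.TWHT

open Pool.Agent.H15JM (RVal)
open Pool.Agent.D2 (Ctx0)
open Pool.Agent.D2P (clI mem_clI)
open Pool.Agent.TWM
open Pool.Agent.TWC (Opr fn IsExt adjT adjT_induction lt_lev)

universe u

variable {k Ω : Type u} [Field k] [Field Ω] [Algebra k Ω] {v : RVal Ω} {p : ℕ}
  {C L E LE B : IntermediateField k Ω} {x c : ℕ → Ω} {r : ℝ} {Th : ℕ → ℕ → Ω → Ω}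

/-- The combination of the operators of level `N`. -/
noncomputable def cth (p : ℕ) (Th : ℕ → ℕ → Ω → Ω) (N : ℕ) (lam : ℕ → k) (y : Ω) : Ω :=
  ∑ g ∈ Finset.range (p ^ N), algebraMap k Ω (lam g) * Th N g y

/-- The coefficients at a larger level. -/
def lft (p m : ℕ) (lam : ℕ → k) (g : ℕ) : k := if p ^ m ∣ g then lam (g / p ^ m) else 0

theorem lft_zero {p m : ℕ} {lam : ℕ → k} : lft p m lam 0 = lam 0 := by
  rw [lft, if_pos (dvd_zero _), Nat.zero_div]

theorem sum_lft [hp : Fact p.Prime] (N m : ℕ) (lam : ℕ → k) (f : ℕ → Ω) :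
    ∑ g ∈ Finset.range (p ^ (N + m)), algebraMap k Ω (lft p m lam g) * f g =
      ∑ g ∈ Finset.range (p ^ N), algebraMap k Ω (lam g) * f (p ^ m * g) := by
  have hpm : 0 < p ^ m := pow_pos hp.out.pos m
  have h1 : ∀ g ∈ Finset.range (p ^ (N + m)), algebraMap k Ω (lft p m lam g) * f g =
      if p ^ m ∣ g then algebraMap k Ω (lam (g / p ^ m)) * f g else 0 := by
    intro g _
    rw [lft]
    split_ifs with h2
    · rfl
    · rw [map_zero, zero_mul]
  rw [Finset.sum_congr rfl h1, ← Finset.sum_filter]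
  refine Finset.sum_nbij' (fun g => g / p ^ m) (fun g => p ^ m * g) ?_ ?_ ?_ ?_ ?_
  · intro g hg
    rw [Finset.mem_filter, Finset.mem_range] at hg
    rw [Finset.mem_range]
    refine Nat.div_lt_of_lt_mul ?_
    rw [← pow_add, add_comm]
    exact hg.1
  · intro g hg
    rw [Finset.mem_range] at hg
    rw [Finset.mem_filter, Finset.mem_range]
    exact ⟨lt_lev hg, dvd_mul_right _ _⟩
  · intro g hg
    rw [Finset.mem_filter] at hg
    exact Nat.mul_div_cancel' hg.2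
  · intro g _
    exact Nat.mul_div_cancel_left g hpm
  · intro g hg
    rw [Finset.mem_filter] at hg
    rw [Nat.mul_div_cancel' hg.2]

theorem sum_conv (q : ℕ) (f : ℕ → ℕ → Ω) :
    ∑ n ∈ Finset.range q, ∑ i ∈ Finset.HasAntidiagonal.antidiagonal n, f i.1 i.2 =
      ∑ a ∈ Finset.range q, ∑ b ∈ Finset.range q, if a + b < q then f a b else 0 := by
  rw [← Finset.sum_product' (Finset.range q) (Finset.range q)
    (fun a b => if a + b < q then f a b else 0), ← Finset.sum_filter,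
    ← Finset.sum_fiberwise_of_maps_to (t := Finset.range q) (g := fun i : ℕ × ℕ => i.1 + i.2)]
  · refine Finset.sum_congr rfl fun n hn => Finset.sum_congr ?_ fun _ _ => rfl
    ext ⟨a, b⟩
    rw [Finset.mem_range] at hn
    simp only [Finset.HasAntidiagonal.mem_antidiagonal, Finset.mem_filter, Finset.mem_product,
      Finset.mem_range]
    constructor
    · intro h1
      exact ⟨⟨⟨by omega, by omega⟩, by omega⟩, h1⟩
    · exact fun h1 => h1.2
  · rintro ⟨a, b⟩ h1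
    simp only [Finset.mem_filter, Finset.mem_product, Finset.mem_range] at h1 ⊢
    exact h1.2

namespace Tht

variable [hp : Fact p.Prime] [CharP Ω p]

theorem cth_mem (h : Tht p v C L E x c r Th) (N : ℕ) (lam : ℕ → k) {y : Ω}
    (hy : y ∈ clI v (L ⊔ E)) : cth p Th N lam y ∈ clI v (L ⊔ E) :=
  sum_mem fun g _ => mul_mem (IntermediateField.algebraMap_mem _ _) (h.memT N g hy)

/-- The combination at a larger level. -/
theorem cth_lev (h : Tht p v C L E x c r Th) (N m : ℕ) (lam : ℕ → k) {y : Ω}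
    (hy : y ∈ clI v (L ⊔ E)) : cth p Th (N + m) (lft p m lam) y = cth p Th N lam y := by
  rw [cth, sum_lft, cth]
  refine Finset.sum_congr rfl fun g hg => ?_
  rw [h.lev' (Finset.mem_range.1 hg) m hy]

theorem cth_add (N : ℕ) (lam mu : ℕ → k) (y : Ω) :
    cth p Th N (lam + mu) y = cth p Th N lam y + cth p Th N mu y := by
  rw [cth, cth, cth, ← Finset.sum_add_distrib]
  refine Finset.sum_congr rfl fun g _ => ?_
  rw [Pi.add_apply, map_add, add_mul]

theorem cth_smul (N : ℕ) (a : k) (lam : ℕ → k) (y : Ω) :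
    cth p Th N (fun g => a * lam g) y = algebraMap k Ω a * cth p Th N lam y := by
  rw [cth, cth, Finset.mul_sum]
  refine Finset.sum_congr rfl fun g _ => ?_
  rw [map_mul, mul_assoc]

theorem cth_single (N : ℕ) {j : ℕ} (hj : j < p ^ N) (a : k) (y : Ω) :
    cth p Th N (Pi.single j a) y = algebraMap k Ω a * Th N j y := by
  rw [cth, Finset.sum_eq_single j]
  · rw [Pi.single_eq_same]
  · intro g _ hg
    rw [Pi.single_eq_of_ne hg, map_zero, zero_mul]
  · intro h1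
    exact absurd (Finset.mem_range.2 hj) h1

theorem cth_sub (h : Tht p v C L E x c r Th) (N : ℕ) (lam : ℕ → k) {y z : Ω}
    (hy : y ∈ clI v (L ⊔ E)) (hz : z ∈ clI v (L ⊔ E)) :
    cth p Th N lam (y - z) = cth p Th N lam y - cth p Th N lam z := by
  rw [cth, cth, cth, ← Finset.sum_sub_distrib]
  refine Finset.sum_congr rfl fun g _ => ?_
  rw [h.sub N g hy hz, mul_sub]

/-- The product of two combinations. -/
noncomputable def cmul (lam mu : ℕ → k) (n : ℕ) : k :=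
  ∑ i ∈ Finset.HasAntidiagonal.antidiagonal n, lam i.1 * mu i.2 * ((n.choose i.1 : ℕ) : k)

/-- The powers of an element near to `1`. -/
theorem exists_one_unit_gain {η : Ω} (hη : Gt v 0 (η - 1)) :
    ∃ κ : ℝ, 0 < κ ∧ ∀ n : ℕ, v.Ge κ (η ^ n - 1) := by
  obtain ⟨κ, hκ0, hκ⟩ : ∃ κ : ℝ, 0 < κ ∧ v.Ge κ (η - 1) := by
    by_cases h1 : η - 1 = 0
    · exact ⟨1, one_pos, by rw [h1]; exact RVal.Ge.zero⟩
    · exact ⟨_, hη h1, RVal.ge_self _⟩
  refine ⟨κ, hκ0, fun n => ?_⟩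
  induction n with
  | zero =>
    rw [pow_zero, sub_self]
    exact RVal.Ge.zero
  | succ n ih =>
    have e1 : η ^ (n + 1) - 1 = η ^ n * (η - 1) + (η ^ n - 1) := by ring
    rw [e1]
    have h1 := (TWC.ge_one_unit (TWC.one_unit_pow hη n)).mul hκ
    rw [zero_add] at h1
    exact h1.add ih

/-- The composition, up to a gain. -/
theorem ge_comp [hcx : Fact (Ctx0 k v)] (h : Tht p v C L E x c r Th) (N : ℕ) :
    ∃ κ : ℝ, 0 < κ ∧ ∀ i j, i < p ^ N → j < p ^ N → ∀ y ∈ clI v (L ⊔ E), ∀ b, v.Ge b y →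
      v.Ge (b + κ) (Th N i (Th N j y) -
        if i + j < p ^ N then (((i + j).choose i : ℕ) : Ω) * Th N (i + j) y else 0) := by
  obtain ⟨η, hηE, hη, hηc⟩ := h.exists_eta N
  obtain ⟨κ, hκ0, hκ⟩ := exists_one_unit_gain hη
  refine ⟨κ, hκ0, fun i j hi hj y hy b hb => ?_⟩
  have hηT : ∀ n, η ^ n ∈ clI v (L ⊔ E) := fun n => h.dat.leE (pow_mem hηE n)
  have hm := h.memT N j hy
  have hb1 := h.ge hj hy hb
  -- the defect
  have h1 : v.Ge (b + κ) (Th N i (Th N j y) - η ^ i * Th N i (η ^ j * Th N j y)) := by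
    have e1 : Th N i (Th N j y) - η ^ i * Th N i (η ^ j * Th N j y) =
        -(Th N i (η ^ j * Th N j y - Th N j y) + (η ^ i - 1) * Th N i (η ^ j * Th N j y)) := by
      rw [h.sub N i (mul_mem (hηT j) hm) hm]
      ring
    rw [e1]
    refine (RVal.Ge.add ?_ ?_).neg
    · refine h.ge hi (sub_mem (mul_mem (hηT j) hm) hm) ?_
      have e2 : η ^ j * Th N j y - Th N j y = (η ^ j - 1) * Th N j y := by ring
      rw [e2]
      exact ((hκ j).mul hb1).mono (by linarith)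
    · have h2 := (TWC.ge_one_unit (TWC.one_unit_pow hη j)).mul hb1
      rw [zero_add] at h2
      exact ((hκ i).mul (h.ge hi (mul_mem (hηT j) hm) h2)).mono (by linarith)
  split_ifs with hij
  · rw [h.psi_comp hi hj hij hηc hy] at h1
    have h2 := (ge_natCast' hcx.out ((i + j).choose i)).mul ((hκ (i + j)).mul (h.ge hij hy hb))
    have e3 : Th N i (Th N j y) - (((i + j).choose i : ℕ) : Ω) * Th N (i + j) y =
        (Th N i (Th N j y) - (((i + j).choose i : ℕ) : Ω) * (η ^ (i + j) * Th N (i + j) y)) +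
          (((i + j).choose i : ℕ) : Ω) * ((η ^ (i + j) - 1) * Th N (i + j) y) := by ring
    rw [e3]
    exact h1.add (h2.mono (by linarith))
  · rw [h.psi_comp_zero hi hj (not_lt.1 hij) hηc hy] at h1
    exact h1

/-- The norm of a combination. -/
theorem ge_cth [hcx : Fact (Ctx0 k v)] (h : Tht p v C L E x c r Th) (N : ℕ) (lam : ℕ → k) {y : Ω}
    (hy : y ∈ clI v (L ⊔ E)) {b : ℝ} (hb : v.Ge b y) : v.Ge b (cth p Th N lam y) := by
  classical
  rw [cth]
  refine Finset.sum_induction _ (fun z => v.Ge b z) (fun _ _ => RVal.Ge.add)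
    RVal.Ge.zero fun g hg => ?_
  have h1 := (hcx.out.ge (lam g)).mul (h.ge (Finset.mem_range.1 hg) hy hb)
  rwa [zero_add] at h1

/-- **The product of two combinations, up to a gain.** -/
theorem cth_cth [hcx : Fact (Ctx0 k v)] (h : Tht p v C L E x c r Th) (N : ℕ) :
    ∃ κ : ℝ, 0 < κ ∧ ∀ lam mu : ℕ → k, ∀ y ∈ clI v (L ⊔ E), ∀ b, v.Ge b y →
      v.Ge (b + κ) (cth p Th N lam (cth p Th N mu y) - cth p Th N (cmul lam mu) y) := by
  classical
  obtain ⟨κ, hκ0, hκ⟩ := h.ge_comp N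
  refine ⟨κ, hκ0, fun lam mu y hy β hβ => ?_⟩
  have e1 : cth p Th N lam (cth p Th N mu y) = ∑ a ∈ Finset.range (p ^ N),
      ∑ b ∈ Finset.range (p ^ N), algebraMap k Ω (lam a * mu b) * Th N a (Th N b y) := by
    rw [cth]
    refine Finset.sum_congr rfl fun a ha => ?_
    rw [cth, h.sum N a _ _ fun b _ => mul_mem (IntermediateField.algebraMap_mem _ _)
      (h.memT N b hy), Finset.mul_sum]
    refine Finset.sum_congr rfl fun b _ => ?_
    rw [h.smul (Finset.mem_range.1 ha) _ (h.memT N b hy), map_mul, mul_assoc]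
  have e2 : cth p Th N (cmul lam mu) y = ∑ a ∈ Finset.range (p ^ N),
      ∑ b ∈ Finset.range (p ^ N), if a + b < p ^ N then algebraMap k Ω (lam a * mu b) *
        ((((a + b).choose a : ℕ) : Ω) * Th N (a + b) y) else 0 := by
    rw [← sum_conv (p ^ N) fun a b => algebraMap k Ω (lam a * mu b) *
        ((((a + b).choose a : ℕ) : Ω) * Th N (a + b) y), cth]
    refine Finset.sum_congr rfl fun n _ => ?_
    rw [cmul, map_sum, Finset.sum_mul]
    refine Finset.sum_congr rfl fun i hi => ?_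
    rw [Finset.HasAntidiagonal.mem_antidiagonal] at hi
    rw [hi, map_mul, map_natCast, mul_assoc]
  rw [e1, e2, ← Finset.sum_sub_distrib]
  refine Finset.sum_induction _ (fun z => v.Ge (β + κ) z) (fun _ _ => RVal.Ge.add)
    RVal.Ge.zero fun a ha => ?_
  rw [← Finset.sum_sub_distrib]
  refine Finset.sum_induction _ (fun z => v.Ge (β + κ) z) (fun _ _ => RVal.Ge.add)
    RVal.Ge.zero fun b hb => ?_
  rw [Finset.mem_range] at ha hb
  have h1 := (hcx.out.ge (lam a * mu b)).mul (hκ a b ha hb y hy β hβ)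
  rw [zero_add] at h1
  refine Eq.mp (congrArg (fun t => v.Ge (β + κ) t) ?_) h1
  split_ifs
  · ring
  · ring

/-! ### The operators of the base -/

section Opr

variable [hcx : Fact (Ctx0 k v)]

/-- The predicate of the induction. -/
def GnP (p : ℕ) (v : RVal Ω) [Fact (Ctx0 k v)] (L E : IntermediateField k Ω)
    (Th : ℕ → ℕ → Ω → Ω) (φ : Opr v E) : Prop :=
  ∃ Φ : Opr v (clI v (L ⊔ E)), IsExt L φ Φ ∧ ∃ (N : ℕ) (lam : ℕ → k) (κ : ℝ), lam 0 = 0 ∧ 0 < κ ∧
    ∀ y ∈ clI v (L ⊔ E), ∀ b, v.Ge b y → v.Ge (b + κ) (fn Φ y - cth p Th N lam y)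

theorem gnP (h : Tht p v C L E x c r Th) {φ : Opr v E} (hφ : φ ∈ adjT (genT p v E Th)) :
    GnP p v L E Th φ := by
  have hL := h.dat.leL
  have hE := h.dat.leE
  refine adjT_induction (P := fun φ => GnP p v L E Th φ) ?_ ?_ ?_ ?_ ?_ hφ
  · rintro φ ⟨N, j, h0, hj, h1⟩
    obtain ⟨Φ, hΦ⟩ := h.exists_opr hj
    refine ⟨Φ, ⟨fun e he => by rw [hΦ e (hE he), h1 e he], fun l hl y hy => by
      rw [hΦ _ (mul_mem (hL hl) hy), hΦ _ hy, h.lin hj hl hy]⟩, N, Pi.single j 1, 1,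
      Pi.single_eq_of_ne h0.ne _, one_pos, fun y hy b _ => ?_⟩
    rw [hΦ y hy, cth_single N hj, map_one, one_mul, sub_self]
    exact RVal.Ge.zero
  · refine ⟨0, ⟨fun e _ => by rw [TWC.fn_opZero, TWC.fn_opZero], fun l _ y _ => by
      rw [TWC.fn_opZero, TWC.fn_opZero, mul_zero]⟩, 0, 0, 1, rfl, one_pos, fun y _ b _ => ?_⟩
    rw [TWC.fn_opZero, cth, Finset.sum_eq_zero fun g _ => by rw [Pi.zero_apply, map_zero, zero_mul],
      sub_zero]
    exact RVal.Ge.zero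
  · rintro φ ψ ⟨Φ, h1, N, lam, κ, h3, hκ, h4⟩ ⟨Ψ, h1', N', mu, κ', h3', hκ', h4'⟩
    refine ⟨Φ + Ψ, ⟨fun e he => by rw [TWC.fn_opAdd, TWC.fn_opAdd, h1.eq e he, h1'.eq e he],
        fun l hl y hy => by
          rw [TWC.fn_opAdd, TWC.fn_opAdd, h1.lin l hl y hy, h1'.lin l hl y hy, mul_add]⟩,
      N + N', lft p N' lam + lft p N mu, min κ κ', ?_, lt_min hκ hκ', fun y hy b hb => ?_⟩
    · rw [Pi.add_apply, lft_zero, lft_zero, h3, h3', add_zero]
    · rw [TWC.fn_opAdd, cth_add, h.cth_lev N N' lam hy, add_comm N N', h.cth_lev N' N mu hy,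
        add_sub_add_comm]
      exact ((h4 y hy b hb).mono (by linarith [min_le_left κ κ'])).add
        ((h4' y hy b hb).mono (by linarith [min_le_right κ κ']))
  · rintro a φ ⟨Φ, h1, N, lam, κ, h3, hκ, h4⟩
    refine ⟨a • Φ, ⟨fun e he => by rw [TWC.fn_opSmul, TWC.fn_opSmul, h1.eq e he],
        fun l hl y hy => by rw [TWC.fn_opSmul, TWC.fn_opSmul, h1.lin l hl y hy, mul_smul_comm]⟩,
      N, fun g => a * lam g, κ, ?_, hκ, fun y hy b hb => ?_⟩
    · change a * lam 0 = 0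
      rw [h3, mul_zero]
    · rw [TWC.fn_opSmul, Algebra.smul_def, cth_smul, ← mul_sub]
      have := (hcx.out.ge a).mul (h4 y hy b hb)
      rwa [zero_add] at this
  · rintro φ ψ ⟨Φ, h1, N, lam, κ, h3, hκ, h4⟩ ⟨Ψ, h1', N', mu, κ', h3', hκ', h4'⟩
    obtain ⟨κ'', hκ'', h7⟩ := h.cth_cth (N + N')
    refine ⟨Φ * Ψ, ⟨fun e he => by
        rw [TWC.fn_opMul _ _ (hE he), TWC.fn_opMul _ _ he, h1'.eq e he, h1.eq _ (TWC.fn_mem _ _)],
        fun l hl y hy => by
        rw [TWC.fn_opMul _ _ (mul_mem (hL hl) hy), TWC.fn_opMul _ _ hy, h1'.lin l hl y hy,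
          h1.lin l hl _ (TWC.fn_mem _ _)]⟩, N + N', cmul (lft p N' lam) (lft p N mu),
      min κ (min κ' κ''), ?_, lt_min hκ (lt_min hκ' hκ''), fun y hy b hb => ?_⟩
    · refine Finset.sum_eq_zero fun i hi => ?_
      rw [Finset.HasAntidiagonal.mem_antidiagonal] at hi
      rw [(Nat.add_eq_zero_iff.1 hi).1, lft_zero, h3, zero_mul, zero_mul]
    · rw [TWC.fn_opMul _ _ hy]
      have hΨ := TWC.fn_mem Ψ y
      have hc := h.cth_mem N' mu hy
      have h5 := h4 _ hΨ b (TWC.fn_ge Ψ hy hb)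
      have h6 := h.ge_cth N lam (sub_mem hΨ hc) (h4' y hy b hb)
      rw [h.cth_sub N lam hΨ hc] at h6
      have h8 := h7 (lft p N' lam) (lft p N mu) y hy b hb
      rw [add_comm N N', h.cth_lev N' N mu hy, add_comm N' N, h.cth_lev N N' lam hc] at h8
      have e1 : fn Φ (fn Ψ y) - cth p Th (N + N') (cmul (lft p N' lam) (lft p N mu)) y =
          (fn Φ (fn Ψ y) - cth p Th N lam (fn Ψ y)) +
            (cth p Th N lam (fn Ψ y) - cth p Th N lam (cth p Th N' mu y)) +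
            (cth p Th N lam (cth p Th N' mu y) -
              cth p Th (N + N') (cmul (lft p N' lam) (lft p N mu)) y) := by ring
      rw [e1]
      have m1 := min_le_left κ (min κ' κ'')
      have m2 := (min_le_right κ (min κ' κ'')).trans (min_le_left κ' κ'')
      have m3 := (min_le_right κ (min κ' κ'')).trans (min_le_right κ' κ'')
      exact ((h5.mono (by linarith)).add (h6.mono (by linarith))).add (h8.mono (by linarith))

/-- **The extensions are combinations of the `Th N g`, `g > 0`, up to a gain**, at every large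
level. -/
theorem gain_ext (h : Tht p v C L E x c r Th) {φ : Opr v E} (hφ : φ ∈ adjT (genT p v E Th)) :
    ∃ (N₀ : ℕ) (κ : ℝ), 0 < κ ∧ ∀ N ≥ N₀, ∃ lam : ℕ → k, lam 0 = 0 ∧
      ∀ Φ : Opr v (clI v (L ⊔ E)), IsExt L φ Φ → ∀ y ∈ clI v (L ⊔ E), ∀ b, v.Ge b y →
        v.Ge (b + κ)
          (fn Φ y - ∑ g ∈ Finset.range (p ^ N), algebraMap k Ω (lam g) * Th N g y) := by
  obtain ⟨Φ', h1, N₀, lam, κ, h3, hκ, h4⟩ := h.gnP hφ
  refine ⟨N₀, κ, hκ, fun N hN => ?_⟩
  obtain ⟨m, rfl⟩ := Nat.exists_eq_add_of_le hN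
  refine ⟨lft p m lam, by rw [lft_zero, h3], fun Φ hΦ y hy b hb => ?_⟩
  have h5 := h.cth_lev N₀ m lam hy
  rw [cth] at h5
  rw [h5, h.ext_uniq hΦ h1 hy]
  exact h4 y hy b hb

end Opr

end Tht

/-- The form modulo `B + O`. -/
theorem nr_of_gain {S : Set Ω} {f : Ω → Ω} {κ : ℝ} (hκ : 0 < κ)
    (hf : ∀ y ∈ S, ∀ b, v.Ge b y → v.Ge (b + κ) (f y))
    (hsub : ∀ y ∈ S, ∀ z ∈ S, f (y - z) = f y - f z) (hS : ∀ y ∈ S, ∀ z ∈ S, y - z ∈ S)
    (hB : ∀ y ∈ B, y ∈ S ∧ f y ∈ B) {y : Ω} (hy : y ∈ S) (hl : Lim v B 0 y) :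
    Nr v B 0 (f y) := by
  obtain ⟨e, he, h1⟩ := hl κ hκ
  obtain ⟨h2, h3⟩ := hB e he
  refine ⟨f e, h3, ?_⟩
  rw [← hsub y hy e h2]
  exact (hf _ (hS y hy e h2) _ h1).mono (by linarith)

section X

variable [hcx : Fact (Ctx0 k v)] {p : ℕ} [hp : Fact p.Prime] [CharP k p] [CharP Ω p]
  [PerfectRing k p] {C P L LP : IntermediateField k Ω} {G : AddSubgroup ℝ} {M : ℝ → Ω}
  {T : Submodule k (Opr v (TWS.PM v P G M))} {𝒜 : Submodule k (Module.End k Ω)}
  {x : ℕ → Ω} {r : ℝ} {Th : ℕ → ℕ → Ω → Ω}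

/-- The operators of `T`, up to a gain. -/
theorem HtX.combT (X : HtX p v C P L LP G M T 𝒜 x r Th) {φ : Opr v (TWS.PM v P G M)}
    (hφ : φ ∈ T) : ∃ (N₀ : ℕ) (κ : ℝ), 0 < κ ∧ ∀ N ≥ N₀, ∃ lam : ℕ → k, lam 0 = 0 ∧
      ∀ Φ : Opr v (TWS.PM v LP G M), IsExt (TWS.PM v L G M) φ Φ → ∀ y ∈ TWS.PM v LP G M,
        ∀ b, v.Ge b y → v.Ge (b + κ)
          (fn Φ y - ∑ g ∈ Finset.range (p ^ N), algebraMap k Ω (lam g) * Th N g y) := by
  have h1 := X.gen
  rw [h1] at hφ
  have h2 := X.tht.gain_ext hφ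
  have he := X.eqT
  rw [he]
  exact h2

/-- **The operators of `𝒜`, up to a gain**: a finite family, one gain, one level. -/
theorem HtX.combG (X : HtX p v C P L LP G M T 𝒜 x r Th) (H : HtOp p v C P L LP G M T 𝒜)
    {ι : Type*} [Finite ι] {ψ : ι → Module.End k Ω} (hψ : ∀ i, ψ i ∈ 𝒜) :
    ∃ (N₀ : ℕ) (κ : ℝ), 0 < κ ∧ ∀ N ≥ N₀, ∃ lam : ι → ℕ → k, ∀ i, ∀ y ∈ TWS.PM v LP G M,
      ∀ b, v.Ge b y → v.Ge (b + κ)
        (ψ i y - ∑ g ∈ Finset.range (p ^ N), algebraMap k Ω (lam i g) * Th N g y) := by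
  classical
  have := Fintype.ofFinite ι
  have key : ∀ i, ∃ (N₀ : ℕ) (κ : ℝ), 0 < κ ∧ ∀ N ≥ N₀, ∃ lam : ℕ → k,
      ∀ y ∈ TWS.PM v LP G M, ∀ b, v.Ge b y → v.Ge (b + κ)
        (ψ i y - ∑ g ∈ Finset.range (p ^ N), algebraMap k Ω (lam g) * Th N g y) := by
    intro i
    obtain ⟨a, φ, Φ, hφ, hΦ, h1⟩ := H.rep _ (hψ i)
    obtain ⟨N₀, κ, hκ, h2⟩ := X.combT hφ
    refine ⟨N₀, κ, hκ, fun N hN => ?_⟩
    obtain ⟨lam, -, h3⟩ := h2 N hN
    refine ⟨Pi.single 0 a + lam, fun y hy b hb => ?_⟩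
    have hy' : y ∈ clI v (TWS.PM v L G M ⊔ TWS.PM v P G M) := by rwa [← X.eqT]
    have h4 := h3 Φ hΦ y hy b hb
    have h5 : ∑ g ∈ Finset.range (p ^ N), algebraMap k Ω ((Pi.single 0 a + lam : ℕ → k) g) *
        Th N g y = algebraMap k Ω a * y +
          ∑ g ∈ Finset.range (p ^ N), algebraMap k Ω (lam g) * Th N g y := by
      have h6 := Tht.cth_add (p := p) (Th := Th) N (Pi.single 0 a) lam y
      rw [Tht.cth_single _ (pow_pos hp.out.pos _), X.tht.zero _ hy'] at h6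
      exact h6
    rw [h1 y hy, h5, add_sub_add_left_eq_sub]
    exact h4
  choose N₁ κ hκ h1 using key
  rcases isEmpty_or_nonempty ι with hι | hι
  · exact ⟨0, 1, one_pos, fun N _ => ⟨fun i => isEmptyElim i, fun i => isEmptyElim i⟩⟩
  refine ⟨Finset.univ.sup N₁, Finset.univ.inf' Finset.univ_nonempty κ, ?_, fun N hN => ?_⟩
  · rw [Finset.lt_inf'_iff]
    exact fun i _ => hκ i
  · choose lam h2 using fun i => h1 i N ((Finset.le_sup (Finset.mem_univ i)).trans hN)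
    refine ⟨lam, fun i y hy b hb => (h2 i y hy b hb).mono ?_⟩
    have := Finset.inf'_le κ (Finset.mem_univ i)
    linarith

end X

end Pool.Agent.TWHT
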