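import Pool.Agent.Lib.TWHT.ThO

/-!
# TANK W, leaf (Ht): the algebra generated by the operators `Th N j`, up to a gain

* `Gn v T f g`: `f - g` has a uniform gain on `T`;
* **`Tht.exists_gain`**: the elements of the algebra generated by the `Th N j` are `k`-combinations of
  the `Th N j`, up to a gain; `HtX.gain`, **`HtX.gainA`**;
* `HtX.lim_x`: the roots of the letter are near to the constants.
-/

set_option autoImplicit false
set_option linter.unusedSectionVars false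

open Polynomial

namespace Pool.Agent.TWHT

open Pool.Agent.H15JM (RVal)
open Pool.Agent.LU1 (VPos adj)
open Pool.Agent.D2 (Ctx0)
open Pool.Agent.D2P (clI mem_clI)
open Pool.Agent.TWM Pool.Agent.TWS
open Pool.Agent.TWC (Opr fn IsExt Tgt EW adjT fn_opMul fn_opAdd fn_opZero fn_opSmul fn_mem fn_ge
  ge_one_unit fn_add fn_sub)

universe u

variable {k Ω : Type u} [Field k] [Field Ω] [Algebra k Ω] {v : RVal Ω}
  {T : IntermediateField k Ω}

/-- `f - g` has a uniform gain on `T`. -/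
def Gn (v : RVal Ω) (T : IntermediateField k Ω) (f g : Ω → Ω) : Prop :=
  ∃ κ : ℝ, 0 < κ ∧ ∀ y ∈ T, ∀ b : ℝ, v.Ge b y → v.Ge (b + κ) (f y - g y)

namespace Gn

theorem refl (f : Ω → Ω) : Gn v T f f := ⟨1, one_pos, fun y _ b _ => by
  rw [sub_self]
  exact RVal.Ge.zero⟩

theorem of_eq {f g : Ω → Ω} (h : ∀ y ∈ T, f y = g y) : Gn v T f g := ⟨1, one_pos, fun y hy b _ => by
  rw [h y hy, sub_self]
  exact RVal.Ge.zero⟩

theorem trans {f g h : Ω → Ω} (h1 : Gn v T f g) (h2 : Gn v T g h) : Gn v T f h := by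
  obtain ⟨κ, hκ, h1⟩ := h1
  obtain ⟨κ', hκ', h2⟩ := h2
  refine ⟨min κ κ', lt_min hκ hκ', fun y hy b hb => ?_⟩
  have e : f y - h y = (f y - g y) + (g y - h y) := by ring
  rw [e]
  exact ((h1 y hy b hb).mono (by linarith [min_le_left κ κ'])).add
    ((h2 y hy b hb).mono (by linarith [min_le_right κ κ']))

theorem add {f g f' g' : Ω → Ω} (h1 : Gn v T f g) (h2 : Gn v T f' g') :
    Gn v T (f + f') (g + g') := by
  obtain ⟨κ, hκ, h1⟩ := h1
  obtain ⟨κ', hκ', h2⟩ := h2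
  refine ⟨min κ κ', lt_min hκ hκ', fun y hy b hb => ?_⟩
  have e : (f + f') y - (g + g') y = (f y - g y) + (f' y - g' y) := by
    rw [Pi.add_apply, Pi.add_apply]
    ring
  rw [e]
  exact ((h1 y hy b hb).mono (by linarith [min_le_left κ κ'])).add
    ((h2 y hy b hb).mono (by linarith [min_le_right κ κ']))

theorem smul (h0 : Ctx0 k v) {f g : Ω → Ω} (a : k) (h1 : Gn v T f g) :
    Gn v T (a • f) (a • g) := by
  obtain ⟨κ, hκ, h1⟩ := h1
  refine ⟨κ, hκ, fun y hy b hb => ?_⟩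
  rw [Pi.smul_apply, Pi.smul_apply, ← smul_sub, Algebra.smul_def]
  have := (h0.ge a).mul (h1 y hy b hb)
  rwa [zero_add] at this

/-- composition on the right -/
theorem comp_right {f g h : Ω → Ω} (h1 : Gn v T f g) (hT : ∀ y ∈ T, h y ∈ T)
    (hge : ∀ y ∈ T, ∀ b : ℝ, v.Ge b y → v.Ge b (h y)) :
    Gn v T (fun y => f (h y)) fun y => g (h y) := by
  obtain ⟨κ, hκ, h1⟩ := h1
  exact ⟨κ, hκ, fun y hy b hb => h1 _ (hT y hy) b (hge y hy b hb)⟩

/-- composition on the left -/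
theorem comp_left {f g h : Ω → Ω} (h1 : Gn v T f g) (hf : ∀ y ∈ T, f y ∈ T)
    (hg : ∀ y ∈ T, g y ∈ T) (hsub : ∀ y ∈ T, ∀ z ∈ T, h (y - z) = h y - h z)
    (hge : ∀ y ∈ T, ∀ b : ℝ, v.Ge b y → v.Ge b (h y)) :
    Gn v T (fun y => h (f y)) fun y => h (g y) := by
  obtain ⟨κ, hκ, h1⟩ := h1
  refine ⟨κ, hκ, fun y hy b hb => ?_⟩
  rw [← hsub _ (hf y hy) _ (hg y hy)]
  exact hge _ (sub_mem (hf y hy) (hg y hy)) _ (h1 y hy b hb)

end Gn

theorem ge_pow_sub_one {η : Ω} {κ : ℝ} (h0 : v.Ge 0 η) (h : v.Ge κ (η - 1)) (m : ℕ) :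
    v.Ge κ (η ^ m - 1) := by
  induction m with
  | zero =>
    rw [pow_zero, sub_self]
    exact RVal.Ge.zero
  | succ m ih =>
    have e : η ^ (m + 1) - 1 = η * (η ^ m - 1) + (η - 1) := by ring
    rw [e]
    have := h0.mul ih
    rw [zero_add] at this
    exact this.add h

variable {p : ℕ} {C L E : IntermediateField k Ω} {x c : ℕ → Ω} {r : ℝ} {Th : ℕ → ℕ → Ω → Ω}

namespace Tht

variable [hp : Fact p.Prime] [CharP Ω p] [hcx : Fact (Ctx0 k v)]

/-- Composition of two operators of the same level, up to a gain. -/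
theorem gn_comp (h : Tht p v C L E x c r Th) {N i j : ℕ} (hi : i < p ^ N) (hj : j < p ^ N) :
    Gn v (clI v (L ⊔ E)) (fun y => Th N i (Th N j y))
      (fun y => if i + j < p ^ N then (((i + j).choose i : ℕ) : Ω) * Th N (i + j) y else 0) := by
  obtain ⟨η, hηE, hη, hηc⟩ := h.exists_eta N
  obtain ⟨κ, hκ0, hκ⟩ : ∃ κ : ℝ, 0 < κ ∧ v.Ge κ (η - 1) := by
    by_cases h1 : η - 1 = 0
    · exact ⟨1, one_pos, by rw [h1]; exact RVal.Ge.zero⟩
    · exact ⟨_, hη h1, RVal.ge_self _⟩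
  have hη0 := ge_one_unit hη
  have hηT : ∀ m, η ^ m ∈ clI v (L ⊔ E) := fun m => pow_mem (h.dat.leE hηE) m
  have hpw : ∀ m, v.Ge 0 (η ^ m) := fun m => by
    have := TWM.ge_pow hη0 m
    rwa [mul_zero] at this
  refine ⟨κ, hκ0, fun y hy b hb => ?_⟩
  have hz := h.memT N j hy
  have hzb := h.ge hj hy hb
  have h1 : v.Ge (b + κ) (Th N i ((η ^ j - 1) * Th N j y)) := by
    refine h.ge hi (mul_mem (sub_mem (hηT j) (one_mem _)) hz) ?_
    rw [add_comm]
    exact (ge_pow_sub_one hη0 hκ j).mul hzb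
  have h2 : v.Ge (b + κ) ((η ^ i - 1) * Th N i (η ^ j * Th N j y)) := by
    rw [add_comm]
    refine (ge_pow_sub_one hη0 hκ i).mul (h.ge hi (mul_mem (hηT j) hz) ?_)
    have := (hpw j).mul hzb
    rwa [zero_add] at this
  have e1 : Th N i (Th N j y) = η ^ i * Th N i (η ^ j * Th N j y) -
      (η ^ i - 1) * Th N i (η ^ j * Th N j y) - Th N i ((η ^ j - 1) * Th N j y) := by
    have e2 : (η ^ j - 1) * Th N j y = η ^ j * Th N j y - Th N j y := by ring
    rw [e2, h.sub N i (mul_mem (hηT j) hz) hz]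
    ring
  split_ifs with hij
  · have h3 : v.Ge (b + κ) ((((i + j).choose i : ℕ) : Ω) * ((η ^ (i + j) - 1) * Th N (i + j) y)) := by
      have := (ge_natCast' hcx.out ((i + j).choose i)).mul
        ((ge_pow_sub_one hη0 hκ (i + j)).mul (h.ge hij hy hb))
      rw [zero_add, add_comm κ b] at this
      exact this
    have e3 : Th N i (Th N j y) - (((i + j).choose i : ℕ) : Ω) * Th N (i + j) y =
        (((i + j).choose i : ℕ) : Ω) * ((η ^ (i + j) - 1) * Th N (i + j) y) -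
          (η ^ i - 1) * Th N i (η ^ j * Th N j y) - Th N i ((η ^ j - 1) * Th N j y) := by
      rw [e1, h.psi_comp hi hj hij hηc hy]
      ring
    rw [e3]
    exact (h3.sub h2).sub h1
  · have e3 : Th N i (Th N j y) - 0 =
        -((η ^ i - 1) * Th N i (η ^ j * Th N j y)) - Th N i ((η ^ j - 1) * Th N j y) := by
      rw [e1, h.psi_comp_zero hi hj (not_lt.1 hij) hηc hy]
      ring
    rw [e3]
    exact h2.neg.sub h1

/-- The composition of two operators, up to a gain. -/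
theorem gn_comp' (h : Tht p v C L E x c r Th) {N N' i j : ℕ} (hi0 : 0 < i)
    (hi : i < p ^ N) (hj : j < p ^ N') : ∃ f ∈ Submodule.span k (genF p Th),
      Gn v (clI v (L ⊔ E)) (fun y => Th N i (Th N' j y)) f := by
  have hi' : p ^ N' * i < p ^ (N + N') := TWC.lt_lev hi
  have hj' : p ^ N * j < p ^ (N + N') := by
    rw [add_comm]
    exact TWC.lt_lev hj
  have e1 : ∀ z ∈ clI v (L ⊔ E), Th N i z = Th (N + N') (p ^ N' * i) z := fun z hz =>
    (h.lev' hi N' hz).symm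
  have e2 : ∀ z ∈ clI v (L ⊔ E), Th N' j z = Th (N + N') (p ^ N * j) z := fun z hz => by
    rw [add_comm]
    exact (h.lev' hj N hz).symm
  have e3 : ∀ y ∈ clI v (L ⊔ E), Th N i (Th N' j y) =
      Th (N + N') (p ^ N' * i) (Th (N + N') (p ^ N * j) y) := fun y hy => by
    rw [e1 _ (h.memT _ _ hy), e2 y hy]
  have ha0 : 0 < p ^ N' * i := Nat.mul_pos (pow_pos hp.out.pos _) hi0
  generalize p ^ N' * i = α at *
  generalize p ^ N * j = β at *
  have h1 := (Gn.of_eq (v := v) e3).trans (h.gn_comp hi' hj')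
  by_cases hab : α + β < p ^ (N + N')
  · refine ⟨(((α + β).choose α : ℕ) : k) • Th (N + N') (α + β),
      Submodule.smul_mem _ _ (Submodule.subset_span ⟨N + N', α + β, by omega, hab, rfl⟩), ?_⟩
    refine h1.trans (Gn.of_eq fun y _ => ?_)
    rw [if_pos hab, Pi.smul_apply, Algebra.smul_def, map_natCast]
  · refine ⟨0, zero_mem _, h1.trans (Gn.of_eq fun y _ => ?_)⟩
    rw [if_neg hab, Pi.zero_apply]

theorem span_gn (h : Tht p v C L E x c r Th) {f g : Ω → Ω}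
    (hf : f ∈ Submodule.span k (genF p Th)) (hg : g ∈ Submodule.span k (genF p Th)) :
    ∃ f' ∈ Submodule.span k (genF p Th), Gn v (clI v (L ⊔ E)) (fun y => f (g y)) f' := by
  induction hf using Submodule.span_induction with
  | mem f hf =>
    obtain ⟨N, i, hi0, hi, rfl⟩ := hf
    induction hg using Submodule.span_induction with
    | mem g hg =>
      obtain ⟨N', j, -, hj, rfl⟩ := hg
      exact h.gn_comp' hi0 hi hj
    | zero =>
      refine ⟨0, zero_mem _, Gn.of_eq fun y _ => ?_⟩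
      rw [Pi.zero_apply, h.map_zero']
    | add g g' hg hg' ih ih' =>
      obtain ⟨f₁, hf₁, h1⟩ := ih
      obtain ⟨f₂, hf₂, h2⟩ := ih'
      refine ⟨f₁ + f₂, add_mem hf₁ hf₂, (Gn.of_eq fun y hy => ?_).trans (h1.add h2)⟩
      rw [Pi.add_apply, h.add N i ((h.span_op hg).1 y hy) ((h.span_op hg').1 y hy)]
      rfl
    | smul a g hg ih =>
      obtain ⟨f₁, hf₁, h1⟩ := ih
      refine ⟨a • f₁, Submodule.smul_mem _ _ hf₁,
        (Gn.of_eq fun y hy => ?_).trans (h1.smul hcx.out a)⟩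
      have h3 := h.smul hi a ((h.span_op hg).1 y hy)
      rw [← Algebra.smul_def, ← Algebra.smul_def] at h3
      rw [Pi.smul_apply, h3]
      rfl
  | zero => exact ⟨0, zero_mem _, Gn.of_eq fun y _ => rfl⟩
  | add f₁ f₂ _ _ ih ih' =>
    obtain ⟨g₁, hg₁, h1⟩ := ih
    obtain ⟨g₂, hg₂, h2⟩ := ih'
    exact ⟨g₁ + g₂, add_mem hg₁ hg₂, h1.add h2⟩
  | smul a f _ ih =>
    obtain ⟨g₁, hg₁, h1⟩ := ih
    exact ⟨a • g₁, Submodule.smul_mem _ _ hg₁, h1.smul hcx.out a⟩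

/-- **The algebra of the operators, up to a gain.** -/
theorem exists_gn (h : Tht p v C L E x c r Th) {φ : Opr v E}
    (hφ : φ ∈ adjT (genT p v E Th)) : ∃ f ∈ Submodule.span k (genF p Th),
      ∀ Φ : Opr v (clI v (L ⊔ E)), IsExt L φ Φ → Gn v (clI v (L ⊔ E)) (fn Φ) f := by
  suffices H : ∃ Φ₀ : Opr v (clI v (L ⊔ E)), IsExt L φ Φ₀ ∧
      ∃ f ∈ Submodule.span k (genF p Th), Gn v (clI v (L ⊔ E)) (fn Φ₀) f by
    obtain ⟨Φ₀, hΦ₀, f, hf, h1⟩ := H
    exact ⟨f, hf, fun Φ hΦ => (Gn.of_eq fun y hy => h.ext_uniq hΦ hΦ₀ hy).trans h1⟩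
  refine TWC.adjT_induction (P := fun φ => ∃ Φ₀ : Opr v (clI v (L ⊔ E)), IsExt L φ Φ₀ ∧
      ∃ f ∈ Submodule.span k (genF p Th), Gn v (clI v (L ⊔ E)) (fn Φ₀) f) ?_ ?_ ?_ ?_ ?_ hφ
  · rintro φ ⟨N, j, hj0, hj, hφ⟩
    obtain ⟨Φ, hΦ⟩ := h.exists_opr hj
    refine ⟨Φ, ⟨fun e he => ?_, fun l hl y hy => ?_⟩, Th N j,
      Submodule.subset_span ⟨N, j, hj0, hj, rfl⟩, Gn.of_eq hΦ⟩
    · rw [hΦ e (h.dat.leE he), hφ e he]
    · rw [hΦ _ (mul_mem (h.dat.leL hl) hy), hΦ y hy, h.lin hj hl hy]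
  · exact ⟨0, ⟨fun e _ => by rw [fn_opZero, fn_opZero], fun l _ y _ => by
      rw [fn_opZero, fn_opZero, mul_zero]⟩, 0, zero_mem _, Gn.of_eq fun y _ => by
      rw [fn_opZero]
      rfl⟩
  · rintro φ ψ ⟨Φ, hΦ, f, hf, h1⟩ ⟨Ψ, hΨ, g, hg, h2⟩
    exact ⟨Φ + Ψ, ⟨fun e he => by rw [fn_opAdd, fn_opAdd, hΦ.eq e he, hΨ.eq e he],
      fun l hl x hx => by rw [fn_opAdd, fn_opAdd, hΦ.lin l hl x hx, hΨ.lin l hl x hx, mul_add]⟩,
      f + g, add_mem hf hg, (Gn.of_eq fun y _ => by rw [fn_opAdd]; rfl).trans (h1.add h2)⟩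
  · rintro a φ ⟨Φ, hΦ, f, hf, h1⟩
    exact ⟨a • Φ, ⟨fun e he => by rw [fn_opSmul, fn_opSmul, hΦ.eq e he],
      fun l hl x hx => by rw [fn_opSmul, fn_opSmul, hΦ.lin l hl x hx, mul_smul_comm]⟩,
      a • f, Submodule.smul_mem _ _ hf,
      (Gn.of_eq fun y _ => by rw [fn_opSmul]; rfl).trans (h1.smul hcx.out a)⟩
  · rintro φ ψ ⟨Φ, hΦ, f, hf, h1⟩ ⟨Ψ, hΨ, g, hg, h2⟩
    obtain ⟨f', hf', h3⟩ := h.span_gn hf hg
    refine ⟨Φ * Ψ, ⟨fun e he => ?_, fun l hl x hx => ?_⟩, f', hf', ?_⟩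
    · rw [fn_opMul _ _ (h.dat.leE he), fn_opMul _ _ he, hΨ.eq e he, hΦ.eq _ (fn_mem ψ e)]
    · rw [fn_opMul _ _ (mul_mem (h.dat.leL hl) hx), fn_opMul _ _ hx, hΨ.lin l hl x hx,
        hΦ.lin l hl _ (fn_mem Ψ x)]
    · obtain ⟨f1, f2, f3, -⟩ := h.span_op hf
      obtain ⟨g1, -, -, -⟩ := h.span_op hg
      have hsub : ∀ y ∈ clI v (L ⊔ E), ∀ z ∈ clI v (L ⊔ E), f (y - z) = f y - f z := by
        intro y hy z hz
        rw [eq_sub_iff_add_eq, ← f2 _ (sub_mem hy hz) _ hz, sub_add_cancel]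
      refine (Gn.of_eq fun y hy => fn_opMul Φ Ψ hy).trans ?_
      refine (h1.comp_right (h := fn Ψ) (fun y _ => fn_mem Ψ y) fun y hy b hb =>
        fn_ge Ψ hy hb).trans ?_
      exact (h2.comp_left (h := f) (fun y _ => fn_mem Ψ y) g1 hsub f3).trans h3

/-- **The same, with the operators of one level.** -/
theorem exists_gain (h : Tht p v C L E x c r Th) {φ : Opr v E}
    (hφ : φ ∈ adjT (genT p v E Th)) : ∃ (N : ℕ) (lam : ℕ → k), lam 0 = 0 ∧
      ∀ Φ : Opr v (clI v (L ⊔ E)), IsExt L φ Φ → Gn v (clI v (L ⊔ E)) (fn Φ)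
        fun y => ∑ g ∈ Finset.range (p ^ N), algebraMap k Ω (lam g) * Th N g y := by
  obtain ⟨f, hf, h1⟩ := h.exists_gn hφ
  obtain ⟨N, lam, h0, h2⟩ := h.exists_lev hf
  exact ⟨N, lam, h0, fun Φ hΦ => (h1 Φ hΦ).trans (Gn.of_eq h2)⟩

end Tht

section Ops

variable [hcx : Fact (Ctx0 k v)] [hp : Fact p.Prime] [CharP k p] [CharP Ω p]
  [PerfectRing k p] {C P L LP N A : IntermediateField k Ω} {G : AddSubgroup ℝ} {M : ℝ → Ω}
  {T : Submodule k (Opr v (PM v P G M))} {𝒜 : Submodule k (Module.End k Ω)}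

namespace HtX

variable (X : HtX p v C P L LP G M T 𝒜 x r Th)

include X

/-- The roots of the letter are near to the constants. -/
theorem lim_x (n : ℕ) (ε : ℝ) (hε : 0 < ε) :
    ∃ a ∈ PM v C G M, v.Ge (r / p ^ n - ε) (x n - a) := by
  obtain ⟨a, ha, h1⟩ := X.pd.lim n 0 ε hε
  exact ⟨a, ha, h1⟩

/-- **The operators of `T`, up to a gain.** -/
theorem gain {φ : Opr v (PM v P G M)} (hφ : φ ∈ T) : ∃ (N : ℕ) (lam : ℕ → k), lam 0 = 0 ∧
    ∀ Φ : Opr v (PM v LP G M), IsExt (PM v L G M) φ Φ → Gn v (PM v LP G M) (fn Φ)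
      fun y => ∑ g ∈ Finset.range (p ^ N), algebraMap k Ω (lam g) * Th N g y := by
  have h1 := X.gen
  rw [h1] at hφ
  have h2 := X.tht.exists_gain hφ
  have he := X.eqT
  rw [he]
  exact h2

/-- **The operators of `𝒜`, up to a gain.** -/
theorem gainA (H : HtOp p v C P L LP G M T 𝒜) {ψ : Module.End k Ω} (hψ : ψ ∈ 𝒜) :
    ∃ (N : ℕ) (lam : ℕ → k) (κ : ℝ), 0 < κ ∧ ∀ y ∈ PM v LP G M, ∀ b : ℝ, v.Ge b y →
      v.Ge (b + κ) (ψ y - ∑ g ∈ Finset.range (p ^ N), algebraMap k Ω (lam g) * Th N g y) := by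
  obtain ⟨c, φ, Φ, hφ, hΦ, h1⟩ := H.rep ψ hψ
  obtain ⟨N, lam, h0, h2⟩ := X.gain hφ
  obtain ⟨κ, hκ, h3⟩ := h2 Φ hΦ
  refine ⟨N, fun g => (if g = 0 then c else 0) + lam g, κ, hκ, fun y hy b hb => ?_⟩
  have hy' : y ∈ clI v (PM v L G M ⊔ PM v P G M) := by rwa [← X.eqT]
  have h5 : ∑ g ∈ Finset.range (p ^ N), algebraMap k Ω ((if g = 0 then c else 0) + lam g) *
      Th N g y = algebraMap k Ω c * y +
        ∑ g ∈ Finset.range (p ^ N), algebraMap k Ω (lam g) * Th N g y := by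
    have h6 : ∑ g ∈ Finset.range (p ^ N), algebraMap k Ω (if g = 0 then c else 0) * Th N g y =
        algebraMap k Ω c * y := by
      rw [Finset.sum_eq_single 0]
      · rw [if_pos rfl, X.tht.zero N hy']
      · intro g _ hg
        rw [if_neg hg, map_zero, zero_mul]
      · exact fun h7 => absurd (Finset.mem_range.2 (pow_pos hp.out.pos N)) h7
    rw [← h6, ← Finset.sum_add_distrib]
    refine Finset.sum_congr rfl fun g _ => ?_
    rw [map_add, add_mul]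
  rw [h1 y hy, h5]
  refine Eq.mp (congrArg (fun t => v.Ge (b + κ) t) ?_) (h3 y hy b hb)
  ring

end HtX

end Ops

end Pool.Agent.TWHT
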