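import Pool.Agent.Lib.TWHT.K2f
import Pool.Agent.Lib.TWHT.EndC
import Pool.Agent.Lib.TWHT.FvOne
import Pool.Agent.Lib.TWHT.RepG
import Pool.Agent.Lib.TWHT.ThG

/-!
# TANK W, leaf (Ht), unipotent pairs: the systems

* `phT_gain`: an operator of `𝒜` is a combination of the `Ps g` up to a gain;
* `HtOp.two_data`: the letters, the jets, the operators `Ps g` for `u` with `u + b` a limit of `E`;
* **`HtOp.fv_two`**: `FV` for `E<y, u>`.
-/

set_option autoImplicit false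
set_option linter.unusedSectionVars false

open Polynomial

namespace Pool.Agent.TWHT

open Pool.Agent.H15JM (RVal)
open Pool.Agent.LU1 (VPos adj)
open Pool.Agent.D2 (Ctx0)
open Pool.Agent.D2P (clI mem_clI)
open Pool.Agent.TWM Pool.Agent.TWS
open Pool.Agent.TWIV
open Pool.Agent.TWC (Opr fn IsExt Tgt EW PBase PDat genW adjT IsW NSD Oper NilpC Nul Cau InBL
  ge_one_unit one_unit_pow)

universe u

variable {k Ω : Type u} [Field k] [Field Ω] [Algebra k Ω] {v : RVal Ω}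

/-- An operator with a gain is constant on the tail of a Cauchy sequence. -/
theorem const_of_gain {K S : IntermediateField k Ω} {δ : Module.End k Ω} {κ : ℝ} (hκ : 0 < κ)
    (hKS : K ≤ S) (hδ : ∀ y ∈ S, ∀ b : ℝ, v.Ge b y → v.Ge (b + κ) (δ y))
    (hm : ∀ y ∈ K, δ y ∈ K) {x : ℕ → Ω} (hx : Cau v K x) :
    ∃ e ∈ K, Nul v fun n => δ (x n) - e := by
  obtain ⟨N, hN⟩ := hx.cau κ hκ
  refine ⟨δ (x N), hm _ (hx.mem N), fun ε hε => ⟨N, fun n hn => ?_⟩⟩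
  have h1 := hδ _ (hKS (sub_mem (hx.mem n) (hx.mem N))) _ (hN n N hn le_rfl)
  rw [map_sub] at h1
  exact h1.mono (by linarith)

/-- **Two systems with operators equal up to a gain.** -/
theorem conv_sys {p : ℕ} {K S : IntermediateField k Ω} {κ : Type*} [Fintype κ]
    {φ φ' : κ → κ → Module.End k Ω} {s : ℝ} (hs : 0 < s) (hKS : K ≤ S)
    (hg : ∀ i j, ∀ y ∈ S, ∀ b : ℝ, v.Ge b y → v.Ge (b + s) (φ i j y - φ' i j y))
    (hm : ∀ i j, ∀ y ∈ K, φ i j y ∈ K) (hm' : ∀ i j, ∀ y ∈ K, φ' i j y ∈ K)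
    {X : κ → ℕ → Ω} {f : κ → Ω} (hX : ∀ l, Cau v K (X l)) (hf : ∀ l, f l ∈ K)
    (hR : ∀ l, Nul v fun n => X l n ^ p - ps φ l (fun j => X j n) - f l) :
    ∃ f' : κ → Ω, (∀ l, f' l ∈ K) ∧
      ∀ l, Nul v fun n => X l n ^ p - ps φ' l (fun j => X j n) - f' l := by
  have h1 : ∀ i j, ∃ e ∈ K, Nul v fun n => (φ i j - φ' i j) (X j n) - e := fun i j =>
    const_of_gain hs hKS (fun y hy b hb => hg i j y hy b hb)
      (fun y hy => sub_mem (hm i j y hy) (hm' i j y hy)) (hX j)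
  choose e he h2 using h1
  refine ⟨fun l => f l + ∑ j, e l j, fun l => add_mem (hf l) (sum_mem fun j _ => he l j),
    fun l => ?_⟩
  have h3 : Nul v fun n => ∑ j, ((φ l j - φ' l j) (X j n) - e l j) :=
    TWC.Nul.sum _ _ fun j _ => h2 l j
  refine ((hR l).add h3).congr fun n => ?_
  have h4 : ∑ j, ((φ l j - φ' l j) (X j n) - e l j) = ps φ l (fun j => X j n) -
      ps φ' l (fun j => X j n) - ∑ j, e l j := by
    rw [ps, ps, ← Finset.sum_sub_distrib, ← Finset.sum_sub_distrib]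
    exact Finset.sum_congr rfl fun j _ => by rw [LinearMap.sub_apply]
  rw [h4]
  ring

section Ops

variable [hcx : Fact (Ctx0 k v)] {p : ℕ} [hp : Fact p.Prime] [CharP k p] [CharP Ω p]
  [PerfectRing k p] {C P L LP N A : IntermediateField k Ω} {G : AddSubgroup ℝ} {M : ℝ → Ω}
  {T : Submodule k (Opr v (PM v P G M))} {𝒜 : Submodule k (Module.End k Ω)}
  {x : ℕ → Ω} {r : ℝ} {Th : ℕ → ℕ → Ω → Ω}

/-- The operators of `𝒜` with values the `Th N g`. -/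
theorem HtX.exists_psi (X : HtX p v C P L LP G M T 𝒜 x r Th) (H : HtOp p v C P L LP G M T 𝒜)
    (N : ℕ) : ∃ ψ : ℕ → Module.End k Ω, (∀ g, ψ g ∈ 𝒜) ∧
      ∀ g < p ^ N, ∀ z ∈ clI v (PM v L G M ⊔ PM v P G M), ψ g z = Th N g z := by
  have key : ∀ g : ℕ, ∃ ψ ∈ 𝒜, g < p ^ N → ∀ z ∈ clI v (PM v L G M ⊔ PM v P G M),
      ψ z = Th N g z := by
    intro g
    rcases Nat.eq_zero_or_pos g with rfl | h0
    · exact ⟨1, H.one, fun _ z hz => by rw [X.tht.zero N hz]; rfl⟩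
    · by_cases hg : g < p ^ N
      · obtain ⟨ψ, hψ, h1⟩ := X.opf.rep N g h0 hg
        refine ⟨ψ, hψ, fun _ z hz => h1 z ?_⟩
        rw [X.eqT]
        exact hz
      · exact ⟨1, H.one, fun h => absurd h hg⟩
  choose ψ h1 h2 using key
  exact ⟨ψ, h1, fun g hg => h2 g hg⟩

/-- The operators of `T` with values the `Th N g`. -/
theorem HtX.exists_phi (X : HtX p v C P L LP G M T 𝒜 x r Th) (H : HtOp p v C P L LP G M T 𝒜)
    (N : ℕ) : ∃ ψ : ℕ → Opr v (PM v P G M), ∀ g, 0 < g → g < p ^ N → ψ g ∈ T ∧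
      ∀ z ∈ PM v P G M, fn (ψ g) z = Th N g z := by
  have key : ∀ g : ℕ, ∃ ψ : Opr v (PM v P G M), 0 < g → g < p ^ N → ψ ∈ T ∧
      ∀ z ∈ PM v P G M, fn ψ z = Th N g z := by
    intro g
    by_cases h : 0 < g ∧ g < p ^ N
    · obtain ⟨φ, hφ⟩ := X.tht.exists_oprE H.D.cpl h.2
      refine ⟨φ, fun _ _ => ⟨?_, hφ⟩⟩
      rw [X.gen]
      exact TWC.subset_adjT ⟨N, g, h.1, h.2, hφ⟩
    · exact ⟨0, fun h0 h1 => absurd ⟨h0, h1⟩ h⟩
  choose ψ h1 using key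
  exact ⟨ψ, h1⟩

/-- The relation of `Th N g` to the operators `Ps g`. -/
theorem HtX.repT (X : HtX p v C P L LP G M T 𝒜 x r Th) {N : ℕ} {η : Ω}
    (hηE : η ∈ PM v P G M) (hη : Gt v 0 (η - 1)) {ψ : ℕ → Module.End k Ω}
    (hψ : ∀ g < p ^ N, ∀ z ∈ clI v (PM v L G M ⊔ PM v P G M), ψ g z = Th N g z)
    {φ : ℕ → Opr v (PM v P G M)} (hφ : ∀ g, 0 < g → g < p ^ N → φ g ∈ T ∧
      ∀ z ∈ PM v P G M, fn (φ g) z = Th N g z) :
    RepT v (PM v P G M) (p ^ N) (psO (p ^ N) η ψ) T φ fun g => η ^ g := by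
  intro g h0 hg
  obtain ⟨h1, h2⟩ := hφ g h0 hg
  refine ⟨h1, pow_mem hηE g, one_unit_pow hη g, fun z hz => ?_⟩
  rw [psO_pos h0 hg, hψ g hg z (X.tht.dat.leE hz), h2 z hz]

/-- **The operators of `𝒜` and the combinations of the `Ps g`.** -/
theorem HtX.phT_gain (X : HtX p v C P L LP G M T 𝒜 x r Th) {N : ℕ} {η : Ω}
    (hη : Gt v 0 (η - 1)) {ψ : ℕ → Module.End k Ω}
    (hψ : ∀ g < p ^ N, ∀ z ∈ clI v (PM v L G M ⊔ PM v P G M), ψ g z = Th N g z) :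
    ∃ κ : ℝ, 0 < κ ∧ ∀ (lam : ℕ → k), ∀ z ∈ PM v LP G M, ∀ b : ℝ, v.Ge b z →
      v.Ge (b + κ) ((∑ g ∈ Finset.range (p ^ N), algebraMap k Ω (lam g) * Th N g z) -
        phT (p ^ N) (psO (p ^ N) η ψ) lam z) := by
  obtain ⟨κ, hκ, h1⟩ := Tht.exists_one_unit_gain hη
  refine ⟨κ, hκ, fun lam z hz b hb => ?_⟩
  rw [X.eqT] at hz
  rw [phT_apply, ← Finset.sum_sub_distrib]
  refine RVal.Ge.sum _ _ fun g hg => ?_
  have hg' := Finset.mem_range.1 hg
  rw [X.tht.psO_eq hψ hg' hz, Algebra.smul_def]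
  have e1 : algebraMap k Ω (lam g) * Th N g z - algebraMap k Ω (lam g) * (η ^ g * Th N g z) =
      -(algebraMap k Ω (lam g) * ((η ^ g - 1) * Th N g z)) := by ring
  rw [e1]
  have h2 := (hcx.out.ge (lam g)).mul ((h1 g).mul (X.tht.ge hg' hz hb))
  exact h2.neg.mono (by linarith)

/-- **`FV(y)` for the operators `Ps g`.** -/
theorem HtX.fvt_one' [IsAlgClosed Ω] (X : HtX p v C P L LP G M T 𝒜 x r Th)
    (H : HtOp p v C P L LP G M T 𝒜) {N : ℕ} {η : Ω} (hη : Gt v 0 (η - 1))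
    {ψ : ℕ → Module.End k Ω} (hψA : ∀ g, ψ g ∈ 𝒜)
    (hψ : ∀ g < p ^ N, ∀ z ∈ clI v (PM v L G M ⊔ PM v P G M), ψ g z = Th N g z) {y : Ω}
    (hy : y ∈ PM v L G M) (ty : TL v (PM v P G M) y 0)
    (hF : ∀ g, ∀ z ∈ cadj v (PM v P G M) y, psO (p ^ N) η ψ g z ∈ cadj v (PM v P G M) y) :
    FVT p v (p ^ N) (psO (p ^ N) η ψ) (PM v P G M) (cadj v (PM v P G M) y) := by
  classical
  intro κ _ Xs f a hX hf hR l
  have hc := H.D.cpl
  obtain ⟨s, hs, h1⟩ := X.phT_gain hη hψ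
  have hst := X.stb_cadj hc hy
  set φ : κ → κ → Module.End k Ω := fun i j => ∑ g ∈ Finset.range (p ^ N), a i j g • ψ g with hφ
  have hφA : ∀ i j, φ i j ∈ 𝒜 := fun i j => sum_mem fun g _ => 𝒜.smul_mem _ (hψA g)
  have hφz : ∀ i j, ∀ z ∈ PM v LP G M, φ i j z =
      ∑ g ∈ Finset.range (p ^ N), algebraMap k Ω (a i j g) * Th N g z := by
    intro i j z hz
    rw [X.eqT] at hz
    rw [hφ]
    simp only
    rw [LinearMap.sum_apply]
    refine Finset.sum_congr rfl fun g hg => ?_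
    rw [LinearMap.smul_apply, hψ g (Finset.mem_range.1 hg) z hz, Algebra.smul_def]
  have hφm : ∀ i j, ∀ z ∈ cadj v (PM v P G M) y, φ i j z ∈ cadj v (PM v P G M) y := by
    intro i j
    obtain ⟨N', lam, h2⟩ := X.combA H (hφA i j)
    exact (h2 _ hst).1
  have hpm : ∀ i j, ∀ z ∈ cadj v (PM v P G M) y,
      phT (p ^ N) (psO (p ^ N) η ψ) (a i j) z ∈ cadj v (PM v P G M) y := by
    intro i j z hz
    rw [phT_apply]
    exact sum_mem fun g _ => IntermediateField.smul_mem _ (hF g z hz)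
  obtain ⟨f', hf', hR'⟩ := conv_sys (p := p)
    (φ := fun l j => phT (p ^ N) (psO (p ^ N) η ψ) (a l j)) (φ' := φ) hs hst.leT
    (fun i j z hz b hb => by
      have h2 := (h1 (a i j) z hz b hb).neg
      rw [← hφz i j z hz, neg_sub] at h2
      exact h2) hpm hφm hX hf hR
  exact fvn_one hc H.nx H.op H.nsd' ty hy hφA hX hf' hR' l

/-- **Row R2' of the leaf (Ht)**: the systems over `E<y, u>`. -/
theorem HtOp.fv_two [IsAlgClosed Ω] (H : HtOp p v C P L LP G M T 𝒜)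
    {y u b : Ω} (hy : y ∈ PM v L G M) (ty : TL v (PM v P G M) y 0) (hu : u ∈ PM v L G M)
    (tu : TL v (cadj v (PM v P G M) y) u 0) (hb : b ∈ cadj v (PM v P G M) y)
    (hl : Lim v (PM v P G M) 0 (u + b)) :
    FV p v 𝒜 (PM v P G M) (cadj v (cadj v (PM v P G M) y) u) := by
  classical
  obtain ⟨x, r, Th, X⟩ := H.exists_htx
  intro κ _ Xs f φ hφ hXl hf hR l
  have hc := H.D.cpl
  obtain ⟨N₀, κ₁, hκ₁, hG⟩ := X.combG H (ι := κ × κ) (ψ := fun i => φ i.1 i.2)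
    fun i => hφ _ _
  obtain ⟨N, R, q, η, u', hN, hηE, hη, hη0, hηc, hu', hq, hyu, hy1l⟩ :=
    X.tht.exact hc X.lim_x hy ty hu hb hl N₀
  obtain ⟨lam, hlam⟩ := hG N hN
  obtain ⟨ψ, hψA, hψ⟩ := X.exists_psi H N
  obtain ⟨φE, hφE⟩ := X.exists_phi H N
  have hP : 0 < p ^ N := Nat.pow_pos hp.out.pos
  have hψg : ∀ g < p ^ N, ∀ (z : Ω) (b : ℝ), v.Ge b z → v.Ge b (ψ g z) :=
    fun g _ => H.nx.ge _ (hψA g)
  have PD := X.tht.psD (R := R) hc hy hu' hηE hη hη0 hηc hq hψ hψg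
  set y₁ : Ω := ylet p R q x (η * M (r / p ^ N)) y u' N with hy₁
  have hK : cadj v (cadj v (PM v P G M) y) y₁ = cadj v (cadj v (PM v P G M) y) u := by
    rw [← cadj_sub_mem (v := v) (z := y₁) hyu, sub_sub_cancel]
  have ty1 : TL v (cadj v (PM v P G M) y) y₁ 0 := by
    have h1 := tu.sub_mem (neg_mem hyu)
    rwa [sub_neg_eq_add, add_sub_cancel] at h1
  have hT := twrH_triv (y := yy2 y y₁) ty ty1 hy1l
  obtain ⟨t, ht, T7⟩ := exists_two7 (p := p) hc grP_triv hT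
  have tr := PsD.tri (K := cadj v (cadj v (PM v P G M) y) y₁) PD T7 hP
  have hrep := X.repT hηE hη hψ hφE
  have hy₁L : cadj v (cadj v (PM v P G M) y) y₁ ≤ PM v LP G M := by
    rw [hK, X.eqT]
    exact cadj_le (cld_clI v _) (X.tht.cadj_leT hy) (X.tht.dat.leL hu)
  -- the letter `0`
  have hF : ∀ g, ∀ z ∈ cadj v (PM v P G M) y,
      psO (p ^ N) η ψ g z ∈ cadj v (PM v P G M) y := by
    intro g z hz
    by_cases hg : g < p ^ N
    · rw [X.tht.psO_eq hψ hg (X.tht.cadj_leT hy hz)]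
      exact mul_mem (le_cadj v _ y (pow_mem hηE g)) (X.tht.stb_cadj1 hc hy hg hz)
    · rw [psO_big hP (not_lt.1 hg), LinearMap.zero_apply]
      exact zero_mem _
  have hR1 := X.fvt_one' H hη hψA hψ hy ty hF
  have hFV : FVT p v (p ^ N) (psO (p ^ N) η ψ) (PM v P G M)
      (cadj v (cadj v (PM v P G M) y) y₁) :=
    fv_tri T7 tr hP hrep H.op H.nsd' hF hR1
  -- the stability of `K`
  have hφm : ∀ i j, ∀ z ∈ cadj v (cadj v (PM v P G M) y) y₁,
      φ i j z ∈ cadj v (cadj v (PM v P G M) y) y₁ := by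
    intro i j
    obtain ⟨N', mu, h2⟩ := X.combA H (hφ i j)
    have h3 : StbB p Th (PM v P G M) (PM v LP G M) (cadj v (cadj v (PM v P G M) y) y₁) := by
      rw [hK, X.tht.cadj_eq_sup y]
      exact X.stb_cadjA hc (le_cadj v _ y) (cadj_le X.tht.dat.cldL X.tht.dat.le hy) hu
    exact (h2 _ h3).1
  -- the sequences
  choose xs hxs hn using fun l => TWC.Lim.exists_cau (hXl l)
  rw [← hK] at hxs hf ⊢
  have hR2 : ∀ l, Nul v fun n => xs l n ^ p - ps φ l (fun j => xs j n) - f l := by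
    intro l
    have h2 : Nul v fun n => (Xs l - xs l n) ^ p := TWC.Nul.pow (hn l) p
    have h3 : Nul v fun n => ps φ l (fun j => Xs j - xs j n) :=
      ps_nul (fun i j => H.nx.ge _ (hφ i j)) hn
    refine (((TWC.Nul.of_ge fun _ => hR l).sub h2).add h3).congr fun n => ?_
    rw [ps_sub, sub_pow_char]
    simp only [ps]
    ring
  obtain ⟨κ₂, hκ₂, h2⟩ := X.phT_gain hη hψ
  obtain ⟨f', hf', hR'⟩ := conv_sys (p := p) (φ := φ)
    (φ' := fun l j => phT (p ^ N) (psO (p ^ N) η ψ) (lam (l, j))) (lt_min hκ₁ hκ₂) hy₁L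
    (fun i j z hz b hb => by
      have e1 : b + min κ₁ κ₂ ≤ b + κ₁ := by linarith [min_le_left κ₁ κ₂]
      have e2 : b + min κ₁ κ₂ ≤ b + κ₂ := by linarith [min_le_right κ₁ κ₂]
      have h3 := (hlam (i, j) z hz b hb).mono e1
      have h4 := (h2 (lam (i, j)) z hz b hb).mono e2
      refine (congrArg (v.Ge (b + min κ₁ κ₂)) ?_).mp (h3.add h4)
      ring) hφm (fun i j z hz => tr.phT_mem _ hz) hxs hf hR2
  obtain ⟨b₀, hb₀, m, hm, h3⟩ := hFV κ xs f' (fun l j => lam (l, j)) hxs hf' hR' l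
  exact ⟨b₀, hb₀, TWC.Lim.of_nul hm.mem (((hn l).add h3).congr fun n => by ring)⟩

end Ops

end Pool.Agent.TWHT
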