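import Pool.Agent.Lib.TWHT.Core
import Pool.Agent.Lib.TWHT.K2g
import Pool.Agent.Lib.TWHT.FvCan
import Pool.Agent.Lib.TWHT.Ent

/-!
# TANK W: THE LEAF (Ht)

* **`HtOp.core`**: THE RECURSION: a tower of length `3` of `LP` over `P` gives one of `L` over `C`;
* `htR7`: the row R7 for all the fields;
* `leafD_altH_all_of`: the leaf `AltH`, from the row of `NSDp`.
-/

set_option autoImplicit false

open Polynomial

namespace Pool.Agent.TWHT

open Pool.Agent.H15JM (RVal)
open Pool.Agent.D2 (Ctx0)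
open Pool.Agent.TWM Pool.Agent.TWS Pool.Agent.TWIV
open Pool.Agent.TWC (Opr)
open Pool.Agent.TWF (OnB AltH LeafD)

universe u

section Core

variable {k Ω : Type u} [Field k] [Field Ω] [Algebra k Ω] {v : RVal Ω}
  [hcx : Fact (Ctx0 k v)] {p : ℕ} [hp : Fact p.Prime] [CharP k p] [CharP Ω p]
  [PerfectRing k p] [IsAlgClosed k] [IsAlgClosed Ω]
  {C P L LP : IntermediateField k Ω} {G : AddSubgroup ℝ} {M : ℝ → Ω}
  {T : Submodule k (Opr v (PM v P G M))} {𝒜 : Submodule k (Module.End k Ω)}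

/-- **THE RECURSION.** -/
theorem HtOp.core (H : HtOp p v C P L LP G M T 𝒜) (hT : TowR v 3 P LP) : TowR v 3 C L :=
  H.core_of
    { two := fun _ _ _ hy ty hu tu hb hl => H.fv_two hy ty hu tu hb hl
      can := fun _ _ hy ty hu tu hcan => H.fv_can hy ty hu tu hcan
      s12 := fun _ _ _ hw tw ty tz hLP hc hfar htop => H.shape12 hw tw ty tz hLP hc hfar htop } hT

end Core

/-- **Row R7.** -/
theorem htR7 (p : ℕ) [hp : Fact p.Prime] (k : Type u) [Field k] [CharP k p] [IsAlgClosed k]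
    [PerfectRing k p] : HtR7 p k :=
  fun _ _ _ _ _ _ _ _ _ _ _ _ _ _ _ H hT => H.core hT

/-- **THE LEAF (Ht)**, from the row of `NSDp`. -/
theorem leafD_altH_all_of (p : ℕ) [hp : Fact p.Prime] (k : Type u) [Field k] [CharP k p]
    [IsAlgClosed k] [PerfectRing k p] (hnsd : HtNsdRow p k) :
    LeafD p k (OnB p fun _ _ _ v C => AltH p v C) :=
  leafD_altH_of p k (htR7 p k) hnsd

end Pool.Agent.TWHT
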