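import Pool.Agent.Lib.TWHT.HtDefs

/-!
# TANK W, leaf (Ht): the stability of the closures `cl (N E)`

* `NearS v S x`: `x` is in the closure of the subalgebra `S`;
* `near_of_clI`: if `S` contains monomials of all values, its closure is a field;
* `HtOp.stab`: the operators preserve `PM v (clI v (N ⊔ P)) G M`, `N ≤ L`.
-/

set_option autoImplicit false
set_option linter.unusedSectionVars false

open Polynomial

namespace Pool.Agent.TWHT

open Pool.Agent.H15JM (RVal)
open Pool.Agent.D2 (Ctx0)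
open Pool.Agent.D2P (hen clI mem_clI)
open Pool.Agent.TWM Pool.Agent.TWS Pool.Agent.TWIV
open Pool.Agent.TWC (Opr fn IsExt Desc Oper NilpC NSD Tow fn_mem fn_add fn_ge fn_near)

universe u

variable {k Ω : Type u} [Field k] [Field Ω] [Algebra k Ω] {v : RVal Ω}

section Near

variable {S : Subalgebra k Ω}

/-- `x` is in the closure of `S`. -/
def NearS (v : RVal Ω) (S : Subalgebra k Ω) (x : Ω) : Prop := ∀ b : ℝ, ∃ s ∈ S, v.Ge b (x - s)

theorem NearS.of_mem {x : Ω} (h : x ∈ S) : NearS v S x := fun _ =>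
  ⟨x, h, by rw [sub_self]; exact RVal.Ge.zero⟩

theorem NearS.add {x y : Ω} (hx : NearS v S x) (hy : NearS v S y) : NearS v S (x + y) := by
  intro b
  obtain ⟨s, hs, h1⟩ := hx b
  obtain ⟨t, ht, h2⟩ := hy b
  exact ⟨s + t, add_mem hs ht, by rw [add_sub_add_comm]; exact h1.add h2⟩

theorem NearS.mul {x y : Ω} (hx : NearS v S x) (hy : NearS v S y) : NearS v S (x * y) := by
  intro b
  obtain ⟨t, ht, h2⟩ := hy (b - v x)
  obtain ⟨s, hs, h1⟩ := hx (b - v t)
  refine ⟨s * t, mul_mem hs ht, ?_⟩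
  have h3 := (RVal.ge_self (v := v) x).mul h2
  have h4 := h1.mul (RVal.ge_self (v := v) t)
  rw [add_sub_cancel] at h3
  rw [sub_add_cancel] at h4
  have e : x * y - s * t = x * (y - t) + (x - s) * t := by ring
  rw [e]
  exact h3.add h4

theorem NearS.trans {x : Ω} (h : ∀ b : ℝ, ∃ y, NearS v S y ∧ v.Ge b (x - y)) : NearS v S x := by
  intro b
  obtain ⟨y, hy, h1⟩ := h b
  obtain ⟨s, hs, h2⟩ := hy b
  refine ⟨s, hs, ?_⟩
  have e : x - s = (x - y) + (y - s) := by ring
  rw [e]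
  exact h1.add h2

/-- **The closure of a subalgebra with monomials of all values is a field.** -/
theorem NearS.inv (hk : Ctx0 k v) {M : ℝ → Ω} (hM : MS v ⊤ M) (hMS : ∀ g, M g ∈ S) {x : Ω}
    (hx : NearS v S x) : NearS v S x⁻¹ := by
  by_cases h0 : x = 0
  · rw [h0, inv_zero]
    exact NearS.of_mem (zero_mem S)
  intro b
  have hMm : ∀ g, M (-g) * M g = 1 := fun g => by
    rw [← hM.mul _ trivial _ trivial, neg_add_cancel, hM.zero]
  have hM0 : ∀ g, M g ≠ 0 := fun g => hM.ne g trivial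
  have hMv : ∀ g, v (M g) = g := fun g => hM.val g trivial
  -- the residue
  have hu0 : x * M (-v x) ≠ 0 := mul_ne_zero h0 (hM0 _)
  obtain ⟨c, hc, h1⟩ := hk.res (x * M (-v x)) hu0 (by
    rw [v.map_mul h0 (hM0 _), hMv, add_neg_cancel])
  have hc' : algebraMap k Ω c ≠ 0 := (_root_.map_ne_zero _).2 hc
  obtain ⟨s, hs, h2⟩ := hx (|b| + 2 * |v x| + 1)
  set d := algebraMap k Ω c⁻¹ with hd
  have hcd : algebraMap k Ω c * d = 1 := by rw [hd, ← map_mul, mul_inv_cancel₀ hc, map_one]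
  set ε := 1 - s * M (-v x) * d with hε
  have hεS : ε ∈ S := sub_mem (one_mem S) (mul_mem (mul_mem hs (hMS _)) (S.algebraMap_mem _))
  have hgd : v.Ge 0 d := hk.ge _
  have hεp : Gt v 0 ε := by
    have e : ε = -((x * M (-v x) - algebraMap k Ω c) * d) + (x - s) * M (-v x) * d := by
      rw [hε, ← hcd]
      ring
    rw [e]
    refine Gt.add (Gt.neg ?_) ?_
    · have h3 : Gt v 0 (x * M (-v x) - algebraMap k Ω c) := h1
      have h4 := h3.mul_ge hgd
      rwa [add_zero] at h4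
    · have h3 := (h2.mul (RVal.ge_self (v := v) (M (-v x)))).mul hgd
      rw [hMv, add_zero] at h3
      refine Gt.of_ge h3 ?_
      have h5 := neg_abs_le (v x)
      have h6 := le_abs_self (v x)
      have h7 := abs_nonneg b
      have h8 := abs_nonneg (v x)
      linarith
  obtain ⟨n, hn⟩ : ∃ n : ℕ, v.Ge (b + v x) (ε ^ n) := by
    by_cases h3 : ε = 0
    · exact ⟨1, by rw [h3, pow_one]; exact RVal.Ge.zero⟩
    · have h4 : 0 < v ε := hεp h3
      obtain ⟨n, hn⟩ := exists_nat_gt ((b + v x) / v ε)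
      refine ⟨n, fun _ => ?_⟩
      rw [v.map_pow h3]
      exact ((div_lt_iff₀ h4).1 hn).le
  set T := ∑ j ∈ Finset.range n, ε ^ j with hT
  have hTS : T ∈ S := sum_mem fun j _ => pow_mem hεS j
  have hgeom : (1 - ε) * T = 1 - ε ^ n := by
    have := geom_sum_mul ε n
    rw [← hT] at this
    linear_combination -this
  have hTg : v.Ge 0 T := by
    refine RVal.Ge.sum _ _ fun j _ => ?_
    have := ge_pow hεp.ge j
    rwa [mul_zero] at this
  refine ⟨M (-v x) * d * T, mul_mem (mul_mem (hMS _) (S.algebraMap_mem _)) hTS, ?_⟩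
  have e1 : x⁻¹ - M (-v x) * d * T = x⁻¹ * (ε ^ n - (x - s) * (M (-v x) * d * T)) := by
    have h5 : s * (M (-v x) * d * T) = 1 - ε ^ n := by
      rw [← hgeom, hε]
      ring
    have h6 : x⁻¹ * x = 1 := inv_mul_cancel₀ h0
    linear_combination (M (-v x) * d * T) * h6 - x⁻¹ * h5
  rw [e1]
  have h7 : v.Ge (b + v x) ((x - s) * (M (-v x) * d * T)) := by
    have h8 := h2.mul (((RVal.ge_self (v := v) (M (-v x))).mul hgd).mul hTg)
    rw [hMv] at h8
    refine h8.mono ?_
    have h9 := neg_abs_le (v x)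
    have h10 := le_abs_self (v x)
    have h11 := le_abs_self b
    linarith
  have h8 := (RVal.ge_self (v := v) x⁻¹).mul (hn.sub h7)
  rw [v.map_inv h0] at h8
  refine h8.mono ?_
  linarith

/-- The closure of `A B` is the closure of the subalgebra. -/
theorem near_of_clI (hk : Ctx0 k v) {M : ℝ → Ω} (hM : MS v ⊤ M) (hMS : ∀ g, M g ∈ S)
    {A B : IntermediateField k Ω} (hA : ∀ a ∈ A, a ∈ S) (hB : ∀ a ∈ B, a ∈ S) {x : Ω}
    (hx : x ∈ clI v (A ⊔ B)) : NearS v S x := by
  let K : IntermediateField k Ω :=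
    { carrier := {x | NearS v S x}
      mul_mem' := fun hx hy => hx.mul hy
      add_mem' := fun hx hy => hx.add hy
      algebraMap_mem' := fun c => NearS.of_mem (S.algebraMap_mem c)
      inv_mem' := fun x hx => hx.inv hk hM hMS }
  have hAK : A ≤ K := fun a ha => NearS.of_mem (hA a ha)
  have hBK : B ≤ K := fun a ha => NearS.of_mem (hB a ha)
  refine NearS.trans fun b => ?_
  obtain ⟨y, hy, h1⟩ := mem_clI.1 hx b
  exact ⟨y, (sup_le hAK hBK : A ⊔ B ≤ K) hy, h1⟩

end Near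

section Ops

variable [hcx : Fact (Ctx0 k v)] {p : ℕ} [hp : Fact p.Prime] [CharP k p] [CharP Ω p]
  [PerfectRing k p] {C P L LP N : IntermediateField k Ω} {G : AddSubgroup ℝ} {M : ℝ → Ω}
  {T : Submodule k (Opr v (PM v P G M))} {𝒜 : Submodule k (Module.End k Ω)}

/-- **The operators preserve `cl (N E)`.** -/
theorem HtOp.stab (H : HtOp p v C P L LP G M T 𝒜) (hNL : N ≤ L)
    {φ : Opr v (PM v P G M)} {Φ : Opr v (PM v LP G M)} (hΦ : IsExt (PM v L G M) φ Φ) :
    ∀ b ∈ PM v (clI v (N ⊔ P)) G M, fn Φ b ∈ PM v (clI v (N ⊔ P)) G M := by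
  intro b hb
  have hk : Ctx0 k v := hcx.out
  have hE : PM v P G M ≤ PM v LP G M := PM.mono H.D.PLP
  have hN : PM v N G M ≤ PM v L G M := PM.mono hNL
  have hL : PM v L G M ≤ PM v LP G M := PM.mono H.D.LLP
  have hBLP : PM v (clI v (N ⊔ P)) G M ≤ PM v LP G M := PM.mono (H.D.BLP hNL)
  have hsup : PM v (clI v (N ⊔ P)) G M = clI v (PM v N G M ⊔ PM v P G M) := PM.sup
  set S : Subalgebra k Ω := (PM v N G M).toSubalgebra ⊔ (PM v P G M).toSubalgebra with hS
  have hSB : ∀ s ∈ S, s ∈ PM v (clI v (N ⊔ P)) G M ∧ fn Φ s ∈ PM v (clI v (N ⊔ P)) G M := by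
    intro s hs
    have hs' : s ∈ Subalgebra.toSubmodule (PM v N G M).toSubalgebra *
        Subalgebra.toSubmodule (PM v P G M).toSubalgebra := by
      rw [Subalgebra.mul_toSubmodule]
      exact hs
    have hN' : PM v N G M ≤ PM v (clI v (N ⊔ P)) G M :=
      PM.mono (le_sup_left.trans (TWC.self_le_clI v _))
    have hP' : PM v P G M ≤ PM v (clI v (N ⊔ P)) G M :=
      PM.mono (le_sup_right.trans (TWC.self_le_clI v _))
    induction hs' using Submodule.mul_induction_on' with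
    | mem_mul_mem n hn e he =>
      have hn' : n ∈ PM v N G M := hn
      have he' : e ∈ PM v P G M := he
      refine ⟨mul_mem (hN' hn') (hP' he'), ?_⟩
      rw [hΦ.lin n (hN hn') e (hE he'), hΦ.eq e he']
      exact mul_mem (hN' hn') (hP' (fn_mem φ e))
    | add x hx y hy h1 h2 =>
      rw [Subalgebra.mul_toSubmodule] at hx hy
      have h1' := h1 hx
      have h2' := h2 hy
      refine ⟨add_mem h1'.1 h2'.1, ?_⟩
      rw [fn_add Φ (hBLP h1'.1) (hBLP h2'.1)]
      exact add_mem h1'.2 h2'.2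
  have hnear : NearS v S b := by
    rw [hsup] at hb
    refine near_of_clI hk H.ms (fun g => ?_) (fun a ha => ?_) (fun a ha => ?_) hb
    · exact (le_sup_right : (PM v P G M).toSubalgebra ≤ S) (H.mon g)
    · exact (le_sup_left : (PM v N G M).toSubalgebra ≤ S) ha
    · exact (le_sup_right : (PM v P G M).toSubalgebra ≤ S) ha
  refine (PM.cld : Cld v (PM v (clI v (N ⊔ P)) G M)) (mem_clI.2 fun c => ?_)
  obtain ⟨s, hs, h1⟩ := hnear c
  obtain ⟨h2, h3⟩ := hSB s hs
  exact ⟨fn Φ s, h3, fn_near Φ (hBLP hb) (hBLP h2) h1⟩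

end Ops

end Pool.Agent.TWHT
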