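import Pool.Agent.Lib.TWHT.HomB

/-!
# TANK W, leaf (Ht): systems over an adapted free family

* `Wf F a n`: the span of the `F^j a_i`, `i < n`;
* `tri_zero`: a finite family in the span of an adapted free family which satisfies
  `F Y_l = ∑ (c_lj + φ_lj) Y_j` modulo `k{F} a_0` lies in `k{F} a_0`.
-/

set_option autoImplicit false
set_option linter.unusedSectionVars false

open Module Submodule Polynomial

namespace Pool.Agent.TWHT

open Pool.Agent.TWC

universe u w

variable {k : Type u} {G : Type w} [Field k] [AddCommGroup G] [Module k G]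
variable {σ : k →+* k} [RingHomSurjective σ] {F : G →ₛₗ[σ] G}

theorem opF_C_mul (c : k) (P : k[X]) (m : G) : opF F (C c * P) m = c • opF F P m := by
  rw [opF_range P m (Nat.lt_succ_self _),
    opF_range (C c * P) m (Nat.lt_succ_of_le (natDegree_C_mul_le c P)), Finset.smul_sum]
  refine Finset.sum_congr rfl fun j _ => ?_
  rw [coeff_C_mul, mul_smul]

theorem F_opF (P : k[X]) (m : G) : F (opF F P m) = opF F (X * P.map σ) m := by
  have h : (X * P.map σ).natDegree < P.natDegree + 1 + 1 := by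
    refine Nat.lt_succ_of_le ((natDegree_mul_le).trans ?_)
    rw [natDegree_X, add_comm]
    exact Nat.succ_le_succ natDegree_map_le
  have h1 := Finset.sum_range_succ' (fun j => (X * P.map σ).coeff j • F^[j] m) (P.natDegree + 1)
  rw [opF_range P m (Nat.lt_succ_self _), opF_range _ m h, map_sum, h1, coeff_X_mul_zero,
    zero_smul, add_zero]
  refine Finset.sum_congr rfl fun j _ => ?_
  rw [coeff_X_mul, coeff_map, LinearMap.map_smulₛₗ, Function.iterate_succ_apply']

/-- The span of the `F^j a_i`, `i < n`. -/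
noncomputable def Wf (F : G →ₛₗ[σ] G) {m : ℕ} (a : Fin m → G) (n : ℕ) : Submodule k G where
  carrier := {x | ∃ Q : Fin m → k[X], (∀ j : Fin m, n ≤ (j : ℕ) → Q j = 0) ∧ x = ∑ j, opF F (Q j) (a j)}
  add_mem' := by
    rintro x y ⟨Q, hQ, rfl⟩ ⟨R, hR, rfl⟩
    refine ⟨fun j => Q j + R j, fun j hj => by simp only [hQ j hj, hR j hj, add_zero], ?_⟩
    rw [← Finset.sum_add_distrib]
    exact Finset.sum_congr rfl fun j _ => (opF_add _ _ _).symm
  zero_mem' := ⟨fun _ => 0, fun _ _ => rfl, by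
    rw [Finset.sum_congr rfl fun j _ => opF_zero (F := F) (a j), Finset.sum_const_zero]⟩
  smul_mem' := by
    rintro c x ⟨Q, hQ, rfl⟩
    refine ⟨fun j => C c * Q j, fun j hj => by simp only [hQ j hj, mul_zero], ?_⟩
    rw [Finset.smul_sum]
    exact Finset.sum_congr rfl fun j _ => (opF_C_mul _ _ _).symm

variable {m : ℕ} {a : Fin m → G}

theorem mem_Wf {n : ℕ} {x : G} : x ∈ Wf F a n ↔
    ∃ Q : Fin m → k[X], (∀ j : Fin m, n ≤ (j : ℕ) → Q j = 0) ∧ x = ∑ j, opF F (Q j) (a j) := Iff.rfl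

theorem Wf_mono {n n' : ℕ} (h : n ≤ n') : Wf F a n ≤ Wf F a n' := by
  rintro x ⟨Q, hQ, rfl⟩
  exact ⟨Q, fun j hj => hQ j (h.trans hj), rfl⟩

theorem map_Wf_le (n : ℕ) : (Wf F a n).map F ≤ Wf F a n := by
  rintro _ ⟨x, ⟨Q, hQ, rfl⟩, rfl⟩
  refine ⟨fun j => X * (Q j).map σ, fun j hj => by
    simp only [hQ j hj, Polynomial.map_zero, mul_zero], ?_⟩
  rw [map_sum]
  exact Finset.sum_congr rfl fun j _ => F_opF _ _

/-- The operators on `k{F} m`. -/
theorem act_opF {O : Ops F} {W : Submodule k G} (hW : W.map F ≤ W) {m : G}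
    (h : ∀ φ ∈ O.A, φ m ∈ W) (P : k[X]) : ∀ φ ∈ O.A, φ (opF F P m) ∈ W := by
  have h1 : ∀ j, ∀ φ ∈ O.A, φ (F^[j] m) ∈ W := by
    intro j
    induction j with
    | zero => exact h
    | succ j ih =>
      intro φ hφ
      obtain ⟨φ', hφ', h2⟩ := O.tw φ hφ
      rw [Function.iterate_succ_apply', h2]
      exact hW (mem_map_of_mem (ih φ' hφ'))
  intro φ hφ
  rw [opF_range P m (Nat.lt_succ_self _), map_sum]
  refine sum_mem fun j _ => ?_
  rw [map_smul]
  exact Submodule.smul_mem _ _ (h1 j φ hφ)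

theorem act_Wf {O : Ops F} (htri : ∀ i : Fin m, ∀ φ ∈ O.A, φ (a i) ∈ Wf F a i) {n : ℕ} {x : G}
    (hx : x ∈ Wf F a (n + 1)) {φ : G →ₗ[k] G} (hφ : φ ∈ O.A) : φ x ∈ Wf F a n := by
  obtain ⟨Q, hQ, rfl⟩ := hx
  rw [map_sum]
  refine sum_mem fun j _ => ?_
  by_cases h : n + 1 ≤ (j : ℕ)
  · rw [hQ j h, opF_zero, map_zero]
    exact zero_mem _
  · exact act_opF (map_Wf_le n) (fun ψ hψ => Wf_mono (by omega) (htri j ψ hψ)) (Q j) φ hφ

/-- **Systems over an adapted free family.** -/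
theorem tri_zero {O : Ops F} (htri : ∀ i : Fin m, ∀ φ ∈ O.A, φ (a i) ∈ Wf F a i)
    (hfree : ∀ Q : Fin m → k[X], ∑ j, opF F (Q j) (a j) = 0 → ∀ j, Q j = 0)
    {κ : Type*} [Fintype κ] {Y R : κ → G} (hY : ∀ l, Y l ∈ Wf F a m) {c : κ → κ → k}
    {φ : κ → κ → G →ₗ[k] G} (hφ : ∀ l j, φ l j ∈ O.A) (hR : ∀ l, R l ∈ Wf F a 1)
    (hrel : ∀ l, F (Y l) = ∑ j, (c l j • Y j + φ l j (Y j)) + R l) :
    ∀ l, Y l ∈ Wf F a 1 := by
  classical
  have key : ∀ n, 1 ≤ n → (∀ l, Y l ∈ Wf F a (n + 1)) → ∀ l, Y l ∈ Wf F a n := by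
    intro n hn hYn
    by_cases hnm : n < m
    · choose Q hQ hQe using fun l => mem_Wf.1 (hYn l)
      have hS : ∀ l, ∑ j, φ l j (Y j) + R l ∈ Wf F a n := fun l =>
        add_mem (sum_mem fun j _ => act_Wf htri (hYn j) (hφ l j)) (Wf_mono hn (hR l))
      choose S hS0 hSe using fun l => mem_Wf.1 (hS l)
      have h1 : ∀ l i, X * (Q l i).map σ - ∑ j, C (c l j) * Q j i - S l i = 0 := by
        intro l
        refine hfree (fun i => X * (Q l i).map σ - ∑ j, C (c l j) * Q j i - S l i) ?_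
        have e1 : ∀ i, opF F (X * (Q l i).map σ - ∑ j, C (c l j) * Q j i - S l i) (a i) =
            F (opF F (Q l i) (a i)) - ∑ j, c l j • opF F (Q j i) (a i) -
              opF F (S l i) (a i) := by
          intro i
          rw [opF_sub, opF_sub, F_opF, opF_sum]
          simp only [opF_C_mul]
        rw [Finset.sum_congr rfl fun i _ => e1 i, Finset.sum_sub_distrib, Finset.sum_sub_distrib,
          ← map_sum, ← hQe l, ← hSe l, Finset.sum_comm]
        have e2 : ∑ j, ∑ i, c l j • opF F (Q j i) (a i) = ∑ j, c l j • Y j := by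
          refine Finset.sum_congr rfl fun j _ => ?_
          rw [← Finset.smul_sum, ← hQe j]
        rw [e2, hrel l, Finset.sum_add_distrib]
        abel
      have h2 : ∀ l, X * (Q l ⟨n, hnm⟩).map σ = ∑ j, C (c l j) * Q j ⟨n, hnm⟩ := by
        intro l
        have h3 := h1 l ⟨n, hnm⟩
        rw [hS0 l ⟨n, hnm⟩ le_rfl, sub_zero] at h3
        exact sub_eq_zero.1 h3
      have h3 : ∀ l, Q l ⟨n, hnm⟩ = 0 := by
        by_contra hcon
        push Not at hcon
        obtain ⟨l₁, hl₁⟩ := hcon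
        obtain ⟨l₀, hl₀, hmax⟩ := Finset.exists_max_image
          (Finset.univ.filter fun l => Q l ⟨n, hnm⟩ ≠ 0) (fun l => (Q l ⟨n, hnm⟩).natDegree)
          ⟨l₁, by simpa using hl₁⟩
        have hl₀' : Q l₀ ⟨n, hnm⟩ ≠ 0 := by simpa using hl₀
        have h4 := congrArg (fun P => P.coeff ((Q l₀ ⟨n, hnm⟩).natDegree + 1)) (h2 l₀)
        simp only [coeff_X_mul, coeff_map, finsetSum_coeff, coeff_C_mul] at h4
        rw [Finset.sum_eq_zero] at h4
        · have h5 : (Q l₀ ⟨n, hnm⟩).coeff (Q l₀ ⟨n, hnm⟩).natDegree = 0 :=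
            (map_eq_zero_iff σ σ.injective).1 h4
          exact hl₀' (leadingCoeff_eq_zero.1 h5)
        · intro j _
          by_cases h5 : Q j ⟨n, hnm⟩ = 0
          · rw [h5, coeff_zero, mul_zero]
          · have h6 := hmax j (by simpa using h5)
            rw [coeff_eq_zero_of_natDegree_lt (by omega), mul_zero]
      intro l
      refine ⟨Q l, fun j hj => ?_, hQe l⟩
      rcases hj.lt_or_eq with h4 | h4
      · exact hQ l j h4
      · have h5 : j = ⟨n, hnm⟩ := Fin.ext h4.symm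
        rw [h5]
        exact h3 l
    · intro l
      obtain ⟨Q, -, hQ⟩ := mem_Wf.1 (hYn l)
      exact ⟨Q, fun j hj => absurd j.2 (by omega), hQ⟩
  have h : ∀ d n, n + d = m → 1 ≤ n → ∀ l, Y l ∈ Wf F a n := by
    intro d
    induction d with
    | zero =>
      intro n hn _ l
      have hn' : n = m := by omega
      rw [hn']
      exact hY l
    | succ d ih =>
      intro n hn h1
      exact key n h1 (ih (n + 1) (by omega) (by omega))
  intro l
  by_cases hm : 1 ≤ m
  · exact h (m - 1) 1 (by omega) le_rfl l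
  · obtain ⟨Q, -, hQ⟩ := mem_Wf.1 (hY l)
    exact ⟨Q, fun j hj => absurd j.2 (by omega), hQ⟩

end Pool.Agent.TWHT
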