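import Pool.Agent.Lib.TWHT.GrH
import Pool.Agent.Lib.TWHT.Stab
import Pool.Agent.Lib.TWHT.TriZ

/-!
# TANK W, leaf (Ht), row H5: the adapted homogeneous basis

* `no_dom`: there is no dominated subspace of the classes if there are no ties;
* `HtOp.exists_abas`: the adapted homogeneous basis.
-/

set_option autoImplicit false
set_option linter.unusedSectionVars false

open Polynomial

namespace Pool.Agent.TWHT

open Pool.Agent.H15JM (RVal)
open Pool.Agent.LU1 (VPos adj)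
open Pool.Agent.D2 (Ctx0)
open Pool.Agent.D2P (hen clI mem_clI)
open Pool.Agent.TWM Pool.Agent.TWS Pool.Agent.TWIV
open Pool.Agent.TWC (Opr fn fn_mem IsExt Desc Oper DExt V RS Ops act mem_act Tow)

universe u w

/-! ### The elements of `act O` -/

theorem exists_coefQ {K : Type u} {W : Type w} [Field K] [AddCommGroup W] [Module K W]
    {σ : K →+* K} [RingHomSurjective σ] {F : W →ₛₗ[σ] W} (O : Ops F) {n : ℕ} (y : Fin n → W) {z : W}
    (hz : z ∈ act O (Submodule.span K (Set.range y))) :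
    ∃ χ : Fin n → W →ₗ[K] W, (∀ j, χ j ∈ O.A) ∧ z = ∑ j, χ j (y j) := by
  induction hz using Submodule.span_induction with
  | mem z h =>
    obtain ⟨φ, hφ, x, hx, rfl⟩ := h
    obtain ⟨c, rfl⟩ := (Submodule.mem_span_range_iff_exists_fun K).1 hx
    refine ⟨fun j => c j • φ, fun j => O.A.smul_mem _ hφ, ?_⟩
    rw [map_sum]
    exact Finset.sum_congr rfl fun j _ => by rw [map_smul, LinearMap.smul_apply]
  | zero => exact ⟨0, fun j => zero_mem _, by simp⟩
  | add a b _ _ h1 h2 =>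
    obtain ⟨χ, hχ, rfl⟩ := h1
    obtain ⟨χ', hχ', rfl⟩ := h2
    refine ⟨χ + χ', fun j => add_mem (hχ j) (hχ' j), ?_⟩
    rw [← Finset.sum_add_distrib]
    rfl
  | smul a b _ h1 =>
    obtain ⟨χ, hχ, rfl⟩ := h1
    refine ⟨a • χ, fun j => O.A.smul_mem _ (hχ j), ?_⟩
    rw [Finset.smul_sum]
    rfl

variable {k Ω : Type u} [Field k] [Field Ω] [Algebra k Ω] {v : RVal Ω} [hcx : Fact (Ctx0 k v)]

section Dom

variable {C E L LE B : IntermediateField k Ω} {T : Submodule k (Opr v E)}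
  (p : ℕ) [hp : Fact p.Prime] [CharP k p] [CharP Ω p] [PerfectRing k p]

/-- **No dominated subspaces.** -/
theorem no_dom {𝒜 : Submodule k (Module.End k Ω)} (hone : (1 : Module.End k Ω) ∈ 𝒜)
    (hmem : ∀ φ ∈ T, ∀ Φ : Opr v LE, IsExt L φ Φ → ∃ ψ ∈ 𝒜, ∀ x ∈ LE, ψ x = fn Φ x)
    (hNT : NT p v 𝒜 B LE) (hD : DExt v T L LE) (hT : Oper p v C E T) (hBL : B ≤ LE)
    (hst : ∀ φ ∈ T, ∀ Φ : Opr v LE, IsExt L φ Φ → ∀ b ∈ B, fn Φ b ∈ B)
    (Y : Submodule k (MQ v LE B)) (hY : Y.FG)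
    (h : Y.map (frQ p v LE B) ≤ Y ⊔ act (opsQ p hD hT hBL hst) Y) : Y = ⊥ := by
  obtain ⟨n, y, rfl⟩ := Submodule.fg_iff_exists_fin_generating_family.1 hY
  -- the relations
  have h1 : ∀ l, ∃ (c : Fin n → k) (χ : Fin n → MQ v LE B →ₗ[k] MQ v LE B),
      (∀ j, χ j ∈ (opsQ p hD hT hBL hst).A) ∧
        frQ p v LE B (y l) = ∑ j, (c j • y j + χ j (y j)) := by
    intro l
    obtain ⟨a, ha, b, hb, h2⟩ := Submodule.mem_sup.1 (h (Submodule.mem_map_of_mem
      (Submodule.subset_span ⟨l, rfl⟩)))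
    obtain ⟨c, rfl⟩ := (Submodule.mem_span_range_iff_exists_fun k).1 ha
    obtain ⟨χ, hχ, rfl⟩ := exists_coefQ _ y hb
    refine ⟨c, χ, hχ, ?_⟩
    rw [Finset.sum_add_distrib, h2]
  choose c χ hχ hrel using h1
  -- representatives
  choose X hX hyX using fun l => exists_cl (y l)
  choose φ hφ Φ hΦ hcl using fun l j => hχ l j
  choose ψ hψ hψx using fun l j => hmem (φ l j) (hφ l j) (Φ l j) (hΦ l j)
  obtain ⟨θ, hθ⟩ : ∃ θ : Fin n → Fin n → Module.End k Ω, θ = fun l j => c l j • 1 + ψ l j := ⟨_, rfl⟩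
  have hθx : ∀ l j, θ l j (X j) = c l j • X j + fn (Φ l j) (X j) := by
    intro l j
    rw [hθ]
    change c l j • X j + ψ l j (X j) = _
    rw [hψx l j (X j) (hX j).1]
  have hmemj : ∀ l j, c l j • X j + fn (Φ l j) (X j) ∈ LimS v LE B := fun l j =>
    add_mem (Submodule.smul_mem _ _ (hX j)) (fn_LimS hBL (hst _ (hφ l j) _ (hΦ l j)) (hX j))
  have h2 : ∀ l, Nr v B 0 (X l ^ p - ∑ j, θ l j (X j)) := by
    intro l
    have h3 : cl (pow_LimS (p := p) (hX l)) = ∑ j, cl (hmemj l j) := by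
      rw [← frQ_cl (p := p) (hX l), ← hyX l, hrel l]
      refine Finset.sum_congr rfl fun j _ => ?_
      have h4 := fn_LimS hBL (hst _ (hφ l j) _ (hΦ l j)) (hX j)
      have h5 : cl (hmemj l j) = c l j • cl (hX j) + cl h4 := rfl
      rw [h5, hyX j, hcl l j (X j) (hX j) h4]
    rw [← cl_sum Finset.univ (hmemj l), cl_eq] at h3
    simp only [hθx]
    exact h3
  choose f hf hfx using h2
  have h3 := hNT (Fin n) X f θ (fun l j => by
    rw [hθ]
    exact add_mem (𝒜.smul_mem _ hone) (hψ l j)) (fun l => (hX l).1) (fun l => (hX l).2) hf hfx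
  rw [Submodule.span_eq_bot]
  rintro _ ⟨l, rfl⟩
  rw [hyX l, cl_eq_zero]
  exact h3 l

end Dom

/-! ### The span of the first elements of a basis -/

section Wf

variable {K : Type u} {W : Type w} [Field K] [AddCommGroup W] [Module K W]
  {σ : K →+* K} [RingHomSurjective σ] {F : W →ₛₗ[σ] W}

theorem opF_oneQ (x : W) : opF F (1 : K[X]) x = x := by
  rw [opF_range (1 : K[X]) x (n := 1) (by rw [natDegree_one]; exact zero_lt_one),
    Finset.sum_range_one, coeff_one_zero, one_smul]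
  rfl

theorem self_mem_WfQ {m : ℕ} {a : Fin m → W} {j : Fin m} {n : ℕ} (h : (j : ℕ) < n) :
    a j ∈ Wf F a n := by
  classical
  refine ⟨fun l => if l = j then 1 else 0, fun l hl => if_neg ?_, ?_⟩
  · rintro rfl
    omega
  · rw [Finset.sum_eq_single j]
    · dsimp only
      rw [if_pos rfl, opF_oneQ]
    · intro l _ hl
      dsimp only
      rw [if_neg hl, opF_zero]
    · exact fun h => absurd (Finset.mem_univ j) h

theorem RS_le_Wf {m : ℕ} {a : Fin m → W} (i : Fin m) :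
    RS F (Submodule.span K (a '' {j | j < i})) ≤ Wf F a i := by
  refine TWC.RS_le (Submodule.span_le.2 ?_) (map_Wf_le _)
  rintro _ ⟨j, hj, rfl⟩
  exact self_mem_WfQ (Fin.lt_def.1 hj)

theorem RS_le_Wf_top {m : ℕ} {a : Fin m → W} :
    RS F (Submodule.span K (Set.range a)) ≤ Wf F a m := by
  refine TWC.RS_le (Submodule.span_le.2 ?_) (map_Wf_le _)
  rintro _ ⟨j, rfl⟩
  exact self_mem_WfQ j.2

end Wf

/-! ### From the classes to the elements -/

section Tr

variable {p : ℕ} [hp : Fact p.Prime] [CharP k p] [CharP Ω p] [PerfectRing k p]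
  {G : AddSubgroup ℝ} {M : ℝ → Ω} {T B : IntermediateField k Ω}

/-- The class of a sum of values of additive polynomials. -/
theorem sum_opF_cl {m : ℕ} {a : Fin m → Ω} (ha : ∀ i, a i ∈ LimS v T B) (Q : Fin m → k[X]) :
    ∑ j, opF (frQ p v T B) (Q j) (cl (ha j)) =
      cl ((LimS v T B).sum_mem fun j (_ : j ∈ Finset.univ) => fev_LimS (p := p) (Q j) (ha j)) := by
  rw [cl_sum Finset.univ fun j => fev_LimS (p := p) (Q j) (ha j)]
  exact Finset.sum_congr rfl fun j _ => (cl_fevQ (Q j) (ha j)).symm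

/-- An element whose class is in the span of the first elements of the basis. -/
theorem nr_of_Wf (hM : MS v G M) {m : ℕ} {a : Fin m → Ω} (ha : ∀ i, a i ∈ LimS v T B) {n : ℕ}
    {y : Ω} (hy : y ∈ LimS v T B) (h : cl hy ∈ Wf (frQ p v T B) (fun i => cl (ha i)) n) :
    ∃ Q : Fin m → k[X], (∀ j : Fin m, n ≤ (j : ℕ) → Q j = 0) ∧
      Nr v B 0 (y - ∑ j, TWM.ev p M 0 0 (Q j) (a j)) := by
  obtain ⟨Q, hQ, h1⟩ := h
  refine ⟨Q, hQ, ?_⟩
  rw [sum_opF_cl ha Q, cl_eq] at h1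
  rwa [Finset.sum_congr rfl fun j _ => ev00_fev hM (Q j) (a j)]

/-- A basis of the classes gives a basis of the limits. -/
theorem zbas_of_cl (hM : MS v G M) {m : ℕ} {a : Fin m → Ω} (ha : ∀ i, a i ∈ LimS v T B)
    (hgen : RS (frQ p v T B) (Submodule.span k (Set.range fun i => cl (ha i))) = ⊤)
    (hind : ∀ Q : Fin m → k[X], ∑ i, opF (frQ p v T B) (Q i) (cl (ha i)) = 0 → ∀ i, Q i = 0) :
    ZBas k p M v B T Finset.univ a where
  mem i _ := (ha i).1
  lim i _ := (ha i).2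
  span y hy hl := by
    obtain ⟨Q, -, hQ⟩ := nr_of_Wf hM ha (n := m) (y := y) ⟨hy, hl⟩ (RS_le_Wf_top (by
      rw [hgen]
      exact Submodule.mem_top))
    exact ⟨Q, Nr.nr' hQ⟩
  free Q hQ i _ := by
    refine hind Q ?_ i
    rw [sum_opF_cl ha Q, cl_eq_zero]
    have := Nr'.nr hQ
    rwa [Finset.sum_congr rfl fun j _ => ev00_fev hM (Q j) (a j)] at this

end Tr

/-! ### The leaf -/

section Leaf

variable {p : ℕ} [hp : Fact p.Prime] [CharP k p] [CharP Ω p] [PerfectRing k p]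
  [IsAlgClosed Ω] {C P L LP N : IntermediateField k Ω} {G : AddSubgroup ℝ} {M : ℝ → Ω}
  {T : Submodule k (Opr v (PM v P G M))} {𝒜 : Submodule k (Module.End k Ω)}

/-- **An adapted homogeneous basis.** -/
theorem HtOp.exists_abas (H : HtOp p v C P L LP G M T 𝒜) (_hN : Cld v N) (_hiN : Imm v C N)
    (hNL : N ≤ L) {n : ℕ} (hT : Tow v n (PM v (clI v (N ⊔ P)) G M) (PM v LP G M))
    (hNT : NT p v 𝒜 (PM v (clI v (N ⊔ P)) G M) (PM v LP G M)) :
    ∃ (m : ℕ) (a : Fin m → Ω), ABas p v L LP M T (PM v (clI v (N ⊔ P)) G M) a := by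
  have D := H.D
  have hPA : P ≤ clI v (N ⊔ P) := le_sup_right.trans (TWC.self_le_clI v _)
  have hAL : clI v (N ⊔ P) ≤ LP := D.BLP hNL
  have hA : Cld v (clI v (N ⊔ P)) := cld_clI v _
  have hD := DExt.of_desc D.desc
  have hBL : PM v (clI v (N ⊔ P)) G M ≤ PM v LP G M := PM.mono hAL
  have hst : ∀ φ ∈ T, ∀ Φ : Opr v (PM v LP G M), IsExt (PM v L G M) φ Φ →
      ∀ b ∈ PM v (clI v (N ⊔ P)) G M, fn Φ b ∈ PM v (clI v (N ⊔ P)) G M :=
    fun φ _ Φ hΦ => H.stab hNL hΦ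
  obtain ⟨r, b, δ, hb⟩ := exists_adbQ D H.op H.nil H.hom hPA hAL hA hD hBL hst
    (no_dom p H.one H.mem hNT hD H.op hBL hst) hT
  choose g hg l hl hx hbx using fun i => (gw_of_desc D).exists_hom D.cpl hPA hAL hA (hb.hom i)
  have ha : ∀ i, l i * M (g i) ∈ LimS v (PM v LP G M) (PM v (clI v (N ⊔ P)) G M) := fun i => by
    rw [mul_comm]
    exact hx i
  have hba : b = fun i => cl (ha i) := by
    funext i
    rw [hbx i, cl_eq, mul_comm, sub_self]
    exact GW.nr_zero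
  rw [hba] at hb
  refine ⟨r, fun i => l i * M (g i), zbas_of_cl H.ms ha hb.gen hb.ind,
    fun i => ⟨l i, hl i, g i, hg i, rfl⟩, fun i φ hφ Φ hΦ => ?_⟩
  have hy := fn_LimS hBL (hst φ hφ Φ hΦ) (ha i)
  obtain ⟨Q, hQ, h1⟩ := nr_of_Wf H.ms ha (n := i) hy (RS_le_Wf i
    (hb.tri _ (actQ_mem p hD H.op hBL hst hφ hΦ) i))
  exact ⟨Q, fun j hj => hQ j (Fin.le_def.1 hj), h1⟩

end Leaf

end Pool.Agent.TWHT
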