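import Pool.Agent.Lib.TWHT.NT0
import Pool.Agent.Lib.TWHT.HtDefs

/-!
# TANK W, leaf (Ht): row R0

* `HtOp.nt_zero`: no ties over the perfect base.
-/

set_option autoImplicit false
set_option linter.unusedSectionVars false

open Polynomial

namespace Pool.Agent.TWHT

open Pool.Agent.H15JM (RVal)
open Pool.Agent.D2 (Ctx0)
open Pool.Agent.TWM Pool.Agent.TWS Pool.Agent.TWIV
open Pool.Agent.TWC (Opr fn Tow)

universe u

variable {k Ω : Type u} [Field k] [Field Ω] [Algebra k Ω] {v : RVal Ω}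
  [hcx : Fact (Ctx0 k v)] {p : ℕ} [hp : Fact p.Prime] [CharP k p] [CharP Ω p]
  [PerfectRing k p] [IsAlgClosed Ω]
  {C P L LP : IntermediateField k Ω} {G : AddSubgroup ℝ} {M : ℝ → Ω}
  {T : Submodule k (Opr v (PM v P G M))} {𝒜 : Submodule k (Module.End k Ω)}

/-- **R0.** No ties over the perfect base. -/
theorem HtOp.nt_zero (H : HtOp p v C P L LP G M T 𝒜) {n : ℕ}
    (hT : Tow v n (PM v P G M) (PM v LP G M)) : NT p v 𝒜 (PM v P G M) (PM v LP G M) :=
  fun _ _ _ _ _ hφ hXT hXl hf hR l => nt_of_nsd H.nx H.op H.nsd' hT hφ hXT hXl hf hR l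

end Pool.Agent.TWHT
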