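import Pool.Agent.Lib.TWHT.CoreOne
import Pool.Agent.Lib.TWHT.NT0w
import Pool.Agent.Lib.TWHT.FvOne
import Pool.Agent.Lib.TWHT.HtB

/-!
# TANK W, leaf (Ht): THE RECURSION

* `HtOp.pair_of`: the pair case;
* `HtOp.core_of`: a tower of length `3` of `LP` over `P` gives one of `L` over `C`, from the rows
  `FV(y, u)`, `FV(y; u)` and the shape `(1, 2)'`.
-/

set_option autoImplicit false
set_option linter.unusedSectionVars false

open Polynomial

namespace Pool.Agent.TWHT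

open Pool.Agent.H15JM (RVal)
open Pool.Agent.LU1 (VPos adj)
open Pool.Agent.D2 (Ctx0)
open Pool.Agent.D2P (hen clI mem_clI)
open Pool.Agent.TWM Pool.Agent.TWS Pool.Agent.TWIV
open Pool.Agent.TWC (Opr fn fn_ge fn_mem fn_add fn_sub' IsExt Desc Oper NilpC NSD Tow EW Tgt)

universe u

variable {k Ω : Type u} [Field k] [Field Ω] [Algebra k Ω] {v : RVal Ω}
  [hcx : Fact (Ctx0 k v)] {p : ℕ} [hp : Fact p.Prime] [CharP k p] [CharP Ω p]
  [PerfectRing k p] {C P L LP N : IntermediateField k Ω} {G : AddSubgroup ℝ} {M : ℝ → Ω}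
  {T : Submodule k (Opr v (PM v P G M))} {𝒜 : Submodule k (Module.End k Ω)}

variable [IsAlgClosed k] [IsAlgClosed Ω]

/-- The first letter of a tower may be changed. -/
theorem exch_nr' {A B : IntermediateField k Ω} {a y : Ω} (ta : TL v A a 0) {n : ℕ}
    (hT : TowR v n (cadj v A a) B) (hy : y ∈ B) (h : Nr' v A 0 (a - y)) :
    TL v A y 0 ∧ TowR v n (cadj v A y) B := by
  obtain ⟨b, hb, h1⟩ := h
  have h2 : Gt v 0 (y - (a - b)) := by
    have := h1.neg
    rwa [show -(a - y - b) = y - (a - b) by ring] at this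
  have h3 := ta.sub_mem hb
  refine ⟨h3.congr h2, TowR.exch h3 ?_ hy h2⟩
  rwa [cadj_sub_mem hb]

/-- The homogeneous case of a step. -/
theorem HtOp.ratH (H : HtOp p v C P L LP G M T 𝒜) (hN : Cld v N) (hiN : Imm v C N) (hNL : N ≤ L)
    {x : Ω} (tx : TL v (PM v (clI v (N ⊔ P)) G M) x 0)
    (hK : Kld T L LP (PM v (clI v (N ⊔ P)) G M) x) (hh : ∃ f ∈ LP, ∃ g ∈ G, x = f * M g) :
    ∃ f ∈ L, ∃ g ∈ G, Nr' v (PM v (clI v (N ⊔ P)) G M) 0 (x - f * M g) ∧
      TL v (PM v (clI v (N ⊔ P)) G M) (f * M g) 0 ∧ TL v N f (-g) ∧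
      PM v (clI v (cadj v N f ⊔ P)) G M = cadj v (PM v (clI v (N ⊔ P)) G M) (f * M g) ∧
      Cld v (cadj v N f) ∧ Imm v C (cadj v N f) ∧ cadj v N f ≤ L := by
  obtain ⟨f, hf, g, hg, rfl⟩ := hh
  obtain ⟨a, ha, b, hb, h1, h2, h3⟩ := H.D.step_hom hN hiN hNL hf hg tx hK
  refine ⟨a, ha, g, hg, ⟨b * M g, mul_mem (PM.le hb) (PM.mon hg), ?_⟩, h2, h3,
    (H.D.B_cadj hg).1, cld_cadj v N a, hiN.trans h3.imm, TWM.cadj_le H.D.cldL hNL ha⟩
  have h4 := h1.mul_ge (RVal.ge_self (v := v) (M g))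
  rw [H.ms.val g trivial, neg_add_cancel] at h4
  rwa [show (f - a - b) * M g = f * M g - a * M g - b * M g by ring] at h4

/-- **The pair case.** -/
theorem HtOp.pair_of (H : HtOp p v C P L LP G M T 𝒜) (hN : Cld v N) (hiN : Imm v C N)
    (hNL : N ≤ L) {m : ℕ} {e : Fin m → Ω} (he : ABas p v L LP M T (PM v (clI v (N ⊔ P)) G M) e)
    {c b : Ω} (hF : Fib v (PM v (clI v (N ⊔ P)) G M) (PM v LP G M) c b 0 0)
    (hb : Lim v (PM v (clI v (N ⊔ P)) G M) 0 b) : TowR v 2 N L := by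
  have hk : Ctx0 k v := hcx.out
  set B := PM v (clI v (N ⊔ P)) G M with hB
  have hPB : PM v P G M ≤ B := PM.mono (le_sup_right.trans (TWC.self_le_clI v _))
  have hMB : ∀ g : ℝ, M g ∈ B := fun g => hPB (H.mon g)
  obtain ⟨rfl, h1⟩ := he.fib_two H.ms hMB hF hb
  have h1 : Fib v B (PM v LP G M) (e 0) (e 1) 0 0 := h1
  have hK0 : Kld T L LP B (e 0) := he.kld (MS.mono H.ms le_top) (fun g _ => hMB g) le_rfl
    fun i hi => absurd hi (by rw [Fin.lt_def, Fin.val_zero]; omega)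
  obtain ⟨f, hf, g, hg, h2, h3, h4, h5, h6, h7, h8⟩ := H.ratH hN hiN hNL h1.ty hK0 (he.hom 0)
  rw [← hB] at h2 h3 h5
  have hu : f * M g ∈ PM v LP G M := mul_mem (PM.le (H.D.LLP hf)) (PM.mon hg)
  -- the pair `(f * M g, e 1)`
  have h9 : Fib v B (PM v LP G M) (f * M g) (e 1) 0 0 := by
    have hl1 : Lim v B 0 (e 1) := he.bas.lim 1 (Finset.mem_univ 1)
    have h10 := h1.swap hl1
    have h11 : Fib v B (PM v LP G M) (e 1) (f * M g) 0 0 := by
      refine h10.gen (c := 1) (one_mem B) one_ne_zero hu (by rw [v.map_one, zero_add]) ?_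
      obtain ⟨d, hd, h12⟩ := h2
      refine ⟨-d, neg_mem (le_cadj v B _ hd), ?_⟩
      have := h12.neg
      rwa [show -(e 0 - f * M g - d) = f * M g - 1 * e 0 - -d by ring] at this
    exact h11.swap h3.lim
  have hK1 : Kld T L LP (cadj v B (f * M g)) (e 1) := by
    refine he.kld (MS.mono H.ms le_top) (fun g _ => le_cadj v B _ (hMB g)) (le_cadj v B _)
      fun i hi => ?_
    have hi0 : i = 0 := by
      ext
      rw [Fin.lt_def, Fin.val_one] at hi
      rw [Fin.val_zero]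
      omega
    subst hi0
    have h10 := nr'_add (Nr'.mono h2 (le_cadj v B (f * M g)))
      (Nr'.self (r := 0) (self_mem_cadj v B (f * M g)))
    rwa [sub_add_cancel] at h10
  refine TowR.succ h4 (H.last_floor h6 h7 h8 (z := e 1) ?_ ?_ ?_)
  · rw [h5]
    exact h9.tz
  · rw [h5]
    exact h9.eq
  · rw [h5]
    exact hK1

/-- **The rows of the recursion.** -/
structure Rws (p : ℕ) [Fact p.Prime] [CharP k p] [CharP Ω p] [PerfectRing k p] (v : RVal Ω)
    [Fact (Ctx0 k v)] (C P L LP : IntermediateField k Ω) (G : AddSubgroup ℝ) (M : ℝ → Ω)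
    (T : Submodule k (Opr v (PM v P G M))) (𝒜 : Submodule k (Module.End k Ω)) : Prop where
  two : ∀ y u b : Ω, y ∈ PM v L G M → TL v (PM v P G M) y 0 → u ∈ PM v L G M →
    TL v (cadj v (PM v P G M) y) u 0 → b ∈ cadj v (PM v P G M) y →
    Lim v (PM v P G M) 0 (u + b) → FV p v 𝒜 (PM v P G M) (cadj v (cadj v (PM v P G M) y) u)
  can : ∀ y u : Ω, y ∈ PM v L G M → TL v (PM v P G M) y 0 → u ∈ PM v L G M →
    TL v (cadj v (PM v P G M) y) u 0 → Can p v (PM v P G M) (cadj v (PM v P G M) y) u →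
    FV p v 𝒜 (cadj v (PM v P G M) y) (cadj v (cadj v (PM v P G M) y) u)
  s12 : ∀ w y z : Ω, w ∈ PM v L G M → TL v (PM v P G M) w 0 → TL v (cadj v (PM v P G M) w) y 0 →
    TL v (cadj v (cadj v (PM v P G M) w) y) z 0 →
    PM v LP G M = cadj v (cadj v (cadj v (PM v P G M) w) y) z →
    (∀ Y ∈ PM v LP G M, Lim v (PM v P G M) 0 Y → Nr v (cadj v (PM v P G M) w) 0 Y) →
    (∃ x ∈ PM v LP G M, Lim v (cadj v (PM v P G M) w) 0 x ∧
      ¬ Nr v (cadj v (cadj v (PM v P G M) w) y) 0 x) →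
    (¬ ∃ c' b : Ω, Fib v (cadj v (PM v P G M) w) (PM v LP G M) c' b 0 0 ∧
      Lim v (cadj v (PM v P G M) w) 0 b) → Kld T L LP (cadj v (PM v P G M) w) y

theorem HtOp.BC (H : HtOp p v C P L LP G M T 𝒜) :
    PM v (clI v (C ⊔ P)) G M = PM v P G M := by
  rw [sup_eq_right.2 H.D.CP]
  exact congrArg (fun X => PM v X G M) (le_antisymm H.D.cldP (TWC.self_le_clI v P))

/-- An adapted basis over `E⟨y⟩`. -/
theorem HtOp.abas_first (H : HtOp p v C P L LP G M T 𝒜) {m : ℕ}
    {a : Fin (m + 1) → Ω} (ha : ABas p v L LP M T (PM v P G M) a) {f : Ω} (hf : f ∈ L) {g : ℝ}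
    (hg : g ∈ G) (hya : Nr' v (PM v P G M) 0 (a 0 - f * M g)) (ty : TL v (PM v P G M) (f * M g) 0)
    (tf : TL v C f (-g)) (hT : TowR v 2 (cadj v (PM v P G M) (f * M g)) (PM v LP G M)) :
    ∃ (m : ℕ) (e : Fin m → Ω), ABas p v L LP M T (cadj v (PM v P G M) (f * M g)) e := by
  have hB : PM v (clI v (cadj v C f ⊔ P)) G M = cadj v (PM v P G M) (f * M g) := by
    rw [(H.D.B_cadj hg).1, H.BC]
  have hy : f * M g ∈ PM v L G M := mul_mem (PM.le hf) (PM.mon hg)
  have hN : Cld v (cadj v C f) := cld_cadj v C f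
  have hNL : cadj v C f ≤ L := TWM.cadj_le H.D.cldL H.D.CL hf
  have hNT := H.nt_one_of ha hy ty hya (H.fv_one hy ty)
  have hTw : Tow v 2 (cadj v (PM v P G M) (f * M g)) (PM v LP G M) :=
    tow_mon H.ms hT fun g => le_cadj v _ _ (H.mon g)
  rw [← hB] at hNT hTw ⊢
  exact H.exists_abas hN tf.imm hNL hTw hNT

/-- The pair case over `E⟨y⟩`. -/
theorem HtOp.pair_first (H : HtOp p v C P L LP G M T 𝒜) {f : Ω} (hf : f ∈ L) {g : ℝ}
    (hg : g ∈ G) (tf : TL v C f (-g))
    (hab : ∃ (m : ℕ) (e : Fin m → Ω), ABas p v L LP M T (cadj v (PM v P G M) (f * M g)) e) {c b : Ω}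
    (hF : Fib v (cadj v (PM v P G M) (f * M g)) (PM v LP G M) c b 0 0)
    (hb : Lim v (cadj v (PM v P G M) (f * M g)) 0 b) : TowR v 2 (cadj v C f) L := by
  have hB : PM v (clI v (cadj v C f ⊔ P)) G M = cadj v (PM v P G M) (f * M g) := by
    rw [(H.D.B_cadj hg).1, H.BC]
  have hN : Cld v (cadj v C f) := cld_cadj v C f
  have hNL : cadj v C f ≤ L := TWM.cadj_le H.D.cldL H.D.CL hf
  obtain ⟨m, e, he⟩ := hab
  rw [← hB] at he hF hb
  exact H.pair_of hN tf.imm hNL he hF hb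

/-- **THE RECURSION**, from the rows. -/
theorem HtOp.core_of (H : HtOp p v C P L LP G M T 𝒜) (R : Rws p v C P L LP G M T 𝒜)
    (hT : TowR v 3 P LP) : TowR v 3 C L := by
  classical
  have hk : Ctx0 k v := hcx.out
  have hMtop : ∀ g ∈ (⊤ : AddSubgroup ℝ), M g ∈ PM v P G M := fun g _ => H.mon g
  have hvE : ∀ B : IntermediateField k Ω, ∀ b ∈ B, b ≠ 0 → v b ∈ (⊤ : AddSubgroup ℝ) :=
    fun _ _ _ _ => trivial
  have hEc : Cld v (PM v P G M) := PM.cld
  have hTc : Cld v (PM v LP G M) := PM.cld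
  have hET : PM v P G M ≤ PM v LP G M := PM.mono H.D.PLP
  have hs : ∀ s : ℝ, ∃ c ∈ PM v P G M, c ≠ 0 ∧ v c = s := fun s =>
    ⟨M s, H.mon s, H.ms.ne s trivial, H.ms.val s trivial⟩
  have hTw : Tow v 3 (PM v P G M) (PM v LP G M) := hT.pm H.D.mP hs (Imm.refl P)
  have hNT := H.nt_zero hTw
  obtain ⟨m, a, ha⟩ := H.exists_abas H.D.cldC (Imm.refl C) H.D.CL (n := 3) (by rwa [H.BC])
    (by rwa [H.BC])
  rw [H.BC] at ha
  obtain ⟨c₀, hc₀, tc₀⟩ := tow_inv_s hTw
  obtain ⟨i₀, -⟩ := ha.bas.nonempty hc₀ tc₀.lim (TL.not_nr' tc₀)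
  obtain ⟨m, rfl⟩ : ∃ m', m = m' + 1 := ⟨m - 1, by have := i₀.2; omega⟩
  have hn0 : ∀ y : Ω, Nr' v (PM v P G M) 0 (a 0 - y) → y ∈ PM v LP G M →
      ZBas k p M v (PM v P G M) (PM v LP G M) Finset.univ (Function.update a 0 y) := by
    intro y hy hyT
    refine zbas_congr H.ms hMtop ha.bas (fun i _ => ?_) fun i _ => ?_
    · by_cases hi : i = 0
      · rw [hi, Function.update_self]
        exact hyT
      · rw [Function.update_of_ne hi]
        exact ha.bas.mem i (Finset.mem_univ i)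
    · by_cases hi : i = 0
      · rw [hi, Function.update_self]
        exact hy
      · rw [Function.update_of_ne hi, sub_self]
        exact Nr'.self (zero_mem _)
  rcases Nat.eq_zero_or_pos m with rfl | hm
  · -- rank one
    obtain ⟨f, hf, g, hg, ty, tf, hya, hT2⟩ := H.one_first hT ha
    have hy : f * M g ∈ PM v L G M := mul_mem (PM.le hf) (PM.mon hg)
    have hyT : f * M g ∈ PM v LP G M := PM.mono H.D.LLP hy
    have hPM : PM v (cadj v P f) G M = cadj v (PM v P G M) (f * M g) := by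
      have h1 := (H.D.B_cadj (N := C) (f := f) hg).1
      have h2 := (H.D.B_cadj (N := C) (f := f) hg).2
      have h3 : clI v (C ⊔ P) = P := by
        rw [sup_eq_right.2 H.D.CP]
        exact le_antisymm H.D.cldP (TWC.self_le_clI v P)
      rw [h3] at h1 h2
      rw [← h1, h2]
    have hTE : TowR v 2 (cadj v (PM v P G M) (f * M g)) (PM v LP G M) := by
      have hi : Imm v P (cadj v P f) := by
        refine ⟨le_cadj v P f, fun x hx h0 => H.D.imm.imm x ?_ h0⟩
        exact TWM.cadj_le H.D.cld H.D.PLP (H.D.LLP hf) hx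
      have h1 := hT2.pm H.D.mP hs hi
      rw [hPM] at h1
      exact TowR.of_tow h1
    by_cases hii : ∃ c' b : Ω, Fib v (cadj v (PM v P G M) (f * M g)) (PM v LP G M) c' b 0 0 ∧
        Lim v (cadj v (PM v P G M) (f * M g)) 0 b
    · obtain ⟨c', b, hF, hb⟩ := hii
      exact TowR.succ tf (H.pair_first hf hg tf (H.abas_first ha hf hg hya ty tf hTE) hF hb)
    · have hc1 : ∀ Y ∈ PM v LP G M, Lim v (PM v P G M) 0 Y →
          Nr v (cadj v (PM v P G M) (f * M g)) 0 Y := by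
        intro Y hY hl
        obtain ⟨Q, hQ⟩ := (hn0 _ hya hyT).span Y hY hl
        have h1 : ∑ i, TWM.ev p M 0 0 (Q i) (Function.update a 0 (f * M g) i) =
            TWM.ev p M 0 0 (Q 0) (f * M g) := by
          rw [Fin.sum_univ_one, Function.update_self]
        rw [h1] at hQ
        have h2 : TWM.ev p M 0 0 (Q 0) (f * M g) ∈ cadj v (PM v P G M) (f * M g) := by
          rw [ev00_fev H.ms]
          exact fev_mem _ (self_mem_cadj v _ _)
        have h3 := nr'_add (Nr'.mono hQ (le_cadj v _ (f * M g))) (Nr'.self (r := 0) h2)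
        rw [sub_add_cancel] at h3
        exact nr_of_nr' h3
      exact TowR.succ tf (H.one_rest hf hg ty tf hT2 hc1 hii (H.abas_first ha hf hg hya ty tf hTE)
        (fun u hu tu hcan => R.can _ u hy ty hu tu hcan)
        fun c z tc tz hcz hx => R.s12 _ c z hy ty tc tz hcz hc1 hx hii)
  · -- rank at least two
    obtain ⟨m, rfl⟩ : ∃ m', m = m' + 1 := ⟨m - 1, by omega⟩
    have hMG : MonG v (PM v P G M) ⊤ M := ⟨H.ms, fun g _ _ => H.mon g⟩
    have hE1 : (1 : Fin (m + 1 + 1)) ≠ 0 := by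
      intro h
      have := congrArg Fin.val h
      rw [Fin.val_one, Fin.val_zero] at this
      omega
    obtain ⟨ta, hTa⟩ := perf_exh H.D.cpl hEc H.perfE hMG H.ms hMtop (hvE _) hTw
      (ha.bas.mem 0 (Finset.mem_univ 0)) (ha.bas.lim 0 (Finset.mem_univ 0))
      (ha.bas.not_nr H.ms (Finset.mem_univ 0)) (ha.bas.sat H.ms hMtop (Finset.mem_univ 0))
    have hK0 : Kld T L LP (PM v P G M) (a 0) := ha.kld (MS.mono H.ms le_top)
      (fun g _ => H.mon g) le_rfl
      fun i hi => absurd hi (by rw [Fin.lt_def, Fin.val_zero]; omega)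
    obtain ⟨f, hf, g, hg, hya, ty, tf, hB, hN, hiN, hNL⟩ := H.ratH H.D.cldC (Imm.refl C) H.D.CL
      (x := a 0) (by rwa [H.BC]) (by rwa [H.BC]) (ha.hom 0)
    rw [H.BC] at hya ty hB
    have hy : f * M g ∈ PM v L G M := mul_mem (PM.le hf) (PM.mon hg)
    have hyT : f * M g ∈ PM v LP G M := PM.mono H.D.LLP hy
    obtain ⟨-, hTE⟩ := exch_nr' ta hTa hyT hya
    have hZ := hn0 _ hya hyT
    by_cases hii : ∃ c' b : Ω, Fib v (cadj v (PM v P G M) (f * M g)) (PM v LP G M) c' b 0 0 ∧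
        Lim v (cadj v (PM v P G M) (f * M g)) 0 b
    · obtain ⟨c', b, hF, hb⟩ := hii
      exact TowR.succ tf (H.pair_first hf hg tf (H.abas_first ha hf hg hya ty tf hTE) hF hb)
    · -- the second vector
      have hE₁T : cadj v (PM v P G M) (f * M g) ≤ PM v LP G M := TWM.cadj_le hTc hET hyT
      have hEE₁ : PM v P G M ≤ cadj v (PM v P G M) (f * M g) := le_cadj v _ _
      have hM1 : ∀ g' ∈ (⊤ : AddSubgroup ℝ), M g' ∈ cadj v (PM v P G M) (f * M g) :=
        fun g' _ => hEE₁ (H.mon g')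
      have h10 : Function.update a 0 (f * M g) 1 = a 1 := Function.update_of_ne hE1 _ _
      have h00 : Function.update a 0 (f * M g) 0 = f * M g := Function.update_self _ _ _
      have hs1 := hZ.sat1 H.ms hMtop (hvE _) H.perfE hET hTc (Finset.mem_univ 0)
        (by rwa [h00]) (Finset.mem_univ 1) hE1
      have hn1 := hZ.not_nr1 H.ms hMtop (hvE _) (Finset.mem_univ 0) (by rwa [h00])
        (Finset.mem_univ 1) hE1
      rw [h00, h10] at hs1 hn1
      have ha1 : a 1 ∈ PM v LP G M := ha.bas.mem 1 (Finset.mem_univ 1)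
      have hla1 : Lim v (PM v P G M) 0 (a 1) := ha.bas.lim 1 (Finset.mem_univ 1)
      have hl1 : Lim v (cadj v (PM v P G M) (f * M g)) 0 (a 1) := Lim.mono hla1 hEE₁
      have hTE' : Tow v 2 (cadj v (PM v P G M) (f * M g)) (PM v LP G M) :=
        tow_mon H.ms hTE fun g' => hM1 g' trivial
      obtain ⟨c, d, hc, hd, hcd⟩ := tow_inv2 hTE'
      have hTc1 : TowR v 1 (cadj v (cadj v (PM v P G M) (f * M g)) c) (PM v LP G M) := by
        refine TowR.succ hd ?_
        rw [← hcd]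
        exact TowR.zero hTc
      have hcan : Nr v (cadj v (cadj v (PM v P G M) (f * M g)) c) 0 (a 1) := by
        by_contra hn
        have hl2 : Lim v (cadj v (cadj v (PM v P G M) (f * M g)) c) 0 (a 1) :=
          Lim.mono hl1 (le_cadj v _ c)
        have hYd : a 1 ∈ cadj v (cadj v (cadj v (PM v P G M) (f * M g)) c) d := by rwa [← hcd]
        obtain ⟨Q, -, hQ⟩ := TL.exists_ev (p := p) hk H.ms
          (fun g' hg' => le_cadj v _ _ (hM1 g' hg')) (hvE _) hd hYd hl2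
        obtain ⟨b, hb, h1⟩ := hQ
        have hQ0 : Q ≠ 0 := by
          rintro rfl
          rw [ev_zero, sub_zero] at h1
          exact hn ⟨b, hb, h1.ge⟩
        obtain ⟨b', hb', h2⟩ := exh_key (p := p) hk H.perfE (y := f * M g) (u := c) (z := d)
          ty hc hd.lim hla1 hQ0 (b := b) hb
          (by
            have h3 := h1.ge
            rw [sub_sub, ev00_fev H.ms] at h3
            exact h3)
        refine hii ⟨c, d - b', ⟨hc, hd.sub_mem hb', ?_⟩, h2⟩
        rw [cadj_sub_mem hb']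
        exact hcd
      obtain ⟨D, hD⟩ := ZBas.one H.ms hM1 (hvE _) hc hl1 (Nr.nr' hcan)
      obtain ⟨ta1, hTa1, -⟩ := hs1.tow H.ms hM1 hc hTc1 ha1 hn1 hD
      have hK1 : Kld T L LP (cadj v (PM v P G M) (f * M g)) (a 1) := by
        refine ha.kld (MS.mono H.ms le_top) (fun g' _ => hM1 g' trivial) hEE₁ fun i hi => ?_
        have hi0 : i = 0 := by
          ext
          rw [Fin.lt_def, Fin.val_one] at hi
          rw [Fin.val_zero]
          omega
        subst hi0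
        have h11 := nr'_add (Nr'.mono hya hEE₁)
          (Nr'.self (r := 0) (self_mem_cadj v (PM v P G M) (f * M g)))
        rwa [sub_add_cancel] at h11
      refine TowR.succ tf (H.two_of hN hiN hNL (x := a 1) ha1 (by rwa [hB]) (by rwa [hB])
        (ha.hom 1) (by rwa [hB]) (by rwa [hB]) (A := PM v P G M) (by rw [hB]; exact hEE₁)
        fun u hu tu hau => ?_)
      rw [hB] at tu hau ⊢
      obtain ⟨b, hb, h1⟩ := hau
      refine R.two _ u b hy ty hu tu hb (Lim.of_ge_sub hla1 ?_)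
      have := h1.ge.neg
      rwa [show -(a 1 - u - b) = u + b - a 1 by ring] at this

end Pool.Agent.TWHT
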