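import Pool.Agent.Lib.TWHT.TopK
import Pool.Agent.Lib.TWHT.TriZ

/-!
# TANK W, leaf (Ht): no ties over `E₁ = E⟨y⟩`

`a` an adapted basis of the limits of `E`, `y` near to `a 0`: the systems over `E⟨y⟩` whose unknowns
are in `LP` and are limits of `E⟨y⟩` have them in `E⟨y⟩ + O(0)`.
-/

set_option autoImplicit false
set_option linter.unusedSectionVars false

open Polynomial

namespace Pool.Agent.TWHT

open Pool.Agent.H15JM (RVal)
open Pool.Agent.D2 (Ctx0)
open Pool.Agent.D2P (hen clI mem_clI)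
open Pool.Agent.TWM Pool.Agent.TWS Pool.Agent.TWIV
open Pool.Agent.TWC (Opr fn IsExt Desc Oper NilpC NSD Tow fn_mem fn_add fn_ge fn_near fn_sub' Spn
  MM cls cls_eq_zero cls_of_nr cls_add cls_sub cls_smul cls_pow cls_pow_pow cls_poly cls_opr
  cls_congr nr_of_cls_eq)

universe u

variable {k Ω : Type u} [Field k] [Field Ω] [Algebra k Ω] {v : RVal Ω}
  [hcx : Fact (Ctx0 k v)] {p : ℕ} [hp : Fact p.Prime] [CharP k p] [CharP Ω p]
  [PerfectRing k p]

section Cls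

variable {E : IntermediateField k Ω} {M : ℝ → Ω}

theorem cls_ev {G : AddSubgroup ℝ} (hM : MS v G M) (P : k[X]) {w : Ω} (hw : Lim v E 0 w) :
    Lim v E 0 (TWM.ev p M 0 0 P w) ∧
      cls v E (TWM.ev p M 0 0 P w) = opF (MM.fr p v E) P (cls v E w) := by
  have e : TWM.ev p M 0 0 P w =
      ∑ i ∈ Finset.range (P.natDegree + 1), algebraMap k Ω (P.coeff i) * w ^ p ^ i := by
    rw [TWM.ev, P.sum_over_range' (f := fun j a => algebraMap k Ω a * M (0 - (p : ℝ) ^ j * 0) *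
      w ^ p ^ j) (fun j => by rw [map_zero, zero_mul, zero_mul]) _ (Nat.lt_succ_self _)]
    refine Finset.sum_congr rfl fun j _ => ?_
    rw [mul_zero, sub_zero, hM.zero, mul_one]
  obtain ⟨h1, h2⟩ := cls_poly p hw (P.natDegree + 1) P.coeff
  rw [e, opF_range P _ (Nat.lt_succ_self _)]
  exact ⟨h1, h2⟩

theorem cls_sum {ι : Type*} (S : Finset ι) {x : ι → Ω} (h : ∀ i ∈ S, Lim v E 0 (x i)) :
    Lim v E 0 (∑ i ∈ S, x i) ∧ cls v E (∑ i ∈ S, x i) = ∑ i ∈ S, cls v E (x i) := by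
  classical
  induction S using Finset.induction_on with
  | empty =>
    rw [Finset.sum_empty, Finset.sum_empty]
    exact ⟨TWC.Lim.of_mem (zero_mem E), cls_of_nr ⟨0, zero_mem E, by
      rw [sub_self]; exact RVal.Ge.zero⟩⟩
  | insert i S hi ih =>
    rw [Finset.sum_insert hi, Finset.sum_insert hi]
    obtain ⟨h1, h2⟩ := ih fun j hj => h j (Finset.mem_insert_of_mem hj)
    have h3 := h i (Finset.mem_insert_self i S)
    exact ⟨TWC.Lim.add h3 h1, by rw [cls_add h3 h1, h2]⟩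

theorem cls_comb {G : AddSubgroup ℝ} (hM : MS v G M) {m : ℕ} (Q : Fin m → k[X])
    {a : Fin m → Ω} (ha : ∀ i, Lim v E 0 (a i)) :
    Lim v E 0 (∑ i, TWM.ev p M 0 0 (Q i) (a i)) ∧
      cls v E (∑ i, TWM.ev p M 0 0 (Q i) (a i)) =
        ∑ i, opF (MM.fr p v E) (Q i) (cls v E (a i)) := by
  obtain ⟨h1, h2⟩ := cls_sum (E := E) Finset.univ (x := fun i => TWM.ev p M 0 0 (Q i) (a i))
    fun i _ => (cls_ev hM (Q i) (ha i)).1
  refine ⟨h1, h2.trans (Finset.sum_congr rfl fun i _ => (cls_ev hM (Q i) (ha i)).2)⟩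

omit hp [CharP k p] [CharP Ω p] [PerfectRing k p] in
theorem nr'_of_nr {x : Ω} (h : Nr v E 0 x) : Nr' v E 0 x := by
  obtain ⟨e, he, h1⟩ := h
  obtain ⟨c, hc⟩ := (hcx.out : Ctx0 k v).residue h1
  refine ⟨e + algebraMap k Ω c, add_mem he (E.algebraMap_mem c), ?_⟩
  rw [← sub_sub]
  exact hc

omit hp [CharP k p] [CharP Ω p] [PerfectRing k p] in
theorem nr_of_nr' {x : Ω} (h : Nr' v E 0 x) : Nr v E 0 x := by
  obtain ⟨e, he, h1⟩ := h
  exact ⟨e, he, h1.ge⟩

end Cls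

section Wfx

variable {V : Type*} [AddCommGroup V] [Module k V] {F : V →ₛₗ[frobenius k p] V} {m : ℕ}
  {a : Fin m → V}

theorem opF_one (x : V) : opF F 1 x = x := by
  have h := opF_monomial (F := F) 0 (1 : k) x
  rw [← monomial_zero_one]
  rw [h, one_smul, Function.iterate_zero_apply]

theorem self_mem_Wf {i : Fin m} {n : ℕ} (h : (i : ℕ) < n) : a i ∈ Wf F a n := by
  classical
  refine ⟨Pi.single i 1, fun j hj => Pi.single_eq_of_ne (fun h1 => ?_) _, ?_⟩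
  · rw [h1] at hj
    omega
  · rw [Finset.sum_eq_single i]
    · rw [Pi.single_eq_same, opF_one]
    · intro j _ hj
      rw [Pi.single_eq_of_ne hj, opF_zero]
    · intro h1
      exact absurd (Finset.mem_univ _) h1

end Wfx

variable {C P L LP N : IntermediateField k Ω} {G : AddSubgroup ℝ} {M : ℝ → Ω}
  {T : Submodule k (Opr v (PM v P G M))} {𝒜 : Submodule k (Module.End k Ω)}

/-- **No ties over `E₁ = E⟨y⟩`**, from `FV(y)`. -/
theorem HtOp.nt_one_of [IsAlgClosed Ω] (H : HtOp p v C P L LP G M T 𝒜) {m : ℕ}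
    {a : Fin (m + 1) → Ω} (ha : ABas p v L LP M T (PM v P G M) a) {y : Ω}
    (hy : y ∈ PM v L G M) (ty : TL v (PM v P G M) y 0) (hya : Nr' v (PM v P G M) 0 (a 0 - y))
    (hFV : FV p v 𝒜 (PM v P G M) (cadj v (PM v P G M) y)) :
    NT p v 𝒜 (cadj v (PM v P G M) y) (PM v LP G M) := by
  classical
  intro κ _ X f φ hφ hXL hXl hf hsys
  set LE := PM v LP G M with hLE
  set E₁ := cadj v (PM v P G M) y with hE₁
  have hk : Ctx0 k v := hcx.out
  have hEL : (PM v P G M) ≤ LE := PM.mono H.D.PLP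
  have hLL : PM v L G M ≤ LE := PM.mono H.D.LLP
  have hyLE : y ∈ LE := hLL hy
  have hE₁L : E₁ ≤ LE := cadj_le PM.cld hEL hyLE
  have hEE₁ : (PM v P G M) ≤ E₁ := le_cadj v (PM v P G M) y
  have haL : ∀ i, a i ∈ LE := fun i => ha.bas.mem i (Finset.mem_univ i)
  have hal : ∀ i, Lim v (PM v P G M) 0 (a i) := fun i => ha.bas.lim i (Finset.mem_univ i)
  have hcy : cls v (PM v P G M) y = cls v (PM v P G M) (a 0) :=
    (cls_congr (hal 0) ty.lim (nr_of_nr' hya)).symm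
  set FF := MM.fr p v (PM v P G M) with hFF
  set A : Fin (m + 1) → MM v (PM v P G M) := fun i => cls v (PM v P G M) (a i) with hA
  set O := H.op.ops p with hO
  -- the operators
  have hrep : ∀ l j, ∃ (c : k) (θ : Opr v (PM v P G M)) (Θ : Opr v LE), θ ∈ T ∧
      IsExt (PM v L G M) θ Θ ∧ ∀ x ∈ LE, φ l j x = algebraMap k Ω c * x + fn Θ x :=
    fun l j => H.rep _ (hφ l j)
  choose c θ Θ hθ hΘ hrep using hrep
  have hmL : ∀ l j, ∀ x ∈ LE, φ l j x ∈ LE := fun l j x hx => by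
    rw [hrep l j x hx]
    exact add_mem (mul_mem (LE.algebraMap_mem _) hx) (fn_mem _ x)
  have hm1 : ∀ l j, ∀ x ∈ E₁, φ l j x ∈ E₁ := fun l j x hx => by
    rw [hrep l j x (hE₁L hx)]
    exact add_mem (mul_mem (E₁.algebraMap_mem _) hx)
      (TWC.fn_cadj hEL hLL PM.cld (hΘ l j) hy ty hx)
  have hmlim : ∀ l j, ∀ x ∈ LE, Lim v (PM v P G M) 0 x → Lim v (PM v P G M) 0 (φ l j x) ∧
      cls v (PM v P G M) (φ l j x) =
        c l j • cls v (PM v P G M) x + MM.act (θ l j) (cls v (PM v P G M) x) := fun l j x hx hl => by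
    obtain ⟨h1, h2⟩ := cls_opr hEL (hΘ l j).eq hx hl
    have h3 := TWC.Lim.smul hl (c l j)
    rw [hrep l j x hx]
    exact ⟨TWC.Lim.add h3 h1, by rw [cls_add h3 h1, cls_smul hl, h2]⟩
  -- adapted and free
  have htri : ∀ i : Fin (m + 1), ∀ ψ ∈ O.A, ψ (A i) ∈ Wf FF A i := by
    rintro i _ ⟨ψ, hψ, rfl⟩
    obtain ⟨Ψ, hΨ⟩ := H.D.desc.ext ψ hψ
    obtain ⟨h1, h2⟩ := cls_opr hEL hΨ.eq (haL i) (hal i)
    obtain ⟨Q, hQ, hn⟩ := ha.adp i ψ hψ Ψ hΨ
    obtain ⟨h3, h4⟩ := cls_comb (p := p) H.ms Q hal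
    refine ⟨Q, fun j hj => hQ j hj, ?_⟩
    have h5 := cls_congr h1 h3 hn
    rw [h2, h4] at h5
    exact h5
  have hfree : ∀ Q : Fin (m + 1) → k[X], ∑ j, opF FF (Q j) (A j) = 0 → ∀ j, Q j = 0 := by
    intro Q hQ j
    obtain ⟨h3, h4⟩ := cls_comb (p := p) H.ms Q hal
    rw [hQ] at h4
    exact ha.bas.free Q (nr'_of_nr ((cls_eq_zero h3).1 h4)) j (Finset.mem_univ j)
  -- the shift
  choose b hb hYl using fun l => hFV κ X f φ hφ hXl hf hsys l
  have hYL : ∀ l, X l - b l ∈ LE := fun l => sub_mem (hXL l) (hE₁L (hb l))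
  have hR : ∀ l, f l - b l ^ p + ∑ j, φ l j (b j) ∈ E₁ := fun l =>
    add_mem (sub_mem (hf l) (pow_mem (hb l) p)) (sum_mem fun j _ => hm1 l j _ (hb j))
  have hsys' : ∀ l, v.Ge 0 ((X l - b l) ^ p - ∑ j, φ l j (X j - b j) -
      (f l - b l ^ p + ∑ j, φ l j (b j))) := by
    intro l
    have e : (X l - b l) ^ p - ∑ j, φ l j (X j - b j) - (f l - b l ^ p + ∑ j, φ l j (b j)) =
        X l ^ p - (∑ j, φ l j (X j)) - f l := by
      rw [sub_pow_char]
      simp only [map_sub, Finset.sum_sub_distrib]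
      ring
    rw [e]
    exact hsys l
  have hsum : ∀ l, Lim v (PM v P G M) 0 (∑ j, φ l j (X j - b j)) ∧
      cls v (PM v P G M) (∑ j, φ l j (X j - b j)) =
        ∑ j, (c l j • cls v (PM v P G M) (X j - b j) +
          MM.act (θ l j) (cls v (PM v P G M) (X j - b j))) := by
    intro l
    obtain ⟨h1, h2⟩ := cls_sum (E := PM v P G M) Finset.univ (x := fun j => φ l j (X j - b j))
      fun j _ => (hmlim l j _ (hYL j) (hYl j)).1
    exact ⟨h1, h2.trans (Finset.sum_congr rfl fun j _ => (hmlim l j _ (hYL j) (hYl j)).2)⟩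
  have hpow : ∀ l, Lim v (PM v P G M) 0 ((X l - b l) ^ p) := fun l => TWC.Lim.pow p (hYl l)
  have hlR : ∀ l, Lim v (PM v P G M) 0 (f l - b l ^ p + ∑ j, φ l j (b j)) := by
    intro l
    have h1 := TWC.Lim.sub (TWC.Lim.sub (hpow l) (hsum l).1)
      (TWC.Nr.lim (E := PM v P G M) ⟨0, zero_mem (PM v P G M), by rw [sub_zero]; exact hsys' l⟩)
    rwa [sub_sub_cancel] at h1
  have hcR : ∀ l, cls v (PM v P G M) (f l - b l ^ p + ∑ j, φ l j (b j)) ∈ Wf FF A 1 := by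
    intro l
    obtain ⟨n, d, hn⟩ := TWC.spn_of_mem p ty (hR l) (hlR l)
    obtain ⟨h1, h2⟩ := cls_poly p ty.lim n d
    rw [cls_congr (hlR l) h1 hn, h2]
    refine sum_mem fun i _ => Submodule.smul_mem _ _ (TWC.it_mem (map_Wf_le 1) ?_ i)
    rw [hcy]
    exact self_mem_Wf (a := A) (i := 0) (by simp)
  have hrel : ∀ l, FF (cls v (PM v P G M) (X l - b l)) =
      ∑ j, (c l j • cls v (PM v P G M) (X j - b j) +
        MM.act (θ l j) (cls v (PM v P G M) (X j - b j))) +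
        cls v (PM v P G M) (f l - b l ^ p + ∑ j, φ l j (b j)) := by
    intro l
    rw [← cls_pow p (hYl l), ← (hsum l).2, ← cls_add (hsum l).1 (hlR l)]
    refine cls_congr (hpow l) (TWC.Lim.add (hsum l).1 (hlR l)) ⟨0, zero_mem (PM v P G M), ?_⟩
    rw [sub_zero, ← sub_sub]
    exact hsys' l
  have hYW : ∀ l, cls v (PM v P G M) (X l - b l) ∈ Wf FF A (m + 1) := by
    intro l
    obtain ⟨Q, hQ⟩ := ha.bas.span _ (hYL l) (hYl l)
    obtain ⟨h3, h4⟩ := cls_comb (p := p) H.ms Q hal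
    refine ⟨Q, fun j hj => absurd j.2 (by omega), ?_⟩
    rw [cls_congr (hYl l) h3 (nr_of_nr' hQ), h4]
  have key := tri_zero (O := O) htri hfree (Y := fun l => cls v (PM v P G M) (X l - b l))
    (R := fun l => cls v (PM v P G M) (f l - b l ^ p + ∑ j, φ l j (b j))) hYW (c := c)
    (φ := fun l j => MM.actHom v (PM v P G M) (θ l j)) (fun l j => ⟨θ l j, hθ l j, rfl⟩) hcR hrel
  -- the conclusion
  intro l
  obtain ⟨Q, hQ, hQe⟩ := key l
  have hQ1 : cls v (PM v P G M) (X l - b l) = opF FF (Q 0) (cls v (PM v P G M) y) := by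
    rw [hcy]
    refine hQe.trans (Finset.sum_eq_single 0 (fun j _ hj => ?_) fun h =>
      absurd (Finset.mem_univ _) h)
    rw [hQ j (Nat.one_le_iff_ne_zero.2 fun h => hj (Fin.ext h)), opF_zero]
  obtain ⟨h5, h6⟩ := cls_ev (p := p) H.ms (Q 0) ty.lim
  obtain ⟨e, he, h7⟩ := nr_of_cls_eq (hYl l) h5 (hQ1.trans h6.symm)
  refine ⟨b l + TWM.ev p M 0 0 (Q 0) y + e, add_mem (add_mem (hb l) ?_) (hEE₁ he), ?_⟩
  · rw [ev00_fev H.ms]
    exact fev_mem _ (self_mem_cadj v (PM v P G M) y)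
  · have e1 : X l - (b l + TWM.ev p M 0 0 (Q 0) y + e) =
        X l - b l - TWM.ev p M 0 0 (Q 0) y - e := by ring
    rw [e1]
    exact h7

end Pool.Agent.TWHT
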