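import Pool.Agent.Lib.TWHT.Stab

/-!
# TANK W, leaf (Ht): the top floor is killed

`B = cl (N E)`, `LP = B⟨z⟩`, the systems over `B` with limits of `B` as unknowns have them in
`B + L(A)`, and `z` is not in `B + L(A)`: the operators send `z` in `B + O(0)`.
-/

set_option autoImplicit false
set_option linter.unusedSectionVars false

open Polynomial

namespace Pool.Agent.TWHT

open Pool.Agent.H15JM (RVal)
open Pool.Agent.D2 (Ctx0)
open Pool.Agent.D2P (hen clI mem_clI)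
open Pool.Agent.TWM Pool.Agent.TWS Pool.Agent.TWIV
open Pool.Agent.TWC (Opr fn IsExt Desc Oper NilpC NSD Tow fn_mem fn_add fn_ge fn_near fn_sub' Spn
  KilB.iter scalar_zero)

universe u

variable {k Ω : Type u} [Field k] [Field Ω] [Algebra k Ω] {v : RVal Ω}
  [hcx : Fact (Ctx0 k v)] {p : ℕ} [hp : Fact p.Prime] [CharP k p] [CharP Ω p]
  [PerfectRing k p] {C P L LP N : IntermediateField k Ω} {G : AddSubgroup ℝ} {M : ℝ → Ω}
  {T : Submodule k (Opr v (PM v P G M))} {𝒜 : Submodule k (Module.End k Ω)}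

/-- The image of a limit of a stable field is a limit. -/
theorem lim_fn {B LE : IntermediateField k Ω} {Φ : Opr v LE} (hB : B ≤ LE)
    (hΦB : ∀ b ∈ B, fn Φ b ∈ B) {x : Ω} (hx : x ∈ LE) (hl : Lim v B 0 x) : Lim v B 0 (fn Φ x) := by
  intro ε hε
  obtain ⟨a, ha, h1⟩ := hl ε hε
  refine ⟨fn Φ a, hΦB a ha, ?_⟩
  rw [← fn_sub' Φ hx (hB ha)]
  exact fn_ge Φ (sub_mem hx (hB ha)) h1

/-- **The system of a tie.** -/
theorem tie_sys {B LE : IntermediateField k Ω} {z : Ω} (h1A : (1 : Module.End k Ω) ∈ 𝒜)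
    (hzE : z ∈ LE) {Φ : Opr v LE}
    {ψ : Module.End k Ω} (hψ : ψ ∈ 𝒜) (hψΦ : ∀ x ∈ LE, ψ x = fn Φ x) {n : ℕ} {c : ℕ → k}
    (hc : c (n + 1) ≠ 0) (hn : Nr v B 0
      (fn Φ z - ∑ i ∈ Finset.range (n + 2), algebraMap k Ω (c i) * z ^ p ^ i)) :
    ∃ (f : Fin (n + 1) → Ω) (φ : Fin (n + 1) → Fin (n + 1) → Module.End k Ω),
      (∀ l j, φ l j ∈ 𝒜) ∧ (∀ l, f l ∈ B) ∧
      ∀ l : Fin (n + 1), v.Ge 0 ((z ^ p ^ (l : ℕ)) ^ p - (∑ j : Fin (n + 1), φ l j (z ^ p ^ (j : ℕ))) - f l) := by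
  have hk : Ctx0 k v := hcx.out
  obtain ⟨b, hb, hbn⟩ := hn
  set d := (c (n + 1))⁻¹ with hd
  have hdc : algebraMap k Ω d * algebraMap k Ω (c (n + 1)) = 1 := by
    rw [hd, ← map_mul, inv_mul_cancel₀ hc, map_one]
  -- the system
  let X : Fin (n + 1) → Ω := fun i => z ^ p ^ (i : ℕ)
  let φ : Fin (n + 1) → Fin (n + 1) → Module.End k Ω := fun l j =>
    if (l : ℕ) = n then (if (j : ℕ) = 0 then d • ψ else 0) - (d * c j) • (1 : Module.End k Ω)
    else if (j : ℕ) = l + 1 then 1 else 0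
  let f : Fin (n + 1) → Ω := fun l => if (l : ℕ) = n then -(algebraMap k Ω d * b) else 0
  refine ⟨f, φ, fun l j => ?_, fun l => ?_, fun l => ?_⟩
  · change (if (l : ℕ) = n then _ else _) ∈ 𝒜
    split_ifs
    · exact sub_mem (𝒜.smul_mem _ hψ) (𝒜.smul_mem _ h1A)
    · exact sub_mem 𝒜.zero_mem (𝒜.smul_mem _ h1A)
    · exact h1A
    · exact 𝒜.zero_mem
  · change (if (l : ℕ) = n then _ else _) ∈ B
    split_ifs
    · exact neg_mem (mul_mem (B.algebraMap_mem d) hb)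
    · exact zero_mem B
  · change v.Ge 0 (X l ^ p - (∑ j, φ l j (X j)) - f l)
    by_cases hl : (l : ℕ) = n
    · have e1 : X l ^ p = z ^ p ^ (n + 1) := by
        change (z ^ p ^ (l : ℕ)) ^ p = _
        rw [hl, ← pow_mul, ← pow_succ]
      have e2 : ∑ j, φ l j (X j) = algebraMap k Ω d * fn Φ z -
          ∑ i ∈ Finset.range (n + 1), algebraMap k Ω (d * c i) * z ^ p ^ i := by
        have e3 : ∀ j : Fin (n + 1), φ l j (X j) =
            (if (j : ℕ) = 0 then algebraMap k Ω d * fn Φ z else 0) -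
              algebraMap k Ω (d * c j) * z ^ p ^ (j : ℕ) := by
          intro j
          change (if (l : ℕ) = n then (if (j : ℕ) = 0 then d • ψ else 0) -
            (d * c j) • (1 : Module.End k Ω) else _) (z ^ p ^ (j : ℕ)) = _
          have hs1 : (d * c j) • (z ^ p ^ (j : ℕ)) = algebraMap k Ω (d * c j) * z ^ p ^ (j : ℕ) :=
            Algebra.smul_def _ _
          have hs2 : d • fn Φ z = algebraMap k Ω d * fn Φ z := Algebra.smul_def _ _
          rw [if_pos hl, LinearMap.sub_apply, LinearMap.smul_apply, Module.End.one_apply, hs1,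
            ← hs2]
          congr 1
          by_cases hj : (j : ℕ) = 0
          · rw [if_pos hj, if_pos hj, hj, pow_zero, pow_one, LinearMap.smul_apply, hψΦ z hzE]
          · rw [if_neg hj, if_neg hj, LinearMap.zero_apply]
        rw [Finset.sum_congr rfl fun j _ => e3 j, Finset.sum_sub_distrib,
          Finset.sum_range (fun i => algebraMap k Ω (d * c i) * z ^ p ^ i)]
        congr 1
        rw [Finset.sum_eq_single (0 : Fin (n + 1))]
        · exact if_pos (Fin.val_zero _)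
        · intro j _ hj
          exact if_neg fun h => hj (Fin.ext (h.trans (Fin.val_zero _).symm))
        · intro h
          exact absurd (Finset.mem_univ _) h
      have e4 : f l = -(algebraMap k Ω d * b) := if_pos hl
      have e5 : X l ^ p - ∑ j, φ l j (X j) - f l = algebraMap k Ω (-d) *
          (fn Φ z - ∑ i ∈ Finset.range (n + 2), algebraMap k Ω (c i) * z ^ p ^ i - b) := by
        rw [e1, e2, e4, Finset.sum_range_succ _ (n + 1), map_neg]
        have e6 : ∑ i ∈ Finset.range (n + 1), algebraMap k Ω (d * c i) * z ^ p ^ i =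
            algebraMap k Ω d * ∑ i ∈ Finset.range (n + 1), algebraMap k Ω (c i) * z ^ p ^ i := by
          rw [Finset.mul_sum]
          refine Finset.sum_congr rfl fun i _ => ?_
          rw [map_mul]
          ring
        rw [e6]
        linear_combination -(z ^ p ^ (n + 1)) * hdc
      rw [e5]
      have := (hk.ge (-d)).mul hbn
      rwa [zero_add] at this
    · have hl' : (l : ℕ) + 1 < n + 1 := by
        have := l.2
        omega
      have e1 : X l ^ p = z ^ p ^ ((l : ℕ) + 1) := by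
        change (z ^ p ^ (l : ℕ)) ^ p = _
        rw [← pow_mul, ← pow_succ]
      have e2 : ∑ j, φ l j (X j) = z ^ p ^ ((l : ℕ) + 1) := by
        have e3 : ∀ j : Fin (n + 1), φ l j (X j) =
            if (j : ℕ) = l + 1 then z ^ p ^ ((l : ℕ) + 1) else 0 := by
          intro j
          change (if (l : ℕ) = n then _ else if (j : ℕ) = l + 1 then (1 : Module.End k Ω) else 0)
            (z ^ p ^ (j : ℕ)) = _
          rw [if_neg hl]
          by_cases hj : (j : ℕ) = l + 1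
          · rw [if_pos hj, if_pos hj, Module.End.one_apply, hj]
          · rw [if_neg hj, if_neg hj, LinearMap.zero_apply]
        rw [Finset.sum_congr rfl fun j _ => e3 j, Finset.sum_eq_single (⟨l + 1, hl'⟩ : Fin (n + 1))]
        · rw [if_pos rfl]
        · intro j _ hj
          rw [if_neg fun h => hj (Fin.ext h)]
        · intro h
          exact absurd (Finset.mem_univ _) h
      have e4 : f l = 0 := if_neg hl
      rw [e1, e2, e4, sub_self, sub_zero]
      exact RVal.Ge.zero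

/-- **No tie of positive degree at the top**, from `FV`. -/
theorem no_tie {A B LE : IntermediateField k Ω} {z : Ω} (h1A : (1 : Module.End k Ω) ∈ 𝒜)
    (hFV : FV p v 𝒜 A B) (hzE : z ∈ LE) (hlz : Lim v B 0 z)
    (hz : ¬ ∃ b ∈ B, Lim v A 0 (z - b)) {Φ : Opr v LE}
    {ψ : Module.End k Ω} (hψ : ψ ∈ 𝒜) (hψΦ : ∀ x ∈ LE, ψ x = fn Φ x) {n : ℕ} {c : ℕ → k}
    (hc : c (n + 1) ≠ 0) (hn : Nr v B 0
      (fn Φ z - ∑ i ∈ Finset.range (n + 2), algebraMap k Ω (c i) * z ^ p ^ i)) : False := by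
  obtain ⟨f, φ, h1, h2, h3⟩ := tie_sys (𝒜 := 𝒜) h1A hzE hψ hψΦ hc hn
  obtain ⟨b', hb', h4⟩ := hFV (Fin (n + 1)) (fun l => z ^ p ^ (l : ℕ)) f φ h1
    (fun l => TWC.Lim.pow_pow p hlz l) h2 h3 0
  refine hz ⟨b', hb', ?_⟩
  rwa [Fin.val_zero, pow_zero, pow_one] at h4

/-- **No tie of positive degree at the top**, from `NT`. -/
theorem no_tie_nt {B LE : IntermediateField k Ω} {z : Ω} (h1A : (1 : Module.End k Ω) ∈ 𝒜)
    (hNT : NT p v 𝒜 B LE) (hzE : z ∈ LE) (hlz : Lim v B 0 z) (hz : ¬ Nr v B 0 z) {Φ : Opr v LE}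
    {ψ : Module.End k Ω} (hψ : ψ ∈ 𝒜) (hψΦ : ∀ x ∈ LE, ψ x = fn Φ x) {n : ℕ} {c : ℕ → k}
    (hc : c (n + 1) ≠ 0) (hn : Nr v B 0
      (fn Φ z - ∑ i ∈ Finset.range (n + 2), algebraMap k Ω (c i) * z ^ p ^ i)) : False := by
  obtain ⟨f, φ, h1, h2, h3⟩ := tie_sys (𝒜 := 𝒜) h1A hzE hψ hψΦ hc hn
  have h4 := hNT (Fin (n + 1)) (fun l => z ^ p ^ (l : ℕ)) f φ h1 (fun l => pow_mem hzE _)
    (fun l => TWC.Lim.pow_pow p hlz l) h2 h3 0
  rw [Fin.val_zero, pow_zero, pow_one] at h4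
  exact hz h4

/-- **A generator of the limits is killed** if there are no ties of positive degree. -/
theorem HtOp.kld_of_spn [IsAlgClosed Ω] (H : HtOp p v C P L LP G M T 𝒜)
    (hNL : N ≤ L) {z : Ω} (hzL : z ∈ PM v LP G M)
    (tz : TL v (PM v (clI v (N ⊔ P)) G M) z 0)
    (hspn : ∀ w ∈ PM v LP G M, Lim v (PM v (clI v (N ⊔ P)) G M) 0 w →
      Spn p v (PM v (clI v (N ⊔ P)) G M) z w)
    (hno : ∀ (Φ : Opr v (PM v LP G M)), ∀ ψ ∈ 𝒜, (∀ x ∈ PM v LP G M, ψ x = fn Φ x) →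
      ∀ (n : ℕ) (c : ℕ → k), c (n + 1) ≠ 0 → ¬ Nr v (PM v (clI v (N ⊔ P)) G M) 0
        (fn Φ z - ∑ i ∈ Finset.range (n + 2), algebraMap k Ω (c i) * z ^ p ^ i)) :
    Kld T L LP (PM v (clI v (N ⊔ P)) G M) z := by
  intro φ hφ Φ hΦ
  set B := PM v (clI v (N ⊔ P)) G M with hB
  have hBL : B ≤ PM v LP G M := PM.mono (H.D.BLP hNL)
  have hEB : PM v P G M ≤ B := PM.mono (H.D.immB hNL).le
  have hst : ∀ φ' ∈ T, ∀ Φ' : Opr v (PM v LP G M), IsExt (PM v L G M) φ' Φ' →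
      ∀ b ∈ B, fn Φ' b ∈ B := fun φ' _ Φ' hΦ' => H.stab hNL hΦ'
  have hl : Lim v B 0 (fn Φ z) := lim_fn hBL (hst φ hφ Φ hΦ) hzL tz.lim
  obtain ⟨n, c, hn⟩ := hspn _ (fn_mem Φ z) hl
  obtain ⟨ψ, hψ, hψΦ⟩ := H.mem φ hφ Φ hΦ
  have key : ∀ (n : ℕ) (c : ℕ → k), Nr v B 0
      (fn Φ z - ∑ i ∈ Finset.range n, algebraMap k Ω (c i) * z ^ p ^ i) →
      ∃ a : k, Nr v B 0 (fn Φ z - algebraMap k Ω a * z) := by
    intro n
    induction n with
    | zero =>
      intro c hn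
      exact ⟨0, by rwa [map_zero, zero_mul, ← Finset.sum_range_zero
        (fun i => algebraMap k Ω (c i) * z ^ p ^ i)]⟩
    | succ n ih =>
      intro c hn
      by_cases hc : c n = 0
      · refine ih c ?_
        rwa [Finset.sum_range_succ, hc, map_zero, zero_mul, add_zero] at hn
      · cases n with
        | zero =>
          refine ⟨c 0, ?_⟩
          rwa [zero_add, Finset.sum_range_one, pow_zero, pow_one] at hn
        | succ n => exact (hno Φ ψ hψ hψΦ n c hc hn).elim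
  obtain ⟨a, ha⟩ := key n c hn
  obtain ⟨m, hm⟩ := H.nil.nil B PM.cld hEB hBL hst z hzL tz.lim
  have h3 : a = 0 := scalar_zero hBL tz hzL (hst φ hφ Φ hΦ) ha (KilB.iter hφ hΦ m z hm)
  rwa [h3, map_zero, zero_mul, sub_zero] at ha

/-- **The top floor is killed.** -/
theorem HtOp.top_kld [IsAlgClosed Ω] (H : HtOp p v C P L LP G M T 𝒜) (hN : Cld v N)
    (hiN : Imm v C N) (hNL : N ≤ L) {A : IntermediateField k Ω} {z : Ω}
    (hFV : FV p v 𝒜 A (PM v (clI v (N ⊔ P)) G M)) (tz : TL v (PM v (clI v (N ⊔ P)) G M) z 0)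
    (hLP : PM v LP G M = cadj v (PM v (clI v (N ⊔ P)) G M) z)
    (hz : ¬ ∃ b ∈ PM v (clI v (N ⊔ P)) G M, Lim v A 0 (z - b)) :
    Kld T L LP (PM v (clI v (N ⊔ P)) G M) z := by
  have hzL : z ∈ PM v LP G M := by
    rw [hLP]
    exact self_mem_cadj v _ z
  exact H.kld_of_spn hNL hzL tz
    (fun w hw hl => TWC.spn_of_mem p tz (by rw [← hLP]; exact hw) hl)
    fun Φ ψ hψ hψΦ n c hc hn => no_tie H.one hFV hzL tz.lim hz hψ hψΦ hc hn

/-- **The top floor is killed**, from `NT`. -/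
theorem HtOp.top_kld_nt [IsAlgClosed Ω] (H : HtOp p v C P L LP G M T 𝒜)
    (hNL : N ≤ L) {z : Ω}
    (hNT : NT p v 𝒜 (PM v (clI v (N ⊔ P)) G M) (PM v LP G M))
    (tz : TL v (PM v (clI v (N ⊔ P)) G M) z 0)
    (hLP : PM v LP G M = cadj v (PM v (clI v (N ⊔ P)) G M) z) :
    Kld T L LP (PM v (clI v (N ⊔ P)) G M) z := by
  have hzL : z ∈ PM v LP G M := by
    rw [hLP]
    exact self_mem_cadj v _ z
  exact H.kld_of_spn hNL hzL tz
    (fun w hw hl => TWC.spn_of_mem p tz (by rw [← hLP]; exact hw) hl)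
    fun Φ ψ hψ hψΦ n c hc hn => no_tie_nt H.one hNT hzL tz.lim (TWC.TL.not_nr tz) hψ hψΦ hc hn

end Pool.Agent.TWHT
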