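import Pool.Agent.Lib.TWIV.Rec
import Pool.Agent.Lib.TWIV.FTPow
import Pool.Agent.Lib.TWHT.TopK
import Pool.Agent.Lib.TWHT.NTOne

/-!
# TANK W, leaf (Ht): the recursion, general lemmas

* `zbas_congr`: the elements of a basis may be changed by small elements;
* `top_basis`: the top generator in terms of a basis;
* `HtOp.kld_of`: a multiple of a killed element is killed.
-/

set_option autoImplicit false
set_option linter.unusedSectionVars false

open Polynomial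

namespace Pool.Agent.TWHT

open Pool.Agent.H15JM (RVal)
open Pool.Agent.LU1 (VPos adj)
open Pool.Agent.D2 (Ctx0)
open Pool.Agent.D2P (hen clI mem_clI)
open Pool.Agent.TWM Pool.Agent.TWS Pool.Agent.TWIV
open Pool.Agent.TWC (Opr fn fn_ge fn_mem fn_add fn_sub' IsExt Desc Oper NilpC NSD Tow EW Tgt)

universe u

variable {k Ω : Type u} [Field k] [Field Ω] [Algebra k Ω] {v : RVal Ω}
  [hcx : Fact (Ctx0 k v)] {p : ℕ} [hp : Fact p.Prime] [CharP k p] [CharP Ω p]
  [PerfectRing k p] {C P L LP N : IntermediateField k Ω} {G : AddSubgroup ℝ} {M : ℝ → Ω}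
  {T : Submodule k (Opr v (PM v P G M))} {𝒜 : Submodule k (Module.End k Ω)}

section Bas

variable {E B F : IntermediateField k Ω} {m : ℕ}

theorem nr'_sum' {ι : Type*} (S : Finset ι) {f : ι → Ω} (h : ∀ i ∈ S, Nr' v E 0 (f i)) :
    Nr' v E 0 (∑ i ∈ S, f i) :=
  Finset.sum_induction f (Nr' v E 0) (fun _ _ => nr'_add) (Nr'.self (zero_mem E)) h

theorem nr'_ev_sub (hM : MS v G M) (hME : ∀ g ∈ G, M g ∈ E) (P : k[X]) {x y : Ω}
    (h : Nr' v E 0 (x - y)) :
    Nr' v E 0 (TWM.ev p M 0 0 P x - TWM.ev p M 0 0 P y) := by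
  rw [← ev_sub_right]
  exact nr'_ev00 (p := p) hcx.out hM hME P h

/-- The elements of a basis may be changed by small elements. -/
theorem zbas_congr (hM : MS v G M) (hME : ∀ g ∈ G, M g ∈ E) {S : Finset (Fin m)}
    {a a' : Fin m → Ω} (h : ZBas k p M v E F S a) (hm : ∀ i ∈ S, a' i ∈ F)
    (hn : ∀ i ∈ S, Nr' v E 0 (a i - a' i)) : ZBas k p M v E F S a' := by
  have key : ∀ P : Fin m → k[X], Nr' v E 0 (∑ i ∈ S, TWM.ev p M 0 0 (P i) (a i) -
      ∑ i ∈ S, TWM.ev p M 0 0 (P i) (a' i)) := fun P => by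
    rw [← Finset.sum_sub_distrib]
    exact nr'_sum' S fun i hi => nr'_ev_sub hM hME (P i) (hn i hi)
  refine ⟨hm, fun i hi => ?_, fun y hy hl => ?_, fun P hP => ?_⟩
  · obtain ⟨b, hb, h1⟩ := hn i hi
    intro ε hε
    obtain ⟨c, hc, h2⟩ := h.lim i hi ε hε
    refine ⟨c - b, sub_mem hc hb, ?_⟩
    have h3 := h2.sub (h1.ge.mono (show (0 : ℝ) - ε ≤ 0 by linarith))
    rwa [show a i - c - (a i - a' i - b) = a' i - (c - b) by ring] at h3
  · obtain ⟨P, hP⟩ := h.span y hy hl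
    refine ⟨P, ?_⟩
    have h1 := nr'_add hP (key P)
    rwa [sub_add_sub_cancel] at h1
  · refine h.free P ?_
    have h1 := nr'_add (key P) hP
    rwa [sub_add_cancel] at h1

/-- **The top generator in terms of a basis.** -/
theorem top_basis [IsAlgClosed Ω] (hM : MS v G M) (hME : ∀ g ∈ G, M g ∈ E)
    (hvB : ∀ b ∈ B, b ≠ 0 → v b ∈ G) (hle : E ≤ B) {a : Fin m → Ω}
    (h : ZBas k p M v E F Finset.univ a) {j : Fin m} (hlow : ∀ i, i < j → Nr' v B 0 (a i))
    (hfree : ∀ P : Fin m → k[X], (∀ i, i < j → P i = 0) →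
      Nr' v B 0 (∑ i, TWM.ev p M 0 0 (P i) (a i)) → P j = 0) {z : Ω} (tz : TL v B z 0)
    (hF : F = cadj v B z) (hz : ∃ b ∈ B, Lim v E 0 (z - b)) :
    ∃ d : k, Nr' v B 0 (z - algebraMap k Ω d * a j) := by
  classical
  have hk : Ctx0 k v := hcx.out
  have hMB : ∀ g ∈ G, M g ∈ B := fun g hg => hle (hME g hg)
  obtain ⟨b, hb, hl⟩ := hz
  have hzF : z ∈ F := by
    rw [hF]
    exact self_mem_cadj v B z
  have hBF : B ≤ F := by
    rw [hF]
    exact le_cadj v B z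
  obtain ⟨P, hP⟩ := h.span (z - b) (sub_mem hzF (hBF hb)) hl
  set P' : Fin m → k[X] := fun i => if i < j then 0 else P i with hP'
  have h1 : Nr' v B 0 (z - ∑ i, TWM.ev p M 0 0 (P' i) (a i)) := by
    have h2 : Nr' v B 0 (∑ i, TWM.ev p M 0 0 (P i) (a i) -
        ∑ i, TWM.ev p M 0 0 (P' i) (a i)) := by
      rw [← Finset.sum_sub_distrib]
      refine nr'_sum' _ fun i _ => ?_
      by_cases hij : i < j
      · rw [hP']
        simp only [if_pos hij]
        rw [ev_zero, sub_zero]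
        exact nr'_ev00 (p := p) hk hM hMB (P i) (hlow i hij)
      · rw [hP']
        simp only [if_neg hij]
        rw [sub_self]
        exact Nr'.self (zero_mem B)
    have h3 := nr'_add (nr'_add (Nr'.mono hP hle) h2) (Nr'.self (r := 0) hb)
    rwa [show z - b - ∑ i, TWM.ev p M 0 0 (P i) (a i) + (∑ i, TWM.ev p M 0 0 (P i) (a i) -
      ∑ i, TWM.ev p M 0 0 (P' i) (a i)) + b = z - ∑ i, TWM.ev p M 0 0 (P' i) (a i) by ring] at h3
  have hlj : Lim v B 0 (a j) := fun ε hε => by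
    obtain ⟨c, hc, h2⟩ := h.lim j (Finset.mem_univ j) ε hε
    exact ⟨c, hle hc, h2⟩
  obtain ⟨D, -, hD⟩ := TL.exists_ev (p := p) hk hM hMB hvB tz
    (hF ▸ h.mem j (Finset.mem_univ j)) hlj
  -- the relation
  have h2 := nr'_ev00 (p := p) hk hM hMB D h1
  rw [ev_sub_right, ev00_sum, Finset.sum_congr rfl fun i _ => (ev00_tw hM D (P' i) (a i)).symm] at h2
  have h3 : Nr' v B 0 (∑ i, TWM.ev p M 0 0 ((if i = j then 1 else 0) - TWM.tw p D (P' i)) (a i)) := by
    have h4 := nr'_add hD h2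
    rw [sub_add_sub_cancel] at h4
    rw [Finset.sum_congr rfl fun i _ => ev_sub (p := p) (M := M) (s := 0) (r := 0)
      (if i = j then 1 else 0) (TWM.tw p D (P' i)) (a i), Finset.sum_sub_distrib,
      ev_pi (Finset.mem_univ j), ev_one hM]
    exact h4
  have h4 := hfree _ (fun i hi => by
    simp only [if_neg hi.ne, hP', if_pos hi]
    rw [zero_sub, neg_eq_zero]
    exact TWM.tw_zero_right D) h3
  simp only [if_pos] at h4
  obtain ⟨h5, -⟩ := TWM.tw_eq_one (sub_eq_zero.1 h4).symm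
  obtain ⟨d, rfl⟩ := natDegree_eq_zero.1 h5
  have e1 : TWM.ev p M 0 0 (Polynomial.C d) z = algebraMap k Ω d * z := by
    have h6 := TWM.ev_mono (p := p) (M := M) (s := 0) (r := 0) d 0 z
    rwa [pow_zero, mul_one, mul_zero, sub_zero, hM.zero, mul_one, pow_zero, pow_one] at h6
  have hd : d ≠ 0 := by
    rintro rfl
    rw [C_0, TWM.tw_zero_left, sub_zero] at h4
    exact one_ne_zero h4
  rw [e1] at hD
  refine ⟨d⁻¹, ?_⟩
  have hd' : algebraMap k Ω d ≠ 0 := (_root_.map_ne_zero _).2 hd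
  obtain ⟨b', hb', h6⟩ := hD
  refine ⟨-(algebraMap k Ω d⁻¹ * b'), neg_mem (mul_mem (B.algebraMap_mem _) hb'), ?_⟩
  have h7 : z - algebraMap k Ω d⁻¹ * a j - -(algebraMap k Ω d⁻¹ * b') =
      -(algebraMap k Ω d⁻¹ * (a j - algebraMap k Ω d * z - b')) := by
    have h8 : algebraMap k Ω d⁻¹ * algebraMap k Ω d = 1 := by
      rw [← map_mul, inv_mul_cancel₀ hd, map_one]
    linear_combination (-z) * h8
  rw [h7]
  have h8 := Gt.mul_ge h6 (hk.ge d⁻¹)
  rw [zero_add, mul_comm] at h8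
  exact h8.neg

end Bas

section Kl

/-- A multiple of a killed element is killed. -/
theorem HtOp.kld_of (H : HtOp p v C P L LP G M T 𝒜) (hNL : N ≤ L) {x z : Ω}
    (hx : x ∈ PM v LP G M) (hz : z ∈ PM v LP G M) {d : k}
    (h : Nr' v (PM v (clI v (N ⊔ P)) G M) 0 (z - algebraMap k Ω d * x))
    (hK : Kld T L LP (PM v (clI v (N ⊔ P)) G M) x) :
    Kld T L LP (PM v (clI v (N ⊔ P)) G M) z := by
  intro φ hφ Φ hΦ
  have hk : Ctx0 k v := hcx.out
  obtain ⟨b, hb, h1⟩ := h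
  obtain ⟨c, hc, h2⟩ := hK φ hφ Φ hΦ
  have hbL : b ∈ PM v LP G M := PM.mono (H.D.BLP hNL) hb
  have hdx : algebraMap k Ω d * x ∈ PM v LP G M := mul_mem (IntermediateField.algebraMap_mem _ d) hx
  have h3 := fn_ge Φ (sub_mem (sub_mem hz hdx) hbL) h1.ge
  have h4 : fn Φ (algebraMap k Ω d * x) = algebraMap k Ω d * fn Φ x := by
    rw [← Algebra.smul_def, ← Algebra.smul_def]
    exact TWC.fn_smul Φ d hx
  rw [fn_sub' Φ (sub_mem hz hdx) hbL, fn_sub' Φ hz hdx, h4] at h3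
  refine ⟨algebraMap k Ω d * c + fn Φ b, add_mem (mul_mem (IntermediateField.algebraMap_mem _ d) hc)
    (H.stab hNL hΦ b hb), ?_⟩
  have h5 := (hk.ge d).mul h2
  rw [zero_add] at h5
  have h6 := h3.add h5
  rwa [show fn Φ z - algebraMap k Ω d * fn Φ x - fn Φ b + algebraMap k Ω d * (fn Φ x - c) =
    fn Φ z - (algebraMap k Ω d * c + fn Φ b) by ring] at h6

/-- The elements of an adapted basis are killed modulo the lower ones. -/
theorem ABas.kld {B B' : IntermediateField k Ω} {m : ℕ} {a : Fin m → Ω}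
    (h : ABas p v L LP M T B a) (hM : MS v G M) (hMB : ∀ g ∈ G, M g ∈ B') (hBB : B ≤ B') {j : Fin m}
    (hlow : ∀ i, i < j → Nr' v B' 0 (a i)) : Kld T L LP B' (a j) := by
  intro φ hφ Φ hΦ
  have hk : Ctx0 k v := hcx.out
  obtain ⟨Q, hQ, e, he, h1⟩ := h.adp j φ hφ Φ hΦ
  have h2 : Nr' v B' 0 (∑ i, TWM.ev p M 0 0 (Q i) (a i)) := by
    refine nr'_sum' _ fun i _ => ?_
    by_cases hij : i < j
    · exact nr'_ev00 (p := p) hk hM hMB (Q i) (hlow i hij)
    · rw [hQ i (not_lt.1 hij), ev_zero]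
      exact Nr'.self (zero_mem B')
  obtain ⟨f, hf, h3⟩ := h2
  refine ⟨e + f, add_mem (hBB he) hf, ?_⟩
  have h4 := h1.add h3.ge
  rwa [show fn Φ (a j) - ∑ i, TWM.ev p M 0 0 (Q i) (a i) - e +
    (∑ i, TWM.ev p M 0 0 (Q i) (a i) - f) = fn Φ (a j) - (e + f) by ring] at h4

end Kl

end Pool.Agent.TWHT
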