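import Pool.Agent.Lib.TWHT.GrDesc

/-!
# TANK W, leaf (Ht), row R7: the rational step for a homogeneous letter

`C ≤ N ≤ L` closed, `B = cl (N P)`, `f M(g)` a letter over `B` (with monomials) killed modulo `B + O`.

* `DescM.step_hom`: `f` is near `a + b`, `a` in `L`, `b` in `B`, and `a` is the next rational letter;
* `DescM.B_cadj`: the new base.
-/

set_option autoImplicit false
set_option linter.unusedSectionVars false

open Polynomial

namespace Pool.Agent.TWS

open Pool.Agent.H15JM (RVal)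
open Pool.Agent.D2 (Ctx0)
open Pool.Agent.D2P (clI mem_clI)
open Pool.Agent.TWM
open Pool.Agent.TWC (Opr Desc IsExt adjT clI_mono')

universe u

variable {k Ω : Type u} [Field k] [Field Ω] [Algebra k Ω] {v : RVal Ω} [hk : Fact (Ctx0 k v)]
  {C P L LP N : IntermediateField k Ω} {G : AddSubgroup ℝ} {M : ℝ → Ω}
  {T : Submodule k (Opr v (PM v P G M))} {p : ℕ}

/-- **The new base.** -/
theorem DescM.B_cadj (D : DescM p v C P L LP G M T) {f : Ω} {g : ℝ} (hg : g ∈ G) :
    PM v (clI v (cadj v N f ⊔ P)) G M = cadj v (PM v (clI v (N ⊔ P)) G M) (f * M g) ∧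
      clI v (cadj v N f ⊔ P) = cadj v (clI v (N ⊔ P)) f := by
  have h0 : clI v (cadj v N f ⊔ P) = cadj v (clI v (N ⊔ P)) f := TWC.clI_cadj_sup _ _ _
  refine ⟨?_, h0⟩
  rw [h0, PM.cadj]
  have := cadj_affine (v := v) (A := PM v (clI v (N ⊔ P)) G M) (z := f) (PM.mon hg)
    (D.mc.ms.ne g hg) (zero_mem _)
  rwa [add_zero, mul_comm, eq_comm] at this

/-- **The rational step for a homogeneous letter.** -/
theorem DescM.step_hom [IsAlgClosed Ω] (D : DescM p v C P L LP G M T) (hN : Cld v N)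
    (hiN : Imm v C N) (hNL : N ≤ L) {f : Ω} (hf : f ∈ LP) {g : ℝ} (hg : g ∈ G)
    (hT : TL v (PM v (clI v (N ⊔ P)) G M) (f * M g) 0)
    (hop : ∀ φ ∈ T, ∀ Φ : Opr v (PM v LP G M), IsExt (PM v L G M) φ Φ →
      Nr v (PM v (clI v (N ⊔ P)) G M) 0 (TWC.fn Φ (f * M g))) :
    ∃ a ∈ L, ∃ b ∈ clI v (N ⊔ P), Gt v (-g) (f - a - b) ∧
      TL v (PM v (clI v (N ⊔ P)) G M) (a * M g) 0 ∧ TL v N a (-g) := by
  set B := clI v (N ⊔ P) with hB
  have hBc : Cld v B := cld_clI v _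
  have hiB : Imm v P B := D.immB hNL
  have hBLP : B ≤ LP := D.BLP hNL
  have hsup : clI v (PM v N G M ⊔ PM v P G M) = PM v B G M := PM.sup.symm
  have hx : f * M g ∈ PM v LP G M := mul_mem (PM.le hf) (PM.mon hg)
  obtain ⟨u, hu, b, hb, h4⟩ := D.desc.desc (PM v N G M) PM.cld (PM.mono hiN.le) (PM.mono hNL) _ hx
    (by rw [hsup]; exact hT.lim) (by rw [hsup]; exact hop)
  rw [hsup] at hb
  obtain ⟨a, ha, b', hb', h5⟩ := down_gt D.cpl D.mP D.imm D.cld le_rfl D.mL D.LLP D.cldL D.vL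
    hiB hBLP hBc hg hf hu hb h4
  rw [zero_sub] at h5
  have hbM : b' * M g ∈ PM v B G M := mul_mem (PM.le hb') (PM.mon hg)
  have h6 : Gt v 0 (a * M g - (f * M g - b' * M g)) := by
    have h7 := h5.neg.mul_ge (RVal.ge_self (v := v) (M g))
    rw [D.mc.ms.val g hg] at h7
    have e : a * M g - (f * M g - b' * M g) = -(f - a - b') * M g := by ring
    rw [e]
    exact h7.mono (by linarith)
  have h8 : TL v (PM v B G M) (a * M g) 0 := (hT.sub_mem hbM).congr h6
  refine ⟨a, ha, b', hb', h5, h8, ?_⟩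
  have hfL' : a * M g ∈ PM v L G M := mul_mem (PM.le ha) (PM.mon hg)
  have h7 : Lim v (PM v N G M) 0 (a * M g) :=
    D.desc.lim PM.cld (PM.mono hiN.le) (PM.mono hNL) hfL' (by rw [hsup]; exact h8.lim)
  have hNB : PM v N G M ≤ PM v B G M := PM.mono (le_sup_left.trans (TWC.self_le_clI v _))
  have h9 := D.limN hN hiN hNL (D.LLP ha) hg h7
  rw [zero_sub] at h9
  exact tl_mon D.mc hg (h8.of_le hNB h7) h9

end Pool.Agent.TWS
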