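import Pool.Agent.Lib.TWHT.HtDefs
import Pool.Agent.Lib.TWHT.StepHom
import Pool.Agent.Lib.TWHT.TopK

/-!
# TANK W, leaf (Ht), the recursion: part A

* `HtOp.last_floor`: a killed generator of the last floor;
* `HtOp.kld_letter`: a killed homogeneous letter gives a rational letter and the next base;
* `HtOp.two_of`: the last two floors, the first letter killed and homogeneous, no pair with a
  limit, and `FV` over the floor.
-/

set_option autoImplicit false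
set_option linter.unusedSectionVars false

open Polynomial

namespace Pool.Agent.TWHT

open Pool.Agent.H15JM (RVal)
open Pool.Agent.D2 (Ctx0)
open Pool.Agent.D2P (hen clI mem_clI)
open Pool.Agent.TWM Pool.Agent.TWS Pool.Agent.TWIV
open Pool.Agent.TWC (Opr fn IsExt Desc Oper NilpC NSD Tow EW Tgt Spn)

universe u

section Tower

variable {k Ω : Type u} [Field k] [Field Ω] [Algebra k Ω] {v : RVal Ω}
  {A B : IntermediateField k Ω} {M : ℝ → Ω}

/-- Monomials of all values: the radii become `0`. -/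
theorem tow_all (hM : MS v ⊤ M) {n : ℕ} (h : TowR v n A B) (hMA : ∀ g : ℝ, M g ∈ A) :
    Tow v n A B := by
  induction h with
  | zero h => exact Tow.zero h
  | @succ n A B z s hz _ ih =>
    obtain ⟨h1, h2⟩ := TL.scale hz (hMA s) (hM.ne s trivial) (hM.val s trivial)
    refine Tow.succ h1 ?_
    rw [h2]
    exact ih fun g => le_cadj v _ _ (hMA g)

theorem tow_i1 (h : Tow v 1 A B) : ∃ c, TL v A c 0 ∧ B = cadj v A c := by
  cases h with
  | succ h₁ hT =>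
    cases hT with
    | zero _ => exact ⟨_, h₁, rfl⟩

theorem tow_i2 (h : Tow v 2 A B) : ∃ c d, TL v A c 0 ∧ TL v (cadj v A c) d 0 ∧
    B = cadj v (cadj v A c) d := by
  cases h with
  | succ h₁ hT =>
    cases hT with
    | succ h₂ hT =>
      cases hT with
      | zero _ => exact ⟨_, _, h₁, h₂, rfl⟩

end Tower

variable {k Ω : Type u} [Field k] [Field Ω] [Algebra k Ω] {v : RVal Ω}
  [hcx : Fact (Ctx0 k v)] {p : ℕ} [hp : Fact p.Prime] [CharP k p] [CharP Ω p]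
  [PerfectRing k p] [IsAlgClosed k] [IsAlgClosed Ω]
  {C P L LP N : IntermediateField k Ω} {G : AddSubgroup ℝ} {M : ℝ → Ω}
  {T : Submodule k (Opr v (PM v P G M))} {𝒜 : Submodule k (Module.End k Ω)}

theorem HtOp.mB (H : HtOp p v C P L LP G M T 𝒜) (N : IntermediateField k Ω) (g : ℝ) :
    M g ∈ PM v (clI v (N ⊔ P)) G M :=
  PM.mono (le_sup_right.trans (TWC.self_le_clI v _)) (H.mon g)

/-- **The last floor.** -/
theorem HtOp.last_floor (H : HtOp p v C P L LP G M T 𝒜) (hN : Cld v N) (hiN : Imm v C N)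
    (hNL : N ≤ L) {z : Ω} (tz : TL v (PM v (clI v (N ⊔ P)) G M) z 0)
    (hLP : PM v LP G M = cadj v (PM v (clI v (N ⊔ P)) G M) z)
    (hkl : Kld T L LP (PM v (clI v (N ⊔ P)) G M) z) : TowR v 1 N L := by
  have hz : z ∈ PM v LP G M := by
    rw [hLP]
    exact self_mem_cadj v _ z
  obtain ⟨f, hf, g, hg, -, -, h5, h6⟩ := H.D.step hN hiN hNL hz tz hkl (Or.inr (by
    intro w hw hl
    refine TWC.spn_of_mem p tz ?_ hl
    rw [← hLP]
    exact H.D.desc.le_LE hw))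
  refine TowR.succ h5 ?_
  rw [← (h6 hLP).2]
  exact TowR.zero H.D.cldL

/-- **A killed letter gives a rational letter.** -/
theorem HtOp.kld_letter (H : HtOp p v C P L LP G M T 𝒜) (hN : Cld v N) (hiN : Imm v C N)
    (hNL : N ≤ L) {x : Ω} (hx : x ∈ PM v LP G M) (tx : TL v (PM v (clI v (N ⊔ P)) G M) x 0)
    (hkl : Kld T L LP (PM v (clI v (N ⊔ P)) G M) x)
    (hh : (∃ f ∈ LP, ∃ g ∈ G, x = f * M g) ∨
      ∀ w ∈ PM v L G M, Lim v (PM v (clI v (N ⊔ P)) G M) 0 w →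
        Spn p v (PM v (clI v (N ⊔ P)) G M) x w) :
    ∃ f ∈ L, ∃ g ∈ G, TL v N f (-g) ∧ f * M g ∈ PM v L G M ∧
      Nr' v (PM v (clI v (N ⊔ P)) G M) 0 (x - f * M g) ∧
      TL v (PM v (clI v (N ⊔ P)) G M) (f * M g) 0 ∧
      Imm v C (cadj v N f) ∧ cadj v N f ≤ L ∧
      PM v (clI v (cadj v N f ⊔ P)) G M = cadj v (PM v (clI v (N ⊔ P)) G M) (f * M g) ∧
      ∀ n, TowR v n (cadj v (PM v (clI v (N ⊔ P)) G M) x) (PM v LP G M) →
        TowR v n (cadj v (PM v (clI v (N ⊔ P)) G M) (f * M g)) (PM v LP G M) := by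
  obtain ⟨f, hf, g, hg, ⟨b, hb, h4⟩, h5, h6, -⟩ := H.D.step hN hiN hNL hx tx hkl hh
  have hu : f * M g ∈ PM v L G M := mul_mem (PM.le hf) (PM.mon hg)
  refine ⟨f, hf, g, hg, h6, hu, ⟨b, hb, h4⟩, h5, hiN.trans h6.imm, cadj_le H.D.cldL hNL hf,
    (H.D.B_cadj hg).1, fun n hT => ?_⟩
  · have h7 : Gt v 0 (f * M g - (x - b)) := by
      have := h4.neg
      rwa [show -(x - f * M g - b) = f * M g - (x - b) by ring] at this
    refine TowR.exch (tx.sub_mem hb) ?_ (H.D.desc.le_LE hu) h7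
    rwa [cadj_sub_mem hb]

/-- **The last two floors.** -/
theorem HtOp.two_of (H : HtOp p v C P L LP G M T 𝒜) (hN : Cld v N) (hiN : Imm v C N) (hNL : N ≤ L) {x : Ω} (hx : x ∈ PM v LP G M)
    (tx : TL v (PM v (clI v (N ⊔ P)) G M) x 0)
    (hkl : Kld T L LP (PM v (clI v (N ⊔ P)) G M) x) (hh : ∃ f ∈ LP, ∃ g ∈ G, x = f * M g)
    (hT : TowR v 1 (cadj v (PM v (clI v (N ⊔ P)) G M) x) (PM v LP G M))
    (htop : ¬ ∃ c' b : Ω, Fib v (PM v (clI v (N ⊔ P)) G M) (PM v LP G M) c' b 0 0 ∧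
      Lim v (PM v (clI v (N ⊔ P)) G M) 0 b)
    {A : IntermediateField k Ω} (hA : A ≤ PM v (clI v (N ⊔ P)) G M)
    (hFV : ∀ u ∈ PM v L G M, TL v (PM v (clI v (N ⊔ P)) G M) u 0 →
      Nr' v (PM v (clI v (N ⊔ P)) G M) 0 (x - u) →
      FV p v 𝒜 A (cadj v (PM v (clI v (N ⊔ P)) G M) u)) : TowR v 2 N L := by
  obtain ⟨f, hf, g, hg, h1, hu, hn, tu, hi', hL', hB, hTn⟩ :=
    H.kld_letter hN hiN hNL hx tx hkl (Or.inl hh)
  refine TowR.succ h1 ?_
  have hT' := hTn 1 hT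
  have hF := hFV _ hu tu hn
  rw [← hB] at hT' hF
  obtain ⟨z, tz, hz⟩ := tow_i1 (tow_all H.ms hT' fun g => H.mB _ g)
  refine H.last_floor (cld_cadj v N f) hi' hL' tz hz ?_
  refine H.top_kld (cld_cadj v N f) hi' hL' hF tz hz ?_
  rintro ⟨b, hb, hl⟩
  refine htop ⟨f * M g, z - b, ⟨tu, ?_, ?_⟩, Lim.mono hl hA⟩
  · rw [← hB]
    exact tz.sub_mem hb
  · rw [← hB, cadj_sub_mem hb]
    exact hz

end Pool.Agent.TWHT
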