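import Pool.Agent.Lib.TWHT.CoreA
import Pool.Agent.Lib.TWHT.RecA
import Pool.Agent.Lib.TWIV.FT
import Pool.Agent.Lib.TWIV.TrfB

/-!
# TANK W, leaf (Ht), the recursion: rank one

* `zbas_mult`: a generator of the first floor in terms of an element of the basis near to it;
* `HtOp.hom_letter`: the first letter of a tower over a base with monomials is homogeneous;
* `HtOp.one_first`: rank one, the first letter;
* `HtOp.one_rest`: rank one, the two other letters.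
-/

set_option autoImplicit false
set_option linter.unusedSectionVars false

open Polynomial

namespace Pool.Agent.TWHT

open Pool.Agent.H15JM (RVal)
open Pool.Agent.D2 (Ctx0)
open Pool.Agent.D2P (hen clI mem_clI)
open Pool.Agent.TWM Pool.Agent.TWS Pool.Agent.TWIV
open Pool.Agent.TWC (Opr fn IsExt Desc Oper NilpC NSD Tow EW Tgt Spn)

universe u

variable {k Ω : Type u} [Field k] [Field Ω] [Algebra k Ω] {v : RVal Ω}
  [hcx : Fact (Ctx0 k v)] {p : ℕ} [hp : Fact p.Prime] [CharP k p] [CharP Ω p]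
  [PerfectRing k p] [IsAlgClosed k] [IsAlgClosed Ω]

section Mult

variable {B F : IntermediateField k Ω} {G : AddSubgroup ℝ} {M : ℝ → Ω} {m : ℕ}

/-- A generator of the first floor in terms of an element of the basis near to it. -/
theorem zbas_mult (hM : MS v G M) (hMB : ∀ g ∈ G, M g ∈ B) (hvB : ∀ b ∈ B, b ≠ 0 → v b ∈ G)
    {a : Fin m → Ω} (h : ZBas k p M v B F Finset.univ a) {c : Ω} (tc : TL v B c 0) {n : ℕ}
    (hT : TowR v n (cadj v B c) F) (i : Fin m) (hn : Nr' v (cadj v B c) 0 (a i)) :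
    ∃ d : k, d ≠ 0 ∧ Nr' v B 0 (a i - algebraMap k Ω d * c) ∧
      Nr' v B 0 (c - algebraMap k Ω d⁻¹ * a i) := by
  obtain ⟨D, hD⟩ := ZBas.one hM hMB hvB tc (h.lim i (Finset.mem_univ i)) hn
  obtain ⟨-, -, d, hd, f, hf, h1⟩ := (h.sat hM hMB (Finset.mem_univ i)).tow hM hMB tc hT
    (h.mem i (Finset.mem_univ i)) (h.not_nr hM (Finset.mem_univ i)) hD
  refine ⟨d, hd, ⟨f, hf, ?_⟩, -(algebraMap k Ω d⁻¹ * f),
    neg_mem (mul_mem (B.algebraMap_mem _) hf), ?_⟩
  · rwa [sub_sub]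
  · have h2 : algebraMap k Ω d⁻¹ * algebraMap k Ω d = 1 := by
      rw [← map_mul, inv_mul_cancel₀ hd, map_one]
    have h3 : c - algebraMap k Ω d⁻¹ * a i - -(algebraMap k Ω d⁻¹ * f) =
        -((a i - (algebraMap k Ω d * c + f)) * algebraMap k Ω d⁻¹) := by
      linear_combination (-c) * h2
    rw [h3]
    have h4 := h1.mul_ge ((hcx.out : Ctx0 k v).ge d⁻¹)
    rw [zero_add] at h4
    exact h4.neg

end Mult

section FibTwo

variable {B F : IntermediateField k Ω} {M : ℝ → Ω} {m : ℕ} {a : Fin m → Ω}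

theorem ev_zero_rad (hM : MS v ⊤ M) (R : ℝ) (P : k[X]) (w : Ω) :
    TWM.ev p M 0 R P w = M R * TWM.ev p M 0 0 P w := by
  rw [TWM.ev, TWM.ev, Polynomial.sum, Polynomial.sum, Finset.mul_sum]
  refine Finset.sum_congr rfl fun j _ => ?_
  rw [mul_zero, sub_zero, sub_zero, hM.zero]
  ring

/-- A basis is free at every radius. -/
theorem zbas_freeOn (hM : MS v ⊤ M) (hMB : ∀ g : ℝ, M g ∈ B)
    (h : ZBas k p M v B F Finset.univ a) :
    FreeOn k p ⊤ M (Nr' v B) (fun _ : Fin m => (0 : ℝ)) a Finset.univ := by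
  intro R P _ hR
  refine h.free P ?_
  obtain ⟨b, hb, h1⟩ := hR
  refine ⟨M (-R) * b, mul_mem (hMB _) hb, ?_⟩
  have h2 := h1.mul_ge (RVal.ge_self (v := v) (M (-R)))
  rw [hM.val _ trivial, add_neg_cancel] at h2
  have h3 : M R * M (-R) = 1 := by
    rw [hM.neg trivial, mul_inv_cancel₀ (hM.ne _ trivial)]
  have h4 : ∑ i, TWM.ev p M 0 R (P i) (a i) = M R * ∑ i, TWM.ev p M 0 0 (P i) (a i) := by
    rw [Finset.mul_sum]
    exact Finset.sum_congr rfl fun i _ => ev_zero_rad hM R _ _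
  rw [h4, sub_mul] at h2
  rwa [show M R * (∑ i, TWM.ev p M 0 0 (P i) (a i)) * M (-R) - b * M (-R) =
    (∑ i, TWM.ev p M 0 0 (P i) (a i)) * (M R * M (-R)) - M (-R) * b by ring, h3, mul_one] at h2

/-- **A pair with a limit gives the rank two and the pair of the basis.** -/
theorem zbas_fib_two (hM : MS v ⊤ M) (hMB : ∀ g : ℝ, M g ∈ B)
    (h : ZBas k p M v B F Finset.univ a) {c b : Ω} (hF : Fib v B F c b 0 0)
    (hb : Lim v B 0 b) :
    ∃ h2 : m = 2, Fib v B F (a ⟨0, by omega⟩) (a ⟨1, by omega⟩) 0 0 := by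
  classical
  have hk : Ctx0 k v := hcx.out
  have hMB' : ∀ g ∈ (⊤ : AddSubgroup ℝ), M g ∈ B := fun g _ => hMB g
  have hZ : GSub k p ⊤ M (Nr' v B) := gsub_Nr' hk hM hMB'
  have hvT : ∀ b ∈ F, b ≠ 0 → v b ∈ (⊤ : AddSubgroup ℝ) := fun _ _ _ => trivial
  have hcF : c ∈ F := by
    rw [hF.eq]
    exact le_cadj _ _ _ (self_mem_cadj v _ c)
  have hbF : b ∈ F := by
    rw [hF.eq]
    exact self_mem_cadj v _ b
  have hex := fun i => hF.exists_ev (p := p) hk hM hMB' hvT hb (h.mem i (Finset.mem_univ i))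
    (h.lim i (Finset.mem_univ i))
  have hsp : ∀ {x : Ω}, x ∈ F → Lim v B 0 x →
      InSpan k p ⊤ M (Nr' v B) (fun _ : Fin m => (0 : ℝ)) a Finset.univ 0 x := by
    intro x hx hl
    obtain ⟨P, hP⟩ := h.span x hx hl
    exact ⟨P, fun _ _ _ _ => trivial, hP⟩
  have hle : m ≤ 2 := by
    have e1 := FreeOn.card_le (S' := (Finset.univ : Finset Bool))
      (r' := fun _ => (0 : ℝ)) (w' := fun j => if j then c else b) hM hZ (zbas_freeOn hM hMB h)
      (fun i _ => by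
        obtain ⟨P, R, hP, hR, h5⟩ := hex i
        refine ⟨fun j => if j then P else R, fun j _ => ?_, ?_⟩
        · cases j
          · exact hR
          · exact hP
        · rw [Fintype.sum_bool]
          exact h5)
    rwa [Finset.card_univ, Finset.card_univ, Fintype.card_bool, Fintype.card_fin] at e1
  have hge : 2 ≤ m := by
    have e1 := FreeOn.card_le (S := (Finset.univ : Finset Bool))
      (S' := (Finset.univ : Finset (Fin m)))
      (r := fun _ => (0 : ℝ)) (w := fun j => if j then c else b)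
      (r' := fun _ => (0 : ℝ)) (w' := a)
      hM hZ (fun R P hP hrel i _ => by
        rw [Fintype.sum_bool] at hrel
        have e2 := hF.ty.ev_free hk hM hMB' hF.tz (hP true (Finset.mem_univ _))
          (hP false (Finset.mem_univ _)) hrel
        cases i
        · exact e2.2
        · exact e2.1) (fun j _ => by
        cases j
        · exact hsp hbF hb
        · exact hsp hcF hF.ty.lim)
    rwa [Finset.card_univ, Finset.card_univ, Fintype.card_bool, Fintype.card_fin] at e1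
  obtain rfl : m = 2 := le_antisymm hle hge
  refine ⟨rfl, ?_⟩
  obtain ⟨P₁, R₁, hP₁, hR₁, he₁⟩ := hex 0
  obtain ⟨P₂, R₂, hP₂, hR₂, he₂⟩ := hex 1
  have hsp' : ∀ {x : Ω}, x ∈ F → Lim v B 0 x → Sp v B p ⊤ M (a 0) (a 1) 0 0 0 x := by
    intro x hx hl
    obtain ⟨Q, hQ, h6⟩ := hsp hx hl
    rw [Fin.sum_univ_two] at h6
    exact ⟨Q 0, Q 1, hQ 0 (Finset.mem_univ 0), hQ 1 (Finset.mem_univ 1), h6⟩
  exact hF.basis hk hM hMB' hb (θ₁ := a 0) (θ₂ := a 1) (r₁ := 0) (r₂ := 0)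
    ⟨h.mem 0 (Finset.mem_univ 0), h.mem 1 (Finset.mem_univ 1), hP₁, hR₁, hP₂, hR₂, he₁, he₂,
      hsp' hcF hF.ty.lim, hsp' hbF hb⟩

end FibTwo

variable {C P L LP N : IntermediateField k Ω} {G : AddSubgroup ℝ} {M : ℝ → Ω}
  {T : Submodule k (Opr v (PM v P G M))} {𝒜 : Submodule k (Module.End k Ω)}

/-- **The pair case, over any base with the monomials.** -/
theorem ABas.fib_two {B : IntermediateField k Ω} (hM : MS v ⊤ M) (hMB : ∀ g : ℝ, M g ∈ B)
    {m : ℕ} {a : Fin m → Ω} (h : ABas p v L LP M T B a) {c b : Ω}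
    (hF : Fib v B (PM v LP G M) c b 0 0) (hb : Lim v B 0 b) :
    ∃ h2 : m = 2, Fib v B (PM v LP G M) (a ⟨0, by omega⟩) (a ⟨1, by omega⟩) 0 0 :=
  zbas_fib_two hM hMB h.bas hF hb

theorem HtOp.clCP (H : HtOp p v C P L LP G M T 𝒜) : clI v (C ⊔ P) = P := by
  rw [sup_eq_right.2 H.D.CP]
  exact le_antisymm H.D.cldP (TWC.self_le_clI v _)

/-- **A homogeneous generator of the first floor**, over a base `Q` between `P` and `LP`. -/
theorem HtOp.hom_letter (H : HtOp p v C P L LP G M T 𝒜) {Q : IntermediateField k Ω}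
    (hPQ : Imm v P Q) {c₀ : Ω} {s : ℝ} (h : TL v Q c₀ s) {n : ℕ} (hT : TowR v n (cadj v Q c₀) LP)
    {e : Ω} (he : e ∈ P) (he0 : e ≠ 0) {g : ℝ} (hg : g ∈ G) (hs : v e + g = -s) :
    TL v Q (e * c₀) (-g) ∧ TowR v n (cadj v Q (e * c₀)) LP ∧
      TL v (PM v Q G M) (e * c₀ * M g) 0 ∧
      TowR v n (cadj v (PM v Q G M) (e * c₀ * M g)) (PM v LP G M) ∧
      e * c₀ * M g ∈ PM v LP G M := by
  have heQ : e ∈ Q := hPQ.le he
  have h1 : TL v Q (e * c₀) (-g) := by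
    have h2 := h.affine heQ he0 (zero_mem Q)
    rwa [add_zero, show v e + s = -g by linarith] at h2
  have e1 : cadj v Q (e * c₀) = cadj v Q c₀ := by
    have h2 := cadj_affine (v := v) (A := Q) (z := c₀) heQ he0 (zero_mem _)
    rwa [add_zero] at h2
  have hT' : TowR v n (cadj v Q (e * c₀)) LP := by rwa [e1]
  have hMg := H.D.mc.ms.ne g hg
  have h3 : TL v (PM v Q G M) (e * c₀ * M g) 0 := by
    have h4 := (TL.pm H.D.mP hPQ h1).affine (PM.mon hg) hMg (zero_mem _)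
    rwa [add_zero, H.D.mc.ms.val g hg, add_neg_cancel, mul_comm] at h4
  have e2 : cadj v (PM v Q G M) (e * c₀ * M g) = PM v (cadj v Q (e * c₀)) G M := by
    rw [PM.cadj]
    have h4 := cadj_affine (v := v) (A := PM v Q G M) (z := e * c₀) (PM.mon hg) hMg (zero_mem _)
    rwa [add_zero, mul_comm] at h4
  have h5 : TowR v n (cadj v (PM v Q G M) (e * c₀ * M g)) (PM v LP G M) := by
    rw [e2]
    refine TowR.of_tow (TowR.pm H.D.mP (fun s => ?_) (hPQ.trans h1.imm) hT')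
    obtain ⟨e', he', he0', g', hg', h6⟩ := H.vals s
    refine ⟨e' * M g', mul_mem (PM.le he') (PM.mon hg'), mul_ne_zero he0' (H.D.mc.ms.ne g' hg'), ?_⟩
    rw [v.map_mul he0' (H.D.mc.ms.ne g' hg'), H.D.mc.ms.val g' hg', h6]
  exact ⟨h1, hT', h3, h5, h5.le (self_mem_cadj v _ _)⟩

/-- **Rank one, the first letter.** -/
theorem HtOp.one_first (H : HtOp p v C P L LP G M T 𝒜) (hT : TowR v 3 P LP) {a : Fin 1 → Ω}
    (ha : ABas p v L LP M T (PM v P G M) a) :
    ∃ f ∈ L, ∃ g ∈ G, TL v (PM v P G M) (f * M g) 0 ∧ TL v C f (-g) ∧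
      Nr' v (PM v P G M) 0 (a 0 - f * M g) ∧ TowR v 2 (cadj v P f) LP := by
  obtain ⟨c₀, s, h₀, hT₀⟩ : ∃ (c₀ : Ω) (s : ℝ), TL v P c₀ s ∧ TowR v 2 (cadj v P c₀) LP := by
    cases hT with
    | succ h hT => exact ⟨_, _, h, hT⟩
  obtain ⟨e, he, he0, g, hg, hs⟩ := H.vals (-s)
  obtain ⟨-, -, h1, h2, h3⟩ := H.hom_letter (Imm.refl P) h₀ hT₀ he he0 hg hs
  have hMtop : ∀ g ∈ (⊤ : AddSubgroup ℝ), M g ∈ PM v P G M := fun g _ => H.mon g
  have hvtop : ∀ b ∈ PM v P G M, b ≠ 0 → v b ∈ (⊤ : AddSubgroup ℝ) := fun _ _ _ => trivial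
  -- the element of the basis is near the first floor
  obtain ⟨Q, hQ⟩ := ha.bas.span _ h3 h1.lim
  rw [Fin.sum_univ_one] at hQ
  have hQ0 : Q 0 ≠ 0 := by
    intro h4
    rw [h4, ev_zero, sub_zero] at hQ
    exact TWC.TL.not_nr h1 (nr_of_nr' hQ)
  have ha0 : a 0 ∈ PM v LP G M := ha.bas.mem 0 (Finset.mem_univ 0)
  have h4 : Nr v (cadj v (PM v P G M) (e * c₀ * M g)) 0 (a 0) := by
    refine TowR.torsion (p := p) (r := 0) hcx.out h2 H.ms (fun g _ => le_cadj v _ _ (H.mon g)) hQ0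
      (fun _ _ => trivial) ha0 ?_
    obtain ⟨b, hb, h5⟩ := hQ
    refine ⟨e * c₀ * M g - b, sub_mem (self_mem_cadj v _ _) (le_cadj v _ _ hb), ?_⟩
    have h6 := h5.neg.ge
    rwa [show -(e * c₀ * M g - TWM.ev p M 0 0 (Q 0) (a 0) - b) =
      TWM.ev p M 0 0 (Q 0) (a 0) - (e * c₀ * M g - b) by ring] at h6
  obtain ⟨d, hd, hn, hn'⟩ := zbas_mult H.ms hMtop hvtop ha.bas h1 h2 0 (nr'_of_nr h4)
  -- the letter
  have hd' : algebraMap k Ω d ≠ 0 := (_root_.map_ne_zero _).2 hd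
  have hvd : v (algebraMap k Ω d) = 0 := (hcx.out : Ctx0 k v).triv d hd
  have hde : algebraMap k Ω d * e ∈ P := mul_mem (P.algebraMap_mem d) he
  obtain ⟨t1, t2, t3, -, t5⟩ := H.hom_letter (Imm.refl P) h₀ hT₀ hde (mul_ne_zero hd' he0) hg
    (by rw [v.map_mul hd' he0, hvd, zero_add, hs])
  have hn2 : Nr' v (PM v P G M) 0 (a 0 - algebraMap k Ω d * e * c₀ * M g) := by
    rwa [show algebraMap k Ω d * e * c₀ * M g = algebraMap k Ω d * (e * c₀ * M g) by ring]
  have hK : Kld T L LP (PM v P G M) (algebraMap k Ω d * e * c₀ * M g) := by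
    have h5 := HtOp.kld_of (N := C) H H.D.CL (x := a 0) (z := algebraMap k Ω d * e * c₀ * M g)
      (d := 1) ha0 t5 (by
        rw [H.clCP, map_one, one_mul]
        obtain ⟨b, hb, h6⟩ := hn2
        refine ⟨-b, neg_mem hb, ?_⟩
        have h7 := h6.neg
        rwa [show -(a 0 - algebraMap k Ω d * e * c₀ * M g - b) =
          algebraMap k Ω d * e * c₀ * M g - a 0 - -b by ring] at h7)
    rw [H.clCP] at h5
    exact h5 (ha.kld H.D.mc.ms (fun g _ => H.mon g) le_rfl (fun i hi => absurd hi (Fin.not_lt_zero i)))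
  obtain ⟨f, hf, b, hb, h5, h6, h7⟩ := H.D.step_hom H.D.cldC (Imm.refl C) H.D.CL
    (f := algebraMap k Ω d * e * c₀) ((t2.le (self_mem_cadj v _ _))) hg (by rwa [H.clCP])
    (by rw [H.clCP]; exact hK)
  rw [H.clCP] at hb h6
  refine ⟨f, hf, g, hg, h6, h7, ?_, ?_⟩
  · obtain ⟨b', hb', h8⟩ := hn2
    refine ⟨b' + b * M g, add_mem hb' (mul_mem (PM.le hb) (PM.mon hg)), ?_⟩
    have h9 := h5.mul_ge (RVal.ge_self (v := v) (M g))
    rw [H.D.mc.ms.val g hg, neg_add_cancel] at h9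
    have h10 := h8.add h9
    rwa [show a 0 - algebraMap k Ω d * e * c₀ * M g - b' +
      (algebraMap k Ω d * e * c₀ - f - b) * M g = a 0 - f * M g - (b' + b * M g) by ring] at h10
  · have h8 : Gt v (-g) (f - (algebraMap k Ω d * e * c₀ - b)) := by
      have h9 := h5.neg
      rwa [show -(algebraMap k Ω d * e * c₀ - f - b) =
        f - (algebraMap k Ω d * e * c₀ - b) by ring] at h9
    refine TowR.exch (t1.sub_mem hb) ?_ (H.D.LLP hf) h8
    rwa [cadj_sub_mem hb]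

/-- **Rank one, the two other letters.** -/
theorem HtOp.one_rest (H : HtOp p v C P L LP G M T 𝒜) {f : Ω} (hf : f ∈ L) {g : ℝ} (hg : g ∈ G)
    (_ : TL v (PM v P G M) (f * M g) 0) (tf : TL v C f (-g)) (hT : TowR v 2 (cadj v P f) LP)
    (hc1 : ∀ Y ∈ PM v LP G M, Lim v (PM v P G M) 0 Y → Nr v (cadj v (PM v P G M) (f * M g)) 0 Y)
    (htop : ¬ ∃ c' b : Ω, Fib v (cadj v (PM v P G M) (f * M g)) (PM v LP G M) c' b 0 0 ∧
      Lim v (cadj v (PM v P G M) (f * M g)) 0 b)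
    (hab : ∃ (m : ℕ) (a : Fin m → Ω), ABas p v L LP M T (cadj v (PM v P G M) (f * M g)) a)
    (h3 : ∀ u : Ω, u ∈ PM v L G M → TL v (cadj v (PM v P G M) (f * M g)) u 0 →
      Can p v (PM v P G M) (cadj v (PM v P G M) (f * M g)) u →
      FV p v 𝒜 (cadj v (PM v P G M) (f * M g)) (cadj v (cadj v (PM v P G M) (f * M g)) u))
    (h4 : ∀ c z : Ω, TL v (cadj v (PM v P G M) (f * M g)) c 0 →
      TL v (cadj v (cadj v (PM v P G M) (f * M g)) c) z 0 →
      PM v LP G M = cadj v (cadj v (cadj v (PM v P G M) (f * M g)) c) z →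
      (∃ x ∈ PM v LP G M, Lim v (cadj v (PM v P G M) (f * M g)) 0 x ∧
        ¬ Nr v (cadj v (cadj v (PM v P G M) (f * M g)) c) 0 x) →
      Kld T L LP (cadj v (PM v P G M) (f * M g)) c) : TowR v 2 (cadj v C f) L := by
  have hcl : PM v (clI v (cadj v C f ⊔ P)) G M = cadj v (PM v P G M) (f * M g) ∧
      clI v (cadj v C f ⊔ P) = cadj v P f := by
    have h := H.D.B_cadj (N := C) (f := f) hg
    rwa [H.clCP] at h
  have hMg := H.D.mc.ms.ne g hg
  have hCf : cadj v C f ≤ L := cadj_le H.D.cldL H.D.CL hf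
  -- the second letter
  obtain ⟨c₀, s, h₀, hT₀⟩ : ∃ (c₀ : Ω) (s : ℝ), TL v (cadj v P f) c₀ s ∧
      TowR v 1 (cadj v (cadj v P f) c₀) LP := by
    cases hT with
    | succ h hT => exact ⟨_, _, h, hT⟩
  have hPf : Imm v P (cadj v P f) := by
    rw [← hcl.2]
    exact H.D.immB hCf
  obtain ⟨e, he, he0, g₂, hg₂, hs⟩ := H.vals (-s)
  obtain ⟨-, -, tc, hTc, hcm⟩ := H.hom_letter hPf h₀ hT₀ he he0 hg₂ hs
  rw [← hcl.2, hcl.1] at tc hTc
  set c := e * c₀ * M g₂ with hc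
  set y := f * M g with hy
  set E₁ := cadj v (PM v P G M) y with hE₁
  have hME₁ : ∀ g ∈ (⊤ : AddSubgroup ℝ), M g ∈ E₁ := fun g _ => le_cadj v _ _ (H.mon g)
  -- it is killed
  have hK : Kld T L LP E₁ c := by
    by_cases hx : ∃ x ∈ PM v LP G M, Lim v E₁ 0 x ∧ ¬ Nr v (cadj v E₁ c) 0 x
    · obtain ⟨z, tz, hz⟩ := tow_i1 (tow_all H.ms hTc fun g => le_cadj v _ _ (hME₁ g trivial))
      exact h4 c z tc tz hz hx
    · push Not at hx
      obtain ⟨m, a, ha⟩ := hab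
      have hne := ha.bas.nonempty hcm tc.lim fun h => TWC.TL.not_nr tc (nr_of_nr' h)
      obtain ⟨i, -⟩ := hne
      have hm : 0 < m := i.pos
      have hmem := Finset.mem_univ (⟨0, hm⟩ : Fin m)
      obtain ⟨d, hd, -, hn⟩ := zbas_mult H.ms hME₁ (fun _ _ _ => trivial) ha.bas tc hTc ⟨0, hm⟩
        (nr'_of_nr (hx _ (ha.bas.mem _ hmem) (ha.bas.lim _ hmem)))
      have h5 := HtOp.kld_of (N := cadj v C f) H hCf (d := d⁻¹) (ha.bas.mem _ hmem) hcm (by
        rw [hcl.1]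
        exact hn)
      rw [hcl.1] at h5
      exact h5 (ha.kld H.D.mc.ms (fun g _ => hME₁ g trivial) le_rfl fun i hi => absurd hi (by
        rw [Fin.lt_def]
        exact Nat.not_lt_zero _))
  -- the two floors
  have hcan : ∀ u ∈ PM v L G M, TL v E₁ u 0 → Can p v (PM v P G M) E₁ u := fun u hu tu =>
    Can.of_hc p (cadj_le PM.cld (cadj_le PM.cld (PM.mono H.D.PLP) (H.D.desc.le_LE
      (mul_mem (PM.le hf) (PM.mon hg)))) (H.D.desc.le_LE hu)) tu hc1
  have key := H.two_of (N := cadj v C f)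
    (cld_cadj v C f) (Imm.trans (Imm.refl C) tf.imm) hCf (x := c) hcm (by rwa [hcl.1])
    (by rw [hcl.1]; exact hK) ⟨e * c₀, ?_, g₂, hg₂, hc⟩ (by rwa [hcl.1]) (by rwa [hcl.1])
    (A := E₁) (by rw [hcl.1]) (by
      rw [hcl.1]
      exact fun u hu tu _ => h3 u hu tu (hcan u hu tu))
  · exact key
  · exact mul_mem (H.D.PLP he) (hT₀.le (self_mem_cadj v _ _))

end Pool.Agent.TWHT
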