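import Pool.Agent.Lib.TWIV.PerfA

/-!
# TANK W, leaf (Ht): the exchange in a pair with a limit

* `exch_pair`: if `B = A⟨c, b⟩` with `b` a limit of `A`, every saturated limit `w` of `A` in `B`,
  not in `A + 𝔪`, is the first element of such a pair.
-/

set_option autoImplicit false
set_option linter.unusedSectionVars false

open Polynomial

namespace Pool.Agent.TWHT

open Pool.Agent.H15JM (RVal)
open Pool.Agent.D2 (Ctx0)
open Pool.Agent.TWM Pool.Agent.TWIV

universe u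

variable {k Ω : Type u} [Field k] [Field Ω] [Algebra k Ω] {v : RVal Ω}
  {A B : IntermediateField k Ω} {G : AddSubgroup ℝ} {M : ℝ → Ω} {p : ℕ}

/-- **The exchange.** -/
theorem exch_pair [hcx : Fact (Ctx0 k v)] [hp : Fact p.Prime] [CharP k p] [CharP Ω p]
    [PerfectRing k p] [IsAlgClosed k] [IsAlgClosed Ω] (hM : MS v G M) (hMA : ∀ g ∈ G, M g ∈ A)
    (hvA : ∀ b ∈ A, b ≠ 0 → v b ∈ G) {c b w : Ω} (hF : Fib v A B c b 0 0) (hb : Lim v A 0 b)
    (hw : w ∈ B) (hwl : Lim v A 0 w) (hwn : ¬ Nr' v A 0 w) (hs : Sat k p M v A B w) :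
    ∃ b', Fib v A B w b' 0 0 ∧ Lim v A 0 b' := by
  have hk : Ctx0 k v := hcx.out
  -- the values
  have hvB : ∀ x ∈ B, x ≠ 0 → v x ∈ G := by
    intro x hx hx0
    obtain ⟨a, ha, h1⟩ := (Fib.imm hF).imm x hx hx0
    obtain ⟨ha0, h2⟩ := Gt.val_eq hx0 h1
    rw [← h2]
    exact hvA a ha ha0
  obtain ⟨P, Q, -, -, hPQ⟩ := Fib.exists_ev (p := p) hk hM hMA hvB hF hb hw hwl
  have hcB : c ∈ B := by
    rw [hF.eq]
    exact le_cadj v _ _ (self_mem_cadj v A c)
  have hbB : b ∈ B := by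
    rw [hF.eq]
    exact self_mem_cadj v _ _
  -- Euclid
  obtain ⟨a, a', D, α, β, γ, δ, α', β', γ', δ', ha, ha', h5, h6, h7, h8, h9⟩ :=
    euclid2 hM (K := B) (Q.natDegree + 1) c b P Q hcB hbB (Or.inl (Nat.lt_succ_self _)) hPQ
  have hB : Bs v A B p G M c b 0 0 a a' 0 0 α β γ δ :=
    { m₁ := ha
      m₂ := ha'
      oP₁ := isOp00 _
      oR₁ := isOp00 _
      oP₂ := isOp00 _
      oR₂ := isOp00 _
      e₁ := by
        rw [← h6, sub_self]
        exact Nr'.self A.zero_mem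
      e₂ := by
        rw [← h7, sub_self]
        exact Nr'.self A.zero_mem
      spy := ⟨α', β', isOp00 _, isOp00 _, by
        rw [← h8, sub_self]
        exact Nr'.self A.zero_mem⟩
      spz := ⟨γ', δ', isOp00 _, isOp00 _, by
        rw [← h9, sub_self]
        exact Nr'.self A.zero_mem⟩ }
  have hF1 : Fib v A B a a' 0 0 := Fib.basis hk hM hMA hF hb hB
  have hl' : Lim v A 0 a' := Bs.lim₁ hk hM hMA hF hb hB.swap
  have hD : D ≠ 0 := by
    rintro rfl
    rw [ev_zero, sub_zero] at h5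
    exact hwn h5
  obtain ⟨d, hd, rfl⟩ := hs.unit hM hMA ha hF1.ty hD h5
  have hd' : algebraMap k Ω d ≠ 0 := (_root_.map_ne_zero _).2 hd
  have e1 : TWM.ev p M 0 0 (C d) a = algebraMap k Ω d * a := by
    rw [TWM.ev, Polynomial.sum_C_index (by rw [_root_.map_zero, zero_mul, zero_mul])]
    simp only [pow_zero, pow_one, mul_zero, sub_zero, hM.zero, mul_one]
  rw [e1] at h5
  have hF2 : Fib v A B a' a 0 0 := hF1.swap hl'
  have hF3 : Fib v A B a' w 0 0 := by
    obtain ⟨f, hf, h10⟩ := h5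
    refine hF2.gen₂ (c := algebraMap k Ω d) (f := f) (IntermediateField.algebraMap_mem _ _) hd'
      (le_cadj v _ _ hf) hw (by rw [hk.triv _ hd, zero_add]) ?_
    rwa [← sub_sub]
  exact ⟨a', hF3.swap hwl, hl'⟩

end Pool.Agent.TWHT
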