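import Pool.Agent.Lib.TWC.MonExit
import Pool.Agent.Lib.TWF.InfCov

/-!
# TANK W, group (Ht), row H9: the exit

`W` the closure of an algebraic extension of `k(t)`, `K₀` finitely generated with bounded distortion.

* `exists_fg_alg`: finitely many elements of `W`, algebraic over `k(t)`, lie in a finitely generated
  subfield of transcendence degree one;
* `exists_gen_alg`: if the closure of `K₀` is the closure of `W(S)`, it is the closure of `N₀(S)`,
  `N₀` finitely generated of transcendence degree one;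
* `exists_gen_towA`, `hrone_of_alg`: `HRone v K₀`, if the closure of `K₀` is a tower of length
  `m + 1` over `W`, `m ≤ 2`;
* `leafD_altH`: the leaf of the honest floors over a tight base, from the tower over `W`.
-/

set_option autoImplicit false

open Polynomial

namespace Pool.Agent.TWHT

open Pool.Agent.H15JM (RVal)
open Pool.Agent.LU1 (VPos adj)
open Pool.Agent.D2 (Ctx0)
open Pool.Agent.D2P (clI mem_clI mem_adj_self)
open Pool.Agent.TWM
open Pool.Agent.TWS (VG TowR)
open Pool.Agent.TW (Ctx Full BD HRone LU)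
open Pool.Agent.TWC (self_le_clI Tgt fg_le towR_gens clI_mono' clI_le' full_of_mem trdeg_adj_bot)
open Pool.Agent.TWF (algIn mem_algIn WX Hon AltH LeafD OnB Bs leafD_of_hrone mem_algIn_self)
open Pool.Agent.TWS7 (PDiv)
open Pool.Agent.TWJ2 (Bad)

universe u

variable {k Ω : Type u} [Field k] [Field Ω] [Algebra k Ω] {v : RVal Ω}
  {K₀ W : IntermediateField k Ω} {t : Ω}

/-- Finitely many elements of `W` which are algebraic over `k(t)`. -/
theorem exists_fg_alg [IsAlgClosed k] (h0 : Ctx0 k v) (ht : t ∈ W) (ht0 : t ≠ 0)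
    (hvt : v t ≠ 0) (T : Finset Ω) :
    (∀ a ∈ T, a ∈ algIn W (adj (⊥ : IntermediateField k Ω) t)) →
    ∃ N : IntermediateField k Ω, N.FG ∧ adj (⊥ : IntermediateField k Ω) t ≤ N ∧
      N ≤ algIn W (adj (⊥ : IntermediateField k Ω) t) ∧ (∀ a ∈ T, a ∈ N) ∧
      Algebra.trdeg k N = (1 : ℕ) := by
  classical
  induction T using Finset.induction_on with
  | empty =>
    intro _
    refine ⟨adj ⊥ t, D2P.fg_adj IntermediateField.fg_bot t, le_rfl, ?_,
      fun a ha => absurd ha (Finset.notMem_empty a), trdeg_adj_bot h0 ht0 hvt⟩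
    exact D2P.adj_le bot_le (mem_algIn_self ht)
  | insert a T _ ih =>
    intro hT
    obtain ⟨N, h1, h2, h3, h4, h5⟩ := ih fun b hb => hT b (Finset.mem_insert_of_mem hb)
    have ha := hT a (Finset.mem_insert_self a T)
    have hal : IsAlgebraic N a := IsAlgebraic.tower_top_of_subalgebra_le
      (A := (adj (⊥ : IntermediateField k Ω) t).toSubalgebra) (B := N.toSubalgebra)
      (fun b hb => h2 hb) (mem_algIn.1 ha).2
    refine ⟨adj N a, D2P.fg_adj h1 a, h2.trans fun b hb => (mem_adj_self N a).2 hb,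
      D2P.adj_le h3 ha, fun b hb => ?_, by rw [TWJ.trdeg_adj_alg hal, h5]⟩
    rcases Finset.mem_insert.1 hb with rfl | hb
    · exact (mem_adj_self N b).1
    · exact (mem_adj_self N a).2 (h4 b hb)

variable {S : Set Ω}

/-- **Finitely many elements of `W` are enough.** -/
theorem exists_gen_alg {p : ℕ} [Fact p.Prime] [CharP k p] [CharP Ω p] [IsAlgClosed k]
    [IsAlgClosed Ω] (h0 : Ctx0 k v) (hc : CompleteV v) (hK₀ : K₀.FG) (hBD : BD p v K₀)
    (ht : t ∈ W) (ht0 : t ≠ 0) (hvt : v t ≠ 0)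
    (hW : W = WX v W t)
    (hcl : clI v (W ⊔ IntermediateField.adjoin k S) = clI v K₀) :
    ∃ N : IntermediateField k Ω, N.FG ∧ adj (⊥ : IntermediateField k Ω) t ≤ N ∧ N ≤ W ∧
      Algebra.trdeg k N = (1 : ℕ) ∧ clI v (N ⊔ IntermediateField.adjoin k S) = clI v K₀ := by
  classical
  obtain ⟨N, a, R, ha, h1⟩ := fg_le h0 hc hK₀ hBD
  set W₀ := algIn W (adj (⊥ : IntermediateField k Ω) t) with hW₀
  have hW₀W : W₀ ≤ W := fun x hx => (mem_algIn.1 hx).1
  have hcl₀ : clI v (W₀ ⊔ IntermediateField.adjoin k S) = clI v K₀ := by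
    rw [← hcl]
    apply le_antisymm
    · exact clI_mono' (sup_le_sup_right hW₀W _)
    · refine clI_le' (sup_le ?_ ?_) (cld_clI v _)
      · rw [hW]
        exact clI_mono' le_sup_left
      · exact le_sup_right.trans (self_le_clI v _)
  have e : W₀ ⊔ IntermediateField.adjoin k S =
      IntermediateField.adjoin k ((W₀ : Set Ω) ∪ S) := by
    rw [IntermediateField.adjoin_union, IntermediateField.adjoin_self]
  have h2 : ∀ i, ∃ b ∈ IntermediateField.adjoin k ((W₀ : Set Ω) ∪ S), v.Ge R (a i - b) :=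
    fun i => by
      have h3 := ha i
      rw [← hcl₀, e] at h3
      exact mem_clI.1 h3 R
  choose b hb hab using h2
  choose T hT hbT using fun i => IntermediateField.exists_finset_of_mem_adjoin (hb i)
  obtain ⟨N₀, h3, h4, h5, h6, h7⟩ := exists_fg_alg h0 ht ht0 hvt
    ((Finset.univ.biUnion T).filter fun x => x ∈ W₀) fun x hx => (Finset.mem_filter.1 hx).2
  refine ⟨N₀, h3, h4, h5.trans hW₀W, h7, ?_⟩
  refine h1 _ (cld_clI v _) ?_ fun i => ⟨b i, ?_, hab i⟩
  · rw [← hcl₀]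
    exact clI_mono' (sup_le_sup_right h5 _)
  · refine self_le_clI v _ ?_
    have h8 : IntermediateField.adjoin k (T i : Set Ω) ≤
        N₀ ⊔ IntermediateField.adjoin k S := by
      rw [IntermediateField.adjoin_le_iff]
      intro x hx
      rcases hT i hx with h9 | h9
      · exact (le_sup_left : N₀ ≤ _) (h6 x (Finset.mem_filter.2
          ⟨Finset.mem_biUnion.2 ⟨i, Finset.mem_univ i, hx⟩, h9⟩))
      · exact (le_sup_right : IntermediateField.adjoin k S ≤ _)
          (IntermediateField.subset_adjoin k _ h9)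
    exact h8 (hbT i)

/-- Generators of the closure of `K₀`, a tower over `W`. -/
theorem exists_gen_towA {p : ℕ} [Fact p.Prime] [CharP k p] [CharP Ω p] [IsAlgClosed k]
    [IsAlgClosed Ω] (h0 : Ctx0 k v) (hc : CompleteV v) (hK₀ : K₀.FG) (hBD : BD p v K₀)
    (hWc : Cld v W) (ht : t ∈ W) (ht0 : t ≠ 0) (hvt : v t ≠ 0) (hW : W = WX v W t) {m : ℕ}
    (hT : TowR v (m + 1) W (clI v K₀)) :
    ∃ (F₂ : IntermediateField k Ω) (y : Ω), t ∈ F₂ ∧ F₂.FG ∧
      Algebra.trdeg k F₂ = (1 + m : ℕ) ∧ clI v K₀ = clI v (adj F₂ y) := by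
  obtain ⟨N', y, s, hTN, hy, hcl⟩ := TWS.TowR.last hT hWc
  obtain ⟨S, hS, h1, h2⟩ := towR_gens hTN
  have e : ∀ A : IntermediateField k Ω, A ⊔ IntermediateField.adjoin k (insert y S) =
      adj (A ⊔ IntermediateField.adjoin k S) y := fun A => by
    rw [Set.insert_eq, Set.union_comm, IntermediateField.adjoin_union, ← sup_assoc]
    rfl
  have h3 : clI v (W ⊔ IntermediateField.adjoin k (insert y S)) = clI v K₀ := by
    rw [hcl, h1, TWM.clI_adj_clI, e]
  obtain ⟨N₀, h4, h5, h6, h7, h8⟩ := exists_gen_alg h0 hc hK₀ hBD ht ht0 hvt hW h3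
  obtain ⟨h9, h10⟩ := h2 N₀ h6 h4 1 h7
  refine ⟨_, y, (le_sup_left : N₀ ≤ _) (h5 (mem_adj_self _ t).1), h9, h10, ?_⟩
  rw [← h8, e]

/-- **The exit**: a tower over the closure of an algebraic extension of `k(t)`. -/
theorem hrone_of_alg (p : ℕ) [Fact p.Prime] [CharP k p] [CharP Ω p] [IsAlgClosed k]
    [IsAlgClosed Ω] (h : Ctx k v 1) (hc : CompleteV v) {m : ℕ} (hm : m ≤ 2) (hK₀ : K₀.FG)
    (hfull : Full v K₀) (htr : Algebra.trdeg k K₀ = (m + 2 : ℕ)) (hBD : BD p v K₀)
    (hWc : Cld v W) (ht : t ∈ W) (ht0 : t ≠ 0) (hvt : v t ≠ 0) (hW : W = WX v W t)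
    (hT : TowR v (m + 1) W (clI v K₀)) : HRone v K₀ := by
  obtain ⟨F₂, y, htF, hF, hFt, hcl⟩ :=
    exists_gen_towA h.toCtx0 hc hK₀ hBD hWc ht ht0 hvt hW hT
  have hFf : Full v F₂ := full_of_mem h htF ht0 hvt
  refine TWJ.exitg p h hc (D := m) ?_ hK₀ hfull (by rw [htr]; congr 1; omega) hBD hF hFf hFt hcl
  intro K hK hKf htK hBDK
  exact TWJ.lu_bd_two p h (TWJ.stepAll p k 1) (by omega) hK hKf htK hBDK

/-- **The leaf of the honest floors over a tight base**, from the tower over `W`. -/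
theorem leafD_altH {p : ℕ} [Fact p.Prime] {k : Type u} [Field k] [IsAlgClosed k] [CharP k p]
    (H : ∀ (Ω : Type u) [Field Ω] [Algebra k Ω] [IsAlgClosed Ω] [CharP Ω p] (v : RVal Ω)
      (K₀ : IntermediateField k Ω) (al : Ω) (C₁ C W : IntermediateField k Ω) (X : ℕ → Ω)
      (y : Ω) (r s : ℝ), Bad p v k 1 K₀ al → PDiv p v (clI v K₀) → Bs p v C₁ C →
      TowR v 2 C (clI v K₀) → Hon p v C W (X 0) y s → Tgt p v W X r →
      TowR v 3 W (clI v (adj K₀ al))) :
    LeafD p k (OnB p fun _ _ _ v C => AltH p v C) := by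
  refine leafD_of_hrone fun Ω _ _ _ _ v K₀ al hb hd hq => ?_
  obtain ⟨-, C₁, C, hB, ⟨W, X, y, r, s, hH, hTg⟩, hT⟩ := hq
  have h1 := H Ω v K₀ al C₁ C W X y r s hb hd hB hT hH hTg
  have hal : IsAlgebraic K₀ al := by
    refine ⟨Polynomial.X ^ p - Polynomial.C (⟨al ^ p, hb.mem⟩ : K₀),
      X_pow_sub_C_ne_zero (Fact.out : p.Prime).pos _, ?_⟩
    rw [map_sub, map_pow, aeval_X, aeval_C]
    exact sub_self _
  refine hrone_of_alg p hb.ctx hb.cpl (m := 2) le_rfl (D2P.fg_adj hb.fg al)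
    (hb.full.mono fun a ha => (mem_adj_self K₀ al).2 ha) ?_ hb.bda hH.cld hH.mem hH.t0 hH.vt
    hH.alg h1
  rw [TWJ.trdeg_adj_alg hal]
  exact_mod_cast hb.tr

end Pool.Agent.TWHT
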