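import Pool.Agent.Lib.TWIV.GMW
import Pool.Agent.Lib.TWIV.FGW

/-!
# TANK W, leaf (Ht), row H5: the graded module of the limits, any base

`GW v E L G M`: `M g`, `g ∈ G`, monomials, `E ≤ L` closed, immediate, `M g ∈ E` if `g` is a value of
`E` (no further condition on `G` and on the values of `E`). `T = PM v L G M`, `B = PM v A G M`,
`E ≤ A ≤ L` closed.

* `GW.prd hΩ g x`: the component of `x` of degree `g`; `GW.prD hΩ c x`, `c : ℝ ⧸ VG v E`;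
* `GW.prQ`: the same on the classes `MQ v T B`;
* `GW.prQ_same`, `prQ_ne`, `prQ_dec`, `prQ_fr`: a grading, the Frobenius multiplies degrees by `p`;
* `GW.exists_hom`: the homogeneous classes are the classes of the `M g * l`;
* `GW.exists_hgens`: homogeneous generators in a tower.
-/

set_option autoImplicit false
set_option linter.unusedSectionVars false

open Polynomial

namespace Pool.Agent.TWHT

open Pool.Agent.H15JM (RVal)
open Pool.Agent.LU1 (VPos adj)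
open Pool.Agent.D2 (Ctx0)
open Pool.Agent.D2P (hen clI mem_clI)
open Pool.Agent.TWM Pool.Agent.TWC Pool.Agent.TWS Pool.Agent.TWT
open Pool.Agent.TWIV

universe u

variable {k Ω : Type u} [Field k] [Field Ω] [Algebra k Ω] {v : RVal Ω}
  {E L A B T : IntermediateField k Ω} {G : AddSubgroup ℝ} {M : ℝ → Ω} {p : ℕ}

/-- A closed immediate extension `L` of `E` and monomials over `E`. -/
structure GW (v : RVal Ω) (E L : IntermediateField k Ω) (G : AddSubgroup ℝ) (M : ℝ → Ω) :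
    Prop where
  mon : MonG v E G M
  imm : Imm v E L
  cldE : Cld v E
  cldL : Cld v L

/-- The properties of the projection to the degree `0`. -/
structure IsP (v : RVal Ω) (E L : IntermediateField k Ω) (G : AddSubgroup ℝ) (M : ℝ → Ω)
    (π : Ω → Ω) : Prop where
  prj : Prj v (PM v L G M) L π
  sub : ∀ A : IntermediateField k Ω, E ≤ A → A ≤ L → Cld v A → ∀ x ∈ PM v A G M, π x ∈ A
  mon : ∀ g ∈ G, g ∉ VG v E → π (M g) = 0

namespace GW

variable (W : GW v E L G M)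

include W

theorem ms : MS v G M := W.mon.ms

theorem le : E ≤ L := W.imm.le

theorem immA (hEA : E ≤ A) (hAL : A ≤ L) : Imm v E A :=
  ⟨hEA, fun b hb h0 => W.imm.imm b (hAL hb) h0⟩

theorem monV {g : ℝ} (hg : g ∈ G) (h : g ∈ VG v E) : M g ∈ E := W.mon.mem g hg h

/-- Existence of the projection. -/
theorem exists_pj (hΩ : CompleteV v) : ∃ π : Ω → Ω, IsP v E L G M π := by
  classical
  obtain ⟨π, hπ⟩ := exists_pi0 hΩ W.mon W.imm W.cldL
  have key : ∀ (x : Ω) (hx : x ∈ PM v L G M),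
      (if h : x ∈ PM v L G M then π ⟨x, h⟩ else 0) = π ⟨x, hx⟩ := fun x hx => dif_pos hx
  refine ⟨fun x => if h : x ∈ PM v L G M then π ⟨x, h⟩ else 0, ⟨?_, ?_, ?_, ?_, ?_⟩, ?_, ?_⟩
  · intro x hx y hy
    simp only [key x hx, key y hy, key (x + y) (add_mem hx hy)]
    rw [← map_add]
    rfl
  · intro x hx
    simp only [key x hx]
    exact hπ.mem _
  · intro c hc
    simp only [key c (PM.le hc)]
    exact hπ.self c hc
  · intro c hc x hx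
    simp only [key x hx, key (c * x) (mul_mem (PM.le hc) hx)]
    exact hπ.lin c hc ⟨x, hx⟩
  · intro x hx b hb
    simp only [key x hx]
    exact hπ.norm _ b hb
  · intro A hEA hAL hA x hx
    simp only [key x (PM.mono hAL hx)]
    exact hπ.sub A (W.immA hEA hAL) hAL hA _ hx
  · intro g hg hgj
    simp only [key _ (PM.mon hg)]
    exact hπ.mon g hg hgj

/-- The elements of `PM v L G M` are approximated by finite sums. -/
theorem dense {x : Ω} (hx : x ∈ PM v L G M) (b : ℝ) : ∃ (S : Finset ℝ) (a : ℝ → Ω),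
    (∀ g ∈ S, g ∈ G) ∧ (∀ g ∈ S, a g ∈ L) ∧ v.Ge b (x - ∑ g ∈ S, a g * M g) := by
  obtain ⟨Lf, hL, h1⟩ := dense_PM W.mon W.imm hx b
  exact ⟨Lf.support, Lf, fun g hg => (hL.rep g (Finsupp.mem_support_iff.1 hg)).1,
    fun g _ => hL.mem g, h1⟩

theorem M_neg_mul {g : ℝ} (hg : g ∈ G) : M (-g) * M g = 1 := by
  rw [← W.ms.mul (-g) (G.neg_mem hg) g hg, neg_add_cancel, W.ms.zero]

theorem M_mul_neg {g : ℝ} (hg : g ∈ G) : M g * M (-g) = 1 := by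
  rw [mul_comm, W.M_neg_mul hg]

theorem mulG {g : ℝ} (hg : g ∈ G) : (p : ℝ) * g ∈ G := by
  have := G.nsmul_mem hg p
  rwa [nsmul_eq_mul] at this

theorem pG {g : ℝ} (hg : g ∈ G) (a : ℕ) : (p : ℝ) ^ a * g ∈ G := by
  have := G.nsmul_mem hg (p ^ a)
  rw [nsmul_eq_mul] at this
  push_cast at this
  exact this

variable (hΩ : CompleteV v)

/-- The projection. -/
noncomputable def pj : Ω → Ω := (W.exists_pj hΩ).choose

theorem isP : IsP v E L G M (W.pj hΩ) := (W.exists_pj hΩ).choose_spec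

/-! ### The components -/

/-- The component of degree `g`. -/
noncomputable def prd (g : ℝ) (x : Ω) : Ω := M g * W.pj hΩ (M (-g) * x)

theorem prd_add {g : ℝ} (hg : g ∈ G) {x y : Ω} (hx : x ∈ PM v L G M) (hy : y ∈ PM v L G M) :
    W.prd hΩ g (x + y) = W.prd hΩ g x + W.prd hΩ g y := by
  unfold prd
  have hm : M (-g) ∈ PM v L G M := PM.mon (G.neg_mem hg)
  rw [mul_add, (W.isP hΩ).prj.add _ (mul_mem hm hx) _ (mul_mem hm hy), mul_add]

theorem prd_smul {g : ℝ} (hg : g ∈ G) (a : k) {x : Ω} (hx : x ∈ PM v L G M) :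
    W.prd hΩ g (a • x) = a • W.prd hΩ g x := by
  unfold prd
  have hm : M (-g) ∈ PM v L G M := PM.mon (G.neg_mem hg)
  rw [mul_smul_comm, (W.isP hΩ).prj.smul a (mul_mem hm hx), mul_smul_comm]

theorem prd_zero {g : ℝ} : W.prd hΩ g 0 = 0 := by
  unfold prd
  rw [mul_zero, (W.isP hΩ).prj.zero, mul_zero]

theorem prd_neg {g : ℝ} (hg : g ∈ G) {x : Ω} (hx : x ∈ PM v L G M) :
    W.prd hΩ g (-x) = -W.prd hΩ g x := by
  unfold prd
  have hm : M (-g) ∈ PM v L G M := PM.mon (G.neg_mem hg)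
  rw [mul_neg, (W.isP hΩ).prj.neg (mul_mem hm hx), mul_neg]

theorem prd_sub {g : ℝ} (hg : g ∈ G) {x y : Ω} (hx : x ∈ PM v L G M) (hy : y ∈ PM v L G M) :
    W.prd hΩ g (x - y) = W.prd hΩ g x - W.prd hΩ g y := by
  rw [sub_eq_add_neg, W.prd_add hΩ hg hx (neg_mem hy), W.prd_neg hΩ hg hy, ← sub_eq_add_neg]

theorem prd_sum {g : ℝ} (hg : g ∈ G) {ι : Type*} (S : Finset ι) {x : ι → Ω}
    (hx : ∀ i ∈ S, x i ∈ PM v L G M) :
    W.prd hΩ g (∑ i ∈ S, x i) = ∑ i ∈ S, W.prd hΩ g (x i) := by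
  classical
  induction S using Finset.induction_on with
  | empty => rw [Finset.sum_empty, Finset.sum_empty, W.prd_zero hΩ]
  | insert i S hi ih =>
    rw [Finset.sum_insert hi, Finset.sum_insert hi,
      W.prd_add hΩ hg (hx i (Finset.mem_insert_self i S))
        (sum_mem fun j hj => hx j (Finset.mem_insert_of_mem hj)),
      ih fun j hj => hx j (Finset.mem_insert_of_mem hj)]

/-- The component of degree `g` is `M g * l`, `l ∈ L`. -/
theorem prd_form {g : ℝ} (hg : g ∈ G) {x : Ω} (hx : x ∈ PM v L G M) :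
    ∃ l ∈ L, W.prd hΩ g x = M g * l :=
  ⟨_, (W.isP hΩ).prj.mem _ (mul_mem (PM.mon (G.neg_mem hg)) hx), rfl⟩

theorem prd_formA (hEA : E ≤ A) (hAL : A ≤ L) (hA : Cld v A) {g : ℝ} (hg : g ∈ G) {x : Ω}
    (hx : x ∈ PM v A G M) : ∃ l ∈ A, W.prd hΩ g x = M g * l :=
  ⟨_, (W.isP hΩ).sub A hEA hAL hA _ (mul_mem (PM.mon (G.neg_mem hg)) hx), rfl⟩

theorem prd_mem (hEA : E ≤ A) (hAL : A ≤ L) (hA : Cld v A) {g : ℝ} (hg : g ∈ G) {x : Ω}
    (hx : x ∈ PM v A G M) : W.prd hΩ g x ∈ PM v A G M := by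
  obtain ⟨l, hl, h⟩ := W.prd_formA hΩ hEA hAL hA hg hx
  rw [h]
  exact mul_mem (PM.mon hg) (PM.le hl)

theorem prd_memT {g : ℝ} (hg : g ∈ G) {x : Ω} (hx : x ∈ PM v L G M) :
    W.prd hΩ g x ∈ PM v L G M := W.prd_mem hΩ W.le le_rfl W.cldL hg hx

theorem prd_ge {g : ℝ} (hg : g ∈ G) {x : Ω} (hx : x ∈ PM v L G M) {b : ℝ} (h : v.Ge b x) :
    v.Ge b (W.prd hΩ g x) := by
  have h1 : v.Ge (-g) (M (-g)) := fun _ => (W.ms.val (-g) (G.neg_mem hg)).ge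
  have h2 : v.Ge g (M g) := fun _ => (W.ms.val g hg).ge
  have h3 := h2.mul ((W.isP hΩ).prj.ge _ (mul_mem (PM.mon (G.neg_mem hg)) hx) _ (h1.mul h))
  refine h3.mono (le_of_eq ?_)
  ring

theorem prd_mon {g h : ℝ} (hg : g ∈ G) (hh : h ∈ G) {l : Ω} (hl : l ∈ L)
    [Decidable (g - h ∈ VG v E)] :
    W.prd hΩ g (M h * l) = if g - h ∈ VG v E then M h * l else 0 := by
  unfold prd
  have e1 : M (-g) * (M h * l) = l * M (h - g) := by
    rw [← mul_assoc, ← W.ms.mul _ (G.neg_mem hg) _ hh, mul_comm]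
    congr 2
    ring
  have hhg : h - g ∈ G := G.sub_mem hh hg
  rw [e1, (W.isP hΩ).prj.lin _ hl _ (PM.mon hhg)]
  split_ifs with h1
  · have h2 : h - g ∈ VG v E := by
      have := (VG v E).neg_mem h1
      rwa [neg_sub] at this
    rw [(W.isP hΩ).prj.self _ (W.le (W.monV hhg h2)), mul_comm l, ← mul_assoc,
      ← W.ms.mul _ hg _ hhg]
    congr 2
    ring
  · rw [(W.isP hΩ).mon _ hhg fun h2 => h1 ?_, mul_zero, mul_zero]
    have := (VG v E).neg_mem h2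
    rwa [neg_sub] at this

theorem prd_congr {g g' : ℝ} (hg : g ∈ G) (hg' : g' ∈ G) (h : g - g' ∈ VG v E) {x : Ω}
    (hx : x ∈ PM v L G M) : W.prd hΩ g x = W.prd hΩ g' x := by
  unfold prd
  have hgg : g - g' ∈ G := G.sub_mem hg hg'
  have e1 : M (-g') * x = M (g - g') * (M (-g) * x) := by
    rw [← mul_assoc, ← W.ms.mul _ hgg _ (G.neg_mem hg)]
    congr 2
    ring
  rw [e1, (W.isP hΩ).prj.lin _ (W.le (W.monV hgg h)) _ (mul_mem (PM.mon (G.neg_mem hg)) hx),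
    ← mul_assoc, ← W.ms.mul _ hg' _ hgg]
  congr 2
  ring

theorem prd_same {g : ℝ} (hg : g ∈ G) {x : Ω} (hx : x ∈ PM v L G M) :
    W.prd hΩ g (W.prd hΩ g x) = W.prd hΩ g x := by
  classical
  obtain ⟨l, hl, h⟩ := W.prd_form hΩ hg hx
  rw [h, W.prd_mon hΩ hg hg hl, sub_self, if_pos (VG v E).zero_mem]

theorem prd_ne {g g' : ℝ} (hg : g ∈ G) (hg' : g' ∈ G) (h : g - g' ∉ VG v E) {x : Ω}
    (hx : x ∈ PM v L G M) : W.prd hΩ g (W.prd hΩ g' x) = 0 := by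
  classical
  obtain ⟨l, hl, h1⟩ := W.prd_form hΩ hg' hx
  rw [h1, W.prd_mon hΩ hg hg' hl, if_neg h]

theorem prd_pow {g : ℝ} (hg : g ∈ G) {x : Ω} (hx : x ∈ PM v L G M) :
    W.prd hΩ (p * g) (W.prd hΩ g x ^ p) = W.prd hΩ g x ^ p := by
  classical
  obtain ⟨l, hl, h⟩ := W.prd_form hΩ hg hx
  have h1 := W.ms.pow hg p
  rw [h, mul_pow, ← h1, W.prd_mon hΩ (W.mulG hg) (W.mulG hg) (pow_mem hl p), sub_self,
    if_pos (VG v E).zero_mem]

/-! ### The components of the classes of `VG v E` -/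

open Classical in
/-- The component of degree `c`. -/
noncomputable def prD (c : ℝ ⧸ VG v E) (x : Ω) : Ω :=
  if h : ∃ g ∈ G, (QuotientAddGroup.mk g : ℝ ⧸ VG v E) = c then W.prd hΩ h.choose x else 0

omit W in
theorem mk_eq {g g' : ℝ} :
    (QuotientAddGroup.mk g : ℝ ⧸ VG v E) = QuotientAddGroup.mk g' ↔ g - g' ∈ VG v E := by
  rw [QuotientAddGroup.eq]
  constructor
  · intro h
    have := (VG v E).neg_mem h
    rwa [neg_add, neg_neg, ← sub_eq_add_neg] at this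
  · intro h
    have := (VG v E).neg_mem h
    rwa [neg_sub, sub_eq_neg_add] at this

theorem prD_mk {g : ℝ} (hg : g ∈ G) {x : Ω} (hx : x ∈ PM v L G M) :
    W.prD hΩ (QuotientAddGroup.mk g) x = W.prd hΩ g x := by
  unfold prD
  have h : ∃ g' ∈ G, (QuotientAddGroup.mk g' : ℝ ⧸ VG v E) = QuotientAddGroup.mk g :=
    ⟨g, hg, rfl⟩
  rw [dif_pos h]
  exact W.prd_congr hΩ h.choose_spec.1 hg (mk_eq.1 h.choose_spec.2) hx

theorem prD_not {c : ℝ ⧸ VG v E} (h : ¬ ∃ g ∈ G, (QuotientAddGroup.mk g : ℝ ⧸ VG v E) = c)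
    (x : Ω) : W.prD hΩ c x = 0 := by
  unfold prD
  rw [dif_neg h]

/-- Each component is `0` or the one of some `g ∈ G`. -/
theorem prD_cases (c : ℝ ⧸ VG v E) :
    (∀ x, W.prD hΩ c x = 0) ∨ ∃ g ∈ G, (QuotientAddGroup.mk g : ℝ ⧸ VG v E) = c ∧
      ∀ x ∈ PM v L G M, W.prD hΩ c x = W.prd hΩ g x := by
  by_cases h : ∃ g ∈ G, (QuotientAddGroup.mk g : ℝ ⧸ VG v E) = c
  · obtain ⟨g, hg, rfl⟩ := h
    exact Or.inr ⟨g, hg, rfl, fun x hx => W.prD_mk hΩ hg hx⟩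
  · exact Or.inl fun x => W.prD_not hΩ h x

theorem prD_add (c : ℝ ⧸ VG v E) {x y : Ω} (hx : x ∈ PM v L G M) (hy : y ∈ PM v L G M) :
    W.prD hΩ c (x + y) = W.prD hΩ c x + W.prD hΩ c y := by
  rcases W.prD_cases hΩ c with h | ⟨g, hg, -, h⟩
  · rw [h, h, h, add_zero]
  · rw [h _ hx, h _ hy, h _ (add_mem hx hy), W.prd_add hΩ hg hx hy]

theorem prD_smul (c : ℝ ⧸ VG v E) (a : k) {x : Ω} (hx : x ∈ PM v L G M) :
    W.prD hΩ c (a • x) = a • W.prD hΩ c x := by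
  rcases W.prD_cases hΩ c with h | ⟨g, hg, -, h⟩
  · rw [h, h, smul_zero]
  · rw [h _ hx, h _ ((PM v L G M).smul_mem hx), W.prd_smul hΩ hg a hx]

theorem prD_zero (c : ℝ ⧸ VG v E) : W.prD hΩ c 0 = 0 := by
  rcases W.prD_cases hΩ c with h | ⟨g, hg, -, h⟩
  · rw [h]
  · rw [h _ (zero_mem _), W.prd_zero hΩ]

theorem prD_sub (c : ℝ ⧸ VG v E) {x y : Ω} (hx : x ∈ PM v L G M) (hy : y ∈ PM v L G M) :
    W.prD hΩ c (x - y) = W.prD hΩ c x - W.prD hΩ c y := by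
  rcases W.prD_cases hΩ c with h | ⟨g, hg, -, h⟩
  · rw [h, h, h, sub_zero]
  · rw [h _ hx, h _ hy, h _ (sub_mem hx hy), W.prd_sub hΩ hg hx hy]

theorem prD_sum (c : ℝ ⧸ VG v E) {ι : Type*} (S : Finset ι) {x : ι → Ω}
    (hx : ∀ i ∈ S, x i ∈ PM v L G M) :
    W.prD hΩ c (∑ i ∈ S, x i) = ∑ i ∈ S, W.prD hΩ c (x i) := by
  rcases W.prD_cases hΩ c with h | ⟨g, hg, -, h⟩
  · rw [h, Finset.sum_eq_zero fun i _ => h _]
  · rw [h _ (sum_mem hx), W.prd_sum hΩ hg S hx]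
    exact Finset.sum_congr rfl fun i hi => (h _ (hx i hi)).symm

theorem prD_mem (hEA : E ≤ A) (hAL : A ≤ L) (hA : Cld v A) (c : ℝ ⧸ VG v E) {x : Ω}
    (hx : x ∈ PM v A G M) : W.prD hΩ c x ∈ PM v A G M := by
  rcases W.prD_cases hΩ c with h | ⟨g, hg, -, h⟩
  · rw [h]
    exact zero_mem _
  · rw [h _ (PM.mono hAL hx)]
    exact W.prd_mem hΩ hEA hAL hA hg hx

theorem prD_memT (c : ℝ ⧸ VG v E) {x : Ω} (hx : x ∈ PM v L G M) :
    W.prD hΩ c x ∈ PM v L G M := W.prD_mem hΩ W.le le_rfl W.cldL c hx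

theorem prD_ge (c : ℝ ⧸ VG v E) {x : Ω} (hx : x ∈ PM v L G M) {b : ℝ} (hb : v.Ge b x) :
    v.Ge b (W.prD hΩ c x) := by
  rcases W.prD_cases hΩ c with h | ⟨g, hg, -, h⟩
  · rw [h]
    exact RVal.Ge.zero
  · rw [h _ hx]
    exact W.prd_ge hΩ hg hx hb

theorem prD_same (c : ℝ ⧸ VG v E) {x : Ω} (hx : x ∈ PM v L G M) :
    W.prD hΩ c (W.prD hΩ c x) = W.prD hΩ c x := by
  rcases W.prD_cases hΩ c with h | ⟨g, hg, -, h⟩
  · rw [h, h]
  · rw [h _ hx, h _ (W.prd_memT hΩ hg hx), W.prd_same hΩ hg hx]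

theorem prD_ne {c c' : ℝ ⧸ VG v E} (hc : c ≠ c') {x : Ω} (hx : x ∈ PM v L G M) :
    W.prD hΩ c (W.prD hΩ c' x) = 0 := by
  rcases W.prD_cases hΩ c with h | ⟨g, hg, rfl, h⟩
  · rw [h]
  · rcases W.prD_cases hΩ c' with h' | ⟨g', hg', rfl, h'⟩
    · rw [h', W.prD_zero hΩ]
    · rw [h' _ hx, h _ (W.prd_memT hΩ hg' hx)]
      exact W.prd_ne hΩ hg hg' (fun h1 => hc (mk_eq.2 h1)) hx

theorem prD_pow [Fact p.Prime] (c : ℝ ⧸ VG v E) {x : Ω} (hx : x ∈ PM v L G M) :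
    W.prD hΩ (p • c) (W.prD hΩ c x ^ p) = W.prD hΩ c x ^ p := by
  rcases W.prD_cases hΩ c with h | ⟨g, hg, rfl, h⟩
  · rw [h, zero_pow (Fact.out : p.Prime).ne_zero, W.prD_zero hΩ]
  · rw [h _ hx]
    have e : p • (QuotientAddGroup.mk g : ℝ ⧸ VG v E) = QuotientAddGroup.mk ((p : ℝ) * g) := by
      rw [← nsmul_eq_mul]
      rfl
    rw [e, W.prD_mk hΩ (W.mulG hg) (pow_mem (W.prd_memT hΩ hg hx) p), W.prd_pow hΩ hg hx]

theorem prD_mon (c : ℝ ⧸ VG v E) {h : ℝ} (hh : h ∈ G) {l : Ω} (hl : l ∈ L)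
    [Decidable ((QuotientAddGroup.mk h : ℝ ⧸ VG v E) = c)] :
    W.prD hΩ c (M h * l) = if (QuotientAddGroup.mk h : ℝ ⧸ VG v E) = c then M h * l else 0 := by
  classical
  have hT : M h * l ∈ PM v L G M := mul_mem (PM.mon hh) (PM.le hl)
  split_ifs with h0
  · rw [← h0, W.prD_mk hΩ hh hT, W.prd_mon hΩ hh hh hl, sub_self, if_pos (VG v E).zero_mem]
  · rcases W.prD_cases hΩ c with h1 | ⟨g, hg, rfl, h1⟩
    · exact h1 _
    · rw [h1 _ hT, W.prd_mon hΩ hg hh hl, if_neg fun h2 => h0 (mk_eq.2 h2).symm]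

/-- The components of a sum of monomials. -/
theorem prD_finsum [DecidableEq (ℝ ⧸ VG v E)] (c : ℝ ⧸ VG v E) (S : Finset ℝ) {a : ℝ → Ω}
    (hS : ∀ g ∈ S, g ∈ G) (ha : ∀ g ∈ S, a g ∈ L) :
    W.prD hΩ c (∑ g ∈ S, a g * M g) =
      ∑ g ∈ S with (QuotientAddGroup.mk g : ℝ ⧸ VG v E) = c, a g * M g := by
  rw [W.prD_sum hΩ c S fun g hg => mul_mem (PM.le (ha g hg)) (PM.mon (hS g hg)),
    Finset.sum_filter]
  refine Finset.sum_congr rfl fun h hh => ?_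
  rw [mul_comm, W.prD_mon hΩ c (hS h hh) (ha h hh)]

/-- The sum of the components. -/
theorem exists_dec {x : Ω} (hx : x ∈ PM v L G M) (b : ℝ) : ∃ S : Finset (ℝ ⧸ VG v E),
    v.Ge b (x - ∑ c ∈ S, W.prD hΩ c x) := by
  classical
  obtain ⟨S, a, hS, ha, h1⟩ := W.dense hx b
  set y := ∑ g ∈ S, a g * M g with hy
  have hyT : y ∈ PM v L G M := sum_mem fun g hg => mul_mem (PM.le (ha g hg)) (PM.mon (hS g hg))
  refine ⟨S.image fun g => (QuotientAddGroup.mk g : ℝ ⧸ VG v E), ?_⟩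
  have e1 : ∑ c ∈ S.image (fun g => (QuotientAddGroup.mk g : ℝ ⧸ VG v E)), W.prD hΩ c y = y := by
    rw [Finset.sum_congr rfl fun c _ => W.prD_finsum hΩ c S hS ha]
    exact Finset.sum_fiberwise_of_maps_to (fun g hg => Finset.mem_image_of_mem _ hg) _
  have e2 : x - ∑ c ∈ S.image (fun g => (QuotientAddGroup.mk g : ℝ ⧸ VG v E)), W.prD hΩ c x =
      (x - y) - ∑ c ∈ S.image (fun g => (QuotientAddGroup.mk g : ℝ ⧸ VG v E)),
        W.prD hΩ c (x - y) := by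
    rw [Finset.sum_congr rfl fun c _ => W.prD_sub hΩ c hx hyT, Finset.sum_sub_distrib, e1]
    ring
  rw [e2]
  exact h1.sub (RVal.Ge.sum _ _ fun c _ => W.prD_ge hΩ c (sub_mem hx hyT) h1)

/-! ### The classes -/

variable [Fact (Ctx0 k v)]

theorem prD_lim (hEA : E ≤ A) (hAL : A ≤ L) (hA : Cld v A) (c : ℝ ⧸ VG v E) {x : Ω}
    (hx : x ∈ LimS v (PM v L G M) (PM v A G M)) :
    W.prD hΩ c x ∈ LimS v (PM v L G M) (PM v A G M) := by
  refine ⟨W.prD_memT hΩ c hx.1, fun ε hε => ?_⟩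
  obtain ⟨a, ha, h1⟩ := hx.2 ε hε
  have haT : a ∈ PM v L G M := PM.mono hAL ha
  refine ⟨W.prD hΩ c a, W.prD_mem hΩ hEA hAL hA c ha, ?_⟩
  rw [← W.prD_sub hΩ c hx.1 haT]
  exact W.prD_ge hΩ c (sub_mem hx.1 haT) h1

theorem prD_nr (hEA : E ≤ A) (hAL : A ≤ L) (hA : Cld v A) (c : ℝ ⧸ VG v E) {x : Ω}
    (hx : x ∈ NrS v (PM v L G M) (PM v A G M)) :
    W.prD hΩ c x ∈ NrS v (PM v L G M) (PM v A G M) := by
  obtain ⟨hx, a, ha, h1⟩ := hx
  have haT : a ∈ PM v L G M := PM.mono hAL ha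
  refine ⟨W.prD_memT hΩ c hx, W.prD hΩ c a, W.prD_mem hΩ hEA hAL hA c ha, ?_⟩
  rw [← W.prD_sub hΩ c hx haT]
  exact W.prD_ge hΩ c (sub_mem hx haT) h1

/-- The component of degree `c`, on the limits. -/
noncomputable def prL (hEA : E ≤ A) (hAL : A ≤ L) (hA : Cld v A) (c : ℝ ⧸ VG v E) :
    LimS v (PM v L G M) (PM v A G M) →ₗ[k] LimS v (PM v L G M) (PM v A G M) where
  toFun x := ⟨W.prD hΩ c x, W.prD_lim hΩ hEA hAL hA c x.2⟩
  map_add' x y := Subtype.ext (W.prD_add hΩ c x.2.1 y.2.1)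
  map_smul' a x := Subtype.ext (W.prD_smul hΩ c a x.2.1)

/-- The component of degree `c`, on the classes. -/
noncomputable def prQ (hEA : E ≤ A) (hAL : A ≤ L) (hA : Cld v A) (c : ℝ ⧸ VG v E) :
    MQ v (PM v L G M) (PM v A G M) →ₗ[k] MQ v (PM v L G M) (PM v A G M) :=
  Submodule.mapQ _ _ (W.prL hΩ hEA hAL hA c) fun x hx => by
    rw [Submodule.mem_comap] at hx ⊢
    rw [Submodule.mem_comap]
    exact W.prD_nr hΩ hEA hAL hA c hx

theorem prQ_cl (hEA : E ≤ A) (hAL : A ≤ L) (hA : Cld v A) (c : ℝ ⧸ VG v E) {x : Ω}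
    (hx : x ∈ LimS v (PM v L G M) (PM v A G M)) :
    W.prQ hΩ hEA hAL hA c (cl hx) = cl (W.prD_lim hΩ hEA hAL hA c hx) := rfl

omit W in
theorem nr_zero : Nr v B 0 0 := ⟨0, zero_mem _, by rw [sub_zero]; exact RVal.Ge.zero⟩

theorem prQ_same (hEA : E ≤ A) (hAL : A ≤ L) (hA : Cld v A) (c : ℝ ⧸ VG v E)
    (m : MQ v (PM v L G M) (PM v A G M)) :
    W.prQ hΩ hEA hAL hA c (W.prQ hΩ hEA hAL hA c m) = W.prQ hΩ hEA hAL hA c m := by
  obtain ⟨x, hx, rfl⟩ := exists_cl m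
  rw [W.prQ_cl hΩ hEA hAL hA c hx, W.prQ_cl hΩ hEA hAL hA c, cl_eq, W.prD_same hΩ c hx.1, sub_self]
  exact nr_zero

theorem prQ_ne (hEA : E ≤ A) (hAL : A ≤ L) (hA : Cld v A) {c c' : ℝ ⧸ VG v E} (hc : c ≠ c')
    (m : MQ v (PM v L G M) (PM v A G M)) :
    W.prQ hΩ hEA hAL hA c (W.prQ hΩ hEA hAL hA c' m) = 0 := by
  obtain ⟨x, hx, rfl⟩ := exists_cl m
  rw [W.prQ_cl hΩ hEA hAL hA c' hx, W.prQ_cl hΩ hEA hAL hA c, cl_eq_zero, W.prD_ne hΩ hc hx.1]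
  exact nr_zero

theorem prQ_dec (hEA : E ≤ A) (hAL : A ≤ L) (hA : Cld v A)
    (m : MQ v (PM v L G M) (PM v A G M)) :
    ∃ S : Finset (ℝ ⧸ VG v E), ∑ c ∈ S, W.prQ hΩ hEA hAL hA c m = m := by
  obtain ⟨x, hx, rfl⟩ := exists_cl m
  obtain ⟨S, hS⟩ := W.exists_dec hΩ hx.1 0
  refine ⟨S, ?_⟩
  have h1 : ∑ c ∈ S, W.prQ hΩ hEA hAL hA c (cl hx) =
      cl ((LimS v (PM v L G M) (PM v A G M)).sum_mem fun c (_ : c ∈ S) =>
        W.prD_lim hΩ hEA hAL hA c hx) :=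
    (cl_sum S fun c => W.prD_lim hΩ hEA hAL hA c hx).symm
  rw [h1, eq_comm, cl_eq]
  exact ⟨0, zero_mem _, by rw [sub_zero]; exact hS⟩

variable [Fact p.Prime] [CharP k p] [CharP Ω p]

theorem prQ_fr (hEA : E ≤ A) (hAL : A ≤ L) (hA : Cld v A) (c : ℝ ⧸ VG v E)
    (m : MQ v (PM v L G M) (PM v A G M)) :
    W.prQ hΩ hEA hAL hA (p • c) (frQ p v _ _ (W.prQ hΩ hEA hAL hA c m)) =
      frQ p v _ _ (W.prQ hΩ hEA hAL hA c m) := by
  obtain ⟨x, hx, rfl⟩ := exists_cl m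
  change W.prQ hΩ hEA hAL hA (p • c) (frQ p v _ _ (cl (W.prD_lim hΩ hEA hAL hA c hx))) =
    frQ p v _ _ (cl (W.prD_lim hΩ hEA hAL hA c hx))
  rw [frQ_cl, W.prQ_cl, cl_eq, W.prD_pow hΩ c hx.1, sub_self]
  exact nr_zero

/-- The degrees have no `p`-torsion if the values of `E` are divisible by `p`. -/
theorem deg_inj (hdiv : ∀ g ∈ VG v E, g / p ∈ VG v E) (c : ℝ ⧸ VG v E) (h : p • c = 0) :
    c = 0 := by
  obtain ⟨g, rfl⟩ := QuotientAddGroup.mk_surjective c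
  have e : p • (QuotientAddGroup.mk g : ℝ ⧸ VG v E) = QuotientAddGroup.mk ((p : ℝ) * g) := by
    rw [← nsmul_eq_mul]
    rfl
  rw [e] at h
  have h1 : (p : ℝ) * g ∈ VG v E := (QuotientAddGroup.eq_zero_iff _).1 h
  refine (QuotientAddGroup.eq_zero_iff _).2 ?_
  have hp0 : (p : ℝ) ≠ 0 := by exact_mod_cast (Fact.out : p.Prime).ne_zero
  have h2 := hdiv _ h1
  rwa [mul_div_cancel_left₀ _ hp0] at h2

/-- The homogeneous elements. -/
theorem hom_iff (hEA : E ≤ A) (hAL : A ≤ L) (hA : Cld v A) (c : ℝ ⧸ VG v E) {x : Ω}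
    (hx : x ∈ LimS v (PM v L G M) (PM v A G M)) :
    W.prQ hΩ hEA hAL hA c (cl hx) = cl hx ↔ Nr v (PM v A G M) 0 (x - W.prD hΩ c x) := by
  rw [W.prQ_cl hΩ hEA hAL hA, eq_comm, cl_eq]

/-- `M g * l` is homogeneous of degree `g`. -/
theorem hom_mon (hEA : E ≤ A) (hAL : A ≤ L) (hA : Cld v A) {g : ℝ} (hg : g ∈ G) {l : Ω}
    (hl : l ∈ L) (hx : M g * l ∈ LimS v (PM v L G M) (PM v A G M)) :
    W.prQ hΩ hEA hAL hA (QuotientAddGroup.mk g) (cl hx) = cl hx := by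
  classical
  rw [W.hom_iff hΩ hEA hAL hA, W.prD_mon hΩ _ hg hl, if_pos rfl, sub_self]
  exact nr_zero

/-- Each homogeneous class is the class of some `M g * l`. -/
theorem exists_hom (hEA : E ≤ A) (hAL : A ≤ L) (hA : Cld v A) {c : ℝ ⧸ VG v E}
    {m : MQ v (PM v L G M) (PM v A G M)} (h : W.prQ hΩ hEA hAL hA c m = m) :
    ∃ g ∈ G, ∃ (l : Ω) (_ : l ∈ L)
      (hx : M g * l ∈ LimS v (PM v L G M) (PM v A G M)), m = cl hx := by
  by_cases h0 : m = 0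
  · refine ⟨0, G.zero_mem, 0, zero_mem L, by rw [mul_zero]; exact zero_mem _, ?_⟩
    rw [h0, eq_comm, cl_eq_zero, mul_zero]
    exact nr_zero
  obtain ⟨x, hx, rfl⟩ := exists_cl m
  rw [W.hom_iff hΩ hEA hAL hA] at h
  rcases W.prD_cases hΩ c with h1 | ⟨g, hg, rfl, h1⟩
  · exfalso
    rw [h1, sub_zero] at h
    exact h0 ((cl_eq_zero hx).2 h)
  · have h2 := W.prD_lim hΩ hEA hAL hA (QuotientAddGroup.mk g) hx
    obtain ⟨l, hl, h3⟩ := W.prd_form hΩ hg hx.1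
    rw [h1 _ hx.1, h3] at h2
    refine ⟨g, hg, l, hl, h2, ?_⟩
    rw [cl_eq, ← h3, ← h1 _ hx.1]
    exact h

/-- **Homogeneous generators.** -/
theorem exists_hgens [IsAlgClosed Ω] (hEA : E ≤ A) (hAL : A ≤ L) {n : ℕ}
    (hT : Tow v n (PM v A G M) (PM v L G M)) :
    ∃ (m : ℕ) (r : Fin m → ℝ) (w : Fin m → Ω), (∀ i, r i ∈ G) ∧
      (∀ i, w i ∈ L ∧ Lim v A (r i) (w i)) ∧
      ∀ x ∈ PM v L G M, Lim v (PM v A G M) 0 x → ∃ P : Fin m → k[X], ∃ b ∈ PM v A G M,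
        v.Ge 0 (x - b - ∑ i, fev p (P i) (M (-r i) * w i)) := by
  classical
  obtain ⟨S, hS, hgen⟩ := Tow.exists_gens (p := p) hT
  choose Lf hNF hnear hlim using fun i => lim_homog W.mon (W.immA hEA hAL) W.imm hAL (hS i).1
    (hS i).2
  -- the index set
  let ι := Σ i : Fin n, {g // g ∈ (Lf i).support}
  let eq := Fintype.equivFin ι
  refine ⟨Fintype.card ι, fun j => -((eq.symm j).2 : ℝ), fun j => Lf (eq.symm j).1 (eq.symm j).2,
    fun j => ?_, fun j => ⟨(hNF _).mem _, ?_⟩, fun x hx hl => ?_⟩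
  · exact G.neg_mem ((hNF _).rep _ (Finsupp.mem_support_iff.1 (eq.symm j).2.2)).1
  · have := hlim _ _ (Finsupp.mem_support_iff.1 (eq.symm j).2.2)
    rwa [zero_sub] at this
  · obtain ⟨P, b, hb, h1⟩ := hgen x hx hl
    refine ⟨fun j => P (eq.symm j).1, b, hb, ?_⟩
    have h2 : ∑ j : Fin (Fintype.card ι), fev p (P (eq.symm j).1)
        (M (- -((eq.symm j).2 : ℝ)) * Lf (eq.symm j).1 (eq.symm j).2) =
        ∑ i, fev p (P i) (evM M (Lf i)) := by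
      rw [Equiv.sum_comp eq.symm (fun q : ι => fev p (P q.1)
        (M (- -(q.2 : ℝ)) * Lf q.1 q.2)), Fintype.sum_sigma]
      refine Finset.sum_congr rfl fun i _ => ?_
      rw [evM, Finsupp.sum, fev_sum, ← Finset.sum_coe_sort (Lf i).support]
      refine Finset.sum_congr rfl fun g _ => ?_
      rw [neg_neg, mul_comm]
    rw [h2]
    have h3 : v.Ge 0 (∑ i, fev p (P i) (S i - evM M (Lf i))) :=
      RVal.Ge.sum _ _ fun i _ => fev_ge (P i) (hnear i)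
    have h4 := h1.add h3
    simp only [fev_sub, Finset.sum_sub_distrib] at h4
    refine Eq.mp (congrArg (fun w => v.Ge 0 w) ?_) h4
    ring

end GW

end Pool.Agent.TWHT
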