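import Pool.Agent.Lib.TWC.PrF
import Pool.Agent.Lib.TWC.PrNil

/-!
# TANK W, leaf (Ht), row H6: graded descent

`C ≤ N ≤ L` closed, `B = cl (N P)`. A homogeneous limit `c M(g)` of `B` (`c` in `LP = cl (L P)`) whose
derivatives are in `B + O(0)` is near, modulo `B`, to `u M(g)` with `u` in `L`.

* `DescM.graded`: the statement for all the operators of `T`;
* `DescM.graded_gen`: it is enough to know one extension of each of the generators of `T`;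
* `DescM.graded_tl`: the case of a generator of a floor;
* `PDat.stbN`: the operators preserve `cl (N E)`;
* `PBase.graded`, `PBase.graded_tl`: the same for the operators `IsW`.
-/

set_option autoImplicit false
set_option linter.unusedSectionVars false

open Polynomial

namespace Pool.Agent.TWS

open Pool.Agent.H15JM (RVal)
open Pool.Agent.D2 (Ctx0)
open Pool.Agent.D2P (clI mem_clI)
open Pool.Agent.TWM
open Pool.Agent.TWC (Opr Desc IsExt adjT adjT_induction subset_adjT adjT_mul clI_mono')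

universe u

variable {k Ω : Type u} [Field k] [Field Ω] [Algebra k Ω] {v : RVal Ω} [hk : Fact (Ctx0 k v)]
  {C P L LP N : IntermediateField k Ω} {G : AddSubgroup ℝ} {M : ℝ → Ω}
  {T : Submodule k (Opr v (PM v P G M))} {p : ℕ}

/-- **Graded descent.** -/
theorem DescM.graded (D : DescM p v C P L LP G M T) (hiN : Imm v C N) (hNL : N ≤ L)
    {c : Ω} (hc : c ∈ LP) {g : ℝ} (hg : g ∈ G)
    (hl : Lim v (PM v (clI v (N ⊔ P)) G M) 0 (c * M g))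
    (hop : ∀ φ ∈ T, ∀ Φ : Opr v (PM v LP G M), IsExt (PM v L G M) φ Φ →
      Nr v (PM v (clI v (N ⊔ P)) G M) 0 (TWC.fn Φ (c * M g))) :
    ∃ u ∈ L, Nr' v (PM v (clI v (N ⊔ P)) G M) 0 (c * M g - u * M g) := by
  set B := clI v (N ⊔ P) with hB
  have hBc : Cld v B := cld_clI v _
  have hiB : Imm v P B := D.immB hNL
  have hBLP : B ≤ LP := D.BLP hNL
  have hsup : clI v (PM v N G M ⊔ PM v P G M) = PM v B G M := PM.sup.symm
  have hx : c * M g ∈ PM v LP G M := mul_mem (PM.le hc) (PM.mon hg)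
  obtain ⟨u, hu, h1⟩ := D.desc.desc (PM v N G M) PM.cld (PM.mono hiN.le) (PM.mono hNL) _ hx
    (by rw [hsup]; exact hl) (by rw [hsup]; exact hop)
  rw [hsup] at h1
  obtain ⟨b, hb, h4⟩ := h1
  obtain ⟨a, ha, b', hb', h5⟩ := down_gt D.cpl D.mP D.imm D.cld le_rfl D.mL D.LLP D.cldL D.vL
    hiB hBLP hBc hg hc hu hb h4
  refine ⟨a, ha, b' * M g, mul_mem (PM.le hb') (PM.mon hg), ?_⟩
  have h6 := h5.mul_ge (RVal.ge_self (v := v) (M g))
  rw [D.mc.ms.val g hg] at h6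
  have e : c * M g - a * M g - b' * M g = (c - a - b') * M g := by ring
  rw [e]
  exact h6.mono (by linarith)

/-- It is enough to look at the generators of `T`. -/
theorem DescM.graded_gen (D : DescM p v C P L LP G M T) {S : Set (Opr v (PM v P G M))}
    (hT : T = adjT S) (hiN : Imm v C N) (hNL : N ≤ L)
    (hst : ∀ φ ∈ S, ∀ Φ : Opr v (PM v LP G M), IsExt (PM v L G M) φ Φ →
      ∀ x ∈ PM v (clI v (N ⊔ P)) G M, TWC.fn Φ x ∈ PM v (clI v (N ⊔ P)) G M)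
    {c : Ω} (hc : c ∈ LP) {g : ℝ} (hg : g ∈ G)
    (hl : Lim v (PM v (clI v (N ⊔ P)) G M) 0 (c * M g))
    (hop : ∀ φ ∈ S, ∃ Φ : Opr v (PM v LP G M), IsExt (PM v L G M) φ Φ ∧
      Nr v (PM v (clI v (N ⊔ P)) G M) 0 (TWC.fn Φ (c * M g))) :
    ∃ u ∈ L, Nr' v (PM v (clI v (N ⊔ P)) G M) 0 (c * M g - u * M g) := by
  have hD := D.desc
  have hL := hD.le_LE
  have hE := hD.E_le
  have hB : PM v (clI v (N ⊔ P)) G M ≤ PM v LP G M := PM.mono (D.BLP hNL)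
  have hx : c * M g ∈ PM v LP G M := mul_mem (PM.le hc) (PM.mon hg)
  refine D.graded hiN hNL hc hg hl fun φ hφ Φ hΦ => ?_
  have key : φ ∈ T ∧ ∀ Φ : Opr v (PM v LP G M), IsExt (PM v L G M) φ Φ →
      (∀ x ∈ PM v (clI v (N ⊔ P)) G M, TWC.fn Φ x ∈ PM v (clI v (N ⊔ P)) G M) ∧
      Nr v (PM v (clI v (N ⊔ P)) G M) 0 (TWC.fn Φ (c * M g)) := by
    rw [hT] at hφ
    refine adjT_induction (P := fun φ => φ ∈ T ∧ ∀ Φ : Opr v (PM v LP G M),
      IsExt (PM v L G M) φ Φ →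
      (∀ x ∈ PM v (clI v (N ⊔ P)) G M, TWC.fn Φ x ∈ PM v (clI v (N ⊔ P)) G M) ∧
      Nr v (PM v (clI v (N ⊔ P)) G M) 0 (TWC.fn Φ (c * M g))) ?_ ?_ ?_ ?_ ?_ hφ
    · refine fun φ hφ => ⟨hT ▸ subset_adjT hφ, fun Φ hΦ => ⟨hst φ hφ Φ hΦ, ?_⟩⟩
      obtain ⟨Φ', h1, h2⟩ := hop φ hφ
      rwa [hΦ.uniq (TWC.DExt.of_desc hD) h1 hx]
    · refine ⟨zero_mem T, fun Φ hΦ => ?_⟩
      have h0 : IsExt (PM v L G M) (0 : Opr v (PM v P G M)) (0 : Opr v (PM v LP G M)) :=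
        ⟨fun e _ => by rw [TWC.fn_opr_zero, TWC.fn_opr_zero], fun l _ y _ => by
          rw [TWC.fn_opr_zero, TWC.fn_opr_zero, mul_zero]⟩
      refine ⟨fun x hx' => ?_, ?_⟩
      · rw [hΦ.uniq (TWC.DExt.of_desc hD) h0 (hB hx'), TWC.fn_opr_zero]
        exact zero_mem _
      · rw [hΦ.uniq (TWC.DExt.of_desc hD) h0 hx, TWC.fn_opr_zero]
        exact ⟨0, zero_mem _, by rw [sub_zero]; exact RVal.Ge.zero⟩
    · rintro φ ψ ⟨hφT, h1⟩ ⟨hψT, h2⟩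
      refine ⟨add_mem hφT hψT, fun Φ hΦ => ?_⟩
      obtain ⟨Φ₁, h3⟩ := hD.ext φ hφT
      obtain ⟨Φ₂, h4⟩ := hD.ext ψ hψT
      have h0 : IsExt (PM v L G M) (φ + ψ) (Φ₁ + Φ₂) := ⟨fun e he => by
        rw [TWC.fn_opr_add _ _ (hE he), TWC.fn_opr_add _ _ he, h3.eq e he, h4.eq e he],
        fun l hl' y hy => by
        rw [TWC.fn_opr_add _ _ (mul_mem (hL hl') hy), TWC.fn_opr_add _ _ hy, h3.lin l hl' y hy,
          h4.lin l hl' y hy, mul_add]⟩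
      refine ⟨fun x hx' => ?_, ?_⟩
      · rw [hΦ.uniq (TWC.DExt.of_desc hD) h0 (hB hx'), TWC.fn_opr_add _ _ (hB hx')]
        exact add_mem ((h1 _ h3).1 x hx') ((h2 _ h4).1 x hx')
      · rw [hΦ.uniq (TWC.DExt.of_desc hD) h0 hx, TWC.fn_opr_add _ _ hx]
        exact TWC.Nr.add (h1 _ h3).2 (h2 _ h4).2
    · rintro a φ ⟨hφT, h1⟩
      refine ⟨T.smul_mem a hφT, fun Φ hΦ => ?_⟩
      obtain ⟨Φ₁, h3⟩ := hD.ext φ hφT
      have h0 : IsExt (PM v L G M) (a • φ) (a • Φ₁) := ⟨fun e he => by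
        rw [TWC.fn_opr_smul _ _ (hE he), TWC.fn_opr_smul _ _ he, h3.eq e he],
        fun l hl' y hy => by
        rw [TWC.fn_opr_smul _ _ (mul_mem (hL hl') hy), TWC.fn_opr_smul _ _ hy, h3.lin l hl' y hy,
          mul_smul_comm]⟩
      refine ⟨fun x hx' => ?_, ?_⟩
      · rw [hΦ.uniq (TWC.DExt.of_desc hD) h0 (hB hx'), TWC.fn_opr_smul _ _ (hB hx'), Algebra.smul_def]
        exact mul_mem (IntermediateField.algebraMap_mem _ a) ((h1 _ h3).1 x hx')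
      · rw [hΦ.uniq (TWC.DExt.of_desc hD) h0 hx, TWC.fn_opr_smul _ _ hx, Algebra.smul_def]
        exact TWC.Nr.smul a (h1 _ h3).2
    · rintro φ ψ ⟨hφT, h1⟩ ⟨hψT, h2⟩
      have hmT : φ * ψ ∈ T := by
        rw [hT] at hφT hψT ⊢
        exact adjT_mul hφT hψT
      refine ⟨hmT, fun Φ hΦ => ?_⟩
      obtain ⟨Φ₁, h3⟩ := hD.ext φ hφT
      obtain ⟨Φ₂, h4⟩ := hD.ext ψ hψT
      have h0 : IsExt (PM v L G M) (φ * ψ) (Φ₁ * Φ₂) := ⟨fun e he => by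
        rw [TWC.fn_opr_mul _ _ (hE he), TWC.fn_opr_mul _ _ he, h4.eq e he,
          h3.eq _ (TWC.fn_mem _ _)],
        fun l hl' y hy => by
        rw [TWC.fn_opr_mul _ _ (mul_mem (hL hl') hy), TWC.fn_opr_mul _ _ hy, h4.lin l hl' y hy,
          h3.lin l hl' _ (TWC.fn_mem _ _)]⟩
      refine ⟨fun x hx' => ?_, ?_⟩
      · rw [hΦ.uniq (TWC.DExt.of_desc hD) h0 (hB hx'), TWC.fn_opr_mul _ _ (hB hx')]
        exact (h1 _ h3).1 _ ((h2 _ h4).1 x hx')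
      · rw [hΦ.uniq (TWC.DExt.of_desc hD) h0 hx, TWC.fn_opr_mul _ _ hx]
        exact TWC.Nr.fn hB (h1 _ h3).1 (TWC.fn_mem _ _) (h2 _ h4).2
  exact (key.2 Φ hΦ).2

/-- The replacement of a homogeneous generator. -/
theorem DescM.tl_of_nr [IsAlgClosed Ω] (D : DescM p v C P L LP G M T) (hN : Cld v N)
    (hiN : Imm v C N) (hNL : N ≤ L) {c : Ω} (_hc : c ∈ LP) {g : ℝ} (hg : g ∈ G)
    (ht : TL v (PM v (clI v (N ⊔ P)) G M) (c * M g) 0) {u : Ω} (hu : u ∈ L)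
    (hnr : Nr' v (PM v (clI v (N ⊔ P)) G M) 0 (c * M g - u * M g)) :
    ∃ u ∈ L, TL v N u (-g) ∧ Nr' v (PM v (clI v (N ⊔ P)) G M) 0 (c * M g - u * M g) ∧
      TL v (PM v (clI v (N ⊔ P)) G M) (u * M g) 0 ∧
      PM v (clI v (cadj v N u ⊔ P)) G M = cadj v (PM v (clI v (N ⊔ P)) G M) (u * M g) := by
  have hMg := D.mc.ms.ne g hg
  have hNB : PM v N G M ≤ PM v (clI v (N ⊔ P)) G M :=
    PM.mono (le_sup_left.trans (TWC.self_le_clI v _))
  have hsup : clI v (PM v N G M ⊔ PM v P G M) = PM v (clI v (N ⊔ P)) G M := PM.sup.symm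
  obtain ⟨b, hb, h4⟩ := hnr
  have h5 : Gt v 0 (u * M g - (c * M g - b)) := by
    have := h4.neg
    rwa [show -(c * M g - u * M g - b) = u * M g - (c * M g - b) by ring] at this
  have h6 : TL v (PM v (clI v (N ⊔ P)) G M) (u * M g) 0 := (ht.sub_mem hb).congr h5
  have hfL' : u * M g ∈ PM v L G M := mul_mem (PM.le hu) (PM.mon hg)
  have h7 : Lim v (PM v N G M) 0 (u * M g) :=
    D.desc.lim PM.cld (PM.mono hiN.le) (PM.mono hNL) hfL' (by rw [hsup]; exact h6.lim)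
  have h9 := D.limN hN hiN hNL (D.LLP hu) hg h7
  rw [zero_sub] at h9
  refine ⟨u, hu, tl_mon D.mc hg (h6.of_le hNB h7) h9, ⟨b, hb, h4⟩, h6, ?_⟩
  rw [TWC.clI_cadj_sup, PM.cadj]
  have := cadj_affine (v := v) (A := PM v (clI v (N ⊔ P)) G M) (z := u) (PM.mon hg) hMg
    (zero_mem _)
  rwa [add_zero, mul_comm, eq_comm] at this

/-- **The next rational letter**: a homogeneous generator `c M(g)` of a floor over `B = cl (N P)`
may be replaced by `u M(g)` with `u` in `L`. -/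
theorem DescM.graded_tl [IsAlgClosed Ω] (D : DescM p v C P L LP G M T) (hN : Cld v N)
    (hiN : Imm v C N) (hNL : N ≤ L) {c : Ω} (hc : c ∈ LP) {g : ℝ} (hg : g ∈ G)
    (ht : TL v (PM v (clI v (N ⊔ P)) G M) (c * M g) 0)
    (hop : ∀ φ ∈ T, ∀ Φ : Opr v (PM v LP G M), IsExt (PM v L G M) φ Φ →
      Nr v (PM v (clI v (N ⊔ P)) G M) 0 (TWC.fn Φ (c * M g))) :
    ∃ u ∈ L, TL v N u (-g) ∧ Nr' v (PM v (clI v (N ⊔ P)) G M) 0 (c * M g - u * M g) ∧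
      TL v (PM v (clI v (N ⊔ P)) G M) (u * M g) 0 ∧
      PM v (clI v (cadj v N u ⊔ P)) G M = cadj v (PM v (clI v (N ⊔ P)) G M) (u * M g) := by
  obtain ⟨u, hu, hnr⟩ := D.graded hiN hNL hc hg ht.lim hop
  exact D.tl_of_nr hN hiN hNL hc hg ht hu hnr

end Pool.Agent.TWS

namespace Pool.Agent.TWC

open Pool.Agent.H15JM (RVal)
open Pool.Agent.D2 (Ctx0)
open Pool.Agent.D2P (clI mem_clI)
open Pool.Agent.TWM
open Pool.Agent.TWS (MonG PM VG DescM)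

universe u

variable {k Ω : Type u} [Field k] [Field Ω] [Algebra k Ω] {v : RVal Ω} [hk : Fact (Ctx0 k v)]
  {p : ℕ} [hp : Fact p.Prime] [CharP Ω p]
  {C P L E N : IntermediateField k Ω} {G : AddSubgroup ℝ} {M : ℝ → Ω} {m : ℕ}
  {u c : ℕ → Fin m → Ω} {rho : Fin m → ℝ}

/-- The operators preserve `cl (N E)`. -/
theorem PDat.stbN (hc : CompleteV v) (h : PDat p v C L E u c rho) (hCN : C ≤ N) (hNL : N ≤ L)
    {n : ℕ} {F : Fin m → ℕ} (hF : ∀ l, F l < p ^ n) {LE : IntermediateField k Ω}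
    (hLE : LE = clI v (L ⊔ E)) {Φ : Opr v LE} (hΦ : IsW p L u c Φ n F) {x : Ω}
    (hx : x ∈ clI v (N ⊔ E)) : fn Φ x ∈ clI v (N ⊔ E) := by
  subst hLE
  have hNE : N ≤ clI v (N ⊔ E) := le_sup_left.trans fun _ ha => LUC.Cl.subset ha
  have hEE : E ≤ clI v (N ⊔ E) := le_sup_right.trans fun _ ha => LUC.Cl.subset ha
  obtain ⟨φ, hφ⟩ : ∃ φ : Opr v (clI v (N ⊔ E)), IsW p N u c φ n F :=
    exists_W hc h.root h.val (fun n l => hEE (h.memM n l)) (h.norm.of_le hNL) (cld_clI v _) hNE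
      (fun n l => hEE (h.mem n l)) (h.dnsN hCN) n F hF
  have h1 : IsExt L φ Φ := hφ.isExt h.root hNL (clI_mono' (sup_le_sup_right hNL E)) h.leL
    (h.dnsN hCN) (h.dnsN h.le) hΦ
  rw [h1.eq x hx]
  exact fn_mem φ x

/-- The extensions of the generators. -/
theorem PDat.isW_of_ext (hc : CompleteV v) (h : PDat p v C L E u c rho) {n : ℕ} {F : Fin m → ℕ}
    (hF : ∀ l, F l < p ^ n) {φ : Opr v E} (hφ : IsW p C u c φ n F) {LE : IntermediateField k Ω}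
    (hLE : LE = clI v (L ⊔ E)) {Φ : Opr v LE} (hΦ : IsExt L φ Φ) :
    ∃ Φ' : Opr v LE, IsW p L u c Φ' n F ∧ IsExt L φ Φ' ∧ ∀ x ∈ LE, fn Φ x = fn Φ' x := by
  subst hLE
  obtain ⟨Φ', h1⟩ := h.exL hc n F hF
  have h2 : IsExt L φ Φ' := h.isExt hφ h1
  exact ⟨Φ', h1, h2, fun x hx => hΦ.uniq (h.dext hc) h2 hx⟩

/-- **Graded descent for the operators `IsW`.** -/
theorem PBase.graded (hc : CompleteV v) (H : PBase p v C P L G M u rho)
    (D : PDat p v (PM v C G M) (PM v L G M) (PM v P G M) u c rho) (hiN : Imm v C N)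
    (hNL : N ≤ L) {a : Ω} (ha : a ∈ clI v (L ⊔ P)) {g : ℝ} (hg : g ∈ G)
    (hl : Lim v (PM v (clI v (N ⊔ P)) G M) 0 (a * M g))
    (hop : ∀ (n : ℕ) (F : Fin m → ℕ), (∃ l, F l ≠ 0) → (∀ l, F l < p ^ n) →
      ∀ Φ : Opr v (PM v (clI v (L ⊔ P)) G M), IsW p (PM v L G M) u c Φ n F →
      Nr v (PM v (clI v (N ⊔ P)) G M) 0 (fn Φ (a * M g))) :
    ∃ b ∈ L, Nr' v (PM v (clI v (N ⊔ P)) G M) 0 (a * M g - b * M g) := by
  have hLE : PM v (clI v (L ⊔ P)) G M = clI v (PM v L G M ⊔ PM v P G M) := PM.sup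
  have hNE : PM v (clI v (N ⊔ P)) G M = clI v (PM v N G M ⊔ PM v P G M) := PM.sup
  have hx : a * M g ∈ PM v (clI v (L ⊔ P)) G M := mul_mem (PM.le ha) (PM.mon hg)
  refine (H.descM hc D).graded_gen rfl hiN hNL ?_ ha hg hl ?_
  · rintro φ ⟨n, F, h0, hF, hφ⟩ Φ hΦ x hx'
    obtain ⟨Φ', h1, h2, h3⟩ := D.isW_of_ext hc hF hφ hLE hΦ
    rw [h3 x (PM.mono ((H.descM hc D).BLP hNL) hx')]
    rw [hNE] at hx' ⊢
    exact D.stbN hc (PM.mono hiN.le) (PM.mono hNL) hF hLE h1 hx'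
  · rintro φ ⟨n, F, h0, hF, hφ⟩
    obtain ⟨Φ, hΦ⟩ := (H.descM hc D).desc.ext φ (subset_adjT ⟨n, F, h0, hF, hφ⟩)
    obtain ⟨Φ', h1, h2, h3⟩ := D.isW_of_ext hc hF hφ hLE hΦ
    exact ⟨Φ', h2, hop n F h0 hF Φ' h1⟩

/-- **The next rational letter**, for the operators `IsW`. -/
theorem PBase.graded_tl [IsAlgClosed Ω] (hc : CompleteV v) (H : PBase p v C P L G M u rho)
    (D : PDat p v (PM v C G M) (PM v L G M) (PM v P G M) u c rho) (hN : Cld v N)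
    (hiN : Imm v C N) (hNL : N ≤ L) {a : Ω} (ha : a ∈ clI v (L ⊔ P)) {g : ℝ} (hg : g ∈ G)
    (ht : TL v (PM v (clI v (N ⊔ P)) G M) (a * M g) 0)
    (hop : ∀ (n : ℕ) (F : Fin m → ℕ), (∃ l, F l ≠ 0) → (∀ l, F l < p ^ n) →
      ∀ Φ : Opr v (PM v (clI v (L ⊔ P)) G M), IsW p (PM v L G M) u c Φ n F →
      Nr v (PM v (clI v (N ⊔ P)) G M) 0 (fn Φ (a * M g))) :
    ∃ b ∈ L, TL v N b (-g) ∧ Nr' v (PM v (clI v (N ⊔ P)) G M) 0 (a * M g - b * M g) ∧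
      TL v (PM v (clI v (N ⊔ P)) G M) (b * M g) 0 ∧
      PM v (clI v (cadj v N b ⊔ P)) G M = cadj v (PM v (clI v (N ⊔ P)) G M) (b * M g) := by
  obtain ⟨b, hb, hnr⟩ := H.graded hc D hiN hNL ha hg ht.lim hop
  exact (H.descM hc D).tl_of_nr hN hiN hNL ha hg ht hb hnr

end Pool.Agent.TWC
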