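import Pool.Agent.Lib.TWC.SD

/-!
# TANK W, (Ht), H5: homogeneous adapted bases of graded `k{F}`-modules

`G` a module over the twisted polynomial ring `k{F}` (language of `TWC.SD`), graded by an additive
group `A`: projections `pr c`, `F G_c ⊆ G_{p c}`, `c ↦ p c` injective (`Grd`).
* `Gr pr S`: graded subspaces; `gr_Sat`, `gr_RS`, `gr_nxt`;
* `exists_ind`: a homogeneous family is replaced by a homogeneous one, free modulo `S`, `S` graded,
  saturated, with the same span modulo `S`;
* `exists_adapted`: a homogeneous basis of `RS F U₀` adapted to the operators, if the flag of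
  `TWC.flag` ends.
-/

set_option autoImplicit false
set_option linter.unusedSectionVars false

open Module Submodule Polynomial

namespace Pool.Agent.TWHT

open Pool.Agent.TWC

universe u w z

variable {k : Type u} {G : Type w} [Field k] [AddCommGroup G] [Module k G]
variable {σ : k →+* k} [RingHomSurjective σ] {F : G →ₛₗ[σ] G}

/-! ### The operators `∑ a_j F^j` -/

variable (F) in
/-- `∑ a_j F^j m`. -/
noncomputable def opF (P : k[X]) (m : G) : G := P.sum fun j a => a • F^[j] m

theorem opF_range (P : k[X]) (m : G) {n : ℕ} (h : P.natDegree < n) :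
    opF F P m = ∑ j ∈ Finset.range n, P.coeff j • F^[j] m := by
  unfold opF
  exact P.sum_over_range' (f := fun j a => a • F^[j] m) (fun j => zero_smul k _) n h

theorem opF_zero (m : G) : opF F 0 m = 0 := by
  simp [opF]

theorem opF_add (P Q : k[X]) (m : G) : opF F (P + Q) m = opF F P m + opF F Q m := by
  have h1 : P.natDegree < max P.natDegree Q.natDegree + 1 :=
    Nat.lt_succ_of_le (le_max_left _ _)
  have h2 : Q.natDegree < max P.natDegree Q.natDegree + 1 :=
    Nat.lt_succ_of_le (le_max_right _ _)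
  have h3 : (P + Q).natDegree < max P.natDegree Q.natDegree + 1 :=
    Nat.lt_succ_of_le (natDegree_add_le _ _)
  rw [opF_range _ m h1, opF_range _ m h2, opF_range _ m h3, ← Finset.sum_add_distrib]
  exact Finset.sum_congr rfl fun j _ => by rw [coeff_add, add_smul]

theorem opF_sub (P Q : k[X]) (m : G) : opF F (P - Q) m = opF F P m - opF F Q m := by
  rw [eq_sub_iff_add_eq, ← opF_add, sub_add_cancel]

theorem opF_sum {ι : Type*} (s : Finset ι) (P : ι → k[X]) (m : G) :
    opF F (∑ i ∈ s, P i) m = ∑ i ∈ s, opF F (P i) m := by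
  classical
  induction s using Finset.induction_on with
  | empty => rw [Finset.sum_empty, Finset.sum_empty, opF_zero]
  | insert a s ha ih => rw [Finset.sum_insert ha, Finset.sum_insert ha, opF_add, ih]

theorem opF_monomial (j : ℕ) (c : k) (m : G) : opF F (monomial j c) m = c • F^[j] m := by
  unfold opF
  rw [sum_monomial_index]
  exact zero_smul k _

/-- `P(F) c F^d`. -/
noncomputable def tw (σ : k →+* k) (P : k[X]) (c : k) (d : ℕ) : k[X] :=
  ∑ j ∈ Finset.range (P.natDegree + 1), monomial (j + d) (P.coeff j * σ^[j] c)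

theorem opF_tw (P : k[X]) (c : k) (d : ℕ) (m m' : G) :
    opF F P (m + c • F^[d] m') = opF F P m + opF F (tw σ P c d) m' := by
  rw [opF_range P _ (Nat.lt_succ_self _), opF_range P m (Nat.lt_succ_self _), tw, opF_sum,
    ← Finset.sum_add_distrib]
  refine Finset.sum_congr rfl fun j _ => ?_
  rw [it_add, it_smul, smul_add, opF_monomial, ← Function.iterate_add_apply, smul_smul]

theorem coeff_tw (P : k[X]) (c : k) (d n : ℕ) :
    (tw σ P c d).coeff (n + d) = P.coeff n * σ^[n] c := by
  rw [tw, finsetSum_coeff]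
  simp only [coeff_monomial]
  by_cases hn : n ≤ P.natDegree
  · rw [Finset.sum_eq_single n]
    · rw [if_pos rfl]
    · intro j _ hj
      rw [if_neg (by omega)]
    · intro h
      exact absurd (Finset.mem_range.2 (Nat.lt_succ_of_le hn)) h
  · rw [coeff_eq_zero_of_natDegree_lt (by omega), zero_mul]
    refine Finset.sum_eq_zero fun j hj => ?_
    rw [Finset.mem_range] at hj
    rw [if_neg (by omega)]

theorem coeff_tw_lt (P : k[X]) (c : k) {d n : ℕ} (h : n < d) : (tw σ P c d).coeff n = 0 := by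
  rw [tw, finsetSum_coeff]
  simp only [coeff_monomial]
  refine Finset.sum_eq_zero fun j _ => ?_
  rw [if_neg (by omega)]

/-- One step of the division. -/
theorem exists_step (hσ : Function.Surjective σ) {P Q : k[X]} (hP : P ≠ 0) (hQ : Q ≠ 0)
    (h : P.natDegree ≤ Q.natDegree) :
    ∃ c : k, (Q - tw σ P c (Q.natDegree - P.natDegree)).degree < Q.degree := by
  have hs : Function.Surjective (σ^[P.natDegree]) := hσ.iterate _
  obtain ⟨c, hc⟩ := hs (P.leadingCoeff⁻¹ * Q.leadingCoeff)
  refine ⟨c, ?_⟩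
  have hPl : P.leadingCoeff ≠ 0 := leadingCoeff_ne_zero.2 hP
  obtain ⟨d, hd⟩ := Nat.exists_eq_add_of_le h
  have hd' : Q.natDegree - P.natDegree = d := by omega
  rw [hd']
  have h1 : (tw σ P c d).coeff Q.natDegree = Q.leadingCoeff := by
    rw [hd, coeff_tw, hc]
    change P.leadingCoeff * (P.leadingCoeff⁻¹ * Q.leadingCoeff) = _
    rw [← mul_assoc, mul_inv_cancel₀ hPl, one_mul]
  have h2 : ∀ n, Q.natDegree < n → (tw σ P c d).coeff n = 0 := by
    intro n hn
    obtain ⟨l, rfl⟩ : ∃ l, n = l + d := ⟨n - d, by omega⟩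
    rw [coeff_tw, coeff_eq_zero_of_natDegree_lt (by omega), zero_mul]
  rw [degree_eq_natDegree hQ, degree_lt_iff_coeff_zero]
  intro n hn
  rw [coeff_sub]
  rcases hn.lt_or_eq with h3 | h3
  · rw [h2 n h3, coeff_eq_zero_of_natDegree_lt h3, sub_zero]
  · rw [← h3, h1, ← leadingCoeff, sub_self]

/-- The size of a coefficient. -/
noncomputable def wt (P : k[X]) : ℕ := open Classical in if P = 0 then 0 else P.natDegree + 1

theorem wt_lt {P Q : k[X]} (h : P.degree < Q.degree) : wt P < wt Q := by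
  have hQ : Q ≠ 0 := by
    rintro rfl
    rw [degree_zero] at h
    exact not_lt_bot h
  unfold wt
  rw [if_neg hQ]
  split_ifs with hP
  · omega
  · have := natDegree_lt_natDegree hP h
    omega

/-- Elements with a nonzero operator in a saturated `S`. -/
theorem mem_of_opF {S : Submodule k G} (hSF : S.map F ≤ S) (hsat : Sat F S = S) {P : k[X]}
    (hP : P ≠ 0) {m : G} (h : opF F P m ∈ S) : m ∈ S := by
  have hl : P.leadingCoeff ≠ 0 := leadingCoeff_ne_zero.2 hP
  rw [opF_range P m (Nat.lt_succ_self _), Finset.sum_range_succ] at h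
  obtain ⟨n, hn⟩ : ∃ n, n = P.natDegree := ⟨_, rfl⟩
  have hl' : P.coeff n ≠ 0 := by
    rw [hn]
    exact hl
  rw [← hn] at h
  obtain ⟨T, hT⟩ : ∃ T : Submodule k G,
      T = span k ((fun j => F^[j] m) '' (Finset.range n : Set ℕ)) := ⟨_, rfl⟩
  have hTfg : T.FG := by
    rw [hT]
    exact fg_span (((Finset.range n).finite_toSet).image _)
  have hmT : ∀ j, j < n → F^[j] m ∈ T := fun j hj => by
    rw [hT]
    exact subset_span ⟨j, by simpa using hj, rfl⟩
  have htop : F^[n] m ∈ T ⊔ Sat F S := by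
    have h1 : F^[n] m = (P.coeff n)⁻¹ • (∑ j ∈ Finset.range n, P.coeff j • F^[j] m +
        P.coeff n • F^[n] m) - (P.coeff n)⁻¹ • ∑ j ∈ Finset.range n, P.coeff j • F^[j] m := by
      rw [smul_add, smul_smul, inv_mul_cancel₀ hl', one_smul, add_sub_cancel_left]
    rw [h1]
    refine sub_mem (mem_sup_right (Submodule.smul_mem _ _ (le_Sat hSF h)))
      (mem_sup_left (Submodule.smul_mem _ _ (sum_mem fun j hj => Submodule.smul_mem _ _
        (hmT j (Finset.mem_range.1 hj)))))
  by_cases h0 : n = 0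
  · rw [h0, Finset.range_zero, Finset.sum_empty, zero_add] at h
    rw [h0] at hl'
    have h2 := S.smul_mem (P.coeff 0)⁻¹ h
    rwa [smul_smul, inv_mul_cancel₀ hl', one_smul] at h2
  have h3 : T ≤ Sat F S := by
    refine le_Sat_of_map_le hTfg ?_
    rw [hT, map_span_le]
    rintro _ ⟨j, hj, rfl⟩
    have hj' : j < n := by simpa using hj
    change F (F^[j] m) ∈ _
    rw [← Function.iterate_succ_apply' (⇑F), ← hT]
    change F^[j + 1] m ∈ _
    by_cases h4 : j + 1 < n
    · exact mem_sup_left (hmT _ h4)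
    · have h5 : j + 1 = n := by omega
      rw [h5]
      exact htop
  rw [hsat] at h3
  exact h3 (hmT 0 (Nat.pos_of_ne_zero h0))

/-! ### Gradings -/

section Grd

variable {A : Type z} [AddCommGroup A] {p : ℕ} {pr : A → G →ₗ[k] G}

/-- A grading of the `k{F}`-module `G`: projections `pr c`, `F G_c ⊆ G_{p c}`. -/
structure Grd (F : G →ₛₗ[σ] G) (p : ℕ) (pr : A → G →ₗ[k] G) : Prop where
  same : ∀ c m, pr c (pr c m) = pr c m
  ne : ∀ c c' m, c ≠ c' → pr c (pr c' m) = 0
  dec : ∀ m, ∃ S : Finset A, ∑ c ∈ S, pr c m = m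
  prF : ∀ c m, pr (p • c) (F (pr c m)) = F (pr c m)

/-- Graded subspaces. -/
def Gr (pr : A → G →ₗ[k] G) (S : Submodule k G) : Prop := ∀ c, ∀ m ∈ S, pr c m ∈ S

/-- The operators are sums of homogeneous ones. -/
def HomO (O : Ops F) (pr : A → G →ₗ[k] G) : Prop :=
  ∃ S : Set (G →ₗ[k] G), S ⊆ O.A ∧ (O.A : Set (G →ₗ[k] G)) ⊆ span k S ∧
    ∀ φ ∈ S, ∃ d : A, ∀ c m, pr c m = m → pr (c + d) (φ m) = φ m

variable (hG : Grd F p pr) (hp : ∀ c : A, p • c = 0 → c = 0)

include hp in
theorem pinj (n : ℕ) {c c' : A} (h : p ^ n • c = p ^ n • c') : c = c' := by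
  induction n with
  | zero => simpa using h
  | succ n ih =>
    refine ih ?_
    have h1 : p • (p ^ n • c - p ^ n • c') = 0 := by
      rw [smul_sub, smul_smul, smul_smul, ← pow_succ', h, sub_self]
    exact sub_eq_zero.1 (hp _ h1)

include hG

/-- The degree of `F^j m`. -/
theorem Grd.it {c : A} {m : G} (hm : pr c m = m) (j : ℕ) :
    pr (p ^ j • c) (F^[j] m) = F^[j] m := by
  induction j with
  | zero => simpa using hm
  | succ j ih =>
    rw [Function.iterate_succ_apply', ← ih, pow_succ', mul_smul, hG.prF]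

theorem Grd.pr_ne {c c' : A} {m : G} (hm : pr c m = m) (h : c' ≠ c) : pr c' m = 0 := by
  rw [← hm, hG.ne _ _ _ h]

include hp

theorem Grd.pr_it (j : ℕ) (c : A) (m : G) : pr (p ^ j • c) (F^[j] m) = F^[j] (pr c m) := by
  classical
  obtain ⟨S, hS⟩ := hG.dec m
  have h1 : F^[j] m = ∑ c' ∈ S, F^[j] (pr c' m) := by
    conv_lhs => rw [← hS]
    rw [it_sum]
  have h2 : ∀ c', pr (p ^ j • c) (F^[j] (pr c' m)) = if c' = c then F^[j] (pr c m) else 0 := by
    intro c'
    split_ifs with h
    · rw [h, hG.it (hG.same c m)]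
    · exact hG.pr_ne (hG.it (hG.same c' m) j) fun h3 => h (pinj hp j h3).symm
  have h3 : pr c m = if c ∈ S then pr c m else 0 := by
    split_ifs with h
    · rfl
    · conv_lhs => rw [← hS]
      rw [map_sum]
      exact Finset.sum_eq_zero fun c' hc' => hG.ne _ _ _ fun h4 => h (h4 ▸ hc')
  rw [h1, map_sum, Finset.sum_congr rfl fun c' _ => h2 c', Finset.sum_ite_eq']
  split_ifs with h
  · rfl
  · rw [if_neg h] at h3
    rw [h3, it_zero]

omit hp in
/-- The graded hull of a finite dimensional space, homogeneous generators. -/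
theorem Grd.hull {T : Submodule k G} (hT : T.FG) : ∃ (B : Finset (A × G)),
    (∀ x ∈ B, pr x.1 x.2 = x.2 ∧ ∃ t ∈ T, pr x.1 t = x.2) ∧
      T ≤ span k (Prod.snd '' (B : Set (A × G))) ∧
        Gr pr (span k (Prod.snd '' (B : Set (A × G)))) := by
  classical
  obtain ⟨C, hC⟩ := hT
  choose S hS using fun t : G => hG.dec t
  refine ⟨C.biUnion fun t => (S t).image fun c => (c, pr c t), ?_, ?_, ?_⟩
  · intro x hx
    obtain ⟨t, ht, h1⟩ := Finset.mem_biUnion.1 hx
    obtain ⟨c, -, rfl⟩ := Finset.mem_image.1 h1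
    refine ⟨hG.same _ _, t, ?_, rfl⟩
    rw [← hC]
    exact subset_span ht
  · rw [← hC, span_le]
    intro t ht
    rw [SetLike.mem_coe]
    rw [← hS t]
    refine sum_mem fun c hc => subset_span ⟨(c, pr c t), ?_, rfl⟩
    exact Finset.mem_biUnion.2 ⟨t, ht, Finset.mem_image_of_mem _ hc⟩
  · intro c m hm
    induction hm using Submodule.span_induction with
    | mem m h =>
      obtain ⟨x, hx, rfl⟩ := h
      obtain ⟨t, ht, h1⟩ := Finset.mem_biUnion.1 hx
      obtain ⟨c', -, rfl⟩ := Finset.mem_image.1 h1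
      by_cases h2 : c = c'
      · rw [h2]
        change pr c' (pr c' t) ∈ _
        rw [hG.same]
        exact subset_span ⟨_, hx, rfl⟩
      · change pr c (pr c' t) ∈ _
        rw [hG.ne _ _ _ h2]
        exact zero_mem _
    | zero => rw [map_zero]; exact zero_mem _
    | add a b _ _ ha hb => rw [map_add]; exact add_mem ha hb
    | smul a b _ hb => rw [map_smul]; exact Submodule.smul_mem _ _ hb

omit hp in
/-- Homogeneous generators of a graded finite dimensional space. -/
theorem Grd.gens {U : Submodule k G} (hU : U.FG) (hg : Gr pr U) :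
    ∃ (n : ℕ) (e : Fin n → G) (δ : Fin n → A), (∀ i, pr (δ i) (e i) = e i) ∧
      span k (Set.range e) = U := by
  classical
  obtain ⟨B, h1, h2, -⟩ := hG.hull hU
  have h3 : span k (Prod.snd '' (B : Set (A × G))) = U := by
    refine le_antisymm ?_ h2
    rw [span_le]
    rintro _ ⟨x, hx, rfl⟩
    obtain ⟨t, ht, h4⟩ := (h1 x hx).2
    rw [← h4]
    exact hg _ _ ht
  refine ⟨B.card, fun i => (B.equivFin.symm i).1.2, fun i => (B.equivFin.symm i).1.1,
    fun i => (h1 _ (B.equivFin.symm i).2).1, ?_⟩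
  rw [← h3]
  congr 1
  ext x
  constructor
  · rintro ⟨i, rfl⟩
    exact ⟨_, (B.equivFin.symm i).2, rfl⟩
  · rintro ⟨y, hy, rfl⟩
    exact ⟨B.equivFin ⟨y, hy⟩, by simp⟩

theorem Grd.gr_map {S : Submodule k G} (hS : Gr pr S) : Gr pr (S.map F) := by
  classical
  rintro c _ ⟨m, hm, rfl⟩
  obtain ⟨T, hT⟩ := hG.dec m
  have h1 : F m = ∑ c' ∈ T, F (pr c' m) := by
    conv_lhs => rw [← hT]
    rw [map_sum]
  rw [h1, map_sum]
  refine sum_mem fun c' _ => ?_
  have h2 := hG.prF c' m
  by_cases h : c = p • c'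
  · rw [h, h2]
    exact mem_map_of_mem (hS _ _ hm)
  · rw [← h2, hG.ne _ _ _ h]
    exact zero_mem _

omit hG hp in
theorem gr_sup {S T : Submodule k G} (hS : Gr pr S) (hT : Gr pr T) : Gr pr (S ⊔ T) := by
  intro c m hm
  obtain ⟨a, ha, b, hb, rfl⟩ := mem_sup.1 hm
  rw [map_add]
  exact add_mem (mem_sup_left (hS _ _ ha)) (mem_sup_right (hT _ _ hb))

omit hG hp in
theorem gr_inf {S T : Submodule k G} (hS : Gr pr S) (hT : Gr pr T) : Gr pr (S ⊓ T) :=
  fun c m hm => ⟨hS c m hm.1, hT c m hm.2⟩

omit hG hp in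
theorem gr_bot : Gr pr (⊥ : Submodule k G) := by
  intro c m hm
  rw [(mem_bot k).1 hm, map_zero]
  exact zero_mem _

theorem Grd.gr_V {S : Submodule k G} (hS : Gr pr S) (b : ℕ) : Gr pr (V F S b) := by
  induction b with
  | zero => exact gr_bot
  | succ b ih => exact gr_sup hS (hG.gr_map hp ih)

theorem Grd.gr_RS {S : Submodule k G} (hS : Gr pr S) : Gr pr (RS F S) := by
  intro c m hm
  obtain ⟨b, hb⟩ := mem_RS.1 hm
  exact V_le_RS b (hG.gr_V hp hS b c m hb)

theorem Grd.gr_Sat {S : Submodule k G} (hS : Gr pr S) : Gr pr (Sat F S) := by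
  rintro c m ⟨T, hT, hm⟩
  obtain ⟨B, -, h1, h2⟩ := hG.hull hT
  refine ⟨span k (Prod.snd '' (B : Set (A × G))), fg_span (B.finite_toSet.image _), fun j => ?_⟩
  rw [← hG.pr_it hp]
  exact gr_sup hS h2 _ _ (mono_r h1 (hm j) : F^[j] m ∈ S ⊔ _)

omit hp in
theorem Grd.gr_act {O : Ops F} (hO : HomO O pr) {S : Submodule k G} (hS : Gr pr S) :
    Gr pr (act O S) := by
  classical
  obtain ⟨H, hHO, hOH, hH⟩ := hO
  -- the values of the operators
  have key : ∀ φ ∈ span k H, ∀ x ∈ S, ∀ c, pr c (φ x) ∈ act O S := by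
    intro φ hφ
    induction hφ using Submodule.span_induction with
    | mem φ h =>
      intro x hx c
      obtain ⟨d, hd⟩ := hH φ h
      obtain ⟨T, hT⟩ := hG.dec x
      have h1 : φ x = ∑ c' ∈ T, φ (pr c' x) := by
        conv_lhs => rw [← hT]
        rw [map_sum]
      rw [h1, map_sum]
      refine sum_mem fun c' _ => ?_
      have h2 := hd c' (pr c' x) (hG.same _ _)
      by_cases h3 : c = c' + d
      · rw [h3, h2]
        exact mem_act (hHO h) (hS _ _ hx)
      · rw [← h2, hG.ne _ _ _ h3]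
        exact zero_mem _
    | zero =>
      intro x _ c
      rw [LinearMap.zero_apply, map_zero]
      exact zero_mem _
    | add φ ψ _ _ hφ hψ =>
      intro x hx c
      rw [LinearMap.add_apply, map_add]
      exact add_mem (hφ x hx c) (hψ x hx c)
    | smul a φ _ hφ =>
      intro x hx c
      rw [LinearMap.smul_apply, map_smul]
      exact Submodule.smul_mem _ _ (hφ x hx c)
  intro c m hm
  induction hm using Submodule.span_induction with
  | mem m h =>
    obtain ⟨φ, hφ, x, hx, rfl⟩ := h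
    exact key φ (hOH hφ) x hx c
  | zero => rw [map_zero]; exact zero_mem _
  | add a b _ _ ha hb => rw [map_add]; exact add_mem ha hb
  | smul a b _ hb => rw [map_smul]; exact Submodule.smul_mem _ _ hb

theorem Grd.gr_nxt {O : Ops F} (hO : HomO O pr) {S : Submodule k G} (hS : Gr pr S) :
    Gr pr (nxt O S) :=
  hG.gr_Sat hp (hG.gr_RS hp (hG.gr_act hO hS))

theorem Grd.gr_nxt_it {O : Ops F} (hO : HomO O pr) {S : Submodule k G} (hS : Gr pr S) (n : ℕ) :
    Gr pr ((nxt O)^[n] S) := by
  induction n with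
  | zero => exact hS
  | succ n ih =>
    rw [Function.iterate_succ_apply']
    exact hG.gr_nxt hp hO ih

end Grd

/-! ### Freeness modulo a saturated subspace -/

section Ind

variable {ι : Type*}

variable (F) in
/-- The family `b` on `s` is free modulo `S`. -/
def Ind (S : Submodule k G) (s : Finset ι) (b : ι → G) : Prop :=
  ∀ a : ι → k[X], ∑ i ∈ s, opF F (a i) (b i) ∈ S → ∀ i ∈ s, a i = 0

theorem opF_mem_RS {S : Submodule k G} (P : k[X]) {m : G} (h : m ∈ RS F S) :
    opF F P m ∈ RS F S := by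
  rw [opF_range P m (Nat.lt_succ_self _)]
  exact sum_mem fun j _ => Submodule.smul_mem _ _ (it_mem map_RS_le h j)

theorem RS_sup (P T : Submodule k G) : RS F (P ⊔ T) = RS F P ⊔ RS F T := by
  refine le_antisymm (RS_le (sup_le_sup le_RS le_RS) ?_)
    (sup_le (RS_mono le_sup_left) (RS_mono le_sup_right))
  rw [Submodule.map_sup]
  exact sup_le_sup map_RS_le map_RS_le

variable {A : Type z} [AddCommGroup A] {p : ℕ} {pr : A → G →ₗ[k] G}
variable (hG : Grd F p pr) (hp : ∀ c : A, p • c = 0 → c = 0)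

include hG hp

/-- One elementary step. -/
theorem Grd.reduce (hσ : Function.Surjective σ) {S : Submodule k G} (hSF : S.map F ≤ S)
    (hsat : Sat F S = S) {δ : ι → A} {s : Finset ι} {d : A} (w : ℕ) :
    ∀ (b : ι → G) (a : ι → k[X]), (∀ i, pr (δ i) (b i) = b i) →
      (∀ i j, (a i).coeff j ≠ 0 → p ^ j • δ i = d) → ∑ i ∈ s, opF F (a i) (b i) ∈ S →
      (∃ i ∈ s, a i ≠ 0) → ∑ i ∈ s, wt (a i) ≤ w →
      ∃ b' : ι → G, (∀ i, pr (δ i) (b' i) = b' i) ∧ (∃ i ∈ s, b' i ∈ S) ∧
        RS F (span k (b' '' s)) = RS F (span k (b '' s)) := by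
  classical
  induction w with
  | zero =>
    rintro b a - - - ⟨i, hi, hai⟩ hw
    exfalso
    have h1 := (Finset.sum_eq_zero_iff.1 (Nat.le_zero.1 hw)) i hi
    unfold wt at h1
    rw [if_neg hai] at h1
    omega
  | succ w ih =>
    rintro b a hb ha hS ⟨i₀, hi₀, hai₀⟩ hw
    by_cases hone : ∀ i ∈ s, i ≠ i₀ → a i = 0
    · -- only one term
      refine ⟨b, hb, ⟨i₀, hi₀, ?_⟩, rfl⟩
      rw [Finset.sum_eq_single i₀ (fun i hi hne => by rw [hone i hi hne, opF_zero])
        (fun h => absurd hi₀ h)] at hS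
      exact mem_of_opF hSF hsat hai₀ hS
    push Not at hone
    obtain ⟨i₁, hi₁, hne, hai₁⟩ := hone
    -- order the two indices
    obtain ⟨i, j, hi, hj, hij, hai, haj, hle⟩ : ∃ i j, i ∈ s ∧ j ∈ s ∧ i ≠ j ∧ a i ≠ 0 ∧ a j ≠ 0 ∧
        (a i).natDegree ≤ (a j).natDegree := by
      rcases le_total (a i₀).natDegree (a i₁).natDegree with h | h
      · exact ⟨i₀, i₁, hi₀, hi₁, hne.symm, hai₀, hai₁, h⟩
      · exact ⟨i₁, i₀, hi₁, hi₀, hne, hai₁, hai₀, h⟩
    obtain ⟨c, hc⟩ := exists_step hσ hai haj hle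
    obtain ⟨e, he⟩ := Nat.exists_eq_add_of_le hle
    have he' : (a j).natDegree - (a i).natDegree = e := by omega
    rw [he'] at hc
    -- the degrees
    have hdeg : p ^ e • δ j = δ i := by
      have h1 := ha i (a i).natDegree (leadingCoeff_ne_zero.2 hai)
      have h2 := ha j (a j).natDegree (leadingCoeff_ne_zero.2 haj)
      rw [he, pow_add, mul_smul] at h2
      exact pinj hp _ (h2.trans h1.symm)
    obtain ⟨b', hb'⟩ : ∃ b' : ι → G, b' = Function.update b i (b i + c • F^[e] (b j)) := ⟨_, rfl⟩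
    obtain ⟨a', ha'⟩ : ∃ a' : ι → k[X], a' = Function.update a j (a j - tw σ (a i) c e) := ⟨_, rfl⟩
    have hbi : b' i = b i + c • F^[e] (b j) := by rw [hb', Function.update_self]
    have hbn : ∀ l, l ≠ i → b' l = b l := fun l hl => by rw [hb', Function.update_of_ne hl]
    have haj' : a' j = a j - tw σ (a i) c e := by rw [ha', Function.update_self]
    have han : ∀ l, l ≠ j → a' l = a l := fun l hl => by rw [ha', Function.update_of_ne hl]
    have hspan : RS F (span k (b' '' s)) = RS F (span k (b '' s)) := by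
      have hmem : ∀ (f : ι → G) (l : ι), l ∈ s → f l ∈ RS F (span k (f '' (s : Set ι))) :=
        fun f l hl => le_RS (subset_span ⟨l, hl, rfl⟩)
      refine le_antisymm (RS_le ?_ map_RS_le) (RS_le ?_ map_RS_le)
      · rw [span_le]
        rintro _ ⟨l, hl, rfl⟩
        by_cases h : l = i
        · rw [h, hbi]
          exact add_mem (hmem b i hi) (Submodule.smul_mem _ _ (it_mem map_RS_le (hmem b j hj) e))
        · rw [hbn l h]
          exact hmem b l hl
      · rw [span_le]
        rintro _ ⟨l, hl, rfl⟩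
        by_cases h : l = i
        · have h1 : b i = b' i - c • F^[e] (b' j) := by
            rw [hbi, hbn j hij.symm, add_sub_cancel_right]
          rw [h, h1]
          exact sub_mem (hmem b' i hi)
            (Submodule.smul_mem _ _ (it_mem map_RS_le (hmem b' j hj) e))
        · rw [← hbn l h]
          exact hmem b' l hl
    have hsum : ∑ l ∈ s, opF F (a' l) (b' l) = ∑ l ∈ s, opF F (a l) (b l) := by
      have h1 : ∀ l ∈ s, opF F (a' l) (b' l) = opF F (a l) (b l) +
          ((if l = i then opF F (tw σ (a i) c e) (b j) else 0) -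
            (if l = j then opF F (tw σ (a i) c e) (b j) else 0)) := by
        intro l _
        by_cases h2 : l = i
        · rw [if_pos h2, if_neg (h2 ▸ hij), h2, hbi, han i hij, opF_tw, sub_zero]
        · by_cases h3 : l = j
          · rw [if_neg h2, if_pos h3, h3, haj', hbn j hij.symm, opF_sub]
            abel
          · rw [if_neg h2, if_neg h3, han l h3, hbn l h2, sub_zero, add_zero]
      rw [Finset.sum_congr rfl h1, Finset.sum_add_distrib, Finset.sum_sub_distrib,
        Finset.sum_ite_eq', Finset.sum_ite_eq', if_pos hi, if_pos hj, sub_self, add_zero]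
    have hwt : ∑ l ∈ s, wt (a' l) < ∑ l ∈ s, wt (a l) := by
      refine Finset.sum_lt_sum (fun l _ => ?_) ⟨j, hj, ?_⟩
      · by_cases h : l = j
        · rw [h, haj']
          exact (wt_lt hc).le
        · rw [han l h]
      · rw [haj']
        exact wt_lt hc
    have g1 : ∀ l, pr (δ l) (b' l) = b' l := by
      intro l
      by_cases h : l = i
      · rw [h, hbi, map_add, hb, map_smul]
        have h4 := hG.it (hb j) e
        rw [hdeg] at h4
        rw [h4]
      · rw [hbn l h]
        exact hb l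
    have g2 : ∀ l n, (a' l).coeff n ≠ 0 → p ^ n • δ l = d := by
      intro l n hn
      by_cases h : l = j
      · rw [h, haj', coeff_sub] at hn
        by_cases h4 : (a j).coeff n = 0
        · rw [h4, zero_sub, neg_ne_zero] at hn
          have h5 : e ≤ n := by
            by_contra h6
            exact hn (coeff_tw_lt _ _ (by omega))
          obtain ⟨m, rfl⟩ : ∃ m, n = m + e := ⟨n - e, by omega⟩
          rw [coeff_tw] at hn
          have h6 := ha i m (left_ne_zero_of_mul hn)
          rw [h, pow_add, mul_smul, hdeg, h6]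
        · rw [h]
          exact ha j n h4
      · rw [han l h] at hn
        exact ha l n hn
    have g3 : ∑ l ∈ s, opF F (a' l) (b' l) ∈ S := by
      rw [hsum]
      exact hS
    obtain ⟨b'', h1, h2, h3⟩ := ih b' a' g1 g2 g3 ⟨i, hi, by rwa [han i hij]⟩ (by omega)
    exact ⟨b'', h1, h2, h3.trans hspan⟩

/-- **Homogeneous families, free modulo `S`.** -/
theorem Grd.exists_ind (hσ : Function.Surjective σ) {S : Submodule k G} (hSF : S.map F ≤ S)
    (hsat : Sat F S = S) (hSg : Gr pr S) {δ : ι → A} (n : ℕ) :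
    ∀ (s : Finset ι) (b : ι → G), s.card ≤ n → (∀ i, pr (δ i) (b i) = b i) →
      ∃ s' ⊆ s, ∃ b' : ι → G, (∀ i, pr (δ i) (b' i) = b' i) ∧
        S ⊔ RS F (span k (b' '' s')) = S ⊔ RS F (span k (b '' s)) ∧ Ind F S s' b' := by
  classical
  induction n with
  | zero =>
    intro s b hs hb
    refine ⟨s, Finset.Subset.refl s, b, hb, rfl, fun a _ i hi => ?_⟩
    rw [Finset.card_eq_zero.1 (Nat.le_zero.1 hs)] at hi
    exact absurd hi (Finset.notMem_empty i)
  | succ n ih =>
    intro s b hs hb
    by_cases hind : Ind F S s b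
    · exact ⟨s, Finset.Subset.refl s, b, hb, rfl, hind⟩
    unfold Ind at hind
    push Not at hind
    obtain ⟨a, haS, i₀, hi₀, hai₀⟩ := hind
    obtain ⟨j₀, hj₀⟩ : ∃ j, (a i₀).coeff j ≠ 0 := by
      by_contra h
      push Not at h
      exact hai₀ (Polynomial.ext fun j => by rw [h j, coeff_zero])
    obtain ⟨d, hd⟩ : ∃ d, d = p ^ j₀ • δ i₀ := ⟨_, rfl⟩
    -- the component of degree `d`
    obtain ⟨a', ha'⟩ : ∃ a' : ι → k[X], a' = fun i => ∑ j ∈ Finset.range ((a i).natDegree + 1),
        if p ^ j • δ i = d then monomial j ((a i).coeff j) else 0 := ⟨_, rfl⟩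
    have hcoeff : ∀ i j, (a' i).coeff j = if p ^ j • δ i = d then (a i).coeff j else 0 := by
      intro i j
      rw [ha']
      change (∑ j ∈ Finset.range ((a i).natDegree + 1),
        if p ^ j • δ i = d then monomial j ((a i).coeff j) else 0).coeff j = _
      rw [finsetSum_coeff]
      have h1 : ∀ l, (if p ^ l • δ i = d then monomial l ((a i).coeff l) else 0 : k[X]).coeff j =
          if l = j then (if p ^ j • δ i = d then (a i).coeff j else 0) else 0 := by
        intro l
        by_cases h2 : l = j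
        · rw [if_pos h2, h2]
          split_ifs
          · rw [coeff_monomial, if_pos rfl]
          · rw [coeff_zero]
        · rw [if_neg h2]
          split_ifs
          · rw [coeff_monomial, if_neg h2]
          · rw [coeff_zero]
      rw [Finset.sum_congr rfl fun l _ => h1 l, Finset.sum_ite_eq']
      split_ifs with h2 h3 h3
      · rfl
      · rfl
      · rw [Finset.mem_range] at h2
        exact (coeff_eq_zero_of_natDegree_lt (by omega)).symm
      · rfl
    have hpr : ∀ i, opF F (a' i) (b i) = pr d (opF F (a i) (b i)) := by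
      intro i
      rw [opF_range (a i) _ (Nat.lt_succ_self _), map_sum, ha']
      change opF F (∑ j ∈ Finset.range ((a i).natDegree + 1),
        if p ^ j • δ i = d then monomial j ((a i).coeff j) else 0) (b i) = _
      rw [opF_sum]
      refine Finset.sum_congr rfl fun j _ => ?_
      have h1 := hG.it (hb i) j
      split_ifs with h2
      · rw [opF_monomial, map_smul, ← h2, h1]
      · rw [opF_zero, map_smul, hG.pr_ne h1 (Ne.symm h2), smul_zero]
    obtain ⟨b', h1, ⟨i, hi, h2⟩, h3⟩ := hG.reduce hp hσ hSF hsat (δ := δ) (s := s) (d := d)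
      (∑ i ∈ s, wt (a' i)) b a' hb (fun i j hj => by
        rw [hcoeff] at hj
        by_contra h
        rw [if_neg h] at hj
        exact hj rfl) (by
        rw [Finset.sum_congr rfl fun i _ => hpr i, ← map_sum]
        exact hSg _ _ haS) ⟨i₀, hi₀, fun h => hj₀ (by
          have h4 := hcoeff i₀ j₀
          rw [if_pos hd.symm, h, coeff_zero] at h4
          exact h4.symm)⟩ le_rfl
    obtain ⟨s', hs', b'', h4, h5, h6⟩ := ih (s.erase i) b' (by
      rw [Finset.card_erase_of_mem hi]
      omega) h1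
    refine ⟨s', hs'.trans (Finset.erase_subset _ _), b'', h4, ?_, h6⟩
    rw [h5, ← h3]
    refine le_antisymm (sup_le_sup_left (RS_mono (span_mono (Set.image_mono
      (Finset.coe_subset.2 (Finset.erase_subset _ _))))) _) ?_
    refine sup_le le_sup_left (RS_le ?_ ?_)
    · rw [span_le]
      rintro _ ⟨l, hl, rfl⟩
      by_cases h : l = i
      · rw [h]
        exact mem_sup_left h2
      · refine mem_sup_right (le_RS (subset_span ⟨l, ?_, rfl⟩))
        exact Finset.mem_coe.2 (Finset.mem_erase.2 ⟨h, hl⟩)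
    · rw [Submodule.map_sup]
      exact sup_le_sup hSF map_RS_le

end Ind

/-! ### Adapted bases -/

section Adapted

variable {A : Type z} [AddCommGroup A] {p : ℕ} {pr : A → G →ₗ[k] G} {O : Ops F}

/-- A homogeneous basis of `X` over `k{F}`, adapted to the operators. -/
structure Adb (O : Ops F) (pr : A → G →ₗ[k] G) (X : Submodule k G) {r : ℕ} (b : Fin r → G)
    (δ : Fin r → A) : Prop where
  hom : ∀ i, pr (δ i) (b i) = b i
  gen : RS F (span k (Set.range b)) = X
  ind : ∀ a : Fin r → k[X], ∑ i, opF F (a i) (b i) = 0 → ∀ i, a i = 0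
  tri : ∀ φ ∈ O.A, ∀ i, φ (b i) ∈ RS F (span k (b '' {j | j < i}))

variable (hG : Grd F p pr) (hp : ∀ c : A, p • c = 0 → c = 0)

include hG hp

/-- One term of the flag. -/
theorem Adb.step (hσ : Function.Surjective σ) {X Y U : Submodule k G} (hY : Y.map F ≤ Y)
    (hYs : Sat F Y = Y) (hYg : Gr pr Y) (hYX : Y ≤ X) (hU : U.FG) (hUg : Gr pr U)
    (hX : X = RS F U) (hact : act O X ≤ Y) {r : ℕ} {b : Fin r → G} {δ : Fin r → A}
    (h : Adb O pr Y b δ) : ∃ (r' : ℕ) (b' : Fin r' → G) (δ' : Fin r' → A), Adb O pr X b' δ' := by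
  classical
  obtain ⟨n, e, ε, he, hspan⟩ := hG.gens hU hUg
  obtain ⟨s, -, b₁, h1, h2, h3⟩ := hG.exists_ind hp hσ hY hYs hYg (δ := ε) n Finset.univ e
    (by rw [Finset.card_univ, Fintype.card_fin]) he
  have h4 : Y ⊔ RS F (span k (b₁ '' s)) = X := by
    rw [h2, Finset.coe_univ, Set.image_univ, hspan, ← hX]
    exact sup_eq_right.2 hYX
  obtain ⟨c, hc⟩ : ∃ c : Fin s.card → G, c = fun i => b₁ (s.equivFin.symm i).1 := ⟨_, rfl⟩
  obtain ⟨γ, hγ⟩ : ∃ γ : Fin s.card → A, γ = fun i => ε (s.equivFin.symm i).1 := ⟨_, rfl⟩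
  have hcr : Set.range c = b₁ '' s := by
    rw [hc]
    ext x
    constructor
    · rintro ⟨i, rfl⟩
      exact ⟨_, (s.equivFin.symm i).2, rfl⟩
    · rintro ⟨y, hy, rfl⟩
      exact ⟨s.equivFin ⟨y, hy⟩, by simp⟩
  have hbr : Set.range (Fin.append b c) = Set.range b ∪ Set.range c := by
    ext x
    constructor
    · rintro ⟨i, rfl⟩
      refine Fin.addCases (fun i => ?_) (fun i => ?_) i
      · rw [Fin.append_left]
        exact Or.inl ⟨i, rfl⟩
      · rw [Fin.append_right]
        exact Or.inr ⟨i, rfl⟩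
    · rintro (⟨i, rfl⟩ | ⟨i, rfl⟩)
      · exact ⟨Fin.castAdd _ i, Fin.append_left _ _ _⟩
      · exact ⟨Fin.natAdd _ i, Fin.append_right _ _ _⟩
  refine ⟨r + s.card, Fin.append b c, Fin.append δ γ, ?_, ?_, ?_, ?_⟩
  · intro i
    refine Fin.addCases (fun i => ?_) (fun i => ?_) i
    · rw [Fin.append_left, Fin.append_left]
      exact h.hom i
    · rw [Fin.append_right, Fin.append_right, hc, hγ]
      exact h1 _
  · rw [hbr, span_union, RS_sup, h.gen, hcr]
    exact h4
  · intro a ha
    rw [Fin.sum_univ_add] at ha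
    simp only [Fin.append_left, Fin.append_right] at ha
    have h5 : ∑ i, opF F (a (Fin.castAdd _ i)) (b i) ∈ Y := by
      rw [← h.gen]
      exact sum_mem fun i _ => opF_mem_RS _ (le_RS (subset_span ⟨i, rfl⟩))
    have h6 : ∑ i, opF F (a (Fin.natAdd r i)) (c i) ∈ Y := by
      rw [eq_neg_of_add_eq_zero_right ha]
      exact neg_mem h5
    have h7 : ∀ i, a (Fin.natAdd r i) = 0 := by
      have h8 := h3 (fun l => if hl : l ∈ s then a (Fin.natAdd r (s.equivFin ⟨l, hl⟩)) else 0) (by
        have h9 : ∑ l ∈ s, opF F (if hl : l ∈ s then a (Fin.natAdd r (s.equivFin ⟨l, hl⟩)) else 0)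
            (b₁ l) = ∑ i, opF F (a (Fin.natAdd r i)) (c i) := by
          rw [← Finset.sum_coe_sort s, ← s.equivFin.symm.sum_comp]
          refine Finset.sum_congr rfl fun i _ => ?_
          rw [dif_pos (s.equivFin.symm i).2]
          rw [hc]
          simp
        rw [h9]
        exact h6)
      intro i
      have h9 := h8 (s.equivFin.symm i).1 (s.equivFin.symm i).2
      rw [dif_pos (s.equivFin.symm i).2] at h9
      simpa using h9
    have h8 : ∑ i, opF F (a (Fin.castAdd _ i)) (b i) = 0 := by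
      have h9 : ∑ i, opF F (a (Fin.natAdd r i)) (c i) = 0 :=
        Finset.sum_eq_zero fun i _ => by rw [h7 i, opF_zero]
      rwa [h9, add_zero] at ha
    intro i
    refine Fin.addCases (fun i => ?_) (fun i => ?_) i
    · exact h.ind (fun i => a (Fin.castAdd _ i)) h8 i
    · exact h7 i
  · intro φ hφ i
    refine Fin.addCases (fun i => ?_) (fun i => ?_) i
    · rw [Fin.append_left]
      refine RS_mono (span_mono ?_) (h.tri φ hφ i)
      rintro _ ⟨j, hj, rfl⟩
      have hj' : j < i := hj
      refine ⟨Fin.castAdd _ j, ?_, Fin.append_left _ _ _⟩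
      change Fin.castAdd _ j < Fin.castAdd _ i
      rw [Fin.lt_def, Fin.val_castAdd, Fin.val_castAdd]
      exact hj'
    · rw [Fin.append_right]
      have h5 : φ (c i) ∈ Y := by
        refine hact (mem_act hφ ?_)
        rw [← h4, ← hcr]
        exact mem_sup_right (le_RS (subset_span ⟨i, rfl⟩))
      rw [← h.gen] at h5
      refine RS_mono (span_mono ?_) h5
      rintro _ ⟨j, rfl⟩
      refine ⟨Fin.castAdd _ j, ?_, Fin.append_left _ _ _⟩
      change Fin.castAdd _ j < Fin.natAdd _ i
      rw [Fin.lt_def, Fin.val_castAdd, Fin.val_natAdd]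
      omega

/-- **The homogeneous adapted basis.** -/
theorem exists_adapted (hσ : Function.Surjective σ) {U₀ : Submodule k G} (hU₀ : U₀.FG)
    (hUg : Gr pr U₀) (hsat : Sat F (RS F U₀) = RS F U₀) (hst : act O (RS F U₀) ≤ RS F U₀)
    (hO : HomO O pr) {n : ℕ} (hflag : (nxt O)^[n] (RS F U₀) = ⊥) :
    ∃ (r : ℕ) (b : Fin r → G) (δ : Fin r → A), Adb O pr (RS F U₀) b δ := by
  have hit := nxt_it (O := O) (S := RS F U₀) map_RS_le hsat hst
  have key : ∀ j, j ≤ n → ∃ (r : ℕ) (b : Fin r → G) (δ : Fin r → A),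
      Adb O pr ((nxt O)^[n - j] (RS F U₀)) b δ := by
    intro j
    induction j with
    | zero =>
      intro _
      refine ⟨0, Fin.elim0, Fin.elim0, fun i => i.elim0, ?_, fun _ _ i => i.elim0,
        fun _ _ i => i.elim0⟩
      rw [Nat.sub_zero, hflag, Set.range_eq_empty, span_empty, RS]
      simp [V_bot]
    | succ j ih =>
      intro hj
      obtain ⟨r, b, δ, h⟩ := ih (by omega)
      obtain ⟨m, hm⟩ : ∃ m, m = n - (j + 1) := ⟨_, rfl⟩
      have hm' : n - j = m + 1 := by omega
      rw [hm', Function.iterate_succ_apply'] at h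
      rw [← hm]
      obtain ⟨a1, a2, a3, a4⟩ := hit m
      have hXg := hG.gr_nxt_it hp hO (hG.gr_RS hp hUg) m
      obtain ⟨d, hd⟩ := exists_gen a1 a2 hU₀ a4
      exact Adb.step hG hp hσ map_nxt_le Sat_nxt (hG.gr_nxt hp hO hXg) (nxt_le a1 a2 a3)
        ((V_fg hU₀ d).of_le inf_le_right) (gr_inf hXg (hG.gr_V hp hUg d)) hd act_le_nxt h
  obtain ⟨r, b, δ, h⟩ := key n le_rfl
  rw [Nat.sub_self] at h
  exact ⟨r, b, δ, h⟩

end Adapted

end Pool.Agent.TWHT
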