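import Pool.Agent.Lib.TWHT.GrO
import Pool.Agent.Lib.TWHT.HomB

/-!
# TANK W, leaf (Ht), row H5: the grading and the operators

`D : DescM p v C P L LP G M T`, `A` a closed field between `P` and `LP`.
* `gw_of_desc`: the grading of the classes of the limits of `PM v A G M` in `PM v LP G M`, by the
  values modulo `VG v P`;
* `grdQ`: the Frobenius multiplies degrees by `p`;
* `homQ`: the operators are combinations of homogeneous ones;
* `exists_genQ`: homogeneous generators;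
* `exists_adbQ`: the adapted homogeneous basis of the classes.
-/

set_option autoImplicit false
set_option linter.unusedSectionVars false

open Polynomial

namespace Pool.Agent.TWHT

open Pool.Agent.H15JM (RVal)
open Pool.Agent.LU1 (VPos adj)
open Pool.Agent.D2 (Ctx0)
open Pool.Agent.D2P (hen clI mem_clI)
open Pool.Agent.TWM Pool.Agent.TWS Pool.Agent.TWIV
open Pool.Agent.TWC (Opr fn fn_mem fn_add fn_smul fn_near fn_opr_add fn_opr_zero fn_opr_smul
  fn_opr_mul IsExt Desc Oper DExt KilB V RS Ops act act_le act_mono act_sup_le act_act_le mem_act Zk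
  Zk_mono Zk_le_succ act_Zk_le act_it_Zk act_it_mono fg_of_le_fg le_Sat RS_mono nr_fn lim_fn fn_sum'
  eq_of_ge Tow it_smul it_add le_RS map_RS_le)

universe u

variable {k Ω : Type u} [Field k] [Field Ω] [Algebra k Ω] {v : RVal Ω} [hcx : Fact (Ctx0 k v)]
  {C P L LP A : IntermediateField k Ω} {G : AddSubgroup ℝ} {M : ℝ → Ω}
  {T : Submodule k (Opr v (PM v P G M))} {p : ℕ}

section

variable [hp : Fact p.Prime] [CharP Ω p]

/-- The grading. -/
theorem gw_of_desc (D : DescM p v C P L LP G M T) : GW v P LP G M :=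
  ⟨D.mP, D.imm, D.cldP, D.cld⟩

theorem degQ (D : DescM p v C P L LP G M T) (c : ℝ ⧸ VG v P) (h : p • c = 0) : c = 0 := by
  have hp0 : (p : ℝ) ≠ 0 := by exact_mod_cast hp.out.ne_zero
  obtain ⟨g, rfl⟩ := QuotientAddGroup.mk_surjective c
  have e : p • (QuotientAddGroup.mk g : ℝ ⧸ VG v P) = QuotientAddGroup.mk ((p : ℝ) * g) := by
    rw [← nsmul_eq_mul]
    rfl
  rw [e] at h
  exact (QuotientAddGroup.eq_zero_iff _).2 (rt_div D.perf ((QuotientAddGroup.eq_zero_iff _).1 h))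

end

variable [hp : Fact p.Prime] [CharP k p] [CharP Ω p] [PerfectRing k p]

theorem grdQ (W : GW v P LP G M) (hΩ : CompleteV v) (hPA : P ≤ A) (hAL : A ≤ LP) (hA : Cld v A) :
    Grd (frQ p v (PM v LP G M) (PM v A G M)) p (W.prQ hΩ hPA hAL hA) where
  same := W.prQ_same hΩ hPA hAL hA
  ne _ _ m hc := W.prQ_ne hΩ hPA hAL hA hc m
  dec := W.prQ_dec hΩ hPA hAL hA
  prF := W.prQ_fr hΩ hPA hAL hA

/-- A homogeneous operator shifts the degrees. -/
theorem shiftQ (D : DescM p v C P L LP G M T) (hop : Oper p v (PM v C G M) (PM v P G M) T)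
    (hPA : P ≤ A) (hAL : A ≤ LP) (hA : Cld v A) {φ : Opr v (PM v P G M)} (hφ : φ ∈ T) {δ : ℝ}
    (hδ : δ ∈ G) (hpres : ∀ e ∈ P, ∃ e' ∈ P, fn φ e = e' * M δ)
    {χ : MQ v (PM v LP G M) (PM v A G M) →ₗ[k] MQ v (PM v LP G M) (PM v A G M)}
    {Φ : Opr v (PM v LP G M)} (hΦ : IsExt (PM v L G M) φ Φ)
    (hB : ∀ b ∈ PM v A G M, fn Φ b ∈ PM v A G M)
    (hχ : ∀ (x : Ω) (hx : x ∈ LimS v (PM v LP G M) (PM v A G M))
      (hx' : fn Φ x ∈ LimS v (PM v LP G M) (PM v A G M)), χ (cl hx) = cl hx')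
    (c : ℝ ⧸ VG v P) (m : MQ v (PM v LP G M) (PM v A G M))
    (hm : (gw_of_desc D).prQ D.cpl hPA hAL hA c m = m) :
    (gw_of_desc D).prQ D.cpl hPA hAL hA (c + QuotientAddGroup.mk δ) (χ m) = χ m := by
  have W := gw_of_desc D
  by_cases h0 : m = 0
  · rw [h0, map_zero, map_zero]
  obtain ⟨d, hd, rfl⟩ : ∃ d ∈ G, (QuotientAddGroup.mk d : ℝ ⧸ VG v P) = c := by
    by_contra h
    obtain ⟨x, hx, rfl⟩ := exists_cl m
    rw [W.hom_iff D.cpl hPA hAL hA, W.prD_not D.cpl h, sub_zero] at hm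
    exact h0 ((cl_eq_zero hx).2 hm)
  -- the component
  obtain ⟨x, hx, rfl⟩ := exists_cl m
  obtain ⟨l, hl, h1⟩ := W.prd_form D.cpl hd hx.1
  have h2 : W.prD D.cpl (QuotientAddGroup.mk d) x = M d * l := by
    rw [W.prD_mk D.cpl hd hx.1, h1]
  have hy : M d * l ∈ LimS v (PM v LP G M) (PM v A G M) := by
    have := W.prD_lim D.cpl hPA hAL hA (QuotientAddGroup.mk d) hx
    rwa [h2] at this
  have h3 : cl hx = cl hy := by
    rw [W.hom_iff D.cpl hPA hAL hA, h2] at hm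
    rwa [cl_eq]
  have hΦy := fn_LimS (PM.mono hAL) hB hy
  rw [h3, hχ _ hy hΦy]
  obtain ⟨Q, hQ⟩ := exists_piH D.cpl D.mP D.imm D.cld hd
  obtain ⟨Q', hQ'⟩ := exists_piH D.cpl D.mP D.imm D.cld (G.add_mem hd hδ)
  have hlin : ∀ c ∈ PM v C G M, ∀ x ∈ PM v P G M, fn φ (c * x) = c * fn φ x := by
    intro c hc x hx
    have hcP : c ∈ PM v P G M := PM.mono D.CP hc
    rw [TWC.fn_of_mem φ (mul_mem hcP hx), TWC.fn_of_mem φ hx]
    exact congrArg (fun z : PM v P G M => (z : Ω)) (hop.lin φ hφ ⟨c, hcP⟩ hc ⟨x, hx⟩)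
  have h4 := D.commD hlin hδ hpres hd hQ hQ' hΦ ⟨M d * l, hy.1⟩
  have h5 : Q ⟨M d * l, hy.1⟩ = M d * l := by
    have h6 := hQ.mon l hl d hd (by rw [sub_self]; exact (VG v P).zero_mem)
    have e : (⟨M d * l, hy.1⟩ : PM v LP G M) = ⟨l * M d, mul_mem (PM.le hl) (PM.mon hd)⟩ :=
      Subtype.ext (mul_comm _ _)
    rw [e, h6, mul_comm]
  rw [h5] at h4
  obtain ⟨f, hf, h7⟩ := hQ'.sub LP D.imm le_rfl D.cld ⟨fn Φ (M d * l), fn_mem Φ _⟩ (fn_mem Φ _)
  have h8 : fn Φ (M d * l) = M (d + δ) * f := by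
    rw [h4, h7, mul_comm]
  have hz : M (d + δ) * f ∈ LimS v (PM v LP G M) (PM v A G M) := by
    rw [← h8]
    exact hΦy
  have h9 : cl hΦy = cl hz := by
    rw [cl_eq, h8, sub_self]
    exact GW.nr_zero
  rw [h9]
  exact W.hom_mon D.cpl hPA hAL hA (G.add_mem hd hδ) hf hz

/-- **The operators on the classes are combinations of homogeneous ones.** -/
theorem homQ (D : DescM p v C P L LP G M T) (hop : Oper p v (PM v C G M) (PM v P G M) T)
    (hom : ∃ S ⊆ (T : Set (Opr v (PM v P G M))), T ≤ Submodule.span k S ∧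
      ∀ φ ∈ S, ∃ δ ∈ G, ∀ e ∈ P, ∃ e' ∈ P, fn φ e = e' * M δ)
    (hPA : P ≤ A) (hAL : A ≤ LP) (hA : Cld v A) (hD : DExt v T (PM v L G M) (PM v LP G M))
    (hBL : PM v A G M ≤ PM v LP G M)
    (hst : ∀ φ ∈ T, ∀ Φ : Opr v (PM v LP G M), IsExt (PM v L G M) φ Φ → ∀ b ∈ PM v A G M,
      fn Φ b ∈ PM v A G M) :
    HomO (opsQ p hD hop hBL hst) ((gw_of_desc D).prQ D.cpl hPA hAL hA) := by
  obtain ⟨S, hST, hTS, hS⟩ := hom
  refine ⟨{χ | ∃ φ ∈ S, IsQ (PM v L G M) (PM v LP G M) (PM v A G M) φ χ}, ?_, ?_, ?_⟩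
  · rintro χ ⟨φ, hφ, h⟩
    exact ⟨φ, hST hφ, h⟩
  · rintro χ ⟨φ, hφ, Φ, hΦ, hχ⟩
    have key : ∀ φ ∈ Submodule.span k S, ∀ (hφT : φ ∈ T) (Φ : Opr v (PM v LP G M))
        (hΦ : IsExt (PM v L G M) φ Φ),
        actQ hBL (hst φ hφT Φ hΦ) ∈ Submodule.span k
          {χ | ∃ φ ∈ S, IsQ (PM v L G M) (PM v LP G M) (PM v A G M) φ χ} := by
      have hSpT : Submodule.span k S ≤ T := Submodule.span_le.2 hST
      intro φ hφ
      induction hφ using Submodule.span_induction with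
      | mem φ h => exact fun hφT Φ hΦ => Submodule.subset_span ⟨φ, h, Φ, hΦ, fun _ _ _ => rfl⟩
      | zero =>
        intro hφT Φ hΦ
        have e : actQ hBL (hst 0 hφT Φ hΦ) = 0 := by
          refine LinearMap.ext fun m => ?_
          obtain ⟨x, hx, rfl⟩ := exists_cl m
          rw [actQ_cl, LinearMap.zero_apply, cl_eq_zero, hΦ.uniq hD isExt_zero hx.1, fn_opr_zero]
          exact GW.nr_zero
        rw [e]
        exact zero_mem _
      | add φ ψ hφ hψ ih1 ih2 =>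
        intro hφT Φ hΦ
        obtain ⟨Φ₁, h1⟩ := hD.ext φ (hSpT hφ)
        obtain ⟨Φ₂, h2⟩ := hD.ext ψ (hSpT hψ)
        have e : actQ hBL (hst _ hφT Φ hΦ) = actQ hBL (hst φ (hSpT hφ) Φ₁ h1) +
            actQ hBL (hst ψ (hSpT hψ) Φ₂ h2) := by
          refine LinearMap.ext fun m => ?_
          obtain ⟨x, hx, rfl⟩ := exists_cl m
          rw [LinearMap.add_apply, actQ_cl, actQ_cl, actQ_cl, ← cl_add, cl_eq,
            hΦ.uniq hD (isExt_add hD h1 h2) hx.1, fn_opr_add _ _ hx.1, sub_self]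
          exact GW.nr_zero
        rw [e]
        exact add_mem (ih1 (hSpT hφ) Φ₁ h1) (ih2 (hSpT hψ) Φ₂ h2)
      | smul a φ hφ ih =>
        intro hφT Φ hΦ
        obtain ⟨Φ₁, h1⟩ := hD.ext φ (hSpT hφ)
        have e : actQ hBL (hst _ hφT Φ hΦ) = a • actQ hBL (hst φ (hSpT hφ) Φ₁ h1) := by
          refine LinearMap.ext fun m => ?_
          obtain ⟨x, hx, rfl⟩ := exists_cl m
          rw [LinearMap.smul_apply, actQ_cl, actQ_cl, ← cl_smul, cl_eq,
            hΦ.uniq hD (isExt_smul hD a h1) hx.1, fn_opr_smul _ _ hx.1, sub_self]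
          exact GW.nr_zero
        rw [e]
        exact Submodule.smul_mem _ _ (ih (hSpT hφ) Φ₁ h1)
    have e : χ = actQ hBL (hst φ hφ Φ hΦ) := by
      refine LinearMap.ext fun m => ?_
      obtain ⟨x, hx, rfl⟩ := exists_cl m
      exact hχ x hx _
    rw [e]
    exact key φ (hTS hφ) hφ Φ hΦ
  · rintro χ ⟨φ, hφ, Φ, hΦ, hχ⟩
    obtain ⟨δ, hδ, hpres⟩ := hS φ hφ
    exact ⟨QuotientAddGroup.mk δ, fun c m hm => shiftQ D hop hPA hAL hA (hST hφ) hδ hpres hΦ
      (hst φ (hST hφ) Φ hΦ) hχ c m hm⟩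

/-! ### Generators -/

/-- The finite dimensional spaces are killed by the products of `m` operators. -/
theorem zk_fgQ {C E L LE B : IntermediateField k Ω} {T : Submodule k (Opr v E)}
    (hD : DExt v T L LE) (hT : Oper p v C E T) (hBL : B ≤ LE)
    (hst : ∀ φ ∈ T, ∀ Φ : Opr v LE, IsExt L φ Φ → ∀ b ∈ B, fn Φ b ∈ B)
    (hN : NilpB v T L LE) (hBc : Cld v B) (hEB : E ≤ B)
    {S : Submodule k (MQ v LE B)} (hS : S.FG) : ∃ m, S ≤ Zk (opsQ p hD hT hBL hst) m := by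
  refine Submodule.fg_induction (motive := fun S _ => ∃ m, S ≤ Zk (opsQ p hD hT hBL hst) m)
    ?_ ?_ S hS
  · intro m
    obtain ⟨x, hx, rfl⟩ := exists_cl m
    obtain ⟨n, hn⟩ := hN.nil B hBc hEB hBL hst x hx.1 hx.2
    refine ⟨n, ?_⟩
    rw [Submodule.span_singleton_le_iff_mem]
    exact kil_ZkQ p hD hT hBL hst n hx hn
  · rintro S S' _ _ ⟨m, hm⟩ ⟨m', hm'⟩
    exact ⟨max m m', sup_le (hm.trans (Zk_mono _ (le_max_left _ _)))
      (hm'.trans (Zk_mono _ (le_max_right _ _)))⟩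

section Fev

variable {T' B : IntermediateField k Ω}

omit [PerfectRing k p] in
theorem fev_LimS (P : k[X]) {x : Ω} (hx : x ∈ LimS v T' B) : fev p P x ∈ LimS v T' B :=
  sum_mem fun a _ => by
    rw [← Algebra.smul_def]
    exact Submodule.smul_mem _ _ (pow_pow_LimS hx a)

omit [PerfectRing k p] in
theorem frQ_iter (j : ℕ) {x : Ω} (hx : x ∈ LimS v T' B) :
    (frQ p v T' B)^[j] (cl hx) = cl (pow_pow_LimS (p := p) hx j) := by
  induction j with
  | zero =>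
    rw [Function.iterate_zero_apply, cl_eq, pow_zero, pow_one, sub_self]
    exact GW.nr_zero
  | succ j ih =>
    rw [Function.iterate_succ_apply', ih, frQ_cl, cl_eq, ← pow_mul, ← pow_succ, sub_self]
    exact GW.nr_zero

/-- The class of the value of an additive polynomial. -/
theorem cl_fevQ (P : k[X]) {x : Ω} (hx : x ∈ LimS v T' B) :
    cl (fev_LimS (p := p) P hx) = opF (frQ p v T' B) P (cl hx) := by
  have h1 : ∀ a, P.coeff a • x ^ p ^ a ∈ LimS v T' B := fun a =>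
    Submodule.smul_mem _ _ (pow_pow_LimS hx a)
  have h2 : opF (frQ p v T' B) P (cl hx) = ∑ a ∈ P.support, cl (h1 a) := by
    rw [opF, Polynomial.sum]
    exact Finset.sum_congr rfl fun a _ => by rw [frQ_iter]; rfl
  rw [h2, ← cl_sum P.support h1, cl_eq, fev]
  simp only [Algebra.smul_def, sub_self]
  exact GW.nr_zero

end Fev

/-- **Homogeneous generators.** -/
theorem exists_genQ [IsAlgClosed Ω] (W : GW v P LP G M) (hΩ : CompleteV v) (hPA : P ≤ A)
    (hAL : A ≤ LP) (hA : Cld v A) {n : ℕ} (hT : Tow v n (PM v A G M) (PM v LP G M)) :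
    ∃ U : Submodule k (MQ v (PM v LP G M) (PM v A G M)), U.FG ∧
      Gr (W.prQ hΩ hPA hAL hA) U ∧ RS (frQ p v (PM v LP G M) (PM v A G M)) U = ⊤ := by
  classical
  obtain ⟨m, r, w, hr, hw, hgen⟩ := W.exists_hgens (p := p) hPA hAL hT
  have ha : ∀ i, M (-r i) * w i ∈ LimS v (PM v LP G M) (PM v A G M) := by
    intro i
    have hm : M (-r i) ∈ PM v A G M := PM.mon (G.neg_mem (hr i))
    refine ⟨mul_mem (PM.mon (G.neg_mem (hr i))) (PM.le (hw i).1), fun ε hε => ?_⟩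
    obtain ⟨b, hb, h1⟩ := (hw i).2 ε hε
    refine ⟨M (-r i) * b, mul_mem hm (PM.le hb), ?_⟩
    rw [← mul_sub]
    have h2 : v.Ge (-r i) (M (-r i)) := fun _ => (W.ms.val _ (G.neg_mem (hr i))).ge
    refine (h2.mul h1).mono (le_of_eq ?_)
    ring
  refine ⟨Submodule.span k (Set.range fun i => cl (ha i)), Submodule.fg_span (Set.finite_range _),
    ?_, ?_⟩
  · intro c x hx
    induction hx using Submodule.span_induction with
    | mem x h =>
      obtain ⟨i, rfl⟩ := h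
      have h1 := W.hom_mon hΩ hPA hAL hA (G.neg_mem (hr i)) (hw i).1 (ha i)
      dsimp only
      by_cases hc : c = QuotientAddGroup.mk (-r i)
      · rw [hc, h1]
        exact Submodule.subset_span ⟨i, rfl⟩
      · rw [← h1, W.prQ_ne hΩ hPA hAL hA hc]
        exact zero_mem _
    | zero => rw [map_zero]; exact zero_mem _
    | add a b _ _ h1 h2 => rw [map_add]; exact add_mem h1 h2
    | smul a b _ h1 => rw [map_smul]; exact Submodule.smul_mem _ _ h1
  · rw [← top_le_iff]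
    rintro m -
    obtain ⟨x, hx, rfl⟩ := exists_cl m
    obtain ⟨Q, b, hb, h1⟩ := hgen x hx.1 hx.2
    have h2 : ∀ i, fev p (Q i) (M (-r i) * w i) ∈ LimS v (PM v LP G M) (PM v A G M) := fun i =>
      fev_LimS (Q i) (ha i)
    have h3 : cl hx = ∑ i, cl (h2 i) := by
      rw [← cl_sum Finset.univ h2, cl_eq]
      refine ⟨b, hb, ?_⟩
      rwa [sub_right_comm]
    rw [h3]
    refine sum_mem fun i _ => ?_
    have h4 : cl (h2 i) = opF (frQ p v (PM v LP G M) (PM v A G M)) (Q i) (cl (ha i)) :=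
      cl_fevQ (Q i) (ha i)
    rw [h4]
    exact opF_mem_RS _ (le_RS (Submodule.subset_span ⟨i, rfl⟩))

/-- **The adapted homogeneous basis of the classes.** -/
theorem exists_adbQ [IsAlgClosed Ω] (D : DescM p v C P L LP G M T)
    (hop : Oper p v (PM v C G M) (PM v P G M) T)
    (hN : NilpB v T (PM v L G M) (PM v LP G M))
    (hom : ∃ S ⊆ (T : Set (Opr v (PM v P G M))), T ≤ Submodule.span k S ∧
      ∀ φ ∈ S, ∃ δ ∈ G, ∀ e ∈ P, ∃ e' ∈ P, fn φ e = e' * M δ)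
    (hPA : P ≤ A) (hAL : A ≤ LP) (hA : Cld v A) (hD : DExt v T (PM v L G M) (PM v LP G M))
    (hBL : PM v A G M ≤ PM v LP G M)
    (hst : ∀ φ ∈ T, ∀ Φ : Opr v (PM v LP G M), IsExt (PM v L G M) φ Φ → ∀ b ∈ PM v A G M,
      fn Φ b ∈ PM v A G M)
    (h1 : ∀ Y : Submodule k (MQ v (PM v LP G M) (PM v A G M)), Y.FG →
      Y.map (frQ p v (PM v LP G M) (PM v A G M)) ≤ Y ⊔ act (opsQ p hD hop hBL hst) Y → Y = ⊥)
    {n : ℕ} (hT : Tow v n (PM v A G M) (PM v LP G M)) :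
    ∃ (r : ℕ) (b : Fin r → MQ v (PM v LP G M) (PM v A G M)) (δ : Fin r → ℝ ⧸ VG v P),
      Adb (opsQ p hD hop hBL hst) ((gw_of_desc D).prQ D.cpl hPA hAL hA) ⊤ b δ := by
  have hEB : PM v P G M ≤ PM v A G M := PM.mono hPA
  obtain ⟨O, hO⟩ : ∃ O, O = opsQ p hD hop hBL hst := ⟨_, rfl⟩
  have hG := grdQ (p := p) (gw_of_desc D) D.cpl hPA hAL hA
  have hOm := homQ D hop hom hPA hAL hA hD hBL hst
  rw [← hO] at h1 hOm ⊢
  obtain ⟨U, hU, hUg, hUt⟩ := exists_genQ (p := p) (gw_of_desc D) D.cpl hPA hAL hA hT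
  have hact : (act O U).FG := by
    rw [hO]
    exact act_fgQ p hD hop hBL hst hN PM.cld hEB hU
  have hU₀ : (U ⊔ act O U).FG := hU.sup hact
  have hst₀ : act O (U ⊔ act O U) ≤ U ⊔ act O U :=
    act_sup_le.trans (sup_le le_sup_right (act_act_le.trans le_sup_right))
  obtain ⟨m, hm⟩ : ∃ m, U ≤ Zk O m := by
    rw [hO]
    exact zk_fgQ hD hop hBL hst hN PM.cld hEB hU
  have hU₀Z : U ⊔ act O U ≤ Zk O (m + 1) :=
    sup_le (hm.trans (Zk_le_succ O _)) ((act_mono (hm.trans (Zk_le_succ O _))).trans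
      ((act_Zk_le O _).trans (Zk_le_succ O _)))
  have hr : (act O)^[m + 1] (U ⊔ act O U) = ⊥ :=
    le_bot_iff.1 ((act_it_mono _ hU₀Z).trans (act_it_Zk O _).le)
  have htop : RS (frQ p v (PM v LP G M) (PM v A G M)) (U ⊔ act O U) = ⊤ := by
    rw [← top_le_iff, ← hUt]
    exact RS_mono le_sup_left
  have hsat : TWC.Sat (frQ p v (PM v LP G M) (PM v A G M))
      (RS (frQ p v (PM v LP G M) (PM v A G M)) (U ⊔ act O U)) =
      RS (frQ p v (PM v LP G M) (PM v A G M)) (U ⊔ act O U) := by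
    rw [htop]
    exact top_le_iff.1 (le_Sat le_top)
  have hflag := TWC.flag (O := O) (sat_bot_of_one h1) hU₀ hst₀ hr hsat
    (fun Y _ hY b hb hs => hno_of_one h1 Y hY b hb hs)
  have h2 := exists_adapted hG (degQ D) (PerfectRing.bijective_frobenius (R := k) (p := p)).2 hU₀
    (gr_sup hUg (hG.gr_act hOm hUg)) hsat (by rw [htop]; exact le_top) hOm hflag
  rwa [htop] at h2

end Pool.Agent.TWHT
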