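import Pool.Agent.Lib.TWC.SD

/-!
# TANK W, leaf (Ht), row H5: dominated subspaces, Horner's scheme

* `exists_horner`: if `F^b x ∈ ∑_{a < b} F^a Z` then `x` lies in a finite dimensional `X` with
  `F X ≤ X + Z`;
* `hno_of_one`: if `F Y ≤ Y + A Y` implies `Y = 0` then there is no nonzero strictly dominated
  subspace;
* `sat_bot_of_one`: and there is no torsion.
-/

set_option autoImplicit false

namespace Pool.Agent.TWHT

open Module Submodule Pool.Agent.TWC

universe u w

variable {k : Type u} {G : Type w} [Field k] [AddCommGroup G] [Module k G]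
variable {σ : k →+* k} [RingHomSurjective σ] {F : G →ₛₗ[σ] G}

/-- **Horner's scheme.** -/
theorem exists_horner (b : ℕ) : ∀ (Z : Submodule k G) (x : G), F^[b + 1] x ∈ V F Z (b + 1) →
    ∃ X : Submodule k G, X.FG ∧ x ∈ X ∧ X.map F ≤ X ⊔ Z := by
  induction b with
  | zero =>
    intro Z x hx
    refine ⟨span k {x}, fg_span_singleton x, mem_span_singleton_self x, ?_⟩
    rw [Submodule.map_span_le]
    rintro y rfl
    have h1 : F y ∈ V F Z 1 := hx
    rw [V_succ, V_zero, Submodule.map_bot, sup_bot_eq] at h1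
    exact mem_sup_right h1
  | succ b ih =>
    intro Z x hx
    rw [V_succ] at hx
    obtain ⟨z, hz, _, ⟨y, hy, rfl⟩, h⟩ := mem_sup.1 hx
    rw [Function.iterate_succ_apply'] at h
    obtain ⟨q, hq⟩ : ∃ q, q = F^[b + 1] x - y := ⟨_, rfl⟩
    have hx' : F q = z := by
      rw [hq, map_sub, ← h]
      abel
    have e : F^[b + 1] x = y + q := by
      rw [hq]
      abel
    obtain ⟨X, hX, hxX, hXF⟩ := ih (Z ⊔ span k {q}) x (by
      rw [e]
      exact add_mem (V_mono_left le_sup_left _ hy)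
        (le_V _ (mem_sup_right (mem_span_singleton_self _))))
    refine ⟨X ⊔ span k {q}, hX.sup (fg_span_singleton _), mem_sup_left hxX, ?_⟩
    rw [Submodule.map_sup]
    refine sup_le (hXF.trans ?_) ?_
    · refine sup_le (le_sup_left.trans le_sup_left) (sup_le le_sup_right ?_)
      exact le_sup_right.trans le_sup_left
    · rw [Submodule.map_span_le]
      rintro q rfl
      rw [hx']
      exact mem_sup_right hz

variable {O : Ops F}

/-- **No strictly dominated subspaces**, from the case `b = 1`. -/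
theorem hno_of_one
    (h1 : ∀ Y : Submodule k G, Y.FG → Y.map F ≤ Y ⊔ act O Y → Y = ⊥)
    (Y : Submodule k G) (hY : Y.FG) (b : ℕ) (hb : 1 ≤ b)
    (h : ∀ y ∈ Y, F^[b] y ∈ V F (Y ⊔ act O Y) b) : Y = ⊥ := by
  obtain ⟨b, rfl⟩ : ∃ c, b = c + 1 := ⟨b - 1, by omega⟩
  obtain ⟨s, hs⟩ := hY
  have h2 : ∀ y ∈ s, ∃ X : Submodule k G, X.FG ∧ y ∈ X ∧ X.map F ≤ X ⊔ (Y ⊔ act O Y) :=
    fun y hy => exists_horner b _ y (h y (hs ▸ subset_span hy))
  choose! X hX hyX hXF using h2
  have hZ : (s.sup X).FG := by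
    rw [Finset.sup_eq_iSup]
    exact Submodule.fg_biSup s X hX
  have hYX : Y ≤ s.sup X := by
    rw [← hs, span_le]
    exact fun y hy => (Finset.le_sup hy : X y ≤ s.sup X) (hyX y hy)
  have h3 := h1 (s.sup X) hZ (by
    rw [Submodule.map_le_iff_le_comap]
    refine Finset.sup_le fun y hy => ?_
    rw [← Submodule.map_le_iff_le_comap]
    refine (hXF y hy).trans (sup_le ((Finset.le_sup hy).trans le_sup_left) ?_)
    exact sup_le (hYX.trans le_sup_left) ((act_mono hYX).trans le_sup_right))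
  exact le_bot_iff.1 (hYX.trans h3.le)

/-- **No torsion.** -/
theorem sat_bot_of_one
    (h1 : ∀ Y : Submodule k G, Y.FG → Y.map F ≤ Y ⊔ act O Y → Y = ⊥) :
    Sat F (⊥ : Submodule k G) = ⊥ := by
  refine le_bot_iff.1 ?_
  rintro z ⟨T, hT, hz⟩
  have hW : (span k (Set.range fun c => F^[c] z)).FG := by
    refine hT.of_le ?_
    rw [span_le]
    rintro _ ⟨c, rfl⟩
    have := hz c
    rwa [bot_sup_eq] at this
  have h2 := h1 _ hW (by
    rw [Submodule.map_span_le]
    rintro _ ⟨c, rfl⟩
    exact mem_sup_left (subset_span ⟨c + 1, Function.iterate_succ_apply' F c z⟩))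
  have h3 : z ∈ span k (Set.range fun c => F^[c] z) := subset_span ⟨0, rfl⟩
  rwa [h2] at h3

end Pool.Agent.TWHT
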