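import Pool.Agent.Lib.TWHT.GrA
import Pool.Agent.Lib.TWHT.NilB
import Pool.Agent.Lib.TWHT.Horn
import Pool.Agent.Lib.TWS.MonL
import Pool.Agent.Lib.TWIV.ZBas
import Pool.Agent.Lib.TWC.Flag2

/-!
# TANK W, leaf (Ht), row H5: the operators on the classes of the limits of a stable field

`T` operators of `E`, `LE` the closure of `L E`, `B` a field between `E` and `LE`, stable under the
`L`-linear extensions of the operators of `T`.
* `opsQ`: the operators on the classes `MQ v LE B` of the limits of `B` in `LE`;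
* `act_fgQ`, `kil_ZkQ`: finiteness and nilpotency.
-/

set_option autoImplicit false
set_option linter.unusedSectionVars false

open Polynomial

namespace Pool.Agent.TWHT

open Pool.Agent.H15JM (RVal)
open Pool.Agent.LU1 (VPos adj)
open Pool.Agent.D2 (Ctx0)
open Pool.Agent.D2P (hen clI mem_clI)
open Pool.Agent.TWM Pool.Agent.TWS Pool.Agent.TWIV
open Pool.Agent.TWC (Opr fn fn_mem fn_add fn_smul fn_near fn_opr_add fn_opr_zero fn_opr_smul
  fn_opr_mul IsExt Desc Oper DExt KilB V RS Ops act act_le act_mono act_sup_le act_act_le mem_act Zk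
  Zk_mono Zk_le_succ act_Zk_le act_it_Zk act_it_mono fg_of_le_fg le_Sat RS_mono nr_fn lim_fn fn_sum'
  eq_of_ge)

universe u

variable {k Ω : Type u} [Field k] [Field Ω] [Algebra k Ω] {v : RVal Ω} [hcx : Fact (Ctx0 k v)]
  {C E L LE B : IntermediateField k Ω} {T : Submodule k (Opr v E)}

/-! ### Extensions -/

section Ext

theorem isExt_zero : IsExt L (0 : Opr v E) (0 : Opr v LE) :=
  ⟨fun e _ => by rw [fn_opr_zero, fn_opr_zero], fun l _ y _ => by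
    rw [fn_opr_zero, fn_opr_zero, mul_zero]⟩

theorem isExt_add (hD : DExt v T L LE) {φ ψ : Opr v E} {Φ Ψ : Opr v LE} (h1 : IsExt L φ Φ)
    (h2 : IsExt L ψ Ψ) : IsExt L (φ + ψ) (Φ + Ψ) :=
  ⟨fun e he => by
    rw [fn_opr_add _ _ (hD.leE he), fn_opr_add _ _ he, h1.eq e he, h2.eq e he], fun l hl y hy => by
    rw [fn_opr_add _ _ (mul_mem (hD.leL hl) hy), fn_opr_add _ _ hy, h1.lin l hl y hy,
      h2.lin l hl y hy, mul_add]⟩

theorem isExt_smul (hD : DExt v T L LE) (a : k) {φ : Opr v E} {Φ : Opr v LE} (h1 : IsExt L φ Φ) :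
    IsExt L (a • φ) (a • Φ) :=
  ⟨fun e he => by
    rw [fn_opr_smul _ _ (hD.leE he), fn_opr_smul _ _ he, h1.eq e he], fun l hl y hy => by
    rw [fn_opr_smul _ _ (mul_mem (hD.leL hl) hy), fn_opr_smul _ _ hy, h1.lin l hl y hy,
      mul_smul_comm]⟩

theorem isExt_mul (hD : DExt v T L LE) {φ ψ : Opr v E} {Φ Ψ : Opr v LE} (h1 : IsExt L φ Φ)
    (h2 : IsExt L ψ Ψ) : IsExt L (φ * ψ) (Φ * Ψ) :=
  ⟨fun e he => by
    rw [fn_opr_mul _ _ (hD.leE he), fn_opr_mul _ _ he, h2.eq e he, h1.eq _ (fn_mem _ _)],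
    fun l hl y hy => by
    rw [fn_opr_mul _ _ (mul_mem (hD.leL hl) hy), fn_opr_mul _ _ hy, h2.lin l hl y hy,
      h1.lin l hl _ (fn_mem _ _)]⟩

/-- The extension commutes with the Frobenius. -/
theorem ext_pow (p : ℕ) [hp : Fact p.Prime] [CharP Ω p] (hD : DExt v T L LE) {φ φ' : Opr v E}
    (h : ∀ e ∈ E, fn φ (e ^ p) = fn φ' e ^ p) {Φ Φ' : Opr v LE} (hΦ : IsExt L φ Φ)
    (hΦ' : IsExt L φ' Φ') {x : Ω} (hx : x ∈ LE) : fn Φ (x ^ p) = fn Φ' x ^ p := by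
  refine eq_of_ge (v := v) fun b => ?_
  have hp0 : (p : ℝ) ≠ 0 := by exact_mod_cast hp.out.ne_zero
  obtain ⟨n, l, e, hl, he, h3⟩ := hD.dense x hx (b / p)
  obtain ⟨y, hy⟩ : ∃ y, y = ∑ i, l i * e i := ⟨_, rfl⟩
  rw [← hy] at h3
  have hyL : y ∈ LE := by
    rw [hy]
    exact sum_mem fun i _ => mul_mem (hD.leL (hl i)) (hD.leE (he i))
  have h4 : fn Φ (y ^ p) = ∑ i, l i ^ p * fn φ (e i ^ p) := by
    have e1 : y ^ p = ∑ i, l i ^ p * e i ^ p := by
      rw [hy, sum_pow_char]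
      exact Finset.sum_congr rfl fun i _ => mul_pow _ _ _
    rw [e1, fn_sum' Φ _ fun i _ => mul_mem (hD.leL (pow_mem (hl i) p)) (hD.leE (pow_mem (he i) p))]
    refine Finset.sum_congr rfl fun i _ => ?_
    rw [hΦ.lin _ (pow_mem (hl i) p) _ (hD.leE (pow_mem (he i) p)), hΦ.eq _ (pow_mem (he i) p)]
  have h5 : fn Φ' y = ∑ i, l i * fn φ' (e i) := by
    rw [hy, fn_sum' Φ' _ fun i _ => mul_mem (hD.leL (hl i)) (hD.leE (he i))]
    refine Finset.sum_congr rfl fun i _ => ?_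
    rw [hΦ'.lin _ (hl i) _ (hD.leE (he i)), hΦ'.eq _ (he i)]
  have h6 : fn Φ (y ^ p) = fn Φ' y ^ p := by
    rw [h4, h5, sum_pow_char]
    exact Finset.sum_congr rfl fun i _ => by rw [mul_pow, h _ (he i)]
  have e1 : fn Φ (x ^ p) - fn Φ' x ^ p =
      (fn Φ (x ^ p) - fn Φ (y ^ p)) - (fn Φ' x - fn Φ' y) ^ p := by
    rw [h6, sub_pow_char]
    ring
  rw [e1]
  have h7 := ge_pow (fn_near Φ' hx hyL h3) p
  rw [mul_div_cancel₀ _ hp0] at h7
  refine RVal.Ge.sub (fn_near Φ (pow_mem hx p) (pow_mem hyL p) ?_) h7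
  rw [← sub_pow_char]
  have h8 := ge_pow h3 p
  rwa [mul_div_cancel₀ _ hp0] at h8

end Ext

/-! ### The operators on the classes -/

section Q

theorem fn_LimS (hBL : B ≤ LE) {Φ : Opr v LE} (hB : ∀ b ∈ B, fn Φ b ∈ B) {x : Ω}
    (hx : x ∈ LimS v LE B) : fn Φ x ∈ LimS v LE B :=
  ⟨fn_mem Φ x, lim_fn hBL hB hx.1 hx.2⟩

/-- The operator on the limits. -/
noncomputable def actL (hBL : B ≤ LE) {Φ : Opr v LE} (hB : ∀ b ∈ B, fn Φ b ∈ B) :
    LimS v LE B →ₗ[k] LimS v LE B where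
  toFun x := ⟨fn Φ x, fn_LimS hBL hB x.2⟩
  map_add' x y := Subtype.ext (fn_add Φ x.2.1 y.2.1)
  map_smul' a x := Subtype.ext (fn_smul Φ a x.2.1)

/-- The operator on the classes. -/
noncomputable def actQ (hBL : B ≤ LE) {Φ : Opr v LE} (hB : ∀ b ∈ B, fn Φ b ∈ B) :
    MQ v LE B →ₗ[k] MQ v LE B :=
  Submodule.mapQ _ _ (actL hBL hB) fun x hx => by
    rw [Submodule.mem_comap] at hx ⊢
    rw [Submodule.mem_comap]
    exact ⟨fn_mem Φ _, nr_fn hBL hB x.2.1 hx.2⟩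

theorem actQ_cl (hBL : B ≤ LE) {Φ : Opr v LE} (hB : ∀ b ∈ B, fn Φ b ∈ B) {x : Ω}
    (hx : x ∈ LimS v LE B) : actQ hBL hB (cl hx) = cl (fn_LimS hBL hB hx) := rfl

/-- The classes in `Ω / (B + O)`. -/
noncomputable def emb (v : RVal Ω) [Fact (Ctx0 k v)] (LE B : IntermediateField k Ω) :
    MQ v LE B →ₗ[k] Ω ⧸ NrS v (⊤ : IntermediateField k Ω) B :=
  Submodule.mapQ _ _ (LimS v LE B).subtype fun _ hx => ⟨IntermediateField.mem_top, hx.2⟩

theorem emb_cl {x : Ω} (hx : x ∈ LimS v LE B) :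
    emb v LE B (cl hx) = Submodule.Quotient.mk x := rfl

theorem emb_inj : Function.Injective (emb v LE B) := by
  rw [injective_iff_map_eq_zero]
  intro m hm
  obtain ⟨x, hx, rfl⟩ := exists_cl m
  rw [emb_cl, Submodule.Quotient.mk_eq_zero] at hm
  exact (cl_eq_zero hx).2 hm.2

variable (p : ℕ) [hp : Fact p.Prime] [CharP k p] [CharP Ω p] [PerfectRing k p]

/-- `χ` is the action of `φ` on the classes. -/
def IsQ (L : IntermediateField k Ω) (LE B : IntermediateField k Ω) (φ : Opr v E)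
    (χ : MQ v LE B →ₗ[k] MQ v LE B) : Prop :=
  ∃ Φ : Opr v LE, IsExt L φ Φ ∧ ∀ (x : Ω) (hx : x ∈ LimS v LE B) (hx' : fn Φ x ∈ LimS v LE B),
    χ (cl hx) = cl hx'

variable (hD : DExt v T L LE) (hT : Oper p v C E T) (hBL : B ≤ LE)
  (hst : ∀ φ ∈ T, ∀ Φ : Opr v LE, IsExt L φ Φ → ∀ b ∈ B, fn Φ b ∈ B)

/-- The operators on the classes. -/
noncomputable def opsQ : Ops (frQ p v LE B) where
  A :=
    { carrier := {χ | ∃ φ ∈ T, IsQ L LE B φ χ}
      add_mem' := by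
        rintro χ χ' ⟨φ, hφ, Φ, hΦ, h1⟩ ⟨φ', hφ', Φ', hΦ', h2⟩
        refine ⟨φ + φ', add_mem hφ hφ', Φ + Φ', isExt_add hD hΦ hΦ', fun x hx hx' => ?_⟩
        have h3 := fn_LimS hBL (hst φ hφ Φ hΦ) hx
        have h4 := fn_LimS hBL (hst φ' hφ' Φ' hΦ') hx
        rw [LinearMap.add_apply, h1 x hx h3, h2 x hx h4, ← cl_add, cl_eq, fn_opr_add _ _ hx.1,
          sub_self]
        exact GW.nr_zero
      zero_mem' := ⟨0, zero_mem T, 0, isExt_zero, fun x hx hx' => by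
        rw [LinearMap.zero_apply, eq_comm, cl_eq_zero, fn_opr_zero]
        exact GW.nr_zero⟩
      smul_mem' := by
        rintro a χ ⟨φ, hφ, Φ, hΦ, h1⟩
        refine ⟨a • φ, T.smul_mem a hφ, a • Φ, isExt_smul hD a hΦ, fun x hx hx' => ?_⟩
        have h3 := fn_LimS hBL (hst φ hφ Φ hΦ) hx
        rw [LinearMap.smul_apply, h1 x hx h3, ← cl_smul, cl_eq, fn_opr_smul _ _ hx.1, sub_self]
        exact GW.nr_zero }
  comp_mem := by
    rintro χ ⟨φ, hφ, Φ, hΦ, h1⟩ χ' ⟨φ', hφ', Φ', hΦ', h2⟩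
    refine ⟨φ * φ', hT.mul φ hφ φ' hφ', Φ * Φ', isExt_mul hD hΦ hΦ', fun x hx hx' => ?_⟩
    have h4 := fn_LimS hBL (hst φ' hφ' Φ' hΦ') hx
    have h3 := fn_LimS hBL (hst φ hφ Φ hΦ) h4
    rw [LinearMap.comp_apply, h2 x hx h4, h1 _ h4 h3, cl_eq, fn_opr_mul _ _ hx.1, sub_self]
    exact GW.nr_zero
  tw := by
    rintro χ ⟨φ, hφ, Φ, hΦ, h1⟩
    obtain ⟨φ', hφ', htw⟩ := hT.tw φ hφ
    obtain ⟨Φ', hΦ'⟩ := hD.ext φ' hφ'
    have hB' := hst φ' hφ' Φ' hΦ'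
    refine ⟨actQ hBL hB', ⟨φ', hφ', Φ', hΦ', fun x hx hx' => rfl⟩, fun m => ?_⟩
    obtain ⟨x, hx, rfl⟩ := exists_cl m
    have h3 := fn_LimS hBL (hst φ hφ Φ hΦ) (pow_LimS (p := p) hx)
    rw [frQ_cl, actQ_cl, frQ_cl, h1 _ _ h3, cl_eq, ext_pow p hD (fun e he => ?_) hΦ hΦ' hx.1,
      sub_self]
    · exact GW.nr_zero
    · rw [TWC.fn_of_mem φ (pow_mem he p), TWC.fn_of_mem φ' he]
      have := congrArg (fun z : E => (z : Ω)) (htw ⟨e, he⟩)
      exact this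

theorem mem_opsQ {χ : MQ v LE B →ₗ[k] MQ v LE B} :
    χ ∈ (opsQ p hD hT hBL hst).A ↔ ∃ φ ∈ T, IsQ L LE B φ χ := Iff.rfl

theorem actQ_mem {φ : Opr v E} (hφ : φ ∈ T) {Φ : Opr v LE} (hΦ : IsExt L φ Φ) :
    actQ hBL (hst φ hφ Φ hΦ) ∈ (opsQ p hD hT hBL hst).A :=
  ⟨φ, hφ, Φ, hΦ, fun _ _ _ => rfl⟩

/-- The operators send a space of finite dimension in a space of finite dimension. -/
theorem act_fgQ (hN : NilpB v T L LE) (hBc : Cld v B) (hEB : E ≤ B)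
    {S : Submodule k (MQ v LE B)} (hS : S.FG) : (act (opsQ p hD hT hBL hst) S).FG := by
  refine Submodule.fg_induction (motive := fun S _ => (act (opsQ p hD hT hBL hst) S).FG) ?_ ?_ S hS
  · intro m
    obtain ⟨x, hx, rfl⟩ := exists_cl m
    obtain ⟨n, s, hs⟩ := hN.fd B hBc hEB hBL hst x hx.1 hx.2
    have h1 : (act (opsQ p hD hT hBL hst) (Submodule.span k {cl hx})).map (emb v LE B) ≤
        Submodule.span k (Set.range fun i => (Submodule.Quotient.mk (s i) :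
          Ω ⧸ NrS v (⊤ : IntermediateField k Ω) B)) := by
      rw [Submodule.map_le_iff_le_comap, act_le]
      rintro χ ⟨φ, hφ, Φ, hΦ, hχ⟩ y hy
      obtain ⟨a, rfl⟩ := Submodule.mem_span_singleton.1 hy
      rw [Submodule.mem_comap, map_smul, map_smul]
      refine Submodule.smul_mem _ _ ?_
      rw [hχ x hx (fn_LimS hBL (hst φ hφ Φ hΦ) hx), emb_cl]
      obtain ⟨c, hc⟩ := hs φ hφ Φ hΦ
      have h2 : (Submodule.Quotient.mk (fn Φ x) : Ω ⧸ NrS v (⊤ : IntermediateField k Ω) B) =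
          ∑ i, c i • Submodule.Quotient.mk (s i) := by
        have h3 : (Submodule.Quotient.mk (fn Φ x - ∑ i, c i • s i) :
            Ω ⧸ NrS v (⊤ : IntermediateField k Ω) B) = 0 := by
          rw [Submodule.Quotient.mk_eq_zero]
          refine ⟨IntermediateField.mem_top, ?_⟩
          simp only [Algebra.smul_def]
          exact hc
        rw [Submodule.Quotient.mk_sub, sub_eq_zero] at h3
        rw [h3]
        exact map_sum (Submodule.mkQ _) _ _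
      rw [h2]
      exact sum_mem fun i _ => Submodule.smul_mem _ _ (Submodule.subset_span ⟨i, rfl⟩)
    have h2 := fg_of_le_fg h1 (Submodule.fg_span (Set.finite_range _))
    exact Submodule.fg_of_fg_map_injective _ emb_inj h2
  · intro S S' _ _ h1 h2
    exact fg_of_le_fg act_sup_le (h1.sup h2)

/-- Nilpotency. -/
theorem kil_ZkQ (m : ℕ) {x : Ω} (hx : x ∈ LimS v LE B) (hK : KilB T L LE B m x) :
    cl hx ∈ Zk (opsQ p hD hT hBL hst) m := by
  induction m generalizing x with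
  | zero => exact (Submodule.mem_bot k).2 ((cl_eq_zero hx).2 hK)
  | succ m ih =>
    rintro χ ⟨φ, hφ, Φ, hΦ, hχ⟩
    have h3 := fn_LimS hBL (hst φ hφ Φ hΦ) hx
    rw [hχ x hx h3]
    exact ih h3 (hK φ hφ Φ hΦ)

end Q

end Pool.Agent.TWHT
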