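import Pool.Agent.Lib.TWCT.Alt2
import Pool.Agent.Lib.TWCT.Base

/-!
# TANK W, leaf (Ht): normalized Hasse derivatives of integer order

`HDer p v N x D`: `D m` is the operator `M ^ m D^[m]` with respect to the `p`-basis `x` of `N`, of
norm `≤ 0` on `N`, with the product rule and the rule for the `p`-th powers; `UG v N D δ`: `D m` has
norm `≤ - δ m` on `N`.
-/

set_option autoImplicit false

open Polynomial

namespace Pool.Agent.TWHT

open Pool.Agent.H15JM (RVal)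
open Pool.Agent.LU1 (VPos adj)
open Pool.Agent.D2 (Ctx0)
open Pool.Agent.D2P (hen clI mem_clI)
open Pool.Agent.TWM
open Pool.Agent.TWCT (PB1 RStep)

universe u

variable {k Ω : Type u} [Field k] [Field Ω] [Algebra k Ω] {v : RVal Ω}
  {p : ℕ} {N N' : IntermediateField k Ω} {x : Ω} {D : ℕ → Ω → Ω}

/-- Normalized Hasse derivatives of integer order on `N`, with respect to `x`. -/
structure HDer (p : ℕ) (v : RVal Ω) (N : IntermediateField k Ω) (x : Ω) (D : ℕ → Ω → Ω) :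
    Prop where
  zero : ∀ f ∈ N, D 0 f = f
  add : ∀ (m : ℕ), ∀ f ∈ N, ∀ g ∈ N, D m (f + g) = D m f + D m g
  smul : ∀ (m : ℕ) (c : k), ∀ f ∈ N, D m (algebraMap k Ω c * f) = algebraMap k Ω c * D m f
  mul : ∀ (m : ℕ), ∀ f ∈ N, ∀ g ∈ N,
    D m (f * g) = ∑ ij ∈ Finset.HasAntidiagonal.antidiagonal m, D ij.1 f * D ij.2 g
  frob : ∀ m, ∀ f ∈ N, D (p * m) (f ^ p) = D m f ^ p
  frob0 : ∀ m, ¬ p ∣ m → ∀ f ∈ N, D m (f ^ p) = 0
  ge : ∀ m, ∀ f ∈ N, ∀ b : ℝ, v.Ge b f → v.Ge b (D m f)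
  mem : x ∈ N
  x2 : ∀ m, 2 ≤ m → D m x = 0

/-- A uniform gain: `D m` has norm `≤ - δ m` on `N`. -/
def UG (v : RVal Ω) (N : IntermediateField k Ω) (D : ℕ → Ω → Ω) (δ : ℝ) : Prop :=
  ∀ m : ℕ, ∀ f ∈ N, ∀ b : ℝ, v.Ge b f → v.Ge (b + δ * m) (D m f)

theorem UG.le {δ : ℝ} (h : UG v N D δ) (hN : N' ≤ N) : UG v N' D δ := fun m f hf =>
  h m f (hN hf)

theorem HDer.le (h : HDer p v N x D) (hN : N' ≤ N) (hx : x ∈ N') : HDer p v N' x D where
  zero := fun f hf => h.zero f (hN hf)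
  add := fun m f hf g hg => h.add m f (hN hf) g (hN hg)
  smul := fun m c f hf => h.smul m c f (hN hf)
  mul := fun m f hf g hg => h.mul m f (hN hf) g (hN hg)
  frob := fun m f hf => h.frob m f (hN hf)
  frob0 := fun m hm f hf => h.frob0 m hm f (hN hf)
  ge := fun m f hf => h.ge m f (hN hf)
  mem := hx
  x2 := h.x2

/-- The closure. -/
theorem UG.clI (h : HDer p v N x D) (hN : clI v N' ≤ N) {δ : ℝ} (hδ : 0 ≤ δ)
    (hU : UG v N' D δ) : UG v (clI v N') D δ := by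
  intro m f hf b hb
  obtain ⟨g, hg, h1⟩ := (mem_clI.1 hf) (b + δ * m)
  have hm : (0 : ℝ) ≤ m := Nat.cast_nonneg m
  have h1' : v.Ge (b + δ * m) (f - g) := h1
  have hfN : f ∈ N := hN hf
  have hgN : g ∈ N := hN (TWC.self_le_clI v _ hg)
  have h2 : v.Ge b g := by
    have h3 : g = f - (f - g) := by ring
    rw [h3]
    exact hb.sub (h1'.mono (by nlinarith))
  have h3 : D m f = D m g + D m (f - g) := by
    rw [← h.add m g hgN (f - g) (sub_mem hfN hgN), add_sub_cancel]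
  rw [h3]
  exact (hU m g hg b h2).add (h.ge m _ (sub_mem hfN hgN) _ h1')

end Pool.Agent.TWHT
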