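import Pool.Agent.Lib.TWC.PrNil

/-!
# TANK W, leaf (Ht): the operators on the classes

The operators of a base with real multipliers (`genW p v C E u M`), acting on `MM v E`:
* `act_eq_of_unit`: two operators which differ by a `1`-unit of `E` have the same action;
* `PDat.exists_match`: the exact operators (multipliers in `C`);
* **`PDat.act_comm`**, **`PDat.act_pow`**: the actions commute, and `φ ^ p` acts as `0`;
* `PDat.mk_comm`, `PDat.mk_pow`: the same for sequences.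
-/

set_option autoImplicit false

open Polynomial

namespace Pool.Agent.TWHT

open Pool.Agent.H15JM (RVal)
open Pool.Agent.D2 (Ctx0)
open Pool.Agent.D2P (hen clI mem_clI)
open Pool.Agent.TWM
open Pool.Agent.TWC
open Pool.Agent.TWC.Key (hd ev sp lf)

universe u

variable {k Ω : Type u} [Field k] [Field Ω] [Algebra k Ω] {v : RVal Ω} [hcx : Fact (Ctx0 k v)]
  {C E L : IntermediateField k Ω}

omit hcx in
theorem exists_gain {x : Ω} (h : Gt v 0 x) : ∃ g : ℝ, 0 < g ∧ v.Ge g x := by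
  by_cases h0 : x = 0
  · exact ⟨1, one_pos, by rw [h0]; exact RVal.Ge.zero⟩
  · exact ⟨v x, h h0, RVal.ge_self _⟩

/-- **Two operators which differ by a unit have the same action.** -/
theorem act_eq_of_unit {φ ψ : Opr v E} {e : Ω} (he : e ∈ E) (hu : Gt v 0 (e - 1))
    (h : ∀ y ∈ E, fn ψ y = e * fn φ y) : MM.act ψ = MM.act φ := by
  refine LinearMap.ext fun z => ?_
  obtain ⟨s, rfl⟩ := MM.ind z
  obtain ⟨g, hg, h1⟩ := exists_gain hu
  rw [MM.act_mk, MM.act_mk, ← sub_eq_zero, ← map_sub, MM.mk_eq_zero]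
  obtain ⟨N, hN⟩ := s.2.cau g hg
  have hm : ∀ n, (s : ℕ → Ω) n ∈ E := fun n => s.2.mem n
  refine ⟨(e - 1) * fn φ ((s : ℕ → Ω) N), mul_mem (sub_mem he (one_mem E)) (fn_mem φ _),
    fun ε hε => ⟨N, fun n hn => ?_⟩⟩
  have h2 : ((MM.actS ψ s - MM.actS φ s : CauS v E) : ℕ → Ω) n =
      fn ψ ((s : ℕ → Ω) n) - fn φ ((s : ℕ → Ω) n) := by
    rw [AddSubgroupClass.coe_sub, Pi.sub_apply, fn_of_mem ψ (hm n), fn_of_mem φ (hm n)]
    rfl
  have h3 : v.Ge (-g) (fn φ ((s : ℕ → Ω) n) - fn φ ((s : ℕ → Ω) N)) :=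
    fn_near φ (hm n) (hm N) (hN n N hn le_rfl)
  have h4 := h1.mul h3
  rw [add_neg_cancel] at h4
  change v.Ge (-ε) (((MM.actS ψ s - MM.actS φ s : CauS v E) : ℕ → Ω) n -
    (e - 1) * fn φ ((s : ℕ → Ω) N))
  rw [h2, h _ (hm n)]
  refine (congrArg (v.Ge (-ε)) ?_).mp (h4.mono (by linarith))
  ring

section Ops

variable {m : ℕ} {p : ℕ} [hp : Fact p.Prime] [CharP Ω p] {u M : ℕ → Fin m → Ω} {rho : Fin m → ℝ}

/-- **The exact operators.** -/
theorem _root_.Pool.Agent.TWC.PDat.exists_match (hc : CompleteV v)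
    (h : PDat p v C L E u M rho) : ∃ Ψ : Opr v E → Opr v E,
      (∀ φ ∈ genW p v C E u M, MM.act φ = MM.act (Ψ φ) ∧ Ψ φ ^ p = 0) ∧
      ∀ φ ∈ genW p v C E u M, ∀ ψ ∈ genW p v C E u M, Ψ φ * Ψ ψ = Ψ ψ * Ψ φ := by
  choose c hcC hcM using h.con
  have hval : ∀ n l, v (c n l) = rho l / p ^ n := by
    intro n l
    have h1 : Gt v (v (M n l)) (M n l - c n l) := by
      rw [h.val, ← neg_sub]
      exact (hcM n l).neg
    rw [(h1.val_eq (h.ne n l)).2, h.val]
  have hcE : ∀ n l, c n l ∈ E := fun n l => h.CE (hcC n l)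
  have h1 : ∀ φ : Opr v E, ∃ Ψ : Opr v E, φ ∈ genW p v C E u M →
      ∃ (n : ℕ) (F : Fin m → ℕ), (∃ l, F l ≠ 0) ∧ (∀ l, F l < p ^ n) ∧
        IsW p C u M φ n F ∧ IsW p C u c Ψ n F := by
    intro φ
    by_cases hφ : φ ∈ genW p v C E u M
    · obtain ⟨n, F, hF0, hF, hφ⟩ := hφ
      obtain ⟨Ψ, hΨ⟩ := exists_W (M := c) hc h.root hval hcE (h.norm.of_le h.le) h.cldE h.CE
        h.mem h.dns n F hF
      exact ⟨Ψ, fun _ => ⟨n, F, hF0, hF, hφ, hΨ⟩⟩
    · exact ⟨0, fun h' => absurd h' hφ⟩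
  choose Ψ hΨ using h1
  refine ⟨Ψ, fun φ hφ => ?_, fun φ hφ ψ hψ => ?_⟩
  · obtain ⟨n, F, hF0, hF, h2, h3⟩ := hΨ φ hφ
    have hE : mW c n F / mW M n F ∈ E := div_mem (mW_mem hcE _ _) (mW_mem h.memM _ _)
    refine ⟨(act_eq_of_unit hE (h.unit_mW hcM n F) fun y hy => ?_).symm,
      h3.pow_eq_zero h.root h.CE h.mem h.dns hcC hF0⟩
    refine eq_of_ge (v := v) fun b => ?_
    obtain ⟨_, ⟨N, f, rfl⟩, hf, h5⟩ := h.dns y hy b
    have h6 : fn (Ψ φ) (ev (u N) f) = mW c n F / mW M n F * fn φ (ev (u N) f) := by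
      rw [h3.apply h.root, h2.apply h.root, ← mul_assoc, div_mul_cancel₀ _ (mW_ne h.ne n F)]
    have e1 : fn (Ψ φ) y - mW c n F / mW M n F * fn φ y =
        (fn (Ψ φ) y - fn (Ψ φ) (ev (u N) f)) -
          mW c n F / mW M n F * (fn φ y - fn φ (ev (u N) f)) := by
      rw [h6]
      ring
    rw [e1]
    have h7 := (ge_one_unit (h.unit_mW hcM n F)).mul (fn_near φ hy hf h5)
    rw [zero_add] at h7
    exact (fn_near (Ψ φ) hy hf h5).sub h7
  · obtain ⟨n, F, -, -, -, h3⟩ := hΨ φ hφ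
    obtain ⟨n', F', -, -, -, h3'⟩ := hΨ ψ hψ
    exact h3.comm h.root h.CE h.mem h.dns hcC h3'

/-- **The actions commute.** -/
theorem _root_.Pool.Agent.TWC.PDat.act_comm (hc : CompleteV v) (h : PDat p v C L E u M rho)
    {φ ψ : Opr v E} (hφ : φ ∈ adjT (genW p v C E u M)) (hψ : ψ ∈ adjT (genW p v C E u M)) :
    Commute (MM.actHom v E φ) (MM.actHom v E ψ) := by
  obtain ⟨Ψ, h1, h2⟩ := h.exists_match hc
  have hg : ∀ φ ∈ genW p v C E u M, MM.actHom v E φ = MM.actHom v E (Ψ φ) := fun φ hφ =>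
    (h1 φ hφ).1
  refine adjT_induction (P := fun φ => ∀ ψ ∈ adjT (genW p v C E u M),
    Commute (MM.actHom v E φ) (MM.actHom v E ψ)) (fun φ hφ => ?_) ?_ (fun a b ha hb => ?_)
    (fun c a ha => ?_) (fun a b ha hb => ?_) hφ ψ hψ
  · intro ψ hψ
    refine adjT_induction (P := fun ψ => Commute (MM.actHom v E φ) (MM.actHom v E ψ))
      (fun ψ hψ => ?_) ?_ (fun a b ha hb => ?_) (fun c a ha => ?_) (fun a b ha hb => ?_) hψ
    · rw [hg φ hφ, hg ψ hψ]
      have h3 := congrArg (MM.actHom v E) (h2 φ hφ ψ hψ)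
      rw [map_mul, map_mul] at h3
      exact h3
    · rw [map_zero]
      exact Commute.zero_right _
    · rw [map_add]
      exact ha.add_right hb
    · rw [map_smul]
      exact ha.smul_right c
    · rw [map_mul]
      exact ha.mul_right hb
  · intro ψ _
    rw [map_zero]
    exact Commute.zero_left _
  · intro ψ hψ
    rw [map_add]
    exact (ha ψ hψ).add_left (hb ψ hψ)
  · intro ψ hψ
    rw [map_smul]
    exact (ha ψ hψ).smul_left c
  · intro ψ hψ
    rw [map_mul]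
    exact (ha ψ hψ).mul_left (hb ψ hψ)

/-- **The generators are nilpotent.** -/
theorem _root_.Pool.Agent.TWC.PDat.act_pow (hc : CompleteV v) (h : PDat p v C L E u M rho)
    {φ : Opr v E} (hφ : φ ∈ genW p v C E u M) : MM.act φ ^ p = 0 := by
  obtain ⟨Ψ, h1, -⟩ := h.exists_match hc
  rw [(h1 φ hφ).1]
  have h2 := congrArg (MM.actHom v E) (h1 φ hφ).2
  rw [map_pow, map_zero] at h2
  exact h2

/-- the same for the values -/
theorem _root_.Pool.Agent.TWC.PDat.act_comm_apply (hc : CompleteV v)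
    (h : PDat p v C L E u M rho) {φ ψ : Opr v E} (hφ : φ ∈ adjT (genW p v C E u M))
    (hψ : ψ ∈ adjT (genW p v C E u M)) (z : MM v E) :
    MM.act φ (MM.act ψ z) = MM.act ψ (MM.act φ z) :=
  LinearMap.congr_fun (h.act_comm hc hφ hψ) z

theorem _root_.Pool.Agent.TWC.PDat.mk_comm (hc : CompleteV v) (h : PDat p v C L E u M rho)
    {φ ψ : Opr v E} (hφ : φ ∈ adjT (genW p v C E u M)) (hψ : ψ ∈ adjT (genW p v C E u M))
    (x : CauS v E) : MM.mk v E (MM.actS φ (MM.actS ψ x)) = MM.mk v E (MM.actS ψ (MM.actS φ x)) :=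
  h.act_comm_apply hc hφ hψ (MM.mk v E x)

theorem _root_.Pool.Agent.TWC.PDat.mk_pow (hc : CompleteV v) (h : PDat p v C L E u M rho)
    {φ : Opr v E} (hφ : φ ∈ genW p v C E u M) (x : CauS v E) :
    MM.mk v E ((MM.actS φ)^[p] x) = 0 := by
  have h1 : ∀ n : ℕ, MM.mk v E ((MM.actS φ)^[n] x) = (MM.act φ ^ n) (MM.mk v E x) := by
    intro n
    induction n with
    | zero => rfl
    | succ n ih =>
      rw [Function.iterate_succ_apply', pow_succ', Module.End.mul_apply, ← ih, MM.act_mk]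
  rw [h1, h.act_pow hc hφ]
  rfl

/-- the same for the operators on `MM v E` -/
theorem _root_.Pool.Agent.TWC.PDat.ops_comm [CharP k p] [PerfectRing k p] (hc : CompleteV v)
    (h : PDat p v C L E u M rho) : ∀ φ ∈ ((h.oper hc).ops p).A, ∀ ψ ∈ ((h.oper hc).ops p).A,
      ∀ x : MM v E, φ (ψ x) = ψ (φ x) := by
  rintro _ ⟨φ, hφ, rfl⟩ _ ⟨ψ, hψ, rfl⟩ x
  exact h.act_comm_apply hc hφ hψ x

end Ops

end Pool.Agent.TWHT
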