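import Pool.Agent.Lib.TWC.ThetaX
import Pool.Agent.Lib.TWC.PrNil
import Pool.Agent.Lib.TWC.EW

/-!
# TANK W, leaf (Ht): the operators `Th N j = c_N ^ j θ^[j / p^N]`

`x n` the roots of `x 0 ∈ C`, far from `L` at the levels `r / p^n`, `E` the closure of `C(x n, n)`, perfect,
`c n ∈ E` the roots of a constant of value `r`, near to `C` (`HTD`); `T = clI v (L ⊔ E)`.

* `exists_tht`: the operators;
* `Tht`: the identities: `lin`, `lev`, `frob`, `leib`, `van`, `fin`, `stab`;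
* `Tht.psi`: the operators `η ^ j Th N j` with `η c_N ∈ C` satisfy the composition formulas;
* `Tht.nil`: `(Th N j)^r y ∈ O` for large `r`;
* `Tht.comp`, `Tht.comp_zero`, `Tht.pow_p`: composition modulo `E + O` on the limits of `E`.
-/

set_option autoImplicit false
set_option linter.unusedSectionVars false

open Polynomial

namespace Pool.Agent.TWHT

open Pool.Agent.H15JM (RVal)
open Pool.Agent.LU1 (VPos adj)
open Pool.Agent.D2 (Ctx0)
open Pool.Agent.D2P (clI mem_clI)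
open Pool.Agent.TWM Pool.Agent.TWC

universe u

variable {k Ω : Type u} [Field k] [Field Ω] [Algebra k Ω] {v : RVal Ω} {p : ℕ}
  {C L E T A : IntermediateField k Ω} {x c : ℕ → Ω} {r : ℝ} {Th : ℕ → ℕ → Ω → Ω}

/-- The data. -/
structure HTD (p : ℕ) (v : RVal Ω) (C L E : IntermediateField k Ω) (x c : ℕ → Ω) (r : ℝ) :
    Prop where
  nbx : NBX p v L x fun n F => F * r / p ^ n
  le : C ≤ L
  CE : C ≤ E
  cldC : Cld v C
  cldL : Cld v L
  cldE : Cld v E
  perf : ∀ a ∈ E, ∃ b ∈ E, b ^ p = a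
  mem : ∀ n, x n ∈ E
  dns : DnsS v (AX C x) E
  base : x 0 ∈ C
  rootc : ∀ n, c (n + 1) ^ p = c n
  ne : ∀ n, c n ≠ 0
  val : ∀ n, v (c n) = r / p ^ n
  memc : ∀ n, c n ∈ E
  con : ∀ n, ∃ a ∈ C, Gt v (r / p ^ n) (a - c n)

namespace HTD

variable [hp : Fact p.Prime]

theorem leL (_h : HTD p v C L E x c r) : L ≤ clI v (L ⊔ E) :=
  le_sup_left.trans fun _ ha => LUC.Cl.subset ha

theorem leE (_h : HTD p v C L E x c r) : E ≤ clI v (L ⊔ E) :=
  le_sup_right.trans fun _ ha => LUC.Cl.subset ha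

/-- `A[x n, n]` is dense in the closure of `A E`. -/
theorem dnsA (h : HTD p v C L E x c r) (hA : C ≤ A) : DnsS v (AX A x) (clI v (A ⊔ E)) := by
  have hAT : A ≤ clI v (A ⊔ E) := le_sup_left.trans fun _ ha => LUC.Cl.subset ha
  have hET : E ≤ clI v (A ⊔ E) := le_sup_right.trans fun _ ha => LUC.Cl.subset ha
  have h1 : clI v (A ⊔ E) ≤ clI v (A ⊔ IntermediateField.adjoin k (Set.range x)) := by
    refine clI_le' ?_ (cld_clI v _)
    refine sup_le (le_sup_left.trans fun _ ha => LUC.Cl.subset ha) fun y hy => ?_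
    rw [mem_clI]
    intro b
    obtain ⟨a, ⟨n, P, hP, rfl⟩, -, h2⟩ := h.dns y hy b
    refine ⟨_, ?_, h2⟩
    exact eval_mem (PI_mono (hA.trans le_sup_left) hP)
      ((le_sup_right : _ ≤ A ⊔ IntermediateField.adjoin k (Set.range x))
        (IntermediateField.subset_adjoin k _ ⟨n, rfl⟩))
  intro y hy b
  obtain ⟨a, ha, -, h2⟩ := AX.dense (v := v) h.nbx.root hp.out.pos (hA h.base) y (h1 hy) b
  exact ⟨a, ha, AX.mem hAT (fun n => hET (h.mem n)) ha, h2⟩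

end HTD

/-- The operators `c_N ^ j D N j`. -/
noncomputable def tht (c : ℕ → Ω) (D : ℕ → ℕ → Module.End k T) (N j : ℕ) (y : Ω) : Ω := by
  classical
  exact c N ^ j * (if h : y ∈ T then ((D N j ⟨y, h⟩ : T) : Ω) else 0)

theorem tht_of_mem (c : ℕ → Ω) (D : ℕ → ℕ → Module.End k T) (N j : ℕ) {y : Ω} (h : y ∈ T) :
    tht c D N j y = c N ^ j * ((D N j ⟨y, h⟩ : T) : Ω) := by
  rw [tht, dif_pos h]

/-- The operators. -/
structure Tht (p : ℕ) (v : RVal Ω) (C L E : IntermediateField k Ω) (x c : ℕ → Ω) (r : ℝ)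
    (Th : ℕ → ℕ → Ω → Ω) : Prop where
  dat : HTD p v C L E x c r
  ex : ∃ D : ℕ → ℕ → Module.End k (clI v (L ⊔ E)),
    ThX p v L (clI v (L ⊔ E)) x (fun n F => F * r / p ^ n) D ∧ Th = tht c D

theorem HTD.exists_tht [hp : Fact p.Prime] [CharP Ω p] [hcx : Fact (Ctx0 k v)]
    (h : HTD p v C L E x c r) (hc : CompleteV v) : ∃ Th, Tht p v C L E x c r Th := by
  obtain ⟨D, hD⟩ := exists_thX p hc h.nbx (cld_clI v _) h.leL (fun n => h.leE (h.mem n))
    (h.dnsA h.le)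
  exact ⟨_, h, D, hD, rfl⟩

namespace Tht

variable [hp : Fact p.Prime] [CharP Ω p]

/-- The values of the constants. -/
theorem ge_c (h : Tht p v C L E x c r Th) (N j : ℕ) : v.Ge (j * r / p ^ N) (c N ^ j) := by
  refine (TWM.ge_pow ((RVal.ge_self (v := v) (c N)).mono (h.dat.val N).ge) j).mono ?_
  rw [mul_div_assoc]

theorem memT (h : Tht p v C L E x c r Th) (N j : ℕ) {y : Ω} (hy : y ∈ clI v (L ⊔ E)) :
    Th N j y ∈ clI v (L ⊔ E) := by
  obtain ⟨D, hD, rfl⟩ := h.ex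
  rw [tht_of_mem _ _ _ _ hy]
  exact mul_mem (pow_mem (h.dat.leE (h.dat.memc N)) _) (SetLike.coe_mem _)

theorem add (h : Tht p v C L E x c r Th) (N j : ℕ) {y z : Ω} (hy : y ∈ clI v (L ⊔ E))
    (hz : z ∈ clI v (L ⊔ E)) : Th N j (y + z) = Th N j y + Th N j z := by
  obtain ⟨D, hD, rfl⟩ := h.ex
  rw [tht_of_mem _ _ _ _ hy, tht_of_mem _ _ _ _ hz, tht_of_mem _ _ _ _ (add_mem hy hz), ← mul_add]
  congr 1
  exact congrArg Subtype.val ((D N j).map_add ⟨y, hy⟩ ⟨z, hz⟩)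

theorem map_zero' (h : Tht p v C L E x c r Th) (N j : ℕ) : Th N j 0 = 0 := by
  obtain ⟨D, hD, rfl⟩ := h.ex
  rw [tht_of_mem _ _ _ _ (zero_mem _)]
  have h1 : (D N j ⟨0, zero_mem _⟩) = 0 := (D N j).map_zero
  rw [h1, ZeroMemClass.coe_zero, mul_zero]

theorem sub (h : Tht p v C L E x c r Th) (N j : ℕ) {y z : Ω} (hy : y ∈ clI v (L ⊔ E))
    (hz : z ∈ clI v (L ⊔ E)) : Th N j (y - z) = Th N j y - Th N j z := by
  rw [eq_sub_iff_add_eq, ← h.add N j (sub_mem hy hz) hz, sub_add_cancel]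

theorem sum (h : Tht p v C L E x c r Th) (N j : ℕ) {ι : Type*} (s : Finset ι) (f : ι → Ω)
    (hf : ∀ i ∈ s, f i ∈ clI v (L ⊔ E)) : Th N j (∑ i ∈ s, f i) = ∑ i ∈ s, Th N j (f i) := by
  classical
  induction s using Finset.induction_on with
  | empty => rw [Finset.sum_empty, Finset.sum_empty, h.map_zero']
  | insert i s hi ih =>
    rw [Finset.sum_insert hi, Finset.sum_insert hi, h.add N j (hf i (Finset.mem_insert_self i s))
      (sum_mem fun i' hi' => hf i' (Finset.mem_insert_of_mem hi')),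
      ih fun i' hi' => hf i' (Finset.mem_insert_of_mem hi')]

/-- The norm is `≤ 0`. -/
theorem ge (h : Tht p v C L E x c r Th) {N j : ℕ} (hj : j < p ^ N) {y : Ω}
    (hy : y ∈ clI v (L ⊔ E)) {b : ℝ} (hb : v.Ge b y) : v.Ge b (Th N j y) := by
  have h2 := h.ge_c N j
  obtain ⟨D, hD, rfl⟩ := h.ex
  rw [tht_of_mem _ _ _ _ hy]
  exact (h2.mul (hD.ge N j hj ⟨y, hy⟩ b hb)).mono (by linarith)

theorem near (h : Tht p v C L E x c r Th) {N j : ℕ} (hj : j < p ^ N) {y z : Ω}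
    (hy : y ∈ clI v (L ⊔ E)) (hz : z ∈ clI v (L ⊔ E)) {b : ℝ} (hb : v.Ge b (y - z)) :
    v.Ge b (Th N j y - Th N j z) := by
  rw [← h.sub N j hy hz]
  exact h.ge hj (sub_mem hy hz) hb

theorem zero (h : Tht p v C L E x c r Th) (N : ℕ) {y : Ω} (hy : y ∈ clI v (L ⊔ E)) :
    Th N 0 y = y := by
  obtain ⟨D, hD, rfl⟩ := h.ex
  rw [tht_of_mem _ _ _ _ hy, hD.zero, pow_zero, one_mul]

/-- `L`-linearity -/
theorem lin (h : Tht p v C L E x c r Th) {N j : ℕ} (hj : j < p ^ N) {a y : Ω} (ha : a ∈ L)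
    (hy : y ∈ clI v (L ⊔ E)) : Th N j (a * y) = a * Th N j y := by
  obtain ⟨D, hD, rfl⟩ := h.ex
  rw [tht_of_mem _ _ _ _ hy, tht_of_mem _ _ _ _ (mul_mem (h.dat.leL ha) hy), mul_left_comm]
  congr 1
  exact congrArg Subtype.val (hD.lin hj (c := ⟨a, h.dat.leL ha⟩) ha ⟨y, hy⟩)

theorem smul (h : Tht p v C L E x c r Th) {N j : ℕ} (hj : j < p ^ N) (a : k) {y : Ω}
    (hy : y ∈ clI v (L ⊔ E)) : Th N j (algebraMap k Ω a * y) = algebraMap k Ω a * Th N j y :=
  h.lin hj (L.algebraMap_mem a) hy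

/-- The operators of positive order vanish on `L`. -/
theorem base (h : Tht p v C L E x c r Th) {N j : ℕ} (hj : j < p ^ N) (h0 : 0 < j) {a : Ω}
    (ha : a ∈ L) : Th N j a = 0 := by
  obtain ⟨D, hD, rfl⟩ := h.ex
  rw [tht_of_mem _ _ _ _ (h.dat.leL ha)]
  have h1 := hD.base hj h0.ne' (c := ⟨a, h.dat.leL ha⟩) ha
  rw [h1, ZeroMemClass.coe_zero, mul_zero]

theorem alg (h : Tht p v C L E x c r Th) {N j : ℕ} (hj : j < p ^ N) (h0 : 0 < j) (a : k) :
    Th N j (algebraMap k Ω a) = 0 := h.base hj h0 (L.algebraMap_mem a)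

theorem c_lev (h : Tht p v C L E x c r Th) (N m : ℕ) : c (N + m) ^ p ^ m = c N :=
  root_pow_add h.dat.rootc N m

/-- change of the level -/
theorem lev (h : Tht p v C L E x c r Th) {N j : ℕ} (hj : j < p ^ N) {y : Ω}
    (hy : y ∈ clI v (L ⊔ E)) : Th (N + 1) (p * j) y = Th N j y := by
  have h2 := h.dat.rootc N
  obtain ⟨D, hD, rfl⟩ := h.ex
  have h1 := hD.lift hj 1
  rw [pow_one] at h1
  rw [tht_of_mem _ _ _ _ hy, tht_of_mem _ _ _ _ hy, h1, pow_mul, h2]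

theorem lev' (h : Tht p v C L E x c r Th) {N j : ℕ} (hj : j < p ^ N) (m : ℕ) {y : Ω}
    (hy : y ∈ clI v (L ⊔ E)) : Th (N + m) (p ^ m * j) y = Th N j y := by
  have h2 := h.c_lev N m
  obtain ⟨D, hD, rfl⟩ := h.ex
  rw [tht_of_mem _ _ _ _ hy, tht_of_mem _ _ _ _ hy, hD.lift hj m, pow_mul, h2]

/-- Frobenius -/
theorem frob (h : Tht p v C L E x c r Th) {N j : ℕ} (hj : j < p ^ N) {y : Ω}
    (hy : y ∈ clI v (L ⊔ E)) : Th N j (y ^ p) = Th (N + 1) j y ^ p := by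
  have h2 := h.dat.rootc N
  obtain ⟨D, hD, rfl⟩ := h.ex
  have h3 := congrArg Subtype.val (hD.frob hj ⟨y, hy⟩)
  have e1 : (⟨y ^ p, pow_mem hy p⟩ : clI v (L ⊔ E)) = ⟨y, hy⟩ ^ p := rfl
  rw [tht_of_mem _ _ _ _ hy, tht_of_mem _ _ _ _ (pow_mem hy p), e1, h3, mul_pow, ← pow_mul,
    mul_comm j p, pow_mul, h2]
  rfl

/-- The operators at a polynomial in `x N`. -/
theorem ev (h : Tht p v C L E x c r Th) {N j : ℕ} (hj : j < p ^ N) {P : Polynomial Ω}
    (hP : P ∈ PI L) : Th N j (P.eval (x N)) = c N ^ j * (taylor (x N) P).coeff j := by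
  obtain ⟨D, hD, rfl⟩ := h.ex
  have hy : P.eval (x N) ∈ clI v (L ⊔ E) :=
    eval_mem (PI_mono h.dat.leL hP) (h.dat.leE (h.dat.mem N))
  rw [tht_of_mem _ _ _ _ hy, hD.ev0 hj hP rfl]

theorem ev' (h : Tht p v C L E x c r Th) {N j : ℕ} (hj : j < p ^ N) (m : ℕ) {P : Polynomial Ω}
    (hP : P ∈ PI L) :
    Th N j (P.eval (x (N + m))) = c N ^ j * (taylor (x (N + m)) P).coeff (p ^ m * j) := by
  obtain ⟨D, hD, rfl⟩ := h.ex
  have hy : P.eval (x (N + m)) ∈ clI v (L ⊔ E) :=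
    eval_mem (PI_mono h.dat.leL hP) (h.dat.leE (h.dat.mem _))
  rw [tht_of_mem _ _ _ _ hy, hD.ev N j hj m P hP ⟨_, hy⟩ rfl]

/-- The operators vanish at the elements of a lower level. -/
theorem van (h : Tht p v C L E x c r Th) {N m j : ℕ} (hj : j < p ^ (N + m)) (hm : ¬ p ^ m ∣ j)
    {P : Polynomial Ω} (hP : P ∈ PI L) : Th (N + m) j (P.eval (x N)) = 0 := by
  obtain ⟨D, hD, rfl⟩ := h.ex
  have hy : P.eval (x N) ∈ clI v (L ⊔ E) :=
    eval_mem (PI_mono h.dat.leL hP) (h.dat.leE (h.dat.mem _))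
  rw [tht_of_mem _ _ _ _ hy, hD.van hj hm (y := ⟨_, hy⟩) hP rfl, ZeroMemClass.coe_zero, mul_zero]

/-- Leibniz, if one of the factors is of level `N`. -/
theorem leib (h : Tht p v C L E x c r Th) {N j : ℕ} (hj : j < p ^ N) {P : Polynomial Ω}
    (hP : P ∈ PI L) {z : Ω} (hz : z ∈ clI v (L ⊔ E)) : Th N j (P.eval (x N) * z) =
      ∑ i ∈ Finset.HasAntidiagonal.antidiagonal j, Th N i.1 (P.eval (x N)) * Th N i.2 z := by
  obtain ⟨D, hD, rfl⟩ := h.ex
  have hy : P.eval (x N) ∈ clI v (L ⊔ E) :=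
    eval_mem (PI_mono h.dat.leL hP) (h.dat.leE (h.dat.mem _))
  have h1 := congrArg Subtype.val (hD.leib hj hP (y := ⟨_, hy⟩) rfl ⟨z, hz⟩)
  push_cast at h1
  rw [tht_of_mem _ _ _ _ (mul_mem hy hz)]
  have e1 : (⟨P.eval (x N) * z, mul_mem hy hz⟩ : clI v (L ⊔ E)) = ⟨_, hy⟩ * ⟨z, hz⟩ := rfl
  rw [e1, h1, Finset.mul_sum]
  refine Finset.sum_congr rfl fun i hi => ?_
  rw [tht_of_mem _ _ _ _ hy, tht_of_mem _ _ _ _ hz, ← Finset.HasAntidiagonal.mem_antidiagonal.1 hi,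
    pow_add]
  ring

/-- The operators of fine order are small. -/
theorem fin (h : Tht p v C L E x c r Th) {y : Ω} (hy : y ∈ clI v (L ⊔ E)) (b : ℝ) :
    ∃ N₀, ∀ N ≥ N₀, ∀ j < p ^ N, ¬ p ^ (N - N₀) ∣ j → v.Ge b (Th N j y) := by
  obtain ⟨_, ⟨N₀, P, hP, rfl⟩, ha, h1⟩ := h.dat.dnsA h.dat.le y hy b
  refine ⟨N₀, fun N hN j hj hd => ?_⟩
  obtain ⟨m, rfl⟩ := Nat.exists_eq_add_of_le hN
  rw [Nat.add_sub_cancel_left] at hd
  have h2 := h.near hj hy ha h1
  rwa [h.van hj hd hP, sub_zero] at h2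

/-- The operators preserve the closure of `A E`, `C ≤ A ≤ L`. -/
theorem stab [hcx : Fact (Ctx0 k v)] (hc : CompleteV v) (h : Tht p v C L E x c r Th) (hCA : C ≤ A)
    (hAL : A ≤ L) {N j : ℕ} (hj : j < p ^ N) {y : Ω} (hy : y ∈ clI v (A ⊔ E)) :
    Th N j y ∈ clI v (A ⊔ E) := by
  obtain ⟨D, hD, rfl⟩ := h.ex
  have hAT : A ≤ clI v (A ⊔ E) := le_sup_left.trans fun _ ha => LUC.Cl.subset ha
  have hET : E ≤ clI v (A ⊔ E) := le_sup_right.trans fun _ ha => LUC.Cl.subset ha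
  have hTT : clI v (A ⊔ E) ≤ clI v (L ⊔ E) := clI_mono' (sup_le_sup_right hAL E)
  rw [tht_of_mem _ _ _ _ (hTT hy)]
  refine mul_mem (pow_mem (hET (h.dat.memc N)) _) ?_
  exact hD.stab hc (cld_clI v _) hAL hAT hTT (fun n => hET (h.dat.mem n)) (h.dat.dnsA hCA) hj hy

/-- The operators preserve `E`. -/
theorem memE [hcx : Fact (Ctx0 k v)] (hc : CompleteV v) (h : Tht p v C L E x c r Th) {N j : ℕ}
    (hj : j < p ^ N) {y : Ω} (hy : y ∈ E) : Th N j y ∈ E := by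
  have h1 : clI v (C ⊔ E) ≤ E := by
    rw [sup_eq_right.2 h.dat.CE]
    exact h.dat.cldE
  exact h1 (h.stab hc le_rfl h.dat.le hj (LUC.Cl.subset (le_sup_right (a := C) hy)))

/-! ### Composition -/

/-- An element near to `1` whose product with `c N` is a constant. -/
theorem exists_eta (h : Tht p v C L E x c r Th) (N : ℕ) :
    ∃ η ∈ E, Gt v 0 (η - 1) ∧ η * c N ∈ C := by
  obtain ⟨a, ha, h1⟩ := h.dat.con N
  refine ⟨a / c N, div_mem (h.dat.CE ha) (h.dat.memc N), one_unit_div (h.dat.ne N) ?_, ?_⟩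
  · rw [h.dat.val]
    exact h1
  · rwa [div_mul_cancel₀ _ (h.dat.ne N)]

/-- Composition of the operators `η ^ j Th N j`. -/
theorem psi_comp (h : Tht p v C L E x c r Th) {N i j : ℕ} (hi : i < p ^ N) (hj : j < p ^ N)
    (hij : i + j < p ^ N) {η y : Ω} (hη : η * c N ∈ C) (hy : y ∈ clI v (L ⊔ E)) :
    η ^ i * Th N i (η ^ j * Th N j y) =
      (((i + j).choose i : ℕ) : Ω) * (η ^ (i + j) * Th N (i + j) y) := by
  have h1 : ∀ z ∈ clI v (L ⊔ E), Th N i ((η * c N) ^ j * z) = (η * c N) ^ j * Th N i z :=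
    fun z hz => h.lin hi (pow_mem (h.dat.le hη) j) hz
  obtain ⟨D, hD, rfl⟩ := h.ex
  have h2 := congrArg Subtype.val (hD.comp hi hj hij ⟨y, hy⟩)
  rw [IntermediateField.coe_smul, Algebra.smul_def, map_natCast] at h2
  have e1 : η ^ j * tht c D N j y = (η * c N) ^ j * ((D N j ⟨y, hy⟩ : clI v (L ⊔ E)) : Ω) := by
    rw [tht_of_mem _ _ _ _ hy, mul_pow, mul_assoc]
  rw [e1, h1 _ (SetLike.coe_mem _), tht_of_mem _ _ _ _ (SetLike.coe_mem _), Subtype.coe_eta, h2,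
    tht_of_mem _ _ _ _ hy]
  ring

/-- Composition, order at least one. -/
theorem psi_comp_zero (h : Tht p v C L E x c r Th) {N i j : ℕ} (hi : i < p ^ N) (hj : j < p ^ N)
    (hij : p ^ N ≤ i + j) {η y : Ω} (hη : η * c N ∈ C) (hy : y ∈ clI v (L ⊔ E)) :
    η ^ i * Th N i (η ^ j * Th N j y) = 0 := by
  have h1 : ∀ z ∈ clI v (L ⊔ E), Th N i ((η * c N) ^ j * z) = (η * c N) ^ j * Th N i z :=
    fun z hz => h.lin hi (pow_mem (h.dat.le hη) j) hz
  obtain ⟨D, hD, rfl⟩ := h.ex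
  have h2 := congrArg Subtype.val (hD.comp_zero hi hj hij ⟨y, hy⟩)
  rw [ZeroMemClass.coe_zero] at h2
  have e1 : η ^ j * tht c D N j y = (η * c N) ^ j * ((D N j ⟨y, hy⟩ : clI v (L ⊔ E)) : Ω) := by
    rw [tht_of_mem _ _ _ _ hy, mul_pow, mul_assoc]
  rw [e1, h1 _ (SetLike.coe_mem _), tht_of_mem _ _ _ _ (SetLike.coe_mem _), Subtype.coe_eta, h2]
  ring

/-- The operator `η ^ j Th N j`. -/
def psi (Th : ℕ → ℕ → Ω → Ω) (η : Ω) (N j : ℕ) (y : Ω) : Ω := η ^ j * Th N j y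

theorem psi_memT (h : Tht p v C L E x c r Th) {η : Ω} (hη : η ∈ E) (N j : ℕ) {y : Ω}
    (hy : y ∈ clI v (L ⊔ E)) : psi Th η N j y ∈ clI v (L ⊔ E) :=
  mul_mem (pow_mem (h.dat.leE hη) _) (h.memT N j hy)

theorem iter_memT (h : Tht p v C L E x c r Th) (N j m : ℕ) {y : Ω}
    (hy : y ∈ clI v (L ⊔ E)) : (Th N j)^[m] y ∈ clI v (L ⊔ E) := by
  induction m with
  | zero => exact hy
  | succ m ih =>
    rw [Function.iterate_succ_apply']
    exact h.memT N j ih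

theorem psi_iter_memT (h : Tht p v C L E x c r Th) {η : Ω} (hη : η ∈ E) (N j m : ℕ) {y : Ω}
    (hy : y ∈ clI v (L ⊔ E)) : (psi Th η N j)^[m] y ∈ clI v (L ⊔ E) := by
  induction m with
  | zero => exact hy
  | succ m ih =>
    rw [Function.iterate_succ_apply']
    exact h.psi_memT hη N j ih

/-- `(η ^ j Th N j) ^ p = 0`. -/
theorem psi_pow (h : Tht p v C L E x c r Th) {N j : ℕ} (h0 : 0 < j) (hj : j < p ^ N) {η y : Ω}
    (hη : η * c N ∈ C) (hηE : η ∈ E) (hy : y ∈ clI v (L ⊔ E)) : (psi Th η N j)^[p] y = 0 := by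
  have hn : ∀ (n : ℕ) {z : Ω}, z ∈ clI v (L ⊔ E) → psi Th η N j ((n : Ω) * z) = n * psi Th η N j z := by
    intro n z hz
    have h1 := h.lin hj (natCast_mem L n) hz
    rw [psi, psi, h1]
    ring
  have h00 : psi Th η N j 0 = 0 := by rw [psi, h.map_zero', mul_zero]
  have key : ∀ m, ∃ a : ℕ, (psi Th η N j)^[m] y =
      (if m * j < p ^ N then (a : Ω) * (η ^ (m * j) * Th N (m * j) y) else 0) ∧
        (m = p → m * j < p ^ N → ((a : ℕ) : Ω) = 0) := by
    intro m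
    induction m with
    | zero =>
      refine ⟨1, ?_, fun h1 => absurd h1.symm hp.out.ne_zero⟩
      rw [zero_mul, if_pos (pow_pos hp.out.pos N), h.zero N hy, Function.iterate_zero]
      simp
    | succ m ih =>
      obtain ⟨a, ih, -⟩ := ih
      refine ⟨a * (j + m * j).choose j, ?_, ?_⟩
      · rw [Function.iterate_succ_apply', ih]
        have e1 : (m + 1) * j = j + m * j := by ring
        by_cases h1 : m * j < p ^ N
        · rw [if_pos h1, hn a (mul_mem (pow_mem (h.dat.leE hηE) _) (h.memT N _ hy))]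
          by_cases h2 : (m + 1) * j < p ^ N
          · rw [if_pos h2]
            rw [e1] at h2 ⊢
            rw [psi, h.psi_comp hj h1 h2 hη hy]
            push_cast
            ring
          · rw [if_neg h2]
            rw [e1] at h2
            rw [psi, h.psi_comp_zero hj h1 (not_lt.1 h2) hη hy, mul_zero]
        · have h2 : ¬ (m + 1) * j < p ^ N := fun h2 => h1 (lt_of_le_of_lt (by
            rw [e1]
            exact Nat.le_add_left _ _) h2)
          rw [if_neg h1, if_neg h2, h00]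
      · intro h1 _
        have e1 : j + m * j = p * j := by
          rw [← h1]
          ring
        rw [e1, Nat.cast_mul, (CharP.cast_eq_zero_iff Ω p ((p * j).choose j)).2, mul_zero]
        have h2 := choose_mul_self p (G := j) h0.ne'
        exact_mod_cast (Int.modEq_zero_iff_dvd.1 h2)
  obtain ⟨a, h1, h2⟩ := key p
  rw [h1]
  split_ifs with h3
  · rw [h2 rfl h3, zero_mul]
  · rfl

/-- The values. -/
theorem psi_ge (h : Tht p v C L E x c r Th) {N j : ℕ} (hj : j < p ^ N) {η : Ω}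
    (hη : Gt v 0 (η - 1)) {y : Ω} (hy : y ∈ clI v (L ⊔ E)) {b : ℝ} (hb : v.Ge b y) :
    v.Ge b (psi Th η N j y) := by
  have h1 := (ge_one_unit (one_unit_pow hη j)).mul (h.ge hj hy hb)
  rwa [zero_add] at h1

/-- `Th N j` and `η ^ j Th N j` are near. -/
theorem iter_near (h : Tht p v C L E x c r Th) {N j : ℕ} (hj : j < p ^ N) {η : Ω} (hηE : η ∈ E)
    (hη : Gt v 0 (η - 1)) {κ : ℝ} (hκ : v.Ge κ (η ^ j - 1)) {y : Ω} (hy : y ∈ clI v (L ⊔ E))
    {b : ℝ} (hb : v.Ge b y) (m : ℕ) : v.Ge b ((psi Th η N j)^[m] y) ∧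
      v.Ge (κ + b) ((Th N j)^[m] y - (psi Th η N j)^[m] y) := by
  induction m with
  | zero =>
    refine ⟨hb, ?_⟩
    rw [Function.iterate_zero, Function.iterate_zero, sub_self]
    exact RVal.Ge.zero
  | succ m ih =>
    obtain ⟨ih1, ih2⟩ := ih
    have hA := h.iter_memT N j m hy
    have hB := h.psi_iter_memT hηE N j m hy
    rw [Function.iterate_succ_apply', Function.iterate_succ_apply']
    refine ⟨h.psi_ge hj hη hB ih1, ?_⟩
    have e1 : Th N j ((Th N j)^[m] y) - psi Th η N j ((psi Th η N j)^[m] y) =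
        Th N j ((Th N j)^[m] y - (psi Th η N j)^[m] y) -
          (η ^ j - 1) * Th N j ((psi Th η N j)^[m] y) := by
      rw [h.sub N j hA hB, psi]
      ring
    rw [e1]
    exact (h.ge hj (sub_mem hA hB) ih2).sub (hκ.mul (h.ge hj hB ih1))

/-- **Large powers of `Th N j` are small.** -/
theorem nil (h : Tht p v C L E x c r Th) {N j : ℕ} (h0 : 0 < j) (hj : j < p ^ N) {y : Ω}
    (hy : y ∈ clI v (L ⊔ E)) (b : ℝ) : ∃ m, v.Ge b ((Th N j)^[m] y) := by
  obtain ⟨η, hηE, hη, hηc⟩ := h.exists_eta N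
  have hηj := one_unit_pow hη j
  obtain ⟨κ, hκ0, hκ⟩ : ∃ κ : ℝ, 0 < κ ∧ v.Ge κ (η ^ j - 1) := by
    by_cases h1 : η ^ j - 1 = 0
    · exact ⟨1, one_pos, by rw [h1]; exact RVal.Ge.zero⟩
    · exact ⟨_, hηj h1, RVal.ge_self _⟩
  have key : ∀ m : ℕ, ∀ z ∈ clI v (L ⊔ E), ∀ b : ℝ, v.Ge b z →
      v.Ge (b + m * κ) ((Th N j)^[p * m] z) := by
    intro m
    induction m with
    | zero =>
      intro z hz b hb
      rw [mul_zero, Function.iterate_zero, Nat.cast_zero, zero_mul, add_zero]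
      exact hb
    | succ m ih =>
      intro z hz b hb
      have h1 := (h.iter_near hj hηE hη hκ hz hb p).2
      rw [h.psi_pow h0 hj hηc hηE hz, sub_zero] at h1
      have h2 := ih _ (h.iter_memT N j p hz) _ h1
      rw [← Function.iterate_add_apply] at h2
      rw [mul_add, mul_one]
      refine h2.mono (le_of_eq ?_)
      push_cast
      ring
  obtain ⟨m, hm⟩ := exists_nat_ge ((b - v y) / κ)
  refine ⟨p * m, (key m y hy _ (RVal.ge_self y)).mono ?_⟩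
  rw [div_le_iff₀ hκ0] at hm
  linarith

/-! ### Modulo `B + O` -/

theorem lim_th {B : IntermediateField k Ω} (h : Tht p v C L E x c r Th) (hBT : B ≤ clI v (L ⊔ E))
    {N j : ℕ} (hj : j < p ^ N) (hst : ∀ y ∈ B, Th N j y ∈ B) {y : Ω} (hy : y ∈ clI v (L ⊔ E))
    {b : ℝ} (hl : Lim v B b y) : Lim v B b (Th N j y) := by
  intro ε hε
  obtain ⟨e, he, h1⟩ := hl ε hε
  exact ⟨_, hst _ he, h.near hj hy (hBT he) h1⟩

theorem nr_th {B : IntermediateField k Ω} (h : Tht p v C L E x c r Th) (hBT : B ≤ clI v (L ⊔ E))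
    {N j : ℕ} (hj : j < p ^ N) (hst : ∀ y ∈ B, Th N j y ∈ B) {y : Ω} (hy : y ∈ clI v (L ⊔ E))
    {b : ℝ} (hl : Nr v B b y) : Nr v B b (Th N j y) := by
  obtain ⟨e, he, h1⟩ := hl
  exact ⟨_, hst _ he, h.near hj hy (hBT he) h1⟩

end Tht

/-- Multiplication by an element near to `1`. -/
theorem nr_mul_sub {B : IntermediateField k Ω} {η z : Ω} (hηB : η ∈ B) (hη : Gt v 0 (η - 1))
    (hl : Lim v B 0 z) : Nr v B 0 (η * z - z) := by
  by_cases h0 : η - 1 = 0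
  · refine ⟨0, zero_mem _, ?_⟩
    rw [sub_eq_zero.1 h0, one_mul, sub_self, sub_zero]
    exact RVal.Ge.zero
  obtain ⟨e, he, h1⟩ := hl (v (η - 1)) (hη h0)
  refine ⟨(η - 1) * e, mul_mem (sub_mem hηB (one_mem _)) he, ?_⟩
  have e1 : η * z - z - (η - 1) * e = (η - 1) * (z - e) := by ring
  rw [e1]
  exact ((RVal.ge_self (v := v) (η - 1)).mul h1).mono (by linarith)

theorem lim_mul_unit {B : IntermediateField k Ω} {η z : Ω} (hηB : η ∈ B) (hη : Gt v 0 (η - 1))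
    (hl : Lim v B 0 z) : Lim v B 0 (η * z) := by
  intro ε hε
  obtain ⟨b, hb, h1⟩ := hl ε hε
  refine ⟨η * b, mul_mem hηB hb, ?_⟩
  rw [← mul_sub]
  have h0 : v.Ge 0 η := by
    have e1 : η = (η - 1) + 1 := by ring
    rw [e1]
    refine hη.ge.add ?_
    have := RVal.ge_self (v := v) (1 : Ω)
    rwa [v.map_one] at this
  have := h0.mul h1
  rwa [zero_add] at this

theorem nr_add' {B : IntermediateField k Ω} {a b : Ω} {s : ℝ} (ha : Nr v B s a)
    (hb : Nr v B s b) : Nr v B s (a + b) := by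
  obtain ⟨e, he, h1⟩ := ha
  obtain ⟨f, hf, h2⟩ := hb
  refine ⟨e + f, add_mem he hf, ?_⟩
  have e1 : a + b - (e + f) = (a - e) + (b - f) := by ring
  rw [e1]
  exact h1.add h2

theorem nr_neg' {B : IntermediateField k Ω} {a : Ω} {s : ℝ} (ha : Nr v B s a) :
    Nr v B s (-a) := by
  obtain ⟨e, he, h1⟩ := ha
  refine ⟨-e, neg_mem he, ?_⟩
  have e1 : -a - -e = -(a - e) := by ring
  rw [e1]
  exact h1.neg

theorem nr_sub' {B : IntermediateField k Ω} {a b : Ω} {s : ℝ} (ha : Nr v B s a)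
    (hb : Nr v B s b) : Nr v B s (a - b) := by
  rw [sub_eq_add_neg]
  exact nr_add' ha (nr_neg' hb)

theorem ge_natCast' (h0 : Ctx0 k v) (n : ℕ) : v.Ge 0 ((n : ℕ) : Ω) := by
  have h1 := h0.ge (n : k)
  rwa [map_natCast] at h1

theorem nr_natCast' {B : IntermediateField k Ω} (h0 : Ctx0 k v) (n : ℕ) {a : Ω} {s : ℝ}
    (ha : Nr v B s a) : Nr v B s ((n : Ω) * a) := by
  obtain ⟨e, he, h1⟩ := ha
  refine ⟨n * e, mul_mem (natCast_mem _ _) he, ?_⟩
  rw [← mul_sub]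
  have := (ge_natCast' h0 n).mul h1
  rwa [zero_add] at this

namespace Tht

variable [hp : Fact p.Prime] [CharP Ω p] {B : IntermediateField k Ω}

/-- the operators `Th` and `psi` agree on the classes -/
theorem nr_psi (h : Tht p v C L E x c r Th) (hEB : E ≤ B) (hBT : B ≤ clI v (L ⊔ E))
    (hst : ∀ N j, j < p ^ N → ∀ y ∈ B, Th N j y ∈ B) {N i j : ℕ} (hi : i < p ^ N)
    (hj : j < p ^ N) {η y : Ω} (hηE : η ∈ E) (hη : Gt v 0 (η - 1)) (hy : y ∈ clI v (L ⊔ E))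
    (hl : Lim v B 0 y) :
    Nr v B 0 (Th N i (Th N j y) - η ^ i * Th N i (η ^ j * Th N j y)) := by
  have hηB : ∀ n, η ^ n ∈ B := fun n => pow_mem (hEB hηE) n
  have hηT : ∀ n, η ^ n ∈ clI v (L ⊔ E) := fun n => hBT (hηB n)
  have h1 := h.lim_th hBT hj (hst N j hj) hy hl
  have hm := h.memT N j hy
  have h2 := nr_mul_sub (hηB j) (one_unit_pow hη j) h1
  have h3 := h.nr_th hBT hi (hst N i hi) (sub_mem (mul_mem (hηT j) hm) hm) h2
  rw [h.sub N i (mul_mem (hηT j) hm) hm] at h3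
  have h4 := nr_mul_sub (hηB i) (one_unit_pow hη i)
    (h.lim_th hBT hi (hst N i hi) (mul_mem (hηT j) hm) (lim_mul_unit (hηB j)
      (one_unit_pow hη j) h1))
  refine Eq.mp (congrArg (fun t => Nr v B 0 t) ?_) (nr_neg' (nr_add' h3 h4))
  ring

/-- **Composition, modulo `B + O`.** -/
theorem comp (h0 : Ctx0 k v) (h : Tht p v C L E x c r Th) (hEB : E ≤ B)
    (hBT : B ≤ clI v (L ⊔ E)) (hst : ∀ N j, j < p ^ N → ∀ y ∈ B, Th N j y ∈ B) {N i j : ℕ}
    (hi : i < p ^ N) (hj : j < p ^ N) (hij : i + j < p ^ N) {y : Ω} (hy : y ∈ clI v (L ⊔ E))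
    (hl : Lim v B 0 y) :
    Nr v B 0 (Th N i (Th N j y) - (((i + j).choose i : ℕ) : Ω) * Th N (i + j) y) := by
  obtain ⟨η, hηE, hη, hηc⟩ := h.exists_eta N
  have h1 := h.nr_psi hEB hBT hst hi hj hηE hη hy hl
  rw [h.psi_comp hi hj hij hηc hy] at h1
  have h2 := nr_natCast' h0 ((i + j).choose i)
    (nr_mul_sub (pow_mem (hEB hηE) (i + j)) (one_unit_pow hη (i + j))
      (h.lim_th hBT hij (hst N _ hij) hy hl))
  refine Eq.mp (congrArg (fun t => Nr v B 0 t) ?_) (nr_add' h1 h2)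
  ring

/-- Composition, order at least one, modulo `B + O`. -/
theorem comp_zero (h : Tht p v C L E x c r Th) (hEB : E ≤ B)
    (hBT : B ≤ clI v (L ⊔ E)) (hst : ∀ N j, j < p ^ N → ∀ y ∈ B, Th N j y ∈ B) {N i j : ℕ}
    (hi : i < p ^ N) (hj : j < p ^ N) (hij : p ^ N ≤ i + j) {y : Ω} (hy : y ∈ clI v (L ⊔ E))
    (hl : Lim v B 0 y) : Nr v B 0 (Th N i (Th N j y)) := by
  obtain ⟨η, hηE, hη, hηc⟩ := h.exists_eta N
  have h1 := h.nr_psi hEB hBT hst hi hj hηE hη hy hl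
  rwa [h.psi_comp_zero hi hj hij hηc hy, sub_zero] at h1

/-- The operators commute modulo `B + O`. -/
theorem comm (h0 : Ctx0 k v) (h : Tht p v C L E x c r Th) (hEB : E ≤ B)
    (hBT : B ≤ clI v (L ⊔ E)) (hst : ∀ N j, j < p ^ N → ∀ y ∈ B, Th N j y ∈ B)
    {N N' i j : ℕ} (hi : i < p ^ N) (hj : j < p ^ N') {y : Ω} (hy : y ∈ clI v (L ⊔ E))
    (hl : Lim v B 0 y) : Nr v B 0 (Th N i (Th N' j y) - Th N' j (Th N i y)) := by
  have hi' : p ^ N' * i < p ^ (N + N') := lt_lev hi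
  have hj' : p ^ N * j < p ^ (N + N') := by
    rw [add_comm]
    exact lt_lev hj
  have e1 : ∀ z ∈ clI v (L ⊔ E), Th N i z = Th (N + N') (p ^ N' * i) z := fun z hz =>
    (h.lev' hi N' hz).symm
  have e2 : ∀ z ∈ clI v (L ⊔ E), Th N' j z = Th (N + N') (p ^ N * j) z := fun z hz => by
    rw [add_comm]
    exact (h.lev' hj N hz).symm
  rw [e1 _ (h.memT _ _ hy), e2 _ hy, e2 _ (h.memT _ _ hy), e1 _ hy]
  generalize p ^ N' * i = a at *
  generalize p ^ N * j = b at *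
  by_cases hab : a + b < p ^ (N + N')
  · have h1 := h.comp h0 hEB hBT hst hi' hj' hab hy hl
    have h2 := h.comp h0 hEB hBT hst hj' hi' (by rwa [add_comm b a]) hy hl
    have h3 := nr_sub' h1 h2
    have e3 : (b + a).choose b = (a + b).choose a := by
      rw [add_comm b a]
      exact (Nat.choose_symm_add).symm
    rw [e3, add_comm b a] at h3
    refine Eq.mp (congrArg (fun t => Nr v B 0 t) ?_) h3
    ring
  · exact nr_sub' (h.comp_zero hEB hBT hst hi' hj' (not_lt.1 hab) hy hl)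
      (h.comp_zero hEB hBT hst hj' hi' (by rw [add_comm b a]; exact not_lt.1 hab) hy hl)

theorem iter_lim (h : Tht p v C L E x c r Th) (hBT : B ≤ clI v (L ⊔ E)) {N j : ℕ}
    (hj : j < p ^ N) (hst : ∀ y ∈ B, Th N j y ∈ B) {y : Ω} (hy : y ∈ clI v (L ⊔ E))
    (hl : Lim v B 0 y) (m : ℕ) : Lim v B 0 ((Th N j)^[m] y) := by
  induction m with
  | zero => exact hl
  | succ m ih =>
    rw [Function.iterate_succ_apply']
    exact h.lim_th hBT hj hst (h.iter_memT N j m hy) ih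

/-- **`(Th N j) ^ p = 0` modulo `B + O`.** -/
theorem pow_p (h : Tht p v C L E x c r Th) (hEB : E ≤ B) (hBT : B ≤ clI v (L ⊔ E)) {N j : ℕ}
    (h0 : 0 < j) (hj : j < p ^ N) (hst : ∀ y ∈ B, Th N j y ∈ B) {y : Ω}
    (hy : y ∈ clI v (L ⊔ E)) (hl : Lim v B 0 y) : Nr v B 0 ((Th N j)^[p] y) := by
  obtain ⟨η, hηE, hη, hηc⟩ := h.exists_eta N
  have key : ∀ m, Nr v B 0 ((Th N j)^[m] y - (psi Th η N j)^[m] y) := by
    intro m
    induction m with
    | zero =>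
      refine ⟨0, zero_mem _, ?_⟩
      rw [Function.iterate_zero, Function.iterate_zero, sub_self, sub_zero]
      exact RVal.Ge.zero
    | succ m ih =>
      have hA := h.iter_memT N j m hy
      have hB := h.psi_iter_memT hηE N j m hy
      have hlA := h.iter_lim hBT hj hst hy hl m
      rw [Function.iterate_succ_apply', Function.iterate_succ_apply']
      have h1 := h.nr_th hBT hj hst (sub_mem hA hB) ih
      have hlB : Lim v B 0 ((psi Th η N j)^[m] y) := by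
        intro ε hε
        obtain ⟨a, ha, h2⟩ := hlA ε hε
        obtain ⟨e, he, h3⟩ := ih
        refine ⟨a - e, sub_mem ha he, ?_⟩
        have e1 : (psi Th η N j)^[m] y - (a - e) = ((Th N j)^[m] y - a) -
            ((Th N j)^[m] y - (psi Th η N j)^[m] y - e) := by ring
        rw [e1]
        exact h2.sub (h3.mono (by linarith))
      have h2 := nr_mul_sub (pow_mem (hEB hηE) j) (one_unit_pow hη j)
        (h.lim_th hBT hj hst hB hlB)
      rw [h.sub N j hA hB] at h1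
      refine Eq.mp (congrArg (fun t => Nr v B 0 t) ?_) (nr_sub' h1 h2)
      rw [psi]
      ring
  have h1 := key p
  rwa [h.psi_pow h0 hj hηc hηE hy, sub_zero] at h1

/-- The fields `clI v (A ⊔ E)`, `C ≤ A ≤ L`, are stable. -/
theorem stb [hcx : Fact (Ctx0 k v)] (hc : CompleteV v) (h : Tht p v C L E x c r Th) (hCA : C ≤ A)
    (hAL : A ≤ L) : ∀ N j, j < p ^ N → ∀ y ∈ clI v (A ⊔ E), Th N j y ∈ clI v (A ⊔ E) :=
  fun _ _ hj _ hy => h.stab hc hCA hAL hj hy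

end Tht

end Pool.Agent.TWHT
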