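import Pool.Agent.Lib.TWHT.ThA
import Pool.Agent.Lib.TWIV.FLb

/-!
# TANK W, leaf (Ht): the operators `Th N j` as higher derivations

* `DX B y`: the elements `P(y)`, `P` over `B`;
* **`Tht.hsn`**: `HSn p v 0 E (DX C (x N)) Th`; `Tht.hsnA`: the same for `clI v (A ⊔ E)`, `DX A (x N)`;
* `mem_DX_adj`: `DX C (x N) = C(x N)` if `x 0 ∈ C`; `root_le_DX`: it contains the roots of the elements
  of `C`.
-/

set_option autoImplicit false
set_option linter.unusedSectionVars false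

open Polynomial

namespace Pool.Agent.TWHT

open Pool.Agent.H15JM (RVal)
open Pool.Agent.LU1 (VPos adj)
open Pool.Agent.D2 (Ctx0)
open Pool.Agent.D2P (clI mem_clI)
open Pool.Agent.TWM Pool.Agent.TWC
open Pool.Agent.TWIV (HSn)

universe u

variable {k Ω : Type u} [Field k] [Field Ω] [Algebra k Ω] {v : RVal Ω} {p : ℕ}
  {B C L E T A : IntermediateField k Ω} {x c : ℕ → Ω} {r : ℝ} {Th : ℕ → ℕ → Ω → Ω}

/-- The elements `P(y)`, `P` over `B`. -/
def DX (B : IntermediateField k Ω) (y : Ω) : Subalgebra k Ω where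
  carrier := {z | ∃ P ∈ PI B, z = P.eval y}
  mul_mem' := by
    rintro _ _ ⟨P, hP, rfl⟩ ⟨Q, hQ, rfl⟩
    exact ⟨P * Q, mul_mem hP hQ, (eval_mul).symm⟩
  add_mem' := by
    rintro _ _ ⟨P, hP, rfl⟩ ⟨Q, hQ, rfl⟩
    exact ⟨P + Q, add_mem hP hQ, (eval_add).symm⟩
  algebraMap_mem' := fun a => ⟨Polynomial.C (algebraMap k Ω a), C_mem_PI (B.algebraMap_mem a),
    (eval_C).symm⟩

theorem mem_DX {y z : Ω} : z ∈ DX B y ↔ ∃ P ∈ PI B, z = P.eval y := Iff.rfl

theorem DX.base {y z : Ω} (hz : z ∈ B) : z ∈ DX B y :=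
  ⟨Polynomial.C z, C_mem_PI hz, (eval_C).symm⟩

theorem DX.self {y : Ω} : y ∈ DX B y := ⟨X, X_mem_PI, (eval_X).symm⟩

theorem DX.mono (h : B ≤ C) (y : Ω) : DX B y ≤ DX C y := by
  rintro _ ⟨P, hP, rfl⟩
  exact ⟨P, PI_mono h hP, rfl⟩

theorem DX.le {y : Ω} (h : B ≤ A) (hy : y ∈ A) : DX B y ≤ A.toSubalgebra := by
  rintro _ ⟨P, hP, rfl⟩
  exact eval_mem (PI_mono h hP) hy

section Lev

variable [hp : Fact p.Prime]

theorem DX.lev (hr : ∀ n, x (n + 1) ^ p = x n) (N : ℕ) : DX B (x N) ≤ DX B (x (N + 1)) := by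
  rintro _ ⟨P, hP, rfl⟩
  refine ⟨expand Ω (p ^ 1) P, expand_mem_PI (pow_pos hp.out.pos 1) hP, ?_⟩
  rw [ax_lift hr]

/-- `B[x N]` is the field `B(x N)`. -/
theorem mem_DX_adj (hr : ∀ n, x (n + 1) ^ p = x n) (h0 : x 0 ∈ B) (N : ℕ) {z : Ω} :
    z ∈ DX B (x N) ↔ z ∈ adj B (x N) := by
  refine ⟨?_, fun hz => ?_⟩
  · rintro ⟨P, hP, rfl⟩
    exact eval_mem (PI_mono (fun b hb => (D2P.mem_adj_self B (x N)).2 hb) hP)
      (D2P.mem_adj_self B (x N)).1
  · obtain ⟨P, hP, h1⟩ := exists_poly_adj hr h0 N hz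
    exact ⟨P, hP, h1⟩

/-- The roots of the elements of `B`. -/
theorem root_le_DX [CharP Ω p] (hr : ∀ n, x (n + 1) ^ p = x n)
    (hB : ∀ a ∈ B, ∃ Q ∈ PI B, (Q.eval (x 1)) ^ p = a) (N : ℕ) {b : Ω} (hb : b ^ p ^ N ∈ B) :
    b ∈ DX B (x N) := by
  induction N generalizing b with
  | zero =>
    rw [pow_zero, pow_one] at hb
    exact DX.base hb
  | succ N ih =>
    have h1 : (b ^ p) ^ p ^ N ∈ B := by
      rw [← pow_mul, ← pow_succ']
      exact hb
    obtain ⟨P, hP, h2⟩ := ih h1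
    choose Q hQ hQe using fun i => hB (P.coeff i) (hP i)
    have h3 : b = ∑ i ∈ P.support, (Q i).eval (x 1) * x (N + 1) ^ i := by
      refine frobenius_inj Ω p ?_
      rw [frobenius_def, frobenius_def, h2, sum_pow_char, eval_eq_sum, Polynomial.sum]
      refine Finset.sum_congr rfl fun i _ => ?_
      rw [mul_pow, hQe, ← pow_mul, mul_comm i p, pow_mul, hr]
    have h4 : ∀ i, (Q i).eval (x 1) ∈ DX B (x (N + 1)) := by
      intro i
      refine ⟨expand Ω (p ^ N) (Q i), expand_mem_PI (pow_pos hp.out.pos N) (hQ i), ?_⟩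
      rw [add_comm N 1, ax_lift hr]
    rw [h3]
    exact sum_mem fun i _ => mul_mem (h4 i) (pow_mem DX.self i)

end Lev

namespace Tht

variable [hp : Fact p.Prime] [CharP Ω p] [hcx : Fact (Ctx0 k v)]

/-- The operators of the closure of `A E`. -/
theorem hsnA (h : Tht p v C L E x c r Th) (hCA : C ≤ A) (hAL : A ≤ L) :
    HSn p v 0 (clI v (A ⊔ E)).toSubalgebra (fun N => DX A (x N)) Th := by
  have hAT : A ≤ clI v (A ⊔ E) := le_sup_left.trans fun _ ha => LUC.Cl.subset ha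
  have hET : E ≤ clI v (A ⊔ E) := le_sup_right.trans fun _ ha => LUC.Cl.subset ha
  have hTT : clI v (A ⊔ E) ≤ clI v (L ⊔ E) := clI_mono' (sup_le_sup_right hAL E)
  exact
    { le := fun N _ => DX.le hAT (hET (h.dat.mem N))
      mono := fun N _ => DX.lev h.dat.nbx.root N
      dense := fun y hy b => by
        obtain ⟨_, ⟨N, P, hP, rfl⟩, -, h1⟩ := h.dat.dnsA hCA y hy b
        exact ⟨N, Nat.zero_le _, _, ⟨P, hP, rfl⟩, h1⟩
      add := fun N _ j _ y hy z hz => h.add N j (hTT hy) (hTT hz)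
      ge := fun N _ j hj y hy b hb => h.ge hj (hTT hy) hb
      zero := fun N _ y hy => h.zero N (hTT hy)
      alg := fun N _ j hj h0 a => h.alg hj h0 a
      mul := by
        rintro N - j hj _ ⟨P, hP, rfl⟩ _ ⟨Q, hQ, rfl⟩
        exact h.leib hj (PI_mono hAL hP) (eval_mem (PI_mono (hAL.trans h.dat.leL) hQ)
          (h.dat.leE (h.dat.mem N)))
      lev := fun N _ j hj y hy => h.lev hj (hTT hy)
      nil := by
        rintro N - j hj hd _ ⟨P, hP, rfl⟩
        refine h.van (m := 1) hj ?_ (PI_mono hAL hP)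
        rwa [pow_one] }

/-- **The operators of `E`.** -/
theorem hsn (h : Tht p v C L E x c r Th) :
    HSn p v 0 E.toSubalgebra (fun N => DX C (x N)) Th := by
  have h1 := h.hsnA le_rfl h.dat.le
  have h2 : clI v (C ⊔ E) = E := by
    rw [sup_eq_right.2 h.dat.CE]
    exact le_antisymm h.dat.cldE fun _ ha => LUC.Cl.subset ha
  rwa [h2] at h1

end Tht

end Pool.Agent.TWHT
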