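import Pool.Agent.Lib.TWHT.Hd
import Pool.Agent.Lib.TWHT.ThA
import Pool.Agent.Lib.TWHT.ThH

/-!
# TANK W, leaf (Ht): the derivatives of integer order

`D m (g ^ p ^ n) = Th n m g ^ p ^ n`, `m < p ^ n`, `g ∈ E`: `D m` is the normalized Hasse derivative of
order `m` with respect to `x 0`; `exists_hder`: the axioms `HDer` on the fields `N ≤ C` with the
`p`-basis `x 0`.
-/

set_option autoImplicit false
set_option linter.unusedSectionVars false

open Polynomial

namespace Pool.Agent.TWHT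

open Pool.Agent.H15JM (RVal)
open Pool.Agent.LU1 (VPos adj)
open Pool.Agent.D2 (Ctx0)
open Pool.Agent.D2P (clI mem_clI)
open Pool.Agent.TWM Pool.Agent.TWC
open Pool.Agent.TWCT (PB1)

universe u

variable {k Ω : Type u} [Field k] [Field Ω] [Algebra k Ω] {v : RVal Ω} {p : ℕ}
  {C L E N : IntermediateField k Ω} {x c : ℕ → Ω} {r : ℝ} {Th : ℕ → ℕ → Ω → Ω}

section

variable [hp : Fact p.Prime]

theorem exists_root_pow (hE : ∀ a ∈ E, ∃ b ∈ E, b ^ p = a) (n : ℕ) {a : Ω} (ha : a ∈ E) :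
    ∃ b ∈ E, b ^ p ^ n = a := by
  induction n generalizing a with
  | zero => exact ⟨a, ha, by rw [pow_zero, pow_one]⟩
  | succ n ih =>
    obtain ⟨b, hb, h1⟩ := hE a ha
    obtain ⟨d, hd, h2⟩ := ih hb
    exact ⟨d, hd, by rw [pow_succ, pow_mul, h2, h1]⟩

theorem lt_pow_self' (m : ℕ) : m < p ^ m := Nat.lt_pow_self hp.out.one_lt

theorem pow_inj [CharP Ω p] {a b : Ω} (n : ℕ) (h : a ^ p ^ n = b ^ p ^ n) : a = b := by
  have h1 : (a - b) ^ p ^ n = 0 := by rw [sub_pow_char_pow, h, sub_self]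
  exact sub_eq_zero.1 (pow_eq_zero_iff (pow_ne_zero n hp.out.ne_zero) |>.1 h1)

theorem ge_of_pow {g : Ω} {b : ℝ} {q : ℕ} (hq : q ≠ 0) (h : v.Ge (q * b) (g ^ q)) : v.Ge b g := by
  intro h0
  have h1 := h (pow_ne_zero q h0)
  rw [v.map_pow h0] at h1
  have h2 : (0 : ℝ) < q := by exact_mod_cast Nat.pos_of_ne_zero hq
  exact le_of_mul_le_mul_left h1 h2

/-- The roots of the elements of a field with the `p`-basis `x 0`. -/
theorem pb1_root (hr : ∀ n, x (n + 1) ^ p = x n) [CharP Ω p] (h : PB1 p N (x 0)) :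
    ∀ a ∈ N, ∃ Q ∈ PI N, (Q.eval (x 1)) ^ p = a := by
  intro a ha
  obtain ⟨q, hq, h1⟩ := h a ha
  refine ⟨∑ j ∈ Finset.range p, Polynomial.C (q j) * X ^ j, sum_mem fun j _ =>
    mul_mem (C_mem_PI (hq j)) (pow_mem X_mem_PI j), ?_⟩
  rw [eval_finsetSum, sum_pow_char, h1]
  refine Finset.sum_congr rfl fun j _ => ?_
  rw [eval_mul, eval_C, eval_pow, eval_X, mul_pow, ← pow_mul, mul_comm j p, pow_mul, hr]

/-- The power of a polynomial in a root. -/
theorem eval_pow_mem (hr : ∀ n, x (n + 1) ^ p = x n) [CharP Ω p] (hx : x 0 ∈ N) (n : ℕ)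
    {P : Polynomial Ω} (hP : P ∈ PI N) : (P.eval (x n)) ^ p ^ n ∈ N := by
  have e1 := root_pow_add hr 0 n
  rw [zero_add] at e1
  rw [eval_eq_sum, Polynomial.sum, sum_pow_char_pow]
  refine sum_mem fun i _ => ?_
  rw [mul_pow, ← pow_mul, mul_comm i, pow_mul, e1]
  exact mul_mem (pow_mem (hP i) _) (pow_mem hx i)

end

/-- The derivative of order `m`. -/
noncomputable def hdr (p : ℕ) (E : IntermediateField k Ω) (Th : ℕ → ℕ → Ω → Ω) (m : ℕ) (f : Ω) :
    Ω := by
  classical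
  exact if h : ∃ g ∈ E, g ^ p ^ m = f then Th m m h.choose ^ p ^ m else 0

namespace Tht

variable [hp : Fact p.Prime] [CharP Ω p]

theorem frob' (h : Tht p v C L E x c r Th) {N j : ℕ} (hj : j < p ^ N) (d : ℕ) {y : Ω}
    (hy : y ∈ clI v (L ⊔ E)) : Th N j (y ^ p ^ d) = Th (N + d) j y ^ p ^ d := by
  induction d generalizing N with
  | zero => rw [pow_zero, pow_one, pow_one, add_zero]
  | succ d ih =>
    rw [pow_succ, pow_mul, h.frob hj (pow_mem hy _), ih (N := N + 1)
      (hj.trans_le (Nat.pow_le_pow_right hp.out.pos (Nat.le_succ N))), ← pow_mul, add_right_comm,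
      add_assoc]

/-- The value of the derivative. -/
theorem hdr_eq (h : Tht p v C L E x c r Th) {n m : ℕ} (hm : m < p ^ n) {g : Ω} (hg : g ∈ E) :
    hdr p E Th m (g ^ p ^ n) = Th n m g ^ p ^ n := by
  obtain ⟨g', hg', h1⟩ := exists_root_pow h.dat.perf m (pow_mem hg (p ^ n))
  have hex : ∃ g'' ∈ E, g'' ^ p ^ m = g ^ p ^ n := ⟨g', hg', h1⟩
  have h2 : hdr p E Th m (g ^ p ^ n) = Th m m hex.choose ^ p ^ m := by
    rw [hdr, dif_pos hex]
  obtain ⟨h3, h4⟩ := hex.choose_spec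
  rw [h2]
  generalize hex.choose = a at h3 h4
  have hm' : m < p ^ m := lt_pow_self' m
  rcases le_total n m with hnm | hnm
  · obtain ⟨d, rfl⟩ := Nat.exists_eq_add_of_le hnm
    have h5 : a ^ p ^ d = g := by
      refine pow_inj (p := p) n ?_
      rw [← pow_mul, ← pow_add, add_comm d n, h4]
    rw [← h5, h.frob' hm d (h.dat.leE h3), ← pow_mul, ← pow_add, add_comm d n]
  · obtain ⟨d, hd⟩ := Nat.exists_eq_add_of_le hnm
    have h5 : g ^ p ^ d = a := by
      refine pow_inj (p := p) m ?_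
      rw [← pow_mul, ← pow_add, add_comm d m, ← hd, h4]
    rw [← h5, h.frob' hm' d (h.dat.leE hg), ← hd, ← pow_mul, ← pow_add, add_comm d m, ← hd]

/-- The roots of the scalars. -/
theorem exists_root_k [hcx : Fact (Ctx0 k v)] (h : Tht p v C L E x c r Th) [CharP k p] (n : ℕ)
    (a : k) : ∃ b : k, b ^ p ^ n = a := by
  by_cases ha : a = 0
  · exact ⟨0, by rw [ha, zero_pow (pow_ne_zero n hp.out.ne_zero)]⟩
  have ha' : algebraMap k Ω a ≠ 0 := (_root_.map_ne_zero _).2 ha
  obtain ⟨g, hg, h1⟩ := exists_root_pow h.dat.perf n (E.algebraMap_mem a)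
  have hq : (p ^ n : ℕ) ≠ 0 := pow_ne_zero n hp.out.ne_zero
  have hg0 : g ≠ 0 := by
    rintro rfl
    exact ha' (by rw [← h1, zero_pow hq])
  have hvg : v g = 0 := by
    have h2 := v.map_pow hg0 (p ^ n)
    rw [h1, hcx.out.triv a ha] at h2
    have h3 : ((p ^ n : ℕ) : ℝ) ≠ 0 := by exact_mod_cast hq
    exact (mul_eq_zero.1 h2.symm).resolve_left h3
  obtain ⟨b, hb, h2⟩ := hcx.out.res g hg0 hvg
  refine ⟨b, ?_⟩
  by_contra hne
  have h3 : algebraMap k Ω (a - b ^ p ^ n) ≠ 0 := (_root_.map_ne_zero _).2 (sub_ne_zero.2 (Ne.symm hne))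
  have h4 : algebraMap k Ω (a - b ^ p ^ n) = (g - algebraMap k Ω b) ^ p ^ n := by
    rw [map_sub, map_pow, sub_pow_char_pow, h1]
  have h5 : g - algebraMap k Ω b ≠ 0 := by
    intro h0
    exact h3 (by rw [h4, h0, zero_pow hq])
  have h6 := h2 h5
  have h7 : v (algebraMap k Ω (a - b ^ p ^ n)) = 0 :=
    hcx.out.triv _ (sub_ne_zero.2 (Ne.symm hne))
  rw [h4, v.map_pow h5] at h7
  have h8 : (0 : ℝ) < ((p ^ n : ℕ) : ℝ) := by exact_mod_cast Nat.pos_of_ne_zero hq
  have h9 := mul_pos h8 h6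
  linarith

end Tht

/-- **The derivatives**, from the operators `Th`. -/
theorem exists_hder [hp : Fact p.Prime] [CharP k p] [CharP Ω p] [hcx : Fact (Ctx0 k v)]
    (hc : CompleteV v) {C L E : IntermediateField k Ω} {x c : ℕ → Ω} {r : ℝ}
    {Th : ℕ → ℕ → Ω → Ω} (h : Tht p v C L E x c r Th) : ∃ D : ℕ → Ω → Ω,
      (∀ n m : ℕ, m < p ^ n → ∀ g ∈ E, g ^ p ^ n ∈ C → D m (g ^ p ^ n) = Th n m g ^ p ^ n) ∧
      D 1 (x 0) = c 0 ∧
      ∀ N : IntermediateField k Ω, N ≤ C → x 0 ∈ N → PB1 p N (x 0) →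
        HDer p v N (x 0) D ∧ ∀ m : ℕ, ∀ f ∈ N, ∃ g ∈ N, D m f = c 0 ^ m * g := by
  have hr := h.dat.nbx.root
  have hLT := h.dat.leL
  have hET := h.dat.leE
  have hrn : ∀ n, x n ^ p ^ n = x 0 := fun n => by
    have := root_pow_add hr 0 n
    rwa [zero_add] at this
  have hcn : ∀ n, c n ^ p ^ n = c 0 := fun n => by
    have := root_pow_add h.dat.rootc 0 n
    rwa [zero_add] at this
  have key : ∀ {n m : ℕ}, m < p ^ n → ∀ {g f : Ω}, g ∈ E → g ^ p ^ n = f →
      hdr p E Th m f = Th n m g ^ p ^ n := by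
    rintro n m hm g f hg rfl
    exact h.hdr_eq hm hg
  have hxx : ∀ {n m : ℕ}, m < p ^ n → Th n m (x n) = c n ^ m * (taylor (x n) X).coeff m := by
    intro n m hm
    have := h.ev hm (P := X) X_mem_PI
    rwa [eval_X] at this
  refine ⟨hdr p E Th, fun n m hm g hg _ => h.hdr_eq hm hg, ?_, fun N hNC hxN hpb => ?_⟩
  · have h1 : (1 : ℕ) < p ^ 1 := by rw [pow_one]; exact hp.out.one_lt
    rw [key h1 (h.dat.mem 1) (hrn 1), hxx h1, taylor_X, coeff_add, coeff_X_one, coeff_C,
      if_neg one_ne_zero, add_zero, mul_one, pow_one, hcn]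
  have hroot := pb1_root hr hpb
  have hNL : N ≤ L := hNC.trans h.dat.le
  have hrt : ∀ n, ∀ f ∈ N, ∃ P ∈ PI N, P.eval (x n) ∈ E ∧ (P.eval (x n)) ^ p ^ n = f := by
    intro n f hf
    obtain ⟨g, hg, h1⟩ := exists_root_pow h.dat.perf n (h.dat.CE (hNC hf))
    have h2 : g ^ p ^ n ∈ N := by rwa [h1]
    obtain ⟨P, hP, rfl⟩ := root_le_DX hr hroot n h2
    exact ⟨P, hP, hg, h1⟩
  have hlt : ∀ m, m < p ^ m := fun m => lt_pow_self' m
  refine ⟨?_, fun m f hf => ?_⟩
  · exact
      { zero := fun f hf => by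
          have h1 : (0 : ℕ) < p ^ 0 := by rw [pow_zero]; exact one_pos
          have hfE := h.dat.CE (hNC hf)
          rw [key h1 hfE (by rw [pow_zero, pow_one]), h.zero 0 (hET hfE), pow_zero, pow_one]
        add := fun m f hf g hg => by
          obtain ⟨P, hP, hPE, h1⟩ := hrt m f hf
          obtain ⟨Q, hQ, hQE, h2⟩ := hrt m g hg
          rw [key (hlt m) (add_mem hPE hQE) (by rw [add_pow_char_pow, h1, h2]),
            key (hlt m) hPE h1, key (hlt m) hQE h2, h.add m m (hET hPE) (hET hQE),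
            add_pow_char_pow]
        smul := fun m a f hf => by
          obtain ⟨P, hP, hPE, h1⟩ := hrt m f hf
          obtain ⟨b, hb⟩ := h.exists_root_k m a
          rw [key (hlt m) (mul_mem (E.algebraMap_mem b) hPE) (by
            rw [mul_pow, h1, ← map_pow, hb]), key (hlt m) hPE h1, h.smul (hlt m) b (hET hPE),
            mul_pow, ← map_pow, hb]
        mul := fun m f hf g hg => by
          obtain ⟨P, hP, hPE, h1⟩ := hrt m f hf
          obtain ⟨Q, hQ, hQE, h2⟩ := hrt m g hg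
          rw [key (hlt m) (mul_mem hPE hQE) (by rw [mul_pow, h1, h2]),
            h.leib (hlt m) (PI_mono hNL hP) (hET hQE), sum_pow_char_pow]
          refine Finset.sum_congr rfl fun ij hij => ?_
          have h3 := Finset.HasAntidiagonal.mem_antidiagonal.1 hij
          have h4 := hlt m
          rw [mul_pow, key (n := m) (by omega) hPE h1, key (n := m) (by omega) hQE h2]
        frob := fun m f hf => by
          obtain ⟨P, hP, hPE, h1⟩ := hrt m f hf
          have h2 : p * m < p ^ (m + 1) := by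
            rw [pow_succ']
            exact Nat.mul_lt_mul_of_pos_left (hlt m) hp.out.pos
          rw [key h2 hPE (by rw [pow_succ, pow_mul, h1]), h.lev (hlt m) (hET hPE), pow_succ, pow_mul,
            key (hlt m) hPE h1]
        frob0 := fun m hd f hf => by
          obtain ⟨P, hP, hPE, h1⟩ := hrt m f hf
          have h2 : m < p ^ (m + 1) :=
            (hlt m).trans_le (Nat.pow_le_pow_right hp.out.pos (Nat.le_succ m))
          rw [key h2 hPE (by rw [pow_succ, pow_mul, h1]), h.van (m := 1) h2 (by rwa [pow_one])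
            (PI_mono hNL hP), zero_pow (pow_ne_zero _ hp.out.ne_zero)]
        ge := fun m f hf b hb => by
          obtain ⟨P, hP, hPE, h1⟩ := hrt m f hf
          have hq : (p ^ m : ℕ) ≠ 0 := pow_ne_zero m hp.out.ne_zero
          have hq' : (0 : ℝ) < ((p ^ m : ℕ) : ℝ) := by exact_mod_cast Nat.pos_of_ne_zero hq
          have e1 : ((p ^ m : ℕ) : ℝ) * (b / ((p ^ m : ℕ) : ℝ)) = b := by
            field_simp
          have h2 : v.Ge (b / ((p ^ m : ℕ) : ℝ)) (P.eval (x m)) := by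
            refine ge_of_pow hq ?_
            rw [h1, e1]
            exact hb
          have h3 := TWM.ge_pow (h.ge (hlt m) (hET hPE) h2) (p ^ m)
          rw [e1] at h3
          rw [key (hlt m) hPE h1]
          exact h3
        mem := hxN
        x2 := fun m hm => by
          have h1 : 1 ≠ m := by omega
          have h2 : m ≠ 0 := by omega
          rw [key (hlt m) (h.dat.mem m) (hrn m), hxx (hlt m), taylor_X, coeff_add, coeff_X,
            if_neg h1, coeff_C, if_neg h2, add_zero, mul_zero,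
            zero_pow (pow_ne_zero _ hp.out.ne_zero)] }
  · obtain ⟨P, hP, hPE, h1⟩ := hrt m f hf
    refine ⟨((hasseDeriv m P).eval (x m)) ^ p ^ m,
      eval_pow_mem hr hxN m (hasseDeriv_mem_PI hP), ?_⟩
    rw [key (hlt m) hPE h1, h.ev (hlt m) (PI_mono hNL hP), taylor_coeff, mul_pow, ← pow_mul,
      mul_comm m, pow_mul, hcn]

end Pool.Agent.TWHT
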