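import Pool.Agent.Lib.TWHT.Hd

/-!
# TANK W, leaf (Ht): the uniform gain over a reduced Artin-Schreier step

`HDer.ug_step`: `N' = N(θ)`, `θ ^ p - θ = a ∈ N`; the gain of `N` is linear, no value of `D m f`,
`m ≥ 1`, is a value of `N'`: the gain of `N'` is linear.  `D m θ` is `-D m a` or
`(D (m / p) θ) ^ p - D m a`; for large `m` its value is positive, otherwise the values of
`D (p ^ j m) θ` are not bounded below.
-/

set_option autoImplicit false

open Polynomial

namespace Pool.Agent.TWHT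

open Pool.Agent.H15JM (RVal)
open Pool.Agent.LU1 (VPos adj)
open Pool.Agent.D2 (Ctx0)
open Pool.Agent.TWM
open Pool.Agent.TWCT (PB1 RStep)

universe u

variable {k Ω : Type u} [Field k] [Field Ω] [Algebra k Ω] {v : RVal Ω}
  {p : ℕ} {N N' : IntermediateField k Ω} {x : Ω} {D : ℕ → Ω → Ω}

/-- The powers of `θ` are orthogonal over `N`. -/
theorem rstep_orth (hp : p.Prime) {th : Ω} (hs : RStep p v N th N') {a : ℕ → Ω}
    (ha : ∀ i, a i ∈ N) {b : ℝ} (h : v.Ge b (∑ i ∈ Finset.range p, a i * th ^ i)) :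
    ∀ i < p, v.Ge b (a i * th ^ i) := by
  classical
  intro i hi h1
  by_contra h2
  rw [not_le] at h2
  have hai : a i ≠ 0 := fun h3 => h1 (by rw [h3, zero_mul])
  have hval : ∀ j, a j ≠ 0 → v (a j * th ^ j) = v (a j) + j * v th := fun j hj => by
    rw [v.map_mul hj (pow_ne_zero _ hs.ne), v.map_pow hs.ne]
  obtain ⟨m, hm, hmin⟩ := ((Finset.range p).filter fun j => a j ≠ 0).exists_min_image
    (fun j => v (a j * th ^ j)) ⟨i, Finset.mem_filter.2 ⟨Finset.mem_range.2 hi, hai⟩⟩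
  obtain ⟨hmp, hm0⟩ := Finset.mem_filter.1 hm
  obtain ⟨h3, h4⟩ := TWCT.sum_dom (Finset.range p) hmp (fun j => a j * th ^ j)
    (mul_ne_zero hm0 (pow_ne_zero _ hs.ne)) (fun j hj hjm => by
      intro h5
      have hj0 : a j ≠ 0 := fun h6 => h5 (by rw [h6, zero_mul])
      refine lt_of_le_of_ne (hmin j (Finset.mem_filter.2 ⟨hj, hj0⟩)) fun h6 => hjm ?_
      rw [hval m hm0, hval j hj0] at h6
      exact (hs.inj hp (Finset.mem_range.1 hmp) (Finset.mem_range.1 hj) (ha m) hm0 (ha j) hj0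
        h6).symm)
  have h5 := h h3
  rw [h4] at h5
  have h6 := hmin i (Finset.mem_filter.2 ⟨Finset.mem_range.2 hi, hai⟩)
  linarith

/-- A common lower bound. -/
theorem hdI_min (S : Finset ℕ) (P : ℕ → ℝ → Prop) (hP : ∀ i ∈ S, ∃ d : ℝ, 0 < d ∧ P i d)
    (hm : ∀ i ∈ S, ∀ d d', d' ≤ d → P i d → P i d') : ∃ d : ℝ, 0 < d ∧ ∀ i ∈ S, P i d := by
  classical
  induction S using Finset.induction_on with
  | empty => exact ⟨1, one_pos, fun i hi => absurd hi (Finset.notMem_empty i)⟩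
  | insert a S ha ih =>
    obtain ⟨d, hd, h1⟩ := ih (fun i hi => hP i (Finset.mem_insert_of_mem hi))
      (fun i hi => hm i (Finset.mem_insert_of_mem hi))
    obtain ⟨d', hd', h2⟩ := hP a (Finset.mem_insert_self a S)
    refine ⟨min d d', lt_min hd hd', fun i hi => ?_⟩
    rcases Finset.mem_insert.1 hi with rfl | hi'
    · exact hm i hi _ _ (min_le_right _ _) h2
    · exact hm i hi _ _ (min_le_left _ _) (h1 i hi')

/-- The gain of one element. -/
def GG (v : RVal Ω) (D : ℕ → Ω → Ω) (δ b : ℝ) (f : Ω) : Prop :=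
  ∀ m : ℕ, v.Ge (b + δ * m) (D m f)

theorem GG.mono {δ δ' b : ℝ} {f : Ω} (h : GG v D δ b f) (hδ : δ' ≤ δ) : GG v D δ' b f := fun m =>
  (h m).mono (by
    have : (0 : ℝ) ≤ m := Nat.cast_nonneg m
    nlinarith)

theorem HDer.gg_mul (h : HDer p v N x D) {f g : Ω} (hf : f ∈ N) (hg : g ∈ N) {δ b c : ℝ}
    (h1 : GG v D δ b f) (h2 : GG v D δ c g) : GG v D δ (b + c) (f * g) := by
  intro m
  rw [h.mul m f hf g hg]
  refine RVal.Ge.sum _ _ fun ij hij => ?_
  have e := Finset.HasAntidiagonal.mem_antidiagonal.1 hij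
  refine ((h1 ij.1).mul (h2 ij.2)).mono (le_of_eq ?_)
  rw [← e]
  push_cast
  ring

theorem HDer.D_zero (h : HDer p v N x D) (m : ℕ) : D m 0 = 0 := by
  have h1 := h.add m 0 (zero_mem N) 0 (zero_mem N)
  rw [add_zero] at h1
  exact left_eq_add.1 h1

theorem HDer.D_one (h : HDer p v N x D) {m : ℕ} (hm : m ≠ 0) : D m 1 = 0 := by
  induction m using Nat.strong_induction_on with
  | _ m ih =>
    have h1 := h.mul m 1 (one_mem N) 1 (one_mem N)
    rw [mul_one] at h1
    have h2 : ∑ ij ∈ Finset.HasAntidiagonal.antidiagonal m, D ij.1 1 * D ij.2 1 =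
        D 0 1 * D m 1 + D m 1 * D 0 1 := by
      have h3 : ∀ ij ∈ Finset.HasAntidiagonal.antidiagonal m, ij ∉ ({(0, m), (m, 0)} : Finset (ℕ × ℕ)) →
          D ij.1 1 * D ij.2 1 = 0 := by
        rintro ⟨i, j⟩ hij hn
        have e := Finset.HasAntidiagonal.mem_antidiagonal.1 hij
        simp only [Finset.mem_insert, Finset.mem_singleton, Prod.mk.injEq, not_or, not_and] at hn
        simp only at e ⊢
        rw [ih i (by omega) (by omega), zero_mul]
      rw [← Finset.sum_subset (s₁ := ({(0, m), (m, 0)} : Finset (ℕ × ℕ))) (by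
        intro ij hij
        rw [Finset.mem_insert, Finset.mem_singleton] at hij
        rcases hij with rfl | rfl
        · exact Finset.HasAntidiagonal.mem_antidiagonal.2 (zero_add m)
        · exact Finset.HasAntidiagonal.mem_antidiagonal.2 (add_zero m)) h3]
      rw [Finset.sum_pair (by
        intro h4
        rw [Prod.mk.injEq] at h4
        exact hm h4.1.symm)]
    rw [h2, h.zero 1 (one_mem N), one_mul, mul_one] at h1
    exact left_eq_add.1 h1

theorem HDer.D_sum (h : HDer p v N x D) (m : ℕ) {ι : Type*} (S : Finset ι) (f : ι → Ω)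
    (hf : ∀ i ∈ S, f i ∈ N) : D m (∑ i ∈ S, f i) = ∑ i ∈ S, D m (f i) := by
  classical
  induction S using Finset.induction_on with
  | empty => rw [Finset.sum_empty, Finset.sum_empty, h.D_zero]
  | insert a S ha ih =>
    rw [Finset.sum_insert ha, Finset.sum_insert ha, h.add m _ (hf a (Finset.mem_insert_self a S)) _
      (sum_mem fun i hi => hf i (Finset.mem_insert_of_mem hi)),
      ih fun i hi => hf i (Finset.mem_insert_of_mem hi)]

theorem HDer.gg_pow (h : HDer p v N x D) {f : Ω} (hf : f ∈ N) {δ b : ℝ}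
    (h1 : GG v D δ b f) (n : ℕ) : GG v D δ (n * b) (f ^ n) := by
  induction n with
  | zero =>
    intro m
    rw [pow_zero]
    rcases Nat.eq_zero_or_pos m with rfl | hm
    · rw [h.zero 1 (one_mem N)]
      refine RVal.Ge.of_le ?_
      rw [v.map_one]
      simp
    · rw [h.D_one hm.ne']
      exact RVal.Ge.zero
  | succ n ih =>
    have h2 := h.gg_mul (pow_mem hf n) hf ih h1
    rw [← pow_succ] at h2
    intro m
    refine (h2 m).mono (le_of_eq ?_)
    push_cast
    ring

/-- **The gain of `θ`**, for large orders. -/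
theorem HDer.theta_big [hp : Fact p.Prime] {th : Ω} (h : HDer p v N' x D)
    (hs : RStep p v N th N')
    (hirr : ∀ m : ℕ, 1 ≤ m → ∀ f ∈ N', D m f ≠ 0 → ∀ g ∈ N', g ≠ 0 → v (D m f) ≠ v g) {δ : ℝ}
    (hδ : 0 < δ) (hU : UG v N D δ) :
    ∃ (M : ℕ) (δ₂ : ℝ), 1 ≤ M ∧ 0 < δ₂ ∧ ∀ m, M ≤ m → v.Ge (δ₂ * m) (D m th) := by
  have hpp := hp.out
  have hp0 : (0 : ℝ) < p := by exact_mod_cast hpp.pos
  have hp1 : (1 : ℝ) < p := by exact_mod_cast hpp.one_lt
  have hneg := hs.neg
  obtain ⟨τ, hτ⟩ : ∃ τ, τ = v th := ⟨_, rfl⟩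
  rw [← hτ] at hneg
  obtain ⟨a, hadef⟩ : ∃ a, a = th ^ p - th := ⟨_, rfl⟩
  have haN : a ∈ N := by
    rw [hadef]
    exact hs.as
  have hthN : th ∈ N' := hs.mem
  obtain ⟨ha0, hav⟩ := hs.val_b hpp
  rw [← hadef] at ha0 hav
  rw [← hτ] at hav
  have hDa : ∀ m : ℕ, v.Ge (p * τ + δ * m) (D m a) := fun m =>
    hU m a haN _ (by
      rw [← hav]
      exact RVal.ge_self _)
  have hDp : ∀ m : ℕ, D m (th ^ p) = D m a + D m th := by
    intro m
    rw [← h.add m a (hs.le haN) th hthN, hadef, sub_add_cancel]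
  have hA : ∀ m : ℕ, ¬ p ∣ m → D m th = -D m a := by
    intro m hm
    have h1 := hDp m
    rw [h.frob0 m hm th hthN] at h1
    exact eq_neg_of_add_eq_zero_right h1.symm
  have hB : ∀ m : ℕ, D (p * m) th = D m th ^ p - D (p * m) a := by
    intro m
    have h1 := hDp (p * m)
    rw [h.frob m th hthN] at h1
    rw [h1]
    ring
  -- the bound `M`
  obtain ⟨M₁, hM₁⟩ := exists_nat_gt (-(2 * p * τ) / δ)
  obtain ⟨M, hM1, hMM⟩ : ∃ M : ℕ, 1 ≤ M ∧ M₁ ≤ M := ⟨max 1 M₁, le_max_left _ _, le_max_right _ _⟩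
  have hbig : ∀ m : ℕ, M ≤ m → δ / 2 * m ≤ p * τ + δ * m := by
    intro m hm
    rw [div_lt_iff₀ hδ] at hM₁
    have h1 : (M₁ : ℝ) ≤ m := by exact_mod_cast hMM.trans hm
    nlinarith
  have hpos : ∀ m : ℕ, M ≤ m → (0 : ℝ) < m := fun m hm => by
    exact_mod_cast (by omega : 0 < m)
  -- the values are positive
  have hge : ∀ m : ℕ, v.Ge τ (D m th) := fun m =>
    h.ge m th hthN τ (by
      rw [hτ]
      exact RVal.ge_self _)
  have hnn : ∀ m : ℕ, M ≤ m → D m th ≠ 0 → 0 < v (D m th) := by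
    intro m hm h0
    have hne : v (D m th) ≠ 0 := by
      have h1 := hirr m (hM1.trans hm) th hthN h0 1 (one_mem N') one_ne_zero
      rwa [v.map_one] at h1
    rcases lt_trichotomy (v (D m th)) 0 with hlt | heq | hgt
    · exfalso
      obtain ⟨t, ht⟩ : ∃ t, t = v (D m th) := ⟨_, rfl⟩
      rw [← ht] at hlt
      have key : ∀ j : ℕ, D (p ^ j * m) th ≠ 0 ∧ v (D (p ^ j * m) th) = p ^ j * t := by
        intro j
        induction j with
        | zero =>
          rw [pow_zero, one_mul, pow_zero, one_mul]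
          exact ⟨h0, ht.symm⟩
        | succ j ih =>
          obtain ⟨h1, h2⟩ := ih
          have e : p ^ (j + 1) * m = p * (p ^ j * m) := by ring
          have hv : v (D (p ^ j * m) th ^ p) = p ^ (j + 1) * t := by
            rw [v.map_pow h1, h2]
            ring
          have hpj : (0 : ℝ) < p ^ (j + 1) := pow_pos hp0 _
          have hmm : M ≤ p ^ (j + 1) * m :=
            hm.trans (Nat.le_mul_of_pos_left m (pow_pos hpp.pos _))
          have h3 : Gt v (v (D (p ^ j * m) th ^ p))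
              (D (p ^ j * m) th ^ p - D (p ^ (j + 1) * m) th) := by
            rw [e, hB, sub_sub_cancel, ← e, hv]
            refine Gt.of_ge (hDa _) ?_
            have h4 := hbig _ hmm
            have h5 := hpos _ hmm
            have h6 : (p : ℝ) ^ (j + 1) * t < 0 := mul_neg_of_pos_of_neg hpj hlt
            have h7 : 0 < δ / 2 * ((p ^ (j + 1) * m : ℕ) : ℝ) := mul_pos (half_pos hδ) h5
            linarith
          obtain ⟨h4, h5⟩ := Gt.val_eq (pow_ne_zero p h1) h3
          exact ⟨h4, by rw [h5, hv]⟩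
      obtain ⟨n, hn⟩ := exists_nat_gt (τ / t)
      obtain ⟨h1, h2⟩ := key n
      have h3 := hge _ h1
      rw [h2] at h3
      have h4 : (n : ℝ) ≤ (p : ℝ) ^ n := by
        exact_mod_cast (Nat.lt_pow_self hpp.one_lt).le
      rw [div_lt_iff_of_neg hlt] at hn
      nlinarith
    · exact absurd heq hne
    · exact hgt
  -- the first window
  obtain ⟨d, hd, h1⟩ := hdI_min (Finset.Ico M (p * M)) (fun m d => v.Ge (d * m) (D m th))
    (fun m hm => by
      have hm' := (Finset.mem_Ico.1 hm).1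
      by_cases h0 : D m th = 0
      · exact ⟨1, one_pos, by rw [h0]; exact RVal.Ge.zero⟩
      · refine ⟨v (D m th) / m, div_pos (hnn m hm' h0) (hpos m hm'), ?_⟩
        refine RVal.Ge.of_le ?_
        rw [div_mul_cancel₀ _ (hpos m hm').ne'])
    (fun m hm d d' hdd h2 => h2.mono (mul_le_mul_of_nonneg_right hdd (Nat.cast_nonneg m)))
  refine ⟨M, min d (δ / 2), hM1, lt_min hd (half_pos hδ), fun m hm => ?_⟩
  induction m using Nat.strong_induction_on with
  | _ m ih =>
    have hm0 : (0 : ℝ) ≤ m := Nat.cast_nonneg m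
    have hDa' : v.Ge (min d (δ / 2) * m) (D m a) := by
      refine (hDa m).mono (le_trans ?_ (hbig m hm))
      exact mul_le_mul_of_nonneg_right (min_le_right _ _) hm0
    by_cases hlt : m < p * M
    · exact (h1 m (Finset.mem_Ico.2 ⟨hm, hlt⟩)).mono
        (mul_le_mul_of_nonneg_right (min_le_left _ _) hm0)
    · by_cases hdvd : p ∣ m
      · obtain ⟨m', rfl⟩ := hdvd
        have h2 : M ≤ m' := Nat.le_of_mul_le_mul_left (not_lt.1 hlt) hpp.pos
        have h3 : m' < p * m' := by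
          have := hpp.one_lt
          nlinarith
        rw [hB]
        refine RVal.Ge.sub ((ge_pow (ih m' h3 h2) p).mono (le_of_eq ?_)) hDa'
        push_cast
        ring
      · rw [hA m hdvd]
        exact hDa'.neg

/-- **The step**: no value of `D m f`, `m ≥ 1`, is a value of `N'`. -/
theorem HDer.ug_step [hp : Fact p.Prime] [CharP k p] [CharP Ω p] [hcx : Fact (Ctx0 k v)]
    {th : Ω} (h : HDer p v N' x D) (hs : RStep p v N th N')
    (hirr : ∀ m : ℕ, 1 ≤ m → ∀ f ∈ N', D m f ≠ 0 → ∀ g ∈ N', g ≠ 0 → v (D m f) ≠ v g) {δ : ℝ}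
    (hδ : 0 < δ) (hU : UG v N D δ) : ∃ δ' : ℝ, 0 < δ' ∧ UG v N' D δ' := by
  obtain ⟨M, δ₂, hM, hδ₂, h1⟩ := h.theta_big hs hirr hδ hU
  have hneg := hs.neg
  have hthN : th ∈ N' := hs.mem
  -- the small orders
  obtain ⟨d, hd, h2⟩ := hdI_min (Finset.Ico 1 M) (fun m d => v.Ge (v th + d * m) (D m th))
    (fun m hm => by
      have hm1 := (Finset.mem_Ico.1 hm).1
      have hm0 : (0 : ℝ) < m := by exact_mod_cast (by omega : 0 < m)
      by_cases h0 : D m th = 0
      · exact ⟨1, one_pos, by rw [h0]; exact RVal.Ge.zero⟩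
      · have h3 := h.ge m th hthN (v th) (RVal.ge_self _) h0
        have h4 := hirr m hm1 th hthN h0 th hthN hs.ne
        have h5 : v th < v (D m th) := lt_of_le_of_ne h3 h4.symm
        refine ⟨(v (D m th) - v th) / m, div_pos (by linarith) hm0, RVal.Ge.of_le ?_⟩
        rw [div_mul_cancel₀ _ hm0.ne']
        linarith)
    (fun m hm d d' hdd h3 => h3.mono (by
      have : (0 : ℝ) ≤ m := Nat.cast_nonneg m
      nlinarith))
  obtain ⟨δ', hδ'⟩ : ∃ δ', δ' = min δ (min d δ₂) := ⟨_, rfl⟩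
  have hpos : 0 < δ' := by
    rw [hδ']
    exact lt_min hδ (lt_min hd hδ₂)
  have hle : δ' ≤ δ := by
    rw [hδ']
    exact min_le_left _ _
  have hle1 : δ' ≤ d := by
    rw [hδ']
    exact (min_le_right _ _).trans (min_le_left _ _)
  have hle2 : δ' ≤ δ₂ := by
    rw [hδ']
    exact (min_le_right _ _).trans (min_le_right _ _)
  have hth : GG v D δ' (v th) th := by
    intro m
    have hm0 : (0 : ℝ) ≤ m := Nat.cast_nonneg m
    rcases Nat.eq_zero_or_pos m with rfl | hm
    · rw [h.zero th hthN]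
      refine RVal.Ge.of_le ?_
      simp
    · rcases lt_or_ge m M with h3 | h3
      · exact (h2 m (Finset.mem_Ico.2 ⟨hm, h3⟩)).mono (by nlinarith)
      · exact (h1 m h3).mono (by nlinarith)
  refine ⟨δ', hpos, fun m f hf b hb => ?_⟩
  obtain ⟨a, ha, rfl⟩ := hs.exists_poly hp.out hf
  have hmem : ∀ i ∈ Finset.range p, a i * th ^ i ∈ N' := fun i _ =>
    mul_mem (hs.le (ha i)) (pow_mem hthN i)
  rw [h.D_sum m _ _ hmem]
  refine RVal.Ge.sum _ _ fun i hi => ?_
  have hbi := rstep_orth hp.out hs ha hb i (Finset.mem_range.1 hi)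
  by_cases h0 : a i = 0
  · rw [h0, zero_mul, h.D_zero]
    exact RVal.Ge.zero
  · have h3 : GG v D δ' (v (a i)) (a i) := GG.mono (fun m => hU m (a i) (ha i) _ (RVal.ge_self _)) hle
    have h4 := h.gg_mul (hs.le (ha i)) (pow_mem hthN i) h3 (h.gg_pow hthN hth i)
    refine (h4 m).mono ?_
    have h5 := hbi (mul_ne_zero h0 (pow_ne_zero i hs.ne))
    rw [v.map_mul h0 (pow_ne_zero i hs.ne), v.map_pow hs.ne] at h5
    linarith

end Pool.Agent.TWHT
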