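import Pool.Agent.Lib.TWHT.Hd

/-!
# TANK W, leaf (Ht): the relation between the derivatives of the orders `p ^ i m`

* `HDer.mul'`, `map_one`, `x_pow`, `frobN`: the rules;
* `HDer.coef_ge`: the coefficients with respect to the `p`-basis are bounded;
* `HDer.gain_succ`: the propagation of the gain by `p`-th powers;
* `HDer.exists_rel0`: combinations with a large gain;
* **`HDer.rel`**: combinations with gains growing like `p ^ s`.
-/

set_option autoImplicit false
set_option linter.unusedSectionVars false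

open Polynomial

namespace Pool.Agent.TWHT

open Pool.Agent.H15JM (RVal)
open Pool.Agent.LU1 (VPos adj)
open Pool.Agent.D2 (Ctx0)
open Pool.Agent.TWM
open Pool.Agent.TWCT (PB1)

universe u

variable {k Ω : Type u} [Field k] [Field Ω] [Algebra k Ω] {v : RVal Ω}
  {p : ℕ} {N N' : IntermediateField k Ω} {x : Ω} {D : ℕ → Ω → Ω}

section Rules

variable [hp : Fact p.Prime] (h : HDer p v N x D)

include h

theorem HDer.map_zero (m : ℕ) : D m 0 = 0 := by
  have h1 := h.add m 0 (zero_mem N) 0 (zero_mem N)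
  rw [add_zero] at h1
  exact left_eq_add.1 h1

theorem HDer.map_sum (m : ℕ) {ι : Type*} (S : Finset ι) {f : ι → Ω} (hf : ∀ i ∈ S, f i ∈ N) :
    D m (∑ i ∈ S, f i) = ∑ i ∈ S, D m (f i) := by
  classical
  induction S using Finset.induction_on with
  | empty => rw [Finset.sum_empty, Finset.sum_empty, h.map_zero]
  | insert i S hi ih =>
    rw [Finset.sum_insert hi, Finset.sum_insert hi,
      h.add m _ (hf i (Finset.mem_insert_self i S)) _
        (sum_mem fun l hl => hf l (Finset.mem_insert_of_mem hl)),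
      ih fun l hl => hf l (Finset.mem_insert_of_mem hl)]

theorem HDer.mul' (m : ℕ) {f g : Ω} (hf : f ∈ N) (hg : g ∈ N) :
    D m (f * g) = ∑ i ∈ Finset.range (m + 1), D i f * D (m - i) g := by
  rw [h.mul m f hf g hg]
  exact Finset.Nat.sum_antidiagonal_eq_sum_range_succ_mk _ m

theorem HDer.map_one {m : ℕ} (hm : 0 < m) : D m 1 = 0 := by
  induction m using Nat.strong_induction_on with
  | _ m ih =>
    obtain ⟨l, rfl⟩ : ∃ l, m = l + 1 := ⟨m - 1, by omega⟩
    have h1 := h.mul' (l + 1) (one_mem N) (one_mem N)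
    have h0 : D 0 1 = (1 : Ω) := h.zero 1 (one_mem N)
    rw [mul_one, Finset.sum_range_succ, Finset.sum_range_succ', Finset.sum_eq_zero, Nat.sub_self,
      Nat.sub_zero, h0, zero_add, one_mul, mul_one] at h1
    · exact left_eq_add.1 h1
    · intro i hi
      rw [Finset.mem_range] at hi
      rw [ih (i + 1) (by omega) (by omega), zero_mul]

/-- The derivatives of the powers of `x`. -/
theorem HDer.x_step (m : ℕ) {f : Ω} (hf : f ∈ N) :
    D (m + 1) (f * x) = D (m + 1) f * x + D m f * D 1 x := by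
  rw [h.mul' (m + 1) hf h.mem, Finset.sum_range_succ, Finset.sum_range_succ, Finset.sum_eq_zero,
    Nat.sub_self, h.zero x h.mem, Nat.add_sub_cancel_left, zero_add, add_comm]
  intro i hi
  rw [Finset.mem_range] at hi
  rw [h.x2 _ (by omega), mul_zero]

theorem HDer.x_pow (r : ℕ) : (∀ n, r < n → D n (x ^ r) = 0) ∧ D r (x ^ r) = D 1 x ^ r := by
  induction r with
  | zero =>
    refine ⟨fun n hn => ?_, ?_⟩
    · rw [pow_zero]
      exact h.map_one hn
    · rw [pow_zero, pow_zero]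
      exact h.zero 1 (one_mem N)
  | succ r ih =>
    have hr : x ^ r ∈ N := pow_mem h.mem r
    refine ⟨fun n hn => ?_, ?_⟩
    · obtain ⟨l, rfl⟩ : ∃ l, n = l + 1 := ⟨n - 1, by omega⟩
      rw [pow_succ, h.x_step l hr, ih.1 _ (by omega), ih.1 _ (by omega), zero_mul, zero_mul,
        add_zero]
    · rw [pow_succ, h.x_step r hr, ih.1 _ (Nat.lt_succ_self r), ih.2, zero_mul, zero_add, pow_succ]

theorem HDer.frobN (s : ℕ) {f : Ω} (hf : f ∈ N) :
    (∀ l, D (p ^ s * l) (f ^ p ^ s) = D l f ^ p ^ s) ∧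
      ∀ i, ¬ p ^ s ∣ i → D i (f ^ p ^ s) = 0 := by
  induction s with
  | zero =>
    refine ⟨fun l => by rw [pow_zero, one_mul, pow_one, pow_one], fun i hi => ?_⟩
    rw [pow_zero] at hi
    exact absurd (one_dvd i) hi
  | succ s ih =>
    have hfs : f ^ p ^ s ∈ N := pow_mem hf _
    refine ⟨fun l => ?_, fun i hi => ?_⟩
    · rw [pow_succ, pow_mul, show p ^ s * p * l = p * (p ^ s * l) by ring, h.frob _ _ hfs, ih.1 l,
        ← pow_mul]
    · rw [pow_succ, pow_mul]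
      by_cases h1 : p ∣ i
      · obtain ⟨j, rfl⟩ := h1
        rw [h.frob _ _ hfs, ih.2 j, zero_pow hp.out.ne_zero]
        intro h2
        refine hi ?_
        rw [pow_succ, mul_comm]
        exact Nat.mul_dvd_mul_left p h2
      · exact h.frob0 i h1 _ hfs

/-- The product with a `p`-th power, small order. -/
theorem HDer.mul_powp {n : ℕ} (hn : n < p) {f g : Ω} (hf : f ∈ N) (hg : g ∈ N) :
    D n (f ^ p * g) = f ^ p * D n g := by
  rw [h.mul' n (pow_mem hf p) hg, Finset.sum_eq_single 0, h.zero _ (pow_mem hf p), Nat.sub_zero]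
  · intro i hi hi0
    rw [Finset.mem_range] at hi
    rw [h.frob0 i _ f hf, zero_mul]
    intro h1
    have := Nat.le_of_dvd (Nat.pos_of_ne_zero hi0) h1
    omega
  · intro h1
    exact absurd (Finset.mem_range.2 (Nat.succ_pos n)) h1

/-- The product of a `p`-th power and of a small power of `x`, order divisible by `p`. -/
theorem HDer.powp_x {M r : ℕ} (hM : p ∣ M) (hr : r < p) {f : Ω} (hf : f ∈ N) :
    D M (x ^ r * f ^ p) = x ^ r * D M (f ^ p) := by
  have hxr : x ^ r ∈ N := pow_mem h.mem r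
  rw [h.mul' M hxr (pow_mem hf p), Finset.sum_eq_single 0, h.zero _ hxr, Nat.sub_zero]
  · intro i hi hi0
    rw [Finset.mem_range] at hi
    by_cases h1 : r < i
    · rw [(h.x_pow r).1 i h1, zero_mul]
    · rw [h.frob0 (M - i) _ f hf, mul_zero]
      intro h2
      have h3 : p ∣ i := (Nat.dvd_sub_iff_right (by omega) hM).1 h2
      have := Nat.le_of_dvd (Nat.pos_of_ne_zero hi0) h3
      omega
  · intro h1
    exact absurd (Finset.mem_range.2 (Nat.succ_pos M)) h1

/-- The coefficients with respect to the powers of `x` are bounded. -/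
theorem HDer.coef_ge (hx0 : x ≠ 0) (hD1 : D 1 x ≠ 0) {n : ℕ} (hn : n ≤ p) {g : ℕ → Ω}
    (hg : ∀ j, g j ∈ N) {c : ℝ} (hc : v.Ge c (∑ j ∈ Finset.range n, g j ^ p * x ^ j)) :
    ∀ j < n, v.Ge (c - n ^ 2 * (v (D 1 x) - v x)) (g j ^ p * x ^ j) := by
  have hτ : 0 ≤ v (D 1 x) - v x := by
    have h1 := h.ge 1 x h.mem (v x) (RVal.ge_self x) hD1
    linarith
  induction n generalizing c with
  | zero => exact fun j hj => absurd hj (Nat.not_lt_zero j)
  | succ n ih =>
    have hn' : n < p := hn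
    have hgx : ∀ j, g j ^ p * x ^ j ∈ N := fun j => mul_mem (pow_mem (hg j) _) (pow_mem h.mem _)
    have h1 : D n (∑ j ∈ Finset.range (n + 1), g j ^ p * x ^ j) = g n ^ p * D 1 x ^ n := by
      rw [h.map_sum n _ fun j _ => hgx j, Finset.sum_range_succ, Finset.sum_eq_zero, zero_add,
        h.mul_powp hn' (hg n) (pow_mem h.mem n), (h.x_pow n).2]
      intro j hj
      rw [Finset.mem_range] at hj
      rw [h.mul_powp hn' (hg j) (pow_mem h.mem j), (h.x_pow j).1 n hj, mul_zero]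
    have h2 : v.Ge c (g n ^ p * D 1 x ^ n) := by
      rw [← h1]
      exact h.ge n _ (sum_mem fun j _ => hgx j) c hc
    have h3 : v.Ge (-(n * (v (D 1 x) - v x))) ((x / D 1 x) ^ n) := by
      refine (ge_pow (RVal.ge_self (x / D 1 x)) n).mono (le_of_eq ?_)
      rw [v.map_div hx0 hD1]
      ring
    have h4 : v.Ge (c - n * (v (D 1 x) - v x)) (g n ^ p * x ^ n) := by
      have h5 := h2.mul h3
      have h6 : g n ^ p * D 1 x ^ n * (x / D 1 x) ^ n = g n ^ p * x ^ n := by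
        rw [div_pow, mul_assoc, mul_div_cancel₀ _ (pow_ne_zero n hD1)]
      rw [h6] at h5
      exact h5.mono (by linarith)
    have hn0 : (0 : ℝ) ≤ n := Nat.cast_nonneg n
    intro j hj
    rcases Nat.lt_succ_iff_lt_or_eq.1 hj with h5 | h5
    · have h6 : v.Ge (c - n * (v (D 1 x) - v x)) (∑ j ∈ Finset.range n, g j ^ p * x ^ j) := by
        have h7 : ∑ j ∈ Finset.range n, g j ^ p * x ^ j =
            ∑ j ∈ Finset.range (n + 1), g j ^ p * x ^ j - g n ^ p * x ^ n := by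
          rw [Finset.sum_range_succ, add_sub_cancel_right]
        rw [h7]
        refine (hc.mono ?_).sub h4
        nlinarith
      refine (ih (by omega) h6 j h5).mono ?_
      push_cast
      nlinarith
    · rw [h5]
      refine h4.mono ?_
      push_cast
      nlinarith [mul_nonneg hn0 hτ, mul_nonneg (mul_nonneg hn0 hn0) hτ]

end Rules

/-! ### Combinations -/

/-- The combinations of the `D (p ^ (n₁ + j) m)`. -/
noncomputable def opR (p : ℕ) (D : ℕ → Ω → Ω) (b : ℕ → k) (n₁ m J : ℕ) (f : Ω) : Ω :=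
  ∑ j ∈ Finset.range (J + 1), algebraMap k Ω (b j) * D (p ^ (n₁ + j) * m) f

section Comb

variable [hp : Fact p.Prime] {b : ℕ → k} {n₁ m J : ℕ} (h : HDer p v N x D)

include h

theorem HDer.opR_add {f g : Ω} (hf : f ∈ N) (hg : g ∈ N) :
    opR p D b n₁ m J (f + g) = opR p D b n₁ m J f + opR p D b n₁ m J g := by
  rw [opR, opR, opR, ← Finset.sum_add_distrib]
  exact Finset.sum_congr rfl fun j _ => by rw [h.add _ f hf g hg, mul_add]

theorem HDer.opR_smul (c : k) {f : Ω} (hf : f ∈ N) :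
    opR p D b n₁ m J (algebraMap k Ω c * f) = algebraMap k Ω c * opR p D b n₁ m J f := by
  rw [opR, opR, Finset.mul_sum]
  exact Finset.sum_congr rfl fun j _ => by
    rw [h.smul _ c f hf]
    ring

theorem HDer.opR_zero : opR p D b n₁ m J 0 = 0 :=
  Finset.sum_eq_zero fun j _ => by rw [h.map_zero, mul_zero]

theorem HDer.opR_sum {ι : Type*} (S : Finset ι) {f : ι → Ω} (hf : ∀ i ∈ S, f i ∈ N) :
    opR p D b n₁ m J (∑ i ∈ S, f i) = ∑ i ∈ S, opR p D b n₁ m J (f i) := by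
  classical
  induction S using Finset.induction_on with
  | empty => rw [Finset.sum_empty, Finset.sum_empty, h.opR_zero]
  | insert i S hi ih =>
    rw [Finset.sum_insert hi, Finset.sum_insert hi, h.opR_add (hf i (Finset.mem_insert_self i S))
        (sum_mem fun l hl => hf l (Finset.mem_insert_of_mem hl)),
      ih fun l hl => hf l (Finset.mem_insert_of_mem hl)]

theorem HDer.opR_ge (hk : Ctx0 k v) {f : Ω} (hf : f ∈ N) {c : ℝ} (hc : v.Ge c f) :
    v.Ge c (opR p D b n₁ m J f) := by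
  refine RVal.Ge.sum _ _ fun j _ => ?_
  have h1 := (hk.ge (b j)).mul (h.ge (p ^ (n₁ + j) * m) f hf c hc)
  rwa [zero_add] at h1

/-- **The propagation of the gain.** -/
theorem HDer.gain_succ [CharP k p] [CharP Ω p] (hpb : PB1 p N x) (hx0 : x ≠ 0)
    (hD1 : D 1 x ≠ 0) {g : ℝ}
    (hg : ∀ f ∈ N, ∀ c : ℝ, v.Ge c f → v.Ge (c + g) (opR p D b n₁ m J f)) :
    ∀ f ∈ N, ∀ c : ℝ, v.Ge c f → v.Ge (c + (p * g - p ^ 2 * (v (D 1 x) - v x)))
      (opR p D (fun j => b j ^ p) (n₁ + 1) m J f) := by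
  intro f hf c hc
  obtain ⟨w, hw, rfl⟩ := hpb f hf
  have h1 := h.coef_ge hx0 hD1 le_rfl hw hc
  have hwx : ∀ j, w j ^ p * x ^ j ∈ N := fun j => mul_mem (pow_mem (hw j) _) (pow_mem h.mem _)
  rw [h.opR_sum _ fun j _ => hwx j]
  refine RVal.Ge.sum _ _ fun r hr => ?_
  have hr' : r < p := Finset.mem_range.1 hr
  have h2 : opR p D (fun j => b j ^ p) (n₁ + 1) m J (w r ^ p * x ^ r) =
      x ^ r * opR p D b n₁ m J (w r) ^ p := by
    rw [opR, opR, sum_pow_char, Finset.mul_sum]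
    refine Finset.sum_congr rfl fun j _ => ?_
    have h3 : p ^ (n₁ + 1 + j) * m = p * (p ^ (n₁ + j) * m) := by
      rw [show n₁ + 1 + j = n₁ + j + 1 by ring, pow_succ]
      ring
    rw [mul_comm (w r ^ p), h3, h.powp_x (dvd_mul_right p _) hr' (hw r), h.frob _ _ (hw r), mul_pow,
      map_pow]
    ring
  rw [h2]
  by_cases hw0 : w r = 0
  · rw [hw0, h.opR_zero, zero_pow hp.out.ne_zero, mul_zero]
    exact RVal.Ge.zero
  · have h3 := h1 r hr' (mul_ne_zero (pow_ne_zero _ hw0) (pow_ne_zero _ hx0))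
    rw [v.map_mul (pow_ne_zero _ hw0) (pow_ne_zero _ hx0), v.map_pow hw0, v.map_pow hx0] at h3
    have h4 := (ge_pow (RVal.ge_self (v := v) x) r).mul
      (ge_pow (hg (w r) (hw r) _ (RVal.ge_self (w r))) p)
    refine h4.mono ?_
    nlinarith

end Comb

/-! ### Expansions -/

section Exp

variable {γ : ℝ} {e : Ω}

/-- One digit. -/
theorem exists_digit (hk : Ctx0 k v) (hγ : 0 < γ)
    (hdisc : ∀ a ∈ N, a ≠ 0 → ∃ z : ℤ, v a = z * γ) (he : e ∈ N) (he0 : e ≠ 0) (hve : v e = γ)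
    {g : Ω} (hg : g ∈ N) {w : ℤ} (hw : v.Ge (w * γ) g) :
    ∃ d : k, v.Ge ((w + 1) * γ) (g - algebraMap k Ω d * e ^ w) := by
  have hew : e ^ w ≠ 0 := zpow_ne_zero w he0
  have hvw : v (e ^ w) = w * γ := by rw [v.map_zpow he0, hve]
  by_cases h1 : v.Ge ((w + 1) * γ) g
  · exact ⟨0, by rwa [map_zero, zero_mul, sub_zero]⟩
  · have hg0 : g ≠ 0 := by
      rintro rfl
      exact h1 RVal.Ge.zero
    obtain ⟨z, hz⟩ := hdisc g hg hg0
    have h2 : z = w := by
      have h3 := hw hg0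
      rw [hz] at h3
      have h4 : (w : ℝ) ≤ z := le_of_mul_le_mul_right h3 hγ
      have h5 : w ≤ z := by exact_mod_cast h4
      by_contra h6
      have h7 : w + 1 ≤ z := by omega
      refine h1 fun _ => ?_
      rw [hz]
      have h8 : ((w : ℝ) + 1) ≤ z := by exact_mod_cast h7
      exact mul_le_mul_of_nonneg_right h8 hγ.le
    subst h2
    have h3 : v (g / e ^ z) = 0 := by rw [v.map_div hg0 hew, hz, hvw, sub_self]
    obtain ⟨d, -, hd⟩ := hk.res _ (div_ne_zero hg0 hew) h3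
    refine ⟨d, fun h4 => ?_⟩
    have hN : g - algebraMap k Ω d * e ^ z ∈ N :=
      sub_mem hg (mul_mem (N.algebraMap_mem d) (zpow_mem he z))
    obtain ⟨y, hy⟩ := hdisc _ hN h4
    have h5 : g - algebraMap k Ω d * e ^ z = (g / e ^ z - algebraMap k Ω d) * e ^ z := by
      rw [sub_mul, div_mul_cancel₀ _ hew]
    have h6 : g / e ^ z - algebraMap k Ω d ≠ 0 := by
      intro h7
      rw [h5, h7, zero_mul] at h4
      exact h4 rfl
    have h7 := hd h6
    have h8 : v (g - algebraMap k Ω d * e ^ z) = v (g / e ^ z - algebraMap k Ω d) + z * γ := by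
      rw [h5, v.map_mul h6 hew, hvw]
    rw [hy] at h8 ⊢
    have h9 : (z : ℝ) * γ < y * γ := by linarith
    have h10 : (z : ℝ) < y := lt_of_mul_lt_mul_right h9 hγ.le
    have h11 : z + 1 ≤ y := by exact_mod_cast h10
    have h12 : ((z : ℝ) + 1) ≤ y := by exact_mod_cast h11
    exact mul_le_mul_of_nonneg_right h12 hγ.le

/-- The expansions. -/
theorem exists_expN (hk : Ctx0 k v) (hγ : 0 < γ)
    (hdisc : ∀ a ∈ N, a ≠ 0 → ∃ z : ℤ, v a = z * γ) (he : e ∈ N) (he0 : e ≠ 0) (hve : v e = γ)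
    (t : ℕ) {g : Ω} (hg : g ∈ N) {w : ℤ} (hw : v.Ge (w * γ) g) :
    ∃ d : ℕ → k, v.Ge ((w + t) * γ)
      (g - ∑ i ∈ Finset.range t, algebraMap k Ω (d i) * e ^ (w + i)) := by
  induction t with
  | zero =>
    refine ⟨fun _ => 0, ?_⟩
    rw [Finset.sum_range_zero, sub_zero, Nat.cast_zero, add_zero]
    exact hw
  | succ t ih =>
    obtain ⟨d, hd⟩ := ih
    have hN : g - ∑ i ∈ Finset.range t, algebraMap k Ω (d i) * e ^ (w + i) ∈ N :=
      sub_mem hg (sum_mem fun i _ => mul_mem (N.algebraMap_mem _) (zpow_mem he _))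
    have hd' : v.Ge (((w + t : ℤ) : ℝ) * γ)
        (g - ∑ i ∈ Finset.range t, algebraMap k Ω (d i) * e ^ (w + i)) := by
      push_cast
      exact hd
    obtain ⟨a, ha⟩ := exists_digit hk hγ hdisc he he0 hve hN hd'
    refine ⟨fun i => if i = t then a else d i, ?_⟩
    beta_reduce
    rw [Finset.sum_range_succ, if_pos rfl]
    have h1 : ∑ i ∈ Finset.range t, algebraMap k Ω (if i = t then a else d i) * e ^ (w + i) =
        ∑ i ∈ Finset.range t, algebraMap k Ω (d i) * e ^ (w + i) := by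
      refine Finset.sum_congr rfl fun i hi => ?_
      rw [if_neg (Finset.mem_range.1 hi).ne]
    rw [h1, ← sub_sub]
    refine ha.mono (le_of_eq ?_)
    push_cast
    ring

end Exp

/-! ### The initial relation -/

/-- The elements of value `≥ c`. -/
def geHd (hk : Ctx0 k v) (c : ℝ) : Submodule k Ω where
  carrier := {x | v.Ge c x}
  add_mem' := fun ha hb => ha.add hb
  zero_mem' := RVal.Ge.zero
  smul_mem' := fun a x hx => by
    have h1 := (hk.ge a).mul hx
    rw [zero_add, ← Algebra.smul_def] at h1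
    exact h1

theorem mem_geHd {hk : Ctx0 k v} {c : ℝ} {x : Ω} : x ∈ geHd hk c ↔ v.Ge c x := Iff.rfl

theorem mk_geHd {hk : Ctx0 k v} {c : ℝ} {x : Ω} : (geHd hk c).mkQ x = 0 ↔ v.Ge c x := by
  rw [Submodule.mkQ_apply, Submodule.Quotient.mk_eq_zero, mem_geHd]

section Rel0

variable [hp : Fact p.Prime] (h : HDer p v N x D)

include h

/-- The product with a `p ^ s`-th power. -/
theorem HDer.mul_big (s : ℕ) {μ : ℝ}
    (hgain : ∀ j : ℕ, 1 ≤ j → ∀ f ∈ N, ∀ b : ℝ, v.Ge b f → v.Ge (b + μ) (D j f)) (M : ℕ)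
    {f g : Ω} (hf : f ∈ N) (hg : g ∈ N) {a c : ℝ} (ha : v.Ge a f) (hc : v.Ge c g) :
    v.Ge (p ^ s * (a + μ) + c) (D M (f ^ p ^ s * g) - f ^ p ^ s * D M g) := by
  rw [h.mul' M (pow_mem hf _) hg, Finset.sum_range_succ', h.zero _ (pow_mem hf _), Nat.sub_zero,
    add_sub_cancel_right]
  refine RVal.Ge.sum _ _ fun i _ => ?_
  by_cases h1 : p ^ s ∣ i + 1
  · obtain ⟨l, hl⟩ := h1
    have hl0 : 1 ≤ l := by
      rcases Nat.eq_zero_or_pos l with h2 | h2
      · rw [h2, mul_zero] at hl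
        exact absurd hl (Nat.succ_ne_zero i)
      · exact h2
    rw [hl, (h.frobN s hf).1 l]
    have h2 := (ge_pow (hgain l hl0 f hf a ha) (p ^ s)).mul
      (h.ge (M - p ^ s * l) g hg c hc)
    refine h2.mono (le_of_eq ?_)
    push_cast
    ring
  · rw [(h.frobN s hf).2 _ h1, zero_mul]
    exact RVal.Ge.zero

/-- **The initial relation.** -/
theorem HDer.exists_rel0 (hk : Ctx0 k v) {γ : ℝ} (hγ : 0 < γ)
    (hdisc : ∀ a ∈ N, a ≠ 0 → ∃ z : ℤ, v a = z * γ) {e : Ω} (he : e ∈ N)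
    (he0 : e ≠ 0) (hve : v e = γ) {μ : ℝ} (hμ : 0 < μ)
    (hgain : ∀ j : ℕ, 1 ≤ j → ∀ f ∈ N, ∀ b : ℝ, v.Ge b f → v.Ge (b + μ) (D j f))
    {m i₁ : ℕ} (hval : ∀ i, i₁ ≤ i → ∀ f ∈ N, D (p ^ i * m) f ∈ N) (g₀ : ℝ) :
    ∃ (J : ℕ) (b : ℕ → k), b J ≠ 0 ∧ ∀ f ∈ N, ∀ c : ℝ, v.Ge c f →
      v.Ge (c + g₀) (opR p D b i₁ m J f) := by
  classical
  have hp1 : (1 : ℝ) < p := by exact_mod_cast hp.out.one_lt
  obtain ⟨s, hs⟩ := pow_unbounded_of_one_lt (g₀ / μ) hp1
  have hs' : g₀ ≤ (p : ℝ) ^ s * μ := by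
    rw [div_lt_iff₀ hμ] at hs
    exact hs.le
  set c₁ : ℝ := (p : ℝ) ^ s * γ + g₀ with hc₁
  obtain ⟨T, hT⟩ := exists_nat_ge (c₁ / γ)
  have hT' : c₁ ≤ T * γ := by rwa [div_le_iff₀ hγ] at hT
  -- the classes
  set W : Submodule k (Ω ⧸ geHd hk c₁) :=
    Submodule.span k (Set.range fun i : Fin T => (geHd hk c₁).mkQ (e ^ (i : ℕ))) with hW
  have hfd : FiniteDimensional k W := FiniteDimensional.span_of_finite k (Set.finite_range _)
  have hmem : ∀ f ∈ N, v.Ge 0 f → (geHd hk c₁).mkQ f ∈ W := by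
    intro f hf hf0
    obtain ⟨d, hd⟩ := exists_expN hk hγ hdisc he he0 hve T hf (w := 0) (by
      rw [Int.cast_zero, zero_mul]
      exact hf0)
    have h1 : (geHd hk c₁).mkQ f =
        ∑ i ∈ Finset.range T, d i • (geHd hk c₁).mkQ (e ^ i) := by
      rw [← sub_eq_zero]
      have h2 : ∑ i ∈ Finset.range T, d i • (geHd hk c₁).mkQ (e ^ i) =
          (geHd hk c₁).mkQ (∑ i ∈ Finset.range T, algebraMap k Ω (d i) * e ^ ((0 : ℤ) + i)) := by
        rw [_root_.map_sum]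
        refine Finset.sum_congr rfl fun i _ => ?_
        rw [zero_add, zpow_natCast, ← Algebra.smul_def, map_smul]
      rw [h2, ← map_sub, mk_geHd]
      refine hd.mono ?_
      rw [Int.cast_zero, zero_add]
      exact hT'
    rw [h1]
    refine sum_mem fun i hi => W.smul_mem _ ?_
    exact Submodule.subset_span ⟨⟨i, Finset.mem_range.1 hi⟩, rfl⟩
  have hea : ∀ a : ℕ, e ^ a ∈ N := fun a => pow_mem he a
  have hea0 : ∀ a : ℕ, v.Ge 0 (e ^ a) := by
    intro a
    refine (ge_pow (RVal.ge_self (v := v) e) a).mono ?_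
    rw [hve]
    exact mul_nonneg (Nat.cast_nonneg a) hγ.le
  set w : ℕ → Fin (p ^ s) → W := fun j a =>
    ⟨(geHd hk c₁).mkQ (D (p ^ (i₁ + j) * m) (e ^ (a : ℕ))),
      hmem _ (hval _ (Nat.le_add_right _ _) _ (hea _)) (h.ge _ _ (hea _) 0 (hea0 _))⟩ with hw
  set d := Module.finrank k (Fin (p ^ s) → W) with hd
  have hli : ¬ LinearIndependent k (fun j : Fin (d + 1) => w j) := by
    intro h1
    have h2 := h1.fintype_card_le_finrank
    rw [Fintype.card_fin] at h2
    omega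
  rw [Fintype.not_linearIndependent_iff] at hli
  obtain ⟨β, hβ, j₀, hj₀⟩ := hli
  set b : ℕ → k := fun j => if hj : j < d + 1 then β ⟨j, hj⟩ else 0 with hb
  have hbβ : ∀ j : Fin (d + 1), b j = β j := fun j => dif_pos j.2
  set S := (Finset.range (d + 1)).filter fun j => b j ≠ 0 with hS
  have hSne : S.Nonempty := ⟨j₀, Finset.mem_filter.2 ⟨Finset.mem_range.2 j₀.2, by
    rw [hbβ]
    exact hj₀⟩⟩
  set J := S.max' hSne with hJ
  have hJS : J ∈ S := S.max'_mem hSne
  have hJd : J < d + 1 := Finset.mem_range.1 (Finset.mem_filter.1 hJS).1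
  have hbJ : b J ≠ 0 := (Finset.mem_filter.1 hJS).2
  have hsum : ∀ X : ℕ → Ω, ∑ j ∈ Finset.range (J + 1), algebraMap k Ω (b j) * X j =
      ∑ j : Fin (d + 1), algebraMap k Ω (β j) * X j := by
    intro X
    rw [Finset.sum_subset (s₂ := Finset.range (d + 1)) (fun j hj => by
      rw [Finset.mem_range] at hj ⊢
      omega) fun j hj hj' => ?_, Finset.sum_range]
    · exact Finset.sum_congr rfl fun j _ => by rw [hbβ]
    · have h1 : b j = 0 := by
        by_contra h2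
        refine hj' (Finset.mem_range.2 (Nat.lt_succ_of_le (S.le_max' j ?_)))
        exact Finset.mem_filter.2 ⟨hj, h2⟩
      rw [h1, _root_.map_zero, zero_mul]
  refine ⟨J, b, hbJ, ?_⟩
  -- the small powers of `e`
  have h1 : ∀ a < p ^ s, v.Ge c₁ (opR p D b i₁ m J (e ^ a)) := by
    intro a ha
    rw [opR, hsum fun j => D (p ^ (i₁ + j) * m) (e ^ a), ← mk_geHd (hk := hk), _root_.map_sum]
    have h2 := congrArg (fun F : Fin (p ^ s) → W => ((F ⟨a, ha⟩ : W) : Ω ⧸ geHd hk c₁)) hβ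
    simp only [Finset.sum_apply, Pi.smul_apply, Pi.zero_apply, ZeroMemClass.coe_zero,
      AddSubmonoidClass.coe_finsetSum, SetLike.val_smul] at h2
    rw [← h2]
    refine Finset.sum_congr rfl fun j _ => ?_
    rw [← Algebra.smul_def, map_smul]
  -- the powers of `e`
  have h2 : ∀ i : ℤ, v.Ge (i * γ + g₀) (opR p D b i₁ m J (e ^ i)) := by
    intro i
    have hps : (0 : ℤ) < (p ^ s : ℕ) := by exact_mod_cast pow_pos hp.out.pos s
    obtain ⟨a, ha⟩ : ∃ a : ℕ, (a : ℤ) = i % (p ^ s : ℕ) :=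
      ⟨(i % (p ^ s : ℕ)).toNat, Int.toNat_of_nonneg (Int.emod_nonneg _ hps.ne')⟩
    have ha' : a < p ^ s := by
      have h3 := Int.emod_lt_of_pos i hps
      rw [← ha] at h3
      exact_mod_cast h3
    set q : ℤ := i / (p ^ s : ℕ) with hq
    have hi : i = (p ^ s : ℕ) * q + a := by
      rw [ha, hq]
      exact (Int.mul_ediv_add_emod i _).symm
    have h3 : e ^ i = (e ^ q) ^ p ^ s * e ^ a := by
      rw [hi, zpow_add₀ he0, zpow_natCast, mul_comm ((p ^ s : ℕ) : ℤ) q, zpow_mul, zpow_natCast]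
    have hqN : e ^ q ∈ N := zpow_mem he q
    have hvq : v.Ge (q * γ) (e ^ q) := fun _ => by rw [v.map_zpow he0, hve]
    have hva : v.Ge (a * γ) (e ^ a) := fun _ => by rw [v.map_pow he0, hve]
    have hiR : (i : ℝ) = (p : ℝ) ^ s * q + a := by
      have h4 := congrArg (fun z : ℤ => (z : ℝ)) hi
      push_cast at h4
      exact h4
    have haR : (a : ℝ) ≤ (p : ℝ) ^ s := by exact_mod_cast ha'.le
    have h4 : opR p D b i₁ m J (e ^ i) = (e ^ q) ^ p ^ s * opR p D b i₁ m J (e ^ a) +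
        ∑ j ∈ Finset.range (J + 1), algebraMap k Ω (b j) *
          (D (p ^ (i₁ + j) * m) ((e ^ q) ^ p ^ s * e ^ a) -
            (e ^ q) ^ p ^ s * D (p ^ (i₁ + j) * m) (e ^ a)) := by
      rw [h3, opR, opR, Finset.mul_sum, ← Finset.sum_add_distrib]
      exact Finset.sum_congr rfl fun j _ => by ring
    rw [h4]
    refine RVal.Ge.add ?_ (RVal.Ge.sum _ _ fun j _ => ?_)
    · have h5 := (ge_pow hvq (p ^ s)).mul (h1 a ha')
      refine h5.mono ?_
      push_cast
      rw [hiR, hc₁]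
      nlinarith
    · have h5 := (hk.ge (b j)).mul (h.mul_big s hgain (p ^ (i₁ + j) * m) hqN (hea a) hvq hva)
      refine h5.mono ?_
      rw [hiR]
      nlinarith
  -- the general case
  intro f hf c hc
  by_cases hf0 : f = 0
  · rw [hf0, h.opR_zero]
    exact RVal.Ge.zero
  obtain ⟨z, hz⟩ := hdisc f hf hf0
  have hcz : c ≤ z * γ := by
    rw [← hz]
    exact hc hf0
  obtain ⟨T₂, hT₂⟩ := exists_nat_ge (g₀ / γ)
  have hT₂' : g₀ ≤ T₂ * γ := by rwa [div_le_iff₀ hγ] at hT₂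
  obtain ⟨d', hd'⟩ := exists_expN hk hγ hdisc he he0 hve T₂ hf (w := z) (fun _ => hz.ge)
  set f₁ := ∑ i ∈ Finset.range T₂, algebraMap k Ω (d' i) * e ^ (z + i) with hf₁
  have hfi : ∀ i ∈ Finset.range T₂, algebraMap k Ω (d' i) * e ^ (z + i) ∈ N := fun i _ =>
    mul_mem (N.algebraMap_mem _) (zpow_mem he _)
  have hf₁N : f₁ ∈ N := sum_mem hfi
  have h3 : opR p D b i₁ m J f = opR p D b i₁ m J f₁ + opR p D b i₁ m J (f - f₁) := by
    rw [← h.opR_add hf₁N (sub_mem hf hf₁N), add_sub_cancel]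
  rw [h3]
  refine RVal.Ge.add ?_ ?_
  · rw [hf₁, h.opR_sum _ hfi]
    refine RVal.Ge.sum _ _ fun i _ => ?_
    rw [h.opR_smul _ (zpow_mem he _)]
    have h4 := (hk.ge (d' i)).mul (h2 (z + i))
    refine h4.mono ?_
    push_cast
    have h5 : (0 : ℝ) ≤ i * γ := mul_nonneg (Nat.cast_nonneg i) hγ.le
    nlinarith
  · refine (h.opR_ge hk (sub_mem hf hf₁N) hd').mono ?_
    nlinarith

end Rel0

/-- **The relation.** -/
theorem HDer.rel [hp : Fact p.Prime] [CharP k p] [CharP Ω p] [PerfectRing k p]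
    [hcx : Fact (Ctx0 k v)] (h : HDer p v N x D) (hpb : PB1 p N x) (hx0 : x ≠ 0)
    (hD1 : D 1 x ≠ 0) {γ : ℝ} (hγ : 0 < γ)
    (hdisc : ∀ a ∈ N, a ≠ 0 → ∃ z : ℤ, v a = z * γ) {e : Ω} (he : e ∈ N)
    (he0 : e ≠ 0) (hve : v e = γ) {μ : ℝ} (hμ : 0 < μ)
    (hgain : ∀ j : ℕ, 1 ≤ j → ∀ f ∈ N, ∀ b : ℝ, v.Ge b f → v.Ge (b + μ) (D j f))
    {m i₁ : ℕ} (hval : ∀ i, i₁ ≤ i → ∀ f ∈ N, D (p ^ i * m) f ∈ N) :
    ∃ (n₁ J : ℕ) (b : ℕ → k) (δ : ℝ), b J ≠ 0 ∧ 0 < δ ∧ ∀ s : ℕ, ∀ f ∈ N, ∀ c : ℝ,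
      v.Ge c f → v.Ge (c + δ * p ^ s) (∑ j ∈ Finset.range (J + 1),
        algebraMap k Ω (b j ^ p ^ s) * D (p ^ (n₁ + s + j) * m) f) := by
  have hk : Ctx0 k v := hcx.out
  have hp1 : (1 : ℝ) < p := by exact_mod_cast hp.out.one_lt
  have hτ : 0 ≤ v (D 1 x) - v x := by
    have h1 := h.ge 1 x h.mem (v x) (RVal.ge_self x) hD1
    linarith
  set C₀ : ℝ := p ^ 2 * (v (D 1 x) - v x) with hC₀
  have hC₀0 : 0 ≤ C₀ := mul_nonneg (pow_nonneg (by linarith) 2) hτ
  set K : ℝ := C₀ / (p - 1) with hK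
  have hp2 : (0 : ℝ) < p - 1 := by linarith
  have hK0 : 0 ≤ K := div_nonneg hC₀0 hp2.le
  have hKC : C₀ = (p - 1) * K := by
    rw [hK]
    field_simp
  obtain ⟨J, b, hbJ, h1⟩ := h.exists_rel0 hk hγ hdisc he he0 hve hμ hgain hval (K + 1)
  have key : ∀ s : ℕ, ∀ f ∈ N, ∀ c : ℝ, v.Ge c f →
      v.Ge (c + (K + p ^ s)) (opR p D (fun j => b j ^ p ^ s) (i₁ + s) m J f) := by
    intro s
    induction s with
    | zero =>
      simp only [pow_zero, pow_one, add_zero]
      exact h1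
    | succ s ih =>
      intro f hf c hc
      have h2 := h.gain_succ hpb hx0 hD1 ih f hf c hc
      have h3 : (fun j => (b j ^ p ^ s) ^ p) = fun j => b j ^ p ^ (s + 1) := by
        funext j
        rw [← pow_mul, ← pow_succ]
      rw [h3, add_assoc i₁ s 1] at h2
      refine h2.mono (le_of_eq ?_)
      rw [← hC₀, hKC, pow_succ]
      ring
  refine ⟨i₁, J, b, 1, hbJ, one_pos, fun s f hf c hc => ?_⟩
  refine (key s f hf c hc).mono ?_
  linarith

end Pool.Agent.TWHT
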