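import Pool.Agent.Lib.TWHT.N7a

/-!
# TANK W, leaf (Ht), unipotent pairs: the coefficients of the commutation

`Ps g` operators with `Ps g y_1 = ∑ i, q g i • y_0 ^ p ^ i + e_g`. `bb s g n m` is the coefficient of
`τ^g a^n b^m` in `(b + ∑ g, τ^g ∑ i, q g i a ^ p ^ i) ^ s`.

* `sum_anti3`, `sum_anti3'`: sums over triples;
* `bb`, `cc2`: the coefficients; `cc2_succ0`, `cc2_succ1`: the recursion; `cc2_zero`, `cc2_out`,
  `cc2_wt`, `cc2_one`.
-/

set_option autoImplicit false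
set_option linter.unusedSectionVars false

namespace Pool.Agent.TWHT

open Finset

section Anti

variable {M : Type*} [AddCommMonoid M]

theorem sum_anti3 (g : ℕ) (f : ℕ → ℕ → ℕ → M) :
    ∑ u ∈ HasAntidiagonal.antidiagonal g, ∑ w ∈ HasAntidiagonal.antidiagonal u.2, f u.1 w.1 w.2 =
      ∑ w ∈ HasAntidiagonal.antidiagonal g, ∑ u ∈ HasAntidiagonal.antidiagonal w.1,
        f u.1 u.2 w.2 := by
  simp only [Finset.sum_sigma']
  refine Finset.sum_nbij' (fun x => ⟨(x.1.1 + x.2.1, x.2.2), (x.1.1, x.2.1)⟩)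
    (fun x => ⟨(x.2.1, x.2.2 + x.1.2), (x.2.2, x.1.2)⟩) ?_ ?_ ?_ ?_ ?_ <;>
    aesop (add simp [add_assoc])

theorem sum_anti3' (g : ℕ) (f : ℕ → ℕ → ℕ → M) :
    ∑ u ∈ HasAntidiagonal.antidiagonal g, ∑ w ∈ HasAntidiagonal.antidiagonal u.2, f u.1 w.1 w.2 =
      ∑ w ∈ HasAntidiagonal.antidiagonal g, ∑ u ∈ HasAntidiagonal.antidiagonal w.2,
        f u.1 w.1 u.2 := by
  simp only [Finset.sum_sigma']
  refine Finset.sum_nbij' (fun x => ⟨(x.2.1, x.1.1 + x.2.2), (x.1.1, x.2.2)⟩)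
    (fun x => ⟨(x.2.1, x.1.1 + x.2.2), (x.1.1, x.2.2)⟩) ?_ ?_ ?_ ?_ ?_
  · rintro ⟨⟨a, b⟩, ⟨c, d⟩⟩ h
    simp only [mem_sigma, HasAntidiagonal.mem_antidiagonal] at h ⊢
    obtain ⟨h1, h2⟩ := h
    refine ⟨?_, trivial⟩
    rw [← h1, ← h2]
    ring
  · rintro ⟨⟨a, b⟩, ⟨c, d⟩⟩ h
    simp only [mem_sigma, HasAntidiagonal.mem_antidiagonal] at h ⊢
    obtain ⟨h1, h2⟩ := h
    refine ⟨?_, trivial⟩
    rw [← h1, ← h2]
    ring
  · rintro ⟨⟨a, b⟩, ⟨c, d⟩⟩ h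
    simp only [mem_sigma, HasAntidiagonal.mem_antidiagonal] at h
    obtain ⟨h1, h2⟩ := h
    subst h2
    rfl
  · rintro ⟨⟨a, b⟩, ⟨c, d⟩⟩ h
    simp only [mem_sigma, HasAntidiagonal.mem_antidiagonal] at h
    obtain ⟨h1, h2⟩ := h
    subst h2
    rfl
  · rintro ⟨⟨a, b⟩, ⟨c, d⟩⟩ h
    rfl

end Anti

variable {k : Type*} [Field k]

/-- The coefficient of `τ^g a^n b^m` in `(b + ∑ g, τ^g ∑ i, q g i a ^ p ^ i) ^ s`. -/
def bb (p R : ℕ) (q : ℕ → ℕ → k) : ℕ → ℕ → ℕ → ℕ → k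
  | 0, g, n, m => if g = 0 ∧ n = 0 ∧ m = 0 then 1 else 0
  | s + 1, g, n, m => (if 1 ≤ m then bb p R q s g n (m - 1) else 0) +
      ∑ u ∈ HasAntidiagonal.antidiagonal g, ∑ i ∈ range R,
        if p ^ i ≤ n ∧ 0 < u.1 then q u.1 i * bb p R q s u.2 (n - p ^ i) m else 0

/-- The coefficients of the commutation. -/
def cc2 (p R : ℕ) (q : ℕ → ℕ → k) (g : ℕ) (J J' : ℕ × ℕ) : k :=
  if J'.1 ≤ J.1 then bb p R q J'.2 g (J.1 - J'.1) J.2 else 0

section Coe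

variable {p R : ℕ} {q : ℕ → ℕ → k}

/-- The support. -/
theorem bb_ne (hp : 0 < p) {s g n m : ℕ} (h : bb p R q s g n m ≠ 0) :
    s ≤ n + m ∧ m ≤ s ∧ n ≤ g * p ^ R ∧ (n = 0 → g = 0) := by
  induction s generalizing g n m with
  | zero =>
    rw [bb] at h
    have h1 : g = 0 ∧ n = 0 ∧ m = 0 := by
      by_contra h1
      rw [if_neg h1] at h
      exact h rfl
    obtain ⟨rfl, rfl, rfl⟩ := h1
    simp
  | succ s ih =>
    rw [bb] at h
    by_cases h1 : (if 1 ≤ m then bb p R q s g n (m - 1) else 0) = 0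
    · rw [h1, zero_add] at h
      obtain ⟨u, hu, h2⟩ := Finset.exists_ne_zero_of_sum_ne_zero h
      obtain ⟨i, hi, h3⟩ := Finset.exists_ne_zero_of_sum_ne_zero h2
      rw [HasAntidiagonal.mem_antidiagonal] at hu
      rw [mem_range] at hi
      by_cases h4 : p ^ i ≤ n ∧ 0 < u.1
      · rw [if_pos h4] at h3
        obtain ⟨i1, i2, i3, i4⟩ := ih (right_ne_zero_of_mul h3)
        have h5 : 0 < p ^ i := Nat.pow_pos hp
        have h6 : p ^ i ≤ p ^ R := Nat.pow_le_pow_right hp hi.le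
        refine ⟨by omega, by omega, ?_, by omega⟩
        have h7 : (u.2 + 1) * p ^ R ≤ g * p ^ R := Nat.mul_le_mul_right _ (by omega)
        rw [add_mul, one_mul] at h7
        omega
      · rw [if_neg h4] at h3
        exact absurd rfl h3
    · by_cases h4 : 1 ≤ m
      · rw [if_pos h4] at h1
        obtain ⟨i1, i2, i3, i4⟩ := ih h1
        exact ⟨by omega, by omega, i3, i4⟩
      · rw [if_neg h4] at h1
        exact absurd rfl h1

theorem bb_diag (hp : 0 < p) (s : ℕ) : bb p R q s 0 0 s = 1 := by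
  induction s with
  | zero => rw [bb, if_pos ⟨rfl, rfl, rfl⟩]
  | succ s ih =>
    rw [bb, if_pos (Nat.le_add_left 1 s), Nat.add_sub_cancel, ih, add_eq_left]
    refine Finset.sum_eq_zero fun u hu => Finset.sum_eq_zero fun i _ => ?_
    rw [if_neg]
    rintro ⟨h1, -⟩
    have := Nat.pow_pos (n := i) hp
    omega

/-- The first recursion. -/
theorem cc2_succ0 (g : ℕ) (J : ℕ × ℕ) (a b : ℕ) : cc2 p R q g J (a + 1, b) =
    if 1 ≤ J.1 then cc2 p R q g (J.1 - 1, J.2) (a, b) else 0 := by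
  simp only [cc2]
  by_cases h1 : 1 ≤ J.1
  · rw [if_pos h1]
    by_cases h2 : a + 1 ≤ J.1
    · rw [if_pos h2, if_pos (by omega), show J.1 - (a + 1) = J.1 - 1 - a by omega]
    · rw [if_neg h2, if_neg (by omega)]
  · rw [if_neg h1, if_neg (by omega)]

/-- The second recursion. -/
theorem cc2_succ1 (g : ℕ) (J : ℕ × ℕ) (a b : ℕ) : cc2 p R q g J (a, b + 1) =
    (if 1 ≤ J.2 then cc2 p R q g (J.1, J.2 - 1) (a, b) else 0) +
      ∑ u ∈ HasAntidiagonal.antidiagonal g, ∑ i ∈ range R,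
        if p ^ i ≤ J.1 ∧ 0 < u.1 then q u.1 i * cc2 p R q u.2 (J.1 - p ^ i, J.2) (a, b) else 0 := by
  simp only [cc2]
  by_cases h1 : a ≤ J.1
  · rw [if_pos h1, bb]
    congr 1
    · rw [if_pos h1]
    · refine Finset.sum_congr rfl fun u _ => Finset.sum_congr rfl fun i _ => ?_
      by_cases h2 : p ^ i ≤ J.1 - a ∧ 0 < u.1
      · rw [if_pos h2, if_pos ⟨by omega, h2.2⟩, if_pos (by omega),
          show J.1 - a - p ^ i = J.1 - p ^ i - a by omega]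
      · rw [if_neg h2]
        by_cases h3 : p ^ i ≤ J.1 ∧ 0 < u.1
        · rw [if_pos h3]
          by_cases h4 : a ≤ J.1 - p ^ i
          · exfalso
            refine h2 ⟨?_, h3.2⟩
            omega
          · rw [if_neg h4, mul_zero]
        · rw [if_neg h3]
  · rw [if_neg h1, if_neg h1, ite_self, zero_add, eq_comm]
    refine Finset.sum_eq_zero fun u _ => Finset.sum_eq_zero fun i _ => ?_
    rw [if_neg (show ¬ a ≤ J.1 - p ^ i by omega), mul_zero, ite_self]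

theorem cc2_zero (g : ℕ) {J : ℕ × ℕ} (hJ : J ≠ 0) : cc2 p R q g J 0 = 0 := by
  rw [cc2, if_pos (show (0 : ℕ × ℕ).1 ≤ J.1 from Nat.zero_le _)]
  change bb p R q 0 g (J.1 - 0) J.2 = 0
  rw [bb, if_neg]
  rintro ⟨-, h1, h2⟩
  exact hJ (Prod.ext (by simpa using h1) h2)

theorem cc2_zero' (g : ℕ) (J : ℕ × ℕ) : cc2 p R q g J 0 = if g = 0 ∧ J = 0 then 1 else 0 := by
  by_cases hJ : J = 0
  · subst hJ
    rw [cc2, if_pos (le_refl _)]
    change bb p R q 0 g (0 - 0) 0 = _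
    rw [bb]
    simp
  · rw [cc2_zero g hJ, if_neg fun h => hJ h.2]

theorem cc2_ne (hp : 0 < p) {g : ℕ} {J J' : ℕ × ℕ} (h : cc2 p R q g J J' ≠ 0) :
    J'.1 ≤ J.1 ∧ J.2 ≤ J'.2 ∧ J'.1 + J'.2 ≤ J.1 + J.2 ∧
      J.1 + J.2 ≤ J'.1 + J'.2 + g * p ^ R ∧ (J.1 = J'.1 → g = 0) := by
  rw [cc2] at h
  by_cases h1 : J'.1 ≤ J.1
  · rw [if_pos h1] at h
    obtain ⟨i1, i2, i3, i4⟩ := bb_ne hp h
    exact ⟨h1, i2, by omega, by omega, fun h2 => i4 (by omega)⟩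
  · rw [if_neg h1] at h
    exact absurd rfl h

theorem cc2_diag (hp : 0 < p) (J : ℕ × ℕ) : cc2 p R q 0 J J = 1 := by
  rw [cc2, if_pos le_rfl, Nat.sub_self, bb_diag hp]

/-- The coefficients, first index `0`. -/
theorem cc2_one (hp : 0 < p) (g m : ℕ) (J' : ℕ × ℕ) :
    cc2 p R q g (0, m) J' = if g = 0 ∧ J' = (0, m) then 1 else 0 := by
  by_cases h : g = 0 ∧ J' = (0, m)
  · rw [if_pos h, h.1, h.2, cc2_diag hp]
  · rw [if_neg h]
    by_contra h1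
    obtain ⟨i1, i2, i3, i4, i5⟩ := cc2_ne hp h1
    refine h ⟨i5 ?_, Prod.ext ?_ ?_⟩ <;> simp only at * <;> omega

/-- The index set. -/
def R2 (J : ℕ × ℕ) : Finset (ℕ × ℕ) := range (J.1 + J.2 + 1) ×ˢ range (J.1 + J.2 + 1)

/-- Larger index sets. -/
theorem sum_R2 {M : Type*} [AddCommMonoid M] [Module k M] (hp : 0 < p) (g : ℕ) (J : ℕ × ℕ) {B : ℕ}
    (hB : J.1 + J.2 + 1 ≤ B) (f : ℕ × ℕ → M) :
    ∑ J' ∈ R2 J, cc2 p R q g J J' • f J' =
      ∑ J' ∈ range B ×ˢ range B, cc2 p R q g J J' • f J' := by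
  refine Finset.sum_subset (fun x hx => ?_) fun x _ hx => ?_
  · rw [R2, mem_product, mem_range, mem_range] at hx
    rw [mem_product, mem_range, mem_range]
    omega
  · by_cases h : cc2 p R q g J x = 0
    · rw [h, zero_smul]
    · exfalso
      obtain ⟨i1, i2, i3, i4, i5⟩ := cc2_ne hp h
      refine hx ?_
      rw [R2, mem_product, mem_range, mem_range]
      omega

end Coe

end Pool.Agent.TWHT
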