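import Pool.Agent.Lib.TWHT.N7a

/-!
# TANK W, leaf (Ht): two letters, the second one moved by the operators

`Tri`: operators `Th g`, `g < P`, of norm `≤ 0` of `K = E<y_0, y_1>`, and the triangular
commutation with the jets: `D_J (Th g x) = ∑_(i + j = g) ∑_J' c j J J' • Th i (D_J' x)`.

* `phT P Th a = ∑_g a g • Th g`, `Tri.dd_phT`, `Tri.dd_ps`: the jets of a combination;
* `Tri.bdd`: the solutions of a system have a bounded degree.
-/

set_option autoImplicit false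
set_option linter.unusedSectionVars false

open Polynomial

namespace Pool.Agent.TWHT

open Pool.Agent.H15JM (RVal)
open Pool.Agent.D2 (Ctx0)
open Pool.Agent.TWM
open Pool.Agent.TWC (Nul Cau)
open Pool.Agent.TWIV

universe u

variable {k H : Type u} [Field k] [Field H] [Algebra k H] {v : RVal H}

/-- The combination `∑_(g < P) a g • Th g`. -/
noncomputable def phT (P : ℕ) (Th : ℕ → Module.End k H) (a : ℕ → k) : Module.End k H :=
  ∑ g ∈ Finset.range P, a g • Th g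

/-- The coefficients of the jets of a combination. -/
def twc (P : ℕ) (c : ℕ → ℕ × ℕ → ℕ × ℕ → k) (a : ℕ → k) (J J' : ℕ × ℕ) (g : ℕ) : k :=
  ∑ g' ∈ Finset.range (P - g), a (g + g') * c g' J J'

/-- The operators `Th g`, `g < P`, of `K`, and their commutation with the jets. -/
structure Tri (v : RVal H) (E K : IntermediateField k H) (D : Fin 2 → ℕ → H → H) (P : ℕ)
    (Th : ℕ → Module.End k H) (R : ℕ × ℕ → Finset (ℕ × ℕ)) (c : ℕ → ℕ × ℕ → ℕ × ℕ → k)
    (w : ℕ) : Prop where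
  th0 : Th 0 = 1
  one : ∀ g, 0 < g → g < P → Th g 1 = 0
  ge : ∀ g, ∀ (x : H) (b : ℝ), v.Ge b x → v.Ge b (Th g x)
  mem : ∀ g, ∀ x ∈ K, Th g x ∈ K
  memE : ∀ g, ∀ x ∈ E, Th g x ∈ E
  tri : ∀ g, g < P → ∀ J, ∀ x ∈ K, DD D J (Th g x) =
    ∑ q ∈ Finset.HasAntidiagonal.antidiagonal g, ∑ J' ∈ R J, c q.2 J J' • Th q.1 (DD D J' x)
  c0 : ∀ g J, J ≠ 0 → c g J 0 = 0
  wt : ∀ g, g < P → ∀ J, ∀ J' ∈ R J, c g J J' ≠ 0 → J.1 + J.2 ≤ J'.1 + J'.2 + w
  let1 : ∀ g, g < P → ∀ m, ∀ x ∈ K, D 1 m (Th g x) = Th g (D 1 m x)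

theorem phT_apply (P : ℕ) (Th : ℕ → Module.End k H) (a : ℕ → k) (x : H) :
    phT P Th a x = ∑ g ∈ Finset.range P, a g • Th g x := by
  rw [phT, LinearMap.sum_apply]
  rfl

theorem phT_zero (P : ℕ) (Th : ℕ → Module.End k H) : phT P Th (fun _ => 0) = 0 :=
  Finset.sum_eq_zero fun _ _ => zero_smul _ _

namespace Tri

variable {E K : IntermediateField k H} {D : Fin 2 → ℕ → H → H} {P : ℕ}
  {Th : ℕ → Module.End k H} {R : ℕ × ℕ → Finset (ℕ × ℕ)} {c : ℕ → ℕ × ℕ → ℕ × ℕ → k} {w : ℕ}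
  (t : Tri v E K D P Th R c w)

include t

theorem phT_ge [hk : Fact (Ctx0 k v)] (a : ℕ → k) (x : H) (b : ℝ) (h : v.Ge b x) :
    v.Ge b (phT P Th a x) := by
  rw [phT_apply]
  refine RVal.Ge.sum _ _ fun g _ => ?_
  rw [Algebra.smul_def]
  have h1 := (hk.out.ge (a g)).mul (t.ge g x b h)
  rwa [zero_add] at h1

theorem phT_mem (a : ℕ → k) {x : H} (h : x ∈ K) : phT P Th a x ∈ K := by
  rw [phT_apply]
  exact sum_mem fun g _ => K.smul_mem (t.mem g x h)

theorem phT_memE (a : ℕ → k) {x : H} (h : x ∈ E) : phT P Th a x ∈ E := by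
  rw [phT_apply]
  exact sum_mem fun g _ => E.smul_mem (t.memE g x h)

/-- the values at constants -/
theorem phT_one (hP : 0 < P) (a : ℕ → k) : phT P Th a 1 = algebraMap k H (a 0) := by
  rw [phT_apply, Finset.sum_eq_single_of_mem 0 (Finset.mem_range.2 hP), t.th0,
    Module.End.one_apply, ← Algebra.algebraMap_eq_smul_one]
  intro g hg h0
  rw [t.one g (Nat.pos_of_ne_zero h0) (Finset.mem_range.1 hg), smul_zero]

variable {p : ℕ} [hp : Fact p.Prime] [CharP H p] [PerfectRing H p]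
  [IsAlgClosed H] {A : Type*} [AddCommGroup A] {pr : A → H →ₗ[k] H} {y : ℕ → H} {α : ℕ → A}
  (T : Two7 p v pr E K y α D)

include T

/-- The jets are `k`-linear. -/
theorem dd_smul (J : ℕ × ℕ) (a : k) {x : H} (hx : x ∈ K) :
    DD D J (a • x) = a • DD D J x := by
  rw [DD, (T.jx 1).smul _ _ _ hx, (T.jx 0).smul _ _ _ ((T.jx 1).mem _ _ hx)]
  rfl

theorem dd_sum {ι : Type*} (J : ℕ × ℕ) (S : Finset ι) (f : ι → H) (hf : ∀ c ∈ S, f c ∈ K) :
    DD D J (∑ c ∈ S, f c) = ∑ c ∈ S, DD D J (f c) := by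
  rw [DD, (T.jx 1).sum _ _ _ hf, (T.jx 0).sum _ _ _ fun j hj => (T.jx 1).mem _ _ (hf j hj)]
  rfl

/-- **The jets of a combination.** -/
theorem dd_phT (a : ℕ → k) (J : ℕ × ℕ) {x : H} (hx : x ∈ K) :
    DD D J (phT P Th a x) = ∑ J' ∈ R J, phT P Th (twc P c a J J') (DD D J' x) := by
  rw [phT_apply, t.dd_sum T J _ _ fun g _ => K.smul_mem (t.mem g x hx)]
  have h1 : ∀ g ∈ Finset.range P, DD D J (a g • Th g x) = ∑ i ∈ Finset.range (g + 1),
      ∑ J' ∈ R J, (a (i + (g - i)) * c (g - i) J J') • Th i (DD D J' x) := by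
    intro g hg
    rw [t.dd_smul T J (a g) (t.mem g x hx), t.tri g (Finset.mem_range.1 hg) J x hx,
      Finset.Nat.sum_antidiagonal_eq_sum_range_succ
        (fun i j => ∑ J' ∈ R J, c j J J' • Th i (DD D J' x)), Finset.smul_sum]
    refine Finset.sum_congr rfl fun i hi => ?_
    have h2 : i + (g - i) = g := Nat.add_sub_cancel' (Nat.lt_succ_iff.1 (Finset.mem_range.1 hi))
    rw [h2, Finset.smul_sum]
    exact Finset.sum_congr rfl fun J' _ => smul_smul _ _ _
  rw [Finset.sum_congr rfl h1, Finset.sum_range_diag_flip P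
    (fun i j => ∑ J' ∈ R J, (a (i + j) * c j J J') • Th i (DD D J' x))]
  simp only [phT_apply]
  rw [Finset.sum_comm]
  refine Finset.sum_congr rfl fun g _ => ?_
  rw [Finset.sum_comm]
  refine Finset.sum_congr rfl fun J' _ => ?_
  rw [twc, Finset.sum_smul]

variable {κ : Type*} [Fintype κ]

/-- the same for a family -/
theorem dd_ps (a : κ → κ → ℕ → k) (J : ℕ × ℕ) (l : κ) {x : κ → H} (hx : ∀ j, x j ∈ K) :
    DD D J (ps (fun l j => phT P Th (a l j)) l x) =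
      ∑ J' ∈ R J, ps (fun l j => phT P Th (twc P c (a l j) J J')) l fun j => DD D J' (x j) := by
  rw [ps, t.dd_sum T J _ _ fun j _ => t.phT_mem _ (hx j)]
  simp only [ps]
  rw [Finset.sum_comm]
  exact Finset.sum_congr rfl fun j _ => t.dd_phT T _ J (hx j)

end Tri

end Pool.Agent.TWHT
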