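import Pool.Agent.Lib.TWHT.K2a
import Pool.Agent.Lib.TWHT.Tri

/-!
# TANK W, leaf (Ht), unipotent pairs: the commutation

* `JtX.mul_poly`, `JtX.mul_self`, `JtX.mul_pp`: the jets of products;
* `Two7.induct`: a closed subgroup of `K = E<y_0, y_1>` which contains `E` and is stable under `y_0`,
  `y_1` is `K`;
* `PsD`: operators `Ps g` of `K`, linear over `y_0`, with the Leibniz rule for `y_1` and
  `Ps g y_1 = ∑ i, q g i • y_0 ^ p ^ i + e_g`;
* **`PsD.tri`**: they satisfy `Tri`.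
-/

set_option autoImplicit false
set_option linter.unusedSectionVars false

open Polynomial

namespace Pool.Agent.TWHT

open Pool.Agent.H15JM (RVal)
open Pool.Agent.D2 (Ctx0)
open Pool.Agent.TWM
open Pool.Agent.TWC (Nul Cau eq_of_ge)
open Pool.Agent.TWIV

universe u

variable {k H : Type u} [Field k] [Field H] [Algebra k H] {v : RVal H} {p : ℕ} [hp : Fact p.Prime]
  [CharP H p] [PerfectRing H p] [IsAlgClosed H] {A : Type*} [AddCommGroup A] {pr : A → H →ₗ[k] H}
  {E F K : IntermediateField k H} {w : H} {γ : A}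

/-! ### Products -/

section Jt

variable {D : ℕ → H → H}

/-- The jets of a product with a polynomial. -/
theorem jtx_mul_poly (hD : JtX p v pr K F w γ D) (hw : TL v F w 0) (hK : K = cadj v F w)
    (J : ℕ) {g : Polynomial H} (hg : g ∈ PI F) {x : H} (hx : x ∈ K) : D J (g.eval w * x) =
      ∑ u ∈ Finset.HasAntidiagonal.antidiagonal J, (hasseDeriv u.1 g).eval w * D u.2 x := by
  classical
  refine eq_of_ge (v := v) fun b => ?_
  have hgK : g.eval w ∈ K := eval_memK hK hg
  obtain ⟨c, hc0, hc⟩ : ∃ c : ℝ, c ≤ 0 ∧ ∀ u ∈ Finset.HasAntidiagonal.antidiagonal J,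
      v.Ge c ((hasseDeriv u.1 g).eval w) := by
    refine ⟨-(∑ u ∈ Finset.HasAntidiagonal.antidiagonal J, |v ((hasseDeriv u.1 g).eval w)|),
      by rw [Left.neg_nonpos_iff]; exact Finset.sum_nonneg fun _ _ => abs_nonneg _, fun u hu => ?_⟩
    refine (RVal.ge_self (v := v) _).mono ?_
    have h3 := Finset.single_le_sum (f := fun u : ℕ × ℕ => |v ((hasseDeriv u.1 g).eval w)|)
      (fun l _ => abs_nonneg _) hu
    have h4 := neg_abs_le (v ((hasseDeriv u.1 g).eval w))
    linarith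
  obtain ⟨c', hc0', hc'⟩ : ∃ c : ℝ, c ≤ 0 ∧ v.Ge c (g.eval w) :=
    ⟨min 0 (v (g.eval w)), min_le_left _ _, (RVal.ge_self (v := v) _).mono (min_le_right _ _)⟩
  obtain ⟨f, hf, h1⟩ := hw.dense (by rw [← hK]; exact hx : x ∈ TWM.cadj v F w) (b - c - c')
  have hfK : f.eval w ∈ K := eval_memK hK hf
  have hd : x - f.eval w ∈ K := sub_mem hx hfK
  have h2 : D J (g.eval w * f.eval w) = ∑ u ∈ Finset.HasAntidiagonal.antidiagonal J,
      (hasseDeriv u.1 g).eval w * D u.2 (f.eval w) := by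
    rw [← eval_mul, hD.poly _ (mul_mem hg hf), hasseDeriv_mul, eval_finsetSum]
    refine Finset.sum_congr rfl fun u _ => ?_
    rw [eval_mul, hD.poly _ hf]
  have h3 : D J (g.eval w * x) - ∑ u ∈ Finset.HasAntidiagonal.antidiagonal J,
      (hasseDeriv u.1 g).eval w * D u.2 x = D J (g.eval w * (x - f.eval w)) -
      ∑ u ∈ Finset.HasAntidiagonal.antidiagonal J,
        (hasseDeriv u.1 g).eval w * D u.2 (x - f.eval w) := by
    rw [mul_sub, hD.sub J (mul_mem hgK hx) (mul_mem hgK hfK), h2]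
    have h4 : ∑ u ∈ Finset.HasAntidiagonal.antidiagonal J,
        (hasseDeriv u.1 g).eval w * D u.2 (x - f.eval w) =
        (∑ u ∈ Finset.HasAntidiagonal.antidiagonal J, (hasseDeriv u.1 g).eval w * D u.2 x) -
        ∑ u ∈ Finset.HasAntidiagonal.antidiagonal J,
          (hasseDeriv u.1 g).eval w * D u.2 (f.eval w) := by
      rw [← Finset.sum_sub_distrib]
      refine Finset.sum_congr rfl fun u _ => ?_
      rw [hD.sub _ hx hfK, mul_sub]
    rw [h4]
    ring
  rw [h3]
  refine ((hD.norm J _ (mul_mem hgK hd) _ (hc'.mul h1)).mono (by linarith)).sub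
    (RVal.Ge.sum _ _ fun u hu => ((hc u hu).mul (hD.norm _ _ hd _ h1)).mono (by linarith))

/-- The jets of a product with the letter. -/
theorem jtx_mul_self (hD : JtX p v pr K F w γ D) (hw : TL v F w 0) (hK : K = cadj v F w)
    (J : ℕ) {x : H} (hx : x ∈ K) : D J (w * x) = w * D J x + if 1 ≤ J then D (J - 1) x else 0 := by
  have h1 := jtx_mul_poly hD hw hK J (g := X) X_mem_PI hx
  rw [eval_X] at h1
  rw [h1]
  rcases J with _ | J
  · rw [if_neg (by omega), add_zero]
    simp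
  · rw [Finset.Nat.sum_antidiagonal_succ, if_pos (Nat.le_add_left 1 J)]
    simp only [hasseDeriv_zero, LinearMap.id_apply, eval_X, Nat.add_sub_cancel]
    congr 1
    rw [Finset.sum_eq_single (0, J)]
    · simp
    · rintro ⟨a, b⟩ hu hne
      rw [Finset.HasAntidiagonal.mem_antidiagonal] at hu
      have ha : a ≠ 0 := fun h => hne (by
        simp only at hu
        rw [h] at hu ⊢
        rw [zero_add] at hu
        rw [hu])
      have h2 : hasseDeriv (a + 1) (X : Polynomial H) = 0 :=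
        hasseDeriv_eq_zero_of_lt_natDegree _ _ (by rw [natDegree_X]; omega)
      simp only
      rw [h2, eval_zero, zero_mul]
    · intro h
      exact absurd (Finset.HasAntidiagonal.mem_antidiagonal.2 (zero_add J)) h

omit [PerfectRing H p] [IsAlgClosed H] in
/-- The Hasse derivatives of `X ^ p ^ i`. -/
theorem hasse_X_pp (i n : ℕ) : hasseDeriv n ((X : Polynomial H) ^ p ^ i) =
    if n = 0 then X ^ p ^ i else if n = p ^ i then 1 else 0 := by
  rw [← Polynomial.monomial_one_right_eq_X_pow, hasseDeriv_monomial]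
  by_cases h0 : n = 0
  · subst h0
    rw [if_pos rfl, Nat.choose_zero_right, Nat.cast_one, one_mul, Nat.sub_zero]
  rw [if_neg h0]
  by_cases h1 : n = p ^ i
  · subst h1
    rw [if_pos rfl, Nat.choose_self, Nat.cast_one, one_mul, Nat.sub_self]
    rfl
  · rw [if_neg h1]
    have h2 : (((p ^ i).choose n : ℕ) : H) = 0 := by
      rw [CharP.cast_eq_zero_iff H p]
      exact hp.out.dvd_choose_pow h0 h1
    rw [h2, zero_mul, monomial_zero_right]

/-- The jets of a product with a power of the letter. -/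
theorem jtx_mul_pp (hD : JtX p v pr K F w γ D) (hw : TL v F w 0) (hK : K = cadj v F w)
    (i J : ℕ) {x : H} (hx : x ∈ K) : D J (w ^ p ^ i * x) =
      w ^ p ^ i * D J x + if p ^ i ≤ J then D (J - p ^ i) x else 0 := by
  have h1 := jtx_mul_poly hD hw hK J (g := X ^ p ^ i) (pow_mem X_mem_PI _) hx
  rw [eval_pow, eval_X] at h1
  have hpi : 0 < p ^ i := Nat.pow_pos hp.out.pos
  rw [h1]
  have h2 : ∀ u : ℕ × ℕ, (hasseDeriv u.1 ((X : Polynomial H) ^ p ^ i)).eval w * D u.2 x =
      (if u.1 = 0 then w ^ p ^ i * D u.2 x else 0) + if u.1 = p ^ i then D u.2 x else 0 := by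
    intro u
    rw [hasse_X_pp (p := p)]
    by_cases h0 : u.1 = 0
    · rw [if_pos h0, if_pos h0, if_neg (by omega), add_zero, eval_pow, eval_X]
    · rw [if_neg h0, if_neg h0, zero_add]
      by_cases h3 : u.1 = p ^ i
      · rw [if_pos h3, if_pos h3, eval_one, one_mul]
      · rw [if_neg h3, if_neg h3, eval_zero, zero_mul]
  rw [Finset.sum_congr rfl fun u _ => h2 u, Finset.sum_add_distrib]
  congr 1
  · rw [Finset.sum_eq_single (0, J)]
    · rw [if_pos rfl]
    · rintro ⟨a, b⟩ hu hne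
      rw [Finset.HasAntidiagonal.mem_antidiagonal] at hu
      refine if_neg fun h => hne ?_
      simp only at h hu
      rw [h, zero_add] at hu
      rw [h, hu]
    · intro h
      exact absurd (Finset.HasAntidiagonal.mem_antidiagonal.2 (zero_add J)) h
  · by_cases h3 : p ^ i ≤ J
    · rw [if_pos h3, Finset.sum_eq_single (p ^ i, J - p ^ i)]
      · rw [if_pos rfl]
      · rintro ⟨a, b⟩ hu hne
        rw [Finset.HasAntidiagonal.mem_antidiagonal] at hu
        refine if_neg fun h => hne ?_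
        simp only at h hu
        rw [h] at hu ⊢
        rw [← hu, Nat.add_sub_cancel_left]
      · intro h
        exact absurd (Finset.HasAntidiagonal.mem_antidiagonal.2 (Nat.add_sub_cancel' h3)) h
    · rw [if_neg h3]
      refine Finset.sum_eq_zero fun u hu => if_neg fun h => h3 ?_
      rw [Finset.HasAntidiagonal.mem_antidiagonal] at hu
      omega

end Jt

/-! ### Induction -/

section

variable {y : ℕ → H} {α : ℕ → A} {D : Fin 2 → ℕ → H → H} (T : Two7 p v pr E K y α D)

include T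

/-- A closed subgroup of `K` which contains `E` and is stable under `y_0`, `y_1` is `K`. -/
theorem two7_induct {S : H → Prop} (hE : ∀ x ∈ E, S x)
    (hadd : ∀ x ∈ K, ∀ x' ∈ K, S x → S x' → S (x + x')) (h0 : ∀ x ∈ K, S x → S (y 0 * x))
    (h1 : ∀ x ∈ K, S x → S (y 1 * x))
    (hcl : ∀ x ∈ K, (∀ b : ℝ, ∃ x' ∈ K, S x' ∧ v.Ge b (x - x')) → S x) : ∀ x ∈ K, S x := by
  classical
  have key : ∀ (F : IntermediateField k H) (w : H), F ≤ K → w ∈ K → TL v F w 0 →
      (∀ x ∈ K, S x → S (w * x)) → (∀ x ∈ F, S x) → cadj v F w ≤ K → ∀ x ∈ cadj v F w, S x := by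
    intro F w hF hwK hw hSw hSF hle x hx
    refine hcl x (hle hx) fun b => ?_
    obtain ⟨f, hf, h2⟩ := hw.dense hx b
    have h3 : ∀ n : ℕ, ∀ c ∈ F, S (w ^ n * c) := by
      intro n
      induction n with
      | zero =>
        intro c hc
        rw [pow_zero, one_mul]
        exact hSF c hc
      | succ n ih =>
        intro c hc
        rw [pow_succ', mul_assoc]
        exact hSw _ (mul_mem (pow_mem hwK n) (hF hc)) (ih c hc)
    have h4 : ∀ n : ℕ, S (∑ i ∈ Finset.range n, f.coeff i * w ^ i) := by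
      intro n
      induction n with
      | zero =>
        rw [Finset.sum_range_zero]
        exact hSF 0 (zero_mem _)
      | succ n ih =>
        rw [Finset.sum_range_succ]
        refine hadd _ (sum_mem fun i _ => mul_mem (hF (hf i)) (pow_mem hwK i)) _
          (mul_mem (hF (hf n)) (pow_mem hwK n)) ih ?_
        rw [mul_comm]
        exact h3 n _ (hf n)
    refine ⟨f.eval w, ?_, ?_, h2⟩
    · rw [eval_eq_sum_range]
      exact sum_mem fun i _ => mul_mem (hF (hf i)) (pow_mem hwK i)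
    · rw [eval_eq_sum_range]
      exact h4 _
  intro x hx
  have hx' : x ∈ cadj v (Fo v E y 1) (y 1) := by
    have h2 := hx
    rw [T.K1] at h2
    exact h2
  refine key (Fo v E y 1) (y 1) (T.le 1) (T.my 1) (T.t1 1) h1 (fun z hz => ?_)
    (le_of_eq T.K1.symm) x hx'
  exact key E (y 0) T.leK (T.my 0) (T.t0 0) h0 hE (T.le 1) z hz

theorem dd_add7 (J : ℕ × ℕ) {x x' : H} (hx : x ∈ K) (hx' : x' ∈ K) :
    DD D J (x + x') = DD D J x + DD D J x' := by
  rw [DD, (T.jx 1).add _ _ hx _ hx', (T.jx 0).add _ _ ((T.jx 1).mem _ _ hx) _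
    ((T.jx 1).mem _ _ hx')]
  rfl

theorem dd_linE (J : ℕ × ℕ) {e x : H} (he : e ∈ E) (hx : x ∈ K) :
    DD D J (e * x) = e * DD D J x := by
  rw [DD, (T.jx 1).lin _ _ (T.leE 1 he) _ hx, (T.jx 0).lin _ _ (T.leE 0 he) _
    ((T.jx 1).mem _ _ hx)]
  rfl

theorem dd_mul1 (J : ℕ × ℕ) {x : H} (hx : x ∈ K) :
    DD D J (y 1 * x) = y 1 * DD D J x + if 1 ≤ J.2 then DD D (J.1, J.2 - 1) x else 0 := by
  have h1 := jtx_mul_self (T.jx 1) (T.t1 1) T.K1 J.2 hx
  have hm := fun J => (T.jx 1).mem J x hx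
  have h2 : y 1 ∈ Fo v E y 0 := other_mem v E y (a := 0) (a' := 1) (by decide)
  have hy1 : y 1 ∈ K := T.my 1
  rw [DD]
  rw [show y ((1 : Fin 2) : ℕ) = y 1 from rfl] at h1
  rw [h1]
  split_ifs with h3
  · rw [(T.jx 0).add _ _ (mul_mem hy1 (hm _)) _ (hm _),
      (T.jx 0).lin _ _ h2 _ (hm _)]
    rfl
  · rw [add_zero, (T.jx 0).lin _ _ h2 _ (hm _), add_zero]
    rfl

theorem dd_mulp (i : ℕ) (J : ℕ × ℕ) {x : H} (hx : x ∈ K) : DD D J (y 0 ^ p ^ i * x) =
    y 0 ^ p ^ i * DD D J x + if p ^ i ≤ J.1 then DD D (J.1 - p ^ i, J.2) x else 0 := by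
  have hm := fun J => (T.jx 1).mem J x hx
  have h2 : y 0 ^ p ^ i ∈ Fo v E y 1 :=
    pow_mem (other_mem v E y (a := 1) (a' := 0) (by decide)) _
  have h1 := jtx_mul_pp (T.jx 0) (T.t1 0) T.K0 i J.1 (hm J.2)
  rw [show y ((0 : Fin 2) : ℕ) = y 0 from rfl] at h1
  rw [DD, (T.jx 1).lin _ _ h2 _ hx, h1]
  rfl

theorem dd_mul0 (J : ℕ × ℕ) {x : H} (hx : x ∈ K) :
    DD D J (y 0 * x) = y 0 * DD D J x + if 1 ≤ J.1 then DD D (J.1 - 1, J.2) x else 0 := by
  have h1 := dd_mulp T 0 J hx
  rwa [pow_zero, pow_one] at h1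

end

end Pool.Agent.TWHT
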