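import Pool.Agent.Lib.TWHT.K2b

/-!
# TANK W, leaf (Ht), unipotent pairs: the commutation, proof

* `PsD`: operators `Ps g` of `K`, linear over `y_0`, with the Leibniz rule for `y_1` and
  `Ps g y_1 = ∑ i, q g i • y_0 ^ p ^ i + e_g`;
* **`PsD.tri`**: they satisfy `Tri`.
-/

set_option autoImplicit false
set_option linter.unusedSectionVars false

open Polynomial

namespace Pool.Agent.TWHT

open Pool.Agent.H15JM (RVal)
open Pool.Agent.D2 (Ctx0)
open Pool.Agent.TWM
open Pool.Agent.TWC (Nul Cau eq_of_ge)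
open Pool.Agent.TWIV

universe u

section Shift

variable {k M : Type*} [Field k] [AddCommMonoid M] [Module k M]

theorem shift_box0 (c : ℕ × ℕ → k) (f : ℕ × ℕ → M) {B : ℕ} (hc : ∀ b, c (B, b) = 0) :
    ∑ x ∈ Finset.range B ×ˢ Finset.range B, c x • (if 1 ≤ x.1 then f (x.1 - 1, x.2) else 0) =
      ∑ x ∈ Finset.range B ×ˢ Finset.range B, c (x.1 + 1, x.2) • f x := by
  rw [Finset.sum_product, Finset.sum_product]
  set G : ℕ → M := fun a => ∑ b ∈ Finset.range B, c (a, b) •
    (if 1 ≤ a then f (a - 1, b) else 0) with hG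
  have h1 : G 0 = 0 := Finset.sum_eq_zero fun b _ => by
    simp
  have h2 : G B = 0 := Finset.sum_eq_zero fun b _ => by rw [hc, zero_smul]
  have h3 := Finset.sum_range_succ G B
  rw [Finset.sum_range_succ', h1, h2, add_zero, add_zero] at h3
  have h4 : ∑ a ∈ Finset.range B, ∑ b ∈ Finset.range B, c (a, b) •
      (if 1 ≤ a then f (a - 1, b) else 0) = ∑ a ∈ Finset.range B, G a := rfl
  rw [h4, ← h3]
  refine Finset.sum_congr rfl fun a _ => Finset.sum_congr rfl fun b _ => ?_
  rw [if_pos (Nat.le_add_left 1 a), Nat.add_sub_cancel]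

theorem shift_box1 (c : ℕ × ℕ → k) (f : ℕ × ℕ → M) {B : ℕ} (hc : ∀ a, c (a, B) = 0) :
    ∑ x ∈ Finset.range B ×ˢ Finset.range B, c x • (if 1 ≤ x.2 then f (x.1, x.2 - 1) else 0) =
      ∑ x ∈ Finset.range B ×ˢ Finset.range B, c (x.1, x.2 + 1) • f x := by
  rw [Finset.sum_product, Finset.sum_product]
  refine Finset.sum_congr rfl fun a _ => ?_
  set G : ℕ → M := fun b => c (a, b) • (if 1 ≤ b then f (a, b - 1) else 0) with hG
  have h1 : G 0 = 0 := by
    simp [hG]
  have h2 : G B = 0 := by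
    rw [hG]
    simp only
    rw [hc, zero_smul]
  have h3 := Finset.sum_range_succ G B
  rw [Finset.sum_range_succ', h1, h2, add_zero, add_zero] at h3
  change ∑ b ∈ Finset.range B, G b = _
  rw [← h3]
  refine Finset.sum_congr rfl fun b _ => ?_
  simp only [hG]
  rw [if_pos (Nat.le_add_left 1 b), Nat.add_sub_cancel]

end Shift

variable {k H : Type u} [Field k] [Field H] [Algebra k H] {v : RVal H} {p : ℕ} [hp : Fact p.Prime]
  [CharP H p] [PerfectRing H p] [IsAlgClosed H] {A : Type*} [AddCommGroup A] {pr : A → H →ₗ[k] H}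
  {E K : IntermediateField k H} {y : ℕ → H} {α : ℕ → A} {D : Fin 2 → ℕ → H → H}

/-- Operators `Ps g` of `K`, linear over `y_0`, with the Leibniz rule for `y_1`. -/
structure PsD (p : ℕ) (v : RVal H) (E K : IntermediateField k H) (y : ℕ → H) (P R : ℕ)
    (Ps : ℕ → Module.End k H) (q : ℕ → ℕ → k) : Prop where
  th0 : Ps 0 = 1
  one : ∀ g, 0 < g → g < P → Ps g 1 = 0
  ge : ∀ g, ∀ (x : H) (b : ℝ), v.Ge b x → v.Ge b (Ps g x)
  zero : ∀ g, P ≤ g → Ps g = 0
  memE : ∀ g < P, ∀ x ∈ E, Ps g x ∈ E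
  y0 : ∀ g < P, ∀ x ∈ K, Ps g (y 0 * x) = y 0 * Ps g x
  y1 : ∀ g < P, ∀ x ∈ K, Ps g (y 1 * x) =
    ∑ u ∈ Finset.HasAntidiagonal.antidiagonal g, Ps u.1 (y 1) * Ps u.2 x
  val : ∀ g, 0 < g → g < P → ∃ e ∈ E, Ps g (y 1) =
    (∑ i ∈ Finset.range R, algebraMap k H (q g i) * y 0 ^ p ^ i) + e

namespace PsD

variable [hk : Fact (Ctx0 k v)] {P R : ℕ} {Ps : ℕ → Module.End k H} {q : ℕ → ℕ → k}
  (h : PsD p v E K y P R Ps q) (T : Two7 p v pr E K y α D)

include T h

theorem val_mem {g : ℕ} (hg : g < P) : Ps g (y 1) ∈ K := by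
  rcases Nat.eq_zero_or_pos g with rfl | h0
  · rw [h.th0]
    exact T.my 1
  · obtain ⟨e, he, h1⟩ := h.val g h0 hg
    rw [h1]
    exact add_mem (sum_mem fun i _ => mul_mem (K.algebraMap_mem _) (pow_mem (T.my 0) _))
      (T.leK he)

/-- The stability of `K`. -/
theorem memK {g : ℕ} (hg : g < P) {x : H} (hx : x ∈ K) : Ps g x ∈ K := by
  revert g
  refine two7_induct T (S := fun x => ∀ {g : ℕ}, g < P → Ps g x ∈ K) ?_ ?_ ?_ ?_ ?_ x hx
  · intro x hx g hg
    exact T.leK (h.memE g hg x hx)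
  · intro x _ x' _ h1 h2 g hg
    rw [map_add]
    exact add_mem (h1 hg) (h2 hg)
  · intro x hx h1 g hg
    rw [h.y0 g hg x hx]
    exact mul_mem (T.my 0) (h1 hg)
  · intro x hx h1 g hg
    rw [h.y1 g hg x hx]
    refine sum_mem fun u hu => ?_
    rw [Finset.HasAntidiagonal.mem_antidiagonal] at hu
    exact mul_mem (h.val_mem T (by omega)) (h1 (by omega))
  · intro x hx h1 g hg
    have h3 : K = cadj v (Fo v E y 1) (y 1) := T.K1
    have hcl : Cld v K := by
      rw [h3]
      exact cld_cadj v _ _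
    refine hcl (D2P.mem_clI.2 fun b => ?_)
    obtain ⟨x', hx', h2, h4⟩ := h1 b
    refine ⟨Ps g x', h2 hg, ?_⟩
    rw [← map_sub]
    exact h.ge g _ _ h4

/-- The jets of the product with `Ps g y_1`. -/
theorem dd_val {g : ℕ} (hg : g < P) (J : ℕ × ℕ) {x : H} (hx : x ∈ K) :
    DD D J (Ps g (y 1) * x) = Ps g (y 1) * DD D J x +
      ((if g = 0 then (if 1 ≤ J.2 then DD D (J.1, J.2 - 1) x else 0) else 0) +
      ∑ i ∈ Finset.range R, if p ^ i ≤ J.1 ∧ 0 < g then
        q g i • DD D (J.1 - p ^ i, J.2) x else 0) := by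
  rcases Nat.eq_zero_or_pos g with rfl | h0
  · rw [h.th0, Module.End.one_apply, dd_mul1 T J hx, if_pos rfl]
    congr 1
    rw [Finset.sum_eq_zero fun i _ => if_neg fun h1 => absurd h1.2 (lt_irrefl 0), add_zero]
  · obtain ⟨e, he, h1⟩ := h.val g h0 hg
    have hy0 : y 0 ∈ K := T.my 0
    have hm : ∀ i, algebraMap k H (q g i) * y 0 ^ p ^ i * x ∈ K := fun i =>
      mul_mem (mul_mem (K.algebraMap_mem _) (pow_mem hy0 _)) hx
    have hd : ∀ S : Finset ℕ, DD D J (∑ i ∈ S, algebraMap k H (q g i) * y 0 ^ p ^ i * x) =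
        ∑ i ∈ S, (algebraMap k H (q g i) * y 0 ^ p ^ i * DD D J x +
          if p ^ i ≤ J.1 ∧ 0 < g then q g i • DD D (J.1 - p ^ i, J.2) x else 0) := by
      intro S
      have h2 : ∀ i, DD D J (algebraMap k H (q g i) * y 0 ^ p ^ i * x) =
          algebraMap k H (q g i) * y 0 ^ p ^ i * DD D J x +
          if p ^ i ≤ J.1 ∧ 0 < g then q g i • DD D (J.1 - p ^ i, J.2) x else 0 := by
        intro i
        rw [mul_assoc, dd_linE T J (E.algebraMap_mem _) (mul_mem (pow_mem hy0 _) hx),
          dd_mulp T i J hx, mul_add, ← mul_assoc]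
        congr 1
        by_cases h3 : p ^ i ≤ J.1
        · rw [if_pos h3, if_pos ⟨h3, h0⟩, Algebra.smul_def]
        · rw [if_neg h3, if_neg fun h4 => h3 h4.1, mul_zero]
      rw [DD, (T.jx 1).sum _ _ _ fun i _ => hm i,
        (T.jx 0).sum _ _ _ fun i _ => (T.jx 1).mem _ _ (hm i)]
      exact Finset.sum_congr rfl fun i _ => h2 i
    rw [h1, add_mul, Finset.sum_mul, dd_add7 T J (sum_mem fun i _ => hm i)
      (mul_mem (T.leK he) hx), hd, dd_linE T J he hx, if_neg h0.ne', zero_add,
      Finset.sum_add_distrib, add_mul, Finset.sum_mul]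
    ring

/-- **The commutation.** -/
theorem comm {g : ℕ} (hg : g < P) (J : ℕ × ℕ) {x : H} (hx : x ∈ K) : DD D J (Ps g x) =
    ∑ u ∈ Finset.HasAntidiagonal.antidiagonal g, ∑ J' ∈ R2 J,
      cc2 p R q u.2 J J' • Ps u.1 (DD D J' x) := by
  have hp0 := hp.out.pos
  revert g J
  refine two7_induct T (S := fun x => ∀ {g : ℕ}, g < P → ∀ J : ℕ × ℕ, DD D J (Ps g x) =
    ∑ u ∈ Finset.HasAntidiagonal.antidiagonal g, ∑ J' ∈ R2 J,
      cc2 p R q u.2 J J' • Ps u.1 (DD D J' x)) ?_ ?_ ?_ ?_ ?_ x hx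
  · -- `E`
    intro x hx g hg J
    have hdE : ∀ J : ℕ × ℕ, ∀ z ∈ E, DD D J z = if J = 0 then z else 0 := by
      intro J z hz
      by_cases h2 : J.2 = 0
      · rw [DD, h2, (T.jx 1).zero _ (T.leK hz)]
        by_cases h1 : J.1 = 0
        · rw [h1, (T.jx 0).zero _ (T.leK hz), if_pos (Prod.ext h1 h2)]
        · rw [(T.jx 0).base _ (by omega) _ (T.leE 0 hz), if_neg fun h3 => h1 (by rw [h3]; rfl)]
      · rw [DD, (T.jx 1).base _ (by omega) _ (T.leE 1 hz), (T.jx 0).zero',
          if_neg fun h3 => h2 (by rw [h3]; rfl)]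
    rw [hdE J _ (h.memE g hg x hx)]
    have h1 : ∀ u : ℕ × ℕ, ∑ J' ∈ R2 J, cc2 p R q u.2 J J' • Ps u.1 (DD D J' x) =
        cc2 p R q u.2 J 0 • Ps u.1 x := by
      intro u
      rw [Finset.sum_eq_single (0 : ℕ × ℕ)]
      · rw [hdE 0 x hx, if_pos rfl]
      · intro J' _ hJ'
        rw [hdE J' x hx, if_neg hJ', map_zero, smul_zero]
      · intro h2
        refine absurd ?_ h2
        rw [R2, Finset.mem_product, Finset.mem_range, Finset.mem_range]
        exact ⟨Nat.succ_pos _, Nat.succ_pos _⟩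
    rw [Finset.sum_congr rfl fun u _ => h1 u]
    by_cases hJ : J = 0
    · rw [if_pos hJ, Finset.sum_eq_single (g, 0)]
      · rw [cc2_zero', if_pos ⟨rfl, hJ⟩, one_smul]
      · rintro ⟨a, b⟩ hu hne
        rw [Finset.HasAntidiagonal.mem_antidiagonal] at hu
        rw [cc2_zero', if_neg, zero_smul]
        rintro ⟨h2, -⟩
        simp only at h2 hu
        rw [h2, add_zero] at hu
        exact hne (by rw [h2, hu])
      · intro h2
        exact absurd (Finset.HasAntidiagonal.mem_antidiagonal.2 (add_zero g)) h2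
    · rw [if_neg hJ, eq_comm]
      exact Finset.sum_eq_zero fun u _ => by rw [cc2_zero _ hJ, zero_smul]
  · -- sums
    intro x hx x' hx' h1 h2 g hg J
    rw [map_add, dd_add7 T J (h.memK T hg hx) (h.memK T hg hx'), h1 hg J, h2 hg J,
      ← Finset.sum_add_distrib]
    refine Finset.sum_congr rfl fun u _ => ?_
    rw [← Finset.sum_add_distrib]
    refine Finset.sum_congr rfl fun J' _ => ?_
    rw [dd_add7 T J' hx hx', map_add, smul_add]
  · -- the first letter
    intro x hx h1 g hg J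
    set B : ℕ := J.1 + J.2 + 2 with hB
    have h2 : ∀ u : ℕ × ℕ, u ∈ Finset.HasAntidiagonal.antidiagonal g →
        ∑ J' ∈ R2 J, cc2 p R q u.2 J J' • Ps u.1 (DD D J' (y 0 * x)) =
        y 0 * (∑ J' ∈ R2 J, cc2 p R q u.2 J J' • Ps u.1 (DD D J' x)) +
        if 1 ≤ J.1 then ∑ J' ∈ R2 (J.1 - 1, J.2), cc2 p R q u.2 (J.1 - 1, J.2) J' •
          Ps u.1 (DD D J' x) else 0 := by
      intro u hu
      rw [Finset.HasAntidiagonal.mem_antidiagonal] at hu
      have hu1 : u.1 < P := by omega
      have e1 : ∀ J' : ℕ × ℕ, Ps u.1 (DD D J' (y 0 * x)) = y 0 * Ps u.1 (DD D J' x) +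
          if 1 ≤ J'.1 then Ps u.1 (DD D (J'.1 - 1, J'.2) x) else 0 := by
        intro J'
        rw [dd_mul0 T J' hx, map_add, h.y0 _ hu1 _ (T.dd_mem J' hx)]
        split_ifs with h3
        · rfl
        · rw [map_zero]
      rw [sum_R2 hp0 u.2 J (B := B) (by omega), sum_R2 hp0 u.2 J (B := B) (by omega)]
      simp only [e1, smul_add, Finset.sum_add_distrib]
      congr 1
      · rw [Finset.mul_sum]
        exact Finset.sum_congr rfl fun J' _ => by rw [Algebra.smul_def, Algebra.smul_def]; ring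
      · rw [shift_box0 (fun J' => cc2 p R q u.2 J J') (fun J' => Ps u.1 (DD D J' x))
          (B := B) fun b => by
            by_contra h3
            have := (cc2_ne hp0 h3).1
            simp only at this
            omega]
        split_ifs with h3
        · rw [sum_R2 hp0 u.2 (J.1 - 1, J.2) (B := B) (by simp only; omega)]
          refine Finset.sum_congr rfl fun J' _ => ?_
          rw [cc2_succ0, if_pos h3]
        · refine Finset.sum_eq_zero fun J' _ => ?_
          rw [cc2_succ0, if_neg h3, zero_smul]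
    rw [Finset.sum_congr rfl h2, Finset.sum_add_distrib, ← Finset.mul_sum, ← h1 hg J,
      h.y0 g hg x hx, dd_mul0 T J (h.memK T hg hx)]
    congr 1
    split_ifs with h3
    · exact h1 hg _
    · rw [Finset.sum_const_zero]
  · -- the second letter
    intro x hx h1 g hg J
    set B : ℕ := J.1 + J.2 + 2 with hB
    have hm1 : ∀ u : ℕ × ℕ, u ∈ Finset.HasAntidiagonal.antidiagonal g → u.1 < P ∧ u.2 < P := by
      intro u hu
      rw [Finset.HasAntidiagonal.mem_antidiagonal] at hu
      omega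
    -- the right hand side
    have h2 : ∀ u : ℕ × ℕ, u ∈ Finset.HasAntidiagonal.antidiagonal g →
        ∑ J' ∈ R2 J, cc2 p R q u.2 J J' • Ps u.1 (DD D J' (y 1 * x)) =
        (∑ w ∈ Finset.HasAntidiagonal.antidiagonal u.1, Ps w.1 (y 1) *
          ∑ J' ∈ R2 J, cc2 p R q u.2 J J' • Ps w.2 (DD D J' x)) +
        ((if 1 ≤ J.2 then ∑ J' ∈ R2 (J.1, J.2 - 1), cc2 p R q u.2 (J.1, J.2 - 1) J' •
          Ps u.1 (DD D J' x) else 0) +
        ∑ w ∈ Finset.HasAntidiagonal.antidiagonal u.2, ∑ i ∈ Finset.range R,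
          if p ^ i ≤ J.1 ∧ 0 < w.1 then q w.1 i • ∑ J' ∈ R2 (J.1 - p ^ i, J.2),
            cc2 p R q w.2 (J.1 - p ^ i, J.2) J' • Ps u.1 (DD D J' x) else 0) := by
      intro u hu
      obtain ⟨hu1, hu2⟩ := hm1 u hu
      have e1 : ∀ J' : ℕ × ℕ, Ps u.1 (DD D J' (y 1 * x)) =
          (∑ w ∈ Finset.HasAntidiagonal.antidiagonal u.1, Ps w.1 (y 1) * Ps w.2 (DD D J' x)) +
          if 1 ≤ J'.2 then Ps u.1 (DD D (J'.1, J'.2 - 1) x) else 0 := by
        intro J'
        rw [dd_mul1 T J' hx, map_add, h.y1 _ hu1 _ (T.dd_mem J' hx)]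
        split_ifs with h3
        · rfl
        · rw [map_zero]
      rw [sum_R2 hp0 u.2 J (B := B) (by omega)]
      simp only [e1, smul_add, Finset.sum_add_distrib]
      congr 1
      · have e2 : ∀ w : ℕ × ℕ, Ps w.1 (y 1) * ∑ J' ∈ R2 J, cc2 p R q u.2 J J' •
            Ps w.2 (DD D J' x) = ∑ J' ∈ Finset.range B ×ˢ Finset.range B,
              cc2 p R q u.2 J J' • (Ps w.1 (y 1) * Ps w.2 (DD D J' x)) := by
          intro w
          rw [sum_R2 hp0 u.2 J (B := B) (by omega), Finset.mul_sum]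
          exact Finset.sum_congr rfl fun J' _ => by rw [Algebra.smul_def, Algebra.smul_def]; ring
        rw [Finset.sum_congr rfl fun w _ => e2 w, Finset.sum_comm]
        exact Finset.sum_congr rfl fun J' _ => by rw [Finset.smul_sum]
      · rw [shift_box1 (fun J' => cc2 p R q u.2 J J') (fun J' => Ps u.1 (DD D J' x))
          (B := B) fun a => by
            by_contra h3
            have := (cc2_ne hp0 h3).2.2.1
            simp only at this
            omega]
        simp only [cc2_succ1, add_smul, Finset.sum_add_distrib]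
        congr 1
        · split_ifs with h3
          · rw [sum_R2 hp0 u.2 (J.1, J.2 - 1) (B := B) (by simp only; omega)]
          · simp
        · have e3 : ∀ J' : ℕ × ℕ, (∑ w ∈ Finset.HasAntidiagonal.antidiagonal u.2,
              ∑ i ∈ Finset.range R, if p ^ i ≤ J.1 ∧ 0 < w.1 then
                q w.1 i * cc2 p R q w.2 (J.1 - p ^ i, J.2) (J'.1, J'.2) else 0) •
                Ps u.1 (DD D J' x) = ∑ w ∈ Finset.HasAntidiagonal.antidiagonal u.2,
              ∑ i ∈ Finset.range R, if p ^ i ≤ J.1 ∧ 0 < w.1 then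
                q w.1 i • cc2 p R q w.2 (J.1 - p ^ i, J.2) J' • Ps u.1 (DD D J' x) else 0 := by
            intro J'
            rw [Finset.sum_smul]
            refine Finset.sum_congr rfl fun w _ => ?_
            rw [Finset.sum_smul]
            refine Finset.sum_congr rfl fun i _ => ?_
            split_ifs
            · rw [mul_smul]
            · rw [zero_smul]
          rw [Finset.sum_congr rfl fun J' _ => e3 J', Finset.sum_comm]
          refine Finset.sum_congr rfl fun w _ => ?_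
          rw [Finset.sum_comm]
          refine Finset.sum_congr rfl fun i _ => ?_
          split_ifs with h3
          · rw [← Finset.smul_sum, sum_R2 hp0 w.2 (J.1 - p ^ i, J.2) (B := B)
              (by simp only; omega)]
          · rw [Finset.sum_const_zero]
    rw [Finset.sum_congr rfl h2, Finset.sum_add_distrib, Finset.sum_add_distrib]
    -- the left hand side
    have hdsum : DD D J (Ps g (y 1 * x)) = ∑ u ∈ Finset.HasAntidiagonal.antidiagonal g,
        DD D J (Ps u.1 (y 1) * Ps u.2 x) := by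
      have hm : ∀ u ∈ Finset.HasAntidiagonal.antidiagonal g, Ps u.1 (y 1) * Ps u.2 x ∈ K :=
        fun u hu => mul_mem (h.val_mem T (hm1 u hu).1) (h.memK T (hm1 u hu).2 hx)
      rw [h.y1 g hg x hx, DD, (T.jx 1).sum _ _ _ hm,
        (T.jx 0).sum _ _ _ fun i hi => (T.jx 1).mem _ _ (hm i hi)]
      rfl
    rw [hdsum, Finset.sum_congr rfl fun u hu => h.dd_val T (hm1 u hu).1 J
      (h.memK T (hm1 u hu).2 hx), Finset.sum_add_distrib, Finset.sum_add_distrib]
    congr 1
    · -- the products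
      rw [← sum_anti3 g fun a b c => Ps a (y 1) * ∑ J' ∈ R2 J, cc2 p R q c J J' •
        Ps b (DD D J' x)]
      refine Finset.sum_congr rfl fun u hu => ?_
      rw [h1 (hm1 u hu).2 J, Finset.mul_sum]
    congr 1
    · -- the shift of the second index
      rw [Finset.sum_eq_single (0, g)]
      · rw [if_pos rfl]
        split_ifs with h3
        · exact h1 hg _
        · rw [Finset.sum_const_zero]
      · rintro ⟨a, b⟩ hu hne
        rw [Finset.HasAntidiagonal.mem_antidiagonal] at hu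
        refine if_neg fun h3 => hne ?_
        simp only at h3 hu
        rw [h3, zero_add] at hu
        rw [h3, hu]
      · intro h3
        exact absurd (Finset.HasAntidiagonal.mem_antidiagonal.2 (zero_add g)) h3
    · -- the shift of the first index
      rw [← sum_anti3' g fun a b c => ∑ i ∈ Finset.range R,
        if p ^ i ≤ J.1 ∧ 0 < a then q a i • ∑ J' ∈ R2 (J.1 - p ^ i, J.2),
            cc2 p R q c (J.1 - p ^ i, J.2) J' • Ps b (DD D J' x) else 0]
      refine Finset.sum_congr rfl fun u hu => ?_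
      rw [Finset.sum_comm]
      refine Finset.sum_congr rfl fun i _ => ?_
      split_ifs with h3
      · rw [h1 (hm1 u hu).2, Finset.smul_sum]
      · rw [Finset.sum_const_zero]
  · -- limits
    intro x hx h1 g hg J
    refine eq_of_ge (v := v) fun b => ?_
    obtain ⟨x', hx', h2, h3⟩ := h1 b
    have hd : x - x' ∈ K := sub_mem hx hx'
    have e1 : DD D J (Ps g x) = DD D J (Ps g (x - x')) + DD D J (Ps g x') := by
      rw [← dd_add7 T J (h.memK T hg hd) (h.memK T hg hx'), ← map_add, sub_add_cancel]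
    have e2 : ∑ u ∈ Finset.HasAntidiagonal.antidiagonal g, ∑ J' ∈ R2 J,
        cc2 p R q u.2 J J' • Ps u.1 (DD D J' x) =
        (∑ u ∈ Finset.HasAntidiagonal.antidiagonal g, ∑ J' ∈ R2 J,
          cc2 p R q u.2 J J' • Ps u.1 (DD D J' (x - x'))) +
        ∑ u ∈ Finset.HasAntidiagonal.antidiagonal g, ∑ J' ∈ R2 J,
          cc2 p R q u.2 J J' • Ps u.1 (DD D J' x') := by
      rw [← Finset.sum_add_distrib]
      refine Finset.sum_congr rfl fun u _ => ?_
      rw [← Finset.sum_add_distrib]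
      refine Finset.sum_congr rfl fun J' _ => ?_
      rw [← smul_add, ← map_add, ← dd_add7 T J' hd hx', sub_add_cancel]
    rw [e1, e2, h2 hg J, add_sub_add_right_eq_sub]
    refine (T.dd_norm J (h.memK T hg hd) (h.ge g _ _ h3)).sub
      (RVal.Ge.sum _ _ fun u hu => RVal.Ge.sum _ _ fun J' _ => ?_)
    rw [Algebra.smul_def]
    have h4 := (hk.out.ge (cc2 p R q u.2 J J')).mul (h.ge u.1 _ _ (T.dd_norm J' hd h3))
    rwa [zero_add] at h4

/-- **The structure `Tri`.** -/
theorem tri (hP : 0 < P) : Tri v E K D P Ps R2 (cc2 p R q) (P * p ^ R) where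
  th0 := h.th0
  one := h.one
  ge := h.ge
  mem g x hx := by
    by_cases hg : g < P
    · exact h.memK T hg hx
    · rw [h.zero g (not_lt.1 hg), LinearMap.zero_apply]
      exact zero_mem K
  memE g x hx := by
    by_cases hg : g < P
    · exact h.memE g hg x hx
    · rw [h.zero g (not_lt.1 hg), LinearMap.zero_apply]
      exact zero_mem E
  tri g hg J x hx := h.comm T hg J hx
  c0 g J hJ := cc2_zero g hJ
  wt g hg J J' _ hc := by
    obtain ⟨i1, i2, i3, i4, i5⟩ := cc2_ne hp.out.pos hc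
    have h1 : g * p ^ R ≤ P * p ^ R := Nat.mul_le_mul_right _ hg.le
    omega
  let1 g hg m x hx := by
    have h1 := h.comm T hg (0, m) hx
    have h2 : DD D (0, m) (Ps g x) = D 1 m (Ps g x) :=
      (T.jx 0).zero _ ((T.jx 1).mem _ _ (h.memK T hg hx))
    rw [h2] at h1
    rw [h1, Finset.sum_eq_single (g, 0)]
    · rw [Finset.sum_eq_single (0, m)]
      · rw [cc2_one hp.out.pos, if_pos ⟨rfl, rfl⟩, one_smul]
        exact congrArg _ ((T.jx 0).zero _ ((T.jx 1).mem _ _ hx))
      · intro J' _ hne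
        rw [cc2_one hp.out.pos, if_neg fun h3 => hne h3.2, zero_smul]
      · intro h3
        refine absurd ?_ h3
        rw [R2, Finset.mem_product, Finset.mem_range, Finset.mem_range]
        simp only
        omega
    · rintro ⟨a, b⟩ hu hne
      rw [Finset.HasAntidiagonal.mem_antidiagonal] at hu
      refine Finset.sum_eq_zero fun J' _ => ?_
      rw [cc2_one hp.out.pos, if_neg, zero_smul]
      rintro ⟨h3, -⟩
      simp only at h3 hu
      rw [h3, add_zero] at hu
      exact hne (by rw [h3, hu])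
    · intro h3
      exact absurd (Finset.HasAntidiagonal.mem_antidiagonal.2 (add_zero g)) h3

end PsD

end Pool.Agent.TWHT
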