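import Pool.Agent.Lib.TWHT.ThA
import Pool.Agent.Lib.TWC.DescF
import Pool.Agent.Lib.TWC.Poly

/-!
# TANK W, leaf (Ht), unipotent pairs: descent of the elements with small derivatives

* `exists_delta_gt`: a lower bound of finitely many positive values;
* `Tht.descX`: `b ∈ cl(A E)`, all the `Th N j b`, `j > 0`, in `E + O`: then `b ∈ A + E + O⁺`;
* `exists_not_pp`: a number which is not a power of `p` is a sum `i + j` with `(i + j).choose i ≠ 0`;
* `Tht.lev1`: the operators at `∑ s, (x N / μ) ^ p ^ s * l s`.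
-/

set_option autoImplicit false
set_option linter.unusedSectionVars false

open Polynomial

namespace Pool.Agent.TWHT

open Pool.Agent.H15JM (RVal)
open Pool.Agent.LU1 (VPos adj)
open Pool.Agent.D2 (Ctx0)
open Pool.Agent.D2P (clI mem_clI)
open Pool.Agent.TWM Pool.Agent.TWC

universe u

variable {k Ω : Type u} [Field k] [Field Ω] [Algebra k Ω] {v : RVal Ω} {p : ℕ}
  {C L E T A : IntermediateField k Ω} {x c : ℕ → Ω} {r : ℝ} {Th : ℕ → ℕ → Ω → Ω}

/-- A lower bound of finitely many positive values. -/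
theorem exists_delta_gt {ι : Type*} (S : Finset ι) (f : ι → Ω) (h : ∀ i ∈ S, Gt v 0 (f i)) :
    ∃ δ : ℝ, 0 < δ ∧ ∀ i ∈ S, v.Ge δ (f i) := by
  classical
  induction S using Finset.induction_on with
  | empty => exact ⟨1, one_pos, fun i hi => absurd hi (Finset.notMem_empty i)⟩
  | insert i S hi ih =>
    obtain ⟨δ, hδ, h1⟩ := ih fun j hj => h j (Finset.mem_insert_of_mem hj)
    have h2 := h i (Finset.mem_insert_self i S)
    by_cases h0 : f i = 0
    · refine ⟨δ, hδ, fun j hj => ?_⟩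
      rcases Finset.mem_insert.1 hj with rfl | hj
      · rw [h0]
        exact RVal.Ge.zero
      · exact h1 j hj
    · refine ⟨min δ (v (f i)), lt_min hδ (h2 h0), fun j hj => ?_⟩
      rcases Finset.mem_insert.1 hj with rfl | hj
      · exact (RVal.ge_self _).mono (min_le_right _ _)
      · exact (h1 j hj).mono (min_le_left _ _)

theorem exists_not_pp (p : ℕ) [hp : Fact p.Prime] {n : ℕ} (hn : 0 < n) (h : ¬ ∃ s, n = p ^ s) :
    ∃ i j, 0 < i ∧ 0 < j ∧ i + j = n ∧ ¬ p ∣ (i + j).choose i := by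
  obtain ⟨e, m, hm, h1⟩ := Nat.exists_eq_pow_mul_and_not_dvd hn.ne' p hp.out.ne_one
  have hpe : 0 < p ^ e := Nat.pow_pos hp.out.pos
  have hm1 : 1 < m := by
    rcases Nat.lt_or_ge 1 m with h2 | h2
    · exact h2
    · exfalso
      have h3 : m ≠ 0 := by
        rintro rfl
        exact hm (dvd_zero p)
      have h4 : m = 1 := by omega
      rw [h4, mul_one] at h1
      exact h ⟨e, h1⟩
  have h2 : p ^ e < n := by
    rw [h1]
    exact (Nat.lt_mul_iff_one_lt_right hpe).2 hm1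
  refine ⟨p ^ e, n - p ^ e, hpe, by omega, by omega, ?_⟩
  rw [Nat.add_sub_cancel' h2.le, h1]
  exact not_dvd_choose_self hm

namespace Tht

variable [hp : Fact p.Prime] [CharP Ω p]

/-- **Descent.** -/
theorem descX (h0 : Ctx0 k v) (h : Tht p v C L E x c r Th)
    (hlim : ∀ n (ε : ℝ), 0 < ε → ∃ a ∈ C, v.Ge (r / p ^ n - ε) (x n - a)) (hCA : C ≤ A)
    (hAL : A ≤ L) {b : Ω} (hb : b ∈ clI v (A ⊔ E))
    (hO : ∀ N j, 0 < j → j < p ^ N → Nr v E 0 (Th N j b)) :
    ∃ l ∈ A, ∃ e ∈ E, Gt v 0 (b - l - e) := by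
  classical
  have hTT : clI v (A ⊔ E) ≤ clI v (L ⊔ E) := clI_mono' (sup_le_sup_right hAL E)
  obtain ⟨_, ⟨M, P, hP, rfl⟩, hPm, h1⟩ := h.dat.dnsA hCA b hb 1
  obtain ⟨Q, hQ, hdeg, hQe⟩ := exists_red h.dat.nbx.root (hCA h.dat.base) M hP
  rw [← hQe] at h1 hPm
  set b' : Ω := Q.eval (x M) with hb'
  have hq : 0 < p ^ M := pow_pos hp.out.pos M
  -- the derivatives
  have h2 : ∀ j : ℕ, ∃ e ∈ E, 0 < j → j < p ^ M → Gt v 0 (Th M j b' - e) := by
    intro j
    by_cases hj : 0 < j ∧ j < p ^ M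
    · obtain ⟨a, ha, h3⟩ := hO M j hj.1 hj.2
      have h4 : v.Ge 0 (Th M j b' - a) := by
        have h5 := h.near hj.2 (hTT hb) (hTT hPm) h1
        refine (congrArg (v.Ge 0) ?_).mp (h3.sub (h5.mono zero_le_one))
        ring
      obtain ⟨s, hs⟩ := h0.residue h4
      refine ⟨a + algebraMap k Ω s, add_mem ha (E.algebraMap_mem s), fun _ _ => ?_⟩
      refine (congrArg (Gt v 0) ?_).mp hs
      ring
    · exact ⟨0, zero_mem E, fun h3 h4 => absurd ⟨h3, h4⟩ hj⟩
  choose e he hm using h2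
  obtain ⟨δ, hδ, h3⟩ := exists_delta_gt (Finset.Ico 1 (p ^ M)) (fun j => Th M j b' - e j)
    fun j hj => hm j (Finset.mem_Ico.1 hj).1 (Finset.mem_Ico.1 hj).2
  set ε : ℝ := δ / (p ^ M + 1) with hε
  have hpM : (0 : ℝ) < (p : ℝ) ^ M + 1 := by positivity
  have hε0 : 0 < ε := div_pos hδ hpM
  obtain ⟨w, hw, h4⟩ := hlim M ε hε0
  have hc0 := h.dat.ne M
  set ζ : Ω := (w - x M) / c M with hζ
  have hζE : ζ ∈ E := div_mem (sub_mem (h.dat.CE hw) (h.dat.mem M)) (h.dat.memc M)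
  have hζg : v.Ge (-ε) ζ := by
    intro h5
    have h6 : w - x M ≠ 0 := left_ne_zero_of_mul (by rw [← div_eq_mul_inv]; exact h5)
    rw [hζ, div_eq_mul_inv, v.map_mul h6 (inv_ne_zero hc0), v.map_inv hc0, h.dat.val]
    have h7 := (ge_sub_comm h4) h6
    linarith
  -- the value at `w`
  have h5 : Q.eval w = b' + ∑ j ∈ Finset.Ico 1 (p ^ M), Th M j b' * ζ ^ j := by
    have h6 : (taylor (x M) Q).natDegree < p ^ M := by rwa [natDegree_taylor]
    have h7 : Q.eval w = (taylor (x M) Q).eval (w - x M) := by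
      rw [taylor_eval, sub_add_cancel]
    rw [h7, eval_eq_sum_range' h6, Finset.range_eq_Ico, Finset.sum_eq_sum_Ico_succ_bot hq]
    congr 1
    · rw [pow_zero, mul_one, taylor_coeff_zero]
    · refine Finset.sum_congr rfl fun j hj => ?_
      rw [h.ev (Finset.mem_Ico.1 hj).2 (PI_mono hAL hQ), hζ, div_pow]
      field_simp
  refine ⟨Q.eval w, eval_mem hQ (hCA hw), -∑ j ∈ Finset.Ico 1 (p ^ M), e j * ζ ^ j,
    neg_mem (sum_mem fun j _ => mul_mem (he j) (pow_mem hζE j)), ?_⟩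
  have h6 : Gt v 0 (∑ j ∈ Finset.Ico 1 (p ^ M), (Th M j b' - e j) * ζ ^ j) := by
    refine Gt.sum _ _ fun j hj => Gt.of_ge ((h3 j hj).mul (TWM.ge_pow hζg j)) ?_
    have h7 : (j : ℝ) < (p : ℝ) ^ M := by
      exact_mod_cast (Finset.mem_Ico.1 hj).2
    have h8 : (j : ℝ) * ε < δ := by
      rw [hε, mul_div_assoc', div_lt_iff₀ hpM]
      nlinarith
    linarith
  have h7 : b - Q.eval w - -∑ j ∈ Finset.Ico 1 (p ^ M), e j * ζ ^ j = (b - b') -
      ∑ j ∈ Finset.Ico 1 (p ^ M), (Th M j b' - e j) * ζ ^ j := by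
    simp only [sub_mul, Finset.sum_sub_distrib]
    rw [h5]
    ring
  rw [h7]
  exact (Gt.of_ge h1 one_pos).sub h6

/-- The operators at the powers of `x N`. -/
theorem th_xpow (h : Tht p v C L E x c r Th) {N j : ℕ} (hj : j < p ^ N) (h0 : 0 < j) (s : ℕ) :
    Th N j (x N ^ p ^ s) = if j = p ^ s then c N ^ j else 0 := by
  have h1 := h.ev hj (P := X ^ p ^ s) (pow_mem X_mem_PI _)
  rw [eval_pow, eval_X] at h1
  rw [h1, taylor_pow, taylor_X, add_pow_char_pow, ← C_pow, coeff_add, coeff_X_pow, coeff_C,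
    if_neg h0.ne', add_zero]
  split_ifs with h2
  · rw [mul_one]
  · rw [mul_zero]

end Tht

end Pool.Agent.TWHT
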