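import Pool.Agent.Lib.TWHT.K2d

/-!
# TANK W, leaf (Ht), unipotent pairs: exactification

`y, u ∈ L`, `b ∈ E₁ = E<y>`, `u + b` a limit of `E`.
* `lsum p R q y j = ∑ i, q j i • y ^ p ^ i`;
* `Tht.lim_b`, `Tht.cls_b`: the classes of `Th N j b`;
* `Tht.th_y1`: the operators at `u' + ∑ s < N, (x N / μ) ^ p ^ s * lsum (p ^ s)`;
* **`Tht.exact`**: `y₁` of this form, `y₁ - u ∈ E₁`, `y₁` a limit of `E`.
-/

set_option autoImplicit false
set_option linter.unusedSectionVars false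

open Polynomial

namespace Pool.Agent.TWHT

open Pool.Agent.H15JM (RVal)
open Pool.Agent.LU1 (VPos adj)
open Pool.Agent.D2 (Ctx0)
open Pool.Agent.D2P (clI mem_clI)
open Pool.Agent.TWM Pool.Agent.TWC

universe u

variable {k Ω : Type u} [Field k] [Field Ω] [Algebra k Ω] {v : RVal Ω} {p : ℕ}
  {C L E T A : IntermediateField k Ω} {x c : ℕ → Ω} {r : ℝ} {Th : ℕ → ℕ → Ω → Ω}

/-- The combination `∑ i, q j i • y ^ p ^ i`. -/
noncomputable def lsum (p R : ℕ) (q : ℕ → ℕ → k) (y : Ω) (j : ℕ) : Ω :=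
  ∑ i ∈ Finset.range R, algebraMap k Ω (q j i) * y ^ p ^ i

theorem lsum_mem {R : ℕ} {q : ℕ → ℕ → k} {y : Ω} (hy : y ∈ L) (j : ℕ) : lsum p R q y j ∈ L :=
  sum_mem fun i _ => mul_mem (L.algebraMap_mem _) (pow_mem hy _)

theorem lsum_zero {R : ℕ} {q : ℕ → ℕ → k} {y : Ω} {j : ℕ} (h : ∀ i, q j i = 0) :
    lsum p R q y j = 0 :=
  Finset.sum_eq_zero fun i _ => by rw [h i, map_zero, zero_mul]

/-- The second letter. -/
noncomputable def ylet (p R : ℕ) (q : ℕ → ℕ → k) (x : ℕ → Ω) (μ y u' : Ω) (N : ℕ) : Ω :=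
  u' + ∑ s ∈ Finset.range N, (x N / μ) ^ p ^ s * lsum p R q y (p ^ s)

theorem nr_mul_unit {B : IntermediateField k Ω} {η z : Ω} {s : ℝ} (hηB : η ∈ B) (hη : v.Ge 0 η)
    (hz : Nr v B s z) : Nr v B s (η * z) := by
  obtain ⟨b, hb, h1⟩ := hz
  refine ⟨η * b, mul_mem hηB hb, ?_⟩
  rw [← mul_sub]
  have := hη.mul h1
  rwa [zero_add] at this

namespace Tht

variable [hp : Fact p.Prime] [CharP Ω p]

/-- The polynomial of the second letter. -/
theorem ylet_eval {R : ℕ} {q : ℕ → ℕ → k} {y u' μ : Ω} (hy : y ∈ L) (hu : u' ∈ L) (hμ : μ ∈ L)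
    (N : ℕ) : ∃ P ∈ PI L, P.eval (x N) = ylet p R q x μ y u' N := by
  refine ⟨Polynomial.C u' + ∑ s ∈ Finset.range N, Polynomial.C (lsum p R q y (p ^ s) / μ ^ p ^ s) *
    X ^ p ^ s, add_mem (C_mem_PI hu) (sum_mem fun s _ => mul_mem (C_mem_PI
      (div_mem (lsum_mem hy _) (pow_mem hμ _))) (pow_mem X_mem_PI _)), ?_⟩
  rw [eval_add, eval_C, eval_finsetSum, ylet]
  congr 1
  refine Finset.sum_congr rfl fun s _ => ?_
  rw [eval_mul, eval_C, eval_pow, eval_X, div_pow]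
  ring

/-- The operators at the letter. -/
theorem th_ylet (h : Tht p v C L E x c r Th) {R : ℕ} {q : ℕ → ℕ → k} {y u' η : Ω} (hy : y ∈ L)
    (hu : u' ∈ L) {N : ℕ} (hη : η * c N ∈ L) (hη0 : η ≠ 0)
    (hq : ∀ j, (¬ ∃ s, j = p ^ s) → ∀ i, q j i = 0) {j : ℕ} (h0 : 0 < j) (hj : j < p ^ N) :
    η ^ j * Th N j (ylet p R q x (η * c N) y u' N) = lsum p R q y j := by
  have hcN := h.dat.ne N
  have hμ : η * c N ≠ 0 := mul_ne_zero hη0 hcN
  have hLT := h.dat.leL
  have hxT : x N ∈ clI v (L ⊔ E) := h.dat.leE (h.dat.mem N)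
  have hl : ∀ s, lsum p R q y (p ^ s) / (η * c N) ^ p ^ s ∈ L := fun s =>
    div_mem (lsum_mem hy _) (pow_mem hη _)
  have e1 : ylet p R q x (η * c N) y u' N = u' + ∑ s ∈ Finset.range N,
      (lsum p R q y (p ^ s) / (η * c N) ^ p ^ s) * x N ^ p ^ s := by
    rw [ylet]
    congr 1
    refine Finset.sum_congr rfl fun s _ => ?_
    rw [div_pow]
    ring
  have hm : ∀ s ∈ Finset.range N, (lsum p R q y (p ^ s) / (η * c N) ^ p ^ s) * x N ^ p ^ s ∈
      clI v (L ⊔ E) := fun s _ => mul_mem (hLT (hl s)) (pow_mem hxT _)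
  rw [e1, h.add N j (hLT hu) (sum_mem hm), h.base hj h0 hu, zero_add, h.sum N j _ _ hm]
  have e2 : ∀ s, Th N j ((lsum p R q y (p ^ s) / (η * c N) ^ p ^ s) * x N ^ p ^ s) =
      if j = p ^ s then lsum p R q y j / η ^ j else 0 := by
    intro s
    rw [h.lin hj (hl s) (pow_mem hxT _), h.th_xpow hj h0 s]
    split_ifs with h1
    · rw [h1, mul_pow]
      field_simp
    · rw [mul_zero]
  rw [Finset.sum_congr rfl fun s _ => e2 s]
  by_cases h1 : ∃ s, j = p ^ s
  · obtain ⟨s, hs⟩ := h1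
    have hs' : s < N := by
      rw [hs] at hj
      exact (Nat.pow_lt_pow_iff_right hp.out.one_lt).1 hj
    rw [Finset.sum_eq_single_of_mem s (Finset.mem_range.2 hs'), if_pos hs]
    · field_simp
    · intro s' _ hne
      refine if_neg fun h2 => hne ?_
      rw [hs] at h2
      exact (Nat.pow_right_injective hp.out.two_le h2).symm
  · rw [Finset.sum_eq_zero fun s _ => if_neg fun h2 => h1 ⟨s, h2⟩, mul_zero,
      lsum_zero (hq j h1)]

variable [hcx : Fact (Ctx0 k v)] [IsAlgClosed Ω]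

/-- The field `E<y>`. -/
theorem cadj_eq_sup (h : Tht p v C L E x c r Th) (y : Ω) :
    cadj v E y = clI v (cadj v C y ⊔ E) := by
  refine le_antisymm (cadj_le (cld_clI v _) ?_ ?_) (clI_le' (sup_le ?_ (le_cadj v E y))
    (cld_cadj v E y))
  · exact le_sup_right.trans fun _ ha => LUC.Cl.subset ha
  · exact LUC.Cl.subset ((le_sup_left : cadj v C y ≤ _) (self_mem_cadj v C y))
  · exact cadj_le (cld_cadj v E y) (h.dat.CE.trans (le_cadj v E y)) (self_mem_cadj v E y)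

theorem cadj_leT (h : Tht p v C L E x c r Th) {y : Ω} (hy : y ∈ L) :
    cadj v E y ≤ clI v (L ⊔ E) :=
  cadj_le (cld_clI v _) h.dat.leE (h.dat.leL hy)

/-- `E<y>` is stable. -/
theorem stb_cadj1 (hc : CompleteV v) (h : Tht p v C L E x c r Th) {y : Ω} (hy : y ∈ L) {N j : ℕ}
    (hj : j < p ^ N) {z : Ω} (hz : z ∈ cadj v E y) : Th N j z ∈ cadj v E y := by
  rw [h.cadj_eq_sup y] at hz ⊢
  exact h.stab hc (le_cadj v C y) (cadj_le h.dat.cldL h.dat.le hy) hj hz

/-- **Exactification.** -/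
theorem exact (hc : CompleteV v) (h : Tht p v C L E x c r Th)
    (hlim : ∀ n (ε : ℝ), 0 < ε → ∃ a ∈ C, v.Ge (r / p ^ n - ε) (x n - a)) {y u b : Ω}
    (hy : y ∈ L) (ty : TL v E y 0) (hu : u ∈ L) (hb : b ∈ cadj v E y) (hl : Lim v E 0 (u + b))
    (N₀ : ℕ) : ∃ (N : ℕ) (R : ℕ) (q : ℕ → ℕ → k) (η u' : Ω), N₀ ≤ N ∧ η ∈ E ∧ Gt v 0 (η - 1) ∧
      η ≠ 0 ∧ η * c N ∈ C ∧ u' ∈ L ∧ (∀ j, (¬ ∃ s, j = p ^ s) → ∀ i, q j i = 0) ∧
      ylet p R q x (η * c N) y u' N - u ∈ cadj v E y ∧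
      Lim v E 0 (ylet p R q x (η * c N) y u' N) := by
  classical
  have h0 : Ctx0 k v := hcx.out
  have hE1T := h.cadj_leT hy
  have hET := h.dat.leE
  have hLT := h.dat.leL
  have hEE1 : E ≤ cadj v E y := le_cadj v E y
  have hbT : b ∈ clI v (L ⊔ E) := hE1T hb
  obtain ⟨N₁, hN₁⟩ := h.fin hbT 0
  set N : ℕ := max N₀ N₁ with hN
  have hN0 : N₀ ≤ N := le_max_left _ _
  have hN1 : N₁ ≤ N := le_max_right _ _
  obtain ⟨η, hηE, hη, hηc⟩ := h.exists_eta N
  have hη0 : η ≠ 0 := by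
    rintro rfl
    have h1 : (0 : Ω) - 1 ≠ 0 := by rw [zero_sub]; exact neg_ne_zero.2 one_ne_zero
    have h2 := hη h1
    rw [zero_sub, v.map_neg _ one_ne_zero, v.map_one] at h2
    exact lt_irrefl _ h2
  have hηj : ∀ j, Gt v 0 (η ^ j - 1) := fun j => one_unit_pow hη j
  -- the limits
  have hlb : ∀ j, 0 < j → j < p ^ N → Lim v E 0 (Th N j b) := by
    intro j hj0 hj
    have h1 := h.lim_th hET hj (fun y hy => h.memE hc hj hy) (add_mem (hLT hu) hbT) hl
    rwa [h.add N j (hLT hu) hbT, h.base hj hj0 hu, zero_add] at h1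
  -- the classes
  have hcls : ∀ j : ℕ, ∃ (m : ℕ) (a : ℕ → k), 0 < j → j < p ^ N →
      Nr v E 0 (η ^ j * Th N j b - ∑ i ∈ Finset.range m, algebraMap k Ω (a i) * y ^ p ^ i) := by
    intro j
    by_cases hj : 0 < j ∧ j < p ^ N
    · obtain ⟨e, he, m, a, h1⟩ := germ_res h0 ty p (h.stb_cadj1 hc hy hj.2 hb)
        (hlb j hj.1 hj.2)
      refine ⟨m, a, fun _ _ => ?_⟩
      obtain ⟨e', he', h2⟩ := nr_mul_sub (pow_mem hηE j) (hηj j) (hlb j hj.1 hj.2)
      refine ⟨e + e', add_mem he he', ?_⟩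
      refine (congrArg (v.Ge 0) ?_).mp (h1.ge.add h2)
      ring
    · exact ⟨0, fun _ => 0, fun h1 h2 => absurd ⟨h1, h2⟩ hj⟩
  choose m a hma using hcls
  -- the composition
  have hlT : ∀ j (S : ℕ), ∑ i ∈ Finset.range S, algebraMap k Ω (a j i) * y ^ p ^ i ∈ L :=
    fun j S => sum_mem fun i _ => mul_mem (L.algebraMap_mem _) (pow_mem hy _)
  have hηT : ∀ j, η ^ j ∈ clI v (L ⊔ E) := fun j => hET (pow_mem hηE j)
  have hpp : ∀ n, 0 < n → n < p ^ N → (¬ ∃ s, n = p ^ s) → Nr v E 0 (η ^ n * Th N n b) := by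
    intro n hn0 hn hs
    obtain ⟨i, j, hi, hj, hij, hd⟩ := exists_not_pp p hn0 hs
    have hi' : i < p ^ N := by omega
    have hj' : j < p ^ N := by omega
    have h1 := h.psi_comp hi' hj' (by rwa [hij]) hηc hbT
    obtain ⟨e, he, h2⟩ := hma j hj hj'
    have h3 : Nr v E 0 (Th N i (η ^ j * Th N j b)) := by
      have hz : η ^ j * Th N j b - ∑ i ∈ Finset.range (m j), algebraMap k Ω (a j i) * y ^ p ^ i ∈
          clI v (L ⊔ E) := sub_mem (mul_mem (hηT j) (h.memT N j hbT)) (hLT (hlT j _))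
      refine ⟨Th N i e, h.memE hc hi' he, ?_⟩
      have h4 := h.near hi' hz (hET he) h2
      rwa [h.sub N i (mul_mem (hηT j) (h.memT N j hbT)) (hLT (hlT j _)), h.base hi' hi (hlT j _),
        sub_zero] at h4
    have h4 := nr_mul_unit (pow_mem hηE i) (ge_one_unit (hηj i)) h3
    rw [h1, hij] at h4
    obtain ⟨e', he', h5⟩ := h4
    have h6 : ((n.choose i : ℕ) : Ω) ≠ 0 := by
      rw [Ne, CharP.cast_eq_zero_iff Ω p, ← hij]
      exact hd
    have h7 : (((n.choose i : ℕ) : k)) ≠ 0 := by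
      intro h8
      refine h6 ?_
      rw [← map_natCast (algebraMap k Ω), h8, map_zero]
    refine ⟨((n.choose i : ℕ) : Ω)⁻¹ * e', mul_mem (inv_mem (natCast_mem E _)) he', ?_⟩
    have h8 : η ^ n * Th N n b - ((n.choose i : ℕ) : Ω)⁻¹ * e' = ((n.choose i : ℕ) : Ω)⁻¹ *
        (((n.choose i : ℕ) : Ω) * (η ^ n * Th N n b) - e') := by
      rw [mul_sub, inv_mul_cancel_left₀ h6]
    rw [h8]
    have h9 : v.Ge 0 (((n.choose i : ℕ) : Ω)⁻¹) := by
      have h10 := h0.ge ((n.choose i : ℕ) : k)⁻¹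
      rwa [map_inv₀, map_natCast] at h10
    have := h9.mul h5
    rwa [zero_add] at this
  set R : ℕ := (Finset.range (p ^ N)).sup m with hR
  set q : ℕ → ℕ → k := fun j i => if (∃ s, j = p ^ s) ∧ i < m j then a j i else 0 with hq
  have hq0 : ∀ j, (¬ ∃ s, j = p ^ s) → ∀ i, q j i = 0 := fun j hj i =>
    if_neg fun h1 => hj h1.1
  have hrel : ∀ j, 0 < j → j < p ^ N → Nr v E 0 (η ^ j * Th N j b - lsum p R q y j) := by
    intro j hj0 hj
    by_cases hs : ∃ s, j = p ^ s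
    · have h1 := hma j hj0 hj
      have h2 : lsum p R q y j = ∑ i ∈ Finset.range (m j), algebraMap k Ω (a j i) * y ^ p ^ i := by
        have hmR : m j ≤ R := Finset.le_sup (f := m) (Finset.mem_range.2 hj)
        rw [lsum]
        symm
        have h3 : ∑ i ∈ Finset.range (m j), algebraMap k Ω (a j i) * y ^ p ^ i =
            ∑ i ∈ Finset.range (m j), algebraMap k Ω (q j i) * y ^ p ^ i :=
          Finset.sum_congr rfl fun i hi => by
            have h5 : q j i = a j i := if_pos ⟨hs, Finset.mem_range.1 hi⟩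
            rw [h5]
        rw [h3]
        refine Finset.sum_subset (Finset.range_subset_range.2 hmR) fun i _ hi => ?_
        have h5 : q j i = 0 := if_neg fun h6 => hi (Finset.mem_range.2 h6.2)
        rw [h5, map_zero, zero_mul]
      rwa [h2]
    · rw [lsum_zero (hq0 j hs), sub_zero]
      exact hpp j hj0 hj hs
  -- the corrected element
  set μ : Ω := η * c N with hμ
  have hμC : μ ∈ C := hηc
  have hμL : μ ∈ L := h.dat.le hμC
  set S : Ω := ∑ s ∈ Finset.range N, (x N / μ) ^ p ^ s * lsum p R q y (p ^ s) with hS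
  have hyE1 : y ∈ cadj v E y := self_mem_cadj v E y
  have hSE1 : S ∈ cadj v E y := sum_mem fun s _ => mul_mem
    (pow_mem (hEE1 (div_mem (h.dat.mem N) (h.dat.CE hμC))) _) (lsum_mem hyE1 _)
  have hST : S ∈ clI v (L ⊔ E) := hE1T hSE1
  have hS0 : S = ylet p R q x μ y 0 N := by rw [ylet, zero_add]
  have hthS : ∀ j, 0 < j → j < p ^ N → η ^ j * Th N j S = lsum p R q y j := by
    intro j hj0 hj
    rw [hS0]
    exact h.th_ylet hy (zero_mem L) hμL hη0 hq0 hj0 hj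
  have hlevN : ∀ j, 0 < j → j < p ^ N → Nr v E 0 (Th N j (b - S)) := by
    intro j hj0 hj
    have h1 := hrel j hj0 hj
    rw [← hthS j hj0 hj, ← mul_sub, ← h.sub N j hbT hST] at h1
    have h2 := nr_mul_unit (η := (η ^ j)⁻¹) (inv_mem (pow_mem hηE j)) (by
      intro h3
      have h4 : v (η ^ j) = 0 := by
        by_cases h5 : (1 : Ω) - η ^ j = 0
        · rw [← sub_eq_zero.1 h5, v.map_one]
        · have h6 := hηj j
          have h7 : Gt v (v (1 : Ω)) ((1 : Ω) - η ^ j) := by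
            rw [v.map_one]
            exact h6.sub_comm'
          have h8 := (Gt.val_eq one_ne_zero h7).2
          rw [h8, v.map_one]
      rw [v.map_inv (pow_ne_zero j hη0), h4, neg_zero]) h1
    rwa [inv_mul_cancel_left₀ (pow_ne_zero j hη0)] at h2
  have hO : ∀ M j, 0 < j → j < p ^ M → Nr v E 0 (Th M j (b - S)) := by
    intro M j hj0 hj
    have hbS : b - S ∈ clI v (L ⊔ E) := sub_mem hbT hST
    rcases le_total N M with hNM | hNM
    · obtain ⟨d, rfl⟩ := Nat.exists_eq_add_of_le hNM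
      by_cases hd : p ^ d ∣ j
      · obtain ⟨i, rfl⟩ := hd
        have hi : i < p ^ N := by
          rw [pow_add, mul_comm (p ^ N)] at hj
          exact Nat.lt_of_mul_lt_mul_left hj
        rw [h.lev' hi d hbS]
        exact hlevN i (Nat.pos_of_mul_pos_left hj0) hi
      · obtain ⟨P, hP, hPe⟩ := ylet_eval (p := p) (x := x) (R := R) (q := q) hy (zero_mem L) hμL N
        have h1 : Th (N + d) j S = 0 := by
          rw [hS0, ← hPe]
          exact h.van hj hd hP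
        rw [h.sub _ _ hbT hST, h1, sub_zero]
        refine ⟨0, zero_mem E, ?_⟩
        rw [sub_zero]
        refine hN₁ (N + d) (by omega) j hj fun h2 => hd ((Nat.pow_dvd_pow p ?_).trans h2)
        omega
    · obtain ⟨d, hd⟩ := Nat.exists_eq_add_of_le hNM
      rw [← h.lev' hj d hbS, ← hd]
      refine hlevN _ (Nat.mul_pos (Nat.pow_pos hp.out.pos) hj0) ?_
      rw [hd, pow_add, mul_comm]
      exact Nat.mul_lt_mul_of_pos_right hj (Nat.pow_pos hp.out.pos)
  -- descent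
  have hbS : b - S ∈ clI v (cadj v C y ⊔ E) := by
    rw [← h.cadj_eq_sup y]
    exact sub_mem hb hSE1
  have hAL : cadj v C y ≤ L := cadj_le h.dat.cldL h.dat.le hy
  obtain ⟨l, hl', e, he, hm⟩ := h.descX h0 hlim (le_cadj v C y) hAL hbS hO
  have hlE1 : l ∈ cadj v E y := by
    rw [h.cadj_eq_sup y]
    exact LUC.Cl.subset ((le_sup_left : cadj v C y ≤ _) hl')
  refine ⟨N, R, q, η, u + l, hN0, hηE, hη, hη0, hηc, add_mem hu (hAL hl'), hq0, ?_, ?_⟩
  · have e1 : ylet p R q x μ y (u + l) N - u = l + S := by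
      rw [ylet]
      ring
    rw [e1]
    exact add_mem hlE1 hSE1
  · have e1 : ylet p R q x μ y (u + l) N = (u + b) - e - (b - S - l - e) := by
      rw [ylet]
      ring
    rw [e1]
    intro ε hε
    obtain ⟨a', ha', h1⟩ := hl ε hε
    refine ⟨a' - e, sub_mem ha' he, ?_⟩
    have e2 : u + b - e - (b - S - l - e) - (a' - e) = (u + b - a') - (b - S - l - e) := by ring
    rw [e2]
    exact h1.sub (hm.ge.mono (by linarith))

end Tht

end Pool.Agent.TWHT
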