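import Pool.Agent.Lib.TWHT.K2c
import Pool.Agent.Lib.TWHT.K2e

/-!
# TANK W, leaf (Ht), unipotent pairs: the operators `Ps g = η ^ g Th N g`

* `psO P η ψ g`: the operators;
* **`Tht.psD`**: for `y₁ = ylet ..` they satisfy `PsD` on `K = E<y><y₁>`.
-/

set_option autoImplicit false
set_option linter.unusedSectionVars false

open Polynomial

namespace Pool.Agent.TWHT

open Pool.Agent.H15JM (RVal)
open Pool.Agent.LU1 (VPos adj)
open Pool.Agent.D2 (Ctx0)
open Pool.Agent.D2P (clI mem_clI)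
open Pool.Agent.TWM Pool.Agent.TWC

universe u

variable {k Ω : Type u} [Field k] [Field Ω] [Algebra k Ω] {v : RVal Ω} {p : ℕ}
  {C L E T A : IntermediateField k Ω} {x c : ℕ → Ω} {r : ℝ} {Th : ℕ → ℕ → Ω → Ω}

open Classical in
/-- The operators `η ^ g ψ g`. -/
noncomputable def psO (P : ℕ) (η : Ω) (ψ : ℕ → Module.End k Ω) (g : ℕ) : Module.End k Ω :=
  if g = 0 then 1 else if g < P then (LinearMap.mulLeft k (η ^ g)) ∘ₗ ψ g else 0

/-- The pair of letters. -/
def yy2 (y y₁ : Ω) (n : ℕ) : Ω := if n = 0 then y else y₁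

theorem psO_zero (P : ℕ) (η : Ω) (ψ : ℕ → Module.End k Ω) : psO P η ψ 0 = 1 := if_pos rfl

theorem psO_pos {P : ℕ} {η : Ω} {ψ : ℕ → Module.End k Ω} {g : ℕ} (h0 : 0 < g) (hg : g < P)
    (z : Ω) : psO P η ψ g z = η ^ g * ψ g z := by
  rw [psO, if_neg h0.ne', if_pos hg]
  rfl

theorem psO_big {P : ℕ} {η : Ω} {ψ : ℕ → Module.End k Ω} {g : ℕ} (hP : 0 < P) (hg : P ≤ g) :
    psO P η ψ g = 0 := by
  rw [psO, if_neg (by omega), if_neg (by omega)]

namespace Tht

variable [hp : Fact p.Prime] [CharP Ω p]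

theorem psO_eq (h : Tht p v C L E x c r Th) {N : ℕ} {η : Ω} {ψ : ℕ → Module.End k Ω}
    (hψ : ∀ g < p ^ N, ∀ z ∈ clI v (L ⊔ E), ψ g z = Th N g z) {g : ℕ} (hg : g < p ^ N) {z : Ω}
    (hz : z ∈ clI v (L ⊔ E)) : psO (p ^ N) η ψ g z = η ^ g * Th N g z := by
  rcases Nat.eq_zero_or_pos g with rfl | h0
  · rw [psO_zero, Module.End.one_apply, h.zero N hz, pow_zero, one_mul]
  · rw [psO_pos h0 hg, hψ g hg z hz]

variable [hcx : Fact (Ctx0 k v)] [IsAlgClosed Ω] [PerfectRing Ω p]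

/-- **The operators of a unipotent pair.** -/
theorem psD (hc : CompleteV v) (h : Tht p v C L E x c r Th) {R : ℕ} {q : ℕ → ℕ → k}
    {y u' η : Ω} (hy : y ∈ L) (hu : u' ∈ L) {N : ℕ} (hηE : η ∈ E) (hη : Gt v 0 (η - 1))
    (hη0 : η ≠ 0) (hηc : η * c N ∈ C) (hq : ∀ j, (¬ ∃ s, j = p ^ s) → ∀ i, q j i = 0)
    {ψ : ℕ → Module.End k Ω} (hψ : ∀ g < p ^ N, ∀ z ∈ clI v (L ⊔ E), ψ g z = Th N g z)
    (hψg : ∀ g < p ^ N, ∀ (z : Ω) (b : ℝ), v.Ge b z → v.Ge b (ψ g z)) :
    PsD p v E (cadj v (cadj v E y) (ylet p R q x (η * c N) y u' N))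
      (yy2 y (ylet p R q x (η * c N) y u' N)) (p ^ N) R (psO (p ^ N) η ψ) q := by
  have hP : 0 < p ^ N := Nat.pow_pos hp.out.pos
  have hμL : η * c N ∈ L := h.dat.le hηc
  set y₁ : Ω := ylet p R q x (η * c N) y u' N with hy₁
  have hLT := h.dat.leL
  have hET := h.dat.leE
  obtain ⟨Q, hQ, hQe⟩ := ylet_eval (p := p) (x := x) (R := R) (q := q) hy hu hμL N
  have hy₁T : y₁ ∈ clI v (L ⊔ E) := by
    rw [hy₁, ← hQe]
    exact eval_mem (PI_mono hLT hQ) (hET (h.dat.mem N))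
  have hKT : cadj v (cadj v E y) y₁ ≤ clI v (L ⊔ E) :=
    cadj_le (cld_clI v _) (h.cadj_leT hy) hy₁T
  have e : ∀ {g : ℕ}, g < p ^ N → ∀ {z : Ω}, z ∈ clI v (L ⊔ E) →
      psO (p ^ N) η ψ g z = η ^ g * Th N g z := fun hg _ hz => h.psO_eq hψ hg hz
  have hηg : ∀ g, v.Ge 0 (η ^ g) := fun g => ge_one_unit (one_unit_pow hη g)
  exact
    { th0 := psO_zero _ _ _
      one := fun g h0 hg => by
        rw [e hg (one_mem _), h.base hg h0 (one_mem L), mul_zero]
      ge := fun g z b hb => by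
        rcases Nat.eq_zero_or_pos g with rfl | h0
        · rw [psO_zero]
          exact hb
        · by_cases hg : g < p ^ N
          · rw [psO_pos h0 hg]
            have h1 := (hηg g).mul (hψg g hg z b hb)
            rwa [zero_add] at h1
          · rw [psO_big hP (not_lt.1 hg), LinearMap.zero_apply]
            exact RVal.Ge.zero
      zero := fun g hg => psO_big hP hg
      memE := fun g hg z hz => by
        rw [e hg (hET hz)]
        exact mul_mem (pow_mem hηE g) (h.memE hc hg hz)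
      y0 := fun g hg z hz => by
        have hzT := hKT hz
        change psO (p ^ N) η ψ g (y * z) = y * psO (p ^ N) η ψ g z
        rw [e hg (mul_mem (hLT hy) hzT), e hg hzT, h.lin hg hy hzT]
        ring
      y1 := fun g hg z hz => by
        have hzT := hKT hz
        change psO (p ^ N) η ψ g (y₁ * z) = ∑ u ∈ Finset.HasAntidiagonal.antidiagonal g,
          psO (p ^ N) η ψ u.1 y₁ * psO (p ^ N) η ψ u.2 z
        rw [e hg (mul_mem hy₁T hzT), hy₁, ← hQe, h.leib hg hQ hzT, Finset.mul_sum]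
        refine Finset.sum_congr rfl fun u hu => ?_
        rw [Finset.HasAntidiagonal.mem_antidiagonal] at hu
        rw [e (by omega) (by rw [hQe]; exact hy₁T), e (by omega) hzT, ← hu, pow_add]
        ring
      val := fun g h0 hg => by
        refine ⟨0, zero_mem E, ?_⟩
        change psO (p ^ N) η ψ g y₁ = _
        rw [e hg hy₁T, hy₁, h.th_ylet hy hu hμL hη0 hq h0 hg, add_zero]
        rfl }

end Tht

end Pool.Agent.TWHT
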