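import Pool.Agent.Lib.TWS.MonL
import Pool.Agent.Lib.TWC.Lv0E
import Pool.Agent.Lib.TWC.PrNsd

/-!
# TANK W, leaf (Ht), the entry: the purely inseparable step, any first radius

* `isD_shift`: the operators of the scaled roots of `w` shift the field of the roots of `w`;
* `lift_wS`: the operators of `P<w>`, `w` of any radius, with the monomials;
* `last_descentS`: `last_descent` for any radius;
* `tow_downS`, `tow_stepS`: the purely inseparable steps for towers of length at most three over a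
  perfect field, any radii.
-/

set_option autoImplicit false

open Polynomial

namespace Pool.Agent.TWHT

open Pool.Agent.H15JM (RVal)
open Pool.Agent.LU1 (VPos adj)
open Pool.Agent.D2 (Ctx0)
open Pool.Agent.D2P (hen clI mem_clI)
open Pool.Agent.TWM Pool.Agent.TWS
open Pool.Agent.TWC (Opr Tow EW Oper OpGen NSD Desc Nilp DnsS AU IsD opT fn fn_zero fn_add fn_near
  fn_opZero fn_opAdd fn_opSmul ev_mem self_le_clI)
open Pool.Agent.TWC.Key (hd ev lf)

universe u

variable {k Ω : Type u} [Field k] [Field Ω] [Algebra k Ω] {v : RVal Ω}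

section Shift

variable {p : ℕ} [hp : Fact p.Prime] [CharP Ω p] [hcx : Fact (Ctx0 k v)]
  {P E' : IntermediateField k Ω} {M : ℝ → Ω} {u : ℕ → Ω} {s : ℝ}

/-- The scaled roots. -/
noncomputable def scl (p : ℕ) (M : ℝ → Ω) (s : ℝ) (u : ℕ → Ω) : ℕ → Ω :=
  fun n => M (-(s / p ^ n)) * u n

omit [Algebra k Ω] [CharP Ω p] [Field k] hcx in
theorem scl_root (hM : MS v ⊤ M) (hu : ∀ n, u (n + 1) ^ p = u n) (n : ℕ) :
    scl p M s u (n + 1) ^ p = scl p M s u n := by
  have hp0 : (p : ℝ) ≠ 0 := by exact_mod_cast hp.out.ne_zero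
  rw [scl, scl, mul_pow, hu n, ← hM.pow trivial p]
  congr 2
  rw [pow_succ]
  field_simp

omit [CharP Ω p] in
/-- The operators of the scaled roots shift the field of the roots. -/
theorem isD_shift (hM : MS v ⊤ M) (hu : ∀ n, u (n + 1) ^ p = u n)
    (hd : DnsS v (AU P fun n (_ : Fin 1) => u n) (EW v P u)) (hEE : EW v P u ≤ E')
    {φ : Opr v E'} {n : ℕ} {F : Fin 1 → ℕ}
    (h : IsD p (PM v P ⊤ M) (fun n (_ : Fin 1) => scl p M s u n) φ n F) :
    ∀ e ∈ EW v P u, fn φ e * M (-(s * F 0 / p ^ n)) ∈ EW v P u := by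
  have hp0 : (p : ℝ) ≠ 0 := by exact_mod_cast hp.out.ne_zero
  have hE : Cld v (EW v P u) := TWC.EW.cld
  have hmu : ∀ N (l : Fin 1), (fun n (_ : Fin 1) => u n) N l ∈ EW v P u := fun N _ => TWC.EW.mem N
  have hr : ∀ n (l : Fin 1), (fun n (_ : Fin 1) => scl p M s u n) (n + 1) l ^ p =
      (fun n (_ : Fin 1) => scl p M s u n) n l := fun n _ => scl_root hM hu n
  have key : ∀ (N : ℕ) (f : (Fin 1 → ℕ) →₀ P),
      fn φ (ev ((fun n (_ : Fin 1) => u n) N) f) * M (-(s * F 0 / p ^ n)) ∈ EW v P u := by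
    intro N f
    induction f using Finsupp.induction_linear with
    | zero => rw [map_zero, fn_zero, zero_mul]; exact zero_mem _
    | add f g hf hg =>
      rw [map_add, fn_add φ (hEE (ev_mem TWC.EW.le (hmu N) f)) (hEE (ev_mem TWC.EW.le (hmu N) g)),
        add_mul]
      exact add_mem hf hg
    | single I c =>
      have hc : (c : Ω) * M (s * I 0 / p ^ N) ∈ PM v P ⊤ M := mul_mem (PM.le c.2) (PM.mon trivial)
      have e1 : ev ((fun n (_ : Fin 1) => u n) N) (Finsupp.single I c) =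
          ev ((fun n (_ : Fin 1) => scl p M s u n) N)
            (Finsupp.single I (⟨(c : Ω) * M (s * I 0 / p ^ N), hc⟩ : PM v P ⊤ M)) := by
        rw [TWC.Key.ev_single, TWC.Key.ev_single]
        simp only [Finset.univ_unique, Fin.default_eq_zero, Finset.prod_singleton, scl]
        rw [mul_pow, ← hM.pow trivial (I 0)]
        have h1 : M (s * I 0 / p ^ N) * M ((I 0 : ℝ) * -(s / p ^ N)) = 1 := by
          rw [← hM.mul _ trivial _ trivial]
          have : s * (I 0 : ℝ) / p ^ N + (I 0 : ℝ) * -(s / p ^ N) = 0 := by ring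
          rw [this, hM.zero]
        change (c : Ω) * u N ^ I 0 = (c : Ω) * M (s * I 0 / p ^ N) *
          (M ((I 0 : ℝ) * -(s / p ^ N)) * u N ^ I 0)
        linear_combination (-(c : Ω) * u N ^ I 0) * h1
      rw [e1, h.apply hr, TWC.Key.lf_single, TWC.Key.ev_hd_single]
      simp only [Finset.univ_unique, Fin.default_eq_zero, Finset.prod_singleton, scl]
      by_cases hlt : p ^ n * I 0 < p ^ N * F 0
      · rw [Nat.choose_eq_zero_of_lt hlt, Nat.cast_zero, zero_mul, mul_zero, zero_mul]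
        exact zero_mem _
      · obtain ⟨e, he⟩ := Nat.exists_eq_add_of_le (not_lt.1 hlt)
        have e2 : p ^ n * I 0 - p ^ N * F 0 = e := by omega
        rw [e2, mul_pow, ← hM.pow trivial e]
        have h3 : ((p : ℝ) ^ n * I 0) = p ^ N * F 0 + e := by exact_mod_cast he
        have h2 : M (s * I 0 / p ^ N) * M ((e : ℝ) * -(s / p ^ (n + N))) *
            M (-(s * F 0 / p ^ n)) = 1 := by
          rw [← hM.mul _ trivial _ trivial, ← hM.mul _ trivial _ trivial]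
          have h4 : s * (I 0 : ℝ) / p ^ N + (e : ℝ) * -(s / p ^ (n + N)) + -(s * F 0 / p ^ n) =
              0 := by
            have h5 : (e : ℝ) = p ^ n * I 0 - p ^ N * F 0 := by linarith
            rw [h5, pow_add]
            field_simp
            ring
          rw [h4, hM.zero]
        have e3 : ((c : Ω) * M (s * I 0 / p ^ N)) *
            ((((p ^ n * I 0).choose (p ^ N * F 0) : ℕ) : Ω) *
              (M ((e : ℝ) * -(s / p ^ (n + N))) * u (n + N) ^ e)) * M (-(s * F 0 / p ^ n)) =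
            (c : Ω) * ((((p ^ n * I 0).choose (p ^ N * F 0) : ℕ) : Ω) * u (n + N) ^ e) := by
          linear_combination ((c : Ω) * ((((p ^ n * I 0).choose (p ^ N * F 0) : ℕ) : Ω) *
            u (n + N) ^ e)) * h2
        change ((c : Ω) * M (s * I 0 / p ^ N)) *
            ((((p ^ n * I 0).choose (p ^ N * F 0) : ℕ) : Ω) *
              (M ((e : ℝ) * -(s / p ^ (n + N))) * u (n + N) ^ e)) * M (-(s * F 0 / p ^ n)) ∈ _
        rw [e3]
        exact mul_mem (TWC.EW.le c.2) (mul_mem (natCast_mem _ _) (pow_mem (TWC.EW.mem _) _))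
  intro e he
  refine hE (mem_clI.2 fun b => ?_)
  obtain ⟨_, ⟨N, f, rfl⟩, hfE, h1⟩ := hd e he (b - v (M (-(s * F 0 / p ^ n))))
  refine ⟨_, key N f, ?_⟩
  rw [← sub_mul]
  have h2 := (fn_near φ (hEE he) (hEE hfE) h1).mul (RVal.ge_self (v := v) (M (-(s * F 0 / p ^ n))))
  rwa [sub_add_cancel] at h2

end Shift

section Last

variable {P L : IntermediateField k Ω} {M : ℝ → Ω} {s : ℝ}

/-- The scaled roots generate the same field. -/
theorem EW_scl (p : ℕ) (u : ℕ → Ω) (hM : MS v ⊤ M) :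
    EW v (PM v P ⊤ M) (scl p M s u) = EW v (PM v P ⊤ M) u := by
  refine le_antisymm (TWC.clI_le' (sup_le TWC.EW.le ?_) TWC.EW.cld)
    (TWC.clI_le' (sup_le TWC.EW.le ?_) TWC.EW.cld)
  · rw [IntermediateField.adjoin_le_iff]
    rintro _ ⟨n, rfl⟩
    exact mul_mem (TWC.EW.le (PM.mon trivial)) (TWC.EW.mem n)
  · rw [IntermediateField.adjoin_le_iff]
    rintro _ ⟨n, rfl⟩
    have h1 : u n = M (s / p ^ n) * scl p M s u n := by
      rw [scl, ← mul_assoc, ← hM.mul _ trivial _ trivial, add_neg_cancel, hM.zero, one_mul]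
    rw [h1]
    exact mul_mem (TWC.EW.le (PM.mon trivial)) (TWC.EW.mem n)

theorem cadj_scl (p : ℕ) (u : ℕ → Ω) (hM : MS v ⊤ M) :
    cadj v (PM v P ⊤ M) (scl p M s u 0) = cadj v (PM v P ⊤ M) (u 0) := by
  refine le_antisymm (TWM.cadj_le (cld_cadj v _ _) (le_cadj v _ _) ?_)
    (TWM.cadj_le (cld_cadj v _ _) (le_cadj v _ _) ?_)
  · exact mul_mem (le_cadj v _ _ (PM.mon trivial)) (self_mem_cadj v _ _)
  · have h1 : u 0 = M (s / p ^ 0) * scl p M s u 0 := by
      rw [scl, ← mul_assoc, ← hM.mul _ trivial _ trivial, add_neg_cancel, hM.zero, one_mul]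
    rw [h1]
    exact mul_mem (le_cadj v _ _ (PM.mon trivial)) (self_mem_cadj v _ _)

variable (p : ℕ) [hp : Fact p.Prime] [CharP k p] [CharP Ω p] [PerfectRing k p] [IsAlgClosed Ω]
  [hcx : Fact (Ctx0 k v)]

/-- **The operators of `P<w>`**, any radius, with the monomials: they shift the field of the roots
of `w`. -/
theorem lift_wS (hc : CompleteV v) (hM : MonG v P ⊤ M)
    (hP' : ∀ a ∈ P, ∃ b ∈ P, b ^ p = a) {u : ℕ → Ω} (hu : ∀ n, u (n + 1) ^ p = u n)
    (hw : TL v P (u 0) s) (hPL : P ≤ L) (hwL : u 0 ∈ L)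
    (hi : Imm v P (clI v (L ⊔ EW v P u))) (hfar : ∀ l ∈ L, ¬ v.Ge s (l ^ p - u 0)) :
    ∃ (T : Submodule k (Opr v (PM v (EW v P u) ⊤ M)))
      (D : Set (Opr v (PM v (EW v P u) ⊤ M)))
      (h : Oper p v (PM v (TWM.cadj v P (u 0)) ⊤ M) (PM v (EW v P u) ⊤ M) T),
      OpGen v T D ∧ NSD p h ∧
      (∀ φ ∈ D, ∃ δ : ℝ, ∀ e ∈ EW v P u, fn φ e * M (-δ) ∈ EW v P u) ∧
      Desc v (PM v (TWM.cadj v P (u 0)) ⊤ M) (PM v (EW v P u) ⊤ M) T
        (PM v L ⊤ M) (PM v (clI v (L ⊔ EW v P u)) ⊤ M) := by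
  have hms := hM.ms
  have hC : TWM.cadj v (PM v P ⊤ M) (scl p M s u 0) = PM v (TWM.cadj v P (u 0)) ⊤ M := by
    rw [cadj_scl p u hms, PM.cadj]
  have hE : EW v (PM v P ⊤ M) (scl p M s u) = PM v (EW v P u) ⊤ M := by
    rw [EW_scl p u hms, PM.EW]
  have hTL : TL v (PM v P ⊤ M) (scl p M s u 0) 0 := by
    have h1 : TL v (PM v P ⊤ M) (u 0) s := TL.pm hM (Imm.refl _) hw
    have h2 := h1.affine (PM.mon (M := M) (A := P) (v := v)
      (show -(s / (p : ℝ) ^ 0) ∈ (⊤ : AddSubgroup ℝ) from trivial)) (hms.ne _ trivial) (zero_mem _)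
    rw [add_zero, hms.val _ trivial, pow_zero, div_one, neg_add_cancel] at h2
    rw [scl, pow_zero, div_one]
    exact h2
  have hkey : ∃ (T : Submodule k (Opr v (EW v (PM v P ⊤ M) (scl p M s u))))
      (D : Set (Opr v (EW v (PM v P ⊤ M) (scl p M s u))))
      (h : Oper p v (TWM.cadj v (PM v P ⊤ M) (scl p M s u 0))
        (EW v (PM v P ⊤ M) (scl p M s u)) T),
      OpGen v T D ∧ NSD p h ∧
      (∀ φ ∈ D, ∃ δ : ℝ, ∀ e ∈ EW v P u, fn φ e * M (-δ) ∈ EW v P u) ∧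
      ∀ L : IntermediateField k Ω, Cld v L → PM v P ⊤ M ≤ L → scl p M s u 0 ∈ L →
        ¬ TWM.Nr' v L 0 (scl p M s u 1) →
        Desc v (TWM.cadj v (PM v P ⊤ M) (scl p M s u 0)) (EW v (PM v P ⊤ M) (scl p M s u)) T L
          (clI v (L ⊔ EW v (PM v P ⊤ M) (scl p M s u))) := by
    obtain ⟨h, hG, hV, hdesc⟩ := base_w' p hc (P := PM v P ⊤ M) PM.cld (pm_perf p hms hP') hTL
      (u := scl p M s u) rfl (scl_root hms hu)
    refine ⟨_, _, h, hG, hV, ?_, hdesc⟩
    rintro φ ⟨n, F, -, -, hφ⟩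
    refine ⟨s * F 0 / p ^ n, isD_shift hms hu (TWC.dns_EWs hw rfl hu) ?_ hφ⟩
    rw [hE]
    exact PM.le
  rw [hC, hE] at hkey
  obtain ⟨T, D, h, hG, hV, hpres, hdesc⟩ := hkey
  refine ⟨T, D, h, hG, hV, hpres, ?_⟩
  have hscL : scl p M s u 0 ∈ PM v L ⊤ M := mul_mem (PM.mon trivial) (PM.le hwL)
  have h2 := hdesc (PM v L ⊤ M) PM.cld (PM.mono hPL) hscL ?_
  · rwa [← PM.sup] at h2
  · -- far
    intro h3
    have hLE : L ≤ clI v (L ⊔ EW v P u) := le_sup_left.trans (TWC.self_le_clI v _)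
    have hEE : EW v P u ≤ clI v (L ⊔ EW v P u) := le_sup_right.trans (TWC.self_le_clI v _)
    have h4 : TWM.Nr' v (PM v L ⊤ M) (s / p) (u 1) := by
      obtain ⟨l, hl, h5⟩ := h3
      refine ⟨M (s / p) * l, mul_mem (PM.mon trivial) hl, ?_⟩
      have h6 : u 1 - M (s / p) * l = M (s / p) * (scl p M s u 1 - l) := by
        have h7 : M (s / p) * M (-(s / p)) = 1 := by
          rw [← hms.mul _ trivial _ trivial, add_neg_cancel, hms.zero]
        rw [scl, pow_one]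
        linear_combination (-(u 1)) * h7
      rw [h6]
      intro h0
      have h7 : scl p M s u 1 - l ≠ 0 := right_ne_zero_of_mul h0
      rw [v.map_mul (hms.ne _ trivial) h7, hms.val _ trivial]
      have := h5 h7
      linarith
    rw [nr'_pm (B := clI v (L ⊔ EW v P u)) hM ⟨hPL, fun b hb => hi.imm b (hLE hb)⟩ hi hLE
      (hEE (TWC.EW.mem 1))] at h4
    obtain ⟨l', hl', h5⟩ := h4
    refine hfar l' hl' ?_
    have h6 : l' ^ p - u 0 = -((u 1 - l') ^ p) := by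
      rw [sub_pow_char, show (1 : ℕ) = 0 + 1 from rfl, hu 0]
      ring
    rw [h6]
    have h7 := TWM.ge_pow h5.ge p
    have hp0 : (p : ℝ) ≠ 0 := by exact_mod_cast hp.out.ne_zero
    rw [mul_div_cancel₀ _ hp0] at h7
    exact h7.neg

/-- **THE LAST DESCENT**, any radius. -/
theorem last_descentS (hc : CompleteV v) (hP : Cld v P) (hM : MonG v P ⊤ M)
    (hP' : ∀ a ∈ P, ∃ b ∈ P, b ^ p = a) {u : ℕ → Ω} (hu : ∀ n, u (n + 1) ^ p = u n)
    (hw : TL v P (u 0) s) (hL : Cld v L) (hPL : P ≤ L) (hwL : u 0 ∈ L)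
    (hfar : ∀ l ∈ L, ¬ v.Ge s (l ^ p - u 0)) {n : ℕ} (hn : n ≤ 2)
    (hT : TowR v n (EW v P u) (clI v (L ⊔ EW v P u))) :
    TowR v n (TWM.cadj v P (u 0)) L := by
  have hiE : Imm v P (EW v P u) := imm_EW p hP' hu hw
  have hi := hiE.trans hT.imm
  obtain ⟨T, D, h, hG, hV, hpres, hD⟩ := lift_wS p hc hM hP' hu hw hPL hwL hi hfar
  have hDM : DescM p v (TWM.cadj v P (u 0)) (EW v P u) L (clI v (L ⊔ EW v P u)) ⊤ M T :=
    { cpl := hc
      mc := hM.imm hw.imm
      vc := fun g _ hg => by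
        rw [VG.imm hw.imm]
        rwa [VG.imm hiE] at hg
      cldC := cld_cadj v _ _
      cldP := TWC.EW.cld
      perf := TWC.EW.perf p hc hP hP' hu
      CP := TWC.EW.cadj_le 0
      cldL := hL
      CL := TWM.cadj_le hL hPL hwL
      eq := rfl
      imm := hT.imm
      desc := hD }
  refine descend_pmC hDM h (TWC.nilp_of_gen p h hG hD).toC hV (S := D) ?_ ?_ ?_
    (fun s => ⟨1, one_mem _, one_ne_zero, s, trivial, by rw [v.map_one, zero_add]⟩) hn hT
  · intro φ hφ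
    rw [hG.span]
    exact Submodule.subset_span hφ
  · rw [hG.span]
  · intro φ hφ
    obtain ⟨δ, hδ⟩ := hpres φ hφ
    refine ⟨δ, trivial, fun e he => ⟨_, hδ e he, ?_⟩⟩
    rw [mul_assoc, ← hM.ms.mul _ trivial _ trivial, neg_add_cancel, hM.ms.zero, mul_one]

end Last

section Step

variable {E K L L₀ T : IntermediateField k Ω} {M : ℝ → Ω} {y : Ω} {s : ℝ} {m : ℕ}

variable (p : ℕ) [hp : Fact p.Prime] [CharP k p] [CharP Ω p] [PerfectRing k p] [IsAlgClosed Ω]
  [hcx : Fact (Ctx0 k v)]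

/-- **The purely inseparable step, downwards**, any radii, any perfect base; the first floor. -/
theorem tow_downS (hc : CompleteV v) (hm : m ≤ 2)
    (hMG : MonG v E ⊤ M) (hEc : Cld v E) (hperf : ∀ a ∈ E, ∃ b ∈ E, b ^ p = a)
    (hfst : TL v E y s) (htw : TowR v m (cadj v E y) T) (hK : Cld v K) (hKT : K ≤ T)
    (hTK : ∀ a ∈ T, a ^ p ∈ K) :
    ∃ y' s', (s' = s ∨ s' = p * s) ∧ TL v E y' s' ∧ TowR v m (cadj v E y') K := by
  have hEK : E ≤ K := fun a ha => by
    obtain ⟨b, hb, rfl⟩ := hperf a ha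
    exact hTK b (htw.le (le_cadj v E y hb))
  obtain ⟨r, i, s', hs', hr, hw, hwL, hTi, hfar⟩ := TWS.first_gen p hfst htw hKT hTK hEK
  have h3 : TowR v m (EW v E r) (clI v (T ⊔ EW v E r)) := TWS.first_base p hr hTi
  have hE' : ∀ a ∈ EW v E r, ∃ b ∈ EW v E r, b ^ p = a := TWC.EW.perf p hc hEc hperf hr
  have hiE : Imm v E (EW v E r) := TWS.imm_EW p hperf hr hw
  have h4 : TowR v m (EW v E r) (clI v (K ⊔ EW v E r)) :=
    TWC.cstarR_le hm hc (hMG.imm hiE) hE' h3 (cld_clI v _)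
      (TWC.clI_mono' (sup_le_sup_right hKT _)) (TWC.pow_mem_sup p hE' hTK) TWC.EW.cld
  exact ⟨r 0, s', hs', hw, last_descentS p hc hEc hMG hperf hr hw hK hEK hwL hfar hm h4⟩

/-- **THEOREM C*, at most three floors, any radii.** -/
theorem cstarR_le3 {n : ℕ} (hn : n ≤ 3) (hc : CompleteV v) (hM : MonG v E ⊤ M)
    (hperf : ∀ a ∈ E, ∃ b ∈ E, b ^ p = a) (hE : Cld v E) (hT : TowR v n E T) (hL : Cld v L)
    (hLT : L ≤ T) (hTL : ∀ t ∈ T, t ^ p ∈ L) : TowR v n E L := by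
  rcases Nat.lt_or_ge n 3 with h | h
  · exact TWC.cstarR_le (Nat.lt_succ_iff.1 h) hc hM hperf hT hL hLT hTL hE
  · obtain rfl : n = 2 + 1 := le_antisymm hn h
    obtain ⟨y, s, hy, hT1⟩ := TWS.towR_iff_succ.1 hT
    obtain ⟨y', s', -, h1, h2⟩ := tow_downS p hc le_rfl hM hE hperf hy hT1 hL hLT hTL
    exact TowR.succ h1 h2

/-- **The purely inseparable step, any radii**, at most three floors. -/
theorem TowR.pi3 (hc : CompleteV v) {n : ℕ} (hn : n ≤ 3) (hM : MonG v E ⊤ M)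
    (hperf : ∀ a ∈ E, ∃ b ∈ E, b ^ p = a) (hE : Cld v E) (hT : TowR v n E K) (hL : Cld v L)
    (hKL : K ≤ L) (hLK : ∀ x ∈ L, x ^ p ∈ K) : TowR v n E L := by
  have h1 := TWS.TowR.rootF p hT
  rw [TWC.rootF_perf p hperf] at h1
  exact cstarR_le3 p hn hc hM hperf hE h1 hL (fun x hx => (TWM.mem_rootF1 p).2 (hLK x hx))
    fun t ht => hKL ((TWM.mem_rootF1 p).1 ht)

/-- **The purely inseparable step, any radii**, at most three floors, fields not over `E`. -/
theorem tow_stepS (hc : CompleteV v) {n : ℕ} (hn : n ≤ 3) (hM : MonG v E ⊤ M)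
    (hperf : ∀ a ∈ E, ∃ b ∈ E, b ^ p = a) (hE : Cld v E) (hT : TowR v n E (clI v (L₀ ⊔ E)))
    (hle : L₀ ≤ L) (hpow : ∀ a ∈ L, a ^ p ∈ L₀) : TowR v n E (clI v (L ⊔ E)) :=
  TowR.pi3 p hc hn hM hperf hE hT (cld_clI v _) (TWC.clI_mono' (sup_le_sup_right hle E))
    (TWC.pow_mem_sup p hperf hpow)

end Step

end Pool.Agent.TWHT
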