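import Pool.Agent.Lib.TWIV.S7f
import Pool.Agent.Lib.TWHT.N7a

/-!
# TANK W, leaf (Ht), FV(y_0, y_1) with nilpotent operators: the data of a system

`DatN`: the solutions `X l` of a system over `K = E<y_0, y_1>` with `D_x X_l = b_x + m_x`,
`b_x ∈ K`, `m_x` limits of `E`.
* `DatN.rnul`: `r_x = ∑ φ b_x + D_x f - F b_(x-1)` is a limit of `E`;
* `CofN`: the residues and the coefficients, `CofN.rho_rel`.
-/

set_option autoImplicit false
set_option linter.unusedSectionVars false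

open Polynomial

namespace Pool.Agent.TWHT

open Pool.Agent.H15JM (RVal)
open Pool.Agent.D2 (Ctx0)
open Pool.Agent.D2P (mem_clI)
open Pool.Agent.TWM
open Pool.Agent.TWC (Nul Cau eq_of_ge InBL Opr fn)
open Pool.Agent.TWIV

universe u

variable {k H : Type u} [Field k] [Field H] [Algebra k H] {v : RVal H} {p : ℕ} [hp : Fact p.Prime]
  [CharP H p] [PerfectRing H p] [IsAlgClosed H] {A : Type*} [AddCommGroup A] {pr : A → H →ₗ[k] H}
  {E K : IntermediateField k H} {y : ℕ → H} {α : ℕ → A} {κ : Type*} [Fintype κ]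
  {φ : κ → κ → Module.End k H} [Fact (Ctx0 k v)]

/-- The data. -/
structure DatN (p : ℕ) (v : RVal H) (E K : IntermediateField k H)
    (D : Fin 2 → ℕ → H → H) (φ : κ → κ → Module.End k H) (X : κ → ℕ → H) (f : κ → H)
    (b : κ → Fin 2 × ℕ → H) (m : κ → Fin 2 × ℕ → ℕ → H) (N : ℕ) : Prop where
  cX : ∀ l, Cau v K (X l)
  mf : ∀ l, f l ∈ K
  rel : ∀ l, Nul v fun n => X l n ^ p - ps φ l (fun j => X j n) - f l
  mb : ∀ l x, b l x ∈ K
  cm : ∀ l x, Cau v E (m l x)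
  zb : ∀ l x, N ≤ x.2 → b l x = 0
  zm : ∀ l x, N ≤ x.2 → m l x = fun _ => 0
  spl : ∀ l x, Nul v fun n => Dx p D x (X l n) - b l x - m l x n

namespace DatN

variable {D : Fin 2 → ℕ → H → H} (T : Two7 p v pr E K y α D) {X : κ → ℕ → H} {f : κ → H}
  {b : κ → Fin 2 × ℕ → H}
  {m : κ → Fin 2 × ℕ → ℕ → H} {N : ℕ} (hφ : ∀ i j, OpK v K D (φ i j))
  (G : DatN p v E K D φ X f b m N)

/-- The element `r_x`. -/
noncomputable def rr (p : ℕ) (D : Fin 2 → ℕ → H → H) (φ : κ → κ → Module.End k H) (f : κ → H)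
    (b : κ → Fin 2 × ℕ → H) (l : κ) (x : Fin 2 × ℕ) : H :=
  ps φ l (fun j => b j x) + Dx p D x (f l) - (pv (b l) x) ^ p

include T hφ G

theorem rr_mem (l : κ) (x : Fin 2 × ℕ) : rr p D φ f b l x ∈ K :=
  sub_mem (add_mem (ps_mem (fun i j => (hφ i j).mem) fun j => G.mb j x) (T.dx_mem x (G.mf l)))
    (pow_mem (pv_mem (G.mb l) x) p)

/-- The relation of the jets. -/
theorem dx_rel (l : κ) (x : Fin 2 × ℕ) : Nul v fun n =>
    (pv (fun z => Dx p D z (X l n)) x) ^ p -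
      ps φ l (fun j => Dx p D x (X j n)) - Dx p D x (f l) := by
  have hph : ∀ n, ps φ l (fun j => X j n) ∈ K := fun n =>
    ps_mem (fun i j => (hφ i j).mem) fun j => (G.cX j).mem n
  have hpw : ∀ n, X l n ^ p ∈ K := fun n => pow_mem ((G.cX l).mem n) _
  have h1 := T.dx_nul x (fun n => sub_mem (sub_mem (hpw n) (hph n)) (G.mf l)) (G.rel l)
  refine h1.congr fun n => ?_
  rw [T.dx_sub x (sub_mem (hpw n) (hph n)) (G.mf l), T.dx_sub x (hpw n) (hph n),
    T.dx_pow x ((G.cX l).mem n), dx_ps T hφ x l fun j => (G.cX j).mem n]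

/-- `r_x` is a limit of `E`. -/
theorem rnul (l : κ) (x : Fin 2 × ℕ) :
    Nul v fun n => rr p D φ f b l x -
      ((pv (fun z => m l z n) x) ^ p - ps φ l (fun j => m j x n)) := by
  have h1 := G.dx_rel T hφ l x
  have h2 : Nul v fun n => ps φ l
      (fun j => Dx p D x (X j n) - b j x - m j x n) := ps_nul (fun i j => (hφ i j).ge) fun j => G.spl j x
  have h3 : Nul v fun n => (pv (fun z => Dx p D z (X l n) - b l z - m l z n) x) ^ p :=
    TWC.Nul.pow (pv_nul (fun z => G.spl l z) x) p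
  refine ((h3.sub h2).sub h1).congr fun n => ?_
  rw [pv_sub (fun z => Dx p D z (X l n) - b l z) (fun z => m l z n) x,
    pv_sub (fun z => Dx p D z (X l n)) (b l) x, ps_sub, ps_sub, sub_pow_char, sub_pow_char, rr]
  ring

theorem rlim (hE : ∀ i j, ∀ x ∈ E, φ i j x ∈ E) (l : κ)
    (x : Fin 2 × ℕ) : Lim v E 0 (rr p D φ f b l x) :=
  TWC.Lim.of_nul (fun n => sub_mem (pow_mem (pv_mem (fun z => (G.cm l z).mem n) x) p)
    (ps_mem hE fun j => (G.cm j x).mem n)) (G.rnul T hφ l x)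

/-- for large indices `r_x` is integral -/
theorem rbig (l : κ) (x : Fin 2 × ℕ) (hx : N + 1 ≤ x.2) :
    v.Ge 0 (rr p D φ f b l x) := by
  refine TWC.Nul.const ((G.rnul T hφ l x).congr fun n => ?_)
  obtain ⟨a, i⟩ := x
  obtain ⟨i, rfl⟩ : ∃ i', i = i' + 1 := ⟨i - 1, by simp only at hx; omega⟩
  have h1 : pv (fun z => m l z n) (a, i + 1) = 0 := by
    change m l (a, i) n = 0
    rw [G.zm l (a, i) (by simp only at hx ⊢; omega)]
  have h2 : (fun j => m j (a, i + 1) n) = fun _ => (0 : H) := by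
    funext j
    rw [G.zm j (a, i + 1) (by simp only at hx ⊢; omega)]
  rw [h1, h2, ps_zero, zero_pow hp.out.ne_zero, sub_zero, sub_zero]

/-- `D_z b_x - D_x b_z` is integral -/
theorem dxb_ge (l : κ) (x z : Fin 2 × ℕ) : v.Ge 0 (Dx p D z (b l x) - Dx p D x (b l z)) := by
  have hmE : ∀ z n, m l z n ∈ E := fun z n => (G.cm l z).mem n
  have hmK : ∀ z n, m l z n ∈ K := fun z n => T.leK (hmE z n)
  have h1 : ∀ x z, Nul v fun n => Dx p D z (Dx p D x (X l n)) - Dx p D z (b l x) := by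
    intro x z
    have hXx : ∀ n, Dx p D x (X l n) ∈ K := fun n => T.dx_mem x ((G.cX l).mem n)
    refine (T.dx_nul z (fun n => sub_mem (sub_mem (hXx n) (G.mb l x)) (hmK x n))
      (G.spl l x)).congr fun n => ?_
    rw [T.dx_sub z (sub_mem (hXx n) (G.mb l x)) (hmK x n), T.dx_sub z (hXx n) (G.mb l x),
      T.dx_E z (hmE x n), sub_zero]
  refine TWC.Nul.const (((h1 z x).sub (h1 x z)).congr fun n => ?_)
  rw [T.dx_comm z x ((G.cX l).mem n)]
  ring

/-- the jets of `r_x` -/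
theorem dx_rr (l : κ) (x z : Fin 2 × ℕ) : Dx p D z (rr p D φ f b l x) =
    ps φ l (fun j => Dx p D z (b j x)) +
      Dx p D z (Dx p D x (f l)) - (pv (fun z' => Dx p D z' (pv (b l) x)) z) ^ p := by
  have h1 : ps φ l (fun j => b j x) ∈ K := ps_mem (fun i j => (hφ i j).mem) fun j => G.mb j x
  have h2 : Dx p D x (f l) ∈ K := T.dx_mem x (G.mf l)
  have h3 := pv_mem (G.mb l) x
  rw [rr, T.dx_sub z (add_mem h1 h2) (pow_mem h3 p), T.dx_add z h1 h2, dx_ps T hφ z l fun j =>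
    G.mb j x, T.dx_pow z h3]

end DatN

/-- The residues and the coefficients. -/
structure CofN (p : ℕ) (v : RVal H) (E : IntermediateField k H)
    (D : Fin 2 → ℕ → H → H) (y : ℕ → H) (φ : κ → κ → Module.End k H) (f : κ → H)
    (b : κ → Fin 2 × ℕ → H) (M : ℕ) (e : κ → Fin 2 × ℕ → H)
    (S ρ : κ → Fin 2 × ℕ → Fin 2 × ℕ → k) : Prop where
  me : ∀ l x, e l x ∈ E
  S1 : ∀ l x z, M ≤ x.2 → S l x z = 0
  S2 : ∀ l x z, M ≤ z.2 → S l x z = 0
  hS : ∀ l x, Gt v 0 (DatN.rr p D φ f b l x - e l x -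
    ∑ z ∈ XN (Fin 2) M, algebraMap k H (S l x z) * Yy p y z)
  hρ : ∀ l x z, Gt v 0 (Dx p D z (b l x) - Dx p D x (b l z) - algebraMap k H (ρ l x z))
  far : ∀ l x z, M ≤ x.2 → Gt v 0 (Dx p D x (b l z))

namespace DatN

variable {D : Fin 2 → ℕ → H → H} (T : Two7 p v pr E K y α D) {X : κ → ℕ → H} {f : κ → H}
  {b : κ → Fin 2 × ℕ → H}
  {m : κ → Fin 2 × ℕ → ℕ → H} {N : ℕ} (hφ : ∀ i j, OpK v K D (φ i j))
  (G : DatN p v E K D φ X f b m N)

include T hφ G

theorem exists_cof (hk : Ctx0 k v) (hE : ∀ i j, ∀ x ∈ E, φ i j x ∈ E) :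
    ∃ M, N ≤ M ∧ ∃ e S ρ, CofN p v E D y φ f b M e S ρ := by
  classical
  -- the coefficients
  have h1 : ∀ (l : κ) (x : Fin 2 × ℕ), ∃ e ∈ E, ∃ (M : ℕ) (S : Fin 2 × ℕ → k),
      (∀ z, M ≤ z.2 → S z = 0) ∧ Gt v 0 (rr p D φ f b l x - e -
        ∑ z ∈ XN (Fin 2) M, algebraMap k H (S z) * Yy p y z) ∧
        (N + 1 ≤ x.2 → ∀ z, S z = 0) := by
    intro l x
    by_cases hx : N + 1 ≤ x.2
    · obtain ⟨c, hc⟩ := hk.residue (G.rbig T hφ l x hx)
      refine ⟨algebraMap k H c, E.algebraMap_mem c, 0, fun _ => 0, fun _ _ => rfl, ?_,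
        fun _ _ => rfl⟩
      simp only [map_zero, zero_mul, Finset.sum_const_zero, sub_zero]
      exact hc
    · obtain ⟨e, he, M, S, hS, h2⟩ := T.near hk (G.rr_mem T hφ l x) (G.rlim T hφ hE l x)
      exact ⟨e, he, M, S, hS, h2, fun h => absurd h hx⟩
  choose e he M₁ S hS1 hS2 hS3 using h1
  -- the residues
  choose ρ hρ using fun (l : κ) (x z : Fin 2 × ℕ) => hk.residue (G.dxb_ge T hφ l x z)
  -- the far jets
  choose M₂ hM₂ using fun (q : κ × (Fin 2 × ℕ) × Fin 2) =>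
    (T.jx q.2.2).fin (b q.1 q.2.1) (G.mb _ _) 1
  set M : ℕ := max (N + 1) (max
    ((Finset.univ ×ˢ XN (Fin 2) (N + 1)).sup fun q : κ × (Fin 2 × ℕ) => M₁ q.1 q.2)
    ((Finset.univ ×ˢ (XN (Fin 2) N ×ˢ Finset.univ)).sup M₂)) with hM
  have hMN : N + 1 ≤ M := le_max_left _ _
  have hM1 : ∀ l x, x.2 < N + 1 → M₁ l x ≤ M := by
    intro l x hx
    refine le_trans ?_ ((le_max_left _ _).trans (le_max_right (N + 1) _))
    exact Finset.le_sup (f := fun q : κ × (Fin 2 × ℕ) => M₁ q.1 q.2)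
      (Finset.mem_product.2 ⟨Finset.mem_univ l, mem_XN.2 hx⟩ : (l, x) ∈ Finset.univ ×ˢ _)
  have hM2 : ∀ l z a, z.2 < N → M₂ (l, z, a) ≤ M := by
    intro l z a hz
    refine le_trans ?_ ((le_max_right _ _).trans (le_max_right (N + 1) _))
    exact Finset.le_sup (f := M₂) (Finset.mem_product.2 ⟨Finset.mem_univ l,
      Finset.mem_product.2 ⟨mem_XN.2 hz, Finset.mem_univ a⟩⟩ :
        (l, z, a) ∈ Finset.univ ×ˢ (XN (Fin 2) N ×ˢ Finset.univ))
  refine ⟨M, by omega, e, S, ρ, he, fun l x z hx => hS3 l x (by omega) z, fun l x z hz => ?_,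
    fun l x => ?_, fun l x z => hρ l x z, fun l x z hx => ?_⟩
  · by_cases hx : N + 1 ≤ x.2
    · exact hS3 l x hx z
    · exact hS1 l x z ((hM1 l x (by omega)).trans hz)
  · by_cases hx : N + 1 ≤ x.2
    · have h3 := hS2 l x
      have h4 : ∀ M : ℕ, ∑ z ∈ XN (Fin 2) M, algebraMap k H (S l x z) * Yy p y z = 0 :=
        fun M => Finset.sum_eq_zero fun z _ => by rw [hS3 l x hx z, map_zero, zero_mul]
      rw [h4] at h3 ⊢
      exact h3
    · have h3 := hS2 l x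
      have h4 : ∑ z ∈ XN (Fin 2) (M₁ l x), algebraMap k H (S l x z) * Yy p y z =
          ∑ z ∈ XN (Fin 2) M, algebraMap k H (S l x z) * Yy p y z := by
        refine Finset.sum_subset (fun z hz => ?_) fun z _ hz => ?_
        · rw [mem_XN] at hz ⊢
          exact hz.trans_le (hM1 l x (by omega))
        · rw [mem_XN, not_lt] at hz
          rw [hS1 l x z hz, map_zero, zero_mul]
      rwa [h4] at h3
  · by_cases hz : z.2 < N
    · have h3 : M₂ (l, z, x.1) ≤ p ^ x.2 :=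
        ((hM2 l z x.1 hz).trans hx).trans (Nat.lt_pow_self hp.out.one_lt).le
      exact Gt.of_ge (hM₂ (l, z, x.1) _ h3) one_pos
    · rw [G.zb l z (not_lt.1 hz)]
      have h3 : Dx p D x (0 : H) = 0 := (T.jx x.1).zero' _
      rw [h3]
      exact Gt.zero

end DatN

namespace CofN

variable {D : Fin 2 → ℕ → H → H} (T : Two7 p v pr E K y α D) {X : κ → ℕ → H} {f : κ → H}
  {b : κ → Fin 2 × ℕ → H}
  {m : κ → Fin 2 × ℕ → ℕ → H} {N : ℕ} (hφ : ∀ i j, OpK v K D (φ i j))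
  (G : DatN p v E K D φ X f b m N) {M : ℕ}
  {e : κ → Fin 2 × ℕ → H} {S ρ : κ → Fin 2 × ℕ → Fin 2 × ℕ → k}
  (c : CofN p v E D y φ f b M e S ρ)

include T hφ G c

/-- `D_z r_x` is near to `S x z` -/
theorem dx_S (l : κ) (x z : Fin 2 × ℕ) :
    Gt v 0 (Dx p D z (DatN.rr p D φ f b l x) - algebraMap k H (S l x z)) := by
  have h1 := T.dx_gt' z (sub_mem (sub_mem (G.rr_mem T hφ l x) (T.leK (c.me l x)))
    (Cof.sum_mem' T (XN (Fin 2) M) (S l x))) (c.hS l x)
  rw [T.dx_sub z (sub_mem (G.rr_mem T hφ l x) (T.leK (c.me l x))) (Cof.sum_mem' T _ _),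
    T.dx_sub z (G.rr_mem T hφ l x) (T.leK (c.me l x)), T.dx_E z (c.me l x), sub_zero,
    Cof.dx_sum T] at h1
  split_ifs at h1 with h2
  · exact h1
  · rw [mem_XN, not_lt] at h2
    rw [c.S2 l x z h2, map_zero]
    exact h1

theorem anti (hk : Ctx0 k v) (l : κ) (x z : Fin 2 × ℕ) : ρ l z x = -ρ l x z := by
  have h1 := (c.hρ l z x).add (c.hρ l x z)
  have h2 : ρ l z x + ρ l x z = 0 := by
    refine hk.const_eq_zero ?_
    refine (congrArg (Gt v 0) ?_).mp h1.neg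
    rw [map_add]
    ring
  exact eq_neg_of_add_eq_zero_left h2

theorem ρbig (hk : Ctx0 k v) (hNM : N ≤ M) (l : κ) (x z : Fin 2 × ℕ) (hx : M ≤ x.2) :
    ρ l x z = 0 := by
  have h1 := c.hρ l x z
  have h3 : Dx p D z (0 : H) = 0 := (T.jx z.1).zero' _
  rw [G.zb l x (hNM.trans hx), h3, zero_sub] at h1
  refine hk.const_eq_zero ?_
  refine (congrArg (Gt v 0) ?_).mp (h1.add (c.far l x z hx)).neg
  ring

/-- the relation of the residues -/
theorem rho_rel {lam : κ → κ → k} (h1l : ∀ i j, φ i j 1 = algebraMap k H (lam i j)) (l : κ)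
    (x z : Fin 2 × ℕ) :
    Gt v 0 (algebraMap k H (S l x z - S l z x - ∑ j, lam l j * ρ j x z) +
      ((pv (fun z' => Dx p D z' (pv (b l) x)) z) ^ p -
        (pv (fun z' => Dx p D z' (pv (b l) z)) x) ^ p)) := by
  have h1 := c.dx_S T hφ G l x z
  have h2 := c.dx_S T hφ G l z x
  rw [G.dx_rr T hφ] at h1 h2
  have h3 : Gt v 0 (ps φ l (fun j => Dx p D z (b j x) -
      Dx p D x (b j z) - algebraMap k H (ρ j x z))) := ps_gt (fun i j => (hφ i j).ge) fun j => c.hρ j x z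
  rw [ps_sub, ps_sub, ps_const h1l] at h3
  rw [T.dx_comm z x (G.mf l)] at h2
  refine (congrArg (Gt v 0) ?_).mp ((h2.sub h1).add h3)
  rw [map_sub, map_sub]
  ring

end CofN

end Pool.Agent.TWHT
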