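import Pool.Agent.Lib.TWHT.NCorT

/-!
# TANK W, leaf (Ht): the tensor core for a family of divided operators

`Th g` (`g < P`), `Th 0 = 1`, coproduct `∑_(i + j = g) Th i ⊗ Th j`,
`Th g (Y z) = ∑ K g z x • Y x`, `Φ_αβ = lam α β + ∑_g c α β g • Th g`.

* `RmH`, `RrH`: `Φ m`, `Φ ρ`;
* `CorH`, `CorH.main`.
-/

set_option autoImplicit false
set_option linter.unusedSectionVars false

namespace Pool.Agent.TWHT

open Module Submodule TensorProduct
open Pool.Agent.TWC (Ops)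
open Pool.Agent.TWIV (Yx shx XN mem_XN)

universe u w

variable {k : Type u} {V : Type w} [Field k] [AddCommGroup V] [Module k V]
variable {σ : k →+* k} [RingHomSurjective σ] {F : V →ₛₗ[σ] V} {O : Ops F}
variable {ι : Type*} [Fintype ι] {κ : Type*} [Fintype κ]

/-- `Φ m` in the direction `x`. -/
noncomputable def RmH (N₀ P : ℕ) (lam : κ → κ → k) (c : κ → κ → ℕ → k) (Th : ℕ → V →ₗ[k] V)
    (K : ℕ → ι × ℕ → ι × ℕ → k) (m : κ → ι × ℕ → V) (α : κ) (x : ι × ℕ) : V :=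
  ∑ β, (lam α β • m β x + ∑ g ∈ Finset.range P, ∑ q ∈ Finset.HasAntidiagonal.antidiagonal g,
    c α β g • Th q.1 (∑ z ∈ XN ι N₀, K q.2 z x • m β z))

/-- `Φ ρ` in the directions `x`, `z`. -/
def RrH (N₀ P : ℕ) (lam : κ → κ → k) (c : κ → κ → ℕ → k) (K : ℕ → ι × ℕ → ι × ℕ → k)
    (ρ : κ → ι × ℕ → ι × ℕ → k) (α : κ) (x z : ι × ℕ) : k :=
  ∑ β, (lam α β * ρ β x z + ∑ g ∈ Finset.range P, ∑ q ∈ Finset.HasAntidiagonal.antidiagonal g,
    c α β g * ∑ x' ∈ XN ι N₀, ∑ z' ∈ XN ι N₀, ρ β x' z' * (K q.2 x' x * K q.1 z' z))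

/-- The relations of the tensor core, divided operators. -/
structure CorH (F : V →ₛₗ[σ] V) (O : Ops F) (y : ι → V) (N₀ N P : ℕ) (lam : κ → κ → k)
    (c : κ → κ → ℕ → k) (Th : ℕ → V →ₗ[k] V) (K : ℕ → ι × ℕ → ι × ℕ → k)
    (m : κ → ι × ℕ → V) (S ρ : κ → ι × ℕ → ι × ℕ → k) : Prop where
  le : N₀ ≤ N
  th0 : Th 0 = LinearMap.id
  thO : ∀ g, 0 < g → g < P → Th g ∈ O.A
  thY : ∀ g, g < P → ∀ z, z.2 < N₀ → Th g (Yx F y z) = ∑ x ∈ XN ι N, K g z x • Yx F y x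
  Kbig : ∀ g, g < P → ∀ z x, N ≤ x.2 → K g z x = 0
  ind : LinearIndependent k (Yx F y)
  mbig : ∀ α x, N₀ ≤ x.2 → m α x = 0
  Sbig : ∀ α x z, N ≤ x.2 → S α x z = 0
  Sbig' : ∀ α x z, N ≤ z.2 → S α x z = 0
  ρbig : ∀ α x z, N₀ ≤ x.2 → ρ α x z = 0
  anti : ∀ α x z, ρ α z x = -ρ α x z
  rel : ∀ α x, F (m α x) = RmH N₀ P lam c Th K m α (shx x) +
    ∑ z ∈ XN ι N, S α (shx x) z • Yx F y z
  rel0 : ∀ α a, 0 = RmH N₀ P lam c Th K m α (a, 0) + ∑ z ∈ XN ι N, S α (a, 0) z • Yx F y z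
  rho : ∀ α x z, S α (shx x) (shx z) - S α (shx z) (shx x) =
    RrH N₀ P lam c K ρ α (shx x) (shx z) - σ (ρ α x z)
  rho0 : ∀ α a z, S α (a, 0) z - S α z (a, 0) = RrH N₀ P lam c K ρ α (a, 0) z

/-- the indices -/
abbrev Tix (P : ℕ) : Type :=
  {s : Σ _ : ℕ, ℕ × ℕ // s ∈ (Finset.range P).sigma fun g => Finset.HasAntidiagonal.antidiagonal g}

theorem sum_Tix {M : Type*} [AddCommMonoid M] (P : ℕ) (f : ℕ → ℕ × ℕ → M) :
    ∑ s : Tix P, f s.1.1 s.1.2 = ∑ g ∈ Finset.range P, ∑ q ∈ Finset.HasAntidiagonal.antidiagonal g, f g q := by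
  rw [Finset.sum_sigma' (Finset.range P) (fun g => Finset.HasAntidiagonal.antidiagonal g)
    fun g q => f g q]
  exact Finset.sum_coe_sort ((Finset.range P).sigma fun g => Finset.HasAntidiagonal.antidiagonal g)
    fun s => f s.1 s.2

theorem Tix.lt {P : ℕ} (s : Tix P) : s.1.1 < P ∧ s.1.2.1 < P ∧ s.1.2.2 < P := by
  have h1 := Finset.mem_sigma.1 s.2
  have h2 := Finset.mem_range.1 h1.1
  have h3 := Finset.HasAntidiagonal.mem_antidiagonal.1 h1.2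
  exact ⟨h2, by omega, by omega⟩

namespace CorH

variable {y : ι → V} {N₀ N P : ℕ} {lam : κ → κ → k} {c : κ → κ → ℕ → k} {Th : ℕ → V →ₗ[k] V}
  {K : ℕ → ι × ℕ → ι × ℕ → k} {m : κ → ι × ℕ → V} {S ρ : κ → ι × ℕ → ι × ℕ → k}
  (h : CorH F O y N₀ N P lam c Th K m S ρ)

theorem RmT_eq (α : κ) (x : ι × ℕ) :
    RmT N₀ lam (fun _ _ (s : Tix P) => Th s.1.2.1)
      (fun α β (s : Tix P) z x => c α β s.1.1 * K s.1.2.2 z x) m α x =
    RmH N₀ P lam c Th K m α x := by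
  rw [RmT, RmH]
  refine Finset.sum_congr rfl fun β _ => ?_
  congr 1
  rw [← sum_Tix P fun g q => c α β g • Th q.1 (∑ z ∈ XN ι N₀, K q.2 z x • m β z)]
  refine Finset.sum_congr rfl fun s _ => ?_
  rw [← map_smul, Finset.smul_sum]
  congr 1
  exact Finset.sum_congr rfl fun z _ => (smul_smul _ _ _).symm

theorem RrT_eq (α : κ) (x z : ι × ℕ) :
    RrT N₀ lam (fun α β (s : Tix P) z x => c α β s.1.1 * K s.1.2.2 z x)
      (fun _ _ (s : Tix P) z x => K s.1.2.1 z x) ρ α x z = RrH N₀ P lam c K ρ α x z := by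
  rw [RrT, RrH]
  refine Finset.sum_congr rfl fun β _ => ?_
  congr 1
  rw [← sum_Tix P fun g q => c α β g * ∑ x' ∈ XN ι N₀, ∑ z' ∈ XN ι N₀,
    ρ β x' z' * (K q.2 x' x * K q.1 z' z)]
  refine Finset.sum_congr rfl fun s _ => ?_
  rw [Finset.mul_sum]
  refine Finset.sum_congr rfl fun x' _ => ?_
  rw [Finset.mul_sum]
  exact Finset.sum_congr rfl fun z' _ => by ring

include h

theorem corT : CorT F O y N₀ N lam (fun α β (s : Tix P) => c α β s.1.1 • Th s.1.2.2)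
    (fun _ _ (s : Tix P) => Th s.1.2.1)
    (fun α β (s : Tix P) z x => c α β s.1.1 * K s.1.2.2 z x)
    (fun _ _ (s : Tix P) z x => K s.1.2.1 z x) m S ρ where
  le := h.le
  alO α β s := by
    rcases Nat.eq_zero_or_pos s.1.2.2 with h0 | h0
    · refine ⟨c α β s.1.1, ?_⟩
      rw [h0, h.th0, sub_self]
      exact zero_mem _
    · refine ⟨0, ?_⟩
      rw [zero_smul, sub_zero]
      exact O.A.smul_mem _ (h.thO _ h0 s.lt.2.2)
  sym α β x z := by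
    rw [sum_Tix P fun g q => (c α β g • Th q.2) x ⊗ₜ[k] Th q.1 z,
      sum_Tix P fun g q => Th q.1 x ⊗ₜ[k] (c α β g • Th q.2) z]
    refine Finset.sum_congr rfl fun g _ => ?_
    rw [← Finset.Nat.sum_antidiagonal_swap]
    refine Finset.sum_congr rfl fun q _ => ?_
    rw [LinearMap.smul_apply, LinearMap.smul_apply, TensorProduct.smul_tmul, Prod.fst_swap,
      Prod.snd_swap]
  alY α β s z hz := by
    rw [LinearMap.smul_apply, h.thY _ s.lt.2.2 z hz, Finset.smul_sum]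
    exact Finset.sum_congr rfl fun x _ => smul_smul _ _ _
  beY _ _ s z hz := h.thY _ s.lt.2.1 z hz
  Abig α β s z x hx := by rw [h.Kbig _ s.lt.2.2 z x hx, mul_zero]
  Bbig _ _ s z x hx := h.Kbig _ s.lt.2.1 z x hx
  ind := h.ind
  mbig := h.mbig
  Sbig := h.Sbig
  Sbig' := h.Sbig'
  ρbig := h.ρbig
  anti := h.anti
  rel α x := by rw [RmT_eq]; exact h.rel α x
  rel0 α a := by rw [RmT_eq]; exact h.rel0 α a
  rho α x z := by rw [RrT_eq]; exact h.rho α x z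
  rho0 α a z := by rw [RrT_eq]; exact h.rho0 α a z

/-- **The tensor core for divided operators.** -/
theorem main (hF : Function.Injective F) (hN : Nsd1 O) : ∃ g : κ → ι × ℕ → ι × ℕ → k,
    (∀ α x z, N ≤ x.2 ∨ N ≤ z.2 → g α x z = 0) ∧
    (∀ α x, m α x = ∑ z ∈ XN ι N, g α x z • Yx F y z) ∧
    ∀ α x z, g α x z - g α z x + ρ α x z = 0 := h.corT.main hF hN

end CorH

end Pool.Agent.TWHT
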