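import Pool.Agent.Lib.TWHT.N7g
import Pool.Agent.Lib.TWHT.NCorH
import Pool.Agent.Lib.TWHT.Tri

/-!
# TANK W, leaf (Ht), FV(a_1, a_2), the second letter moved: the double jets

* `jx p x`: the multi index of the letter `x`; `dd8_comp`, `dd8_jx`;
* `exists_dec`, `Dec`: `DD J' (D_x w) = u DD J w`, `u ≠ 0`, for `J ≠ 0`;
* `dd8_Y`: the double jets of the letters.
-/

set_option autoImplicit false
set_option linter.unusedSectionVars false

open Polynomial

namespace Pool.Agent.TWHT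

open Pool.Agent.H15JM (RVal)
open Pool.Agent.D2 (Ctx0)
open Pool.Agent.D2P (mem_clI)
open Pool.Agent.TWM
open Pool.Agent.TWC (Nul Cau eq_of_ge InBL Opr fn)
open Pool.Agent.TWIV

universe u

variable {k H : Type u} [Field k] [Field H] [Algebra k H] {v : RVal H} {p : ℕ} [hp : Fact p.Prime]
  [CharP H p] [PerfectRing H p] [IsAlgClosed H] {A : Type*} [AddCommGroup A] {pr : A → H →ₗ[k] H}
  {E K : IntermediateField k H} {y : ℕ → H} {α : ℕ → A}

/-- The multi index of the letter `x`. -/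
def jx (p : ℕ) (x : Fin 2 × ℕ) : ℕ × ℕ := if x.1 = 0 then (p ^ x.2, 0) else (0, p ^ x.2)

theorem jx_ne_zero (x : Fin 2 × ℕ) : jx p x ≠ 0 := by
  have h1 : p ^ x.2 ≠ 0 := (Nat.pow_pos hp.out.pos).ne'
  rw [jx]
  split_ifs with h
  · exact fun h2 => h1 (congrArg Prod.fst h2)
  · exact fun h2 => h1 (congrArg Prod.snd h2)

theorem jx_sum (x : Fin 2 × ℕ) : (jx p x).1 + (jx p x).2 = p ^ x.2 := by
  rw [jx]
  split_ifs with h
  · exact Nat.add_zero _
  · exact Nat.zero_add _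

theorem jx_inj {x z : Fin 2 × ℕ} (h : jx p x = jx p z) : x = z := by
  have h0 := jx_sum (p := p) x
  rw [h, jx_sum] at h0
  have h2 : x.2 = z.2 := (Nat.pow_right_injective hp.out.two_le h0).symm
  have h1 : p ^ x.2 ≠ 0 := (Nat.pow_pos hp.out.pos).ne'
  have h1' : p ^ z.2 ≠ 0 := (Nat.pow_pos hp.out.pos).ne'
  refine Prod.ext ?_ h2
  rcases x with ⟨a, i⟩
  rcases z with ⟨a', i'⟩
  fin_cases a <;> fin_cases a'
  · rfl
  · exact absurd (congrArg Prod.fst h) h1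
  · exact absurd (congrArg Prod.fst h).symm h1'
  · rfl

section Two7

variable {D : Fin 2 → ℕ → H → H} (T : Two7 p v pr E K y α D)

include T

theorem dd8_jx (x : Fin 2 × ℕ) {w : H} (hw : w ∈ K) : DD D (jx p x) w = Dx p D x w := by
  rcases x with ⟨a, i⟩
  fin_cases a
  · change D 0 (p ^ i) (D 1 0 w) = D 0 (p ^ i) w
    rw [(T.jx 1).zero w hw]
  · change D 0 0 (D 1 (p ^ i) w) = D 1 (p ^ i) w
    exact (T.jx 0).zero _ ((T.jx 1).mem _ _ hw)

theorem dd8_zero {w : H} (hw : w ∈ K) : DD D 0 w = w := by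
  change D 0 0 (D 1 0 w) = w
  rw [(T.jx 1).zero w hw, (T.jx 0).zero w hw]

theorem dd8_comp (J J' : ℕ × ℕ) {w : H} (hw : w ∈ K) : DD D J (DD D J' w) =
    (((J.1 + J'.1).choose J'.1 * (J.2 + J'.2).choose J'.2 : ℕ) : H) * DD D (J + J') w := by
  have h1 : D 1 J.2 (D 0 J'.1 (D 1 J'.2 w)) = D 0 J'.1 (D 1 J.2 (D 1 J'.2 w)) :=
    T.comm 1 0 J.2 J'.1 _ ((T.jx 1).mem _ _ hw)
  rw [DD, DD, h1, (T.jx 1).comp _ _ _ hw,
    (T.jx 0).lin J'.1 _ (natCast_mem _ _) _ ((T.jx 1).mem _ _ hw),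
    (T.jx 0).lin J.1 _ (natCast_mem _ _) _ ((T.jx 0).mem _ _ ((T.jx 1).mem _ _ hw)),
    (T.jx 0).comp _ _ _ ((T.jx 1).mem _ _ hw), DD, Nat.cast_mul]
  rw [Prod.fst_add, Prod.snd_add]
  ring

theorem dd8_comm (J J' : ℕ × ℕ) {w : H} (hw : w ∈ K) :
    DD D J (DD D J' w) = DD D J' (DD D J w) := by
  rw [dd8_comp T J J' hw, dd8_comp T J' J hw, add_comm J' J, add_comm J'.1 J.1, add_comm J'.2 J.2,
    ← Nat.choose_symm_add, ← Nat.choose_symm_add (a := J.2)]

theorem dd8_add (J : ℕ × ℕ) {x x' : H} (hx : x ∈ K) (hx' : x' ∈ K) :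
    DD D J (x + x') = DD D J x + DD D J x' := by
  rw [DD, (T.jx 1).add _ _ hx _ hx', (T.jx 0).add _ _ ((T.jx 1).mem _ _ hx) _
    ((T.jx 1).mem _ _ hx')]
  rfl

theorem dd8_smul (J : ℕ × ℕ) (a : k) {x : H} (hx : x ∈ K) : DD D J (a • x) = a • DD D J x := by
  rw [DD, (T.jx 1).smul _ _ _ hx, (T.jx 0).smul _ _ _ ((T.jx 1).mem _ _ hx)]
  rfl

theorem dd8_zero' (J : ℕ × ℕ) : DD D J (0 : H) = 0 := by
  rw [DD, (T.jx 1).zero', (T.jx 0).zero']

theorem dd8_E {J : ℕ × ℕ} (hJ : J ≠ 0) {e : H} (he : e ∈ E) : DD D J e = 0 := by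
  by_cases h1 : J.2 = 0
  · have h2 : 1 ≤ J.1 := by
      rcases Nat.eq_zero_or_pos J.1 with h3 | h3
      · exact absurd (Prod.ext h3 h1) hJ
      · exact h3
    rw [DD, h1, (T.jx 1).zero e (T.leK he)]
    exact (T.jx 0).base _ h2 _ (T.leE 0 he)
  · rw [DD, (T.jx 1).base _ (Nat.one_le_iff_ne_zero.2 h1) _ (T.leE 1 he), (T.jx 0).zero']

theorem dd8_gt {J : ℕ × ℕ} (hJ : J ≠ 0) {w : H} (hw : w ∈ K) {b : ℝ} (h : v.Ge b w) :
    Gt v b (DD D J w) := by
  by_cases h1 : J.2 = 0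
  · have h2 : 1 ≤ J.1 := by
      rcases Nat.eq_zero_or_pos J.1 with h3 | h3
      · exact absurd (Prod.ext h3 h1) hJ
      · exact h3
    rw [DD, h1, (T.jx 1).zero w hw]
    exact (T.jx 0).strict _ h2 _ hw b h
  · have h2 := (T.jx 1).strict J.2 (Nat.one_le_iff_ne_zero.2 h1) _ hw b h
    by_cases h3 : J.1 = 0
    · rw [DD, h3, (T.jx 0).zero _ ((T.jx 1).mem _ _ hw)]
      exact h2
    · exact (T.jx 0).strict _ (Nat.one_le_iff_ne_zero.2 h3) _ ((T.jx 1).mem _ _ hw) b h2.ge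

variable [CharP k p]

/-- **The decomposition of a double jet.** -/
theorem exists_dec {J : ℕ × ℕ} (hJ : J ≠ 0) : ∃ (x : Fin 2 × ℕ) (J' : ℕ × ℕ) (u : k), u ≠ 0 ∧
    (J' = 0 → J = jx p x ∧ u = 1) ∧ (∀ z, J = jx p z → x = z ∧ J' = 0) ∧
    ∀ w ∈ K, DD D J' (Dx p D x w) = u • DD D J w := by
  -- the top digit
  have key : ∀ n : ℕ, n ≠ 0 → ∃ i, p ^ i ≤ n ∧ (n.choose (p ^ i) : k) ≠ 0 ∧
      ∀ j, n = p ^ j → i = j := by
    intro n hn
    refine ⟨Nat.log p n, Nat.pow_log_le_self p hn, ?_, fun j hj => ?_⟩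
    · rw [Ne, CharP.cast_eq_zero_iff k p, TWC.dvd_choose_pow_iff]
      have h1 : n / p ^ Nat.log p n < p := by
        rw [Nat.div_lt_iff_lt_mul (Nat.pow_pos hp.out.pos), ← pow_succ']
        exact Nat.lt_pow_succ_log_self hp.out.one_lt n
      have h2 : 0 < n / p ^ Nat.log p n := Nat.div_pos (Nat.pow_log_le_self p hn)
        (Nat.pow_pos hp.out.pos)
      exact fun h3 => absurd (Nat.le_of_dvd h2 h3) (not_le.2 h1)
    · rw [hj, Nat.log_pow hp.out.one_lt]
  have hcast : ∀ (n : ℕ) (w : H), (n : H) * w = (n : k) • w := fun n w => by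
    rw [Algebra.smul_def, map_natCast]
  rcases J with ⟨a, b⟩
  by_cases ha : a = 0
  · subst ha
    have hb : b ≠ 0 := fun h => hJ (Prod.ext rfl h)
    obtain ⟨i, h1, h2, h3⟩ := key b hb
    refine ⟨(1, i), (0, b - p ^ i), (b.choose (p ^ i) : k), h2, fun h4 => ?_, fun z hz => ?_,
      fun w hw => ?_⟩
    · have h5 : b - p ^ i = 0 := congrArg Prod.snd h4
      have h6 : b = p ^ i := by omega
      subst h6
      refine ⟨rfl, ?_⟩
      rw [Nat.choose_self, Nat.cast_one]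
    · have h4 : z.1 ≠ 0 := by
        intro h4
        rw [jx, if_pos h4] at hz
        exact (Nat.pow_pos hp.out.pos).ne (congrArg Prod.fst hz)
      have h5 : z.1 = 1 := by
        have := z.1.2
        rcases z with ⟨c, j⟩
        fin_cases c
        · exact absurd rfl h4
        · rfl
      rw [jx, if_neg h4] at hz
      have h6 : b = p ^ z.2 := congrArg Prod.snd hz
      have h7 := h3 _ h6
      subst h7
      exact ⟨Prod.ext h5.symm rfl, Prod.ext rfl (by simp only [Prod.snd_zero]; omega)⟩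
    · have h5 : Dx p D (1, i) w = DD D (0, p ^ i) w := (dd8_jx T (1, i) hw).symm
      rw [h5, dd8_comp T _ _ hw, ← hcast]
      simp only [Prod.mk_add_mk, Nat.sub_add_cancel h1, Nat.add_zero, Nat.choose_self, one_mul]
  · obtain ⟨i, h1, h2, h3⟩ := key a ha
    refine ⟨(0, i), (a - p ^ i, b), (a.choose (p ^ i) : k), h2, fun h4 => ?_, fun z hz => ?_,
      fun w hw => ?_⟩
    · have h5 : a - p ^ i = 0 := congrArg Prod.fst h4
      have h6 : a = p ^ i := by omega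
      have h7 : b = 0 := congrArg Prod.snd h4
      subst h6
      subst h7
      refine ⟨rfl, ?_⟩
      rw [Nat.choose_self, Nat.cast_one]
    · have h4 : z.1 = 0 := by
        by_contra h4
        rw [jx, if_neg h4] at hz
        exact ha (congrArg Prod.fst hz)
      rw [jx, if_pos h4] at hz
      have h6 : a = p ^ z.2 := congrArg Prod.fst hz
      have h8 : b = 0 := congrArg Prod.snd hz
      have h7 := h3 _ h6
      subst h7
      exact ⟨Prod.ext h4.symm rfl, Prod.ext (by simp only [Prod.fst_zero]; omega) h8⟩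
    · have h5 : Dx p D (0, i) w = DD D (p ^ i, 0) w := (dd8_jx T (0, i) hw).symm
      rw [h5, dd8_comp T _ _ hw, ← hcast]
      simp only [Prod.mk_add_mk, Nat.sub_add_cancel h1, Nat.add_zero, Nat.choose_zero_right,
        mul_one]

end Two7

/-- The decompositions. -/
structure Dec (k : Type u) [Field k] [Algebra k H] (p : ℕ) (K : IntermediateField k H)
    (D : Fin 2 → ℕ → H → H) (dx : ℕ × ℕ → Fin 2 × ℕ) (dJ : ℕ × ℕ → ℕ × ℕ)
    (du : ℕ × ℕ → k) : Prop where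
  u0 : ∀ J, J ≠ 0 → du J ≠ 0
  z : ∀ J, J ≠ 0 → dJ J = 0 → J = jx p (dx J) ∧ du J = 1
  jx : ∀ z, dx (jx p z) = z ∧ dJ (jx p z) = 0
  dd : ∀ J, J ≠ 0 → ∀ w ∈ K, DD D (dJ J) (Dx p D (dx J) w) = du J • DD D J w

theorem exists_decs [CharP k p] {D : Fin 2 → ℕ → H → H} (T : Two7 p v pr E K y α D) :
    ∃ dx dJ du, Dec k p K D dx dJ du := by
  have h1 : ∀ J : ℕ × ℕ, ∃ (x : Fin 2 × ℕ) (J' : ℕ × ℕ) (u : k), J ≠ 0 → u ≠ 0 ∧
    (J' = 0 → J = jx p x ∧ u = 1) ∧ (∀ z, J = jx p z → x = z ∧ J' = 0) ∧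
    ∀ w ∈ K, DD D J' (Dx p D x w) = u • DD D J w := by
    intro J
    by_cases hJ : J = 0
    · exact ⟨(0, 0), 0, 0, fun h => absurd hJ h⟩
    · obtain ⟨x, J', u, h⟩ := exists_dec T hJ
      exact ⟨x, J', u, fun _ => h⟩
  choose dx dJ du h using h1
  exact ⟨dx, dJ, du, fun J hJ => (h J hJ).1, fun J hJ => (h J hJ).2.1,
    fun z => (h (jx p z) (jx_ne_zero z)).2.2.1 z rfl, fun J hJ => (h J hJ).2.2.2⟩

/-- The double jets of the letters. -/
theorem dd8_Y {D : Fin 2 → ℕ → H → H} (T : Two7 p v pr E K y α D) {J : ℕ × ℕ} (hJ : J ≠ 0)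
    (z : Fin 2 × ℕ) : DD D J (Yy p y z) = if J = jx p z then 1 else 0 := by
  classical
  have key : ∀ (a : Fin 2) (i m : ℕ), 1 ≤ m → D a m (Yy p y (a, i)) =
      if m = p ^ i then 1 else 0 := by
    intro a i m hm
    have h1 : Yy p y (a, i) = (X ^ p ^ i : Polynomial H).eval (y a) := by
      rw [eval_pow, eval_X]
      rfl
    have h2 : (X ^ p ^ i : Polynomial H) ∈ PI (Fo v E y a) := pow_mem X_mem_PI _
    rw [h1, (T.jx a).poly _ h2 _, ← monomial_one_right_eq_X_pow, hasseDeriv_monomial]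
    split_ifs with h3
    · subst h3
      rw [Nat.choose_self, Nat.sub_self]
      simp
    · have h4 : (((p ^ i).choose m : ℕ) : H) = 0 := by
        rw [CharP.cast_eq_zero_iff H p]
        exact hp.out.dvd_choose_pow (by omega) h3
      rw [h4, zero_mul, monomial_zero_right, eval_zero]
  have hoth : ∀ (a a' : Fin 2) (i m : ℕ), a' ≠ a → 1 ≤ m → D a' m (Yy p y (a, i)) = 0 := by
    intro a a' i m ha hm
    refine (T.jx a').base _ hm _ (pow_mem ?_ _)
    exact other_mem v E y ha.symm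
  have hYK : ∀ z, Yy p y z ∈ K := fun z => pow_mem (T.my z.1) _
  rcases z with ⟨a, i⟩
  rcases J with ⟨m, n⟩
  fin_cases a
  · change D 0 m (D 1 n (Yy p y (0, i))) = if (m, n) = (p ^ i, 0) then 1 else 0
    rcases Nat.eq_zero_or_pos n with hn | hn
    · subst hn
      have hm : 1 ≤ m := by
        rcases Nat.eq_zero_or_pos m with h3 | h3
        · exact absurd (show ((m, 0) : ℕ × ℕ) = 0 from Prod.ext h3 rfl) hJ
        · exact h3
      rw [(T.jx 1).zero _ (hYK _), key 0 i m hm]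
      refine if_congr ⟨fun h => by rw [h], fun h => congrArg Prod.fst h⟩ rfl rfl
    · rw [hoth 0 1 i n (by decide) hn, (T.jx 0).zero', if_neg]
      exact fun h => hn.ne' (congrArg Prod.snd h)
  · change D 0 m (D 1 n (Yy p y (1, i))) = if (m, n) = (0, p ^ i) then 1 else 0
    have hcm : D 0 m (D 1 n (Yy p y (1, i))) = D 1 n (D 0 m (Yy p y (1, i))) :=
      T.comm 0 1 m n _ (hYK _)
    rw [hcm]
    rcases Nat.eq_zero_or_pos m with hm | hm
    · subst hm
      have hn : 1 ≤ n := by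
        rcases Nat.eq_zero_or_pos n with h3 | h3
        · exact absurd (show ((0, n) : ℕ × ℕ) = 0 from Prod.ext rfl h3) hJ
        · exact h3
      rw [(T.jx 0).zero _ (hYK _), key 1 i n hn]
      refine if_congr ⟨fun h => by rw [h], fun h => congrArg Prod.snd h⟩ rfl rfl
    · rw [hoth 1 0 i m (by decide) hm, (T.jx 1).zero', if_neg]
      exact fun h => hm.ne' (congrArg Prod.fst h)

end Pool.Agent.TWHT
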