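import Pool.Agent.Lib.TWHT.N8a
import Pool.Agent.Lib.TWHT.N9

/-!
# TANK W, leaf (Ht), FV(a_1, a_2), the second letter moved: the data of a system

* `twc_sum`, `twc_comm`: the coefficients; `sum_jx`: sums over the letters;
* `bJ`: the `K`-parts of all the jets;
* `DatT.rr`: `r_x = ∑ Φ_x b + D_x f - F b_(x-1)` is a limit of `E`;
* `CofT`: residues and coefficients, `DatN.exists_cofT`, `CofT.rho_rel`.
-/

set_option autoImplicit false
set_option linter.unusedSectionVars false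

open Polynomial

namespace Pool.Agent.TWHT

open Pool.Agent.H15JM (RVal)
open Pool.Agent.D2 (Ctx0)
open Pool.Agent.TWM
open Pool.Agent.TWC (Nul Cau eq_of_ge InBL Opr fn)
open Pool.Agent.TWIV
open Finset (range)
open Finset.HasAntidiagonal (antidiagonal)

universe u

variable {k H : Type u} [Field k] [Field H] [Algebra k H] {v : RVal H} [hk : Fact (Ctx0 k v)]
  {E K : IntermediateField k H} {D : Fin 2 → ℕ → H → H} {P : ℕ}
  {Th : ℕ → Module.End k H} {R : ℕ × ℕ → Finset (ℕ × ℕ)} {c : ℕ → ℕ × ℕ → ℕ × ℕ → k} {w : ℕ}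
  {p : ℕ} [hp : Fact p.Prime] [CharP H p] [PerfectRing H p]
  [IsAlgClosed H] {A : Type*} [AddCommGroup A] {pr : A → H →ₗ[k] H} {y : ℕ → H} {α : ℕ → A}
  {κ : Type*} [Fintype κ]

/-! ### The coefficients -/

/-- The sum over the coefficients of a jet. -/
theorem twc_sum {M : Type*} [AddCommMonoid M] [Module k M] (a : ℕ → k) (J J' : ℕ × ℕ)
    (U : ℕ → M) : ∑ g ∈ range P, twc P c a J J' g • U g =
      ∑ g ∈ range P, ∑ q ∈ antidiagonal g, (a g * c q.2 J J') • U q.1 := by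
  have h1 : ∀ g ∈ range P, ∑ q ∈ antidiagonal g, (a g * c q.2 J J') • U q.1 =
      ∑ i ∈ range (g + 1), (a (i + (g - i)) * c (g - i) J J') • U i := by
    intro g _
    rw [Finset.Nat.sum_antidiagonal_eq_sum_range_succ (fun i j => (a g * c j J J') • U i)]
    refine Finset.sum_congr rfl fun i hi => ?_
    rw [Nat.add_sub_cancel' (Nat.lt_succ_iff.1 (Finset.mem_range.1 hi))]
  rw [Finset.sum_congr rfl h1, Finset.sum_range_diag_flip P
    (fun i j => (a (i + j) * c j J J') • U i)]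
  refine Finset.sum_congr rfl fun g _ => ?_
  rw [twc, Finset.sum_smul]

/-- The double coefficients are symmetric. -/
theorem twc_comm (a : ℕ → k) (J₁ J₁' J₂ J₂' : ℕ × ℕ) :
    twc P c (twc P c a J₁ J₁') J₂ J₂' = twc P c (twc P c a J₂ J₂') J₁ J₁' := by
  funext g
  have h1 : ∀ (I₁ I₁' I₂ I₂' : ℕ × ℕ), twc P c (twc P c a I₁ I₁') I₂ I₂' g =
      ∑ u ∈ range (P - g) ×ˢ range (P - g), if g + u.1 + u.2 < P then
        a (g + u.1 + u.2) * (c u.1 I₂ I₂' * c u.2 I₁ I₁') else 0 := by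
    intro I₁ I₁' I₂ I₂'
    rw [twc, Finset.sum_product]
    refine Finset.sum_congr rfl fun g' hg' => ?_
    rw [← Finset.sum_filter, twc, Finset.sum_mul]
    have h2 : (range (P - g)).filter (fun b => g + g' + b < P) = range (P - (g + g')) := by
      ext b
      simp only [Finset.mem_filter, Finset.mem_range]
      omega
    rw [h2]
    exact Finset.sum_congr rfl fun b _ => by ring
  rw [h1, h1]
  refine Finset.sum_bij' (fun u _ => (u.2, u.1)) (fun u _ => (u.2, u.1)) ?_ ?_ ?_ ?_ ?_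
  · intro u hu
    rw [Finset.mem_product] at hu ⊢
    exact ⟨hu.2, hu.1⟩
  · intro u hu
    rw [Finset.mem_product] at hu ⊢
    exact ⟨hu.2, hu.1⟩
  · intro u _
    rfl
  · intro u _
    rfl
  · intro u _
    simp only
    refine if_congr (by omega) ?_ rfl
    rw [show g + u.2 + u.1 = g + u.1 + u.2 by omega]
    ring

/-- sums over the letters -/
theorem sum_jx {M : Type*} [AddCommMonoid M] (S : Finset (ℕ × ℕ)) (N : ℕ) (f : ℕ × ℕ → M)
    (hf : ∀ J ∈ S, (∀ z : Fin 2 × ℕ, z.2 < N → J ≠ jx p z) → f J = 0) :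
    ∑ J ∈ S, f J = ∑ z ∈ XN (Fin 2) N, if jx p z ∈ S then f (jx p z) else 0 := by
  classical
  rw [← Finset.sum_filter, ← Finset.sum_image (f := f) (g := jx p) fun x _ z _ h => jx_inj h]
  symm
  refine Finset.sum_subset (fun J hJ => ?_) fun J hJ hJ' => hf J hJ fun z hz h => hJ' ?_
  · obtain ⟨z, hz, rfl⟩ := Finset.mem_image.1 hJ
    exact (Finset.mem_filter.1 hz).2
  · rw [h]
    rw [h] at hJ
    exact Finset.mem_image.2 ⟨z, Finset.mem_filter.2 ⟨mem_XN.2 hz, hJ⟩, rfl⟩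

/-! ### The jets of a combination at a letter -/

/-- `D_x` of a combination. -/
theorem Tri.dx_ps (t : Tri v E K D P Th R c w) (T : Two7 p v pr E K y α D) (a : κ → κ → ℕ → k)
    {J : ℕ × ℕ} (hJ : J ≠ 0) (l : κ) {W : κ → H} (hW : ∀ j, W j ∈ K) :
    DD D J (ps (fun l j => phT P Th (a l j)) l W) =
      ∑ J' ∈ (R J).erase 0, ps (fun l j => phT P Th (twc P c (a l j) J J')) l
        fun j => DD D J' (W j) := by
  rw [t.dd_ps T a J l hW]
  symm
  refine Finset.sum_subset (Finset.erase_subset _ _) fun J' hJ' h => ?_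
  have h1 : J' = 0 := by
    by_contra h2
    exact h (Finset.mem_erase.2 ⟨h2, hJ'⟩)
  have h2 : (fun l j => phT P Th (twc P c (a l j) J J')) =
      fun _ _ : κ => (0 : Module.End k H) := by
    funext l j
    have h5 : twc P c (a l j) J J' = fun _ => 0 := by
      funext g
      rw [twc, h1]
      exact Finset.sum_eq_zero fun g' _ => by rw [t.c0 g' _ hJ, mul_zero]
    rw [h5]
    exact phT_zero P Th
  rw [h2, ps_zero_op]

/-- the coefficients of a large jet -/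
theorem Tri.twc_big (t : Tri v E K D P Th R c w) (a : ℕ → k) {J J' : ℕ × ℕ} (hJ' : J' ∈ R J)
    (h : J'.1 + J'.2 + w < J.1 + J.2) (g : ℕ) : twc P c a J J' g = 0 := by
  rw [twc]
  refine Finset.sum_eq_zero fun g' hg' => ?_
  have h7 : c g' J J' = 0 := by
    by_contra h8
    have h9 := t.wt g' (by have := Finset.mem_range.1 hg'; omega) _ J' hJ' h8
    omega
  rw [h7, mul_zero]

section

variable {dx : ℕ × ℕ → Fin 2 × ℕ} {dJ : ℕ × ℕ → ℕ × ℕ} {du : ℕ × ℕ → k}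

/-- The jets from the jets at the letters. -/
def bJ (D : Fin 2 → ℕ → H → H) (dx : ℕ × ℕ → Fin 2 × ℕ) (dJ : ℕ × ℕ → ℕ × ℕ)
    (du : ℕ × ℕ → k) (b : Fin 2 × ℕ → H) (J : ℕ × ℕ) : H :=
  (du J)⁻¹ • DD D (dJ J) (b (dx J))

/-- The limits of `E`. -/
def mJ (dx : ℕ × ℕ → Fin 2 × ℕ) (dJ : ℕ × ℕ → ℕ × ℕ) (m : Fin 2 × ℕ → H) (J : ℕ × ℕ) : H :=
  if dJ J = 0 then m (dx J) else 0

variable (hd : Dec k p K D dx dJ du) (T : Two7 p v pr E K y α D)

include hd T

theorem bJ_mem {b : Fin 2 × ℕ → H} (hb : ∀ x, b x ∈ K) (J : ℕ × ℕ) : bJ D dx dJ du b J ∈ K :=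
  K.smul_mem (T.dd_mem _ (hb _))

theorem bJ_jx {b : Fin 2 × ℕ → H} (hb : ∀ x, b x ∈ K) (z : Fin 2 × ℕ) :
    bJ D dx dJ du b (jx p z) = b z := by
  have h1 := hd.jx z
  have h2 := hd.z (jx p z) (jx_ne_zero z) h1.2
  rw [bJ, h1.1, h1.2, h2.2, inv_one, one_smul, dd8_zero T (hb z)]

theorem mJ_jx (m : Fin 2 × ℕ → H) (z : Fin 2 × ℕ) : mJ dx dJ m (jx p z) = m z := by
  rw [mJ, if_pos (hd.jx z).2, (hd.jx z).1]

theorem mJ_zero {m : Fin 2 × ℕ → H} {N : ℕ} (hm : ∀ x, N ≤ x.2 → m x = 0) {J : ℕ × ℕ}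
    (hJ0 : J ≠ 0) (h : ∀ z : Fin 2 × ℕ, z.2 < N → J ≠ jx p z) : mJ dx dJ m J = 0 := by
  rw [mJ]
  split_ifs with h1
  · refine hm _ ?_
    by_contra h2
    exact h (dx J) (not_le.1 h2) (hd.z J hJ0 h1).1
  · rfl

/-- the splitting of all the jets -/
theorem spl_J {X : ℕ → H} {b : Fin 2 × ℕ → H} {m : Fin 2 × ℕ → ℕ → H} (hX : ∀ n, X n ∈ K)
    (hb : ∀ x, b x ∈ K) (hm : ∀ x n, m x n ∈ E)
    (h : ∀ x, Nul v fun n => Dx p D x (X n) - b x - m x n) {J : ℕ × ℕ} (hJ : J ≠ 0) :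
    Nul v fun n => DD D J (X n) - bJ D dx dJ du b J - mJ dx dJ (fun x => m x n) J := by
  have hu := hd.u0 J hJ
  have hDx : ∀ n, Dx p D (dx J) (X n) ∈ K := fun n => T.dx_mem _ (hX n)
  have hmK : ∀ x n, m x n ∈ K := fun x n => T.leK (hm x n)
  have h1 : Nul v fun n => algebraMap k H (du J)⁻¹ *
      DD D (dJ J) (Dx p D (dx J) (X n) - b (dx J) - m (dx J) n) :=
    TWC.Nul.mul_ge (T.dd_nul _ (fun n => sub_mem (sub_mem (hDx n) (hb _)) (hmK _ n)) (h _))
      fun _ => hk.out.ge _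
  refine h1.congr fun n => ?_
  rw [T.dd_sub _ (sub_mem (hDx n) (hb _)) (hmK _ n), T.dd_sub _ (hDx n) (hb _),
    hd.dd J hJ (X n) (hX n), ← Algebra.smul_def, smul_sub, smul_sub, smul_smul,
    inv_mul_cancel₀ hu, one_smul, bJ, mJ]
  congr 1
  split_ifs with h2
  · rw [h2, (hd.z J hJ h2).2, inv_one, one_smul, dd8_zero T (hmK _ n)]
  · rw [dd8_E T h2 (hm _ n), smul_zero]

/-- the residues of all the jets -/
theorem rho_J {b : Fin 2 × ℕ → H} (hb : ∀ x, b x ∈ K) {ρ : Fin 2 × ℕ → Fin 2 × ℕ → k}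
    (hρ : ∀ x z, Gt v 0 (Dx p D z (b x) - Dx p D x (b z) - algebraMap k H (ρ x z)))
    {J J' : ℕ × ℕ} (hJ : J ≠ 0) (hJ' : J' ≠ 0) :
    Gt v 0 (DD D J' (bJ D dx dJ du b J) - DD D J (bJ D dx dJ du b J') -
      algebraMap k H (if dJ J = 0 ∧ dJ J' = 0 then ρ (dx J) (dx J') else 0)) := by
  have hu := hd.u0 J hJ
  have hu' := hd.u0 J' hJ'
  have hsm : ∀ (a : k) {x : H}, Gt v 0 x → Gt v 0 (a • x) := fun a x hx => by
    rw [Algebra.smul_def, mul_comm]
    have h1 := Gt.mul_ge hx (hk.out.ge a)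
    rwa [add_zero] at h1
  have hbK : ∀ x, b x ∈ K := hb
  -- the main formula
  have e1 : ∀ (J J' : ℕ × ℕ), J ≠ 0 → J' ≠ 0 → DD D J' (bJ D dx dJ du b J) =
      ((du J)⁻¹ * (du J')⁻¹) • DD D (dJ J) (DD D (dJ J') (Dx p D (dx J') (b (dx J)))) := by
    intro J J' h1 h2
    rw [bJ, dd8_smul T _ _ (T.dd_mem _ (hbK _)), dd8_comm T _ _ (hbK _)]
    have h3 : DD D J' (b (dx J)) = (du J')⁻¹ • DD D (dJ J') (Dx p D (dx J') (b (dx J))) := by
      rw [hd.dd J' h2 _ (hbK _), smul_smul, inv_mul_cancel₀ (hd.u0 J' h2), one_smul]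
    rw [h3, dd8_smul T _ _ (T.dd_mem _ (T.dx_mem _ (hbK _))), smul_smul]
  set s : H := Dx p D (dx J') (b (dx J)) - Dx p D (dx J) (b (dx J')) with hs
  have hsK : s ∈ K := sub_mem (T.dx_mem _ (hbK _)) (T.dx_mem _ (hbK _))
  have hsG : v.Ge 0 s := by
    have h3 := (hρ (dx J) (dx J')).ge.add (hk.out.ge (ρ (dx J) (dx J')))
    refine (congrArg (v.Ge 0) ?_).mp h3
    rw [hs]
    ring
  have e2 : DD D J' (bJ D dx dJ du b J) - DD D J (bJ D dx dJ du b J') =
      ((du J)⁻¹ * (du J')⁻¹) • DD D (dJ J) (DD D (dJ J') s) := by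
    rw [e1 J J' hJ hJ', e1 J' J hJ' hJ, mul_comm (du J')⁻¹, ← smul_sub,
      dd8_comm T (dJ J') (dJ J) (T.dx_mem _ (hbK _)),
      ← T.dd_sub _ (T.dd_mem _ (T.dx_mem _ (hbK _))) (T.dd_mem _ (T.dx_mem _ (hbK _))),
      ← T.dd_sub _ (T.dx_mem _ (hbK _)) (T.dx_mem _ (hbK _))]
  rw [e2]
  split_ifs with h3
  · rw [h3.1, h3.2, (hd.z J hJ h3.1).2, (hd.z J' hJ' h3.2).2, inv_one, one_mul, one_smul,
      dd8_zero T (T.dd_mem _ hsK), dd8_zero T hsK]
    exact hρ _ _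
  · rw [map_zero, sub_zero]
    refine hsm _ ?_
    by_cases h4 : dJ J = 0
    · have h5 : dJ J' ≠ 0 := fun h5 => h3 ⟨h4, h5⟩
      rw [h4, dd8_zero T (T.dd_mem _ hsK)]
      exact dd8_gt T h5 hsK hsG
    · exact dd8_gt T h4 (T.dd_mem _ hsK) (T.dd_norm _ hsK hsG)

end

/-! ### The operators of the jets -/

/-- The right hand side of the relation of `D_x`. -/
noncomputable def psX (p P : ℕ) (Th : ℕ → Module.End k H) (R : ℕ × ℕ → Finset (ℕ × ℕ))
    (c : ℕ → ℕ × ℕ → ℕ × ℕ → k) (a : κ → κ → ℕ → k) (x : Fin 2 × ℕ) (l : κ)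
    (W : κ → ℕ × ℕ → H) : H :=
  ∑ J ∈ (R (jx p x)).erase 0,
    ps (fun l j => phT P Th (twc P c (a l j) (jx p x) J)) l fun j => W j J

/-- The right hand side of the relation of `D_z D_x`. -/
noncomputable def psXX (p P : ℕ) (Th : ℕ → Module.End k H) (R : ℕ × ℕ → Finset (ℕ × ℕ))
    (c : ℕ → ℕ × ℕ → ℕ × ℕ → k) (a : κ → κ → ℕ → k) (x z : Fin 2 × ℕ) (l : κ)
    (W : κ → ℕ × ℕ → ℕ × ℕ → H) : H :=
  ∑ J ∈ (R (jx p x)).erase 0, ∑ J' ∈ (R (jx p z)).erase 0,
    ps (fun l j => phT P Th (twc P c (twc P c (a l j) (jx p x) J) (jx p z) J')) l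
      fun j => W j J J'

section

variable {a : κ → κ → ℕ → k} (x z : Fin 2 × ℕ) (l : κ)

theorem psX_sub (W W' : κ → ℕ × ℕ → H) : psX p P Th R c a x l (fun j J => W j J - W' j J) =
    psX p P Th R c a x l W - psX p P Th R c a x l W' := by
  rw [psX, psX, psX, ← Finset.sum_sub_distrib]
  exact Finset.sum_congr rfl fun J _ => ps_sub _ _ _

theorem psXX_sub (W W' : κ → ℕ × ℕ → ℕ × ℕ → H) :
    psXX p P Th R c a x z l (fun j J J' => W j J J' - W' j J J') =
      psXX p P Th R c a x z l W - psXX p P Th R c a x z l W' := by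
  rw [psXX, psXX, psXX, ← Finset.sum_sub_distrib]
  refine Finset.sum_congr rfl fun J _ => ?_
  rw [← Finset.sum_sub_distrib]
  exact Finset.sum_congr rfl fun J' _ => ps_sub _ _ _

theorem psXX_symm (W : κ → ℕ × ℕ → ℕ × ℕ → H) : psXX p P Th R c a x z l W =
    psXX p P Th R c a z x l fun j J J' => W j J' J := by
  rw [psXX, psXX, Finset.sum_comm]
  refine Finset.sum_congr rfl fun J' _ => Finset.sum_congr rfl fun J _ => ?_
  simp only [ps]
  exact Finset.sum_congr rfl fun j _ => by rw [twc_comm]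

variable (t : Tri v E K D P Th R c w)

include t

theorem psX_mem {W : κ → ℕ × ℕ → H} (hW : ∀ j J, W j J ∈ K) : psX p P Th R c a x l W ∈ K :=
  sum_mem fun _ _ => ps_mem (fun _ _ _ hx => t.phT_mem _ hx) fun j => hW j _

theorem psX_memE {W : κ → ℕ × ℕ → H} (hW : ∀ j J, W j J ∈ E) : psX p P Th R c a x l W ∈ E :=
  sum_mem fun _ _ => ps_mem (fun _ _ _ hx => t.phT_memE _ hx) fun j => hW j _

theorem psX_nul {W : κ → ℕ × ℕ → ℕ → H} (hW : ∀ j, ∀ J, J ≠ 0 → Nul v (W j J)) :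
    Nul v fun n => psX p P Th R c a x l fun j J => W j J n :=
  TWC.Nul.sum _ _ fun J hJ => ps_nul (fun _ _ => t.phT_ge _) fun j =>
    hW j J (Finset.ne_of_mem_erase hJ)

theorem psXX_gt {W : κ → ℕ × ℕ → ℕ × ℕ → H} (hW : ∀ j, ∀ J J', J ≠ 0 → J' ≠ 0 →
    Gt v 0 (W j J J')) : Gt v 0 (psXX p P Th R c a x z l W) :=
  Gt.sum _ _ fun J hJ => Gt.sum _ _ fun J' hJ' => ps_gt (fun _ _ => t.phT_ge _) fun j =>
    hW j J J' (Finset.ne_of_mem_erase hJ) (Finset.ne_of_mem_erase hJ')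

theorem psXX_const (hP : 0 < P) (r : κ → ℕ × ℕ → ℕ × ℕ → k) :
    psXX p P Th R c a x z l (fun j J J' => algebraMap k H (r j J J')) = algebraMap k H
      (∑ J ∈ (R (jx p x)).erase 0, ∑ J' ∈ (R (jx p z)).erase 0, ∑ j,
        twc P c (twc P c (a l j) (jx p x) J) (jx p z) J' 0 * r j J J') := by
  rw [psXX, map_sum]
  refine Finset.sum_congr rfl fun J _ => ?_
  rw [map_sum]
  refine Finset.sum_congr rfl fun J' _ => ?_
  exact ps_const (fun i j => t.phT_one hP _) l fun j => r j J J'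

variable (T : Two7 p v pr E K y α D)

include T

theorem dx_psX {W : κ → ℕ × ℕ → H} (hW : ∀ j J, W j J ∈ K) :
    Dx p D z (psX p P Th R c a x l W) =
      psXX p P Th R c a x z l fun j J J' => DD D J' (W j J) := by
  have h1 : ∀ J ∈ (R (jx p x)).erase 0,
      ps (fun l j => phT P Th (twc P c (a l j) (jx p x) J)) l (fun j => W j J) ∈ K := fun J _ =>
    ps_mem (fun _ _ _ hx => t.phT_mem _ hx) fun j => hW j _
  rw [psX, ← dd8_jx T z (sum_mem h1), t.dd_sum T _ _ _ h1, psXX]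
  exact Finset.sum_congr rfl fun J _ => t.dx_ps T _ (jx_ne_zero z) l fun j => hW j J

end

/-! ### The data -/

section

variable {dx : ℕ × ℕ → Fin 2 × ℕ} {dJ : ℕ × ℕ → ℕ × ℕ} {du : ℕ × ℕ → k}
  {a : κ → κ → ℕ → k} {X : κ → ℕ → H} {f : κ → H} {b : κ → Fin 2 × ℕ → H}
  {m : κ → Fin 2 × ℕ → ℕ → H} {N : ℕ}

/-- The element `r_x`. -/
noncomputable def rrT (p P : ℕ) (Th : ℕ → Module.End k H) (R : ℕ × ℕ → Finset (ℕ × ℕ))
    (c : ℕ → ℕ × ℕ → ℕ × ℕ → k) (D : Fin 2 → ℕ → H → H) (dx : ℕ × ℕ → Fin 2 × ℕ)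
    (dJ : ℕ × ℕ → ℕ × ℕ) (du : ℕ × ℕ → k) (a : κ → κ → ℕ → k) (f : κ → H)
    (b : κ → Fin 2 × ℕ → H) (l : κ) (x : Fin 2 × ℕ) : H :=
  psX p P Th R c a x l (fun j J => bJ D dx dJ du (b j) J) + Dx p D x (f l) - (pv (b l) x) ^ p

variable (hd : Dec k p K D dx dJ du) (T : Two7 p v pr E K y α D) (t : Tri v E K D P Th R c w)
  (G : DatN p v E K D (fun l j => phT P Th (a l j)) X f b m N)

include hd T t G

theorem rrT_mem (l : κ) (x : Fin 2 × ℕ) : rrT p P Th R c D dx dJ du a f b l x ∈ K :=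
  sub_mem (add_mem (psX_mem x l t fun j J => bJ_mem hd T (G.mb j) J) (T.dx_mem x (G.mf l)))
    (pow_mem (pv_mem (G.mb l) x) p)

omit hd in
/-- The relation of the jets. -/
theorem dx_relT (l : κ) (x : Fin 2 × ℕ) : Nul v fun n =>
    (pv (fun z => Dx p D z (X l n)) x) ^ p -
      psX p P Th R c a x l (fun j J => DD D J (X j n)) - Dx p D x (f l) := by
  have hph : ∀ n, ps (fun l j => phT P Th (a l j)) l (fun j => X j n) ∈ K := fun n =>
    ps_mem (fun i j x hx => t.phT_mem _ hx) fun j => (G.cX j).mem n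
  have hpw : ∀ n, X l n ^ p ∈ K := fun n => pow_mem ((G.cX l).mem n) _
  have h1 := T.dx_nul x (fun n => sub_mem (sub_mem (hpw n) (hph n)) (G.mf l)) (G.rel l)
  refine h1.congr fun n => ?_
  rw [T.dx_sub x (sub_mem (hpw n) (hph n)) (G.mf l), T.dx_sub x (hpw n) (hph n),
    T.dx_pow x ((G.cX l).mem n), ← dd8_jx T x (hph n),
    t.dx_ps T a (jx_ne_zero x) l fun j => (G.cX j).mem n]
  rfl

/-- `r_x` is a limit of `E`. -/
theorem rnulT (l : κ) (x : Fin 2 × ℕ) :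
    Nul v fun n => rrT p P Th R c D dx dJ du a f b l x -
      ((pv (fun z => m l z n) x) ^ p -
        psX p P Th R c a x l (fun j J => mJ dx dJ (fun z => m j z n) J)) := by
  have h1 := dx_relT T t G l x
  have h2 : Nul v fun n => psX p P Th R c a x l (fun j J => DD D J (X j n) -
      bJ D dx dJ du (b j) J - mJ dx dJ (fun z => m j z n) J) :=
    psX_nul x l t (W := fun j J n => DD D J (X j n) -
      bJ D dx dJ du (b j) J - mJ dx dJ (fun z => m j z n) J) fun j J hJ =>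
      spl_J hd T (G.cX j).mem (G.mb j) (fun z n => (G.cm j z).mem n) (G.spl j) hJ
  have h3 : Nul v fun n => (pv (fun z => Dx p D z (X l n) - b l z - m l z n) x) ^ p :=
    TWC.Nul.pow (pv_nul (fun z => G.spl l z) x) p
  refine ((h3.sub h2).sub h1).congr fun n => ?_
  rw [pv_sub (fun z => Dx p D z (X l n) - b l z) (fun z => m l z n) x,
    pv_sub (fun z => Dx p D z (X l n)) (b l) x,
    psX_sub x l (fun j J => DD D J (X j n) - bJ D dx dJ du (b j) J)
      (fun j J => mJ dx dJ (fun z => m j z n) J),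
    psX_sub x l (fun j J => DD D J (X j n)) (fun j J => bJ D dx dJ du (b j) J),
    sub_pow_char, sub_pow_char, rrT]
  ring

omit hd T t in
theorem mJ_mem (j : κ) (n : ℕ) (J : ℕ × ℕ) : mJ dx dJ (fun z => m j z n) J ∈ E := by
  rw [mJ]
  split_ifs
  · exact (G.cm j _).mem n
  · exact zero_mem E

theorem rlimT (l : κ) (x : Fin 2 × ℕ) : Lim v E 0 (rrT p P Th R c D dx dJ du a f b l x) :=
  TWC.Lim.of_nul (fun n => sub_mem (pow_mem (pv_mem (fun z => (G.cm l z).mem n) x) p)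
    (psX_memE x l t fun j J => mJ_mem G j n J)) (rnulT hd T t G l x)

/-- the `m`-part vanishes for large indices -/
theorem psX_m_big (l : κ) (x : Fin 2 × ℕ) (hx : p ^ N + w < x.2) (n : ℕ) :
    psX p P Th R c a x l (fun j J => mJ dx dJ (fun z => m j z n) J) = 0 := by
  refine Finset.sum_eq_zero fun J hJ => ?_
  have hJ0 := Finset.ne_of_mem_erase hJ
  by_cases h : ∃ z : Fin 2 × ℕ, z.2 < N ∧ J = jx p z
  · obtain ⟨z, hz, rfl⟩ := h
    have h2 : (fun l j => phT P Th (twc P c (a l j) (jx p x) (jx p z))) =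
        fun _ _ : κ => (0 : Module.End k H) := by
      funext l j
      have h5 : twc P c (a l j) (jx p x) (jx p z) = fun _ => 0 := by
        funext g
        refine t.twc_big (a l j) (Finset.mem_of_mem_erase hJ) ?_ g
        rw [jx_sum, jx_sum]
        have h6 := Nat.lt_pow_self hp.out.one_lt (n := x.2)
        have h7 := Nat.pow_le_pow_right hp.out.pos hz.le
        omega
      rw [h5]
      exact phT_zero P Th
    rw [h2, ps_zero_op]
  · push Not at h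
    have h2 : (fun j => mJ dx dJ (fun z => m j z n) J) = fun _ : κ => (0 : H) := by
      funext j
      exact mJ_zero hd T (N := N) (fun z hz => by rw [G.zm j z hz]) hJ0 h
    rw [h2, ps_zero]

/-- for large indices `r_x` is integral -/
theorem rbigT (l : κ) (x : Fin 2 × ℕ) (hx : N + 1 ≤ x.2) (hx' : p ^ N + w < x.2) :
    v.Ge 0 (rrT p P Th R c D dx dJ du a f b l x) := by
  refine TWC.Nul.const ((rnulT hd T t G l x).congr fun n => ?_)
  rw [psX_m_big hd T t G l x hx' n]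
  obtain ⟨a, i⟩ := x
  obtain ⟨i, rfl⟩ : ∃ i', i = i' + 1 := ⟨i - 1, by simp only at hx; omega⟩
  have h1 : pv (fun z => m l z n) (a, i + 1) = 0 := by
    change m l (a, i) n = 0
    rw [G.zm l (a, i) (by simp only at hx ⊢; omega)]
  rw [h1, zero_pow hp.out.ne_zero, sub_zero, sub_zero]

omit hd t in
/-- `D_z b_x - D_x b_z` is integral -/
theorem dxb_geT (l : κ) (x z : Fin 2 × ℕ) : v.Ge 0 (Dx p D z (b l x) - Dx p D x (b l z)) := by
  have hmE : ∀ z n, m l z n ∈ E := fun z n => (G.cm l z).mem n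
  have hmK : ∀ z n, m l z n ∈ K := fun z n => T.leK (hmE z n)
  have h1 : ∀ x z, Nul v fun n => Dx p D z (Dx p D x (X l n)) - Dx p D z (b l x) := by
    intro x z
    have hXx : ∀ n, Dx p D x (X l n) ∈ K := fun n => T.dx_mem x ((G.cX l).mem n)
    refine (T.dx_nul z (fun n => sub_mem (sub_mem (hXx n) (G.mb l x)) (hmK x n))
      (G.spl l x)).congr fun n => ?_
    rw [T.dx_sub z (sub_mem (hXx n) (G.mb l x)) (hmK x n), T.dx_sub z (hXx n) (G.mb l x),
      T.dx_E z (hmE x n), sub_zero]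
  refine TWC.Nul.const (((h1 z x).sub (h1 x z)).congr fun n => ?_)
  rw [T.dx_comm z x ((G.cX l).mem n)]
  ring

/-- the jets of `r_x` -/
theorem dx_rrT (l : κ) (x z : Fin 2 × ℕ) : Dx p D z (rrT p P Th R c D dx dJ du a f b l x) =
    psXX p P Th R c a x z l (fun j J J' => DD D J' (bJ D dx dJ du (b j) J)) +
      Dx p D z (Dx p D x (f l)) - (pv (fun z' => Dx p D z' (pv (b l) x)) z) ^ p := by
  have h0 : ∀ j J, bJ D dx dJ du (b j) J ∈ K := fun j J => bJ_mem hd T (G.mb j) J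
  have h1 : psX p P Th R c a x l (fun j J => bJ D dx dJ du (b j) J) ∈ K := psX_mem x l t h0
  have h2 : Dx p D x (f l) ∈ K := T.dx_mem x (G.mf l)
  have h3 := pv_mem (G.mb l) x
  rw [rrT, T.dx_sub z (add_mem h1 h2) (pow_mem h3 p), T.dx_add z h1 h2,
    dx_psX x z l t T h0, T.dx_pow z h3]

end

end Pool.Agent.TWHT
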