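import Pool.Agent.Lib.TWHT.N8f

/-!
# TANK W, leaf (Ht), FV(a_1, a_2), the second letter moved: residues and coefficients

* `CofT`: the residues and the coefficients, `exists_cofT`;
* `CofT.rho_rel`: the relation of the residues.
-/

set_option autoImplicit false
set_option linter.unusedSectionVars false

open Polynomial

namespace Pool.Agent.TWHT

open Pool.Agent.H15JM (RVal)
open Pool.Agent.D2 (Ctx0)
open Pool.Agent.TWM
open Pool.Agent.TWC (Nul Cau eq_of_ge InBL Opr fn)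
open Pool.Agent.TWIV
open Finset (range)
open Finset.HasAntidiagonal (antidiagonal)

universe u

variable {k H : Type u} [Field k] [Field H] [Algebra k H] {v : RVal H} [hk : Fact (Ctx0 k v)]
  {E K : IntermediateField k H} {D : Fin 2 → ℕ → H → H} {P : ℕ}
  {Th : ℕ → Module.End k H} {R : ℕ × ℕ → Finset (ℕ × ℕ)} {c : ℕ → ℕ × ℕ → ℕ × ℕ → k} {w : ℕ}
  {p : ℕ} [hp : Fact p.Prime] [CharP H p] [PerfectRing H p]
  [IsAlgClosed H] {A : Type*} [AddCommGroup A] {pr : A → H →ₗ[k] H} {y : ℕ → H} {α : ℕ → A}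
  {κ : Type*} [Fintype κ]
  {dx : ℕ × ℕ → Fin 2 × ℕ} {dJ : ℕ × ℕ → ℕ × ℕ} {du : ℕ × ℕ → k}
  {a : κ → κ → ℕ → k} {X : κ → ℕ → H} {f : κ → H} {b : κ → Fin 2 × ℕ → H}
  {m : κ → Fin 2 × ℕ → ℕ → H} {N : ℕ}

/-- The residues and the coefficients. -/
structure CofT (p : ℕ) (v : RVal H) (E : IntermediateField k H) (P : ℕ)
    (Th : ℕ → Module.End k H) (R : ℕ × ℕ → Finset (ℕ × ℕ)) (c : ℕ → ℕ × ℕ → ℕ × ℕ → k)
    (D : Fin 2 → ℕ → H → H) (dx : ℕ × ℕ → Fin 2 × ℕ) (dJ : ℕ × ℕ → ℕ × ℕ) (du : ℕ × ℕ → k)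
    (a : κ → κ → ℕ → k) (y : ℕ → H) (f : κ → H) (b : κ → Fin 2 × ℕ → H) (N₀ M : ℕ)
    (e : κ → Fin 2 × ℕ → H) (S ρ : κ → Fin 2 × ℕ → Fin 2 × ℕ → k) : Prop where
  me : ∀ l x, e l x ∈ E
  S1 : ∀ l x z, M ≤ x.2 → S l x z = 0
  S2 : ∀ l x z, M ≤ z.2 → S l x z = 0
  hS : ∀ l x, Gt v 0 (rrT p P Th R c D dx dJ du a f b l x - e l x -
    ∑ z ∈ XN (Fin 2) M, algebraMap k H (S l x z) * Yy p y z)
  hρ : ∀ l x z, Gt v 0 (Dx p D z (b l x) - Dx p D x (b l z) - algebraMap k H (ρ l x z))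
  far : ∀ l x z, N₀ ≤ x.2 → Gt v 0 (Dx p D x (b l z))

section

variable (hd : Dec k p K D dx dJ du) (T : Two7 p v pr E K y α D) (t : Tri v E K D P Th R c w)
  (G : DatN p v E K D (fun l j => phT P Th (a l j)) X f b m N)

include hd T t G

theorem exists_cofT : ∃ N₀ M, N ≤ N₀ ∧ N₀ ≤ M ∧ p ^ N₀ + w < M ∧
    ∃ e S ρ, CofT p v E P Th R c D dx dJ du a y f b N₀ M e S ρ := by
  classical
  -- the coefficients
  have h1 : ∀ (l : κ) (x : Fin 2 × ℕ), ∃ e ∈ E, ∃ (M : ℕ) (S : Fin 2 × ℕ → k),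
      (∀ z, M ≤ z.2 → S z = 0) ∧ Gt v 0 (rrT p P Th R c D dx dJ du a f b l x - e -
        ∑ z ∈ XN (Fin 2) M, algebraMap k H (S z) * Yy p y z) ∧
        (N + 1 + p ^ N + w ≤ x.2 → ∀ z, S z = 0) := by
    intro l x
    by_cases hx : N + 1 + p ^ N + w ≤ x.2
    · obtain ⟨c', hc⟩ := hk.out.residue (rbigT hd T t G l x (by omega) (by omega))
      refine ⟨algebraMap k H c', E.algebraMap_mem c', 0, fun _ => 0, fun _ _ => rfl, ?_,
        fun _ _ => rfl⟩
      simp only [map_zero, zero_mul, Finset.sum_const_zero, sub_zero]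
      exact hc
    · obtain ⟨e, he, M, S, hS, h2⟩ := T.near hk.out (rrT_mem hd T t G l x) (rlimT hd T t G l x)
      exact ⟨e, he, M, S, hS, h2, fun h => absurd h hx⟩
  choose e he M₁ S hS1 hS2 hS3 using h1
  -- the residues
  choose ρ hρ using fun (l : κ) (x z : Fin 2 × ℕ) => hk.out.residue (dxb_geT T G l x z)
  -- the far jets
  choose M₂ hM₂ using fun (q : κ × (Fin 2 × ℕ) × Fin 2) =>
    (T.jx q.2.2).fin (b q.1 q.2.1) (G.mb _ _) 1
  set N₀ : ℕ := max N ((Finset.univ ×ˢ (XN (Fin 2) N ×ˢ Finset.univ)).sup M₂) with hN₀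
  have hNN : N ≤ N₀ := le_max_left _ _
  have hM2 : ∀ l z a, z.2 < N → M₂ (l, z, a) ≤ N₀ := by
    intro l z a hz
    refine le_trans ?_ (le_max_right _ _)
    exact Finset.le_sup (f := M₂) (Finset.mem_product.2 ⟨Finset.mem_univ l,
      Finset.mem_product.2 ⟨mem_XN.2 hz, Finset.mem_univ a⟩⟩ :
        (l, z, a) ∈ Finset.univ ×ˢ (XN (Fin 2) N ×ˢ Finset.univ))
  set M : ℕ := max (N₀ + 1 + p ^ N₀ + w) ((Finset.univ ×ˢ XN (Fin 2) (N + 1 + p ^ N + w)).sup
    fun q : κ × (Fin 2 × ℕ) => M₁ q.1 q.2) with hM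
  have hMN : N₀ + 1 + p ^ N₀ + w ≤ M := le_max_left _ _
  have hpN : p ^ N ≤ p ^ N₀ := Nat.pow_le_pow_right hp.out.pos hNN
  have hM1 : ∀ l x, x.2 < N + 1 + p ^ N + w → M₁ l x ≤ M := by
    intro l x hx
    refine le_trans ?_ (le_max_right _ _)
    exact Finset.le_sup (f := fun q : κ × (Fin 2 × ℕ) => M₁ q.1 q.2)
      (Finset.mem_product.2 ⟨Finset.mem_univ l, mem_XN.2 hx⟩ : (l, x) ∈ Finset.univ ×ˢ _)
  refine ⟨N₀, M, hNN, by omega, by omega, e, S, ρ, he, fun l x z hx => hS3 l x (by omega) z,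
    fun l x z hz => ?_, fun l x => ?_, fun l x z => hρ l x z, fun l x z hx => ?_⟩
  · by_cases hx : N + 1 + p ^ N + w ≤ x.2
    · exact hS3 l x hx z
    · exact hS1 l x z ((hM1 l x (by omega)).trans hz)
  · by_cases hx : N + 1 + p ^ N + w ≤ x.2
    · have h3 := hS2 l x
      have h4 : ∀ M : ℕ, ∑ z ∈ XN (Fin 2) M, algebraMap k H (S l x z) * Yy p y z = 0 :=
        fun M => Finset.sum_eq_zero fun z _ => by rw [hS3 l x hx z, map_zero, zero_mul]
      rw [h4] at h3 ⊢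
      exact h3
    · have h3 := hS2 l x
      have h4 : ∑ z ∈ XN (Fin 2) (M₁ l x), algebraMap k H (S l x z) * Yy p y z =
          ∑ z ∈ XN (Fin 2) M, algebraMap k H (S l x z) * Yy p y z := by
        refine Finset.sum_subset (fun z hz => ?_) fun z _ hz => ?_
        · rw [mem_XN] at hz ⊢
          exact hz.trans_le (hM1 l x (by omega))
        · rw [mem_XN, not_lt] at hz
          rw [hS1 l x z hz, map_zero, zero_mul]
      rwa [h4] at h3
  · by_cases hz : z.2 < N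
    · have h3 : M₂ (l, z, x.1) ≤ p ^ x.2 :=
        ((hM2 l z x.1 hz).trans hx).trans (Nat.lt_pow_self hp.out.one_lt).le
      exact Gt.of_ge (hM₂ (l, z, x.1) _ h3) one_pos
    · rw [G.zb l z (not_lt.1 hz)]
      have h3 : Dx p D x (0 : H) = 0 := (T.jx x.1).zero' _
      rw [h3]
      exact Gt.zero

end

namespace CofT

variable {N₀ M : ℕ} {e : κ → Fin 2 × ℕ → H} {S ρ : κ → Fin 2 × ℕ → Fin 2 × ℕ → k}
  (hd : Dec k p K D dx dJ du) (T : Two7 p v pr E K y α D) (t : Tri v E K D P Th R c w)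
  (G : DatN p v E K D (fun l j => phT P Th (a l j)) X f b m N)
  (C : CofT p v E P Th R c D dx dJ du a y f b N₀ M e S ρ)

include C

theorem anti (l : κ) (x z : Fin 2 × ℕ) : ρ l z x = -ρ l x z := by
  have h1 := (C.hρ l z x).add (C.hρ l x z)
  have h2 : ρ l z x + ρ l x z = 0 := by
    refine hk.out.const_eq_zero ?_
    refine (congrArg (Gt v 0) ?_).mp h1.neg
    rw [map_add]
    ring
  exact eq_neg_of_add_eq_zero_left h2

include T G

theorem ρbig (hNM : N ≤ N₀) (l : κ) (x z : Fin 2 × ℕ) (hx : N₀ ≤ x.2) : ρ l x z = 0 := by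
  have h1 := C.hρ l x z
  have h3 : Dx p D z (0 : H) = 0 := (T.jx z.1).zero' _
  rw [G.zb l x (hNM.trans hx), h3, zero_sub] at h1
  refine hk.out.const_eq_zero ?_
  refine (congrArg (Gt v 0) ?_).mp (h1.add (C.far l x z hx)).neg
  ring

include hd t

/-- `D_z r_x` is near to `S x z` -/
theorem dx_S (l : κ) (x z : Fin 2 × ℕ) :
    Gt v 0 (Dx p D z (rrT p P Th R c D dx dJ du a f b l x) - algebraMap k H (S l x z)) := by
  have h0 := rrT_mem hd T t G l x
  have h1 := T.dx_gt' z (sub_mem (sub_mem h0 (T.leK (C.me l x)))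
    (Cof.sum_mem' T (XN (Fin 2) M) (S l x))) (C.hS l x)
  rw [T.dx_sub z (sub_mem h0 (T.leK (C.me l x))) (Cof.sum_mem' T _ _),
    T.dx_sub z h0 (T.leK (C.me l x)), T.dx_E z (C.me l x), sub_zero,
    Cof.dx_sum T] at h1
  split_ifs at h1 with h2
  · exact h1
  · rw [mem_XN, not_lt] at h2
    rw [C.S2 l x z h2, map_zero]
    exact h1

/-- the relation of the residues -/
theorem rho_rel (hP : 0 < P) (l : κ) (x z : Fin 2 × ℕ) :
    Gt v 0 (algebraMap k H (S l x z - S l z x - ∑ J ∈ (R (jx p x)).erase 0,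
      ∑ J' ∈ (R (jx p z)).erase 0, ∑ j,
        twc P c (twc P c (a l j) (jx p x) J) (jx p z) J' 0 *
          (if dJ J = 0 ∧ dJ J' = 0 then ρ j (dx J) (dx J') else 0)) +
      ((pv (fun z' => Dx p D z' (pv (b l) x)) z) ^ p -
        (pv (fun z' => Dx p D z' (pv (b l) z)) x) ^ p)) := by
  have h1 := dx_S hd T t G C l x z
  have h2 := dx_S hd T t G C l z x
  rw [dx_rrT hd T t G] at h1 h2
  rw [psXX_symm z x l] at h2
  have h3 : Gt v 0 (psXX p P Th R c a x z l fun j J J' => DD D J' (bJ D dx dJ du (b j) J) -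
      DD D J (bJ D dx dJ du (b j) J') -
      algebraMap k H (if dJ J = 0 ∧ dJ J' = 0 then ρ j (dx J) (dx J') else 0)) :=
    psXX_gt x z l t fun j J J' hJ hJ' => rho_J hd T (G.mb j) (C.hρ j) hJ hJ'
  rw [psXX_sub x z l (fun j J J' => DD D J' (bJ D dx dJ du (b j) J) -
      DD D J (bJ D dx dJ du (b j) J')) (fun j J J' =>
      algebraMap k H (if dJ J = 0 ∧ dJ J' = 0 then ρ j (dx J) (dx J') else 0)),
    psXX_sub x z l (fun j J J' => DD D J' (bJ D dx dJ du (b j) J)) (fun j J J' =>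
      DD D J (bJ D dx dJ du (b j) J')),
    psXX_const x z l t hP fun j J J' => if dJ J = 0 ∧ dJ J' = 0 then ρ j (dx J) (dx J') else 0]
    at h3
  rw [T.dx_comm z x (G.mf l)] at h2
  refine (congrArg (Gt v 0) ?_).mp ((h2.sub h1).add h3)
  rw [map_sub, map_sub]
  ring

/-- the coefficients over the letters -/
theorem rho_sum (hNM : N ≤ N₀) (l : κ) (x z : Fin 2 × ℕ) (K' : ℕ → Fin 2 × ℕ → Fin 2 × ℕ → k)
    (hK' : ∀ g, g < P → ∀ z' x', z'.2 < N₀ →
      K' g z' x' = if jx p z' ∈ (R (jx p x')).erase 0 then c g (jx p x') (jx p z') else 0) :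
    ∑ J ∈ (R (jx p x)).erase 0, ∑ J' ∈ (R (jx p z)).erase 0, ∑ j,
        twc P c (twc P c (a l j) (jx p x) J) (jx p z) J' 0 *
          (if dJ J = 0 ∧ dJ J' = 0 then ρ j (dx J) (dx J') else 0) =
      RrH N₀ P (fun _ _ => 0) a K' ρ l x z := by
  classical
  have hnz : ∀ (J J' : ℕ × ℕ), J ≠ 0 → J' ≠ 0 → ((∀ z : Fin 2 × ℕ, z.2 < N₀ → J ≠ jx p z) ∨
      (∀ z : Fin 2 × ℕ, z.2 < N₀ → J' ≠ jx p z)) → ∀ j,
      (if dJ J = 0 ∧ dJ J' = 0 then ρ j (dx J) (dx J') else 0) = 0 := by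
    intro J J' h1 h2 h3 j
    split_ifs with h4
    · have h5 := (hd.z J h1 h4.1).1
      have h6 := (hd.z J' h2 h4.2).1
      rcases h3 with h3 | h3
      · refine ρbig T G C hNM j _ _ ?_
        by_contra h7
        exact h3 _ (not_le.1 h7) h5
      · rw [anti C j (dx J') (dx J), ρbig T G C hNM j _ _ ?_, neg_zero]
        by_contra h7
        exact h3 _ (not_le.1 h7) h6
    · rfl
  rw [sum_jx _ N₀ _ fun J hJ h1 => Finset.sum_eq_zero fun J' hJ' => Finset.sum_eq_zero fun j _ => by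
    rw [hnz J J' (Finset.ne_of_mem_erase hJ) (Finset.ne_of_mem_erase hJ') (Or.inl h1) j, mul_zero]]
  have h2 : ∀ x' ∈ XN (Fin 2) N₀, (if jx p x' ∈ (R (jx p x)).erase 0 then
      ∑ J' ∈ (R (jx p z)).erase 0, ∑ j,
        twc P c (twc P c (a l j) (jx p x) (jx p x')) (jx p z) J' 0 *
          (if dJ (jx p x') = 0 ∧ dJ J' = 0 then ρ j (dx (jx p x')) (dx J') else 0) else 0) =
      ∑ z' ∈ XN (Fin 2) N₀, if jx p x' ∈ (R (jx p x)).erase 0 ∧ jx p z' ∈ (R (jx p z)).erase 0 then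
        ∑ j, twc P c (twc P c (a l j) (jx p x) (jx p x')) (jx p z) (jx p z') 0 * ρ j x' z'
          else 0 := by
    intro x' _
    split_ifs with h3
    · rw [sum_jx _ N₀ _ fun J' hJ' h4 => Finset.sum_eq_zero fun j _ => by
        rw [hnz (jx p x') J' (jx_ne_zero x') (Finset.ne_of_mem_erase hJ') (Or.inr h4) j, mul_zero]]
      refine Finset.sum_congr rfl fun z' _ => ?_
      rw [(hd.jx x').1, (hd.jx x').2, (hd.jx z').1, (hd.jx z').2]
      simp only [h3, true_and, if_true, and_self]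
    · symm
      exact Finset.sum_eq_zero fun z' _ => if_neg fun h4 => h3 h4.1
  rw [Finset.sum_congr rfl h2, RrH]
  have h3 : ∀ j, (∑ g ∈ range P, ∑ q ∈ antidiagonal g, a l j g *
      ∑ x' ∈ XN (Fin 2) N₀, ∑ z' ∈ XN (Fin 2) N₀, ρ j x' z' * (K' q.2 x' x * K' q.1 z' z)) =
      ∑ x' ∈ XN (Fin 2) N₀, ∑ z' ∈ XN (Fin 2) N₀,
        if jx p x' ∈ (R (jx p x)).erase 0 ∧ jx p z' ∈ (R (jx p z)).erase 0 then
        twc P c (twc P c (a l j) (jx p x) (jx p x')) (jx p z) (jx p z') 0 * ρ j x' z' else 0 := by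
    intro j
    have h4 : ∀ x' z' : Fin 2 × ℕ, (∑ g ∈ range P, ∑ q ∈ antidiagonal g, a l j g *
        (ρ j x' z' * (c q.2 (jx p x) (jx p x') * c q.1 (jx p z) (jx p z')))) =
        twc P c (twc P c (a l j) (jx p x) (jx p x')) (jx p z) (jx p z') 0 * ρ j x' z' := by
      intro x' z'
      have h5 := twc_sum (P := P) (c := c) (a l j) (jx p x) (jx p x')
        (fun g => c g (jx p z) (jx p z'))
      simp only [smul_eq_mul] at h5
      rw [twc, Nat.sub_zero]
      simp only [Nat.zero_add]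
      rw [h5, Finset.sum_mul]
      refine Finset.sum_congr rfl fun g _ => ?_
      rw [Finset.sum_mul]
      exact Finset.sum_congr rfl fun q _ => by ring
    simp only [Finset.mul_sum]
    rw [Finset.sum_congr rfl fun g _ => Finset.sum_comm, Finset.sum_comm]
    refine Finset.sum_congr rfl fun x' hx' => ?_
    rw [Finset.sum_congr rfl fun g _ => Finset.sum_comm, Finset.sum_comm]
    refine Finset.sum_congr rfl fun z' hz' => ?_
    rw [mem_XN] at hx' hz'
    rw [← h4 x' z']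
    split_ifs with h5
    · refine Finset.sum_congr rfl fun g hg => Finset.sum_congr rfl fun q hq => ?_
      have hq' := Finset.HasAntidiagonal.mem_antidiagonal.1 hq
      have hg' := Finset.mem_range.1 hg
      rw [hK' q.2 (by omega) x' x hx', hK' q.1 (by omega) z' z hz', if_pos h5.1, if_pos h5.2]
    · refine Finset.sum_eq_zero fun g hg => Finset.sum_eq_zero fun q hq => ?_
      have hq' := Finset.HasAntidiagonal.mem_antidiagonal.1 hq
      have hg' := Finset.mem_range.1 hg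
      rw [hK' q.2 (by omega) x' x hx', hK' q.1 (by omega) z' z hz']
      by_cases h6 : jx p x' ∈ (R (jx p x)).erase 0
      · rw [if_neg (c := jx p z' ∈ _) fun h7 => h5 ⟨h6, h7⟩]
        ring
      · rw [if_neg h6]
        ring
  simp only [zero_mul, zero_add]
  rw [Finset.sum_congr rfl fun j _ => h3 j]
  symm
  rw [Finset.sum_comm]
  refine Finset.sum_congr rfl fun x' _ => ?_
  rw [Finset.sum_comm]
  refine Finset.sum_congr rfl fun z' _ => ?_
  split_ifs
  · rfl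
  · rw [Finset.sum_const_zero]

end CofT

end Pool.Agent.TWHT
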