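import Pool.Agent.Lib.TWHT.N8g

/-!
# TANK W, leaf (Ht), FV(a_1, a_2), the second letter moved: the gauge

* `RepT`: on `E` the operators `Th g` are `η ψ_g`, `ψ_g ∈ T₀`, `η - 1 > 0`;
* `thM`: the operators on the classes;
* `CofT.cor`: the relations `CorH` of the tensor core;
* **`DatN.gaugeT`**, **`gauge_step`**: `D_x X_l = b_x + O`, `D_z b_x - D_x b_z > 0`.
-/

set_option autoImplicit false
set_option linter.unusedSectionVars false

open Polynomial

namespace Pool.Agent.TWHT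

open Pool.Agent.H15JM (RVal)
open Pool.Agent.D2 (Ctx0)
open Pool.Agent.TWM
open Pool.Agent.TWC (Nul Cau eq_of_ge InBL Opr fn MM CauS cls Oper NSD)
open Pool.Agent.TWIV
open Finset (range)
open Finset.HasAntidiagonal (antidiagonal)

universe u

variable {k H : Type u} [Field k] [Field H] [Algebra k H] {v : RVal H} [hk : Fact (Ctx0 k v)]
  {E K L' : IntermediateField k H} {D : Fin 2 → ℕ → H → H} {P : ℕ}
  {Th : ℕ → Module.End k H} {R : ℕ × ℕ → Finset (ℕ × ℕ)} {c : ℕ → ℕ × ℕ → ℕ × ℕ → k} {w : ℕ}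

/-- On `E` the operators `Th g` are `η ψ_g`, `ψ_g ∈ T₀`, `η - 1 > 0`. -/
def RepT (v : RVal H) [Fact (Ctx0 k v)] (E : IntermediateField k H) (P : ℕ)
    (Th : ℕ → Module.End k H) (T₀ : Submodule k (Opr v E)) (ψ : ℕ → Opr v E) (η : ℕ → H) : Prop :=
  ∀ g, 0 < g → g < P → ψ g ∈ T₀ ∧ η g ∈ E ∧ Gt v 0 (η g - 1) ∧
    ∀ x ∈ E, Th g x = η g * fn (ψ g) x

/-- The operators on the classes. -/
noncomputable def thM (ψ : ℕ → Opr v E) (g : ℕ) : MM v E →ₗ[k] MM v E :=
  if g = 0 then LinearMap.id else MM.act (ψ g)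

section

variable {T₀ : Submodule k (Opr v E)} {ψ : ℕ → Opr v E} {η : ℕ → H}

theorem th_cau (hge : ∀ g, ∀ (x : H) (b : ℝ), v.Ge b x → v.Ge b (Th g x))
    (hE : ∀ g, ∀ x ∈ E, Th g x ∈ E) (g : ℕ) {x : ℕ → H} (hx : Cau v E x) :
    Cau v E fun n => Th g (x n) := by
  refine ⟨fun n => hE g _ (hx.mem n), fun ε hε => ?_⟩
  obtain ⟨N, hN⟩ := hx.cau ε hε
  exact ⟨N, fun a b ha hb => by rw [← map_sub]; exact hge g _ _ (hN a b ha hb)⟩

theorem th_mk (h0 : Th 0 = 1) (hr : RepT v E P Th T₀ ψ η) {g : ℕ} (hg : g < P) (x : CauS v E)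
    (hx : Cau v E fun n => Th g ((x : ℕ → H) n)) :
    MM.mk v E ⟨fun n => Th g ((x : ℕ → H) n), hx⟩ = thM ψ g (MM.mk v E x) := by
  rcases Nat.eq_zero_or_pos g with rfl | hg0
  · rw [thM, if_pos rfl, LinearMap.id_apply]
    congr 1
    refine Subtype.ext (funext fun n => ?_)
    change Th 0 ((x : ℕ → H) n) = (x : ℕ → H) n
    rw [h0]
    rfl
  · obtain ⟨-, h2, h3, h4⟩ := hr g hg0 hg
    rw [thM, if_neg hg0.ne', MM.act_mk, ← sub_eq_zero, ← map_sub, MM.mk_eq_zero]
    set s : ℕ → H := fun n => fn (ψ g) ((x : ℕ → H) n) with hs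
    have hsE : ∀ n, s n ∈ E := fun n => TWC.fn_mem _ _
    have e1 : ∀ n, ((⟨fun n => Th g ((x : ℕ → H) n), hx⟩ - MM.actS (ψ g) x : CauS v E) :
        ℕ → H) n = (η g - 1) * s n := by
      intro n
      rw [AddSubgroupClass.coe_sub, Pi.sub_apply]
      have h5 : (MM.actS (ψ g) x : ℕ → H) n = s n := (TWC.fn_of_mem (ψ g) (x.2.mem n)).symm
      rw [h5]
      change Th g ((x : ℕ → H) n) - s n = _
      rw [h4 _ (x.2.mem n)]
      ring
    have hsc : ∀ ε : ℝ, 0 < ε → ∃ N, ∀ a b, N ≤ a → N ≤ b → v.Ge (-ε) (s a - s b) := by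
      have h6 := (MM.actS (ψ g) x).2.cau
      intro ε hε
      obtain ⟨N, hN⟩ := h6 ε hε
      refine ⟨N, fun a b ha hb => ?_⟩
      have h5 : ∀ n, (MM.actS (ψ g) x : ℕ → H) n = s n := fun n =>
        (TWC.fn_of_mem (ψ g) (x.2.mem n)).symm
      have h7 := hN a b ha hb
      rwa [h5, h5] at h7
    by_cases h1 : η g - 1 = 0
    · refine ⟨0, zero_mem E, TWC.Nul.zero.congr fun n => ?_⟩
      rw [e1, h1, zero_mul, sub_zero]
    · have h5 : 0 < v (η g - 1) := h3 h1
      obtain ⟨N, hN⟩ := hsc _ h5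
      have h7 : Nul v fun n => (η g - 1) * s n - (η g - 1) * s N := by
        refine fun ε hε => ⟨N, fun n hn => ?_⟩
        have h6 := (RVal.ge_self (v := v) (η g - 1)).mul (hN n N hn le_rfl)
        rw [add_neg_cancel, mul_sub] at h6
        exact h6.mono (by linarith)
      exact ⟨(η g - 1) * s N, mul_mem (sub_mem h2 (one_mem E)) (hsE N),
        h7.congr fun n => by rw [e1]⟩

theorem phT_cau (hge : ∀ g, ∀ (x : H) (b : ℝ), v.Ge b x → v.Ge b (Th g x))
    (hE : ∀ g, ∀ x ∈ E, Th g x ∈ E) (b : ℕ → k) {x : ℕ → H} (hx : Cau v E x) :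
    Cau v E fun n => phT P Th b (x n) := by
  have h1 : Cau v E fun n => ∑ g ∈ range P, b g • Th g (x n) := by
    have h2 : ∀ g, Cau v E fun n => b g • Th g (x n) := fun g =>
      (b g • (⟨_, th_cau hge hE g hx⟩ : CauS v E) : CauS v E).2
    have h3 := (∑ g ∈ range P, (⟨_, h2 g⟩ : CauS v E) : CauS v E).2
    refine (congrArg (Cau v E) ?_).mp h3
    funext n
    rw [Submodule.coe_sum, Finset.sum_apply]
  refine (congrArg (Cau v E) ?_).mp h1
  funext n
  rw [phT_apply]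

theorem phT_mk (hge : ∀ g, ∀ (x : H) (b : ℝ), v.Ge b x → v.Ge b (Th g x))
    (hE : ∀ g, ∀ x ∈ E, Th g x ∈ E) (h0 : Th 0 = 1) (hr : RepT v E P Th T₀ ψ η) (b : ℕ → k)
    (x : CauS v E) (hx : Cau v E fun n => phT P Th b ((x : ℕ → H) n)) :
    MM.mk v E ⟨fun n => phT P Th b ((x : ℕ → H) n), hx⟩ =
      ∑ g ∈ range P, b g • thM ψ g (MM.mk v E x) := by
  have h2 : ∀ g ∈ range P, b g • thM ψ g (MM.mk v E x) =
      MM.mk v E (b g • ⟨_, th_cau hge hE g x.2⟩) := fun g hg => by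
    rw [map_smul, th_mk h0 hr (Finset.mem_range.1 hg)]
  rw [Finset.sum_congr rfl h2, ← map_sum]
  congr 1
  refine Subtype.ext (funext fun n => ?_)
  rw [Submodule.coe_sum, Finset.sum_apply]
  exact phT_apply P Th b _

end

variable {p : ℕ} [hp : Fact p.Prime] [CharP k p] [PerfectRing k p] [CharP H p] [PerfectRing H p]
  [IsAlgClosed H] {A : Type*} [AddCommGroup A] {pr : A → H →ₗ[k] H} {y : ℕ → H} {α : ℕ → A}
  {κ : Type*} [Fintype κ]
  {dx : ℕ × ℕ → Fin 2 × ℕ} {dJ : ℕ × ℕ → ℕ × ℕ} {du : ℕ × ℕ → k}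
  {a : κ → κ → ℕ → k} {X : κ → ℕ → H} {f : κ → H} {b : κ → Fin 2 × ℕ → H}
  {m : κ → Fin 2 × ℕ → ℕ → H} {N : ℕ} {N₀ M : ℕ} {e : κ → Fin 2 × ℕ → H}
  {S ρ : κ → Fin 2 × ℕ → Fin 2 × ℕ → k}
  {C₀ : IntermediateField k H} {T₀ : Submodule k (Opr v E)} {ψ : ℕ → Opr v E} {η : ℕ → H}

/-- The matrices of the letters. -/
noncomputable def Kc (p : ℕ) (R : ℕ × ℕ → Finset (ℕ × ℕ)) (c : ℕ → ℕ × ℕ → ℕ × ℕ → k)
    (N₀ M : ℕ) (g : ℕ) (z x : Fin 2 × ℕ) : k :=
  if z.2 < N₀ ∧ x.2 < M ∧ jx p z ∈ (R (jx p x)).erase 0 then c g (jx p x) (jx p z) else 0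

theorem Kc_eq (t : Tri v E K D P Th R c w) (hM : p ^ N₀ + w < M) {g : ℕ} (hg : g < P)
    {z : Fin 2 × ℕ} (hz : z.2 < N₀) (x : Fin 2 × ℕ) : Kc p R c N₀ M g z x =
      if jx p z ∈ (R (jx p x)).erase 0 then c g (jx p x) (jx p z) else 0 := by
  rw [Kc]
  by_cases h1 : jx p z ∈ (R (jx p x)).erase 0
  · rw [if_pos h1]
    by_cases hx : x.2 < M
    · rw [if_pos ⟨hz, hx, h1⟩]
    · rw [if_neg fun h => hx h.2.1]
      by_contra h2
      have h3 := t.wt g hg _ _ (Finset.mem_of_mem_erase h1) (Ne.symm h2)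
      rw [jx_sum, jx_sum] at h3
      have h4 := Nat.lt_pow_self hp.out.one_lt (n := x.2)
      have h5 := Nat.pow_le_pow_right hp.out.pos hz.le
      omega
  · rw [if_neg h1, if_neg fun h => h1 h.2.2]

/-- **The action on the letters.** -/
theorem th_letter (T : Two7 p v pr E K y α D) (t : Tri v E K D P Th R c w)
    (hr : RepT v E P Th T₀ ψ η) (hM : p ^ N₀ + w < M) {g : ℕ} (hg : g < P) {z : Fin 2 × ℕ}
    (hz : z.2 < N₀) : thM ψ g (Yx (MM.fr p v E) (yM v E y) z) =
      ∑ x ∈ XN (Fin 2) M, Kc p R c N₀ M g z x • Yx (MM.fr p v E) (yM v E y) x := by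
  classical
  obtain ⟨s, hs, h1⟩ := exists_seqY (p := p) T
  have hYK : Yy p y z ∈ K := pow_mem (T.my z.1) _
  have hthK : Th g (Yy p y z) ∈ K := t.mem g _ hYK
  have hc := th_cau t.ge t.memE g (s z).2
  have hn : Nul v fun n => Th g (Yy p y z) - Th g ((s z : ℕ → H) n) := by
    intro ε hε
    obtain ⟨N, hN⟩ := hs z ε hε
    refine ⟨N, fun n hn => ?_⟩
    have h2 := t.ge g _ _ (hN n hn)
    rw [map_sub] at h2
    exact h2
  have hl : Lim v E 0 (Th g (Yy p y z)) := TWC.Lim.of_nul hc.mem hn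
  obtain ⟨e', he', N', S', hS', h2⟩ := T.near hk.out hthK hl
  set cz : Fin 2 × ℕ → k := fun x =>
    if jx p z ∈ (R (jx p x)).erase 0 then c g (jx p x) (jx p z) else 0 with hcz
  -- the jets of `Th g (Yy z)`
  have h3 : ∀ x, Dx p D x (Th g (Yy p y z)) = algebraMap k H (cz x) := by
    intro x
    rw [← dd8_jx T x hthK, t.tri g hg _ _ hYK]
    have h4 : ∀ q ∈ antidiagonal g, (∑ J' ∈ R (jx p x), c q.2 (jx p x) J' •
        Th q.1 (DD D J' (Yy p y z))) = if q.1 = 0 then algebraMap k H (cz x) else 0 := by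
      intro q hq
      have hq' := Finset.HasAntidiagonal.mem_antidiagonal.1 hq
      have h5 : ∀ J' ∈ R (jx p x), c q.2 (jx p x) J' • Th q.1 (DD D J' (Yy p y z)) =
          if J' = jx p z then (if q.1 = 0 then
            algebraMap k H (c g (jx p x) (jx p z)) else 0) else 0 := by
        intro J' _
        by_cases h0 : J' = 0
        · rw [h0, t.c0 _ _ (jx_ne_zero x), zero_smul, if_neg (jx_ne_zero z).symm]
        · rw [dd8_Y T h0 z]
          split_ifs with h6 h7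
          · have h8 : q.2 = g := by omega
            rw [h6, h7, h8, t.th0, Module.End.one_apply, ← Algebra.algebraMap_eq_smul_one]
          · rw [t.one q.1 (Nat.pos_of_ne_zero h7) (by omega), smul_zero]
          · rw [map_zero, smul_zero]
      rw [Finset.sum_congr rfl h5, Finset.sum_ite_eq']
      by_cases h6 : jx p z ∈ R (jx p x)
      · rw [if_pos h6, hcz]
        simp only
        rw [if_pos (Finset.mem_erase.2 ⟨jx_ne_zero z, h6⟩)]
      · rw [if_neg h6, hcz]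
        simp only
        rw [if_neg fun h7 => h6 (Finset.mem_of_mem_erase h7), map_zero, ite_self]
    rw [Finset.sum_congr rfl h4, Finset.sum_ite, Finset.sum_const_zero, add_zero]
    have h5 : (antidiagonal g).filter (fun q => q.1 = 0) = {(0, g)} := by
      ext ⟨q1, q2⟩
      simp only [Finset.mem_filter, Finset.HasAntidiagonal.mem_antidiagonal,
        Finset.mem_singleton, Prod.mk.injEq]
      omega
    rw [h5, Finset.sum_singleton]
  have h4 : ∀ x, S' x = cz x := by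
    intro x
    have h5 := T.dx_gt' x (sub_mem (sub_mem hthK (T.leK he')) (Cof.sum_mem' T _ _)) h2
    rw [T.dx_sub x (sub_mem hthK (T.leK he')) (Cof.sum_mem' T _ _),
      T.dx_sub x hthK (T.leK he'), T.dx_E x he', sub_zero, Cof.dx_sum T, h3] at h5
    have h7 : (if x ∈ XN (Fin 2) N' then algebraMap k H (S' x) else 0) =
        algebraMap k H (S' x) := by
      split_ifs with h8
      · rfl
      · rw [mem_XN, not_lt] at h8
        rw [hS' x h8, map_zero]
    rw [h7, ← map_sub] at h5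
    exact (sub_eq_zero.1 (hk.out.const_eq_zero h5)).symm
  rw [h1 z, ← th_mk t.th0 hr hg (s z) hc]
  have h5 : ∀ x ∈ XN (Fin 2) M, Kc p R c N₀ M g z x • Yx (MM.fr p v E) (yM v E y) x =
      MM.mk v E (cz x • s x) := fun x _ => by
    rw [map_smul, ← h1 x, Kc_eq t hM hg hz]
  rw [Finset.sum_congr rfl h5, ← map_sum, ← sub_eq_zero, ← map_sub, MM.mk_eq_zero]
  refine ⟨e', he', ?_⟩
  -- the sums over the letters
  have h6 : ∀ x, M ≤ x.2 → cz x = 0 := by
    intro x hx
    have h7 := Kc_eq t hM hg hz x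
    rw [Kc, if_neg fun h => absurd h.2.1 (not_lt.2 hx)] at h7
    exact h7.symm
  have h7 : ∑ x ∈ XN (Fin 2) N', algebraMap k H (S' x) * y ↑x.1 ^ p ^ x.2 =
      ∑ x ∈ XN (Fin 2) M, algebraMap k H (cz x) * Yy p y x := by
    have h8 : ∀ n n' : ℕ, (∀ x, n ≤ x.2 → cz x = 0) → n ≤ n' →
        ∑ x ∈ XN (Fin 2) n, algebraMap k H (cz x) * Yy p y x =
        ∑ x ∈ XN (Fin 2) n', algebraMap k H (cz x) * Yy p y x := by
      intro n n' h9 h10
      refine Finset.sum_subset (fun x hx => ?_) fun x _ hx => ?_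
      · rw [mem_XN] at hx ⊢
        omega
      · rw [mem_XN, not_lt] at hx
        rw [h9 x hx, map_zero, zero_mul]
    have h9 : ∑ x ∈ XN (Fin 2) N', algebraMap k H (S' x) * y ↑x.1 ^ p ^ x.2 =
        ∑ x ∈ XN (Fin 2) N', algebraMap k H (cz x) * Yy p y x :=
      Finset.sum_congr rfl fun x _ => by rw [h4 x]; rfl
    rw [h9, h8 N' (max N' M) (fun x hx => by rw [← h4, hS' x hx]) (le_max_left _ _),
      h8 M (max N' M) h6 (le_max_right _ _)]
  rw [h7] at h2
  have h8 : Nul v fun _ : ℕ => Th g (Yy p y z) - e' -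
    ∑ x ∈ XN (Fin 2) M, algebraMap k H (cz x) * Yy p y x := TWC.Nul.of_ge fun _ => h2.ge
  refine ((h8.sub hn).add (nul_sumY T hs (XN (Fin 2) M) cz)).congr fun n => ?_
  rw [AddSubgroupClass.coe_sub, Pi.sub_apply]
  ring

section

variable (hd : Dec k p K D dx dJ du) (T : Two7 p v pr E K y α D) (t : Tri v E K D P Th R c w)
  (G : DatN p v E K D (fun l j => phT P Th (a l j)) X f b m N)
  (C : CofT p v E P Th R c D dx dJ du a y f b N₀ M e S ρ) (hr : RepT v E P Th T₀ ψ η)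
  (hM : p ^ N₀ + w < M) (hNN : N ≤ N₀)

include hd T t G hr hM hNN

/-- the operators on the classes of the `m_x` -/
theorem RmH_mk (l : κ) (x : Fin 2 × ℕ) (hx : Cau v E fun n =>
    psX p P Th R c a x l (fun j J => mJ dx dJ (fun z => m j z n) J)) :
    RmH N₀ P (fun _ _ => 0) a (thM ψ) (Kc p R c N₀ M) (mM G) l x =
      MM.mk v E ⟨fun n => psX p P Th R c a x l (fun j J => mJ dx dJ (fun z => m j z n) J),
        hx⟩ := by
  classical
  -- the sequences
  set sq : κ → Fin 2 × ℕ → CauS v E := fun j z =>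
    ⟨fun n => phT P Th (twc P c (a l j) (jx p x) (jx p z)) (m j z n),
      phT_cau t.ge t.memE _ (G.cm j z)⟩ with hsq
  have h1 : MM.mk v E ⟨fun n => psX p P Th R c a x l (fun j J =>
      mJ dx dJ (fun z => m j z n) J), hx⟩ = ∑ z ∈ XN (Fin 2) N₀,
        if jx p z ∈ (R (jx p x)).erase 0 then ∑ j, MM.mk v E (sq j z) else 0 := by
    have h2 : ∀ z ∈ XN (Fin 2) N₀, (if jx p z ∈ (R (jx p x)).erase 0 then
        ∑ j, MM.mk v E (sq j z) else 0) = MM.mk v E (if jx p z ∈ (R (jx p x)).erase 0 then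
        ∑ j, sq j z else 0) := fun z _ => by
      split_ifs
      · rw [map_sum]
      · rw [map_zero]
    rw [Finset.sum_congr rfl h2, ← map_sum]
    congr 1
    refine Subtype.ext (funext fun n => ?_)
    rw [Submodule.coe_sum, Finset.sum_apply]
    change psX p P Th R c a x l (fun j J => mJ dx dJ (fun z => m j z n) J) = _
    rw [psX, sum_jx (p := p) _ N₀]
    · refine Finset.sum_congr rfl fun z _ => ?_
      split_ifs
      · rw [Submodule.coe_sum, Finset.sum_apply, ps]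
        refine Finset.sum_congr rfl fun j _ => ?_
        rw [mJ_jx hd T (fun z => m j z n) z]
      · rfl
    · intro J hJ h3
      have h4 : (fun j => mJ dx dJ (fun z => m j z n) J) = fun _ : κ => (0 : H) := by
        funext j
        exact mJ_zero hd T (N := N₀) (fun z hz => by rw [G.zm j z (hNN.trans hz)])
          (Finset.ne_of_mem_erase hJ) h3
      rw [h4, ps_zero]
  rw [h1, RmH]
  have h2 : ∀ j z, jx p z ∈ (R (jx p x)).erase 0 → MM.mk v E (sq j z) =
      ∑ g ∈ range P, ∑ q ∈ antidiagonal g,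
        (a l j g * c q.2 (jx p x) (jx p z)) • thM ψ q.1 (mM G j z) := by
    intro j z _
    rw [hsq]
    simp only
    rw [phT_mk t.ge t.memE t.th0 hr _ ⟨m j z, G.cm j z⟩]
    exact twc_sum (a l j) (jx p x) (jx p z) fun g => thM ψ g (mM G j z)
  have h3 : ∀ j, (0 : k) • mM G j x + ∑ g ∈ range P, ∑ q ∈ antidiagonal g, a l j g •
      thM ψ q.1 (∑ z ∈ XN (Fin 2) N₀, Kc p R c N₀ M q.2 z x • mM G j z) =
      ∑ z ∈ XN (Fin 2) N₀, if jx p z ∈ (R (jx p x)).erase 0 then MM.mk v E (sq j z) else 0 := by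
    intro j
    rw [zero_smul, zero_add]
    have h4 : ∀ g ∈ range P, ∀ q ∈ antidiagonal g, a l j g •
        thM ψ q.1 (∑ z ∈ XN (Fin 2) N₀, Kc p R c N₀ M q.2 z x • mM G j z) =
        ∑ z ∈ XN (Fin 2) N₀, if jx p z ∈ (R (jx p x)).erase 0 then
          (a l j g * c q.2 (jx p x) (jx p z)) • thM ψ q.1 (mM G j z) else 0 := by
      intro g hg q hq
      have hq' := Finset.HasAntidiagonal.mem_antidiagonal.1 hq
      have hg' := Finset.mem_range.1 hg
      rw [map_sum, Finset.smul_sum]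
      refine Finset.sum_congr rfl fun z hz => ?_
      rw [Kc_eq t hM (by omega) (mem_XN.1 hz)]
      split_ifs
      · rw [map_smul, smul_smul]
      · rw [zero_smul, map_zero, smul_zero]
    rw [Finset.sum_congr rfl fun g hg => Finset.sum_congr rfl fun q hq => h4 g hg q hq,
      Finset.sum_congr rfl fun g _ => Finset.sum_comm, Finset.sum_comm]
    refine Finset.sum_congr rfl fun z _ => ?_
    split_ifs with h5
    · exact (h2 j z h5).symm
    · exact Finset.sum_eq_zero fun g _ => Finset.sum_const_zero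
  rw [Finset.sum_congr rfl fun j _ => h3 j, Finset.sum_comm]
  refine Finset.sum_congr rfl fun z _ => ?_
  split_ifs
  · rfl
  · exact Finset.sum_const_zero

include C

/-- the relation of the classes -/
theorem rel_mkT (l : κ) (x : Fin 2 × ℕ) (hx : Cau v E fun n => (pv (fun z => m l z n) x) ^ p) :
    MM.mk v E ⟨fun n => (pv (fun z => m l z n) x) ^ p, hx⟩ =
      RmH N₀ P (fun _ _ => 0) a (thM ψ) (Kc p R c N₀ M) (mM G) l x +
      ∑ z ∈ XN (Fin 2) M, S l x z • Yx (MM.fr p v E) (yM v E y) z := by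
  obtain ⟨s, hs, h1⟩ := exists_seqY (p := p) T
  have hc : Cau v E fun n =>
      psX p P Th R c a x l (fun j J => mJ dx dJ (fun z => m j z n) J) := by
    refine ⟨fun n => psX_memE x l t fun j J => mJ_mem G j n J, fun ε hε => ?_⟩
    have h2 : ∀ j J, ∃ N, ∀ n n', N ≤ n → N ≤ n' →
        v.Ge (-ε) (mJ dx dJ (fun z => m j z n) J - mJ dx dJ (fun z => m j z n') J) := by
      intro j J
      by_cases h0 : dJ J = 0
      · obtain ⟨N, hN⟩ := (G.cm j (dx J)).cau ε hε
        refine ⟨N, fun n n' hn hn' => ?_⟩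
        rw [mJ, mJ, if_pos h0, if_pos h0]
        exact hN n n' hn hn'
      · refine ⟨0, fun n n' _ _ => ?_⟩
        rw [mJ, mJ, if_neg h0, if_neg h0, sub_zero]
        exact RVal.Ge.zero
    choose N₁ hN₁ using h2
    refine ⟨((R (jx p x)).erase 0).sup fun J => Finset.univ.sup fun j => N₁ j J,
      fun n n' hn hn' => ?_⟩
    rw [← psX_sub]
    refine RVal.Ge.sum _ _ fun J hJ => ps_ge (fun _ _ => t.phT_ge _) fun j => ?_
    have h3 : N₁ j J ≤ ((R (jx p x)).erase 0).sup fun J => Finset.univ.sup fun j => N₁ j J :=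
      (Finset.le_sup (f := fun j => N₁ j J) (Finset.mem_univ j)).trans
        (Finset.le_sup (f := fun J => Finset.univ.sup fun j => N₁ j J) hJ)
    exact hN₁ j J n n' (h3.trans hn) (h3.trans hn')
  rw [RmH_mk hd T t G hr hM hNN l x hc]
  have h3 : ∑ z ∈ XN (Fin 2) M, S l x z • Yx (MM.fr p v E) (yM v E y) z =
      MM.mk v E (∑ z ∈ XN (Fin 2) M, S l x z • s z) := by
    rw [map_sum]
    exact Finset.sum_congr rfl fun z _ => by rw [map_smul, h1]
  rw [h3, ← map_add, ← sub_eq_zero, ← map_sub, MM.mk_eq_zero]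
  refine ⟨e l x, C.me l x, ?_⟩
  have h4 := rnulT hd T t G l x
  have h5 : Nul v fun _ => rrT p P Th R c D dx dJ du a f b l x - e l x -
    ∑ z ∈ XN (Fin 2) M, algebraMap k H (S l x z) * Yy p y z := TWC.Nul.of_ge fun _ =>
      (C.hS l x).ge
  refine (((h5.sub h4).add (nul_sumY T hs (XN (Fin 2) M) (S l x)))).congr fun n => ?_
  rw [AddSubgroupClass.coe_sub, Pi.sub_apply, Submodule.coe_add, Pi.add_apply]
  ring

/-- **The relations of the tensor core.** -/
theorem CofT.cor (h : Oper p v C₀ E T₀) (hP : 0 < P) (hNM : N₀ ≤ M) :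
    CorH (MM.fr p v E) (h.ops p) (yM v E y) N₀ M P (fun _ _ => 0) a (thM ψ) (Kc p R c N₀ M)
      (mM G) S ρ where
  le := hNM
  th0 := if_pos rfl
  thO g hg0 hg := by
    rw [thM, if_neg hg0.ne']
    exact ⟨ψ g, (hr g hg0 hg).1, rfl⟩
  thY g hg z hz := th_letter T t hr hM hg hz
  Kbig g _ z x hx := by rw [Kc, if_neg fun h => absurd h.2.1 (not_lt.2 hx)]
  ind := indY T
  mbig l x hx := by
    rw [mM, MM.mk_eq_zero]
    refine ⟨0, zero_mem E, TWC.Nul.zero.congr fun n => ?_⟩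
    change 0 = m l x n - 0
    rw [G.zm l x (hNN.trans hx), sub_zero]
  Sbig := C.S1
  Sbig' := C.S2
  ρbig l x z hx := CofT.ρbig T G C hNN l x z hx
  anti l x z := CofT.anti C l x z
  rel l x := by
    rw [← rel_mkT hd T t G C hr hM hNN l (shx x) ((G.cm l x).pow p)]
    rfl
  rel0 l a' := by
    have h2 : (fun n => (pv (fun z => m l z n) (a', 0)) ^ p) = fun _ => 0 := by
      funext n
      change (0 : H) ^ p = 0
      exact zero_pow hp.out.ne_zero
    have h3 : Cau v E fun n => (pv (fun z => m l z n) (a', 0)) ^ p := by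
      rw [h2]
      exact Cau.const (zero_mem E)
    rw [← rel_mkT hd T t G C hr hM hNN l (a', 0) h3, eq_comm, MM.mk_eq_zero]
    refine ⟨0, zero_mem E, TWC.Nul.zero.congr fun n => ?_⟩
    change 0 = (fun n => (pv (fun z => m l z n) (a', 0)) ^ p) n - 0
    rw [h2, sub_zero]
  rho l x z := by
    have h2 := CofT.rho_rel hd T t G C hP l (shx x) (shx z)
    rw [CofT.rho_sum hd T t G C hNN l (shx x) (shx z) (Kc p R c N₀ M) fun g hg z' x' hz' =>
      Kc_eq t hM hg hz' x'] at h2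
    have h3 : Gt v 0 ((Dx p D z (b l x) - Dx p D x (b l z) - algebraMap k H (ρ l x z)) ^ p) := by
      have h3 := TWM.gt_pow (p := p) (C.hρ l x z)
      rwa [mul_zero] at h3
    have h4 : Gt v 0 (algebraMap k H (S l (shx x) (shx z) - S l (shx z) (shx x) -
        RrH N₀ P (fun _ _ => 0) a (Kc p R c N₀ M) ρ l (shx x) (shx z) + ρ l x z ^ p)) := by
      refine (congrArg (Gt v 0) ?_).mp (h2.sub h3)
      rw [sub_pow_char, sub_pow_char, map_add, map_pow]
      change algebraMap k H _ + ((Dx p D z (b l x)) ^ p - (Dx p D x (b l z)) ^ p) - _ = _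
      ring
    have h5 := hk.out.const_eq_zero h4
    rw [frobenius_def]
    linear_combination h5
  rho0 l a' z := by
    have h2 := CofT.rho_rel hd T t G C hP l (a', 0) z
    rw [CofT.rho_sum hd T t G C hNN l (a', 0) z (Kc p R c N₀ M) fun g hg z' x' hz' =>
      Kc_eq t hM hg hz' x'] at h2
    have h3 : pv (fun z' => Dx p D z' (pv (b l) (a', 0))) z = 0 := by
      rcases z with ⟨a'', _ | i⟩
      · rfl
      · change D a'' (p ^ i) 0 = 0
        exact (T.jx a'').zero' _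
    have h4 : pv (fun z' => Dx p D z' (pv (b l) z)) (a', 0) = 0 := rfl
    rw [h3, h4, sub_self, add_zero] at h2
    have h5 := hk.out.const_eq_zero h2
    linear_combination h5

end

/-- **The gauge.** -/
theorem DatN.gaugeT (T : Two7 p v pr E K y α D) (t : Tri v E K D P Th R c w)
    (G : DatN p v E K D (fun l j => phT P Th (a l j)) X f b m N) (hP : 0 < P)
    (hr : RepT v E P Th T₀ ψ η) (h : Oper p v C₀ E T₀) (hV : NSD p h) :
    ∃ (b' : κ → Fin 2 × ℕ → H) (M : ℕ),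
    DatN p v E K D (fun l j => phT P Th (a l j)) X f b' (fun _ _ _ => 0) M ∧
    ∀ l x z, Gt v 0 (Dx p D z (b' l x) - Dx p D x (b' l z)) := by
  classical
  obtain ⟨dx, dJ, du, hd⟩ := exists_decs T
  obtain ⟨N₀, M, hNN, hNM, hM, e, S, ρ, C⟩ := exists_cofT hd T t G
  obtain ⟨g, g0, g1, g2⟩ := (CofT.cor hd T t G C hr hM hNN h hP hNM).main
    (MM.fr_injective p h.perf) (nsd1_of_nsd h hV)
  obtain ⟨s, hs, hs1⟩ := exists_seqY (p := p) T
  have hNM' : N ≤ M := hNN.trans hNM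
  -- the constants
  have h2 : ∀ l x, ∃ e' ∈ E, (Nul v fun n => m l x n -
      (∑ z ∈ XN (Fin 2) M, algebraMap k H (g l x z) * Yy p y z) - e') ∧ (M ≤ x.2 → e' = 0) := by
    intro l x
    by_cases hx : M ≤ x.2
    · refine ⟨0, zero_mem E, TWC.Nul.zero.congr fun n => ?_, fun _ => rfl⟩
      rw [G.zm l x (hNM'.trans hx), Finset.sum_eq_zero fun z _ => by
        rw [g0 l x z (Or.inl hx), map_zero, zero_mul], sub_zero, sub_zero]
    · have h3 := g1 l x
      rw [Finset.sum_congr rfl fun z _ => by rw [hs1 z, ← map_smul], ← map_sum, mM,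
        ← sub_eq_zero, ← map_sub, MM.mk_eq_zero] at h3
      obtain ⟨e', he', h4⟩ := h3
      refine ⟨e', he', (h4.sub (nul_sumY T hs (XN (Fin 2) M) (g l x))).congr fun n => ?_,
        fun h4 => absurd h4 hx⟩
      rw [AddSubgroupClass.coe_sub, Pi.sub_apply]
      ring
  choose e' he' hn' hz' using h2
  set b' : κ → Fin 2 × ℕ → H := fun l x => b l x +
    (∑ z ∈ XN (Fin 2) M, algebraMap k H (g l x z) * Yy p y z) + e' l x with hb'
  have hsK : ∀ l x, ∑ z ∈ XN (Fin 2) M, algebraMap k H (g l x z) * Yy p y z ∈ K := fun l x =>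
    Cof.sum_mem' T _ _
  have hb'K : ∀ l x, b' l x ∈ K := fun l x =>
    add_mem (add_mem (G.mb l x) (hsK l x)) (T.leK (he' l x))
  refine ⟨b', M, ⟨G.cX, G.mf, G.rel, hb'K, fun l x => Cau.const (zero_mem E),
    fun l x hx => ?_, fun l x hx => rfl, fun l x => ?_⟩, fun l x z => ?_⟩
  · simp only [hb']
    rw [G.zb l x (hNM'.trans hx), Finset.sum_eq_zero fun z _ => by
        rw [g0 l x z (Or.inl hx), map_zero, zero_mul], hz' l x hx, add_zero, add_zero]
  · refine ((G.spl l x).add (hn' l x)).congr fun n => ?_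
    simp only [hb']
    ring
  · have h2 : ∀ x z, Dx p D z (b' l x) = Dx p D z (b l x) + algebraMap k H (g l x z) := by
      intro x z
      simp only [hb']
      rw [T.dx_add z (add_mem (G.mb l x) (hsK l x)) (T.leK (he' l x)),
        T.dx_add z (G.mb l x) (hsK l x), T.dx_E z (he' l x), add_zero, Cof.dx_sum T]
      split_ifs with hz
      · rfl
      · rw [mem_XN, not_lt] at hz
        rw [g0 l x z (Or.inr hz), map_zero]
    rw [h2, h2]
    refine (congrArg (Gt v 0) ?_).mp (C.hρ l x z)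
    have h3 : ρ l x z = g l z x - g l x z := by linear_combination g2 l x z
    rw [h3, map_sub]
    ring

/-- **The gauge of a system all of whose jets are in `K + L(E)`.** -/
theorem gauge_step (T : Two7 p v pr E K y α D) (t : Tri v E K D P Th R c w) (hP : 0 < P)
    (hr : RepT v E P Th T₀ ψ η) (h : Oper p v C₀ E T₀) (hV : NSD p h) {d : ℕ}
    (hX : ∀ l, Cau v K (X l)) (hf : ∀ l, f l ∈ K)
    (hR : ∀ l, Nul v fun n => X l n ^ p -
      ps (fun l j => phT P Th (a l j)) l (fun j => X j n) - f l)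
    (hB : ∀ l, Bnd v D d (X l))
    (hJ : ∀ l J, J ≠ 0 → InBL v K E (fun n => DD D J (X l n))) :
    ∃ (b' : κ → Fin 2 × ℕ → H) (M : ℕ),
    DatN p v E K D (fun l j => phT P Th (a l j)) X f b' (fun _ _ _ => 0) M ∧
    ∀ l x z, Gt v 0 (Dx p D z (b' l x) - Dx p D x (b' l z)) := by
  classical
  obtain ⟨N₀, hN₀⟩ : ∃ N₀ : ℕ, ∀ i, N₀ ≤ i → d < p ^ i :=
    ⟨d, fun i hi => lt_of_le_of_lt hi (Nat.lt_pow_self hp.out.one_lt)⟩
  have hbig : ∀ (l : κ) (x : Fin 2 × ℕ), N₀ ≤ x.2 → Nul v fun n => Dx p D x (X l n) :=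
    fun l x hi => T.bnd_dx (hX l).mem (hB l) x.1 (hN₀ x.2 hi)
  have hdat : ∀ (l : κ) (x : Fin 2 × ℕ), ∃ b ∈ K, ∃ m, Cau v E m ∧
      (Nul v fun n => Dx p D x (X l n) - b - m n) ∧
      (N₀ ≤ x.2 → b = 0 ∧ m = fun _ => 0) := by
    intro l x
    by_cases hi : x.2 < N₀
    · obtain ⟨b, hb, m, hm, h1⟩ := hJ l (jx p x) (jx_ne_zero x)
      exact ⟨b, hb, m, hm, h1.congr fun n => by
          change DD D (jx p x) (X l n) - b - m n = _
          rw [dd8_jx T x ((hX l).mem n)],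
        fun h2 => absurd hi (not_lt.2 h2)⟩
    · exact ⟨0, zero_mem K, fun _ => 0, Cau.const (zero_mem E),
        (hbig l x (not_lt.1 hi)).congr fun n => by rw [sub_zero, sub_zero], fun _ => ⟨rfl, rfl⟩⟩
  choose b hb m hm hs hz using hdat
  have G : DatN p v E K D (fun l j => phT P Th (a l j)) X f b m N₀ :=
    ⟨hX, hf, hR, hb, hm, fun l x hx => (hz l x hx).1, fun l x hx => (hz l x hx).2, hs⟩
  exact G.gaugeT T t hP hr h hV

end Pool.Agent.TWHT
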