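import Pool.Agent.Lib.TWHT.NCor

/-!
# TANK W, leaf (Ht): the tensor core, letters moved by the operators

As `NCor`, but the operators move the letters: `Φ_αβ = lam α β + ∑_s (al α β s)(be α β s)` acts on
tensors by `lam α β + ∑_s al α β s ⊗ be α β s` (cocommutative), `al`, `be` map the letters to
combinations of letters (matrices `Aa`, `Bb`).

* `Nsd1.tensorsD`: families of tensors with such operators are torsion;
* `lhs_tt`: `(F ⊗ F) t` from the relations;
* `main_tt`: a torsion `t` gives `m x = ∑ g x z • Y z`, `g x z - g z x + ρ x z = 0`;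
* `CorT`, `CorT.main`.
-/

set_option autoImplicit false
set_option linter.unusedSectionVars false

namespace Pool.Agent.TWHT

open Module Submodule TensorProduct
open Pool.Agent.TWC (Ops act mem_act act_mono tp tmul_mem_tp tp_le tp_mono FF FF_tmul LS LS_fg
  mem_tp_LS it_LS Sat it_sum it_smul)
open Pool.Agent.TWIV (Yx shx XN mem_XN F_Yx sum_shx alt alt_add alt_smul alt_zero alt_sum FF_alt
  alt_swap)

universe u w

variable {k : Type u} {V : Type w} [Field k] [AddCommGroup V] [Module k V]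
variable {σ : k →+* k} [RingHomSurjective σ] {F : V →ₛₗ[σ] V} {O : Ops F}
variable {ι : Type*} [Fintype ι] {κ : Type*} [Fintype κ] {τ : Type*} [Fintype τ]

/-! ### The operators on the tensors -/

/-- `∑ α_s ⊗ β_s` -/
noncomputable def dl (al be : τ → V →ₗ[k] V) : V ⊗[k] V →ₗ[k] V ⊗[k] V :=
  ∑ s, TensorProduct.map (al s) (be s)

theorem dl_tmul (al be : τ → V →ₗ[k] V) (x y : V) :
    dl al be (x ⊗ₜ[k] y) = ∑ s, al s x ⊗ₜ[k] be s y := by
  rw [dl, LinearMap.sum_apply]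
  exact Finset.sum_congr rfl fun s _ => TensorProduct.map_tmul _ _ _ _

/-- A family of tensors, `(F ⊗ F) t_j` a combination of the `t_l` and the `∑ α_s ⊗ β_s t_l`. -/
theorem Nsd1.tensorsD (hN : Nsd1 O) (hF : Function.Injective F) (t : κ → V ⊗[k] V)
    (lam : κ → κ → k) (al be : κ → κ → τ → V →ₗ[k] V)
    (hal : ∀ i j s, ∃ c : k, al i j s - c • LinearMap.id ∈ O.A)
    (h : ∀ j, FF F (t j) = ∑ l, (lam j l • t l + dl (al j l) (be j l) (t l))) (j : κ) :
    t j ∈ tp (Sat F ⊥) := by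
  have h0 : (⨆ l, LS (t l)) ≤ Sat F ⊥ := by
    refine hN _ (Submodule.fg_iSup _ fun j => LS_fg (t j)) ?_
    set P : Submodule k V := ⨆ l, LS (t l) with hP
    have h1 : ∀ l, t l ∈ tp P := fun l => tp_mono (le_iSup (fun l => LS (t l)) l) (mem_tp_LS _)
    have h2 : tp P ≤ tp (P ⊔ act O P) := tp_mono le_sup_left
    have h3 : ∀ i j l, dl (al i j) (be i j) (t l) ∈ tp (P ⊔ act O P) := by
      intro i j l
      have h4 : tp P ≤ (tp (P ⊔ act O P)).comap (dl (al i j) (be i j)) := by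
        rw [tp_le]
        intro x hx y
        rw [Submodule.mem_comap, dl_tmul]
        refine sum_mem fun s _ => tmul_mem_tp ?_ _
        obtain ⟨c, hc⟩ := hal i j s
        have e : al i j s x = (al i j s - c • LinearMap.id : V →ₗ[k] V) x + c • x := by
          rw [LinearMap.sub_apply, LinearMap.smul_apply, LinearMap.id_apply, sub_add_cancel]
        rw [e]
        exact add_mem (Submodule.mem_sup_right (mem_act hc hx))
          (Submodule.mem_sup_left (P.smul_mem c hx))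
      exact h4 (h1 l)
    have h5 : P ≤ (P ⊔ act O P).comap F := by
      refine iSup_le fun l x hx => ?_
      have h6 : (FF F)^[1] (t l) ∈ tp (P ⊔ act O P) := by
        rw [Function.iterate_one, h l]
        exact sum_mem fun i _ => add_mem (Submodule.smul_mem _ _ (h2 (h1 i))) (h3 l i i)
      have h7 := it_LS hF h6 hx
      rw [Function.iterate_one] at h7
      exact Submodule.mem_comap.2 h7
    exact fun x hx => Submodule.mem_comap.1 (h5 hx)
  exact tp_mono ((le_iSup (fun l => LS (t l)) j).trans h0) (mem_tp_LS _)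

/-! ### The tensor of one unknown -/

section One

variable {y : ι → V} {N : ℕ}

/-- the tensor -/
noncomputable def t1 (F : V →ₛₗ[σ] V) (y : ι → V) (N : ℕ) (m : ι × ℕ → V)
    (ρ : ι × ℕ → ι × ℕ → k) : V ⊗[k] V :=
  (∑ x ∈ XN ι N, alt (Yx F y x) (m x)) +
    ∑ x ∈ XN ι N, ∑ z ∈ XN ι N, ρ x z • (Yx F y x ⊗ₜ[k] Yx F y z)

/-- `(F ⊗ F) t` from the relations. -/
theorem lhs_tt {m Rm : ι × ℕ → V} {ρ Rr S : ι × ℕ → ι × ℕ → k}
    (Rmb : ∀ a, Rm (a, N) = 0)
    (Rrb : ∀ x z, N ≤ x.2 → Rr x z = 0) (Rra : ∀ x z, Rr z x = -Rr x z)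
    (Sb : ∀ x z, N ≤ x.2 → S x z = 0) (Sb' : ∀ x z, N ≤ z.2 → S x z = 0)
    (rel : ∀ x, F (m x) = Rm (shx x) + ∑ z ∈ XN ι N, S (shx x) z • Yx F y z)
    (rel0 : ∀ a, 0 = Rm (a, 0) + ∑ z ∈ XN ι N, S (a, 0) z • Yx F y z)
    (rho : ∀ x z, S (shx x) (shx z) - S (shx z) (shx x) = Rr (shx x) (shx z) - σ (ρ x z))
    (rho0 : ∀ a z, S (a, 0) z - S z (a, 0) = Rr (a, 0) z) :
    FF F (t1 F y N m ρ) = (∑ x ∈ XN ι N, alt (Yx F y x) (Rm x)) +
      ∑ x ∈ XN ι N, ∑ z ∈ XN ι N, Rr x z • (Yx F y x ⊗ₜ[k] Yx F y z) := by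
  classical
  have Rrb' : ∀ x z, N ≤ z.2 → Rr x z = 0 := fun x z hz => by
    have h1 := Rra z x
    rw [Rrb z x hz, neg_zero] at h1
    exact h1
  have f1 : FF F (t1 F y N m ρ) = (∑ x ∈ XN ι N, alt (Yx F y (shx x)) (F (m x))) +
      ∑ x ∈ XN ι N, ∑ z ∈ XN ι N, σ (ρ x z) •
        (Yx F y (shx x) ⊗ₜ[k] Yx F y (shx z)) := by
    rw [t1, map_add, map_sum, map_sum]
    congr 1
    · refine Finset.sum_congr rfl fun x _ => ?_
      rw [FF_alt, F_Yx]
    · refine Finset.sum_congr rfl fun x _ => ?_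
      rw [map_sum]
      refine Finset.sum_congr rfl fun z _ => ?_
      rw [LinearMap.map_smulₛₗ, FF_tmul, F_Yx, F_Yx]
  -- the first sum
  have f2 : ∑ x ∈ XN ι N, alt (Yx F y (shx x)) (F (m x)) =
      (∑ x ∈ XN ι N, alt (Yx F y x) (Rm x)) +
      ∑ x ∈ XN ι N, ∑ z ∈ XN ι N, (S x z - S z x) • (Yx F y x ⊗ₜ[k] Yx F y z) := by
    set f : ι × ℕ → V ⊗[k] V := fun x => alt (Yx F y x)
      (Rm x + ∑ z ∈ XN ι N, S x z • Yx F y z) with hf
    have f3 : ∑ x ∈ XN ι N, alt (Yx F y (shx x)) (F (m x)) = ∑ x ∈ XN ι N, f (shx x) :=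
      Finset.sum_congr rfl fun x _ => by rw [rel x]
    have f4 : ∀ a, f (a, N) = 0 := by
      intro a
      rw [hf]
      simp only [Rmb a, Sb (a, N) _ le_rfl, zero_smul, Finset.sum_const_zero, add_zero, alt_zero]
    have f5 : ∀ a, f (a, 0) = 0 := by
      intro a
      rw [hf]
      simp only
      rw [← rel0 a, alt_zero]
    have f6 := sum_shx N f f4
    rw [Finset.sum_congr rfl fun a _ => f5 a, Finset.sum_const_zero, add_zero] at f6
    rw [f3, f6, ← CorN.sum_alt, ← Finset.sum_add_distrib]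
    exact Finset.sum_congr rfl fun x _ => alt_add _ _ _
  -- the second sum
  have g1 : ∑ x ∈ XN ι N, ∑ z ∈ XN ι N, σ (ρ x z) •
        (Yx F y (shx x) ⊗ₜ[k] Yx F y (shx z)) =
      ∑ x ∈ XN ι N, ∑ z ∈ XN ι N, (Rr x z - (S x z - S z x)) •
        (Yx F y x ⊗ₜ[k] Yx F y z) := by
    set g : ι × ℕ → ι × ℕ → V ⊗[k] V := fun x z =>
      (Rr x z - (S x z - S z x)) • (Yx F y x ⊗ₜ[k] Yx F y z) with hg
    have g2 : ∀ x z, σ (ρ x z) • (Yx F y (shx x) ⊗ₜ[k] Yx F y (shx z)) =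
        g (shx x) (shx z) := by
      intro x z
      rw [hg]
      simp only
      rw [rho x z]
      congr 1
      ring
    have g3 : ∀ a z, g (a, 0) z = 0 := by
      intro a z
      rw [hg]
      simp only
      rw [rho0 a z, sub_self, zero_smul]
    have g4 : ∀ x a, g x (a, 0) = 0 := by
      intro x a
      have g5 := rho0 a x
      rw [hg]
      simp only
      have g6 : Rr x (a, 0) - (S x (a, 0) - S (a, 0) x) = 0 := by
        rw [Rra (a, 0) x, ← g5]
        ring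
      rw [g6, zero_smul]
    have g5 : ∀ x z, N ≤ x.2 → g x z = 0 := by
      intro x z hx
      rw [hg]
      simp only
      rw [Sb x z hx, Sb' z x hx, Rrb x z hx, sub_self, sub_self, zero_smul]
    have g6 : ∀ x z, N ≤ z.2 → g x z = 0 := by
      intro x z hz
      rw [hg]
      simp only
      rw [Sb z x hz, Sb' x z hz, Rrb' x z hz, sub_self, sub_self, zero_smul]
    have g7 : ∀ x, ∑ z ∈ XN ι N, g x (shx z) = ∑ z ∈ XN ι N, g x z := by
      intro x
      have g8 := sum_shx N (g x) fun a => g6 x (a, N) le_rfl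
      rwa [Finset.sum_congr rfl fun a _ => g4 x a, Finset.sum_const_zero, add_zero] at g8
    have g8 := sum_shx N (fun x => ∑ z ∈ XN ι N, g x z) fun a =>
      Finset.sum_eq_zero fun z _ => g5 (a, N) z le_rfl
    rw [Finset.sum_congr rfl fun a _ => Finset.sum_eq_zero fun z _ => g3 a z,
      Finset.sum_const_zero, add_zero] at g8
    rw [← g8]
    refine Finset.sum_congr rfl fun x _ => ?_
    rw [← g7]
    exact Finset.sum_congr rfl fun z _ => g2 x z
  rw [f1, f2, g1, add_assoc]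
  congr 1
  rw [← Finset.sum_add_distrib]
  refine Finset.sum_congr rfl fun x _ => ?_
  rw [← Finset.sum_add_distrib]
  refine Finset.sum_congr rfl fun z _ => ?_
  rw [← add_smul]
  congr 1
  ring

/-- **The end**: a torsion tensor. -/
theorem main_tt {m : ι × ℕ → V} {ρ : ι × ℕ → ι × ℕ → k} (ind : LinearIndependent k (Yx F y))
    (mb : ∀ x, N ≤ x.2 → m x = 0) (ρb : ∀ x z, N ≤ x.2 → ρ x z = 0)
    (anti : ∀ x z, ρ z x = -ρ x z) (ht : t1 F y N m ρ ∈ tp (Sat F ⊥)) :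
    ∃ g : ι × ℕ → ι × ℕ → k, (∀ x z, N ≤ x.2 ∨ N ≤ z.2 → g x z = 0) ∧
      (∀ x, m x = ∑ z ∈ XN ι N, g x z • Yx F y z) ∧ ∀ x z, g x z - g z x + ρ x z = 0 := by
  classical
  have ρb' : ∀ x z, N ≤ z.2 → ρ x z = 0 := fun x z hz => by
    have h1 := anti z x
    rw [ρb z x hz, neg_zero] at h1
    exact h1
  choose ξ hξ hξ0 using fun x => exists_dual ind x
  set g : ι × ℕ → ι × ℕ → k := fun x z =>
    if x.2 < N ∧ z.2 < N then ξ x (m z) + ρ z x else 0 with hg
  have h1 : ∀ x, x ∈ XN ι N → m x = ∑ z ∈ XN ι N, g x z • Yx F y z := by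
    intro x hx
    have h2 := sliceL_zero (hξ0 x) ht
    rw [t1, map_add, map_sum, map_sum] at h2
    have h3 : ∑ z ∈ XN ι N, sliceL (ξ x) (alt (Yx F y z) (m z)) =
        m x - (∑ z ∈ XN ι N, ξ x (m z) • Yx F y z) := by
      have h4 : ∀ z ∈ XN ι N, sliceL (ξ x) (alt (Yx F y z) (m z)) =
          (if z = x then m z else 0) - ξ x (m z) • Yx F y z := by
        intro z _
        rw [alt, map_sub, sliceL_tmul, sliceL_tmul, hξ]
        split_ifs
        · rw [one_smul]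
        · rw [zero_smul]
      rw [Finset.sum_congr rfl h4, Finset.sum_sub_distrib, Finset.sum_ite_eq' (XN ι N) x,
        if_pos hx]
    have h4 : ∑ z ∈ XN ι N, sliceL (ξ x) (∑ z' ∈ XN ι N, ρ z z' •
        (Yx F y z ⊗ₜ[k] Yx F y z')) = ∑ z ∈ XN ι N, ρ x z • Yx F y z := by
      rw [Finset.sum_eq_single_of_mem x hx]
      · rw [map_sum]
        refine Finset.sum_congr rfl fun z _ => ?_
        rw [map_smul, sliceL_tmul, hξ, if_pos rfl, one_smul]
      · intro z _ hz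
        rw [map_sum]
        refine Finset.sum_eq_zero fun z' _ => ?_
        rw [map_smul, sliceL_tmul, hξ, if_neg hz, zero_smul, smul_zero]
    rw [h3, h4] at h2
    have h5 : m x = (∑ z ∈ XN ι N, ξ x (m z) • Yx F y z) -
        ∑ z ∈ XN ι N, ρ x z • Yx F y z := by
      rw [← sub_eq_zero, ← h2]
      abel
    rw [h5, ← Finset.sum_sub_distrib]
    refine Finset.sum_congr rfl fun z hz => ?_
    rw [← sub_smul, hg]
    simp only
    rw [if_pos ⟨mem_XN.1 hx, mem_XN.1 hz⟩, anti x z, sub_eq_add_neg]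
  refine ⟨g, fun x z hxz => ?_, fun x => ?_, fun x z => ?_⟩
  · rw [hg]
    exact if_neg (fun h2 => by rcases hxz with h3 | h3 <;> omega)
  · by_cases hx : x ∈ XN ι N
    · exact h1 x hx
    · have h2 : N ≤ x.2 := not_lt.1 fun h3 => hx (mem_XN.2 h3)
      rw [mb x h2]
      refine (Finset.sum_eq_zero fun z _ => ?_).symm
      rw [hg]
      simp only
      rw [if_neg (fun h3 => by omega), zero_smul]
  · by_cases hx : x.2 < N
    · by_cases hz : z.2 < N
      · have h2 : ξ x (m z) = g z x := by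
          rw [h1 z (mem_XN.2 hz), map_sum, Finset.sum_eq_single_of_mem x (mem_XN.2 hx)]
          · rw [map_smul, hξ, if_pos rfl, smul_eq_mul, mul_one]
          · intro z' _ hz'
            rw [map_smul, hξ, if_neg hz', smul_zero]
        have h3 : g x z = ξ x (m z) + ρ z x := if_pos ⟨hx, hz⟩
        rw [h3, h2, anti x z]
        ring
      · have h2 : g x z = 0 := if_neg (fun h3 => hz h3.2)
        have h3 : g z x = 0 := if_neg (fun h3 => hz h3.1)
        rw [h2, h3, ρb' x z (not_lt.1 hz)]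
        ring
    · have h2 : g x z = 0 := if_neg (fun h3 => hx h3.1)
      have h3 : g z x = 0 := if_neg (fun h3 => hx h3.2)
      rw [h2, h3, ρb x z (not_lt.1 hx)]
      ring

end One

/-! ### The relations -/

/-- `Φ m` in the direction `x`. -/
noncomputable def RmT (N₀ : ℕ) (lam : κ → κ → k) (be : κ → κ → τ → V →ₗ[k] V)
    (Aa : κ → κ → τ → ι × ℕ → ι × ℕ → k) (m : κ → ι × ℕ → V) (α : κ) (x : ι × ℕ) : V :=
  ∑ β, (lam α β • m β x + ∑ s, be α β s (∑ z ∈ XN ι N₀, Aa α β s z x • m β z))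

/-- `Φ ρ` in the directions `x`, `z`. -/
def RrT (N₀ : ℕ) (lam : κ → κ → k) (Aa Bb : κ → κ → τ → ι × ℕ → ι × ℕ → k)
    (ρ : κ → ι × ℕ → ι × ℕ → k) (α : κ) (x z : ι × ℕ) : k :=
  ∑ β, (lam α β * ρ β x z +
    ∑ s, ∑ x' ∈ XN ι N₀, ∑ z' ∈ XN ι N₀, ρ β x' z' * (Aa α β s x' x * Bb α β s z' z))

/-- The relations of the tensor core, letters moved by the operators. -/
structure CorT (F : V →ₛₗ[σ] V) (O : Ops F) (y : ι → V) (N₀ N : ℕ) (lam : κ → κ → k)
    (al be : κ → κ → τ → V →ₗ[k] V) (Aa Bb : κ → κ → τ → ι × ℕ → ι × ℕ → k)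
    (m : κ → ι × ℕ → V) (S ρ : κ → ι × ℕ → ι × ℕ → k) : Prop where
  le : N₀ ≤ N
  alO : ∀ α β s, ∃ c : k, al α β s - c • LinearMap.id ∈ O.A
  sym : ∀ α β x y, ∑ s, al α β s x ⊗ₜ[k] be α β s y = ∑ s, be α β s x ⊗ₜ[k] al α β s y
  alY : ∀ α β s x, x.2 < N₀ → al α β s (Yx F y x) = ∑ z ∈ XN ι N, Aa α β s x z • Yx F y z
  beY : ∀ α β s x, x.2 < N₀ → be α β s (Yx F y x) = ∑ z ∈ XN ι N, Bb α β s x z • Yx F y z
  Abig : ∀ α β s x z, N ≤ z.2 → Aa α β s x z = 0
  Bbig : ∀ α β s x z, N ≤ z.2 → Bb α β s x z = 0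
  ind : LinearIndependent k (Yx F y)
  mbig : ∀ α x, N₀ ≤ x.2 → m α x = 0
  Sbig : ∀ α x z, N ≤ x.2 → S α x z = 0
  Sbig' : ∀ α x z, N ≤ z.2 → S α x z = 0
  ρbig : ∀ α x z, N₀ ≤ x.2 → ρ α x z = 0
  anti : ∀ α x z, ρ α z x = -ρ α x z
  rel : ∀ α x, F (m α x) = RmT N₀ lam be Aa m α (shx x) +
    ∑ z ∈ XN ι N, S α (shx x) z • Yx F y z
  rel0 : ∀ α a, 0 = RmT N₀ lam be Aa m α (a, 0) + ∑ z ∈ XN ι N, S α (a, 0) z • Yx F y z
  rho : ∀ α x z, S α (shx x) (shx z) - S α (shx z) (shx x) =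
    RrT N₀ lam Aa Bb ρ α (shx x) (shx z) - σ (ρ α x z)
  rho0 : ∀ α a z, S α (a, 0) z - S α z (a, 0) = RrT N₀ lam Aa Bb ρ α (a, 0) z

namespace CorT

variable {y : ι → V} {N₀ N : ℕ} {lam : κ → κ → k} {al be : κ → κ → τ → V →ₗ[k] V}
  {Aa Bb : κ → κ → τ → ι × ℕ → ι × ℕ → k} {m : κ → ι × ℕ → V} {S ρ : κ → ι × ℕ → ι × ℕ → k}
  (h : CorT F O y N₀ N lam al be Aa Bb m S ρ)

include h

omit [RingHomSurjective σ] in
theorem ρbig' (α : κ) (x z : ι × ℕ) (hz : N₀ ≤ z.2) : ρ α x z = 0 := by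
  have h1 := h.anti α z x
  rw [h.ρbig α z x hz, neg_zero] at h1
  exact h1

/-- the matrices are symmetric too -/
theorem symAB (α β : κ) {x' z' : ι × ℕ} (hx' : x'.2 < N₀) (hz' : z'.2 < N₀) (x z : ι × ℕ) :
    ∑ s, Aa α β s x' x * Bb α β s z' z = ∑ s, Bb α β s x' x * Aa α β s z' z := by
  classical
  by_cases hx : x.2 < N
  · by_cases hz : z.2 < N
    · obtain ⟨ξ, hξ, -⟩ := exists_dual h.ind x
      obtain ⟨η, hη, -⟩ := exists_dual h.ind z
      have h1 := congrArg (TensorProduct.lid k k ∘ TensorProduct.map ξ η)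
        (h.sym α β (Yx F y x') (Yx F y z'))
      simp only [Function.comp_apply, map_sum, TensorProduct.map_tmul, TensorProduct.lid_tmul,
        smul_eq_mul] at h1
      have e : ∀ (C : ι × ℕ → k) (w : ι × ℕ) (ζ : V →ₗ[k] k),
          (∀ z, ζ (Yx F y z) = if z = w then 1 else 0) → w.2 < N →
          ζ (∑ z ∈ XN ι N, C z • Yx F y z) = C w := by
        intro C w ζ hζ hw
        rw [map_sum, Finset.sum_eq_single_of_mem w (mem_XN.2 hw)]
        · rw [map_smul, hζ, if_pos rfl, smul_eq_mul, mul_one]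
        · intro z _ hz
          rw [map_smul, hζ, if_neg hz, smul_zero]
      have h2 : ∀ s, ξ (al α β s (Yx F y x')) * η (be α β s (Yx F y z')) =
          Aa α β s x' x * Bb α β s z' z := by
        intro s
        rw [h.alY α β s x' hx', h.beY α β s z' hz', e _ x ξ hξ hx, e _ z η hη hz]
      have h3 : ∀ s, ξ (be α β s (Yx F y x')) * η (al α β s (Yx F y z')) =
          Bb α β s x' x * Aa α β s z' z := by
        intro s
        rw [h.alY α β s z' hz', h.beY α β s x' hx', e _ x ξ hξ hx, e _ z η hη hz]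
      rwa [Finset.sum_congr rfl fun s _ => h2 s, Finset.sum_congr rfl fun s _ => h3 s] at h1
    · have h1 : ∀ s, Aa α β s x' x * Bb α β s z' z = 0 := fun s => by
        rw [h.Bbig α β s z' z (not_lt.1 hz), mul_zero]
      have h2 : ∀ s, Bb α β s x' x * Aa α β s z' z = 0 := fun s => by
        rw [h.Abig α β s z' z (not_lt.1 hz), mul_zero]
      rw [Finset.sum_congr rfl fun s _ => h1 s, Finset.sum_congr rfl fun s _ => h2 s]
  · have h1 : ∀ s, Aa α β s x' x * Bb α β s z' z = 0 := fun s => by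
      rw [h.Abig α β s x' x (not_lt.1 hx), zero_mul]
    have h2 : ∀ s, Bb α β s x' x * Aa α β s z' z = 0 := fun s => by
      rw [h.Bbig α β s x' x (not_lt.1 hx), zero_mul]
    rw [Finset.sum_congr rfl fun s _ => h1 s, Finset.sum_congr rfl fun s _ => h2 s]

/-- `Φ ρ` is antisymmetric -/
theorem RrT_anti (α : κ) (x z : ι × ℕ) :
    RrT N₀ lam Aa Bb ρ α z x = -RrT N₀ lam Aa Bb ρ α x z := by
  classical
  rw [RrT, RrT, ← Finset.sum_neg_distrib]
  refine Finset.sum_congr rfl fun β _ => ?_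
  rw [neg_add, h.anti β x z]
  congr 1
  · ring
  · have h1 : ∀ x z, ∑ s, ∑ x' ∈ XN ι N₀, ∑ z' ∈ XN ι N₀,
          ρ β x' z' * (Aa α β s x' x * Bb α β s z' z) =
        ∑ x' ∈ XN ι N₀, ∑ z' ∈ XN ι N₀, ρ β x' z' * ∑ s, Aa α β s x' x * Bb α β s z' z := by
      intro x z
      rw [Finset.sum_comm]
      refine Finset.sum_congr rfl fun x' _ => ?_
      rw [Finset.sum_comm]
      refine Finset.sum_congr rfl fun z' _ => ?_
      rw [Finset.mul_sum]
    rw [h1, h1, Finset.sum_comm, ← Finset.sum_neg_distrib]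
    refine Finset.sum_congr rfl fun x' hx' => ?_
    rw [← Finset.sum_neg_distrib]
    refine Finset.sum_congr rfl fun z' hz' => ?_
    rw [h.anti β x' z', h.symAB α β (mem_XN.1 hz') (mem_XN.1 hx') z x]
    have h2 : ∑ s, Bb α β s z' z * Aa α β s x' x = ∑ s, Aa α β s x' x * Bb α β s z' z :=
      Finset.sum_congr rfl fun s _ => mul_comm _ _
    rw [h2]
    ring

omit [RingHomSurjective σ] in
/-- the coproduct on the alternating terms -/
theorem dl_alt (α β : κ) {x : ι × ℕ} (hx : x.2 < N₀) (w : V) :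
    dl (al α β) (be α β) (alt (Yx F y x) w) =
      ∑ s, alt (∑ z ∈ XN ι N, Aa α β s x z • Yx F y z) (be α β s w) := by
  rw [alt, map_sub, dl_tmul, dl_tmul, h.sym α β w, ← Finset.sum_sub_distrib]
  refine Finset.sum_congr rfl fun s _ => ?_
  rw [h.alY α β s x hx, alt]

/-- the operator on the tensor of the unknown `β` -/
theorem dl_t1 (α β : κ) : dl (al α β) (be α β) (t1 F y N (m β) (ρ β)) =
    (∑ x ∈ XN ι N, alt (Yx F y x) (∑ s, be α β s (∑ z ∈ XN ι N₀, Aa α β s z x • m β z))) +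
    ∑ x ∈ XN ι N, ∑ z ∈ XN ι N, (∑ s, ∑ x' ∈ XN ι N₀, ∑ z' ∈ XN ι N₀,
      ρ β x' z' * (Aa α β s x' x * Bb α β s z' z)) • (Yx F y x ⊗ₜ[k] Yx F y z) := by
  classical
  have hsub : XN ι N₀ ⊆ XN ι N := fun x hx => mem_XN.2 ((mem_XN.1 hx).trans_le h.le)
  rw [t1, map_add, map_sum, map_sum]
  congr 1
  · have e1 : ∑ x ∈ XN ι N, dl (al α β) (be α β) (alt (Yx F y x) (m β x)) =
        ∑ x ∈ XN ι N₀, dl (al α β) (be α β) (alt (Yx F y x) (m β x)) := by
      refine (Finset.sum_subset hsub fun x _ hx => ?_).symm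
      rw [h.mbig β x (not_lt.1 fun h1 => hx (mem_XN.2 h1)), alt_zero, map_zero]
    rw [e1]
    have e2 : ∀ x ∈ XN ι N₀, dl (al α β) (be α β) (alt (Yx F y x) (m β x)) =
        ∑ z ∈ XN ι N, ∑ s, Aa α β s x z • alt (Yx F y z) (be α β s (m β x)) := by
      intro x hx
      rw [h.dl_alt α β (mem_XN.1 hx), Finset.sum_comm]
      refine Finset.sum_congr rfl fun s _ => ?_
      rw [alt_swap, alt_sum, ← Finset.sum_neg_distrib]
      refine Finset.sum_congr rfl fun z _ => ?_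
      rw [alt_smul, alt_swap (be α β s (m β x)), smul_neg, neg_neg]
    rw [Finset.sum_congr rfl e2, Finset.sum_comm]
    refine Finset.sum_congr rfl fun z _ => ?_
    rw [Finset.sum_comm, alt_sum]
    refine Finset.sum_congr rfl fun s _ => ?_
    rw [map_sum, alt_sum]
    exact Finset.sum_congr rfl fun x _ => by rw [map_smul, alt_smul]
  · have e1 : ∑ x ∈ XN ι N, dl (al α β) (be α β)
          (∑ z ∈ XN ι N, ρ β x z • (Yx F y x ⊗ₜ[k] Yx F y z)) =
        ∑ x ∈ XN ι N₀, ∑ z ∈ XN ι N₀, ρ β x z •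
          ∑ s, al α β s (Yx F y x) ⊗ₜ[k] be α β s (Yx F y z) := by
      refine (Finset.sum_subset hsub fun x _ hx => ?_).symm.trans ?_
      · rw [Finset.sum_eq_zero, map_zero]
        intro z _
        rw [h.ρbig β x z (not_lt.1 fun h1 => hx (mem_XN.2 h1)), zero_smul]
      refine Finset.sum_congr rfl fun x _ => ?_
      rw [map_sum]
      refine (Finset.sum_subset hsub fun z _ hz => ?_).symm.trans ?_
      · rw [h.ρbig' β x z (not_lt.1 fun h1 => hz (mem_XN.2 h1)), zero_smul, map_zero]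
      exact Finset.sum_congr rfl fun z _ => by rw [map_smul, dl_tmul]
    rw [e1]
    have e2 : ∀ x' ∈ XN ι N₀, ∀ z' ∈ XN ι N₀, ρ β x' z' •
          ∑ s, al α β s (Yx F y x') ⊗ₜ[k] be α β s (Yx F y z') =
        ∑ x ∈ XN ι N, ∑ z ∈ XN ι N, (∑ s, ρ β x' z' * (Aa α β s x' x * Bb α β s z' z)) •
          (Yx F y x ⊗ₜ[k] Yx F y z) := by
      intro x' hx' z' hz'
      have e3 : ∀ s, al α β s (Yx F y x') ⊗ₜ[k] be α β s (Yx F y z') =
          ∑ x ∈ XN ι N, ∑ z ∈ XN ι N, (Aa α β s x' x * Bb α β s z' z) •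
            (Yx F y x ⊗ₜ[k] Yx F y z) := by
        intro s
        rw [h.alY α β s x' (mem_XN.1 hx'), h.beY α β s z' (mem_XN.1 hz'),
          TensorProduct.sum_tmul]
        refine Finset.sum_congr rfl fun x _ => ?_
        rw [TensorProduct.tmul_sum]
        refine Finset.sum_congr rfl fun z _ => ?_
        exact TensorProduct.smul_tmul_smul _ _ _ _
      rw [Finset.smul_sum, Finset.sum_congr rfl fun s _ => by rw [e3 s, Finset.smul_sum],
        Finset.sum_comm]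
      refine Finset.sum_congr rfl fun x _ => ?_
      rw [Finset.sum_congr rfl fun s _ => Finset.smul_sum, Finset.sum_comm]
      refine Finset.sum_congr rfl fun z _ => ?_
      rw [Finset.sum_smul]
      exact Finset.sum_congr rfl fun s _ => smul_smul _ _ _
    rw [Finset.sum_congr rfl fun x' hx' => Finset.sum_congr rfl fun z' hz' => e2 x' hx' z' hz']
    have e3 : ∀ x' ∈ XN ι N₀, ∑ z' ∈ XN ι N₀, ∑ x ∈ XN ι N, ∑ z ∈ XN ι N,
          (∑ s, ρ β x' z' * (Aa α β s x' x * Bb α β s z' z)) • (Yx F y x ⊗ₜ[k] Yx F y z) =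
        ∑ x ∈ XN ι N, ∑ z ∈ XN ι N, ∑ z' ∈ XN ι N₀,
          (∑ s, ρ β x' z' * (Aa α β s x' x * Bb α β s z' z)) •
            (Yx F y x ⊗ₜ[k] Yx F y z) := by
      intro x' _
      rw [Finset.sum_comm]
      exact Finset.sum_congr rfl fun x _ => Finset.sum_comm
    rw [Finset.sum_congr rfl e3, Finset.sum_comm]
    refine Finset.sum_congr rfl fun x _ => ?_
    rw [Finset.sum_comm]
    refine Finset.sum_congr rfl fun z _ => ?_
    have e4 : ∑ s, ∑ x' ∈ XN ι N₀, ∑ z' ∈ XN ι N₀,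
          ρ β x' z' * (Aa α β s x' x * Bb α β s z' z) =
        ∑ x' ∈ XN ι N₀, ∑ z' ∈ XN ι N₀, ∑ s,
          ρ β x' z' * (Aa α β s x' x * Bb α β s z' z) := by
      rw [Finset.sum_comm]
      exact Finset.sum_congr rfl fun x' _ => Finset.sum_comm
    rw [e4, Finset.sum_smul]
    exact Finset.sum_congr rfl fun x' _ => by rw [Finset.sum_smul]

/-- `(F ⊗ F) t_α = Φ t_α` -/
theorem FF_t1 (α : κ) : FF F (t1 F y N (m α) (ρ α)) =
    ∑ β, (lam α β • t1 F y N (m β) (ρ β) +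
      dl (al α β) (be α β) (t1 F y N (m β) (ρ β))) := by
  classical
  have hR : ∀ a, RmT N₀ lam be Aa m α (a, N) = 0 := by
    intro a
    rw [RmT]
    refine Finset.sum_eq_zero fun β _ => ?_
    rw [h.mbig β (a, N) h.le, smul_zero, zero_add]
    refine Finset.sum_eq_zero fun s _ => ?_
    have e : ∑ z ∈ XN ι N₀, Aa α β s z (a, N) • m β z = 0 := Finset.sum_eq_zero fun z _ => by
      rw [h.Abig α β s z (a, N) le_rfl, zero_smul]
    rw [e, map_zero]
  have hR' : ∀ x z, N ≤ x.2 → RrT N₀ lam Aa Bb ρ α x z = 0 := by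
    intro x z hx
    rw [RrT]
    refine Finset.sum_eq_zero fun β _ => ?_
    rw [h.ρbig β x z (h.le.trans hx), mul_zero, zero_add]
    refine Finset.sum_eq_zero fun s _ => Finset.sum_eq_zero fun x' _ =>
      Finset.sum_eq_zero fun z' _ => ?_
    rw [h.Abig α β s x' x hx, zero_mul, mul_zero]
  rw [lhs_tt hR hR' (fun x z => h.RrT_anti α x z) (h.Sbig α) (h.Sbig' α) (h.rel α) (h.rel0 α)
    (h.rho α) (h.rho0 α)]
  have e2 : ∀ β, lam α β • t1 F y N (m β) (ρ β) +
        dl (al α β) (be α β) (t1 F y N (m β) (ρ β)) =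
      (∑ x ∈ XN ι N, alt (Yx F y x) (lam α β • m β x +
        ∑ s, be α β s (∑ z ∈ XN ι N₀, Aa α β s z x • m β z))) +
      ∑ x ∈ XN ι N, ∑ z ∈ XN ι N, (lam α β * ρ β x z +
        ∑ s, ∑ x' ∈ XN ι N₀, ∑ z' ∈ XN ι N₀,
          ρ β x' z' * (Aa α β s x' x * Bb α β s z' z)) • (Yx F y x ⊗ₜ[k] Yx F y z) := by
    intro β
    rw [h.dl_t1 α β, t1, smul_add, Finset.smul_sum, Finset.smul_sum, add_add_add_comm,
      ← Finset.sum_add_distrib, ← Finset.sum_add_distrib]
    congr 1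
    · exact Finset.sum_congr rfl fun x _ => by rw [alt_add, alt_smul]
    · refine Finset.sum_congr rfl fun x _ => ?_
      rw [Finset.smul_sum, ← Finset.sum_add_distrib]
      exact Finset.sum_congr rfl fun z _ => by rw [smul_smul, add_smul]
  rw [Finset.sum_congr rfl fun β _ => e2 β, Finset.sum_add_distrib]
  congr 1
  · rw [Finset.sum_comm]
    refine Finset.sum_congr rfl fun x _ => ?_
    rw [RmT, alt_sum]
  · symm
    rw [Finset.sum_comm]
    refine Finset.sum_congr rfl fun x _ => ?_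
    rw [Finset.sum_comm]
    refine Finset.sum_congr rfl fun z _ => ?_
    rw [RrT, Finset.sum_smul]

/-- **The tensor core, letters moved by the operators.** -/
theorem main (hF : Function.Injective F) (hN : Nsd1 O) : ∃ g : κ → ι × ℕ → ι × ℕ → k,
    (∀ α x z, N ≤ x.2 ∨ N ≤ z.2 → g α x z = 0) ∧
    (∀ α x, m α x = ∑ z ∈ XN ι N, g α x z • Yx F y z) ∧
    ∀ α x z, g α x z - g α z x + ρ α x z = 0 := by
  have h1 : ∀ α, ∃ g : ι × ℕ → ι × ℕ → k, (∀ x z, N ≤ x.2 ∨ N ≤ z.2 → g x z = 0) ∧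
      (∀ x, m α x = ∑ z ∈ XN ι N, g x z • Yx F y z) ∧ ∀ x z, g x z - g z x + ρ α x z = 0 :=
    fun α => main_tt h.ind (fun x hx => h.mbig α x (h.le.trans hx))
      (fun x z hx => h.ρbig α x z (h.le.trans hx)) (h.anti α)
      (hN.tensorsD hF (fun α => t1 F y N (m α) (ρ α)) lam al be h.alO h.FF_t1 α)
  choose g hg using h1
  exact ⟨g, fun α => (hg α).1, fun α => (hg α).2.1, fun α => (hg α).2.2⟩

end CorT

end Pool.Agent.TWHT
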