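import Pool.Agent.Lib.TWC.TightA
import Pool.Agent.Lib.TWHT.N7g

/-!
# TANK W, leaf (Ht): no ties over the perfect base

* `ge_of_add`: `P(F) δ` integral, `P ≠ 0` over `k`, implies `δ` integral;
* `Tow.tf`: the floors have no torsion over `k{F}`;
* `NX.cls_op`: the classes of the values of an operator;
* `sat_of_sys`: the classes of the solutions of a system are torsion;
* **`nt_of_nsd`**: the solutions of a system over `E`, limits of `E` in a tower over `E`, are in
  `E + O`.
-/

set_option autoImplicit false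
set_option linter.unusedSectionVars false

open Polynomial

namespace Pool.Agent.TWHT

open Pool.Agent.H15JM (RVal)
open Pool.Agent.D2 (Ctx0)
open Pool.Agent.D2P (mem_clI)
open Pool.Agent.TWM
open Pool.Agent.TWC (Nul Cau Opr fn MM CauS cls Oper NSD Tow Sat act mem_act)
open Pool.Agent.TWIV

universe u

variable {k H : Type u} [Field k] [Field H] [Algebra k H] {v : RVal H} {p : ℕ} [hp : Fact p.Prime]
  [CharP k p] [PerfectRing k p] [CharP H p] [IsAlgClosed H]
  [hk : Fact (Ctx0 k v)] {L C E B LE : IntermediateField k H}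
  {T₀ : Submodule k (Opr v E)} {𝒜 : Submodule k (Module.End k H)}

omit [CharP k p] [PerfectRing k p] [CharP H p] [IsAlgClosed H] in
/-- A value of an additive polynomial over `k` is integral only at the integral elements. -/
theorem ge_of_add {c : ℕ → k} {δ : H} : ∀ {n : ℕ},
    v.Ge 0 (∑ i ∈ Finset.range n, algebraMap k H (c i) * δ ^ p ^ i) → (∃ i < n, c i ≠ 0) →
    v.Ge 0 δ := by
  intro n
  induction n with
  | zero =>
    rintro - ⟨i, hi, -⟩
    exact absurd hi (Nat.not_lt_zero i)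
  | succ n ih =>
    rintro h1 ⟨i, hi, h2⟩
    by_cases hn : c n = 0
    · refine ih ?_ ?_
      · rwa [Finset.sum_range_succ, hn, map_zero, zero_mul, add_zero] at h1
      · refine ⟨i, ?_, h2⟩
        rcases Nat.lt_succ_iff_lt_or_eq.1 hi with h3 | h3
        · exact h3
        · exact absurd (h3 ▸ hn) h2
    · intro h0
      by_contra h3
      rw [not_le] at h3
      have hp1 : (1 : ℝ) < p := by exact_mod_cast hp.out.one_lt
      have hvp : ∀ i : ℕ, v (δ ^ p ^ i) = (p : ℝ) ^ i * v δ := fun i => by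
        rw [v.map_pow h0]
        push_cast
        ring
      -- the leading term
      have h4 : v.Ge 0 (algebraMap k H (c n)⁻¹ * ∑ i ∈ Finset.range (n + 1),
          algebraMap k H (c i) * δ ^ p ^ i) := by
        have := (hk.out.ge (c n)⁻¹).mul h1
        rwa [add_zero] at this
      rw [Finset.sum_range_succ, mul_add, ← mul_assoc, ← map_mul, inv_mul_cancel₀ hn, map_one,
        one_mul] at h4
      rcases Nat.eq_zero_or_pos n with hn0 | hn0
      · subst hn0
        rw [Finset.sum_range_zero, mul_zero, zero_add, pow_zero, pow_one] at h4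
        exact absurd (h4 h0) (not_le.2 h3)
      · obtain ⟨m, rfl⟩ : ∃ m, n = m + 1 := ⟨n - 1, by omega⟩
        have h5 : v.Ge ((p : ℝ) ^ m * v δ) (∑ i ∈ Finset.range (m + 1),
            algebraMap k H (c i) * δ ^ p ^ i) := by
          refine RVal.Ge.sum _ _ fun i hi => ?_
          have h6 : v.Ge ((p : ℝ) ^ i * v δ) (δ ^ p ^ i) := fun _ => (hvp i).ge
          have h7 := (hk.out.ge (c i)).mul h6
          rw [zero_add] at h7
          refine h7.mono ?_
          have h8 : (p : ℝ) ^ i ≤ (p : ℝ) ^ m :=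
            pow_le_pow_right₀ hp1.le (Nat.lt_succ_iff.1 (Finset.mem_range.1 hi))
          nlinarith
        have h6 : v.Ge ((p : ℝ) ^ m * v δ) (algebraMap k H (c (m + 1))⁻¹ *
            ∑ i ∈ Finset.range (m + 1), algebraMap k H (c i) * δ ^ p ^ i) := by
          have := (hk.out.ge (c (m + 1))⁻¹).mul h5
          rwa [zero_add] at this
        have hpm : (0 : ℝ) < (p : ℝ) ^ m := by positivity
        have h7 : v.Ge ((p : ℝ) ^ m * v δ) (δ ^ p ^ (m + 1)) := by
          have h8 := (h4.mono (by nlinarith : (p : ℝ) ^ m * v δ ≤ 0)).sub h6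
          rwa [add_sub_cancel_left] at h8
        have h8 := h7 (pow_ne_zero _ h0)
        rw [hvp, pow_succ] at h8
        have h9 : ((p : ℝ) - 1) * ((p : ℝ) ^ m * v δ) < 0 :=
          mul_neg_of_pos_of_neg (by linarith) (mul_neg_of_pos_of_neg hpm h3)
        linarith

section Tf

omit [PerfectRing k p] [CharP k p]

/-- An algebraic element with a given value of an additive polynomial. -/
theorem exists_add_root {c : ℕ → k} {n : ℕ} (hc : ∃ i < n, c i ≠ 0) {b : H} (hb : b ∈ B) :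
    ∃ β ∈ TWM.algc B, ∑ i ∈ Finset.range n, algebraMap k H (c i) * β ^ p ^ i = b := by
  classical
  obtain ⟨i0, hi0, h0⟩ := hc
  set q : Polynomial B := (∑ i ∈ Finset.range n, Polynomial.C (algebraMap k B (c i)) *
    Polynomial.X ^ p ^ i) - Polynomial.C ⟨b, hb⟩ with hq
  have hinj : Function.Injective fun i : ℕ => p ^ i := Nat.pow_right_injective hp.out.two_le
  have hcoef : q.coeff (p ^ i0) = algebraMap k B (c i0) := by
    rw [hq, coeff_sub, finsetSum_coeff, coeff_C,
      if_neg (Nat.pow_pos hp.out.pos).ne', sub_zero, Finset.sum_eq_single_of_mem i0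
        (Finset.mem_range.2 hi0)]
    · rw [coeff_C_mul, coeff_X_pow, if_pos rfl, mul_one]
    · intro j _ hj
      rw [coeff_C_mul, coeff_X_pow, if_neg (fun h => hj (hinj h.symm)), mul_zero]
  have hcne : q.coeff (p ^ i0) ≠ 0 := by
    rw [hcoef]
    exact fun h => h0 ((map_eq_zero _).1 h)
  have hq0 : q ≠ 0 := fun h => hcne (by rw [h, coeff_zero])
  have hdeg : (q.map (algebraMap B H)).degree ≠ 0 := by
    rw [degree_map]
    intro h
    have h1 : q.natDegree = 0 := natDegree_eq_zero_iff_degree_le_zero.2 h.le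
    have h2 := le_natDegree_of_ne_zero hcne
    have h3 : 0 < p ^ i0 := Nat.pow_pos hp.out.pos
    omega
  obtain ⟨β, hβ⟩ := IsAlgClosed.exists_root (q.map (algebraMap B H)) hdeg
  have h1 : aeval β q = 0 := by
    rw [← hβ.eq_zero, IsRoot.def] at *
    rw [aeval_def, eval_map]
  refine ⟨β, mem_algc.2 ⟨q, hq0, h1⟩, ?_⟩
  rw [hq, map_sub, aeval_C, map_sum] at h1
  have h2 : ∀ i ∈ Finset.range n, aeval β (Polynomial.C (algebraMap k B (c i)) *
      Polynomial.X ^ p ^ i) = algebraMap k H (c i) * β ^ p ^ i := fun i _ => by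
    rw [map_mul, aeval_C, map_pow, aeval_X]
    rfl
  rw [Finset.sum_congr rfl h2, sub_eq_zero] at h1
  exact h1

/-- **The floors have no torsion over `k{F}`.** -/
theorem Tow.tf {m : ℕ} (hT : Tow v m B LE) {Y : H} (hY : Y ∈ LE) {c : ℕ → k} {n : ℕ}
    (hc : ∃ i < n, c i ≠ 0)
    (hr : Nr v B 0 (∑ i ∈ Finset.range n, algebraMap k H (c i) * Y ^ p ^ i)) :
    Nr v B 0 Y := by
  obtain ⟨b, hb, h1⟩ := hr
  obtain ⟨β, hβa, hβ⟩ := exists_add_root (p := p) hc hb
  have h2 : v.Ge 0 (Y - β) := by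
    refine ge_of_add (p := p) (c := c) (n := n) ?_ hc
    rw [← hβ, ← Finset.sum_sub_distrib] at h1
    refine (congrArg (v.Ge 0) ?_).mp h1
    refine Finset.sum_congr rfl fun i _ => ?_
    rw [sub_pow_char_pow]
    ring
  obtain ⟨a, ha, h3⟩ := TWC.Tow.dist_alg hT hβa hY (b := 0) (by
    rw [show β - Y = -(Y - β) by ring]
    exact h2.neg)
  refine ⟨a, ha, ?_⟩
  rw [show Y - a = (Y - β) + (β - a) by ring]
  exact h2.add h3

end Tf

/-- **The class of the value of an operator.** -/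
theorem NX.cls_op (hX : NX v L E T₀ 𝒜) {φ : Module.End k H} (hφ : φ ∈ 𝒜) {lam : k}
    {ψ : Opr v E} (h : ∀ x ∈ E, φ x = algebraMap k H lam * x + fn ψ x) {x : H}
    (hx : Lim v E 0 x) :
    Lim v E 0 (φ x) ∧ cls v E (φ x) = lam • cls v E x + MM.act ψ (cls v E x) := by
  obtain ⟨s, hs, h1⟩ := TWC.exists_cls hx
  have hc : Cau v E fun n => φ ((s : ℕ → H) n) :=
    ⟨fun n => hX.memE hφ (s.2.mem n), fun ε hε => by
      obtain ⟨N, hN⟩ := s.2.cau ε hε
      exact ⟨N, fun a b ha hb => by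
        rw [← map_sub]
        exact hX.ge φ hφ _ _ (hN a b ha hb)⟩⟩
  have h2 : Nul v fun n => φ x - φ ((s : ℕ → H) n) := by
    intro ε hε
    obtain ⟨N, hN⟩ := hs ε hε
    exact ⟨N, fun n hn => by
      change v.Ge (-ε) (φ x - φ ((s : ℕ → H) n))
      rw [← map_sub]
      exact hX.ge φ hφ _ _ (hN n hn)⟩
  refine ⟨TWC.Lim.of_nul hc.mem h2, ?_⟩
  rw [h1, ← mk_phi h s hc]
  exact TWC.cls_eq (m := ⟨fun n => φ ((s : ℕ → H) n), hc⟩) h2

/-- **The classes of the solutions of a system are torsion.** -/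
theorem sat_of_sys (hX : NX v L E T₀ 𝒜) (h : Oper p v C E T₀) (hV : NSD p h) {κ : Type*}
    [Fintype κ] {X f : κ → H} {φ : κ → κ → Module.End k H} (hφ : ∀ l l', φ l l' ∈ 𝒜)
    (hXl : ∀ l, Lim v E 0 (X l)) (hf : ∀ l, f l ∈ E)
    (hR : ∀ l, v.Ge 0 (X l ^ p - (∑ j, φ l j (X j)) - f l)) (l : κ) :
    cls v E (X l) ∈ Sat (MM.fr p v E) ⊥ := by
  classical
  choose lam ψ hψ hlam using fun i j => hX.rep (φ i j) (hφ i j)
  set Y : Submodule k (MM v E) := Submodule.span k (Set.range fun l => cls v E (X l)) with hY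
  have hm : ∀ l, cls v E (X l) ∈ Y := fun l => Submodule.subset_span ⟨l, rfl⟩
  -- the relation of the classes
  have hlim : ∀ l, Lim v E 0 (∑ j, φ l j (X j)) ∧
      cls v E (∑ j, φ l j (X j)) = ∑ j, (lam l j • cls v E (X j) +
        MM.act (ψ l j) (cls v E (X j))) := by
    intro l
    have key : ∀ S : Finset κ, Lim v E 0 (∑ j ∈ S, φ l j (X j)) ∧
        cls v E (∑ j ∈ S, φ l j (X j)) = ∑ j ∈ S, (lam l j • cls v E (X j) +
          MM.act (ψ l j) (cls v E (X j))) := by
      intro S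
      induction S using Finset.induction_on with
      | empty =>
        rw [Finset.sum_empty, Finset.sum_empty]
        exact ⟨TWC.Lim.of_mem (zero_mem E),
          TWC.cls_of_nr ⟨0, zero_mem E, by rw [sub_self]; exact RVal.Ge.zero⟩⟩
      | insert j S hj ih =>
        have h1 := hX.cls_op (hφ l j) (hlam l j) (hXl j)
        rw [Finset.sum_insert hj, Finset.sum_insert hj]
        exact ⟨TWC.Lim.add h1.1 ih.1, by rw [TWC.cls_add h1.1 ih.1, h1.2, ih.2]⟩
    exact key Finset.univ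
  have hrel : ∀ l, MM.fr p v E (cls v E (X l)) = ∑ j, (lam l j • cls v E (X j) +
      MM.act (ψ l j) (cls v E (X j))) := by
    intro l
    rw [← (hlim l).2, ← TWC.cls_pow p (hXl l)]
    refine TWC.cls_congr (TWC.Lim.pow p (hXl l)) (hlim l).1 ⟨f l, hf l, hR l⟩
  have h1 : Y ≤ Sat (MM.fr p v E) ⊥ := by
    refine nsd1_of_nsd h hV Y (Submodule.fg_span (Set.finite_range _)) ?_
    have h2 : Y ≤ (Y ⊔ act (h.ops p) Y).comap (MM.fr p v E) := by
      rw [hY, Submodule.span_le, ← hY]
      rintro _ ⟨l, rfl⟩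
      change MM.fr p v E (cls v E (X l)) ∈ Y ⊔ act (h.ops p) Y
      rw [hrel l]
      refine sum_mem fun j _ => add_mem (Submodule.mem_sup_left (Y.smul_mem _ (hm j)))
        (Submodule.mem_sup_right (mem_act (O := h.ops p) ⟨ψ l j, hψ l j, rfl⟩ (hm j)))
    exact fun x hx => h2 hx
  exact h1 (hm l)

/-- **No ties over the perfect base.** -/
theorem nt_of_nsd (hX : NX v L E T₀ 𝒜) (h : Oper p v C E T₀) (hV : NSD p h) {m : ℕ}
    (hT : Tow v m E LE) {κ : Type*} [Fintype κ] {X f : κ → H} {φ : κ → κ → Module.End k H}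
    (hφ : ∀ l l', φ l l' ∈ 𝒜) (hXL : ∀ l, X l ∈ LE) (hXl : ∀ l, Lim v E 0 (X l))
    (hf : ∀ l, f l ∈ E) (hR : ∀ l, v.Ge 0 (X l ^ p - (∑ j, φ l j (X j)) - f l)) (l : κ) :
    Nr v E 0 (X l) := by
  obtain ⟨n, c, h1, hc⟩ := exists_rel (sat_of_sys hX h hV hφ hXl hf hR l)
  have h2 := TWC.cls_poly p (hXl l) n c
  rw [← h2.2] at h1
  exact Tow.tf hT (hXL l) hc ((TWC.cls_eq_zero h2.1).1 h1)

end Pool.Agent.TWHT
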