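import Pool.Agent.Lib.TWC.SD

/-!
# TANK W, leaf (Ht): NSD from the conjugates of the operators

`G` a module over `k{F}`, `Φ i j` the conjugates `F^j φ_i F^(-j)` of generators `φ_i = Φ i 0` of the
operators: `F Φ_(i,j) = Φ_(i,j+1) F`. On a stable subspace `W` the `Φ i j` commute, are nilpotent,
and for each `i` they span a finite dimensional space (`Cjg`).

* `clo Φ S Y`: the smallest subspace which contains `Y` and is stable under `Φ i j`, `i ∈ S`;
* `Cjg.clo_fg`: it is finite dimensional;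
* **`Cjg.nsd`**: `Y` finite dimensional with `F^b Y ⊆ ∑_(a < b) F^a (Y + A Y)` is torsion.
-/

set_option autoImplicit false

namespace Pool.Agent.TWHT

open Module Submodule
open Pool.Agent.TWC

universe u w

variable {k : Type u} {G : Type w} [Field k] [AddCommGroup G] [Module k G]
variable {σ : k →+* k} [RingHomSurjective σ] {F : G →ₛₗ[σ] G} {S Y Z W : Submodule k G}

/-! ### Dominated spaces -/

theorem V_succ_le (b : ℕ) : V F S (b + 1) ≤ V F S b ⊔ span k {z | ∃ x ∈ S, F^[b] x = z} := by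
  induction b with
  | zero =>
    rw [V_succ, V_zero, Submodule.map_bot, sup_bot_eq, bot_sup_eq]
    exact fun x hx => Submodule.subset_span ⟨x, hx, rfl⟩
  | succ b ih =>
    rw [V_succ]
    refine sup_le (le_sup_left.trans' (le_V b)) ?_
    refine (Submodule.map_mono ih).trans ?_
    rw [Submodule.map_sup]
    refine sup_le_sup (map_V_le b) ?_
    rw [Submodule.map_le_iff_le_comap, Submodule.span_le]
    rintro _ ⟨x, hx, rfl⟩
    exact Submodule.subset_span ⟨x, hx, Function.iterate_succ_apply' F b x⟩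

/-- A finite dimensional `Z` with `F^b Z ⊆ ∑_(a < b) F^a Z` is torsion. -/
theorem le_Sat_of_dom (hZ : Z.FG) {b : ℕ} (h : ∀ z ∈ Z, F^[b] z ∈ V F Z b) : Z ≤ Sat F ⊥ := by
  have h1 : (V F Z b).map F ≤ V F Z b := by
    refine (map_V_le b).trans ((V_succ_le b).trans (sup_le le_rfl ?_))
    rw [Submodule.span_le]
    rintro _ ⟨x, hx, rfl⟩
    exact h x hx
  have h2 : V F Z b ≤ Sat F ⊥ := le_Sat_of_map_le (V_fg hZ b) (h1.trans le_sup_left)
  rcases b with _ | b
  · intro z hz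
    have h3 := h z hz
    rw [V_zero, Function.iterate_zero, id_eq, Submodule.mem_bot] at h3
    rw [h3]
    exact zero_mem _
  · exact (le_V b).trans h2

variable {ι : Type*} {Φ : ι → ℕ → G →ₗ[k] G} {I J : Finset ι}

/-! ### The closure -/

/-- Stable under the `Φ i j`, `i ∈ I`. -/
def Stb (Φ : ι → ℕ → G →ₗ[k] G) (I : Finset ι) (Z : Submodule k G) : Prop :=
  ∀ i ∈ I, ∀ j, ∀ z ∈ Z, Φ i j z ∈ Z

/-- The smallest stable subspace which contains `Y`. -/
def clo (Φ : ι → ℕ → G →ₗ[k] G) (I : Finset ι) (Y : Submodule k G) : Submodule k G :=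
  sInf {Z | Y ≤ Z ∧ Stb Φ I Z}

theorem le_clo : Y ≤ clo Φ I Y := le_sInf fun _ hZ => hZ.1

theorem clo_stb : Stb Φ I (clo Φ I Y) := by
  intro i hi j z hz
  rw [clo, Submodule.mem_sInf] at hz ⊢
  exact fun Z hZ => hZ.2 i hi j z (hz Z hZ)

theorem clo_le (hY : Y ≤ Z) (hZ : Stb Φ I Z) : clo Φ I Y ≤ Z := sInf_le ⟨hY, hZ⟩

theorem clo_mono (h : I ⊆ J) : clo Φ I Y ≤ clo Φ J Y :=
  clo_le le_clo fun i hi j z hz => clo_stb i (h hi) j z hz

/-- The conjugates of the generators of the operators. -/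
structure Cjg (F : G →ₛₗ[σ] G) (Φ : ι → ℕ → G →ₗ[k] G) (W : Submodule k G) : Prop where
  cj : ∀ i j x, F (Φ i j x) = Φ i (j + 1) (F x)
  stb : ∀ i j, ∀ x ∈ W, Φ i j x ∈ W
  comm : ∀ i j i' j', ∀ x ∈ W, Φ i j (Φ i' j' x) = Φ i' j' (Φ i j x)
  nil : ∀ i j, ∃ n : ℕ, ∀ x ∈ W, (Φ i j ^ n) x = 0
  fin : ∀ i, ∃ d : ℕ, ∀ j, ∀ x ∈ W, Φ i j x ∈ span k (Set.range fun c : Fin d => Φ i c x)

namespace Cjg

/-- a finite set of commuting nilpotent operators -/
theorem exists_stb (N : Finset (G →ₗ[k] G)) (hW : ∀ φ ∈ N, ∀ x ∈ W, φ x ∈ W)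
    (hc : ∀ φ ∈ N, ∀ ψ ∈ N, ∀ x ∈ W, φ (ψ x) = ψ (φ x))
    (hn : ∀ φ ∈ N, ∃ n : ℕ, ∀ x ∈ W, (φ ^ n) x = 0) (hY : Y.FG) (hYW : Y ≤ W) :
    ∃ Z : Submodule k G, Z.FG ∧ Y ≤ Z ∧ Z ≤ W ∧ ∀ φ ∈ N, ∀ z ∈ Z, φ z ∈ Z := by
  classical
  induction N using Finset.induction_on with
  | empty => exact ⟨Y, hY, le_rfl, hYW, fun φ hφ => absurd hφ (Finset.notMem_empty φ)⟩
  | insert φ N hφN ih =>
    obtain ⟨Z, hZ, hYZ, hZW, hZs⟩ := ih
      (fun ψ hψ => hW ψ (Finset.mem_insert_of_mem hψ))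
      (fun ψ hψ χ hχ => hc ψ (Finset.mem_insert_of_mem hψ) χ (Finset.mem_insert_of_mem hχ))
      (fun ψ hψ => hn ψ (Finset.mem_insert_of_mem hψ))
    obtain ⟨n, hn⟩ := hn φ (Finset.mem_insert_self φ N)
    have hW' := hW φ (Finset.mem_insert_self φ N)
    have hpow : ∀ e : ℕ, ∀ x ∈ W, (φ ^ e) x ∈ W := by
      intro e
      induction e with
      | zero => exact fun x hx => by rwa [pow_zero, Module.End.one_apply]
      | succ e ihe =>
        intro x hx
        rw [pow_succ', Module.End.mul_apply]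
        exact hW' _ (ihe x hx)
    refine ⟨⨆ e ∈ Finset.range (n + 1), Z.map (φ ^ e), ?_, ?_, ?_, ?_⟩
    · exact Submodule.fg_biSup _ _ fun e _ => hZ.map _
    · refine hYZ.trans ?_
      have h1 : Z.map (φ ^ 0) ≤ ⨆ e ∈ Finset.range (n + 1), Z.map (φ ^ e) :=
        le_iSup₂ (f := fun e (_ : e ∈ Finset.range (n + 1)) => Z.map (φ ^ e)) 0
          (Finset.mem_range.2 (Nat.succ_pos n))
      rw [pow_zero] at h1
      refine le_trans ?_ h1
      intro z hz
      exact ⟨z, hz, rfl⟩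
    · refine iSup₂_le fun e _ => ?_
      rw [Submodule.map_le_iff_le_comap]
      exact fun z hz => hpow e z (hZW hz)
    · have key : ∀ ψ : G →ₗ[k] G, (∀ e < n + 1, ∀ z ∈ Z, ψ ((φ ^ e) z) ∈
          ⨆ e ∈ Finset.range (n + 1), Z.map (φ ^ e)) → ∀ z ∈ ⨆ e ∈ Finset.range (n + 1),
          Z.map (φ ^ e), ψ z ∈ ⨆ e ∈ Finset.range (n + 1), Z.map (φ ^ e) := by
        intro ψ h1
        have h2 : (⨆ e ∈ Finset.range (n + 1), Z.map (φ ^ e)) ≤
            (⨆ e ∈ Finset.range (n + 1), Z.map (φ ^ e)).comap ψ := by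
          refine iSup₂_le fun e he => ?_
          rintro _ ⟨z, hz, rfl⟩
          exact Submodule.mem_comap.2 (h1 e (Finset.mem_range.1 he) z hz)
        exact fun z hz => Submodule.mem_comap.1 (h2 hz)
      have hin : ∀ e < n + 1, ∀ z ∈ Z, (φ ^ e) z ∈
          ⨆ e ∈ Finset.range (n + 1), Z.map (φ ^ e) := fun e he z hz =>
        (le_iSup₂ (f := fun e (_ : e ∈ Finset.range (n + 1)) => Z.map (φ ^ e)) e
          (Finset.mem_range.2 he)) ⟨z, hz, rfl⟩
      intro ψ hψ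
      rcases Finset.mem_insert.1 hψ with rfl | hψ
      · refine key ψ fun e he z hz => ?_
        rw [← Module.End.mul_apply, ← pow_succ']
        by_cases he' : e < n
        · exact hin (e + 1) (by omega) z hz
        · have h3 : (ψ ^ (e + 1)) z = 0 := by
            rw [show e + 1 = 1 + n by omega, pow_add, Module.End.mul_apply, hn z (hZW hz),
              map_zero]
          rw [h3]
          exact zero_mem _
      · refine key ψ fun e he z hz => ?_
        have h3 : ∀ e : ℕ, ∀ x ∈ W, ψ ((φ ^ e) x) = (φ ^ e) (ψ x) := by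
          intro e
          induction e with
          | zero => exact fun x _ => by rw [pow_zero, Module.End.one_apply, Module.End.one_apply]
          | succ e ihe =>
            intro x hx
            rw [pow_succ', Module.End.mul_apply, Module.End.mul_apply, ← ihe x hx]
            exact hc ψ (Finset.mem_insert_of_mem hψ) φ (Finset.mem_insert_self φ N) _
              (hpow e x hx)
        rw [h3 e z (hZW hz)]
        exact hin e he _ (hZs ψ hψ z hz)

variable (h : Cjg F Φ W)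

include h

omit [RingHomSurjective σ] in
/-- **The closure is finite dimensional.** -/
theorem clo_fg (hY : Y.FG) (hYW : Y ≤ W) : (clo Φ I Y).FG := by
  classical
  choose d hd using h.fin
  let N : Finset (G →ₗ[k] G) := I.biUnion fun i => (Finset.range (d i)).image (Φ i)
  have hN : ∀ φ ∈ N, ∃ i ∈ I, ∃ j < d i, Φ i j = φ := by
    intro φ hφ
    obtain ⟨i, hi, h1⟩ := Finset.mem_biUnion.1 hφ
    obtain ⟨j, hj, h2⟩ := Finset.mem_image.1 h1
    exact ⟨i, hi, j, Finset.mem_range.1 hj, h2⟩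
  obtain ⟨Z, hZ, hYZ, hZW, hZs⟩ := exists_stb N
    (fun φ hφ x hx => by
      obtain ⟨i, -, j, -, rfl⟩ := hN φ hφ
      exact h.stb i j x hx)
    (fun φ hφ ψ hψ x hx => by
      obtain ⟨i, -, j, -, rfl⟩ := hN φ hφ
      obtain ⟨i', -, j', -, rfl⟩ := hN ψ hψ
      exact h.comm i j i' j' x hx)
    (fun φ hφ => by
      obtain ⟨i, -, j, -, rfl⟩ := hN φ hφ
      exact h.nil i j) hY hYW
  refine Submodule.FG.of_le hZ (clo_le hYZ fun i hi j z hz => ?_)
  have h1 : span k (Set.range fun c : Fin (d i) => Φ i c z) ≤ Z := by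
    rw [Submodule.span_le]
    rintro _ ⟨c, rfl⟩
    refine hZs (Φ i c) (Finset.mem_biUnion.2 ⟨i, hi, Finset.mem_image.2
      ⟨(c : ℕ), Finset.mem_range.2 c.2, rfl⟩⟩) z hz
  exact h1 (hd i j z (hZW hz))

omit h [RingHomSurjective σ] in
/-- `F^c Φ_(i,j) = Φ_(i,j+c) F^c` -/
theorem cj_it (hcj : ∀ i j x, F (Φ i j x) = Φ i (j + 1) (F x)) (i : ι) (j c : ℕ) (x : G) :
    F^[c] (Φ i j x) = Φ i (j + c) (F^[c] x) := by
  induction c with
  | zero => rfl
  | succ c ih =>
    rw [Function.iterate_succ_apply', ih, hcj, Function.iterate_succ_apply', add_assoc]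

omit h in
/-- `Φ_(i,j+b) V_b(Z) ⊆ V_b(Z)` -/
theorem stb_V (hcj : ∀ i j x, F (Φ i j x) = Φ i (j + 1) (F x)) (hZ : Stb Φ I Z) (b : ℕ) {i : ι}
    (hi : i ∈ I) : ∀ j, b ≤ j → ∀ x ∈ V F Z b, Φ i j x ∈ V F Z b := by
  induction b with
  | zero =>
    intro j _ x hx
    rw [V_zero, Submodule.mem_bot] at hx ⊢
    rw [hx, map_zero]
  | succ b ih =>
    intro j hj x hx
    obtain ⟨j, rfl⟩ : ∃ j', j = j' + 1 := ⟨j - 1, by omega⟩
    rw [V_succ] at hx
    obtain ⟨z, hz, _, ⟨w, hw, rfl⟩, rfl⟩ := Submodule.mem_sup.1 hx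
    rw [map_add]
    refine add_mem (le_V b (hZ i hi _ z hz)) ?_
    rw [← hcj]
    exact map_V_le b (Submodule.mem_map_of_mem (ih j (by omega) w hw))

omit h in
/-- `F^b Y ⊆ V_b(clo Y)` implies `F^b (clo Y) ⊆ V_b(clo Y)` -/
theorem dom_clo (hcj : ∀ i j x, F (Φ i j x) = Φ i (j + 1) (F x)) {b : ℕ}
    (hY : ∀ y ∈ Y, F^[b] y ∈ V F (clo Φ I Y) b) :
    ∀ z ∈ clo Φ I Y, F^[b] z ∈ V F (clo Φ I Y) b := by
  let Q : Submodule k G :=
    { carrier := {z | F^[b] z ∈ V F (clo Φ I Y) b}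
      add_mem' := fun {x y} hx hy => by
        change F^[b] (x + y) ∈ V F (clo Φ I Y) b
        rw [it_add]
        exact add_mem hx hy
      zero_mem' := by
        change F^[b] (0 : G) ∈ V F (clo Φ I Y) b
        rw [it_zero]
        exact zero_mem _
      smul_mem' := fun a x hx => by
        change F^[b] (a • x) ∈ V F (clo Φ I Y) b
        rw [it_smul]
        exact Submodule.smul_mem _ _ hx }
  have h1 : clo Φ I Y ≤ Q := by
    refine clo_le (fun y hy => hY y hy) fun i hi j z hz => ?_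
    change F^[b] (Φ i j z) ∈ V F (clo Φ I Y) b
    rw [cj_it hcj]
    exact stb_V hcj clo_stb b hi (j + b) (Nat.le_add_left b j) _ hz
  exact fun z hz => h1 hz

omit h [RingHomSurjective σ] in
/-- the operators of the algebra generated by the `φ_i` -/
theorem mem_clo_of_adjoin [DecidableEq ι] {φ : G →ₗ[k] G}
    (hφ : φ ∈ Algebra.adjoin k (Set.range fun i => Φ i 0)) :
    ∀ (I : Finset ι), ∀ z ∈ clo Φ I Y, ∃ J, I ⊆ J ∧ φ z ∈ clo Φ J Y := by
  induction hφ using Algebra.adjoin_induction with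
  | mem φ hφ =>
    obtain ⟨i, rfl⟩ := hφ
    intro I z hz
    exact ⟨insert i I, Finset.subset_insert i I,
      clo_stb i (Finset.mem_insert_self i I) 0 z (clo_mono (Finset.subset_insert i I) hz)⟩
  | algebraMap a =>
    intro I z hz
    refine ⟨I, subset_rfl, ?_⟩
    rw [Module.algebraMap_end_apply]
    exact Submodule.smul_mem _ _ hz
  | add φ ψ _ _ h1 h2 =>
    intro I z hz
    obtain ⟨J, hJ, h1⟩ := h1 I z hz
    obtain ⟨J', hJ', h2⟩ := h2 I z hz
    refine ⟨J ∪ J', hJ.trans Finset.subset_union_left, ?_⟩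
    rw [LinearMap.add_apply]
    exact add_mem (clo_mono Finset.subset_union_left h1) (clo_mono Finset.subset_union_right h2)
  | mul φ ψ _ _ h1 h2 =>
    intro I z hz
    obtain ⟨J, hJ, h3⟩ := h2 I z hz
    obtain ⟨J', hJ', h4⟩ := h1 J _ h3
    exact ⟨J', hJ.trans hJ', h4⟩

variable {O : Ops F}

/-- The closures are torsion. -/
theorem clo_le_sat (hgen : ∀ φ ∈ O.A, φ ∈ Algebra.adjoin k (Set.range fun i => Φ i 0)) (hY : Y.FG)
    (hYW : Y ≤ W) {b : ℕ} (hdom : ∀ y ∈ Y, F^[b] y ∈ V F (Y ⊔ act O Y) b) :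
    ∃ J : Finset ι, ∀ J' : Finset ι, J ⊆ J' → clo Φ J' Y ≤ Sat F ⊥ := by
  classical
  -- a finite number of operators
  have hdir : Directed (· ≤ ·) fun I : Finset ι => clo Φ I Y := fun I J =>
    ⟨I ∪ J, clo_mono Finset.subset_union_left, clo_mono Finset.subset_union_right⟩
  have h1 : Y ⊔ act O Y ≤ ⨆ I : Finset ι, clo Φ I Y := by
    refine sup_le (le_clo.trans (le_iSup (fun I : Finset ι => clo Φ I Y) ∅)) ?_
    rw [act_le]
    intro φ hφ y hy
    obtain ⟨J, -, h2⟩ := mem_clo_of_adjoin (hgen φ hφ) ∅ y (le_clo hy)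
    exact (le_iSup (fun I : Finset ι => clo Φ I Y) J) h2
  have h2 : ∀ b, ∀ x ∈ V F (⨆ I : Finset ι, clo Φ I Y) b, ∃ I : Finset ι,
      x ∈ V F (clo Φ I Y) b := by
    intro b
    induction b with
    | zero =>
      intro x hx
      exact ⟨∅, hx⟩
    | succ b ih =>
      intro x hx
      rw [V_succ] at hx
      obtain ⟨z, hz, _, ⟨w, hw, rfl⟩, rfl⟩ := Submodule.mem_sup.1 hx
      obtain ⟨I, hI⟩ := (Submodule.mem_iSup_of_directed _ hdir).1 hz
      obtain ⟨J, hJ⟩ := ih w hw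
      refine ⟨I ∪ J, ?_⟩
      rw [V_succ]
      exact Submodule.add_mem_sup (clo_mono Finset.subset_union_left hI)
        (Submodule.mem_map_of_mem (V_mono_left (clo_mono Finset.subset_union_right) b hJ))
  have h3 : ∀ y ∈ Y, ∃ I : Finset ι, F^[b] y ∈ V F (clo Φ I Y) b := fun y hy =>
    h2 b _ (V_mono_left h1 b (hdom y hy))
  obtain ⟨s, hs⟩ := id hY
  have hsY : ∀ y ∈ s, y ∈ Y := fun y hy => hs ▸ Submodule.subset_span hy
  choose! I hI using h3
  set J : Finset ι := s.biUnion I with hJ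
  have h4 : ∀ y ∈ Y, F^[b] y ∈ V F (clo Φ J Y) b := by
    intro y hy
    rw [← hs] at hy
    induction hy using Submodule.span_induction with
    | mem y hy =>
      exact V_mono_left (clo_mono (Finset.subset_biUnion_of_mem I hy)) b (hI y (hsY y hy))
    | zero => rw [it_zero]; exact zero_mem _
    | add x y _ _ hx hy => rw [it_add]; exact add_mem hx hy
    | smul a x _ hx => rw [it_smul]; exact Submodule.smul_mem _ _ hx
  exact ⟨J, fun J' hJ' => le_Sat_of_dom (h.clo_fg hY hYW)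
    (dom_clo h.cj fun y hy => V_mono_left (clo_mono hJ') b (h4 y hy))⟩

/-- **No strict domination.** -/
theorem nsd (hgen : ∀ φ ∈ O.A, φ ∈ Algebra.adjoin k (Set.range fun i => Φ i 0)) (hY : Y.FG)
    (hYW : Y ≤ W) {b : ℕ} (hdom : ∀ y ∈ Y, F^[b] y ∈ V F (Y ⊔ act O Y) b) : Y ≤ Sat F ⊥ := by
  obtain ⟨J, hJ⟩ := h.clo_le_sat hgen hY hYW hdom
  exact le_clo.trans (hJ J subset_rfl)

/-- **No strict domination, with the images.** -/
theorem nsdp (hgen : ∀ φ ∈ O.A, φ ∈ Algebra.adjoin k (Set.range fun i => Φ i 0)) (hY : Y.FG)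
    (hYW : Y ≤ W) {b : ℕ} (hdom : ∀ y ∈ Y, F^[b] y ∈ V F (Y ⊔ act O Y) b) :
    Y ⊔ act O Y ≤ Sat F ⊥ := by
  classical
  obtain ⟨J, hJ⟩ := h.clo_le_sat hgen hY hYW hdom
  refine sup_le (le_clo.trans (hJ J subset_rfl)) ?_
  rw [act_le]
  intro φ hφ y hy
  obtain ⟨I, -, h2⟩ := mem_clo_of_adjoin (hgen φ hφ) ∅ y (le_clo hy)
  exact hJ (J ∪ I) Finset.subset_union_left (clo_mono Finset.subset_union_right h2)

end Cjg

/-! ### The hypotheses from the relations of the `φ_i` -/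

/-- **The conditions from the operators**: the operators commute, the generators are nilpotent, and
satisfy a relation `∑_(j ≤ d) a_j F^j φ_i F^(-j) = 0`. -/
theorem cjg_of {O : Ops F} (hF : W ≤ W.map F) (hFW : W.map F ≤ W)
    (hcj : ∀ i j x, F (Φ i j x) = Φ i (j + 1) (F x)) (h0 : ∀ i, Φ i 0 ∈ O.A)
    (hAW : ∀ φ ∈ O.A, ∀ x ∈ W, φ x ∈ W)
    (hcomm : ∀ φ ∈ O.A, ∀ ψ ∈ O.A, ∀ x ∈ W, φ (ψ x) = ψ (φ x))
    (hnil : ∀ i, ∃ n : ℕ, ∀ x ∈ W, (Φ i 0 ^ n) x = 0)
    (hrel : ∀ i, ∃ (d : ℕ) (a : ℕ → k), a d ≠ 0 ∧ ∀ x ∈ W,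
      ∑ j ∈ Finset.range (d + 1), a j • Φ i j x = 0) : Cjg F Φ W := by
  have hsur : ∀ x ∈ W, ∃ u ∈ W, F u = x := fun x hx => by
    obtain ⟨u, hu, h1⟩ := hF hx
    exact ⟨u, hu, h1⟩
  have hsurj : ∀ (n : ℕ), ∀ x ∈ W, ∃ u ∈ W, F^[n] u = x := by
    intro n
    induction n with
    | zero => exact fun x hx => ⟨x, hx, rfl⟩
    | succ n ih =>
      intro x hx
      obtain ⟨u, hu, rfl⟩ := hsur x hx
      obtain ⟨w, hw, rfl⟩ := ih u hu
      exact ⟨w, hw, Function.iterate_succ_apply' F n w⟩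
  have hFm : ∀ x ∈ W, F x ∈ W := fun x hx => hFW (Submodule.mem_map_of_mem hx)
  have hstb : ∀ i j, ∀ x ∈ W, Φ i j x ∈ W := by
    intro i j
    induction j with
    | zero => exact fun x hx => hAW _ (h0 i) x hx
    | succ j ih =>
      intro x hx
      obtain ⟨u, hu, rfl⟩ := hsur x hx
      rw [← hcj]
      exact hFm _ (ih u hu)
  have hc1 : ∀ i j, ∀ φ ∈ O.A, ∀ x ∈ W, φ (Φ i j x) = Φ i j (φ x) := by
    intro i j
    induction j with
    | zero => exact fun φ hφ x hx => hcomm φ hφ _ (h0 i) x hx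
    | succ j ih =>
      intro φ hφ x hx
      obtain ⟨u, hu, rfl⟩ := hsur x hx
      obtain ⟨φ', hφ', h1⟩ := O.tw φ hφ
      rw [← hcj, h1, ih φ' hφ' u hu, hcj, h1]
  have hc2 : ∀ j i j' i', ∀ x ∈ W, Φ i j (Φ i' j' x) = Φ i' j' (Φ i j x) := by
    intro j
    induction j with
    | zero => exact fun i j' i' x hx => hc1 i' j' _ (h0 i) x hx
    | succ j ih =>
      intro i j' i' x hx
      rcases j' with _ | j'
      · exact (hc1 i (j + 1) _ (h0 i') x hx).symm
      · obtain ⟨u, hu, rfl⟩ := hsur x hx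
        rw [← hcj, ← hcj, ← hcj, ← hcj, ih i j' i' u hu]
  refine ⟨hcj, hstb, fun i j i' j' => hc2 j i j' i', fun i j => ?_, fun i => ?_⟩
  · obtain ⟨n, hn⟩ := hnil i
    refine ⟨n, fun x hx => ?_⟩
    obtain ⟨u, hu, rfl⟩ := hsurj j x hx
    have h1 : ∀ m : ℕ, (Φ i j ^ m) (F^[j] u) = F^[j] ((Φ i 0 ^ m) u) := by
      intro m
      induction m with
      | zero => rfl
      | succ m ih =>
        rw [pow_succ', pow_succ', Module.End.mul_apply, Module.End.mul_apply, ih,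
          Cjg.cj_it hcj i 0 j, zero_add]
    rw [h1, hn u hu, it_zero]
  · obtain ⟨d, a, ha, hrel⟩ := hrel i
    refine ⟨d, fun j => ?_⟩
    induction j using Nat.strong_induction_on with
    | _ j ih =>
      intro x hx
      by_cases hj : j < d
      · exact Submodule.subset_span ⟨⟨j, hj⟩, rfl⟩
      · obtain ⟨m, rfl⟩ : ∃ m, j = d + m := ⟨j - d, by omega⟩
        obtain ⟨u, hu, hux⟩ := hsurj m x hx
        have h1 := congrArg (F^[m]) (hrel u hu)
        rw [it_zero, it_sum] at h1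
        have h2 : ∀ j, F^[m] (a j • Φ i j u) = (σ^[m] (a j)) • Φ i (j + m) x := fun j => by
          rw [it_smul, Cjg.cj_it hcj, hux]
        rw [Finset.sum_congr rfl fun j _ => h2 j, Finset.sum_range_succ] at h1
        have h3 : σ^[m] (a d) ≠ 0 := by
          have h4 : ∀ (n : ℕ) (b : k), b ≠ 0 → σ^[n] b ≠ 0 := by
            intro n
            induction n with
            | zero => exact fun b hb => hb
            | succ n ihn =>
              intro b hb
              rw [Function.iterate_succ_apply']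
              exact (map_ne_zero σ).2 (ihn b hb)
          exact h4 m _ ha
        have h5 : Φ i (d + m) x = -((σ^[m] (a d))⁻¹ • ∑ j ∈ Finset.range d,
            (σ^[m] (a j)) • Φ i (j + m) x) := by
          rw [eq_neg_iff_add_eq_zero, ← smul_right_injective G h3 |>.eq_iff, smul_zero, smul_add,
            smul_inv_smul₀ h3, add_comm]
          exact h1
        rw [h5]
        refine neg_mem (Submodule.smul_mem _ _ (sum_mem fun j hj' => Submodule.smul_mem _ _ ?_))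
        exact ih (j + m) (by have := Finset.mem_range.1 hj'; omega) x hx

end Pool.Agent.TWHT
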