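import Pool.Agent.Lib.TWC.NsdW
import Pool.Agent.Lib.TWC.EW
import Pool.Agent.Lib.TWC.PrA
import Pool.Agent.Lib.TWHT.NsdC
import Pool.Agent.Lib.TWHT.NTor

/-!
# TANK W, leaf (Ht), H1: `NSDp` over an exhausted perfect field

* `ExF A E T`: the subfields `A a n` of `E` (`a` in a directed family, `n : ℕ`), with the roots of
  `A a n` in `A a (n + 1)`, dense up to `0`, each stable under every operator of `T` for large `n`;
* `WS v E F`: the classes of the sequences at distance `≤ D` from `F`, for all `D > 0`;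
* `ExF.le_WS`: a strictly dominated space is in one `WS v E (EA a)`, `EA a` the closure of the union of
  the `A a n`;
* `exists_up`, `up`: the operator `F φ F⁻¹`;
* `ExF.nsdp`: `NSDp`, from a relation with a gain on `EA a` for each generator.
-/

set_option autoImplicit false

open Module Submodule

namespace Pool.Agent.TWHT

open Pool.Agent.H15JM (RVal)
open Pool.Agent.LU1 (VPos adj)
open Pool.Agent.D2 (Ctx0)
open Pool.Agent.D2P (clI mem_clI)
open Pool.Agent.TWM Pool.Agent.TWC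

universe u w

/-! ### Linear algebra -/

section Lin

variable {k : Type u} {G : Type w} [Field k] [AddCommGroup G] [Module k G]
  {σ : k →+* k} [RingHomSurjective σ] {F : G →ₛₗ[σ] G}

theorem V_iSup {ι : Type*} [Nonempty ι] {Z : ι → Submodule k G} (hdir : Directed (· ≤ ·) Z)
    (b : ℕ) : ∀ x ∈ V F (⨆ i, Z i) b, ∃ i, x ∈ V F (Z i) b := by
  induction b with
  | zero =>
    intro x hx
    exact ⟨Classical.arbitrary ι, hx⟩
  | succ b ih =>
    intro x hx
    rw [V_succ] at hx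
    obtain ⟨z, hz, _, ⟨w, hw, rfl⟩, rfl⟩ := Submodule.mem_sup.1 hx
    obtain ⟨i, hi⟩ := (Submodule.mem_iSup_of_directed _ hdir).1 hz
    obtain ⟨j, hj⟩ := ih w hw
    obtain ⟨l, hil, hjl⟩ := hdir i j
    refine ⟨l, ?_⟩
    rw [V_succ]
    exact Submodule.add_mem_sup (hil hi) (Submodule.mem_map_of_mem (V_mono_left hjl b hj))

theorem V_le_shift {S : Submodule k G} {M : ℕ → Submodule k G} {m : ℕ}
    (hF : ∀ j, m ≤ j → (M (j + 1)).map F ≤ M j) :
    ∀ (b j : ℕ), m ≤ j → (∀ i < b, S ≤ M (j + i)) → V F S b ≤ M j := by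
  intro b
  induction b with
  | zero =>
    intro j _ _
    rw [V_zero]
    exact bot_le
  | succ b ih =>
    intro j hj hS
    rw [V_succ]
    refine sup_le (by simpa using hS 0 (Nat.succ_pos b)) ?_
    refine (Submodule.map_mono (ih (j + 1) (by omega) fun i hi => ?_)).trans (hF j hj)
    have h1 := hS (i + 1) (by omega)
    rwa [show j + (i + 1) = j + 1 + i by ring] at h1

end Lin

variable {k Ω : Type u} [Field k] [Field Ω] [Algebra k Ω] {v : RVal Ω}
  {C E F F' : IntermediateField k Ω} {p : ℕ} [hcx : Fact (Ctx0 k v)]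

/-! ### The classes near a subfield -/

/-- The sequences at distance `≤ D` from `F`, for all `D > 0`. -/
def LsS (v : RVal Ω) [hcx : Fact (Ctx0 k v)] (E F : IntermediateField k Ω) :
    Submodule k (CauS v E) where
  carrier := {x | ∀ D : ℝ, 0 < D → x ∈ Ds v E F D}
  add_mem' := fun hx hy D hD => add_mem (hx D hD) (hy D hD)
  zero_mem' := fun _ _ => zero_mem _
  smul_mem' := fun a _ hx D hD => Submodule.smul_mem _ a (hx D hD)

theorem mem_LsS {x : CauS v E} : x ∈ LsS v E F ↔ ∀ D : ℝ, 0 < D → x ∈ Ds v E F D := Iff.rfl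

/-- The classes of the sequences at distance `≤ D` from `F`, for all `D > 0`. -/
noncomputable def WS (v : RVal Ω) [hcx : Fact (Ctx0 k v)] (E F : IntermediateField k Ω) :
    Submodule k (MM v E) := (LsS v E F).map (MM.mk v E)

theorem mem_WS_act {m : MM v E} (hm : m ∈ WS v E F) (hFE : F ≤ E) {φ : Opr v E}
    (hφ : ∀ f ∈ F, fn φ f ∈ F) : MM.act φ m ∈ WS v E F := by
  obtain ⟨x, hx, rfl⟩ := hm
  exact ⟨MM.actS φ x, fun D hD => Ds_act (hx D hD) hFE hφ, rfl⟩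

/-- An operator with a gain on `F` vanishes on the classes near `F`. -/
theorem WS_zero {m : MM v E} (hm : m ∈ WS v E F) (hFE : F ≤ E) {φ : Opr v E} {δ : ℝ}
    (hδ : 0 < δ) (hφ : ∀ f ∈ F, ∀ c : ℝ, v.Ge c f → v.Ge (c + δ) (fn φ f)) :
    MM.act φ m = 0 := by
  obtain ⟨x, hx, rfl⟩ := hm
  exact mk_actS_eq_zero hx hFE hδ hφ

section Frob

variable [hp : Fact p.Prime] [CharP k p] [CharP Ω p]

theorem WS_fr {m : MM v E} (hm : m ∈ WS v E F) : MM.fr p v E m ∈ WS v E F := by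
  have hp0 : (0 : ℝ) < p := by exact_mod_cast hp.out.pos
  obtain ⟨x, hx, rfl⟩ := hm
  refine ⟨MM.frS p v E x, fun D hD => ?_, rfl⟩
  have h1 := Ds_fr (p := p) (hx (D / p) (by positivity))
  rwa [mul_div_cancel₀ _ hp0.ne'] at h1

theorem WS_root (hE : ∀ a ∈ E, ∃ b ∈ E, b ^ p = a) (hF : ∀ a ∈ F, ∃ b ∈ F, b ^ p = a)
    {m : MM v E} (hm : m ∈ WS v E F) : ∃ u ∈ WS v E F, MM.fr p v E u = m := by
  have hp0 : (0 : ℝ) < p := by exact_mod_cast hp.out.pos
  obtain ⟨x, hx, rfl⟩ := hm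
  obtain ⟨y, hy, h⟩ := x.2.exists_root p hE
  have h1 : MM.frS p v E ⟨y, hy⟩ = x := Subtype.ext (funext fun n => h n)
  refine ⟨MM.mk v E ⟨y, hy⟩, ⟨⟨y, hy⟩, fun D hD => ?_, rfl⟩, ?_⟩
  · refine Ds_root (p := p) hF ?_
    rw [h1]
    exact hx _ (by positivity)
  · rw [MM.fr_mk, h1]

end Frob

/-! ### The exhaustion -/

/-- An exhaustion of `E` by fields `A a n`. -/
structure ExF (p : ℕ) (v : RVal Ω) [Fact (Ctx0 k v)] (E : IntermediateField k Ω)
    (T : Set (Opr v E)) {ι : Type*} (A : ι → ℕ → IntermediateField k Ω) : Prop where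
  dir : ∀ a b, ∃ c, ∀ n, A a n ≤ A c n ∧ A b n ≤ A c n
  mono : ∀ a, Monotone (A a)
  le : ∀ a n, A a n ≤ E
  root : ∀ a n, ∀ x ∈ A a n, ∃ y ∈ A a (n + 1), y ^ p = x
  pow : ∀ a n, ∀ x ∈ A a (n + 1), x ^ p ∈ A a n
  dense : ∀ e ∈ E, ∃ a n, ∃ f ∈ A a n, v.Ge 0 (e - f)
  stb : ∀ φ ∈ T, ∀ a, ∃ n₀, ∀ n, n₀ ≤ n → ∀ f ∈ A a n, fn φ f ∈ A a n

/-- The closure of the union of the `A a n`. -/
def EA (v : RVal Ω) {ι : Type*} (A : ι → ℕ → IntermediateField k Ω) (a : ι) :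
    IntermediateField k Ω := clI v (⨆ n, A a n)

namespace ExF

variable {ι : Type*} {A : ι → ℕ → IntermediateField k Ω} {T : Set (Opr v E)}

theorem mem_iSup (h : ExF p v E T A) {a : ι} {x : Ω} : x ∈ (⨆ n, A a n) ↔ ∃ n, x ∈ A a n := by
  have h1 : x ∈ (⨆ n, A a n) ↔ x ∈ ((⨆ n, A a n : IntermediateField k Ω) : Set Ω) := Iff.rfl
  rw [h1, IntermediateField.coe_iSup_of_directed (h.mono a).directed_le, Set.mem_iUnion]
  rfl

theorem le_EA (_h : ExF p v E T A) (a : ι) (n : ℕ) : A a n ≤ EA v A a :=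
  (le_iSup (A a) n).trans (self_le_clI v _)

theorem EA_le (h : ExF p v E T A) (hE : Cld v E) (a : ι) : EA v A a ≤ E :=
  clI_le' (iSup_le (h.le a)) hE

/-- The elements of `EA a`. -/
theorem near (h : ExF p v E T A) {a : ι} {x : Ω} (hx : x ∈ EA v A a) (n₀ : ℕ) (b : ℝ) :
    ∃ n, n₀ ≤ n ∧ ∃ f ∈ A a n, v.Ge b (x - f) := by
  obtain ⟨f, hf, h1⟩ := (mem_clI.1 hx) b
  obtain ⟨n, hn⟩ := h.mem_iSup.1 hf
  exact ⟨max n n₀, le_max_right _ _, f, h.mono a (le_max_left _ _) hn, h1⟩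

theorem EA_perf [hp : Fact p.Prime] [CharP Ω p] (h : ExF p v E T A) (hE : Cld v E)
    (hE' : ∀ x ∈ E, ∃ y ∈ E, y ^ p = x) (a : ι) :
    ∀ x ∈ EA v A a, ∃ y ∈ EA v A a, y ^ p = x := by
  have hp0 : (0 : ℝ) < p := by exact_mod_cast hp.out.pos
  intro x hx
  obtain ⟨y, hy, rfl⟩ := hE' x (h.EA_le hE a hx)
  refine ⟨y, mem_clI.2 fun b => ?_, rfl⟩
  obtain ⟨n, -, f, hf, h1⟩ := h.near hx 0 (p * b)
  obtain ⟨g, hg, rfl⟩ := h.root a n f hf
  refine ⟨g, h.mem_iSup.2 ⟨n + 1, hg⟩, fun h0 => ?_⟩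
  rw [← sub_pow_char] at h1
  have h2 := h1 (pow_ne_zero p h0)
  rw [v.map_pow h0] at h2
  exact le_of_mul_le_mul_left h2 hp0

theorem EA_stb (h : ExF p v E T A) (hE : Cld v E) {φ : Opr v E} (hφ : φ ∈ T) (a : ι) :
    ∀ x ∈ EA v A a, fn φ x ∈ EA v A a := by
  intro x hx
  obtain ⟨n₀, hn₀⟩ := h.stb φ hφ a
  refine mem_clI.2 fun b => ?_
  obtain ⟨n, hn, f, hf, h1⟩ := h.near hx n₀ b
  refine ⟨fn φ f, h.mem_iSup.2 ⟨n, hn₀ n hn f hf⟩, ?_⟩
  rw [← fn_subw φ (h.EA_le hE a hx) (h.le a n hf)]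
  exact fn_ge φ (sub_mem (h.EA_le hE a hx) (h.le a n hf)) h1

/-- A gain on the `A a n`, `n` large, gives a gain on `EA a`. -/
theorem EA_gain (h : ExF p v E T A) (hE : Cld v E) {φ : Opr v E} {a : ι} {n₀ : ℕ} {δ : ℝ}
    (hδ : 0 ≤ δ) (hg : ∀ n, n₀ ≤ n → ∀ f ∈ A a n, ∀ c : ℝ, v.Ge c f → v.Ge (c + δ) (fn φ f)) :
    ∀ f ∈ EA v A a, ∀ c : ℝ, v.Ge c f → v.Ge (c + δ) (fn φ f) := by
  intro x hx c hc
  obtain ⟨n, hn, f, hf, h1⟩ := h.near hx n₀ (c + δ)
  have hxE := h.EA_le hE a hx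
  have hfE := h.le a n hf
  have h2 : v.Ge c f := by
    have h3 : f = x - (x - f) := by ring
    rw [h3]
    exact hc.sub (h1.mono (by linarith))
  have h3 : fn φ x = fn φ f + fn φ (x - f) := by
    rw [fn_subw φ hxE hfE]
    ring
  rw [h3]
  exact (hg n hn f hf c h2).add (fn_ge φ (sub_mem hxE hfE) h1)

end ExF

section Main

variable [hp : Fact p.Prime] [CharP k p] [CharP Ω p] [PerfectRing k p]
  {T : Submodule k (Opr v E)} {ι : Type*} {A : ι → ℕ → IntermediateField k Ω}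

theorem Ds_root_it {F : ℕ → IntermediateField k Ω} (hF : ∀ n, ∀ a ∈ F n, ∃ b ∈ F (n + 1), b ^ p = a)
    {κ : ℝ} (b : ℕ) : ∀ (n : ℕ) {x : CauS v E},
      (MM.frS p v E)^[b] x ∈ Ds v E (F n) (κ / (p : ℝ) ^ n) →
        x ∈ Ds v E (F (n + b)) (κ / (p : ℝ) ^ (n + b)) := by
  have hp0 : (0 : ℝ) < p := by exact_mod_cast hp.out.pos
  induction b with
  | zero => exact fun n x hx => hx
  | succ b ih =>
    intro n x hx
    rw [Function.iterate_succ_apply] at hx
    obtain ⟨f, hf, N, h1⟩ := ih n hx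
    obtain ⟨g, hg, rfl⟩ := hF _ f hf
    refine ⟨g, hg, N, fun i hi h0 => ?_⟩
    have h2 : v.Ge (-(κ / (p : ℝ) ^ (n + b))) ((x : ℕ → Ω) i ^ p - g ^ p) := h1 i hi
    rw [← sub_pow_char] at h2
    have h3 := h2 (pow_ne_zero p h0)
    rw [v.map_pow h0] at h3
    have h4 : κ / (p : ℝ) ^ (n + b) = p * (κ / (p : ℝ) ^ (n + (b + 1))) := by
      rw [← add_assoc, pow_succ]
      field_simp
    rw [h4] at h3
    have h5 : (p : ℝ) * (-(κ / (p : ℝ) ^ (n + (b + 1)))) ≤ p * v ((x : ℕ → Ω) i - g) := by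
      linarith
    exact le_of_mul_le_mul_left h5 hp0

/-- **The contraction**: a strictly dominated space is near one `EA a`. -/
theorem ExF.le_WS [Nonempty ι] (h : Oper p v C E T) (H : ExF p v E (T : Set (Opr v E)) A)
    {Y : Submodule k (MM v E)} (hY : Y.FG) {b : ℕ} (hb : 1 ≤ b)
    (hrel : ∀ y ∈ Y, (MM.fr p v E)^[b] y ∈ V (MM.fr p v E) (Y ⊔ act (h.ops p) Y) b) :
    ∃ a, Y ≤ WS v E (EA v A a) := by
  classical
  have hp1 : (1 : ℝ) ≤ p := by exact_mod_cast hp.out.one_lt.le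
  have hp1' : (1 : ℝ) < p := by exact_mod_cast hp.out.one_lt
  have hp0 : (0 : ℝ) < p := by linarith
  obtain ⟨b, rfl⟩ := Nat.exists_eq_add_of_le' hb
  obtain ⟨S, hS⟩ := id hY
  -- a finite number of operators
  let Z : Finset (Opr v E) → Submodule k (MM v E) := fun J =>
    Y ⊔ Submodule.span k {z | ∃ φ ∈ J, φ ∈ T ∧ ∃ y ∈ Y, MM.act φ y = z}
  have hZmono : ∀ {I J : Finset (Opr v E)}, I ⊆ J → Z I ≤ Z J := fun {I J} hIJ =>
    sup_le_sup le_rfl (Submodule.span_mono (by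
      rintro z ⟨φ, hφ, h1, y, hy, rfl⟩
      exact ⟨φ, hIJ hφ, h1, y, hy, rfl⟩))
  have hdir : Directed (· ≤ ·) Z := fun I J =>
    ⟨I ∪ J, hZmono Finset.subset_union_left, hZmono Finset.subset_union_right⟩
  have h1 : Y ⊔ act (h.ops p) Y ≤ ⨆ J, Z J := by
    refine sup_le (le_sup_left.trans (le_iSup Z ∅)) (act_le.2 ?_)
    rintro _ ⟨φ, hφ, rfl⟩ y hy
    exact (le_iSup Z {φ}) (Submodule.mem_sup_right (Submodule.subset_span
      ⟨φ, Finset.mem_singleton_self φ, hφ, y, hy, rfl⟩))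
  have h2 : ∀ y ∈ Y, ∃ J, (MM.fr p v E)^[b + 1] y ∈ V (MM.fr p v E) (Z J) (b + 1) := fun y hy =>
    V_iSup hdir _ _ (V_mono_left h1 _ (hrel y hy))
  have hSY : ∀ y ∈ S, y ∈ Y := fun y hy => hS ▸ Submodule.subset_span hy
  choose! Jy hJy using h2
  obtain ⟨J, hJ⟩ : ∃ J : Finset (Opr v E), ∀ y ∈ Y,
      (MM.fr p v E)^[b + 1] y ∈ V (MM.fr p v E) (Z J) (b + 1) := by
    refine ⟨S.biUnion Jy, fun y hy => ?_⟩
    rw [← hS] at hy
    induction hy using Submodule.span_induction with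
    | mem y hy =>
      exact V_mono_left (hZmono (Finset.subset_biUnion_of_mem Jy hy)) _ (hJy y (hSY y hy))
    | zero => rw [it_zero]; exact zero_mem _
    | add x y _ _ hx hy => rw [it_add]; exact add_mem hx hy
    | smul a x _ hx => rw [it_smul]; exact Submodule.smul_mem _ _ hx
  -- the lift
  choose s hs using fun m : MM v E => MM.ind m
  set S' : Finset (CauS v E) := S.image s with hS'
  set Y' : Submodule k (CauS v E) := Submodule.span k (S' : Set (CauS v E)) with hY'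
  have hmap : Y'.map (MM.mk v E) = Y := by
    rw [hY', Submodule.map_span, hS', Finset.coe_image, ← Set.image_comp, ← hS]
    congr 1
    refine Set.Subset.antisymm ?_ fun m hm => ⟨m, hm, hs m⟩
    rintro _ ⟨m, hm, rfl⟩
    change MM.mk v E (s m) ∈ _
    rw [hs m]
    exact hm
  set A' : Submodule k (CauS v E) :=
    Submodule.span k {z | ∃ φ ∈ J, φ ∈ T ∧ ∃ x ∈ Y', MM.actS φ x = z} with hA'
  have hW : Z J ≤ (Y' ⊔ A').map (MM.mk v E) := by
    refine sup_le ?_ (Submodule.span_le.2 ?_)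
    · rw [← hmap]
      exact Submodule.map_mono le_sup_left
    · rintro _ ⟨φ, hφ, hφT, y, hy, rfl⟩
      rw [← hmap] at hy
      obtain ⟨x, hx, rfl⟩ := hy
      exact ⟨MM.actS φ x, Submodule.mem_sup_right (Submodule.subset_span
        ⟨φ, hφ, hφT, x, hx, rfl⟩), rfl⟩
  have hcomm : ∀ x, MM.mk v E (MM.frS p v E x) = MM.fr p v E (MM.mk v E x) := fun _ => rfl
  -- the relation on the sequences
  have hrel' : ∀ y ∈ Y', ∃ q : ι × ℕ, (MM.frS p v E)^[b + 1] y ∈
      V (MM.frS p v E) (Y' ⊔ A') (b + 1) ⊔ Zs v E (A q.1 q.2) := by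
    intro y hy
    have h1 := hJ (MM.mk v E y) (by rw [← hmap]; exact ⟨y, hy, rfl⟩)
    obtain ⟨z, hz, h2⟩ := V_le_map hcomm hW (b + 1) h1
    rw [← it_map hcomm] at h2
    have h3 : MM.mk v E ((MM.frS p v E)^[b + 1] y - z) = 0 := by
      rw [map_sub, h2, sub_self]
    obtain ⟨e, he, h4⟩ := (MM.mk_eq_zero _).1 h3
    obtain ⟨a, n, f, hf, h5⟩ := H.dense e he
    refine ⟨(a, n), ?_⟩
    rw [← add_sub_cancel z ((MM.frS p v E)^[b + 1] y)]
    refine add_mem (Submodule.mem_sup_left hz) (Submodule.mem_sup_right ⟨f, hf, fun ε hε => ?_⟩)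
    obtain ⟨N, hN⟩ := h4 ε hε
    refine ⟨N, fun n hn => ?_⟩
    have h6 := (hN n hn).add (h5.mono (show -ε ≤ 0 by linarith))
    rwa [sub_add_sub_cancel] at h6
  choose! qy hqy using hrel'
  -- one field for all
  obtain ⟨a, n₁, ha⟩ : ∃ (a : ι) (n₁ : ℕ), ∀ y ∈ S', A (qy y).1 (qy y).2 ≤ A a n₁ := by
    have key : ∀ R : Finset (CauS v E), ∃ (a : ι) (n₁ : ℕ), ∀ y ∈ R,
        A (qy y).1 (qy y).2 ≤ A a n₁ := by
      intro R
      induction R using Finset.induction_on with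
      | empty => exact ⟨Classical.arbitrary ι, 0, fun y hy => absurd hy (Finset.notMem_empty y)⟩
      | insert z R _ ih =>
        obtain ⟨a, n, h3⟩ := ih
        obtain ⟨c, hc⟩ := H.dir a (qy z).1
        refine ⟨c, max n (qy z).2, fun y hy => ?_⟩
        rcases Finset.mem_insert.1 hy with rfl | hy
        · exact (hc _).2.trans (H.mono c (le_max_right _ _))
        · exact ((h3 y hy).trans (hc n).1).trans (H.mono c (le_max_left _ _))
    exact key S'
  have hrel2 : ∀ y ∈ Y', (MM.frS p v E)^[b + 1] y ∈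
      V (MM.frS p v E) (Y' ⊔ A') (b + 1) ⊔ Zs v E (A a n₁) := by
    intro y hy
    induction hy using Submodule.span_induction with
    | mem x hx =>
      refine (sup_le_sup le_rfl (Zs_le (ha x hx))) ?_
      exact hqy x (Submodule.subset_span hx)
    | zero =>
      rw [it_zero]
      exact zero_mem _
    | add x y _ _ hx hy =>
      rw [it_add]
      exact add_mem hx hy
    | smul a x _ hx =>
      rw [it_smul]
      exact Submodule.smul_mem _ _ hx
  -- the operators are stable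
  choose! n₀ hn₀ using fun φ (hφ : φ ∈ (T : Set (Opr v E))) => H.stb φ hφ a
  obtain ⟨m, hm1, hm2⟩ : ∃ m, n₁ ≤ m ∧ ∀ φ ∈ J, n₀ φ ≤ m :=
    ⟨max n₁ (J.sup n₀), le_max_left _ _, fun φ hφ => (Finset.le_sup hφ).trans (le_max_right _ _)⟩
  -- the start
  obtain ⟨K, hK, hYK⟩ : ∃ K : ℝ, 0 < K ∧ Y' ≤ Ds v E (A a 0) K := by
    choose Kx hKx hKx' using fun x : CauS v E => exists_Ds (F := A a 0) x
    refine ⟨1 + ∑ x ∈ S', Kx x, ?_, Submodule.span_le.2 fun x hx => ?_⟩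
    · have := Finset.sum_nonneg fun x (_ : x ∈ S') => (hKx x).le
      linarith
    · refine Ds_mono ?_ (hKx' x)
      have := Finset.single_le_sum (f := Kx) (fun x _ => (hKx x).le) hx
      linarith
  set κ : ℝ := K * (p : ℝ) ^ (m + (b + 1)) with hκ
  have hκ0 : 0 < κ := by positivity
  set M : ℕ → Submodule k (CauS v E) := fun n => Ds v E (A a n) (κ / (p : ℝ) ^ n) with hM
  have hMF : ∀ j, (M (j + 1)).map (MM.frS p v E) ≤ M j := by
    rintro j _ ⟨x, ⟨f, hf, N, hx⟩, rfl⟩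
    refine ⟨f ^ p, H.pow a j f hf, N, fun n hn => ?_⟩
    change v.Ge (-(κ / (p : ℝ) ^ j)) ((x : ℕ → Ω) n ^ p - f ^ p)
    rw [← sub_pow_char]
    refine (ge_pow (hx n hn) p).mono (le_of_eq ?_)
    rw [pow_succ]
    field_simp
  have key : ∀ n, m ≤ n → Y' ≤ M n := by
    intro n
    induction n using Nat.strong_induction_on with
    | _ n ih =>
      intro hmn
      by_cases hn : n ≤ m + (b + 1)
      · refine hYK.trans ((Ds_le (H.mono a (Nat.zero_le n)) K).trans (Ds_mono ?_))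
        rw [le_div_iff₀ (by positivity), hκ]
        exact mul_le_mul_of_nonneg_left (pow_le_pow_right₀ hp1 hn) hK.le
      · push Not at hn
        obtain ⟨j, rfl⟩ : ∃ j, n = j + (b + 1) := ⟨n - (b + 1), by omega⟩
        have hj : m ≤ j := by omega
        have h3 : ∀ i < b + 1, Y' ⊔ A' ≤ M (j + i) := by
          intro i hi
          have h4 : Y' ≤ M (j + i) := ih (j + i) (by omega) (by omega)
          refine sup_le h4 (Submodule.span_le.2 ?_)
          rintro _ ⟨φ, hφ, hφT, x, hx, rfl⟩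
          exact Ds_act (h4 hx) (H.le a _) (hn₀ φ hφT (j + i) ((hm2 φ hφ).trans (by omega)))
        have h4 : V (MM.frS p v E) (Y' ⊔ A') (b + 1) ≤ M j :=
          V_le_shift (m := 0) (fun j _ => hMF j) (b + 1) j (Nat.zero_le j) h3
        have h5 : Zs v E (A a n₁) ≤ M j :=
          (Zs_le (H.mono a (hm1.trans hj))).trans (Zs_le_Ds (by positivity))
        intro y hy
        exact Ds_root_it (F := A a) (H.root a) (b + 1) j (sup_le h4 h5 (hrel2 y hy))
  refine ⟨a, ?_⟩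
  rw [← hmap]
  refine Submodule.map_mono fun y hy D hD => ?_
  obtain ⟨i, hi⟩ := pow_unbounded_of_one_lt (κ / D) hp1'
  have h3 : y ∈ M (max i m) := key _ (le_max_right _ _) hy
  refine Ds_le (H.le_EA a _) _ (Ds_mono ?_ h3)
  have h4 : (p : ℝ) ^ i ≤ (p : ℝ) ^ max i m := pow_le_pow_right₀ hp1 (le_max_left _ _)
  rw [div_le_iff₀ (by positivity)]
  rw [div_lt_iff₀ hD] at hi
  nlinarith

/-! ### The conjugates -/

omit hcx [PerfectRing k p] in
theorem root_unique {x y : Ω} (h : x ^ p = y ^ p) : x = y := by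
  have h1 : (x - y) ^ p = 0 := by rw [sub_pow_char, h, sub_self]
  exact sub_eq_zero.1 (pow_eq_zero_iff hp.out.ne_zero |>.1 h1)

/-- The operator `F φ F⁻¹`. -/
theorem exists_up (hE : ∀ a ∈ E, ∃ b ∈ E, b ^ p = a) (φ : Opr v E) :
    ∃ ψ : Opr v E, ∀ x : E, (ψ : Module.End k E) (x ^ p) = ((φ : Module.End k E) x) ^ p := by
  have hp0 : (0 : ℝ) < p := by exact_mod_cast hp.out.pos
  choose! rt hrtE hrt using hE
  have hadd : ∀ x ∈ E, ∀ y ∈ E, rt (x + y) = rt x + rt y := fun x hx y hy =>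
    root_unique (p := p) (by rw [hrt _ (add_mem hx hy), add_pow_char, hrt x hx, hrt y hy])
  let f : E →ₗ[k] E :=
    { toFun := fun x => ((φ : Module.End k E) ⟨rt x, hrtE x x.2⟩) ^ p
      map_add' := fun x y => by
        have h1 : (⟨rt (x + y : E), hrtE _ (x + y : E).2⟩ : E) =
            ⟨rt x, hrtE x x.2⟩ + ⟨rt y, hrtE y y.2⟩ := Subtype.ext (hadd x x.2 y y.2)
        have : CharP E p := charP_sub p E
        rw [h1, map_add, add_pow_char]
      map_smul' := fun a x => by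
        obtain ⟨a', rfl⟩ := (frobeniusEquiv k p).surjective a
        have h1 : (⟨rt (frobeniusEquiv k p a' • x : E), hrtE _ (frobeniusEquiv k p a' • x : E).2⟩ : E) =
            a' • ⟨rt x, hrtE x x.2⟩ := by
          refine Subtype.ext (root_unique (p := p) ?_)
          change rt _ ^ p = (a' • rt x) ^ p
          rw [hrt _ (SetLike.coe_mem _), _root_.smul_pow, hrt x x.2]
          rfl
        rw [h1, map_smul, _root_.smul_pow]
        rfl }
  refine ⟨⟨f, fun x b hb => ?_⟩, fun x => ?_⟩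
  · change v.Ge b ((((φ : Module.End k E) ⟨rt x, hrtE x x.2⟩ : E) : Ω) ^ p)
    have h1 : v.Ge (b / p) (rt x) := fun h0 => by
      have h2 := hb (by rw [← hrt x x.2]; exact pow_ne_zero p h0)
      rw [← hrt x x.2, v.map_pow h0] at h2
      rw [div_le_iff₀ hp0, mul_comm]
      exact h2
    refine (ge_pow (φ.2 ⟨rt x, hrtE x x.2⟩ _ h1) p).mono (le_of_eq ?_)
    rw [mul_div_cancel₀ _ hp0.ne']
  · change ((φ : Module.End k E) ⟨rt (x ^ p : E), hrtE _ (x ^ p : E).2⟩) ^ p = _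
    congr 2
    refine Subtype.ext (root_unique (p := p) ?_)
    change rt _ ^ p = (x : Ω) ^ p
    rw [hrt _ (SetLike.coe_mem _)]
    rfl

/-- The operator `F φ F⁻¹`. -/
noncomputable def up (hE : ∀ a ∈ E, ∃ b ∈ E, b ^ p = a) (φ : Opr v E) : Opr v E :=
  (exists_up hE φ).choose

theorem up_pow (hE : ∀ a ∈ E, ∃ b ∈ E, b ^ p = a) (φ : Opr v E) (x : E) :
    ((up hE φ : Opr v E) : Module.End k E) (x ^ p) = ((φ : Module.End k E) x) ^ p :=
  (exists_up hE φ).choose_spec x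

theorem fn_up (hE : ∀ a ∈ E, ∃ b ∈ E, b ^ p = a) (φ : Opr v E) {x : Ω} (hx : x ∈ E) :
    fn (up hE φ) (x ^ p) = fn φ x ^ p := by
  have h1 := congrArg Subtype.val (up_pow hE φ ⟨x, hx⟩)
  rw [fn_of_mem _ (pow_mem hx p), fn_of_mem φ hx]
  exact h1

theorem fn_up_it (hE : ∀ a ∈ E, ∃ b ∈ E, b ^ p = a) (φ : Opr v E) (j : ℕ) {x : Ω} (hx : x ∈ E) :
    fn ((up hE)^[j] φ) (x ^ p ^ j) = fn φ x ^ p ^ j := by
  induction j generalizing φ with
  | zero => simp
  | succ j ih =>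
    rw [Function.iterate_succ_apply', pow_succ, pow_mul, fn_up hE _ (pow_mem hx _), ih, ← pow_mul,
      ← pow_succ]

theorem act_up (hE : ∀ a ∈ E, ∃ b ∈ E, b ^ p = a) (φ : Opr v E) (m : MM v E) :
    MM.fr p v E (MM.act φ m) = MM.act (up hE φ) (MM.fr p v E m) :=
  (MM.act_fr p (up_pow hE φ) m).symm

omit hp [CharP k p] [CharP Ω p] [PerfectRing k p] in
theorem fn_sum_smul {J : Type*} (s : Finset J) (c : J → k) (ψ : J → Opr v E) {x : Ω}
    (hx : x ∈ E) : fn (∑ j ∈ s, c j • ψ j) x = ∑ j ∈ s, c j • fn (ψ j) x := by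
  classical
  induction s using Finset.induction_on with
  | empty =>
    rw [Finset.sum_empty, Finset.sum_empty, fn_opZero]
  | insert i s hi ih =>
    rw [Finset.sum_insert hi, Finset.sum_insert hi, fn_opAdd, ih, fn_opSmul]

theorem ExF.adj {Γ : Set (Opr v E)} (H : ExF p v E Γ A) :
    ExF p v E ((adjT Γ : Submodule k (Opr v E)) : Set (Opr v E)) A where
  dir := H.dir
  mono := H.mono
  le := H.le
  root := H.root
  pow := H.pow
  dense := H.dense
  stb := by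
    intro φ hφ a
    refine adjT_induction (P := fun φ => ∃ n₀, ∀ n, n₀ ≤ n → ∀ f ∈ A a n, fn φ f ∈ A a n)
      (fun φ hφ => H.stb φ hφ a) ⟨0, fun n _ f _ => ?_⟩ (fun φ ψ h1 h2 => ?_) (fun c φ h1 => ?_)
      (fun φ ψ h1 h2 => ?_) hφ
    · rw [fn_opZero]
      exact zero_mem _
    · obtain ⟨n, hn⟩ := h1
      obtain ⟨m, hm⟩ := h2
      refine ⟨max n m, fun i hi f hf => ?_⟩
      rw [fn_opAdd]
      exact add_mem (hn i ((le_max_left _ _).trans hi) f hf)
        (hm i ((le_max_right _ _).trans hi) f hf)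
    · obtain ⟨n, hn⟩ := h1
      refine ⟨n, fun i hi f hf => ?_⟩
      rw [fn_opSmul]
      exact (A a i).smul_mem (hn i hi f hf)
    · obtain ⟨n, hn⟩ := h1
      obtain ⟨m, hm⟩ := h2
      refine ⟨max n m, fun i hi f hf => ?_⟩
      rw [fn_opMul _ _ (H.le a i hf)]
      exact hn i ((le_max_left _ _).trans hi) _ (hm i ((le_max_right _ _).trans hi) f hf)

/-- **`NSDp` from the exhaustion and the relations.** -/
theorem ExF.nsdp [Nonempty ι] {Γ : Set (Opr v E)} (h : Oper p v C E (adjT Γ))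
    (H : ExF p v E Γ A)
    (hcomm : ∀ φ ∈ (h.ops p).A, ∀ ψ ∈ (h.ops p).A, ∀ x : MM v E, φ (ψ x) = ψ (φ x))
    (hnil : ∀ φ ∈ Γ, ∃ n : ℕ, MM.act φ ^ n = 0)
    (hrel : ∀ φ ∈ Γ, ∀ a, ∃ (d : ℕ) (c : ℕ → k) (δ : ℝ) (n₀ : ℕ), c d ≠ 0 ∧ 0 < δ ∧
      ∀ n, n₀ ≤ n → ∀ f ∈ A a n, ∀ b : ℝ, v.Ge b f →
        v.Ge (b + δ) (∑ j ∈ Finset.range (d + 1), c j • fn ((up h.perf)^[j] φ) f)) :
    NSDp p h := by
  classical
  intro Y hY b hb hY'
  have HT := H.adj
  obtain ⟨a, ha⟩ := HT.le_WS h hY hb hY'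
  have hEA := HT.EA_le h.cld a
  have hperf := HT.EA_perf h.cld h.perf a
  let Φ : Γ → ℕ → MM v E →ₗ[k] MM v E := fun i j => MM.act ((up h.perf)^[j] (i : Opr v E))
  have hcj : Cjg (MM.fr p v E) Φ (WS v E (EA v A a)) := by
    refine cjg_of (O := h.ops p) (fun m hm => ?_) ?_ (fun i j x => ?_) (fun i => ?_) ?_
      (fun φ hφ ψ hψ x _ => hcomm φ hφ ψ hψ x) (fun i => ?_) (fun i => ?_)
    · obtain ⟨u, hu, h1⟩ := WS_root h.perf hperf hm
      exact ⟨u, hu, h1⟩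
    · rintro _ ⟨m, hm, rfl⟩
      exact WS_fr hm
    · change MM.fr p v E (MM.act _ x) = MM.act _ (MM.fr p v E x)
      rw [act_up h.perf, Function.iterate_succ_apply']
    · exact ⟨(i : Opr v E), subset_adjT i.2, rfl⟩
    · rintro _ ⟨φ, hφ, rfl⟩ x hx
      exact mem_WS_act hx hEA (HT.EA_stb h.cld hφ a)
    · obtain ⟨n, hn⟩ := hnil i i.2
      exact ⟨n, fun x _ => by
        change (MM.act (i : Opr v E) ^ n) x = 0
        rw [hn]
        rfl⟩
    · obtain ⟨d, c, δ, n₀, hcd, hδ, hg⟩ := hrel i i.2 a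
      refine ⟨d, c, hcd, fun x hx => ?_⟩
      have h1 : ∑ j ∈ Finset.range (d + 1), c j • Φ i j x =
          MM.act (∑ j ∈ Finset.range (d + 1), c j • (up h.perf)^[j] (i : Opr v E)) x := by
        change _ = (MM.actHom v E (∑ j ∈ Finset.range (d + 1),
          c j • (up h.perf)^[j] (i : Opr v E))) x
        rw [map_sum, LinearMap.sum_apply]
        refine Finset.sum_congr rfl fun j _ => ?_
        rw [map_smul]
        rfl
      rw [h1]
      refine WS_zero hx hEA hδ (HT.EA_gain h.cld (n₀ := n₀) hδ.le fun n hn f hf c' hc' => ?_)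
      rw [fn_sum_smul _ _ _ (H.le a n hf)]
      exact hg n hn f hf c' hc'
  refine hcj.nsdp (O := h.ops p) ?_ hY ha hY'
  rintro _ ⟨φ, hφ, rfl⟩
  refine adjT_induction (P := fun φ => (MM.actHom v E φ) ∈
    Algebra.adjoin k (Set.range fun i => Φ i 0)) (fun φ hφ => ?_) ?_ (fun φ ψ h1 h2 => ?_)
    (fun c φ h1 => ?_) (fun φ ψ h1 h2 => ?_) hφ
  · exact Algebra.subset_adjoin ⟨⟨φ, hφ⟩, rfl⟩
  · rw [map_zero]
    exact zero_mem _
  · rw [map_add]
    exact add_mem h1 h2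
  · rw [map_smul]
    exact Subalgebra.smul_mem _ h1 c
  · rw [map_mul]
    exact mul_mem h1 h2

end Main

end Pool.Agent.TWHT
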