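import Pool.Agent.Lib.TWHT.ThA
import Pool.Agent.Lib.TWHT.ThI
import Pool.Agent.Lib.TWIV.HT12b

/-!
# TANK W, leaf (Ht): the operators `Th N j` and the operators `IsW`

* `pol`: the polynomial of a finitely supported function, `m = 1`;
* `htd_of_pdat`: the data `PDat`, `m = 1`, give `HTD`;
* `Tht.fn_eq`, `Tht.fn_eqE`, `Tht.exists_isW`: `Th N j` is the operator `IsW` of order `j / p ^ N`;
* **`Tht.opF`**: the axioms `OpF`, for the extensions `𝒜` of the operators over `L`.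
-/

set_option autoImplicit false
set_option linter.unusedSectionVars false

open Polynomial

namespace Pool.Agent.TWHT

open Pool.Agent.H15JM (RVal)
open Pool.Agent.LU1 (VPos adj)
open Pool.Agent.D2 (Ctx0)
open Pool.Agent.D2P (clI mem_clI)
open Pool.Agent.TWM Pool.Agent.TWC
open Pool.Agent.TWC.Key (hd ev)
open Pool.Agent.TWIV (OpX OpF)

universe u

variable {k Ω : Type u} [Field k] [Field Ω] [Algebra k Ω] {v : RVal Ω} {p : ℕ}
  {B C L E T A : IntermediateField k Ω} {u M : ℕ → Fin 1 → Ω} {rho : Fin 1 → ℝ}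
  {Th : ℕ → ℕ → Ω → Ω}

/-! ### Polynomials -/

/-- The polynomial of a finitely supported function. -/
noncomputable def pol (f : (Fin 1 → ℕ) →₀ B) : Polynomial Ω :=
  f.sum fun I a => monomial (I 0) ((a : B) : Ω)

theorem pol_zero : pol (0 : (Fin 1 → ℕ) →₀ B) = 0 := Finsupp.sum_zero_index

theorem pol_add (f g : (Fin 1 → ℕ) →₀ B) : pol (f + g) = pol f + pol g :=
  Finsupp.sum_add_index' (fun _ => by rw [ZeroMemClass.coe_zero, monomial_zero_right])
    fun _ a b => by rw [AddMemClass.coe_add, map_add]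

theorem pol_single (I : Fin 1 → ℕ) (a : B) :
    pol (Finsupp.single I a) = monomial (I 0) ((a : B) : Ω) :=
  Finsupp.sum_single_index (by rw [ZeroMemClass.coe_zero, monomial_zero_right])

theorem pol_mem (f : (Fin 1 → ℕ) →₀ B) : pol f ∈ PI B := by
  refine sum_mem fun I _ i => ?_
  rw [coeff_monomial]
  split_ifs
  exacts [SetLike.coe_mem _, zero_mem _]

theorem prod_one (w : Fin 1 → Ω) (I : Fin 1 → ℕ) : ∏ l, w l ^ I l = w 0 ^ I 0 := by
  rw [Fin.prod_univ_one]

theorem eval_pol (w : Fin 1 → Ω) (f : (Fin 1 → ℕ) →₀ B) : (pol f).eval (w 0) = ev w f := by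
  induction f using Finsupp.induction_linear with
  | zero => rw [pol_zero, eval_zero, map_zero]
  | add f g hf hg => rw [pol_add, eval_add, map_add, hf, hg]
  | single I a =>
    rw [pol_single, eval_monomial, Key.ev_single, prod_one]
    rfl

theorem coeff_pol (w : Fin 1 → Ω) (F : Fin 1 → ℕ) (f : (Fin 1 → ℕ) →₀ B) :
    (taylor (w 0) (pol f)).coeff (F 0) = ev w (hd F f) := by
  induction f using Finsupp.induction_linear with
  | zero => rw [pol_zero, map_zero, coeff_zero, map_zero, map_zero]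
  | add f g hf hg => rw [pol_add, map_add, coeff_add, map_add, map_add, hf, hg]
  | single I a =>
    rw [pol_single, taylor_coeff, hasseDeriv_monomial, eval_monomial, Key.hd_single, Key.ev_single,
      prod_one, Fin.prod_univ_one, map_mul, map_natCast]
    rw [mul_comm (((I 0).choose (F 0) : ℕ) : Ω)]
    rfl

theorem exists_pol {P : Polynomial Ω} (hP : P ∈ PI B) : ∃ f : (Fin 1 → ℕ) →₀ B, pol f = P := by
  classical
  refine ⟨∑ i ∈ P.support, Finsupp.single (fun _ => i) (⟨P.coeff i, hP i⟩ : B), ?_⟩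
  have key : ∀ s : Finset ℕ,
      pol (∑ i ∈ s, Finsupp.single (fun _ : Fin 1 => i) (⟨P.coeff i, hP i⟩ : B)) =
        ∑ i ∈ s, monomial i (P.coeff i) := by
    intro s
    induction s using Finset.induction_on with
    | empty => rw [Finset.sum_empty, Finset.sum_empty, pol_zero]
    | insert i s hi ih => rw [Finset.sum_insert hi, Finset.sum_insert hi, pol_add, pol_single, ih]
  rw [key]
  exact P.as_sum_support.symm

/-! ### The data -/

section Data

variable [hp : Fact p.Prime]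

theorem nbx_of_nbr (hr : ∀ n l, u (n + 1) l ^ p = u n l) (h : NBR p v L u rho) :
    NBX p v L (fun n => u n 0) fun n F => F * rho 0 / p ^ n where
  root := fun n => hr n 0
  lift := fun n F => by
    have hp0 : (p : ℝ) ≠ 0 := by exact_mod_cast hp.out.ne_zero
    push_cast
    rw [pow_succ]
    field_simp
  nb := fun n P hP F hF b hb => by
    obtain ⟨f, rfl⟩ := exists_pol hP
    rw [eval_pol] at hb
    have h1 := h n (fun _ => F) (fun _ => hF) f b hb
    have h2 := coeff_pol (u n) (fun _ => F) f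
    have h3 : Key.wt p rho n (fun _ : Fin 1 => F) = F * rho 0 / p ^ n := by
      rw [Key.wt, Fin.sum_univ_one, mul_div_assoc]
    rw [h3] at h1
    change v.Ge _ ((taylor (u n 0) (pol f)).coeff ((fun _ : Fin 1 => F) 0))
    rw [h2]
    exact h1

omit hp in
theorem au_sub_ax (B : IntermediateField k Ω) (u : ℕ → Fin 1 → Ω) :
    AU B u ⊆ AX B fun n => u n 0 := by
  rintro _ ⟨n, f, rfl⟩
  exact ⟨n, pol f, pol_mem f, (eval_pol _ f).symm⟩

omit hp in
theorem ax_sub_au (B : IntermediateField k Ω) (u : ℕ → Fin 1 → Ω) :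
    AX B (fun n => u n 0) ⊆ AU B u := by
  rintro _ ⟨n, P, hP, rfl⟩
  obtain ⟨f, rfl⟩ := exists_pol hP
  exact ⟨n, f, eval_pol _ f⟩

/-- **The data, `m = 1`.** -/
theorem htd_of_pdat (h : PDat p v C L E u M rho) :
    HTD p v C L E (fun n => u n 0) (fun n => M n 0) (rho 0) where
  nbx := nbx_of_nbr h.root h.norm
  le := h.le
  CE := h.CE
  cldC := h.cldC
  cldL := h.cldL
  cldE := h.cldE
  perf := h.perf
  mem := fun n => h.mem n 0
  dns := fun x hx b => by
    obtain ⟨a, ha, haE, h1⟩ := h.dns x hx b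
    exact ⟨a, au_sub_ax C u ha, haE, h1⟩
  base := h.base 0
  rootc := fun n => h.rootM n 0
  ne := fun n => h.ne n 0
  val := fun n => h.val n 0
  memc := fun n => h.memM n 0
  con := fun n => h.con n 0

theorem mW_one (M : ℕ → Fin 1 → Ω) (n : ℕ) (F : Fin 1 → ℕ) : mW M n F = M n 0 ^ F 0 := by
  rw [mW, Fin.prod_univ_one]

end Data

/-! ### The operators -/

namespace Tht

variable [hp : Fact p.Prime] [CharP Ω p] [hcx : Fact (Ctx0 k v)]

/-- `Th N j` is the operator of order `j / p ^ N` over `L`. -/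
theorem fn_eq (h : Tht p v C L E (fun n => u n 0) (fun n => M n 0) (rho 0) Th)
    {N : ℕ} {F : Fin 1 → ℕ} (hF : F 0 < p ^ N) {Φ : Opr v (clI v (L ⊔ E))}
    (hΦ : IsW p L u M Φ N F) {y : Ω} (hy : y ∈ clI v (L ⊔ E)) : fn Φ y = Th N (F 0) y := by
  have hr : ∀ n l, u (n + 1) l ^ p = u n l := fun n l => by
    fin_cases l
    exact h.dat.nbx.root n
  refine eq_of_ge (v := v) fun b => ?_
  obtain ⟨_, ⟨n, P, hP, rfl⟩, ha, h1⟩ := h.dat.dnsA h.dat.le y hy b
  have h2 : fn Φ (P.eval (u n 0)) = Th N (F 0) (P.eval (u n 0)) := by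
    have e1 := ax_lift (x := fun n => u n 0) h.dat.nbx.root n N P
    rw [add_comm n N] at e1
    rw [← e1]
    have hP' := expand_mem_PI (pow_pos hp.out.pos N) hP
    obtain ⟨f, hf⟩ := exists_pol hP'
    rw [h.ev' hF n hP', ← hf]
    change fn Φ ((pol f).eval (u (N + n) 0)) = _
    rw [eval_pol, hΦ n f, mW_one]
    congr 1
    exact (coeff_pol (u (N + n)) (fun l => p ^ n * F l) f).symm
  have e2 : fn Φ y - Th N (F 0) y = (fn Φ y - fn Φ (P.eval (u n 0))) -
      (Th N (F 0) y - Th N (F 0) (P.eval (u n 0))) := by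
    rw [h2]
    ring
  rw [e2]
  exact (fn_near Φ hy ha h1).sub (h.near hF hy ha h1)

/-- `Th N j` is the operator of order `j / p ^ N` over `C`, on `E`. -/
theorem fn_eqE (h : Tht p v C L E (fun n => u n 0) (fun n => M n 0) (rho 0) Th)
    {N : ℕ} {F : Fin 1 → ℕ} (hF : F 0 < p ^ N) {φ : Opr v E}
    (hφ : IsW p C u M φ N F) {y : Ω} (hy : y ∈ E) : fn φ y = Th N (F 0) y := by
  refine eq_of_ge (v := v) fun b => ?_
  obtain ⟨_, ⟨n, P, hP, rfl⟩, ha, h1⟩ := h.dat.dns y hy b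
  have h2 : fn φ (P.eval (u n 0)) = Th N (F 0) (P.eval (u n 0)) := by
    have e1 := ax_lift (x := fun n => u n 0) h.dat.nbx.root n N P
    rw [add_comm n N] at e1
    rw [← e1]
    have hP' := expand_mem_PI (pow_pos hp.out.pos N) hP
    obtain ⟨f, hf⟩ := exists_pol hP'
    rw [h.ev' hF n (PI_mono h.dat.le hP'), ← hf]
    change fn φ ((pol f).eval (u (N + n) 0)) = _
    rw [eval_pol, hφ n f, mW_one]
    congr 1
    exact (coeff_pol (u (N + n)) (fun l => p ^ n * F l) f).symm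
  have e2 : fn φ y - Th N (F 0) y = (fn φ y - fn φ (P.eval (u n 0))) -
      (Th N (F 0) y - Th N (F 0) (P.eval (u n 0))) := by
    rw [h2]
    ring
  rw [e2]
  exact (fn_near φ hy ha h1).sub (h.near hF (h.dat.leE hy) (h.dat.leE ha) h1)

/-- The operators of `PDat` over `L`. -/
theorem exists_isW (hc : CompleteV v) (hd : PDat p v C L E u M rho)
    (h : Tht p v C L E (fun n => u n 0) (fun n => M n 0) (rho 0) Th) {N j : ℕ} (hj : j < p ^ N) :
    ∃ Φ : Opr v (clI v (L ⊔ E)), IsW p L u M Φ N (fun _ => j) ∧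
      ∀ y ∈ clI v (L ⊔ E), fn Φ y = Th N j y := by
  obtain ⟨Φ, hΦ⟩ := hd.exL hc N (fun _ => j) fun _ => hj
  exact ⟨Φ, hΦ, fun y hy => h.fn_eq (F := fun _ => j) hj hΦ hy⟩

/-- The operators of `PDat` over `C`. -/
theorem exists_isWE (hc : CompleteV v) (hd : PDat p v C L E u M rho)
    (h : Tht p v C L E (fun n => u n 0) (fun n => M n 0) (rho 0) Th) {N j : ℕ} (hj : j < p ^ N) :
    ∃ φ : Opr v E, IsW p C u M φ N (fun _ => j) ∧ ∀ y ∈ E, fn φ y = Th N j y := by
  obtain ⟨φ, hφ⟩ := hd.exW hc N (fun _ => j) fun _ => hj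
  exact ⟨φ, hφ, fun y hy => h.fn_eqE (F := fun _ => j) hj hφ hy⟩

/-- **The axioms `OpF`.** -/
theorem opF_of_rep (h : Tht p v C L E (fun n => u n 0) (fun n => M n 0) (rho 0) Th)
    {𝒜 : Submodule k (Module.End k Ω)} (hrep : ∀ N j, 0 < j → j < p ^ N →
      ∃ ψ ∈ 𝒜, ∀ x ∈ clI v (L ⊔ E), ψ x = Th N j x) : OpF p v (clI v (L ⊔ E)) 𝒜 Th where
  rep := hrep
  memT := fun N j _ _ _ hx => h.memT N j hx
  lev := fun _ _ _ hj _ hx => h.lev hj hx
  frob := fun _ _ _ hj _ hx => h.frob hj hx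
  fin := fun x hx => by
    obtain ⟨N₀, h1⟩ := h.fin hx 0
    refine ⟨N₀, fun N j _ hj hd => ?_⟩
    rcases le_or_gt N₀ N with h2 | h2
    · exact h1 N h2 j hj hd
    · rw [Nat.sub_eq_zero_of_le h2.le, pow_zero] at hd
      exact absurd (one_dvd j) hd
  nil := fun _ _ h0 hj _ hx => h.nil h0 hj hx 0

theorem opF (hc : CompleteV v) (hd : PDat p v C L E u M rho)
    (h : Tht p v C L E (fun n => u n 0) (fun n => M n 0) (rho 0) Th)
    {𝒜 : Submodule k (Module.End k Ω)}
    (hA : OpX v L (clI v (L ⊔ E)) (genL p v L (clI v (L ⊔ E)) u M) 𝒜) :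
    OpF p v (clI v (L ⊔ E)) 𝒜 Th := by
  refine h.opF_of_rep fun N j h0 hj => ?_
  obtain ⟨Φ, hΦ, h1⟩ := h.exists_isW hc hd hj
  obtain ⟨ψ, hψ, h2⟩ := hA.mem Φ ⟨N, fun _ => j, ⟨0, h0.ne'⟩, fun _ => hj, hΦ⟩
  exact ⟨ψ, hψ, fun x hx => (h2 x hx).trans (h1 x hx)⟩

end Tht

/-- **The operators of `PDat`, `m = 1`.** -/
theorem exists_tht_of_pdat [hp : Fact p.Prime] [CharP Ω p] [hcx : Fact (Ctx0 k v)]
    (hc : CompleteV v) (h : PDat p v C L E u M rho) :
    ∃ Th, Tht p v C L E (fun n => u n 0) (fun n => M n 0) (rho 0) Th :=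
  (htd_of_pdat h).exists_tht hc

end Pool.Agent.TWHT
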