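import Pool.Agent.Lib.TWHT.ThA
import Pool.Agent.Lib.TWC.DescDefs
import Pool.Agent.Lib.TWC.First

/-!
# TANK W, leaf (Ht): the algebra generated by the operators `Th N j`

* `Tht.ext_uniq`, `Tht.ext_th`: the `L`-linear extensions;
* `genT`: the operators `Th N j` of `E`;
* **`Tht.exists_span`**: on the classes modulo `B + O` of the limits of a stable field `B` the elements
  of the algebra generated by the `Th N j` are `k`-combinations of the `Th N j`;
* **`Tht.exists_comb`**: the same with the operators of one level.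
-/

set_option autoImplicit false
set_option linter.unusedSectionVars false

open Polynomial

namespace Pool.Agent.TWHT

open Pool.Agent.H15JM (RVal)
open Pool.Agent.LU1 (VPos adj)
open Pool.Agent.D2 (Ctx0)
open Pool.Agent.D2P (clI mem_clI)
open Pool.Agent.TWM Pool.Agent.TWC

universe u

variable {k Ω : Type u} [Field k] [Field Ω] [Algebra k Ω] {v : RVal Ω} {p : ℕ}
  {B C L E T A : IntermediateField k Ω} {x c : ℕ → Ω} {r : ℝ} {Th : ℕ → ℕ → Ω → Ω}

/-- `B` is a stable field. -/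
structure StbB (p : ℕ) (Th : ℕ → ℕ → Ω → Ω) (E T B : IntermediateField k Ω) : Prop where
  le : E ≤ B
  leT : B ≤ T
  stb : ∀ N j, j < p ^ N → ∀ y ∈ B, Th N j y ∈ B

/-- The operators `Th N j` of `E`, of positive order. -/
def genT (p : ℕ) (v : RVal Ω) [Fact (Ctx0 k v)] (E : IntermediateField k Ω)
    (Th : ℕ → ℕ → Ω → Ω) : Set (Opr v E) :=
  {φ | ∃ N j, 0 < j ∧ j < p ^ N ∧ ∀ y ∈ E, fn φ y = Th N j y}

/-- The functions `Th N j`. -/
def genF (p : ℕ) (Th : ℕ → ℕ → Ω → Ω) : Set (Ω → Ω) := {f | ∃ N j, 0 < j ∧ j < p ^ N ∧ f = Th N j}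

namespace Tht

variable [hp : Fact p.Prime] [CharP Ω p] [hcx : Fact (Ctx0 k v)]

/-- The extensions are unique. -/
theorem ext_uniq (h : Tht p v C L E x c r Th) {φ : Opr v E} {Φ Ψ : Opr v (clI v (L ⊔ E))}
    (hΦ : IsExt L φ Φ) (hΨ : IsExt L φ Ψ) {y : Ω} (hy : y ∈ clI v (L ⊔ E)) :
    fn Φ y = fn Ψ y := by
  refine eq_of_ge (v := v) fun b => ?_
  obtain ⟨_, ⟨n, P, hP, rfl⟩, ha, h1⟩ := h.dat.dnsA h.dat.le y hy b
  have hxE : ∀ i, x n ^ i ∈ E := fun i => pow_mem (h.dat.mem n) i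
  have hxT : ∀ i, x n ^ i ∈ clI v (L ⊔ E) := fun i => h.dat.leE (hxE i)
  have key : ∀ Φ : Opr v (clI v (L ⊔ E)), IsExt L φ Φ →
      fn Φ (P.eval (x n)) = ∑ i ∈ P.support, P.coeff i * fn φ (x n ^ i) := by
    intro Φ hΦ
    rw [eval_eq_sum, Polynomial.sum, fn_sum Φ _ _ fun i _ => mul_mem (h.dat.leL (hP i)) (hxT i)]
    refine Finset.sum_congr rfl fun i _ => ?_
    rw [hΦ.lin _ (hP i) _ (hxT i), hΦ.eq _ (hxE i)]
  have h2 : fn Φ (P.eval (x n)) = fn Ψ (P.eval (x n)) := by rw [key Φ hΦ, key Ψ hΨ]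
  have e2 : fn Φ y - fn Ψ y = (fn Φ y - fn Φ (P.eval (x n))) - (fn Ψ y - fn Ψ (P.eval (x n))) := by
    rw [h2]
    ring
  rw [e2]
  exact (fn_near Φ hy ha h1).sub (fn_near Ψ hy ha h1)

/-- The extension of the operator `Th N j`. -/
theorem ext_th (h : Tht p v C L E x c r Th) {N j : ℕ} (hj : j < p ^ N) {φ : Opr v E}
    {Φ : Opr v (clI v (L ⊔ E))} (hφ : ∀ y ∈ E, fn φ y = Th N j y) (hΦ : IsExt L φ Φ) {y : Ω}
    (hy : y ∈ clI v (L ⊔ E)) : fn Φ y = Th N j y := by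
  refine eq_of_ge (v := v) fun b => ?_
  obtain ⟨_, ⟨n, P, hP, rfl⟩, ha, h1⟩ := h.dat.dnsA h.dat.le y hy b
  have hxE : ∀ i, x n ^ i ∈ E := fun i => pow_mem (h.dat.mem n) i
  have hxT : ∀ i, x n ^ i ∈ clI v (L ⊔ E) := fun i => h.dat.leE (hxE i)
  have h2 : fn Φ (P.eval (x n)) = Th N j (P.eval (x n)) := by
    rw [eval_eq_sum, Polynomial.sum, fn_sum Φ _ _ fun i _ => mul_mem (h.dat.leL (hP i)) (hxT i),
      h.sum N j _ _ fun i _ => mul_mem (h.dat.leL (hP i)) (hxT i)]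
    refine Finset.sum_congr rfl fun i _ => ?_
    rw [hΦ.lin _ (hP i) _ (hxT i), hΦ.eq _ (hxE i), hφ _ (hxE i), h.lin hj (hP i) (hxT i)]
  have e2 : fn Φ y - Th N j y = (fn Φ y - fn Φ (P.eval (x n))) -
      (Th N j y - Th N j (P.eval (x n))) := by
    rw [h2]
    ring
  rw [e2]
  exact (fn_near Φ hy ha h1).sub (h.near hj hy ha h1)

/-- The operator `Th N j` of `T`. -/
theorem exists_opr (h : Tht p v C L E x c r Th) {N j : ℕ} (hj : j < p ^ N) :
    ∃ Φ : Opr v (clI v (L ⊔ E)), ∀ y ∈ clI v (L ⊔ E), fn Φ y = Th N j y := by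
  refine ⟨⟨{ toFun := fun y => ⟨Th N j (y : Ω), h.memT N j y.2⟩
             map_add' := fun y z => Subtype.ext (h.add N j y.2 z.2)
             map_smul' := fun a y => Subtype.ext (by
               have h1 := h.smul hj a y.2
               rw [← Algebra.smul_def, ← Algebra.smul_def] at h1
               exact h1) }, fun y b hb => h.ge hj y.2 hb⟩, fun y hy => ?_⟩
  rw [fn_of_mem _ hy]
  rfl

/-- The operator `Th N j` of `E`. -/
theorem exists_oprE (hc : CompleteV v) (h : Tht p v C L E x c r Th) {N j : ℕ} (hj : j < p ^ N) :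
    ∃ φ : Opr v E, ∀ y ∈ E, fn φ y = Th N j y := by
  refine ⟨⟨{ toFun := fun y => ⟨Th N j (y : Ω), h.memE hc hj y.2⟩
             map_add' := fun y z => Subtype.ext (h.add N j (h.dat.leE y.2) (h.dat.leE z.2))
             map_smul' := fun a y => Subtype.ext (by
               have h1 := h.smul hj a (h.dat.leE y.2)
               rw [← Algebra.smul_def, ← Algebra.smul_def] at h1
               exact h1) }, fun y b hb => h.ge hj (h.dat.leE y.2) hb⟩, fun y hy => ?_⟩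
  rw [fn_of_mem _ hy]
  rfl

/-- The functions of the span are operators which preserve the stable fields. -/
theorem span_op (h : Tht p v C L E x c r Th) {f : Ω → Ω}
    (hf : f ∈ Submodule.span k (genF p Th)) :
    (∀ y ∈ clI v (L ⊔ E), f y ∈ clI v (L ⊔ E)) ∧
      (∀ y ∈ clI v (L ⊔ E), ∀ z ∈ clI v (L ⊔ E), f (y + z) = f y + f z) ∧
      (∀ y ∈ clI v (L ⊔ E), ∀ b : ℝ, v.Ge b y → v.Ge b (f y)) ∧
      ∀ B, StbB p Th E (clI v (L ⊔ E)) B → ∀ y ∈ B, f y ∈ B := by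
  induction hf using Submodule.span_induction with
  | mem f hf =>
    obtain ⟨N, j, -, hj, rfl⟩ := hf
    exact ⟨fun y hy => h.memT N j hy, fun y hy z hz => h.add N j hy hz,
      fun y hy b hb => h.ge hj hy hb, fun B hB y hy => hB.stb N j hj y hy⟩
  | zero =>
    exact ⟨fun y _ => zero_mem _, fun y _ z _ => (add_zero (0 : Ω)).symm,
      fun y _ b _ => RVal.Ge.zero, fun B _ y _ => zero_mem _⟩
  | add f g _ _ hf hg =>
    obtain ⟨f1, f2, f3, f4⟩ := hf
    obtain ⟨g1, g2, g3, g4⟩ := hg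
    refine ⟨fun y hy => add_mem (f1 y hy) (g1 y hy), fun y hy z hz => ?_,
      fun y hy b hb => (f3 y hy b hb).add (g3 y hy b hb),
      fun B hB y hy => add_mem (f4 B hB y hy) (g4 B hB y hy)⟩
    rw [Pi.add_apply, Pi.add_apply, Pi.add_apply, f2 y hy z hz, g2 y hy z hz]
    ring
  | smul a f _ hf =>
    obtain ⟨f1, f2, f3, f4⟩ := hf
    refine ⟨fun y hy => IntermediateField.smul_mem _ (f1 y hy), fun y hy z hz => ?_,
      fun y hy b hb => ?_, fun B hB y hy => IntermediateField.smul_mem _ (f4 B hB y hy)⟩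
    · rw [Pi.smul_apply, Pi.smul_apply, Pi.smul_apply, f2 y hy z hz, smul_add]
    · rw [Pi.smul_apply, Algebra.smul_def]
      have := (hcx.out.ge a).mul (f3 y hy b hb)
      rwa [zero_add] at this

theorem span_near (h : Tht p v C L E x c r Th) {f : Ω → Ω}
    (hf : f ∈ Submodule.span k (genF p Th)) {B : IntermediateField k Ω}
    (hB : StbB p Th E (clI v (L ⊔ E)) B) {y : Ω} (hy : y ∈ clI v (L ⊔ E)) :
    (Lim v B 0 y → Lim v B 0 (f y)) ∧ ∀ z ∈ clI v (L ⊔ E), Nr v B 0 (y - z) →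
      Nr v B 0 (f y - f z) := by
  obtain ⟨f1, f2, f3, f4⟩ := h.span_op hf
  have hsub : ∀ y ∈ clI v (L ⊔ E), ∀ z ∈ clI v (L ⊔ E), f (y - z) = f y - f z := by
    intro y hy z hz
    rw [eq_sub_iff_add_eq, ← f2 _ (sub_mem hy hz) _ hz, sub_add_cancel]
  refine ⟨fun hl ε hε => ?_, fun z hz hn => ?_⟩
  · obtain ⟨e, he, h1⟩ := hl ε hε
    refine ⟨_, f4 B hB e he, ?_⟩
    rw [← hsub y hy e (hB.leT he)]
    exact f3 _ (sub_mem hy (hB.leT he)) _ h1
  · obtain ⟨e, he, h1⟩ := hn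
    refine ⟨_, f4 B hB e he, ?_⟩
    rw [← hsub y hy z hz, ← hsub _ (sub_mem hy hz) e (hB.leT he)]
    exact f3 _ (sub_mem (sub_mem hy hz) (hB.leT he)) _ h1

/-- The composition of two operators. -/
theorem exists_comp (h : Tht p v C L E x c r Th) {N N' i j : ℕ} (hi0 : 0 < i)
    (hi : i < p ^ N) (hj : j < p ^ N') : ∃ f ∈ Submodule.span k (genF p Th),
      ∀ B, StbB p Th E (clI v (L ⊔ E)) B → ∀ y ∈ clI v (L ⊔ E), Lim v B 0 y →
        Nr v B 0 (Th N i (Th N' j y) - f y) := by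
  have hi' : p ^ N' * i < p ^ (N + N') := lt_lev hi
  have hj' : p ^ N * j < p ^ (N + N') := by
    rw [add_comm]
    exact lt_lev hj
  have e1 : ∀ z ∈ clI v (L ⊔ E), Th N i z = Th (N + N') (p ^ N' * i) z := fun z hz =>
    (h.lev' hi N' hz).symm
  have e2 : ∀ z ∈ clI v (L ⊔ E), Th N' j z = Th (N + N') (p ^ N * j) z := fun z hz => by
    rw [add_comm]
    exact (h.lev' hj N hz).symm
  have ha0 : 0 < p ^ N' * i := Nat.mul_pos (pow_pos hp.out.pos _) hi0
  generalize hα : p ^ N' * i = α at *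
  generalize hβ : p ^ N * j = β at *
  by_cases hab : α + β < p ^ (N + N')
  · refine ⟨(((α + β).choose α : ℕ) : k) • Th (N + N') (α + β),
      Submodule.smul_mem _ _ (Submodule.subset_span ⟨N + N', α + β, by omega, hab, rfl⟩),
      fun B hB y hy hl => ?_⟩
    have h1 := h.comp hcx.out hB.le hB.leT hB.stb hi' hj' hab hy hl
    rw [e2 y hy, e1 _ (h.memT _ _ hy), Pi.smul_apply, Algebra.smul_def, map_natCast]
    exact h1
  · refine ⟨0, zero_mem _, fun B hB y hy hl => ?_⟩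
    have h1 := h.comp_zero hB.le hB.leT hB.stb hi' hj' (not_lt.1 hab) hy hl
    rw [e2 y hy, e1 _ (h.memT _ _ hy), Pi.zero_apply, sub_zero]
    exact h1

/-- The composition of two combinations. -/
theorem span_comp (h : Tht p v C L E x c r Th) {f g : Ω → Ω}
    (hf : f ∈ Submodule.span k (genF p Th)) (hg : g ∈ Submodule.span k (genF p Th)) :
    ∃ f' ∈ Submodule.span k (genF p Th),
      ∀ B, StbB p Th E (clI v (L ⊔ E)) B → ∀ y ∈ clI v (L ⊔ E), Lim v B 0 y →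
        Nr v B 0 (f (g y) - f' y) := by
  have hk : ∀ (a : k) {B : IntermediateField k Ω} {z : Ω}, Nr v B 0 z →
      Nr v B 0 (a • z) := by
    rintro a B z ⟨e, he, h1⟩
    refine ⟨a • e, IntermediateField.smul_mem _ he, ?_⟩
    rw [← smul_sub, Algebra.smul_def]
    have := (hcx.out.ge a).mul h1
    rwa [zero_add] at this
  have hz : ∀ B : IntermediateField k Ω, Nr v B 0 (0 : Ω) := fun B =>
    ⟨0, zero_mem _, by rw [sub_self]; exact RVal.Ge.zero⟩
  induction hf using Submodule.span_induction with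
  | mem f hf =>
    obtain ⟨N, i, hi0, hi, rfl⟩ := hf
    induction hg using Submodule.span_induction with
    | mem g hg =>
      obtain ⟨N', j, -, hj, rfl⟩ := hg
      exact h.exists_comp hi0 hi hj
    | zero =>
      refine ⟨0, zero_mem _, fun B hB y hy hl => ?_⟩
      rw [Pi.zero_apply, h.map_zero', sub_zero]
      exact hz B
    | add g g' hg hg' ih ih' =>
      obtain ⟨f₁, hf₁, h1⟩ := ih
      obtain ⟨f₂, hf₂, h2⟩ := ih'
      refine ⟨f₁ + f₂, add_mem hf₁ hf₂, fun B hB y hy hl => ?_⟩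
      rw [Pi.add_apply, Pi.add_apply, h.add N i ((h.span_op hg).1 y hy) ((h.span_op hg').1 y hy)]
      refine Eq.mp (congrArg (fun t => Nr v B 0 t) ?_) (nr_add' (h1 B hB y hy hl) (h2 B hB y hy hl))
      ring
    | smul a g hg ih =>
      obtain ⟨f₁, hf₁, h1⟩ := ih
      refine ⟨a • f₁, Submodule.smul_mem _ _ hf₁, fun B hB y hy hl => ?_⟩
      have h3 := h.smul hi a ((h.span_op hg).1 y hy)
      rw [← Algebra.smul_def, ← Algebra.smul_def] at h3
      rw [Pi.smul_apply, Pi.smul_apply, h3, ← smul_sub]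
      exact hk a (h1 B hB y hy hl)
  | zero =>
    refine ⟨0, zero_mem _, fun B hB y hy hl => ?_⟩
    rw [Pi.zero_apply, Pi.zero_apply, sub_zero]
    exact hz B
  | add f₁ f₂ _ _ ih ih' =>
    obtain ⟨g₁, hg₁, h1⟩ := ih
    obtain ⟨g₂, hg₂, h2⟩ := ih'
    refine ⟨g₁ + g₂, add_mem hg₁ hg₂, fun B hB y hy hl => ?_⟩
    rw [Pi.add_apply, Pi.add_apply]
    refine Eq.mp (congrArg (fun t => Nr v B 0 t) ?_) (nr_add' (h1 B hB y hy hl) (h2 B hB y hy hl))
    ring
  | smul a f _ ih =>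
    obtain ⟨g₁, hg₁, h1⟩ := ih
    refine ⟨a • g₁, Submodule.smul_mem _ _ hg₁, fun B hB y hy hl => ?_⟩
    rw [Pi.smul_apply, Pi.smul_apply, ← smul_sub]
    exact hk a (h1 B hB y hy hl)

/-- **The algebra of the operators, on the classes.** -/
theorem exists_span (h : Tht p v C L E x c r Th) {φ : Opr v E}
    (hφ : φ ∈ adjT (genT p v E Th)) : ∃ f ∈ Submodule.span k (genF p Th),
      ∀ Φ : Opr v (clI v (L ⊔ E)), IsExt L φ Φ → ∀ B, StbB p Th E (clI v (L ⊔ E)) B →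
        (∀ y ∈ B, fn Φ y ∈ B) ∧
        ∀ y ∈ clI v (L ⊔ E), Lim v B 0 y → Nr v B 0 (fn Φ y - f y) := by
  have hk : ∀ (a : k) {B : IntermediateField k Ω} {z : Ω}, Nr v B 0 z →
      Nr v B 0 (a • z) := by
    rintro a B z ⟨e, he, h1⟩
    refine ⟨a • e, IntermediateField.smul_mem _ he, ?_⟩
    rw [← smul_sub, Algebra.smul_def]
    have := (hcx.out.ge a).mul h1
    rwa [zero_add] at this
  have hz : ∀ B : IntermediateField k Ω, Nr v B 0 (0 : Ω) := fun B =>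
    ⟨0, zero_mem _, by rw [sub_self]; exact RVal.Ge.zero⟩
  suffices H : ∃ Φ₀ : Opr v (clI v (L ⊔ E)), IsExt L φ Φ₀ ∧
      ∃ f ∈ Submodule.span k (genF p Th), ∀ B, StbB p Th E (clI v (L ⊔ E)) B →
        (∀ y ∈ B, fn Φ₀ y ∈ B) ∧
        ∀ y ∈ clI v (L ⊔ E), Lim v B 0 y → Nr v B 0 (fn Φ₀ y - f y) by
    obtain ⟨Φ₀, hΦ₀, f, hf, h1⟩ := H
    refine ⟨f, hf, fun Φ hΦ B hB => ⟨fun y hy => ?_, fun y hy hl => ?_⟩⟩
    · rw [h.ext_uniq hΦ hΦ₀ (hB.leT hy)]
      exact (h1 B hB).1 y hy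
    · rw [h.ext_uniq hΦ hΦ₀ hy]
      exact (h1 B hB).2 y hy hl
  refine adjT_induction (P := fun φ => ∃ Φ₀ : Opr v (clI v (L ⊔ E)), IsExt L φ Φ₀ ∧
      ∃ f ∈ Submodule.span k (genF p Th), ∀ B, StbB p Th E (clI v (L ⊔ E)) B →
        (∀ y ∈ B, fn Φ₀ y ∈ B) ∧
        ∀ y ∈ clI v (L ⊔ E), Lim v B 0 y → Nr v B 0 (fn Φ₀ y - f y)) ?_ ?_ ?_ ?_ ?_ hφ
  · rintro φ ⟨N, j, hj0, hj, hφ⟩
    obtain ⟨Φ, hΦ⟩ := h.exists_opr hj
    refine ⟨Φ, ⟨fun e he => ?_, fun l hl y hy => ?_⟩, Th N j,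
      Submodule.subset_span ⟨N, j, hj0, hj, rfl⟩, fun B hB => ⟨fun y hy => ?_, fun y hy hl => ?_⟩⟩
    · rw [hΦ e (h.dat.leE he), hφ e he]
    · rw [hΦ _ (mul_mem (h.dat.leL hl) hy), hΦ y hy, h.lin hj hl hy]
    · rw [hΦ y (hB.leT hy)]
      exact hB.stb N j hj y hy
    · rw [hΦ y hy, sub_self]
      exact hz B
  · refine ⟨0, ⟨fun e _ => by rw [fn_opZero, fn_opZero], fun l _ y _ => by
      rw [fn_opZero, fn_opZero, mul_zero]⟩, 0, zero_mem _, fun B hB => ⟨fun y _ => ?_,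
        fun y _ _ => ?_⟩⟩
    · rw [fn_opZero]
      exact zero_mem _
    · rw [fn_opZero, Pi.zero_apply, sub_self]
      exact hz B
  · rintro φ ψ ⟨Φ, hΦ, f, hf, h1⟩ ⟨Ψ, hΨ, g, hg, h2⟩
    refine ⟨Φ + Ψ, ⟨fun e he => by rw [fn_opAdd, fn_opAdd, hΦ.eq e he, hΨ.eq e he],
      fun l hl x hx => by rw [fn_opAdd, fn_opAdd, hΦ.lin l hl x hx, hΨ.lin l hl x hx, mul_add]⟩,
      f + g, add_mem hf hg, fun B hB => ⟨fun y hy => ?_, fun y hy hl => ?_⟩⟩
    · rw [fn_opAdd]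
      exact add_mem ((h1 B hB).1 y hy) ((h2 B hB).1 y hy)
    · rw [fn_opAdd, Pi.add_apply]
      refine Eq.mp (congrArg (fun t => Nr v B 0 t) ?_)
        (nr_add' ((h1 B hB).2 y hy hl) ((h2 B hB).2 y hy hl))
      ring
  · rintro a φ ⟨Φ, hΦ, f, hf, h1⟩
    refine ⟨a • Φ, ⟨fun e he => by rw [fn_opSmul, fn_opSmul, hΦ.eq e he],
      fun l hl x hx => by rw [fn_opSmul, fn_opSmul, hΦ.lin l hl x hx, mul_smul_comm]⟩,
      a • f, Submodule.smul_mem _ _ hf, fun B hB => ⟨fun y hy => ?_, fun y hy hl => ?_⟩⟩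
    · rw [fn_opSmul]
      exact IntermediateField.smul_mem _ ((h1 B hB).1 y hy)
    · rw [fn_opSmul, Pi.smul_apply, ← smul_sub]
      exact hk a ((h1 B hB).2 y hy hl)
  · rintro φ ψ ⟨Φ, hΦ, f, hf, h1⟩ ⟨Ψ, hΨ, g, hg, h2⟩
    obtain ⟨f', hf', h3⟩ := h.span_comp hf hg
    refine ⟨Φ * Ψ, ⟨fun e he => ?_, fun l hl x hx => ?_⟩, f', hf',
      fun B hB => ⟨fun y hy => ?_, fun y hy hl => ?_⟩⟩
    · rw [fn_opMul _ _ (h.dat.leE he), fn_opMul _ _ he, hΨ.eq e he, hΦ.eq _ (fn_mem ψ e)]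
    · rw [fn_opMul _ _ (mul_mem (h.dat.leL hl) hx), fn_opMul _ _ hx, hΨ.lin l hl x hx,
        hΦ.lin l hl _ (fn_mem Ψ x)]
    · rw [fn_opMul _ _ (hB.leT hy)]
      exact (h1 B hB).1 _ ((h2 B hB).1 y hy)
    · rw [fn_opMul _ _ hy]
      have hlΨ : Lim v B 0 (fn Ψ y) := by
        intro ε hε
        obtain ⟨e, he, h4⟩ := hl ε hε
        exact ⟨_, (h2 B hB).1 e he, fn_near Ψ hy (hB.leT he) h4⟩
      have h4 := (h1 B hB).2 _ (fn_mem Ψ y) hlΨ
      have h5 := (h.span_near hf hB (fn_mem Ψ y)).2 _ ((h.span_op hg).1 y hy)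
        ((h2 B hB).2 y hy hl)
      have h6 := h3 B hB y hy hl
      refine Eq.mp (congrArg (fun t => Nr v B 0 t) ?_) (nr_add' (nr_add' h4 h5) h6)
      ring

/-- The combinations of operators of one level. -/
theorem exists_lev (h : Tht p v C L E x c r Th) {f : Ω → Ω}
    (hf : f ∈ Submodule.span k (genF p Th)) : ∃ (N : ℕ) (lam : ℕ → k), lam 0 = 0 ∧
      ∀ y ∈ clI v (L ⊔ E), f y = ∑ g ∈ Finset.range (p ^ N), algebraMap k Ω (lam g) * Th N g y := by
  have key : ∀ (N m : ℕ) (lam : ℕ → k), lam 0 = 0 → ∃ lam' : ℕ → k, lam' 0 = 0 ∧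
      ∀ y ∈ clI v (L ⊔ E), ∑ g ∈ Finset.range (p ^ N), algebraMap k Ω (lam g) * Th N g y =
        ∑ g ∈ Finset.range (p ^ (N + m)), algebraMap k Ω (lam' g) * Th (N + m) g y := by
    intro N m lam h0
    have hpm : 0 < p ^ m := pow_pos hp.out.pos m
    refine ⟨fun g => if p ^ m ∣ g then lam (g / p ^ m) else 0, ?_, fun y hy => ?_⟩
    · beta_reduce
      rw [if_pos (dvd_zero _), Nat.zero_div, h0]
    · have h1 : ∑ g ∈ Finset.range (p ^ N), algebraMap k Ω (lam g) * Th N g y =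
          ∑ g ∈ (Finset.range (p ^ N)).image (fun g => p ^ m * g),
            algebraMap k Ω (if p ^ m ∣ g then lam (g / p ^ m) else 0) * Th (N + m) g y := by
        rw [Finset.sum_image fun a _ b _ hab => Nat.eq_of_mul_eq_mul_left hpm hab]
        refine Finset.sum_congr rfl fun g hg => ?_
        rw [if_pos (dvd_mul_right _ _), Nat.mul_div_cancel_left _ hpm,
          h.lev' (Finset.mem_range.1 hg) m hy]
      rw [h1]
      refine Finset.sum_subset ?_ fun g hg hno => ?_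
      · intro g hg
        obtain ⟨g', hg', rfl⟩ := Finset.mem_image.1 hg
        exact Finset.mem_range.2 (lt_lev (Finset.mem_range.1 hg'))
      · rw [if_neg, map_zero, zero_mul]
        rintro ⟨g', rfl⟩
        refine hno (Finset.mem_image.2 ⟨g', Finset.mem_range.2 ?_, rfl⟩)
        have h2 := Finset.mem_range.1 hg
        rw [pow_add, mul_comm (p ^ N)] at h2
        exact Nat.lt_of_mul_lt_mul_left h2
  induction hf using Submodule.span_induction with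
  | mem f hf =>
    obtain ⟨N, j, hj0, hj, rfl⟩ := hf
    refine ⟨N, fun g => if g = j then 1 else 0, if_neg hj0.ne, fun y hy => ?_⟩
    rw [Finset.sum_eq_single j]
    · beta_reduce
      rw [if_pos rfl, map_one, one_mul]
    · intro g _ hg
      beta_reduce
      rw [if_neg hg, map_zero, zero_mul]
    · exact fun h1 => absurd (Finset.mem_range.2 hj) h1
  | zero =>
    refine ⟨0, 0, rfl, fun y _ => ?_⟩
    simp
  | add f g _ _ hf hg =>
    obtain ⟨N, lam, h0, h1⟩ := hf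
    obtain ⟨N', lam', h0', h1'⟩ := hg
    obtain ⟨μ, hμ0, hμ⟩ := key N N' lam h0
    obtain ⟨μ', hμ0', hμ'⟩ := key N' N lam' h0'
    refine ⟨N + N', fun g => μ g + μ' g, by beta_reduce; rw [hμ0, hμ0', add_zero],
      fun y hy => ?_⟩
    rw [Pi.add_apply, h1 y hy, h1' y hy, hμ y hy, hμ' y hy, add_comm N' N,
      ← Finset.sum_add_distrib]
    refine Finset.sum_congr rfl fun g _ => ?_
    rw [map_add, add_mul]
  | smul a f _ hf =>
    obtain ⟨N, lam, h0, h1⟩ := hf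
    refine ⟨N, fun g => a * lam g, by beta_reduce; rw [h0, mul_zero], fun y hy => ?_⟩
    rw [Pi.smul_apply, h1 y hy, Finset.smul_sum]
    refine Finset.sum_congr rfl fun g _ => ?_
    rw [Algebra.smul_def, map_mul, mul_assoc]

/-- **The algebra of the operators, on the classes, one level.** -/
theorem exists_comb (h : Tht p v C L E x c r Th) {φ : Opr v E}
    (hφ : φ ∈ adjT (genT p v E Th)) : ∃ (N : ℕ) (lam : ℕ → k), lam 0 = 0 ∧
      ∀ Φ : Opr v (clI v (L ⊔ E)), IsExt L φ Φ → ∀ B, StbB p Th E (clI v (L ⊔ E)) B →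
        (∀ y ∈ B, fn Φ y ∈ B) ∧ ∀ y ∈ clI v (L ⊔ E), Lim v B 0 y →
          Nr v B 0 (fn Φ y - ∑ g ∈ Finset.range (p ^ N), algebraMap k Ω (lam g) * Th N g y) := by
  obtain ⟨f, hf, h1⟩ := h.exists_span hφ
  obtain ⟨N, lam, h0, h2⟩ := h.exists_lev hf
  refine ⟨N, lam, h0, fun Φ hΦ B hB => ⟨(h1 Φ hΦ B hB).1, fun y hy hl => ?_⟩⟩
  rw [← h2 y hy]
  exact (h1 Φ hΦ B hB).2 y hy hl

/-- The closures of `A E`, `C ≤ A ≤ L`, are stable. -/
theorem stb_cl (hc : CompleteV v) (h : Tht p v C L E x c r Th) (hCA : C ≤ A)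
    (hAL : A ≤ L) : StbB p Th E (clI v (L ⊔ E)) (clI v (A ⊔ E)) where
  le := le_sup_right.trans fun _ ha => LUC.Cl.subset ha
  leT := clI_mono' (sup_le_sup_right hAL E)
  stb := h.stb hc hCA hAL

/-- `E` is stable. -/
theorem stbE (hc : CompleteV v) (h : Tht p v C L E x c r Th) :
    StbB p Th E (clI v (L ⊔ E)) E where
  le := le_rfl
  leT := h.dat.leE
  stb := fun _ _ hj _ hy => h.memE hc hj hy

end Tht

end Pool.Agent.TWHT
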