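import Pool.Agent.Lib.TWHT.HtDefs
import Pool.Agent.Lib.TWHT.ThB
import Pool.Agent.Lib.TWHT.ThC
import Pool.Agent.Lib.TWHT.ThH

/-!
# TANK W, leaf (Ht): the operators `Th N j` of `HtOp`

* `HtX p v C P L LP G M T 𝒜 x r Th`: the data of one tight letter and the operators
  `Th N j = M(r / p^N)^j θ^[j/p^N]`, with all the axioms in the form of `PM v LP G M`;
* **`HtOp.exists_htx`**: existence;
* `HtX.comb`, `HtX.combA`: the operators of `T`, of `𝒜`, are combinations of the `Th N j` on the classes;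
* `HtX.stbN`, `HtX.stb_cadj`: stable fields.
-/

set_option autoImplicit false
set_option linter.unusedSectionVars false

open Polynomial

namespace Pool.Agent.TWHT

open Pool.Agent.H15JM (RVal)
open Pool.Agent.LU1 (VPos adj)
open Pool.Agent.D2 (Ctx0)
open Pool.Agent.D2P (clI mem_clI)
open Pool.Agent.TWM Pool.Agent.TWS
open Pool.Agent.TWIV (OpF HSn)
open Pool.Agent.TWC (Opr fn IsExt Tgt EW PBase PDat genW adjT IsW NSD Oper NilpC)

universe u

variable {k Ω : Type u} [Field k] [Field Ω] [Algebra k Ω] {v : RVal Ω}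

/-! ### Stable fields -/

/-- The closure of `B(w)`, `B` the closure of `A E`. -/
theorem cadj_cl_sup {A E : IntermediateField k Ω} (w : Ω) :
    cadj v (clI v (A ⊔ E)) w = clI v (cadj v A w ⊔ E) := by
  have hA : A ≤ clI v (A ⊔ E) := le_sup_left.trans (TWC.self_le_clI v _)
  have hE : E ≤ clI v (A ⊔ E) := le_sup_right.trans (TWC.self_le_clI v _)
  refine le_antisymm (TWM.cadj_le (cld_clI v _) (TWC.clI_mono' (sup_le_sup_right ?_ E)) ?_)
    (TWC.clI_le' (sup_le ?_ ?_) (cld_cadj v _ _))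
  · exact le_cadj v A w
  · exact TWC.self_le_clI v _ ((le_sup_left : cadj v A w ≤ _) (self_mem_cadj v A w))
  · exact cadj_mono hA w
  · exact hE.trans (le_cadj v _ w)

section Ops

variable [hcx : Fact (Ctx0 k v)] {p : ℕ} [hp : Fact p.Prime] [CharP k p] [CharP Ω p]
  [PerfectRing k p] {C P L LP N A : IntermediateField k Ω} {G : AddSubgroup ℝ} {M : ℝ → Ω}
  {T : Submodule k (Opr v (PM v P G M))} {𝒜 : Submodule k (Module.End k Ω)}
  {x : ℕ → Ω} {r : ℝ} {Th : ℕ → ℕ → Ω → Ω}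

/-- **The data of the tight letter, and the operators `Th N j`.** -/
structure HtX (p : ℕ) [Fact p.Prime] [CharP k p] [CharP Ω p] [PerfectRing k p] (v : RVal Ω)
    [Fact (Ctx0 k v)] (C P L LP : IntermediateField k Ω) (G : AddSubgroup ℝ) (M : ℝ → Ω)
    (T : Submodule k (Opr v (PM v P G M))) (𝒜 : Submodule k (Module.End k Ω))
    (x : ℕ → Ω) (r : ℝ) (Th : ℕ → ℕ → Ω → Ω) : Prop where
  v0 : v (x 0) ≠ 0
  tgtC : Tgt p v C x r
  tgtL : Tgt p v L x r
  eqP : P = EW v C x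
  eqT : PM v LP G M = clI v (PM v L G M ⊔ PM v P G M)
  pb : PBase p v C P L G M (fun n => (![x n] : Fin 1 → Ω)) ![r]
  pd : PDat p v (PM v C G M) (PM v L G M) (PM v P G M) (fun n => (![x n] : Fin 1 → Ω))
      (fun n l => M ((![r] : Fin 1 → ℝ) l / p ^ n)) ![r]
  root : ∀ a ∈ PM v C G M, ∃ Q ∈ PI (PM v C G M), (Q.eval (x 1)) ^ p = a
  tht : Tht p v (PM v C G M) (PM v L G M) (PM v P G M) x (fun n => M (r / p ^ n)) r Th
  gen : T = adjT (genT p v (PM v P G M) Th)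
  opf : OpF p v (PM v LP G M) 𝒜 Th

/-- The generators. -/
theorem genW_eq {C' L' E' : IntermediateField k Ω} {u M' : ℕ → Fin 1 → Ω} {rho : Fin 1 → ℝ}
    (hc : CompleteV v) (hd : PDat p v C' L' E' u M' rho)
    (h : Tht p v C' L' E' (fun n => u n 0) (fun n => M' n 0) (rho 0) Th) :
    genW p v C' E' u M' = genT p v E' Th := by
  ext φ
  constructor
  · rintro ⟨n, F, ⟨l, hl⟩, hF, hφ⟩
    have hl' : F 0 ≠ 0 := by
      fin_cases l
      exact hl
    exact ⟨n, F 0, Nat.pos_of_ne_zero hl', hF 0, fun y hy => h.fn_eqE (hF 0) hφ hy⟩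
  · rintro ⟨N, j, h0, hj, hφ⟩
    obtain ⟨ψ, hψ, h1⟩ := h.exists_isWE hc hd hj
    refine ⟨N, fun _ => j, ⟨0, h0.ne'⟩, fun _ => hj, fun i f => ?_⟩
    have hm : TWC.Key.ev (u (N + i)) f ∈ E' := TWC.ev_mem hd.CE (hd.mem _) f
    rw [← hψ i f, hφ _ hm, h1 _ hm]

/-- **The operators `Th N j` of `HtOp`.** -/
theorem HtOp.exists_htx (H : HtOp p v C P L LP G M T 𝒜) :
    ∃ (x : ℕ → Ω) (r : ℝ) (Th : ℕ → ℕ → Ω → Ω), HtX p v C P L LP G M T 𝒜 x r Th := by
  obtain ⟨x, r, h0, h1, h2, h3, h4, h5, h6, h7⟩ := H.dat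
  obtain ⟨Th, hTh⟩ := exists_tht_of_pdat H.D.cpl h5
  have hTh' : Tht p v (PM v C G M) (PM v L G M) (PM v P G M) x (fun n => M (r / p ^ n)) r Th := hTh
  have hg := genW_eq H.D.cpl h5 hTh
  have hT : T = adjT (genT p v (PM v P G M) Th) := by rw [h6, hg]
  have he := H.D.desc.eq
  refine ⟨x, r, Th, h0, h1, h2, h3, he, h4, h5, h7, hTh', hT, ?_⟩
  have hrep : ∀ N j, 0 < j → j < p ^ N → ∃ ψ ∈ 𝒜, ∀ y ∈ PM v LP G M, ψ y = Th N j y := by
    intro N j hj0 hj
    obtain ⟨φ, hφ⟩ := hTh.exists_oprE H.D.cpl hj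
    have hφT : φ ∈ T := by
      rw [hT]
      exact TWC.subset_adjT ⟨N, j, hj0, hj, hφ⟩
    obtain ⟨Φ, hΦ⟩ := H.D.desc.ext φ hφT
    obtain ⟨ψ, hψ, h8⟩ := H.mem φ hφT Φ hΦ
    refine ⟨ψ, hψ, fun y hy => ?_⟩
    rw [h8 y hy]
    clear h8
    revert Φ
    rw [he] at hy ⊢
    intro Φ hΦ
    exact hTh.ext_th hj hφ hΦ hy
  rw [he] at hrep ⊢
  exact Tht.opF_of_rep (u := fun n => (![x n] : Fin 1 → Ω))
    (M := fun n l => M ((![r] : Fin 1 → ℝ) l / p ^ n)) (rho := ![r]) hTh hrep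

namespace HtX

variable (X : HtX p v C P L LP G M T 𝒜 x r Th)

include X

/-- The operators of the base. -/
theorem hsn : HSn p v 0 (PM v P G M).toSubalgebra (fun N => DX (PM v C G M) (x N)) Th :=
  X.tht.hsn

/-- The operators of the closure of `A E`. -/
theorem hsnA (hCA : PM v C G M ≤ A) (hAL : A ≤ PM v L G M) :
    HSn p v 0 (clI v (A ⊔ PM v P G M)).toSubalgebra (fun N => DX A (x N)) Th :=
  X.tht.hsnA hCA hAL

/-- The operators of `PM v LP G M`. -/
theorem hsnL : HSn p v 0 (PM v LP G M).toSubalgebra (fun N => DX (PM v L G M) (x N)) Th := by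
  have h1 := X.tht.hsnA X.tht.dat.le le_rfl
  rwa [← X.eqT] at h1

/-- The roots of the constants are in the levels. -/
theorem root_le (N : ℕ) {b : Ω} (hb : b ^ p ^ N ∈ PM v C G M) : b ∈ DX (PM v C G M) (x N) :=
  root_le_DX X.tht.dat.nbx.root X.root N hb

/-- The level `N` are the elements of `PM v C G M ^ (1 / p ^ N)`. -/
theorem mem_dx (N : ℕ) {b : Ω} : b ∈ DX (PM v C G M) (x N) ↔ b ^ p ^ N ∈ PM v C G M := by
  refine ⟨?_, X.root_le N⟩
  rintro ⟨P, hP, rfl⟩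
  have e1 := TWC.root_pow_add X.tht.dat.nbx.root 0 N
  rw [zero_add] at e1
  rw [eval_eq_sum, Polynomial.sum, sum_pow_char_pow]
  refine sum_mem fun i _ => ?_
  rw [mul_pow, ← pow_mul, mul_comm i, pow_mul, e1]
  exact mul_mem (pow_mem (hP i) _) (pow_mem X.tht.dat.base i)

/-- The fields `PM v (clI v (N ⊔ P)) G M` are stable. -/
theorem stbN (hc : CompleteV v) (hCN : C ≤ N) (hNL : N ≤ L) :
    StbB p Th (PM v P G M) (PM v LP G M) (PM v (clI v (N ⊔ P)) G M) := by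
  rw [X.eqT, PM.sup]
  exact X.tht.stb_cl hc (PM.mono hCN) (PM.mono hNL)

theorem stbP (hc : CompleteV v) : StbB p Th (PM v P G M) (PM v LP G M) (PM v P G M) := by
  rw [X.eqT]
  exact X.tht.stbE hc

/-- The closures of `A E` are stable. -/
theorem stbA (hc : CompleteV v) (hCA : PM v C G M ≤ A) (hAL : A ≤ PM v L G M) :
    StbB p Th (PM v P G M) (PM v LP G M) (clI v (A ⊔ PM v P G M)) := by
  rw [X.eqT]
  exact X.tht.stb_cl hc hCA hAL

/-- Adjunction of an element of `PM v L G M`. -/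
theorem stb_cadjA (hc : CompleteV v) (hCA : PM v C G M ≤ A) (hAL : A ≤ PM v L G M) {w : Ω}
    (hw : w ∈ PM v L G M) :
    StbB p Th (PM v P G M) (PM v LP G M) (cadj v (clI v (A ⊔ PM v P G M)) w) := by
  rw [cadj_cl_sup]
  exact X.stbA hc (hCA.trans (le_cadj v _ _)) (TWM.cadj_le X.tht.dat.cldL hAL hw)

/-- The closure of `E(w)`, `w ∈ PM v L G M`, is stable. -/
theorem stb_cadj (hc : CompleteV v) {w : Ω} (hw : w ∈ PM v L G M) :
    StbB p Th (PM v P G M) (PM v LP G M) (cadj v (PM v P G M) w) := by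
  have h1 := X.stb_cadjA hc le_rfl X.tht.dat.le hw
  have h2 : clI v (PM v C G M ⊔ PM v P G M) = PM v P G M := by
    rw [sup_eq_right.2 X.tht.dat.CE]
    exact le_antisymm X.tht.dat.cldE (TWC.self_le_clI v _)
  rwa [h2] at h1

/-- The extension of `Th N j`. -/
theorem ext {N j : ℕ} (hj : j < p ^ N) {φ : Opr v (PM v P G M)} {Φ : Opr v (PM v LP G M)}
    (hφ : ∀ y ∈ PM v P G M, fn φ y = Th N j y) (hΦ : IsExt (PM v L G M) φ Φ) {y : Ω}
    (hy : y ∈ PM v LP G M) : fn Φ y = Th N j y := by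
  revert Φ
  have he := X.eqT
  rw [he] at hy ⊢
  intro Φ hΦ
  exact X.tht.ext_th hj hφ hΦ hy

/-- **The operators of `T` on the classes.** -/
theorem comb {φ : Opr v (PM v P G M)} (hφ : φ ∈ T) : ∃ (N : ℕ) (lam : ℕ → k), lam 0 = 0 ∧
    ∀ Φ : Opr v (PM v LP G M), IsExt (PM v L G M) φ Φ → ∀ B,
      StbB p Th (PM v P G M) (PM v LP G M) B → (∀ y ∈ B, fn Φ y ∈ B) ∧
        ∀ y ∈ PM v LP G M, Lim v B 0 y →
          Nr v B 0 (fn Φ y - ∑ g ∈ Finset.range (p ^ N), algebraMap k Ω (lam g) * Th N g y) := by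
  have h1 := X.gen
  rw [h1] at hφ
  have h2 := X.tht.exists_comb hφ
  have he := X.eqT
  rw [he]
  exact h2

/-- **The operators of `𝒜` on the classes.** -/
theorem combA (H : HtOp p v C P L LP G M T 𝒜) {ψ : Module.End k Ω} (hψ : ψ ∈ 𝒜) :
    ∃ (N : ℕ) (lam : ℕ → k), ∀ B, StbB p Th (PM v P G M) (PM v LP G M) B →
      (∀ y ∈ B, ψ y ∈ B) ∧ ∀ y ∈ PM v LP G M, Lim v B 0 y →
        Nr v B 0 (ψ y - ∑ g ∈ Finset.range (p ^ N), algebraMap k Ω (lam g) * Th N g y) := by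
  obtain ⟨c, φ, Φ, hφ, hΦ, h1⟩ := H.rep ψ hψ
  obtain ⟨N, lam, h0, h2⟩ := X.comb hφ
  refine ⟨N, fun g => (if g = 0 then c else 0) + lam g, fun B hB => ?_⟩
  obtain ⟨h3, h4⟩ := h2 Φ hΦ B hB
  refine ⟨fun y hy => ?_, fun y hy hl => ?_⟩
  · rw [h1 y (hB.leT hy)]
    exact add_mem (mul_mem (B.algebraMap_mem c) hy) (h3 y hy)
  · have hy' : y ∈ clI v (PM v L G M ⊔ PM v P G M) := by rwa [← X.eqT]
    have h5 : ∑ g ∈ Finset.range (p ^ N), algebraMap k Ω ((if g = 0 then c else 0) + lam g) *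
        Th N g y = algebraMap k Ω c * y +
          ∑ g ∈ Finset.range (p ^ N), algebraMap k Ω (lam g) * Th N g y := by
      have h6 : ∑ g ∈ Finset.range (p ^ N), algebraMap k Ω (if g = 0 then c else 0) * Th N g y =
          algebraMap k Ω c * y := by
        rw [Finset.sum_eq_single 0]
        · rw [if_pos rfl, X.tht.zero N hy']
        · intro g _ hg
          rw [if_neg hg, map_zero, zero_mul]
        · exact fun h7 => absurd (Finset.mem_range.2 (pow_pos hp.out.pos N)) h7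
      rw [← h6, ← Finset.sum_add_distrib]
      refine Finset.sum_congr rfl fun g _ => ?_
      rw [map_add, add_mul]
    rw [h1 y hy, h5]
    refine Eq.mp (congrArg (fun t => Nr v B 0 t) ?_) (h4 y hy hl)
    ring

end HtX

end Ops

end Pool.Agent.TWHT
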