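import Pool.Agent.Lib.TWHT.NsdF
import Pool.Agent.Lib.TWHT.HdC
import Pool.Agent.Lib.TWHT.HdD
import Pool.Agent.Lib.TWHT.ThO

/-!
# TANK W, leaf (Ht), H1: `NSDp` for one tight letter, from the relations of the subfields of the base

* `RF p E B n`: the elements of `E` whose `p ^ n`-th power is in `B`;
* `exists_decP`: the elements of `RF` are limits of sums of `c F`, `c` a `p ^ J`-th power of a monomial,
  `F ^ p ^ n` in the subfield `N`;
* `RelN`: the relation on `N`;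
* `nsdp_of_rel`: `NSDp` for the operators of one tight letter.
-/

set_option autoImplicit false
set_option linter.unusedSectionVars false

open Polynomial

namespace Pool.Agent.TWHT

open Pool.Agent.H15JM (RVal)
open Pool.Agent.LU1 (VPos adj)
open Pool.Agent.D2 (Ctx0)
open Pool.Agent.D2P (hen clI mem_clI)
open Pool.Agent.TWM Pool.Agent.TWS
open Pool.Agent.TWCT (PB1 RStep)
open Pool.Agent.TWC (Opr fn fn_of_mem fn_ge fn_subw Oper EW PDat genW adjT clI_mono' clI_le'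
  self_le_clI fn_opZero root_pow_add MM)

universe u

variable {k Ω : Type u} [Field k] [Field Ω] [Algebra k Ω] {v : RVal Ω} {p : ℕ}
  {C L E N B : IntermediateField k Ω} {M : ℝ → Ω} {Λ : Submodule ℚ ℝ}

/-! ### Roots -/

/-- The elements of `E` whose `p ^ n`-th power is in `B`. -/
def RF (p : ℕ) [Fact p.Prime] [CharP Ω p] (E B : IntermediateField k Ω) (n : ℕ) :
    IntermediateField k Ω where
  carrier := {f | f ∈ E ∧ f ^ p ^ n ∈ B}
  mul_mem' := by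
    rintro a b ⟨h1, h2⟩ ⟨h3, h4⟩
    exact ⟨mul_mem h1 h3, by rw [mul_pow]; exact mul_mem h2 h4⟩
  add_mem' := by
    rintro a b ⟨h1, h2⟩ ⟨h3, h4⟩
    exact ⟨add_mem h1 h3, by rw [add_pow_char_pow]; exact add_mem h2 h4⟩
  algebraMap_mem' c := ⟨E.algebraMap_mem c, pow_mem (B.algebraMap_mem c) _⟩
  inv_mem' := by
    rintro a ⟨h1, h2⟩
    exact ⟨inv_mem h1, by rw [inv_pow]; exact inv_mem h2⟩

section RF

variable [hp : Fact p.Prime] [CharP Ω p]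

theorem mem_RF {n : ℕ} {f : Ω} : f ∈ RF p E B n ↔ f ∈ E ∧ f ^ p ^ n ∈ B := Iff.rfl

theorem RF_le (n : ℕ) : RF p E B n ≤ E := fun _ h => h.1

theorem RF_mono_left {B' : IntermediateField k Ω} (h : B ≤ B') (n : ℕ) : RF p E B n ≤ RF p E B' n :=
  fun _ hf => ⟨hf.1, h hf.2⟩

theorem RF_mono : Monotone (RF p E B) := by
  refine monotone_nat_of_le_succ fun n f hf => ⟨hf.1, ?_⟩
  rw [pow_succ, pow_mul]
  exact pow_mem hf.2 p

theorem RF_root (hE : ∀ a ∈ E, ∃ b ∈ E, b ^ p = a) (n : ℕ) :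
    ∀ x ∈ RF p E B n, ∃ y ∈ RF p E B (n + 1), y ^ p = x := by
  rintro x ⟨h1, h2⟩
  obtain ⟨y, hy, rfl⟩ := hE x h1
  refine ⟨y, ⟨hy, ?_⟩, rfl⟩
  rw [pow_succ, mul_comm, pow_mul]
  exact h2

theorem RF_pow (n : ℕ) : ∀ x ∈ RF p E B (n + 1), x ^ p ∈ RF p E B n := by
  rintro x ⟨h1, h2⟩
  refine ⟨pow_mem h1 p, ?_⟩
  rw [← pow_mul, mul_comm, ← pow_succ]
  exact h2

theorem RF_cld (hE : Cld v E) (hB : Cld v B) (n : ℕ) : Cld v (RF p E B n) := by
  intro x hx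
  have hp0 : (0 : ℝ) < ((p ^ n : ℕ) : ℝ) := by exact_mod_cast pow_pos hp.out.pos n
  refine ⟨hE (clI_mono' (RF_le n) hx), hB (mem_clI.2 fun b => ?_)⟩
  obtain ⟨y, hy, h1⟩ := (mem_clI.1 hx) (b / (p ^ n : ℕ))
  refine ⟨y ^ p ^ n, hy.2, ?_⟩
  rw [← sub_pow_char_pow]
  refine (ge_pow h1 (p ^ n)).mono (le_of_eq ?_)
  rw [mul_div_cancel₀ _ hp0.ne']

end RF

/-! ### The decomposition -/

/-- The exponents modulo `p ^ m`. -/
theorem GK_split [hp : Fact p.Prime] {γ : ℝ} {g : ℝ} (hg : g ∈ GK p γ Λ) (m : ℕ) :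
    ∃ (α : ℕ) (h : ℝ), h ∈ GK p γ Λ ∧ g = α * γ + p ^ m * h := by
  obtain ⟨n', hn, m', l, hl, h1⟩ := hg
  have hco : IsCoprime (((p ^ m : ℕ) : ℤ)) (n' : ℤ) :=
    Nat.isCoprime_iff_coprime.2 (Nat.Coprime.pow_left m ((Nat.Prime.coprime_iff_not_dvd hp.out).2 hn))
  obtain ⟨a, b, hab⟩ := hco
  have hpm : (0 : ℤ) < ((p ^ m : ℕ) : ℤ) := by exact_mod_cast pow_pos hp.out.pos m
  have h2 : ((m' * b).emod ((p ^ m : ℕ) : ℤ)).toNat = (m' * b) % ((p ^ m : ℕ) : ℤ) :=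
    Int.toNat_of_nonneg (Int.emod_nonneg _ hpm.ne')
  have h3 := Int.emod_add_mul_ediv (m' * b) ((p ^ m : ℕ) : ℤ)
  set α : ℕ := ((m' * b).emod ((p ^ m : ℕ) : ℤ)).toNat with hα
  set t : ℤ := (m' * b) / ((p ^ m : ℕ) : ℤ) with ht
  rw [← h2] at h3
  have hpm' : (p : ℝ) ^ m ≠ 0 := pow_ne_zero _ (by exact_mod_cast hp.out.ne_zero)
  have h3' : (α : ℝ) + (p : ℝ) ^ m * t = m' * b := by exact_mod_cast h3
  have hab' : (a : ℝ) * (p : ℝ) ^ m + b * n' = 1 := by exact_mod_cast hab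
  refine ⟨α, (g - α * γ) / p ^ m, ⟨n', hn, m' * a + n' * t, (1 / (p : ℚ) ^ m) • l,
    Λ.smul_mem _ hl, ?_⟩, ?_⟩
  · rw [Rat.smul_def]
    push_cast
    field_simp
    linear_combination h1 - (m' : ℝ) * γ * hab' - (n' : ℝ) * γ * h3'
  · field_simp
    ring

/-- **The decomposition.** -/
theorem exists_decP [hp : Fact p.Prime] [CharP Ω p] {x : Ω} (hMG : MonG v N (GK p (v x) Λ) M)
    (hMs : MS v ⊤ M) (hMx : M (v x) = x) (hxN : x ∈ N) (hE : ∀ a ∈ E, ∃ b ∈ E, b ^ p = a)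
    (hNE : N ≤ E) (n J : ℕ) {f : Ω} (hf : f ∈ RF p E (PM v N (GK p (v x) Λ) M) n) {a : ℝ}
    (ha : v.Ge a f) (b : ℝ) :
    ∃ (s : Finset ℝ) (h : ℝ → ℝ) (F : ℝ → Ω), (∀ g ∈ s, h g ∈ GK p (v x) Λ ∧ F g ∈ E ∧
      F g ^ p ^ n ∈ N ∧ v.Ge a (M (h g) ^ p ^ J * F g)) ∧
      v.Ge b (f - ∑ g ∈ s, M (h g) ^ p ^ J * F g) := by
  classical
  have hpn : (0 : ℝ) < ((p ^ n : ℕ) : ℝ) := by exact_mod_cast pow_pos hp.out.pos n
  have hpn0 : p ^ n ≠ 0 := pow_ne_zero n hp.out.ne_zero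
  obtain ⟨hfE, hfB⟩ := hf
  obtain ⟨Lf, hL, h1⟩ := dense_PM hMG (Imm.refl N) hfB (((p ^ n : ℕ) : ℝ) * max a b)
  have h2 : v.Ge (((p ^ n : ℕ) : ℝ) * a) (evM M Lf) := by
    have e : evM M Lf = f ^ p ^ n - (f ^ p ^ n - evM M Lf) := by ring
    rw [e]
    exact (ge_pow ha _).sub (h1.mono (mul_le_mul_of_nonneg_left (le_max_left _ _) hpn.le))
  have h3 : ∀ g ∈ Lf.support, ∃ (h : ℝ) (F : Ω), h ∈ GK p (v x) Λ ∧ F ∈ E ∧ F ^ p ^ n ∈ N ∧
      (M h ^ p ^ J * F) ^ p ^ n = Lf g * M g := by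
    intro g hg
    have hgG := (hL.rep g (Finsupp.mem_support_iff.1 hg)).1
    obtain ⟨α, h, hh, hgh⟩ := GK_split hgG (J + n)
    have hFN : Lf g * x ^ α ∈ N := mul_mem (hL.mem g) (pow_mem hxN α)
    obtain ⟨F, hF, hF'⟩ := exists_root_pow hE n (hNE hFN)
    refine ⟨h, F, hh, hF, by rwa [hF'], ?_⟩
    rw [mul_pow, hF', ← pow_mul, ← pow_add]
    have h4 : M g = x ^ α * M h ^ p ^ (J + n) := by
      rw [hgh, hMs.mul _ trivial _ trivial, hMs.pow trivial α, hMx,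
        ← hMs.pow (g := h) trivial (p ^ (J + n))]
      push_cast
      rfl
    rw [h4]
    ring
  choose! h F h4 h5 h6 h7 using h3
  refine ⟨Lf.support, h, F, fun g hg => ⟨h4 g hg, h5 g hg, h6 g hg, ?_⟩, ?_⟩
  · refine ge_of_pow (q := p ^ n) hpn0 ?_
    rw [h7 g hg]
    exact orth hMG (Imm.refl N) hL h2 g
  · refine ge_of_pow (q := p ^ n) hpn0 ?_
    rw [sub_pow_char_pow, sum_pow_char_pow, Finset.sum_congr rfl h7]
    exact h1.mono (mul_le_mul_of_nonneg_left (le_max_right _ _) hpn.le)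

/-! ### The theorem -/

/-- **The relation** on `N`. -/
def RelN (p : ℕ) (v : RVal Ω) (N : IntermediateField k Ω) (D : ℕ → Ω → Ω) (j : ℕ) : Prop :=
  ∃ (n₁ J : ℕ) (b : ℕ → k) (δ : ℝ), b J ≠ 0 ∧ 0 < δ ∧ ∀ s : ℕ, ∀ f ∈ N, ∀ c : ℝ, v.Ge c f →
    v.Ge (c + δ * p ^ s) (∑ i ∈ Finset.range (J + 1),
      algebraMap k Ω (b i ^ p ^ s) * D (p ^ (n₁ + s + i) * j) f)

section Main

variable [hp : Fact p.Prime] [CharP k p] [CharP Ω p] [PerfectRing k p] [hcx : Fact (Ctx0 k v)]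

theorem fn_opSumP {E : IntermediateField k Ω} (φ : Opr v E) {κ : Type*} (s : Finset κ) (f : κ → Ω)
    (hf : ∀ i ∈ s, f i ∈ E) : fn φ (∑ i ∈ s, f i) = ∑ i ∈ s, fn φ (f i) := by
  classical
  induction s using Finset.induction_on with
  | empty =>
    rw [Finset.sum_empty, Finset.sum_empty]
    have h1 := fn_subw φ (zero_mem E) (zero_mem E)
    rwa [sub_zero, sub_self] at h1
  | insert i s hi ih =>
    rw [Finset.sum_insert hi, Finset.sum_insert hi]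
    have h1 : ∑ j ∈ s, f j ∈ E := sum_mem fun j hj => hf j (Finset.mem_insert_of_mem hj)
    have h2 := hf i (Finset.mem_insert_self i s)
    have h3 := fn_subw φ (add_mem h2 h1) h1
    rw [add_sub_cancel_right] at h3
    rw [← ih fun j hj => hf j (Finset.mem_insert_of_mem hj), h3, sub_add_cancel]

/-- `F ^ i φ F ^ (- i)` is linear over the `p ^ i`-th powers of `L`. -/
theorem up_lin {x c : ℕ → Ω} {r : ℝ} {Th : ℕ → ℕ → Ω → Ω} (hT : Tht p v C L E x c r Th)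
    {N₀ j : ℕ} (hj : j < p ^ N₀) {φ : Opr v E} (hφ : ∀ y ∈ E, fn φ y = Th N₀ j y) (i J : ℕ)
    (hi : i ≤ J) {m F : Ω} (hmL : m ∈ L) (hmE : m ∈ E) (hF : F ∈ E) :
    fn ((up hT.dat.perf)^[i] φ) (m ^ p ^ J * F) =
      m ^ p ^ J * fn ((up hT.dat.perf)^[i] φ) F := by
  obtain ⟨d, rfl⟩ : ∃ d, J = d + i := ⟨J - i, by omega⟩
  obtain ⟨F', hF', rfl⟩ := exists_root_pow hT.dat.perf i hF
  have h1 : m ^ p ^ (d + i) * F' ^ p ^ i = (m ^ p ^ d * F') ^ p ^ i := by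
    rw [mul_pow, ← pow_mul, ← pow_add]
  have h2 : m ^ p ^ d * F' ∈ E := mul_mem (pow_mem hmE _) hF'
  rw [h1, fn_up_it _ _ _ h2, fn_up_it _ _ _ hF', hφ _ h2, hφ _ hF',
    hT.lin hj (pow_mem hmL _) (hT.dat.leE hF'), mul_pow, ← pow_mul, ← pow_add]

/-- the powers -/
theorem up_pow_eq {x c : ℕ → Ω} {r : ℝ} {Th : ℕ → ℕ → Ω → Ω} (hT : Tht p v C L E x c r Th)
    {Dr : ℕ → Ω → Ω}
    (hD : ∀ n m : ℕ, m < p ^ n → ∀ g ∈ E, g ^ p ^ n ∈ C → Dr m (g ^ p ^ n) = Th n m g ^ p ^ n)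
    {N₀ j : ℕ} (hj : j < p ^ N₀) {φ : Opr v E} (hφ : ∀ y ∈ E, fn φ y = Th N₀ j y) (i n' : ℕ)
    {F : Ω} (hF : F ∈ E) (hFC : F ^ p ^ (N₀ + n') ∈ C) :
    fn ((up hT.dat.perf)^[i] φ) F ^ p ^ (N₀ + n') = Dr (p ^ (n' + i) * j) (F ^ p ^ (N₀ + n')) := by
  obtain ⟨F', hF', rfl⟩ := exists_root_pow hT.dat.perf i hF
  have e : (F' ^ p ^ i) ^ p ^ (N₀ + n') = F' ^ p ^ (N₀ + (n' + i)) := by
    rw [← pow_mul, ← pow_add]
    congr 2
    omega
  have h1 : p ^ (n' + i) * j < p ^ (N₀ + (n' + i)) := by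
    rw [pow_add p N₀, mul_comm (p ^ N₀)]
    exact Nat.mul_lt_mul_of_pos_left hj (pow_pos hp.out.pos _)
  rw [e] at hFC ⊢
  rw [hD _ _ h1 F' hF' hFC, hT.lev' hj (n' + i) (hT.dat.leE hF'), fn_up_it _ _ _ hF', hφ _ hF',
    ← pow_mul, ← pow_add]
  congr 2
  omega

end Main

section Main2

variable [hp : Fact p.Prime] [CharP k p] [CharP Ω p] [PerfectRing k p] [hcx : Fact (Ctx0 k v)]

/-- **`NSDp` for the operators of one tight letter**, from the relations on the subfields `N a`. -/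
theorem nsdp_of_rel [IsAlgClosed Ω] (hc : CompleteV v) {W L : IntermediateField k Ω} {x : ℕ → Ω}
    {r : ℝ} (hMn : TWC.Mns v x M Λ)
    (D : PDat p v (PM v W (GK p (v (x 0)) Λ) M) (PM v L (GK p (v (x 0)) Λ) M)
      (PM v (EW v W x) (GK p (v (x 0)) Λ) M) (fun n => (![x n] : Fin 1 → Ω))
      (fun n l => M ((![r] : Fin 1 → ℝ) l / p ^ n)) ![r])
    {Th : ℕ → ℕ → Ω → Ω}
    (hT : Tht p v (PM v W (GK p (v (x 0)) Λ) M) (PM v L (GK p (v (x 0)) Λ) M)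
      (PM v (EW v W x) (GK p (v (x 0)) Λ) M) x (fun n => M (r / p ^ n)) r Th)
    {Dr : ℕ → Ω → Ω}
    (hD : ∀ n m : ℕ, m < p ^ n → ∀ g ∈ PM v (EW v W x) (GK p (v (x 0)) Λ) M,
      g ^ p ^ n ∈ PM v W (GK p (v (x 0)) Λ) M → Dr m (g ^ p ^ n) = Th n m g ^ p ^ n)
    {ι : Type*} [Nonempty ι] (N : ι → IntermediateField k Ω)
    (hdir : ∀ a b, ∃ c, N a ≤ N c ∧ N b ≤ N c)
    (hN : ∀ a, N a ≤ PM v W (GK p (v (x 0)) Λ) M) (hcl : ∀ a, Cld v (N a))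
    (hxN : ∀ a, x 0 ∈ N a) (hRat : ∀ a, RatV v (N a) (v (x 0)))
    (hval : ∀ a m, ∀ f ∈ N a, ∃ g ∈ N a, Dr m f = M r ^ m * g)
    (hW : ∀ w ∈ W, ∀ b : ℝ, ∃ a, ∃ f ∈ N a, v.Ge b (w - f))
    (hrel : ∀ a j, 0 < j → RelN p v (N a) Dr j) : NSDp p (D.oper hc) := by
  classical
  set G := GK p (v (x 0)) Λ with hG
  set C' := PM v W G M with hC'
  set L' := PM v L G M with hL'
  set E' := PM v (EW v W x) G M with hE'
  have hMs := hMn.ms
  have hMG : ∀ a, MonG v (N a) G M := fun a =>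
    monG_GK p hcx.out hMs hMn.x0 hMn.compl.disjoint (hcl a) (hxN a) (hRat a)
  have hperf := hT.dat.perf
  have hCE := hT.dat.CE
  have hCL : C' ≤ L' := hT.dat.le
  have hEcl : Cld v E' := PM.cld
  have hroot : ∀ n, x n ^ p ^ n = x 0 := fun n => by
    have := root_pow_add hT.dat.nbx.root 0 n
    rwa [zero_add] at this
  set A : ι → ℕ → IntermediateField k Ω := fun a n => RF p E' (PM v (N a) G M) n with hA
  have hΓ : genW p v C' E' (fun n => (![x n] : Fin 1 → Ω))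
      (fun n l => M ((![r] : Fin 1 → ℝ) l / p ^ n)) = genT p v E' Th := genW_eq hc D hT
  -- the stability
  have hstb : ∀ φ ∈ genT p v E' Th, ∀ a, ∃ n₀, ∀ n, n₀ ≤ n → ∀ f ∈ A a n, fn φ f ∈ A a n := by
    rintro φ ⟨N₀, j, hj0, hj, hφ⟩ a
    obtain ⟨j₀, hj₀⟩ : ∃ j₀ : ℕ, (p : ℝ) ^ j₀ * r ∈ G := by
      have h1 : r ∈ rG p G := by
        rw [hG, rG_GK p hMn.compl]
        trivial
      exact h1
    refine ⟨N₀ + j₀, fun n hn f hf => ?_⟩
    obtain ⟨n', rfl⟩ : ∃ n', n = N₀ + n' := ⟨n - N₀, by omega⟩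
    have hn' : j₀ ≤ n' := by omega
    refine RF_cld hEcl PM.cld (N₀ + n') (mem_clI.2 fun b => ?_)
    obtain ⟨s, h, F, h1, h2⟩ := exists_decP (J := 0) (hMG a) hMs hMn.x0 (hxN a) hperf
      ((hN a).trans hCE) (N₀ + n') hf (RVal.ge_self f) b
    have hmem : ∀ g ∈ s, M (h g) ^ p ^ 0 * F g ∈ E' := fun g hg =>
      mul_mem (pow_mem (PM.mon (h1 g hg).1) _) (h1 g hg).2.1
    refine ⟨∑ g ∈ s, fn φ (M (h g) ^ p ^ 0 * F g), sum_mem fun g hg => ?_, ?_⟩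
    · obtain ⟨h3, h4, h5, -⟩ := h1 g hg
      have e1 : fn φ (M (h g) ^ p ^ 0 * F g) = M (h g) * fn φ (F g) := by
        have := up_lin hT hj hφ 0 0 le_rfl (m := M (h g)) (PM.mon h3) (PM.mon h3) h4
        simpa using this
      have hB : ∀ y ∈ G, M y ∈ PM v (N a) G M := fun y hy => PM.mon hy
      rw [e1]
      refine ⟨mul_mem (PM.mon h3) (TWC.fn_mem φ _), ?_⟩
      have e2 := up_pow_eq hT hD hj hφ 0 n' h4 (hN a h5)
      rw [Function.iterate_zero, id_eq, add_zero] at e2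
      rw [mul_pow, e2]
      obtain ⟨g', hg', e3⟩ := hval a (p ^ n' * j) _ h5
      rw [e3]
      refine mul_mem (pow_mem (hB _ h3) _) (mul_mem ?_ (PM.le hg'))
      rw [← hMs.pow (g := r) trivial (p ^ n' * j)]
      refine hB _ ?_
      have e4 : ((p ^ n' * j : ℕ) : ℝ) * r = (p ^ (n' - j₀) * j : ℕ) • ((p : ℝ) ^ j₀ * r) := by
        rw [nsmul_eq_mul]
        obtain ⟨t, rfl⟩ : ∃ t, n' = t + j₀ := ⟨n' - j₀, by omega⟩
        rw [Nat.add_sub_cancel]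
        push_cast
        ring
      rw [e4]
      exact G.nsmul_mem hj₀ _
    · rw [← fn_opSumP φ s _ hmem, ← fn_subw φ hf.1 (sum_mem hmem)]
      exact fn_ge φ (sub_mem hf.1 (sum_mem hmem)) h2
  have H : ExF p v E' (genT p v E' Th) A :=
    { dir := fun a b => by
        obtain ⟨c, h1, h2⟩ := hdir a b
        exact ⟨c, fun n => ⟨RF_mono_left (PM.mono h1) n, RF_mono_left (PM.mono h2) n⟩⟩
      mono := fun a => RF_mono
      le := fun a n => RF_le n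
      root := fun a n => RF_root hperf n
      pow := fun a n => RF_pow n
      dense := by
        have hdirA : Directed (· ≤ ·) fun q : ι × ℕ => A q.1 q.2 := by
          rintro ⟨a, n⟩ ⟨b, m⟩
          obtain ⟨c, h1, h2⟩ := hdir a b
          exact ⟨(c, max n m), (RF_mono_left (PM.mono h1) n).trans (RF_mono (le_max_left n m)),
            (RF_mono_left (PM.mono h2) m).trans (RF_mono (le_max_right n m))⟩
        have hmemS : ∀ z, z ∈ (⨆ q : ι × ℕ, A q.1 q.2) ↔ ∃ q : ι × ℕ, z ∈ A q.1 q.2 := by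
          intro z
          have h1 : z ∈ (⨆ q : ι × ℕ, A q.1 q.2) ↔
              z ∈ ((⨆ q : ι × ℕ, A q.1 q.2 : IntermediateField k Ω) : Set Ω) := Iff.rfl
          rw [h1, IntermediateField.coe_iSup_of_directed hdirA, Set.mem_iUnion]
          rfl
        have hle : E' ≤ clI v (⨆ q : ι × ℕ, A q.1 q.2) := by
          have a₀ : ι := Classical.arbitrary ι
          refine PM.le_of (cld_clI v _) (clI_le' (sup_le (fun w hw => ?_) ?_) (cld_clI v _))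
            fun g hg => ?_
          · refine mem_clI.2 fun b => ?_
            obtain ⟨a, f, hf, h1⟩ := hW w hw b
            refine ⟨f, (hmemS f).2 ⟨(a, 0), hCE (hN a hf), ?_⟩, h1⟩
            rw [pow_zero, pow_one]
            exact PM.le hf
          · rw [IntermediateField.adjoin_le_iff]
            rintro _ ⟨n, rfl⟩
            refine self_le_clI v _ ((hmemS _).2 ⟨(a₀, n), hT.dat.mem n, ?_⟩)
            rw [hroot]
            exact PM.le (hxN a₀)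
          · refine self_le_clI v _ ((hmemS _).2 ⟨(a₀, 0), PM.mon hg, ?_⟩)
            rw [pow_zero, pow_one]
            exact PM.mon hg
        intro e he
        obtain ⟨f, hf, h1⟩ := mem_clI.1 (hle he) 0
        obtain ⟨⟨a, n⟩, h2⟩ := (hmemS f).1 hf
        exact ⟨a, n, f, h2, h1⟩
      stb := hstb }
  refine ExF.nsdp (Γ := genW p v C' E' (fun n => (![x n] : Fin 1 → Ω))
    (fun n l => M ((![r] : Fin 1 → ℝ) l / p ^ n))) (A := A) (D.oper hc) (by rw [hΓ]; exact H)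
    (D.ops_comm hc) (fun φ hφ => ⟨p, D.act_pow hc hφ⟩) fun φ hφ a => ?_
  rw [hΓ] at hφ
  obtain ⟨N₀, j, hj0, hj, hφ⟩ := hφ
  obtain ⟨n₁, J, b, δ, hbJ, hδ, hR⟩ := hrel a j hj0
  have hrt : ∀ i, ∃ c : k, c ^ p ^ (N₀ + n₁) = b i := fun i => by
    obtain ⟨c, hc⟩ := (iterateFrobeniusEquiv k p (N₀ + n₁)).surjective (b i)
    exact ⟨c, by rw [← hc, iterateFrobeniusEquiv_def]⟩
  choose c hc1 using hrt
  have hp0 : (0 : ℝ) < p := by exact_mod_cast hp.out.pos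
  refine ⟨J, c, δ / p ^ (N₀ + n₁), N₀ + n₁, ?_, by positivity, fun n hn f hf b' hb' => ?_⟩
  · intro h0
    refine hbJ ?_
    rw [← hc1 J, h0, zero_pow (pow_ne_zero _ hp.out.ne_zero)]
  obtain ⟨s, rfl⟩ : ∃ s, n = N₀ + (n₁ + s) := ⟨n - (N₀ + n₁), by omega⟩
  set δ' := δ / (p : ℝ) ^ (N₀ + n₁) with hδ'
  set R : Ω → Ω := fun y => ∑ i ∈ Finset.range (J + 1), c i • fn ((up hperf)^[i] φ) y with hRdef
  change v.Ge (b' + δ') (R f)
  have hRge : ∀ y ∈ E', ∀ b : ℝ, v.Ge b y → v.Ge b (R y) := fun y hy b hb =>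
    RVal.Ge.sum _ _ fun i _ => by
      have h1 : v.Ge 0 (algebraMap k Ω (c i)) := fun h0 => by
        rw [hcx.out.triv _ fun h2 => h0 (by rw [h2, map_zero])]
      have h3 := h1.mul (fn_ge ((up hperf)^[i] φ) hy hb)
      rwa [zero_add, ← Algebra.smul_def] at h3
  have hRsub : ∀ y ∈ E', ∀ z ∈ E', R (y - z) = R y - R z := by
    intro y hy z hz
    rw [hRdef]
    simp only
    rw [← Finset.sum_sub_distrib]
    refine Finset.sum_congr rfl fun i _ => ?_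
    rw [fn_subw _ hy hz, smul_sub]
  have hRsum : ∀ (t : Finset ℝ) (g : ℝ → Ω), (∀ i ∈ t, g i ∈ E') →
      R (∑ i ∈ t, g i) = ∑ i ∈ t, R (g i) := by
    intro t g hg
    rw [hRdef]
    simp only
    rw [Finset.sum_comm]
    refine Finset.sum_congr rfl fun i _ => ?_
    rw [fn_opSumP _ t g hg, Finset.smul_sum]
  have hRlin : ∀ (m F : Ω), m ∈ C' → F ∈ E' → R (m ^ p ^ J * F) = m ^ p ^ J * R F := by
    intro m F hm hF
    rw [hRdef]
    simp only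
    rw [Finset.mul_sum]
    refine Finset.sum_congr rfl fun i hi => ?_
    rw [up_lin hT hj hφ i J (by rw [Finset.mem_range] at hi; omega) (hCL hm) (hCE hm) hF,
      mul_smul_comm]
  have hRpow : ∀ F ∈ E', F ^ p ^ (N₀ + (n₁ + s)) ∈ N a → ∀ d : ℝ, v.Ge d F →
      v.Ge (d + δ') (R F) := by
    intro F hF hFN d hd
    have h1 := hR s _ hFN ((p ^ (N₀ + (n₁ + s)) : ℕ) * d) (ge_pow hd _)
    refine ge_of_pow (q := p ^ (N₀ + (n₁ + s))) (pow_ne_zero _ hp.out.ne_zero) ?_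
    have h2 : R F ^ p ^ (N₀ + (n₁ + s)) = ∑ i ∈ Finset.range (J + 1),
        algebraMap k Ω (b i ^ p ^ s) * Dr (p ^ (n₁ + s + i) * j) (F ^ p ^ (N₀ + (n₁ + s))) := by
      rw [hRdef]
      simp only
      rw [sum_pow_char_pow]
      refine Finset.sum_congr rfl fun i _ => ?_
      rw [Algebra.smul_def, mul_pow, up_pow_eq hT hD hj hφ i (n₁ + s) hF (hN a hFN), ← map_pow,
        ← add_assoc N₀, pow_add p (N₀ + n₁), pow_mul (c i), hc1]
    rw [h2]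
    refine h1.mono (le_of_eq ?_)
    rw [hδ', mul_add, ← add_assoc N₀, pow_add p (N₀ + n₁) s]
    push_cast
    field_simp
  obtain ⟨t, h, F, h1, h2⟩ := exists_decP (J := J) (hMG a) hMs hMn.x0 (hxN a) hperf
    ((hN a).trans hCE) (N₀ + (n₁ + s)) hf hb' (b' + δ')
  have hmem : ∀ g ∈ t, M (h g) ^ p ^ J * F g ∈ E' := fun g hg =>
    mul_mem (pow_mem (PM.mon (h1 g hg).1) _) (h1 g hg).2.1
  have h3 : R f = R (f - ∑ g ∈ t, M (h g) ^ p ^ J * F g) + ∑ g ∈ t, R (M (h g) ^ p ^ J * F g) := by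
    rw [hRsub _ hf.1 _ (sum_mem hmem), hRsum _ _ hmem, sub_add_cancel]
  rw [h3]
  refine (hRge _ (sub_mem hf.1 (sum_mem hmem)) _ h2).add (RVal.Ge.sum _ _ fun g hg => ?_)
  obtain ⟨h4, h5, h6, h7⟩ := h1 g hg
  have hM0 : M (h g) ^ p ^ J ≠ 0 := pow_ne_zero _ (hMs.ne _ trivial)
  rw [hRlin _ _ (PM.mon h4) h5]
  have h8 : v.Ge (b' - v (M (h g) ^ p ^ J)) (F g) := by
    have h9 := h7.mul (RVal.ge_self (v := v) (M (h g) ^ p ^ J)⁻¹)
    rw [mul_comm (M (h g) ^ p ^ J), mul_inv_cancel_right₀ hM0, v.map_inv hM0] at h9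
    exact h9.mono (by linarith)
  have h9 := (RVal.ge_self (v := v) (M (h g) ^ p ^ J)).mul (hRpow _ h5 h6 _ h8)
  exact h9.mono (by linarith)

end Main2

end Pool.Agent.TWHT
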