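import Pool.Agent.Lib.TWHT.NsdP
import Pool.Agent.Lib.TWHT.HdR

/-!
# TANK W, leaf (Ht), H1: the strict gain and the relations

* `hder_gt`: the operators of positive order have a strict gain, if `E` is immediate over `C`;
* `relN_rat`: the relation on a discrete field, if the value of `c₀` is rational over that of `x`;
* `relN_ug`: the relation from a uniform gain;
* `isAlgClosed_k`: the residue field of an algebraically closed field is algebraically closed.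
-/

set_option autoImplicit false
set_option linter.unusedSectionVars false

open Polynomial

namespace Pool.Agent.TWHT

open Pool.Agent.H15JM (RVal)
open Pool.Agent.LU1 (VPos adj)
open Pool.Agent.D2 (Ctx0)
open Pool.Agent.D2P (hen clI mem_clI)
open Pool.Agent.TWM Pool.Agent.TWS
open Pool.Agent.TWCT (PB1 RStep)

universe u

variable {k Ω : Type u} [Field k] [Field Ω] [Algebra k Ω] {v : RVal Ω} {p : ℕ}
  {C L E N : IntermediateField k Ω}

section A

variable [hp : Fact p.Prime] [CharP Ω p]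

/-- **The strict gain.** -/
theorem hder_gt {x c : ℕ → Ω} {r : ℝ} {Th : ℕ → ℕ → Ω → Ω} (hT : Tht p v C L E x c r Th)
    {Dr : ℕ → Ω → Ω}
    (hD : ∀ n m : ℕ, m < p ^ n → ∀ g ∈ E, g ^ p ^ n ∈ C → Dr m (g ^ p ^ n) = Th n m g ^ p ^ n)
    (himm : Imm v C E) {m : ℕ} (hm : 1 ≤ m) {f : Ω} (hf : f ∈ C) (hf0 : f ≠ 0) :
    Gt v (v f) (Dr m f) := by
  have hmp : m < p ^ m := lt_pow_self' m
  obtain ⟨g, hg, rfl⟩ := exists_root_pow hT.dat.perf m (hT.dat.CE hf)
  have hg0 : g ≠ 0 := by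
    rintro rfl
    exact hf0 (zero_pow (pow_ne_zero _ hp.out.ne_zero))
  obtain ⟨c', hc', h1⟩ := himm.imm g hg hg0
  have hgT := hT.dat.leE hg
  have hcT := hT.dat.leE (hT.dat.CE hc')
  have h2 : Th m m g = Th m m (g - c') := by
    rw [hT.sub m m hgT hcT, hT.base hmp hm (hT.dat.le hc'), sub_zero]
  have h3 : Gt v (v g) (Th m m g) := by
    rw [h2]
    by_cases h0 : g - c' = 0
    · rw [h0, hT.map_zero']
      exact Gt.zero
    · intro h4
      exact (h1 h0).trans_le (hT.ge hmp (sub_mem hgT hcT) (RVal.ge_self _) h4)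
  rw [hD m m hmp g hg hf]
  intro h4
  have h5 : Th m m g ≠ 0 := fun h0 => h4 (by rw [h0, zero_pow (pow_ne_zero _ hp.out.ne_zero)])
  rw [v.map_pow hg0, v.map_pow h5]
  have hpn : (0 : ℝ) < ((p ^ m : ℕ) : ℝ) := by exact_mod_cast pow_pos hp.out.pos m
  exact mul_lt_mul_of_pos_left (h3 h5) hpn

end A

section B

variable [hp : Fact p.Prime] [CharP k p] [CharP Ω p] [PerfectRing k p] [hcx : Fact (Ctx0 k v)]
  {x c₀ : Ω} {D : ℕ → Ω → Ω}

/-- **The relation, rational case.** -/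
theorem relN_rat (h : HDer p v N x D) (hpb : PB1 p N x) (hx0 : x ≠ 0) (hc0 : c₀ ≠ 0)
    (hD1 : D 1 x = c₀) (hmem : ∀ m : ℕ, ∀ f ∈ N, ∃ g ∈ N, D m f = c₀ ^ m * g) {γ : ℝ}
    (hγ : 0 < γ) {e : Ω} (he : e ∈ N) (he0 : e ≠ 0) (hve : v e = γ)
    (hdisc : ∀ a ∈ N, a ≠ 0 → ∃ z : ℤ, v a = z * γ)
    (hgt : ∀ m : ℕ, 1 ≤ m → ∀ f ∈ N, f ≠ 0 → Gt v (v f) (D m f)) {q : ℕ} (hq : q ≠ 0) {z : ℤ}
    (hrat : (q : ℝ) * v c₀ = z * v x) {i₁ j : ℕ} (hpow : ∀ i, i₁ ≤ i → c₀ ^ (p ^ i * j) ∈ N) :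
    RelN p v N D j := by
  have hq0 : (0 : ℝ) < q := by exact_mod_cast Nat.pos_of_ne_zero hq
  obtain ⟨z', hz'⟩ := hdisc x h.mem hx0
  have hμ : 0 < γ / q := by positivity
  have hgain : ∀ m : ℕ, 1 ≤ m → ∀ f ∈ N, ∀ b : ℝ, v.Ge b f → v.Ge (b + γ / q) (D m f) := by
    intro m hm f hf b hb h0
    have hf0 : f ≠ 0 := by
      rintro rfl
      exact h0 (h.map_zero m)
    obtain ⟨g, hg, h1⟩ := hmem m f hf
    have hg0 : g ≠ 0 := by
      rintro rfl
      exact h0 (by rw [h1, mul_zero])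
    obtain ⟨a, ha⟩ := hdisc g hg hg0
    obtain ⟨b', hb'⟩ := hdisc f hf hf0
    have h2 : v (D m f) = m * v c₀ + a * γ := by
      rw [h1, v.map_mul (pow_ne_zero m hc0) hg0, v.map_pow hc0, ha]
    have h3 := hgt m hm f hf hf0 h0
    have h4 : (q : ℝ) * (v (D m f) - v f) = ((m * z * z' + q * a - q * b' : ℤ) : ℝ) * γ := by
      rw [h2, hb']
      push_cast
      rw [hz'] at hrat
      linear_combination (m : ℝ) * hrat
    have h5 : (0 : ℝ) < ((m * z * z' + q * a - q * b' : ℤ) : ℝ) * γ := by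
      rw [← h4]
      exact mul_pos hq0 (by linarith)
    have h6 : (0 : ℝ) < ((m * z * z' + q * a - q * b' : ℤ) : ℝ) := (mul_pos_iff_of_pos_right hγ).1 h5
    have h7 : (1 : ℝ) ≤ ((m * z * z' + q * a - q * b' : ℤ) : ℝ) := by
      have : (0 : ℤ) < (m * z * z' + q * a - q * b' : ℤ) := by exact_mod_cast h6
      exact_mod_cast this
    have h8 : γ ≤ (q : ℝ) * (v (D m f) - v f) := by
      rw [h4]
      nlinarith
    have h9 : γ / q ≤ v (D m f) - v f := by
      rw [div_le_iff₀ hq0, mul_comm]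
      exact h8
    have := hb hf0
    linarith
  refine h.rel hpb hx0 (by rwa [hD1]) hγ hdisc he he0 hve hμ hgain (m := j) (i₁ := i₁) ?_
  intro i hi f hf
  obtain ⟨g, hg, h1⟩ := hmem (p ^ i * j) f hf
  rw [h1]
  exact mul_mem (hpow i hi) hg

/-- **The relation from a uniform gain.** -/
theorem relN_ug {δ : ℝ} (hδ : 0 < δ) (hU : UG v N D δ) {j : ℕ} (hj : 0 < j) :
    RelN (k := k) p v N D j := by
  refine ⟨0, 0, fun _ => 1, δ, one_ne_zero, hδ, fun s f hf c hc => ?_⟩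
  rw [Finset.sum_range_one, one_pow, map_one, one_mul, zero_add, add_zero]
  refine (hU (p ^ s * j) f hf c hc).mono ?_
  have h1 : (1 : ℝ) ≤ j := by exact_mod_cast hj
  have h2 : (0 : ℝ) < (p : ℝ) ^ s := pow_pos (by exact_mod_cast hp.out.pos) s
  push_cast
  nlinarith [mul_pos hδ h2]

end B

end Pool.Agent.TWHT
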