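import Pool.Agent.Lib.TWHT.N7a

/-!
# TANK W, leaf (Ht), FV(y): the jets of `K = E<w>`

* `D1 p D x = D (p ^ i)`, `Y1 p w x = w ^ p ^ i`, `x = ((), i)`; `pv1`: the value at the previous
  index;
* `One7`: the family `D` of jets of `K` over `E`; `exists_one7`: existence, with the integrability
  `IntO` of exact data;
* `One7.bddN`: the solutions of a system have a bounded degree.
-/

set_option autoImplicit false
set_option linter.unusedSectionVars false

open Polynomial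

namespace Pool.Agent.TWHT

open Pool.Agent.H15JM (RVal)
open Pool.Agent.D2 (Ctx0)
open Pool.Agent.D2P (mem_clI)
open Pool.Agent.TWM
open Pool.Agent.TWC (Nul Cau eq_of_ge Opr fn)
open Pool.Agent.TWIV

universe u

variable {k H : Type u} [Field k] [Field H] [Algebra k H] {v : RVal H} {p : ℕ} [hp : Fact p.Prime]
  [CharP H p] {A : Type*} [AddCommGroup A] {pr : A → H →ₗ[k] H}
  {E K : IntermediateField k H} {w : H} {γ : A}

/-- The jet of index `x`. -/
def D1 (p : ℕ) (D : ℕ → H → H) (x : Unit × ℕ) (z : H) : H := D (p ^ x.2) z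

/-- `w ^ p ^ i` -/
def Y1 (p : ℕ) (w : H) (x : Unit × ℕ) : H := w ^ p ^ x.2

/-- The value at the previous index. -/
def pv1 (g : Unit × ℕ → H) : Unit × ℕ → H
  | (_, 0) => 0
  | (a, i + 1) => g (a, i)

theorem pv1_sub (g g' : Unit × ℕ → H) (x : Unit × ℕ) :
    pv1 (fun z => g z - g' z) x = pv1 g x - pv1 g' x := by
  rcases x with ⟨a, _ | i⟩
  · exact (sub_zero 0).symm
  · rfl

theorem pv1_mem {F : IntermediateField k H} {g : Unit × ℕ → H} (h : ∀ z, g z ∈ F)
    (x : Unit × ℕ) : pv1 g x ∈ F := by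
  rcases x with ⟨a, _ | i⟩
  · exact zero_mem F
  · exact h _

theorem pv1_nul {g : Unit × ℕ → ℕ → H} (h : ∀ z, Nul v (g z)) (x : Unit × ℕ) :
    Nul v fun n => pv1 (fun z => g z n) x := by
  rcases x with ⟨a, _ | i⟩
  · exact TWC.Nul.zero
  · exact h _

/-- The integrability of exact data. -/
def IntO (p : ℕ) (v : RVal H) (K : IntermediateField k H) (D : ℕ → H → H) : Prop :=
  ∀ (b : Unit × ℕ → H) (N : ℕ), (∀ x, b x ∈ K) → (∀ x, N ≤ x.2 → b x = 0) →
    (∀ x z, Gt v 0 (D1 p D z (b x) - D1 p D x (b z))) →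
    (∀ x, Gt v 0 ((D1 p D x)^[p - 1] (b x))) → ∃ G ∈ K, ∀ x, Gt v 0 (D1 p D x G - b x)

/-- A sequence of degree `≤ d`. -/
def Bnd1 (v : RVal H) (D : ℕ → H → H) (d : ℕ) (X : ℕ → H) : Prop :=
  ∀ J : ℕ, d < J → Nul v fun n => D J (X n)

/-- The jets of `E<w>`. -/
structure One7 (p : ℕ) (v : RVal H) (pr : A → H →ₗ[k] H) (E K : IntermediateField k H)
    (w : H) (γ : A) (D : ℕ → H → H) : Prop where
  jx : JtX p v pr K E w γ D
  K1 : K = cadj v E w
  tl : TL v E w 0

variable [PerfectRing H p] [IsAlgClosed H]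

/-- **Existence.** -/
theorem exists_one7 [Fact (Ctx0 k v)] (hc : CompleteV v) (hg : GrP p v pr)
    (hE : ∀ c, ∀ x ∈ E, pr c x ∈ E) (hw : TL v E w 0) (hγ : pr γ w = w) :
    ∃ D : ℕ → H → H, One7 p v pr E (cadj v E w) w γ D ∧ IntO p v (cadj v E w) D := by
  obtain ⟨t, ht, hj⟩ := exists_jtx p hc hg hE hw hγ rfl
  refine ⟨jt t, ⟨hj, rfl, hw⟩, ?_⟩
  intro b N hb hN hs hβ
  set B : ℕ → cadj v E w := fun i => ⟨b ((), i), hb _⟩ with hB
  have e1 : ∀ (J : ℕ) (x : cadj v E w), ((Dj t J x : cadj v E w) : H) = jt t J x := fun J x => by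
    rw [jt_of_mem J x.2]
    rfl
  have hO : OneT v (cadj v E w) E w t := ⟨ht.base, ht.gen, ht.norm, ht.zero⟩
  obtain ⟨F, -, h1⟩ := hO.int (p := p) hw (le_cadj v E w) (self_mem_cadj v E w) (b := B)
    (fun i => (B i).2) (fun i hi => Subtype.ext (hN ((), i) hi)) (fun i j => by
      refine (congrArg (Gt v 0) ?_).mp (hs ((), i) ((), j))
      push_cast
      rw [e1, e1]
      rfl) (fun i => by
      have h2 : ∀ (m : ℕ), (((Dj t (p ^ i))^[m] (B i) : cadj v E w) : H) =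
          (D1 p (jt t) ((), i))^[m] (b ((), i)) := by
        intro m
        induction m with
        | zero => rfl
        | succ m ih =>
          rw [Function.iterate_succ_apply', Function.iterate_succ_apply', e1, ih]
          rfl
      rw [h2]
      exact hβ ((), i))
  refine ⟨F, F.2, ?_⟩
  rintro ⟨⟨⟩, i⟩
  refine (congrArg (Gt v 0) ?_).mp (h1 i)
  push_cast
  rw [e1]
  rfl

namespace One7

variable {D : ℕ → H → H} (T : One7 p v pr E K w γ D)

include T

theorem leK : E ≤ K := by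
  rw [T.K1]
  exact le_cadj v _ _

theorem myK : w ∈ K := by
  rw [T.K1]
  exact self_mem_cadj v _ _

theorem lim : Lim v E 0 w := T.tl.lim

theorem dx_mem (x : Unit × ℕ) {z : H} (hz : z ∈ K) : D1 p D x z ∈ K := T.jx.mem _ _ hz

theorem dx_sub (x : Unit × ℕ) {z z' : H} (hz : z ∈ K) (hz' : z' ∈ K) :
    D1 p D x (z - z') = D1 p D x z - D1 p D x z' := T.jx.sub _ hz hz'

theorem dx_add (x : Unit × ℕ) {z z' : H} (hz : z ∈ K) (hz' : z' ∈ K) :
    D1 p D x (z + z') = D1 p D x z + D1 p D x z' := T.jx.add _ _ hz _ hz'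

theorem dx_comm (x x' : Unit × ℕ) {z : H} (hz : z ∈ K) :
    D1 p D x' (D1 p D x z) = D1 p D x (D1 p D x' z) := by
  rw [D1, D1, D1, D1, T.jx.comp _ _ _ hz, T.jx.comp _ _ _ hz, add_comm (p ^ x'.2) (p ^ x.2),
    Nat.choose_symm_add]

theorem dx_gt (x : Unit × ℕ) {z : H} (hz : z ∈ K) {b : ℝ} (h : v.Ge b z) :
    Gt v b (D1 p D x z) :=
  T.jx.strict _ (Nat.one_le_pow _ _ hp.out.pos) _ hz b h

theorem dx_ge (x : Unit × ℕ) {z : H} (hz : z ∈ K) {b : ℝ} (h : v.Ge b z) :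
    v.Ge b (D1 p D x z) := T.jx.norm _ _ hz b h

theorem dx_gt' (x : Unit × ℕ) {z : H} (hz : z ∈ K) {b : ℝ} (h : Gt v b z) :
    Gt v b (D1 p D x z) := T.dx_gt x hz h.ge

theorem dx_nul (x : Unit × ℕ) {z : ℕ → H} (hz : ∀ n, z n ∈ K) (h : Nul v z) :
    Nul v fun n => D1 p D x (z n) := T.jx.nul _ hz h

theorem dx_E (x : Unit × ℕ) {e : H} (he : e ∈ E) : D1 p D x e = 0 :=
  T.jx.base _ (Nat.one_le_pow _ _ hp.out.pos) _ he

theorem dx_Y (x z : Unit × ℕ) : D1 p D z (Y1 p w x) = if x = z then 1 else 0 := by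
  rcases x with ⟨a, i⟩
  rcases z with ⟨a', c⟩
  have h1 : Y1 p w (a, i) = (X ^ p ^ i : Polynomial H).eval w := by
    rw [eval_pow, eval_X]
    rfl
  have h2 : (X ^ p ^ i : Polynomial H) ∈ PI E := pow_mem X_mem_PI _
  have h3 : D1 p D (a', c) (Y1 p w (a, i)) =
      (hasseDeriv (p ^ c) (X ^ p ^ i : Polynomial H)).eval w := by
    rw [h1]
    exact T.jx.poly _ h2 _
  rw [h3]
  split_ifs with h
  · have h4 : i = c := congrArg Prod.snd h
    subst h4
    rw [← monomial_one_right_eq_X_pow, hasseDeriv_monomial, Nat.choose_self, Nat.sub_self]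
    simp
  · have h4 : i ≠ c := fun h5 => h (by rw [h5])
    rcases Nat.lt_or_ge c i with h5 | h5
    · refine TWC.hasse_pow_char p i X fun h6 => ?_
      exact absurd (Nat.le_of_dvd (pow_pos hp.out.pos c) h6)
        (not_le.2 (Nat.pow_lt_pow_right hp.out.one_lt h5))
    · have h6 : i < c := lt_of_le_of_ne h5 h4
      rw [hasseDeriv_eq_zero_of_lt_natDegree, eval_zero]
      rw [natDegree_X_pow]
      exact Nat.pow_lt_pow_right hp.out.one_lt h6

theorem dx_pow (x : Unit × ℕ) {z : H} (hz : z ∈ K) :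
    D1 p D x (z ^ p) = (pv1 (fun x' => D1 p D x' z) x) ^ p := by
  rcases x with ⟨a, _ | i⟩
  · have h1 : ¬ p ∣ p ^ 0 := by
      rw [pow_zero]
      intro h
      exact absurd (Nat.le_of_dvd one_pos h) (not_le.2 hp.out.one_lt)
    change D (p ^ 0) (z ^ p) = 0 ^ p
    rw [T.jx.frob0 _ h1 _ hz, zero_pow hp.out.ne_zero]
  · change D (p ^ (i + 1)) (z ^ p) = (D (p ^ i) z) ^ p
    rw [pow_succ', T.jx.frob _ _ hz]

/-! ### Iterates -/

theorem it_mem (x : Unit × ℕ) (m : ℕ) {z : H} (hz : z ∈ K) : (D1 p D x)^[m] z ∈ K := by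
  induction m with
  | zero => exact hz
  | succ m ih =>
    rw [Function.iterate_succ_apply']
    exact T.dx_mem x ih

theorem it_sub (x : Unit × ℕ) (m : ℕ) {z z' : H} (hz : z ∈ K) (hz' : z' ∈ K) :
    (D1 p D x)^[m] (z - z') = (D1 p D x)^[m] z - (D1 p D x)^[m] z' := by
  induction m with
  | zero => rfl
  | succ m ih =>
    rw [Function.iterate_succ_apply', Function.iterate_succ_apply', Function.iterate_succ_apply',
      ih, T.dx_sub x (T.it_mem x m hz) (T.it_mem x m hz')]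

theorem it_add (x : Unit × ℕ) (m : ℕ) {z z' : H} (hz : z ∈ K) (hz' : z' ∈ K) :
    (D1 p D x)^[m] (z + z') = (D1 p D x)^[m] z + (D1 p D x)^[m] z' := by
  induction m with
  | zero => rfl
  | succ m ih =>
    rw [Function.iterate_succ_apply', Function.iterate_succ_apply', Function.iterate_succ_apply',
      ih, T.dx_add x (T.it_mem x m hz) (T.it_mem x m hz')]

theorem it_gt (x : Unit × ℕ) {m : ℕ} (hm : 1 ≤ m) {z : H} (hz : z ∈ K) (h : v.Ge 0 z) :
    Gt v 0 ((D1 p D x)^[m] z) := by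
  obtain ⟨m, rfl⟩ : ∃ m', m = m' + 1 := ⟨m - 1, by omega⟩
  have h1 : v.Ge 0 ((D1 p D x)^[m] z) := by
    clear hm
    induction m with
    | zero => exact h
    | succ m ih =>
      rw [Function.iterate_succ_apply']
      exact T.dx_ge x (T.it_mem x m hz) ih
  rw [Function.iterate_succ_apply']
  exact T.dx_gt x (T.it_mem x m hz) h1

theorem it_pow (a : Unit) (i m : ℕ) {z : H} (hz : z ∈ K) :
    (D1 p D (a, i + 1))^[m] (z ^ p) = ((D1 p D (a, i))^[m] z) ^ p := by
  induction m with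
  | zero => rfl
  | succ m ih =>
    rw [Function.iterate_succ_apply', Function.iterate_succ_apply', ih,
      T.dx_pow (a, i + 1) (T.it_mem (a, i) m hz)]
    rfl

theorem it_comp (x : Unit × ℕ) (m : ℕ) {z : H} (hz : z ∈ K) :
    ∃ c : ℕ, (D1 p D x)^[m] z = (c : H) * D (m * p ^ x.2) z := by
  induction m with
  | zero =>
    refine ⟨1, ?_⟩
    rw [Function.iterate_zero, id_eq, Nat.zero_mul, T.jx.zero z hz, Nat.cast_one, one_mul]
  | succ m ih =>
    obtain ⟨c, hc⟩ := ih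
    refine ⟨c * (p ^ x.2 + m * p ^ x.2).choose (m * p ^ x.2), ?_⟩
    rw [Function.iterate_succ_apply', hc]
    have h1 := T.jx.lin (p ^ x.2) ((c : ℕ) : H) (natCast_mem _ _)
      (D (m * p ^ x.2) z) (T.jx.mem _ _ hz)
    rw [D1, h1, T.jx.comp _ _ _ hz, Nat.cast_mul, mul_assoc,
      show (m + 1) * p ^ x.2 = p ^ x.2 + m * p ^ x.2 by ring]

theorem it_p (x : Unit × ℕ) {z : H} (hz : z ∈ K) : (D1 p D x)^[p] z = 0 := by
  set q := p - 1 with hqd
  have hq : q + 1 = p := by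
    have := hp.out.pos
    omega
  obtain ⟨c, hc⟩ := T.it_comp x q hz
  have e0 : (D1 p D x)^[p] z = D1 p D x ((D1 p D x)^[q] z) := by
    have h3 := Function.iterate_succ_apply' (D1 p D x) q z
    rwa [Nat.succ_eq_add_one, hq] at h3
  have h1 := T.jx.lin (p ^ x.2) ((c : ℕ) : H) (natCast_mem _ _)
    (D (q * p ^ x.2) z) (T.jx.mem _ _ hz)
  rw [e0, hc, D1, h1, T.jx.comp _ _ _ hz]
  have h2 : p ^ x.2 + q * p ^ x.2 = p ^ x.2 * p := by
    have h4 : p ^ x.2 + q * p ^ x.2 = p ^ x.2 * (q + 1) := by ring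
    rw [h4, hq]
  have h3 : (((p ^ x.2 + q * p ^ x.2).choose (q * p ^ x.2) : ℕ) : H) = 0 := by
    rw [CharP.cast_eq_zero_iff H p, ← Nat.choose_symm (Nat.le_add_left _ _),
      Nat.add_sub_cancel, h2, TWC.dvd_choose_pow_iff, Nat.mul_div_cancel_left _
      (Nat.pow_pos hp.out.pos)]
  rw [h3, zero_mul, mul_zero]

/-! ### Limits of `E` -/

theorem sumY_mem (S : Finset (Unit × ℕ)) (a : Unit × ℕ → k) :
    ∑ z ∈ S, algebraMap k H (a z) * Y1 p w z ∈ K :=
  sum_mem fun _ _ => mul_mem (K.algebraMap_mem _) (pow_mem T.myK _)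

theorem dx_sum (S : Finset (Unit × ℕ)) (a : Unit × ℕ → k) (x : Unit × ℕ) :
    D1 p D x (∑ z ∈ S, algebraMap k H (a z) * Y1 p w z) =
      if x ∈ S then algebraMap k H (a x) else 0 := by
  classical
  have h0 : ∀ z : Unit × ℕ, Y1 p w z ∈ K := fun z => pow_mem T.myK _
  rw [D1, T.jx.sum _ _ (fun z => algebraMap k H (a z) * Y1 p w z)
    fun z _ => mul_mem (K.algebraMap_mem _) (h0 z)]
  have h1 : ∀ z ∈ S, D (p ^ x.2) (algebraMap k H (a z) * Y1 p w z) =
      if z = x then algebraMap k H (a z) else 0 := by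
    intro z _
    rw [T.jx.amul _ _ (h0 z)]
    have h2 := T.dx_Y z x
    rw [D1] at h2
    rw [h2]
    split_ifs
    · rw [mul_one]
    · rw [mul_zero]
  rw [Finset.sum_congr rfl h1, Finset.sum_ite_eq']

/-- The elements of `K` which are limits of `E`. -/
theorem near (hk : Ctx0 k v) {x : H} (hx : x ∈ K) (hl : Lim v E 0 x) :
    ∃ e ∈ E, ∃ (N : ℕ) (S : Unit × ℕ → k), (∀ z, N ≤ z.2 → S z = 0) ∧
      Gt v 0 (x - e - ∑ z ∈ XN Unit N, algebraMap k H (S z) * Y1 p w z) := by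
  classical
  have hx' : x ∈ cadj v E w := by
    rw [← T.K1]
    exact hx
  obtain ⟨e, he, N, c, h1⟩ := TWC.germ_res hk T.tl p hx' hl
  refine ⟨e, he, N, fun z => if z.2 < N then c z.2 else 0, fun z hz => if_neg (by omega), ?_⟩
  have h2 : ∑ z ∈ XN Unit N, algebraMap k H (if z.2 < N then c z.2 else 0) * Y1 p w z =
      ∑ i ∈ Finset.range N, algebraMap k H (c i) * w ^ p ^ i := by
    rw [XN, Finset.sum_product, Finset.univ_unique, Finset.sum_singleton]
    exact Finset.sum_congr rfl fun i hi => by rw [if_pos (Finset.mem_range.1 hi)]; rfl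
  rw [h2]
  refine (congrArg (Gt v 0) ?_).mp h1
  ring

/-- **The sequences whose jets are null.** -/
theorem const {X : ℕ → H} (hX : Cau v K X)
    (h0 : ∀ c : ℕ, Nul v fun n => D (p ^ c) (X n)) :
    ∃ m, Cau v E m ∧ Nul v fun n => X n - m n :=
  const_step (p := p) (D := D) T.tl T.K1 le_rfl T.jx.add T.jx.norm T.jx.poly hX h0

/-- The degree of a jet. -/
theorem bnd_jet {d : ℕ} {X : ℕ → H} (hX : ∀ n, X n ∈ K) (h : Bnd1 v D (d + 1) X)
    {m : ℕ} (hm : 1 ≤ m) : Bnd1 v D d fun n => D m (X n) := by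
  intro J hJ
  have h2 := TWC.Nul.mul_ge (h (J + m) (by omega)) (c := fun _ => (((J + m).choose m : ℕ) : H))
    fun _ => TWM.ge_natCast v _
  exact h2.congr fun n => (T.jx.comp m J _ (hX n)).symm

end One7

/-! ### The operators -/

section Op

variable [Fact (Ctx0 k v)] {L : IntermediateField k H} {T₀ : Submodule k (Opr v E)}
  {𝒜 : Submodule k (Module.End k H)}

/-- The operators of `K`. -/
structure OpK1 (v : RVal H) (K : IntermediateField k H) (D : ℕ → H → H)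
    (φ : Module.End k H) : Prop where
  ge : ∀ (x : H) (b : ℝ), v.Ge b x → v.Ge b (φ x)
  mem : ∀ x ∈ K, φ x ∈ K
  jet : ∀ J, ∀ x ∈ K, D J (φ x) = φ (D J x)

theorem One7.opK {D : ℕ → H → H} (T : One7 p v pr E K w γ D) (h : NX v L E T₀ 𝒜)
    (hw : w ∈ L) {φ : Module.End k H} (hφ : φ ∈ 𝒜) : OpK1 v K D φ := by
  have hE : ∀ x ∈ E, φ x ∈ E := fun x hx => h.memE hφ hx
  refine ⟨h.ge φ hφ, fun x hx => ?_, fun J x hx => ?_⟩
  · rw [T.K1] at hx ⊢
    exact h.cadj hφ T.tl hw hE hx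
  · exact h.jet hφ T.tl hw hE T.K1 T.jx J hx

variable {κ : Type*} [Fintype κ] {φ : κ → κ → Module.End k H}
  {D : ℕ → H → H} (T : One7 p v pr E K w γ D) (hφ : ∀ i j, OpK1 v K D (φ i j))

include T hφ

theorem jt_ps1 (J : ℕ) (l : κ) {x : κ → H} (hx : ∀ j, x j ∈ K) :
    D J (ps φ l x) = ps φ l (fun j => D J (x j)) := by
  rw [ps, ps, T.jx.sum _ _ _ fun j _ => (hφ l j).mem _ (hx j)]
  exact Finset.sum_congr rfl fun j _ => (hφ l j).jet _ _ (hx j)

theorem dx_ps1 (x : Unit × ℕ) (l : κ) {z : κ → H} (hz : ∀ j, z j ∈ K) :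
    D1 p D x (ps φ l z) = ps φ l (fun j => D1 p D x (z j)) := jt_ps1 T hφ _ l hz

theorem it_ps1 (x : Unit × ℕ) (m : ℕ) (l : κ) {z : κ → H} (hz : ∀ j, z j ∈ K) :
    (D1 p D x)^[m] (ps φ l z) = ps φ l (fun j => (D1 p D x)^[m] (z j)) := by
  induction m with
  | zero => rfl
  | succ m ih =>
    simp only [Function.iterate_succ_apply']
    rw [ih, dx_ps1 T hφ x l fun j => T.it_mem x m (hz j)]

/-- **The solutions of a system have a bounded degree.** -/
theorem bdd1 {X : κ → ℕ → H} {f : κ → H} (hX : ∀ l, Cau v K (X l)) (hf : ∀ l, f l ∈ K)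
    (hR : ∀ l, Nul v fun n => X l n ^ p - ps φ l (fun j => X j n) - f l) :
    ∃ d, ∀ l, Bnd1 v D d (X l) := by
  classical
  have hφg : ∀ i j, ∀ (x : H) (b : ℝ), v.Ge b x → v.Ge b (φ i j x) := fun i j => (hφ i j).ge
  have hφm : ∀ i j, ∀ x ∈ K, φ i j x ∈ K := fun i j => (hφ i j).mem
  have hp0 : (0 : ℝ) < p := by exact_mod_cast hp.out.pos
  have hp1 : (1 : ℝ) ≤ p := by exact_mod_cast hp.out.one_le
  choose df hdf using fun l => T.jx.fin (f l) (hf l) 0
  set d := Finset.univ.sup df with hd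
  -- the bound of the sequences
  obtain ⟨K₀, hK₀, n₀, hn₀⟩ : ∃ K₀ : ℝ, 0 ≤ K₀ ∧ ∃ n₀, ∀ n, n₀ ≤ n → ∀ l,
      v.Ge (-K₀) (X l n) := by
    choose N hN using fun l => (hX l).cau 1 one_pos
    set n₀ := Finset.univ.sup N with hn₀
    have h0 : 0 ≤ ∑ l, |v (X l n₀)| := Finset.sum_nonneg fun l _ => abs_nonneg _
    refine ⟨1 + ∑ l, |v (X l n₀)|, by linarith, n₀, fun n hn l => ?_⟩
    have h1 : N l ≤ n₀ := Finset.le_sup (f := N) (Finset.mem_univ l)
    have e1 : X l n = (X l n - X l n₀) + X l n₀ := by ring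
    rw [e1]
    refine RVal.Ge.add ((hN l n n₀ (h1.trans hn) h1).mono (by linarith))
      ((RVal.ge_self (v := v) (X l n₀)).mono ?_)
    have h3 := Finset.single_le_sum (f := fun l => |v (X l n₀)|) (fun l _ => abs_nonneg _)
      (Finset.mem_univ l)
    have h4 := neg_abs_le (v (X l n₀))
    linarith
  have key : ∀ M : ℕ, ∀ J : ℕ, d < J → ∀ ε : ℝ, 0 < ε → ∃ N, ∀ n, N ≤ n → ∀ l,
      v.Ge (-(K₀ / (p : ℝ) ^ M + ε)) (D J (X l n)) := by
    intro M
    induction M with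
    | zero =>
      intro J _ ε hε
      refine ⟨n₀, fun n hn l => T.jx.norm J _ ((hX l).mem n) _ ((hn₀ n hn l).mono ?_)⟩
      rw [pow_zero, div_one]
      linarith
    | succ M ih =>
      intro J hJ ε hε
      have hJ' : d < p * J := hJ.trans_le (Nat.le_mul_of_pos_left _ hp.out.pos)
      obtain ⟨N₁, h1⟩ := ih (p * J) hJ' ε hε
      have hu : ∀ l n, X l n ^ p - ps φ l (fun j => X j n) - f l ∈ K := fun l n =>
        sub_mem (sub_mem (pow_mem ((hX l).mem n) _) (ps_mem hφm fun j => (hX j).mem n)) (hf l)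
      choose N₂ h2 using fun l => T.jx.nul (p * J) (hu l) (hR l) ε hε
      refine ⟨max N₁ (Finset.univ.sup N₂), fun n hn l => ?_⟩
      have hn1 : N₁ ≤ n := (le_max_left _ _).trans hn
      have hn2 : N₂ l ≤ n := ((Finset.le_sup (f := N₂) (Finset.mem_univ l)).trans
        (le_max_right _ _)).trans hn
      have hKM : 0 ≤ K₀ / (p : ℝ) ^ M := by positivity
      have h3 : v.Ge (-ε) (D (p * J) (X l n ^ p - ps φ l (fun j => X j n) - f l)) := h2 l n hn2
      have hph : ps φ l (fun j => X j n) ∈ K := ps_mem hφm fun j => (hX j).mem n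
      have hpw : X l n ^ p ∈ K := pow_mem ((hX l).mem n) _
      rw [T.jx.sub _ (sub_mem hpw hph) (hf l), T.jx.sub _ hpw hph,
        T.jx.frob J _ ((hX l).mem n), jt_ps1 T hφ _ _ fun j => (hX j).mem n] at h3
      have h4 : v.Ge (-(K₀ / (p : ℝ) ^ M + ε)) (ps φ l
          (fun j => D (p * J) (X j n))) := ps_ge hφg fun j => h1 n hn1 j
      have h5 : v.Ge (-(K₀ / (p : ℝ) ^ M + ε)) (D (p * J) (f l)) := by
        refine (hdf l _ ?_).mono (by linarith)
        exact ((Finset.le_sup (f := df) (Finset.mem_univ l)).trans_lt hJ').le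
      have h6 : v.Ge (-(K₀ / (p : ℝ) ^ M + ε)) (D J (X l n) ^ p) := by
        refine (congrArg (v.Ge _) ?_).mp (((h3.mono (by linarith)).add h4).add h5)
        ring
      refine (ge_pow_inv h6).mono ?_
      rw [neg_div, neg_le_neg_iff, add_div, div_div, ← pow_succ]
      have h7 : ε / p ≤ ε := div_le_self hε.le hp1
      linarith
  refine ⟨d, fun l J hJ ε hε => ?_⟩
  obtain ⟨M, hM⟩ := pow_unbounded_of_one_lt (K₀ / (ε / 2))
    (show (1 : ℝ) < p by exact_mod_cast hp.out.one_lt)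
  obtain ⟨N, hN⟩ := key M J hJ (ε / 2) (by linarith)
  refine ⟨N, fun n hn => (hN n hn l).mono ?_⟩
  have h1 : K₀ / (p : ℝ) ^ M ≤ ε / 2 := by
    rw [div_le_iff₀ (by positivity)]
    rw [div_lt_iff₀ (by linarith)] at hM
    nlinarith
  linarith

end Op

end Pool.Agent.TWHT
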