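import Pool.Agent.Lib.TWHT.N7g
import Pool.Agent.Lib.TWHT.OneF

/-!
# TANK W, leaf (Ht), FV(y): the gauge

* `CofO.cor`: the relations `CorN` of the tensor core, in `MM v E`;
* `DatO.gauge`: after gauge `m_x = 0` and `D_z b_x - D_x b_z > 0`;
* `DatO.beta`: `D_x ^ (p - 1) b_x > 0`;
* `DatO.concl`: the solutions are in `K + L(E)`.
-/

set_option autoImplicit false
set_option linter.unusedSectionVars false

open Polynomial

namespace Pool.Agent.TWHT

open Pool.Agent.H15JM (RVal)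
open Pool.Agent.D2 (Ctx0)
open Pool.Agent.D2P (mem_clI)
open Pool.Agent.TWM
open Pool.Agent.TWC (Nul Cau eq_of_ge InBL Opr fn MM CauS cls Oper NSD)
open Pool.Agent.TWIV

universe u

variable {k H : Type u} [Field k] [Field H] [Algebra k H] {v : RVal H} {p : ℕ} [hp : Fact p.Prime]
  [CharP k p] [PerfectRing k p] [CharP H p] [PerfectRing H p] [IsAlgClosed H]
  [hk : Fact (Ctx0 k v)] {A : Type*} [AddCommGroup A] {pr : A → H →ₗ[k] H}
  {L C E K : IntermediateField k H} {y : H} {γ : A} {κ : Type*} [Fintype κ]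
  {T₀ : Submodule k (Opr v E)} {𝒜 : Submodule k (Module.End k H)}

/-! ### The classes -/

section

variable {φ : κ → κ → Module.End k H} {D : ℕ → H → H} (T : One7 p v pr E K y γ D)
  {X : κ → ℕ → H} {f : κ → H} {b : κ → Unit × ℕ → H}
  {m : κ → Unit × ℕ → ℕ → H} {N : ℕ} (hφ : ∀ i j, OpK1 v K D (φ i j))
  (G : DatO p v E K D φ X f b m N) {M : ℕ}
  {e : κ → Unit × ℕ → H} {S ρ : κ → Unit × ℕ → Unit × ℕ → k}
  (c : CofO p v E D y φ f b M e S ρ)
  {lam : κ → κ → k} {ψ : κ → κ → Opr v E}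
  (hlam : ∀ i j, ∀ x ∈ E, φ i j x = algebraMap k H (lam i j) * x + fn (ψ i j) x)

/-- the class of the generator -/
noncomputable def yM1 (v : RVal H) [Fact (Ctx0 k v)] (E : IntermediateField k H) (y : H)
    (_ : Unit) : MM v E := cls v E y

/-- the classes of the solutions -/
noncomputable def mM1 (G : DatO p v E K D φ X f b m N) (l : κ) (x : Unit × ℕ) : MM v E :=
  MM.mk v E ⟨m l x, G.cm l x⟩

include T

theorem lim_Yy1 (x : Unit × ℕ) : Lim v E 0 (Y1 p y x) := TWC.Lim.pow_pow p T.lim x.2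

theorem Yx_cls1 (x : Unit × ℕ) : Yx (MM.fr p v E) (yM1 v E y) x = cls v E (Y1 p y x) :=
  (TWC.cls_pow_pow p T.lim x.2).symm

/-- sequences for the letters -/
theorem exists_seqY1 : ∃ s : Unit × ℕ → CauS v E,
    (∀ x, Nul v fun n => Y1 p y x - (s x : ℕ → H) n) ∧
    ∀ x, Yx (MM.fr p v E) (yM1 v E y) x = MM.mk v E (s x) := by
  choose s hs h1 using fun x => TWC.exists_cls (lim_Yy1 (p := p) T x)
  exact ⟨s, hs, fun x => (Yx_cls1 T x).trans (h1 x)⟩

/-- a combination of the letters -/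
theorem nul_sumY1 {s : Unit × ℕ → CauS v E} (hs : ∀ x, Nul v fun n => Y1 p y x - (s x : ℕ → H) n)
    (S : Finset (Unit × ℕ)) (a : Unit × ℕ → k) : Nul v fun n =>
      (∑ x ∈ S, algebraMap k H (a x) * Y1 p y x) -
        ((∑ x ∈ S, a x • s x : CauS v E) : ℕ → H) n := by
  have h1 : Nul v fun n => ∑ x ∈ S, algebraMap k H (a x) * (Y1 p y x - (s x : ℕ → H) n) :=
    TWC.Nul.sum _ _ fun x _ => TWC.Nul.mul_ge (hs x) fun _ => hk.out.ge (a x)
  refine h1.congr fun n => ?_
  have h2 : ((∑ x ∈ S, a x • s x : CauS v E) : ℕ → H) n =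
      ∑ x ∈ S, algebraMap k H (a x) * (s x : ℕ → H) n := by
    rw [Submodule.coe_sum, Finset.sum_apply]
    refine Finset.sum_congr rfl fun x _ => ?_
    rw [Submodule.coe_smul, Pi.smul_apply, Algebra.smul_def]
  rw [h2, ← Finset.sum_sub_distrib]
  exact Finset.sum_congr rfl fun x _ => by ring

/-- the independence of the letters -/
theorem indY1 : LinearIndependent k (Yx (MM.fr p v E) (yM1 v E y)) := by
  obtain ⟨s, hs, h1⟩ := exists_seqY1 (p := p) T
  rw [linearIndependent_iff']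
  intro S g hg z hz
  have h2 : MM.mk v E (∑ x ∈ S, g x • s x) = 0 := by
    rw [← hg, map_sum]
    exact Finset.sum_congr rfl fun x _ => by rw [map_smul, h1]
  rw [MM.mk_eq_zero] at h2
  obtain ⟨e', he', h3⟩ := h2
  have h4 : v.Ge 0 ((∑ x ∈ S, algebraMap k H (g x) * Y1 p y x) - e') :=
    TWC.Nul.const (((nul_sumY1 T hs S g).add h3).congr fun n => by ring)
  have h5 := T.dx_gt z (sub_mem (T.sumY_mem S g) (T.leK he')) h4
  rw [T.dx_sub z (T.sumY_mem S g) (T.leK he'), T.dx_sum, if_pos hz, T.dx_E z he',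
    sub_zero] at h5
  exact hk.out.const_eq_zero h5

include hφ G c hlam

/-- the relation of the classes -/
theorem rel_mk1 (l : κ) (x : Unit × ℕ) (hx : Cau v E fun n => (pv1 (fun z => m l z n) x) ^ p) :
    MM.mk v E ⟨fun n => (pv1 (fun z => m l z n) x) ^ p, hx⟩ =
      (∑ j, (lam l j • mM1 G j x + MM.act (ψ l j) (mM1 G j x))) +
      ∑ z ∈ XN Unit M, S l x z • Yx (MM.fr p v E) (yM1 v E y) z := by
  have hφg : ∀ i j, ∀ (x : H) (b : ℝ), v.Ge b x → v.Ge b (φ i j x) := fun i j => (hφ i j).ge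
  have hφE : ∀ i j, ∀ x ∈ E, φ i j x ∈ E := fun i j x hx => by
    rw [hlam i j x hx]
    exact add_mem (mul_mem (E.algebraMap_mem _) hx) (TWC.fn_mem _ _)
  obtain ⟨s, hs, h1⟩ := exists_seqY1 (p := p) T
  have hc : ∀ j, Cau v E fun n => φ l j (m j x n) := fun j => by
    refine ⟨fun n => hφE l j _ ((G.cm j x).mem n), fun ε hε => ?_⟩
    obtain ⟨N, hN⟩ := (G.cm j x).cau ε hε
    exact ⟨N, fun a b ha hb => by rw [← map_sub]; exact hφg l j _ _ (hN a b ha hb)⟩
  have h2 : ∀ j, lam l j • mM1 G j x + MM.act (ψ l j) (mM1 G j x) =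
      MM.mk v E ⟨fun n => φ l j (m j x n), hc j⟩ := fun j =>
    (mk_phi (hlam l j) ⟨m j x, G.cm j x⟩ (hc j)).symm
  have h3 : ∑ z ∈ XN Unit M, S l x z • Yx (MM.fr p v E) (yM1 v E y) z =
      MM.mk v E (∑ z ∈ XN Unit M, S l x z • s z) := by
    rw [map_sum]
    exact Finset.sum_congr rfl fun z _ => by rw [map_smul, h1]
  rw [Finset.sum_congr rfl fun j _ => h2 j, h3, ← map_sum, ← map_add, ← sub_eq_zero, ← map_sub,
    MM.mk_eq_zero]
  refine ⟨e l x, c.me l x, ?_⟩
  have h4 := G.rnul T hφ l x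
  have h5 : Nul v fun _ => DatO.rr p D φ f b l x - e l x -
    ∑ z ∈ XN Unit M, algebraMap k H (S l x z) * Y1 p y z := TWC.Nul.of_ge fun _ =>
      (c.hS l x).ge
  refine (((h5.sub h4).add (nul_sumY1 T hs (XN Unit M) (S l x)))).congr fun n => ?_
  have h6 : (((⟨fun n => (pv1 (fun z => m l z n) x) ^ p, hx⟩ : CauS v E) -
      ((∑ j, (⟨fun n => φ l j (m j x n), hc j⟩ : CauS v E)) +
        ∑ z ∈ XN Unit M, S l x z • s z) : CauS v E) : ℕ → H) n =
      (pv1 (fun z => m l z n) x) ^ p - (ps φ l (fun j => m j x n) +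
        ((∑ z ∈ XN Unit M, S l x z • s z : CauS v E) : ℕ → H) n) := by
    rw [AddSubgroupClass.coe_sub, Pi.sub_apply, Submodule.coe_add, Pi.add_apply,
      Submodule.coe_sum, Finset.sum_apply]
    rfl
  rw [h6]
  ring

/-- **The relations of the tensor core.** -/
theorem CofO.cor (h : Oper p v C E T₀) (hψ : ∀ i j, ψ i j ∈ T₀)
    (h1 : ∀ i j, φ i j 1 = algebraMap k H (lam i j))
    (hY : ∀ i j x, φ i j (Y1 p y x) = algebraMap k H (lam i j) * Y1 p y x) (hNM : N ≤ M) :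
    CorN (MM.fr p v E) (h.ops p) (yM1 v E y) M lam (fun i j => MM.act (ψ i j)) (mM1 G) S ρ where
  nuO i j := ⟨ψ i j, hψ i j, rfl⟩
  nuY i j x := by
    rw [Yx_cls1 T]
    exact act_letter (hφ i j).ge (hlam i j) (lim_Yy1 T x) (hY i j x)
  ind := indY1 T
  mbig l x hx := by
    rw [mM1, MM.mk_eq_zero]
    refine ⟨0, zero_mem E, TWC.Nul.zero.congr fun n => ?_⟩
    change 0 = m l x n - 0
    rw [G.zm l x (hNM.trans hx), sub_zero]
  Sbig := c.S1
  Sbig' := c.S2
  ρbig l x z hx := c.ρbig T hφ G hk.out hNM l x z hx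
  anti l x z := c.anti T hφ G hk.out l x z
  rel l x := by
    have h2 := rel_mk1 T hφ G c hlam l (shx x) ((G.cm l x).pow p)
    rw [← h2]
    rfl
  rel0 l a := by
    have h2 : (fun n => (pv1 (fun z => m l z n) (a, 0)) ^ p) = fun _ => 0 := by
      funext n
      change (0 : H) ^ p = 0
      exact zero_pow hp.out.ne_zero
    have h3 : Cau v E fun n => (pv1 (fun z => m l z n) (a, 0)) ^ p := by
      rw [h2]
      exact Cau.const (zero_mem E)
    rw [← rel_mk1 T hφ G c hlam l (a, 0) h3, eq_comm, MM.mk_eq_zero]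
    refine ⟨0, zero_mem E, TWC.Nul.zero.congr fun n => ?_⟩
    change 0 = (fun n => (pv1 (fun z => m l z n) (a, 0)) ^ p) n - 0
    rw [h2, sub_zero]
  rho l x z := by
    have h2 := c.rho_rel T hφ G h1 l (shx x) (shx z)
    have h3 : Gt v 0 ((D1 p D z (b l x) - D1 p D x (b l z) - algebraMap k H (ρ l x z)) ^ p) := by
      have h3 := TWM.gt_pow (p := p) (c.hρ l x z)
      rwa [mul_zero] at h3
    have h4 : Gt v 0 (algebraMap k H (S l (shx x) (shx z) - S l (shx z) (shx x) -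
        ∑ j, lam l j * ρ j (shx x) (shx z) + ρ l x z ^ p)) := by
      refine (congrArg (Gt v 0) ?_).mp (h2.sub h3)
      rw [sub_pow_char, sub_pow_char, map_add, map_pow]
      change algebraMap k H _ + ((D1 p D z (b l x)) ^ p - (D1 p D x (b l z)) ^ p) - _ = _
      ring
    have h5 := hk.out.const_eq_zero h4
    rw [frobenius_def]
    linear_combination h5
  rho0 l a z := by
    have h2 := c.rho_rel T hφ G h1 l (a, 0) z
    have h3 : pv1 (fun z' => D1 p D z' (pv1 (b l) (a, 0))) z = 0 := by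
      rcases z with ⟨a', _ | i⟩
      · rfl
      · change D (p ^ i) 0 = 0
        exact T.jx.zero' _
    have h4 : pv1 (fun z' => D1 p D z' (pv1 (b l) z)) (a, 0) = 0 := rfl
    rw [h3, h4, sub_self, add_zero] at h2
    have h5 := hk.out.const_eq_zero h2
    linear_combination h5

end

/-! ### The gauge -/

namespace DatO

variable {φ : κ → κ → Module.End k H} {D : ℕ → H → H} (T : One7 p v pr E K y γ D)
  {X : κ → ℕ → H} {f : κ → H} {b : κ → Unit × ℕ → H}
  {m : κ → Unit × ℕ → ℕ → H} {N : ℕ} (G : DatO p v E K D φ X f b m N)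

include T G

/-- **The gauge.** -/
theorem gauge (hX : NX v L E T₀ 𝒜) (hφ : ∀ i j, φ i j ∈ 𝒜) (hy : y ∈ L)
    (h : Oper p v C E T₀) (hV : NSD p h) : ∃ (b' : κ → Unit × ℕ → H) (M : ℕ),
    DatO p v E K D φ X f b' (fun _ _ _ => 0) M ∧
    ∀ l x z, Gt v 0 (D1 p D z (b' l x) - D1 p D x (b' l z)) := by
  classical
  have hK : ∀ i j, OpK1 v K D (φ i j) := fun i j => One7.opK T hX hy (hφ i j)
  have hE : ∀ i j, ∀ x ∈ E, φ i j x ∈ E := fun i j x hx => hX.memE (hφ i j) hx
  choose lam ψ hψ hlam using fun i j => hX.rep (φ i j) (hφ i j)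
  have h1 : ∀ i j, φ i j 1 = algebraMap k H (lam i j) := fun i j => by
    have h2 : fn (ψ i j) 1 = 0 := by
      rw [TWC.fn_of_mem _ (one_mem E)]
      have h3 := h.one (ψ i j) (hψ i j)
      exact congrArg Subtype.val h3
    rw [hlam i j 1 (one_mem E), h2, mul_one, add_zero]
  have hYL : ∀ x : Unit × ℕ, Y1 p y x ∈ L := fun x => pow_mem hy _
  have hY : ∀ i j x, φ i j (Y1 p y x) = algebraMap k H (lam i j) * Y1 p y x := fun i j x => by
    have h2 := hX.lin (φ i j) (hφ i j) _ (hYL x) 1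
    rw [mul_one, h1] at h2
    rw [h2, mul_comm]
  obtain ⟨M, hNM, e, S, ρ, c⟩ := G.exists_cof T hK hk.out hE
  obtain ⟨g, g0, g1, g2⟩ := (CofO.cor T hK G c hlam h hψ h1 hY hNM).main
    (MM.fr_injective p h.perf) (nsd1_of_nsd h hV)
  obtain ⟨s, hs, hs1⟩ := exists_seqY1 (p := p) T
  -- the constants
  have h2 : ∀ l x, ∃ e' ∈ E, (Nul v fun n => m l x n -
      (∑ z ∈ XN Unit M, algebraMap k H (g l x z) * Y1 p y z) - e') ∧ (M ≤ x.2 → e' = 0) := by
    intro l x
    by_cases hx : M ≤ x.2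
    · refine ⟨0, zero_mem E, TWC.Nul.zero.congr fun n => ?_, fun _ => rfl⟩
      rw [G.zm l x (hNM.trans hx), Finset.sum_eq_zero fun z _ => by
        rw [g0 l x z (Or.inl hx), map_zero, zero_mul], sub_zero, sub_zero]
    · have h3 := g1 l x
      rw [Finset.sum_congr rfl fun z _ => by rw [hs1 z, ← map_smul], ← map_sum, mM1,
        ← sub_eq_zero, ← map_sub, MM.mk_eq_zero] at h3
      obtain ⟨e', he', h4⟩ := h3
      refine ⟨e', he', (h4.sub (nul_sumY1 T hs (XN Unit M) (g l x))).congr fun n => ?_,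
        fun h4 => absurd h4 hx⟩
      rw [AddSubgroupClass.coe_sub, Pi.sub_apply]
      ring
  choose e' he' hn' hz' using h2
  set b' : κ → Unit × ℕ → H := fun l x => b l x +
    (∑ z ∈ XN Unit M, algebraMap k H (g l x z) * Y1 p y z) + e' l x with hb'
  have hsK : ∀ l x, ∑ z ∈ XN Unit M, algebraMap k H (g l x z) * Y1 p y z ∈ K := fun l x =>
    T.sumY_mem _ _
  have hb'K : ∀ l x, b' l x ∈ K := fun l x =>
    add_mem (add_mem (G.mb l x) (hsK l x)) (T.leK (he' l x))
  refine ⟨b', M, ⟨G.cX, G.mf, G.rel, hb'K, fun l x => Cau.const (zero_mem E),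
    fun l x hx => ?_, fun l x hx => rfl, fun l x => ?_⟩, fun l x z => ?_⟩
  · simp only [hb']
    rw [G.zb l x (hNM.trans hx), Finset.sum_eq_zero fun z _ => by
        rw [g0 l x z (Or.inl hx), map_zero, zero_mul], hz' l x hx, add_zero, add_zero]
  · refine ((G.spl l x).add (hn' l x)).congr fun n => ?_
    simp only [hb']
    ring
  · have h2 : ∀ x z, D1 p D z (b' l x) = D1 p D z (b l x) + algebraMap k H (g l x z) := by
      intro x z
      simp only [hb']
      rw [T.dx_add z (add_mem (G.mb l x) (hsK l x)) (T.leK (he' l x)),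
        T.dx_add z (G.mb l x) (hsK l x), T.dx_E z (he' l x), add_zero, T.dx_sum]
      split_ifs with hz
      · rfl
      · rw [mem_XN, not_lt] at hz
        rw [g0 l x z (Or.inr hz), map_zero]
    rw [h2, h2]
    refine (congrArg (Gt v 0) ?_).mp (c.hρ l x z)
    have h3 : ρ l x z = g l z x - g l x z := by linear_combination g2 l x z
    rw [h3, map_sub]
    ring

end DatO

namespace DatO

variable {φ : κ → κ → Module.End k H} {D : ℕ → H → H} (T : One7 p v pr E K y γ D)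
  {X : κ → ℕ → H} {f : κ → H} {b : κ → Unit × ℕ → H} {N : ℕ}
  (G : DatO p v E K D φ X f b (fun _ _ _ => 0) N)

include T G

/-- `D_x ^ (p - 1) b_x > 0` -/
theorem beta (hφ : ∀ i j, OpK1 v K D (φ i j)) (l : κ) (x : Unit × ℕ) :
    Gt v 0 ((D1 p D x)^[p - 1] (b l x)) := by
  have hp1 : 1 ≤ p - 1 := by
    have := hp.out.two_le
    omega
  suffices key : ∀ d : ℕ, ∀ (a : Unit) (i : ℕ), N ≤ i + d → ∀ l,
      Gt v 0 ((D1 p D (a, i))^[p - 1] (b l (a, i))) from
    key N x.1 x.2 (Nat.le_add_left _ _) l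
  intro d
  induction d with
  | zero =>
    intro a i hi l
    rw [G.zb l (a, i) hi]
    exact T.it_gt (a, i) hp1 (zero_mem K) RVal.Ge.zero
  | succ d ih =>
    intro a i hi l
    -- `r_x` is integral
    have h1 : v.Ge 0 (rr p D φ f b l (a, i + 1)) := by
      refine TWC.Nul.const ((G.rnul T hφ l (a, i + 1)).congr fun n => ?_)
      have h2 : pv1 (fun _ : Unit × ℕ => (0 : H)) (a, i + 1) = 0 := rfl
      rw [h2, ps_zero, zero_pow hp.out.ne_zero, sub_zero, sub_zero]
    have h2 := T.it_gt (a, i + 1) hp1 (G.rr_mem T hφ l (a, i + 1)) h1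
    have h3 : ps φ l (fun j => b j (a, i + 1)) ∈ K :=
      ps_mem (fun i j => (hφ i j).mem) fun j => G.mb j _
    have h4 : D1 p D (a, i + 1) (f l) ∈ K := T.dx_mem _ (G.mf l)
    have h5 : b l (a, i) ^ p ∈ K := pow_mem (G.mb l _) p
    have e1 : rr p D φ f b l (a, i + 1) =
        ps φ l (fun j => b j (a, i + 1)) +
        D1 p D (a, i + 1) (f l) - b l (a, i) ^ p := rfl
    have hd' := it_ps1 T hφ (a, i + 1) (p - 1) l (z := fun j => b j (a, i + 1)) fun j => G.mb j _
    have h6 : (D1 p D (a, i + 1))^[p - 1] (D1 p D (a, i + 1) (f l)) = 0 := by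
      have h7 := T.it_p (a, i + 1) (G.mf l)
      have h8 : p = (p - 1) + 1 := by omega
      rw [← Function.iterate_succ_apply, Nat.succ_eq_add_one, ← h8]
      exact h7
    rw [e1, T.it_sub _ _ (add_mem h3 h4) h5, T.it_add _ _ h3 h4, hd', h6, add_zero,
      T.it_pow a i (p - 1) (G.mb l _)] at h2
    have h7 : Gt v 0 (ps φ l fun j => (D1 p D (a, i + 1))^[p - 1] (b j (a, i + 1))) :=
      ps_gt (fun i j => (hφ i j).ge) fun j => ih a (i + 1) (by omega) j
    have h8 : Gt v (p * (0 : ℝ)) (((D1 p D (a, i))^[p - 1] (b l (a, i))) ^ p) := by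
      rw [mul_zero]
      refine (congrArg (Gt v 0) ?_).mp (h7.sub h2)
      ring
    exact TWM.gt_of_pow (p := p) h8

end DatO

/-- **The conclusion of the step.** -/
theorem DatO.concl {φ : κ → κ → Module.End k H} {D : ℕ → H → H}
    (T : One7 p v pr E K y γ D) (hI : IntO p v K D)
    {X : κ → ℕ → H} {f : κ → H} {b : κ → Unit × ℕ → H}
    {m : κ → Unit × ℕ → ℕ → H} {N : ℕ} (G : DatO p v E K D φ X f b m N)
    (hX : NX v L E T₀ 𝒜) (hφ : ∀ i j, φ i j ∈ 𝒜) (hy : y ∈ L)
    (h : Oper p v C E T₀) (hV : NSD p h) (l : κ) : InBL v K E (X l) := by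
  obtain ⟨b', M, G', hs⟩ := G.gauge T hX hφ hy h hV
  have hK : ∀ i j, OpK1 v K D (φ i j) := fun i j => One7.opK T hX hy (hφ i j)
  obtain ⟨g, hg, h1⟩ := hI (b' l) M (G'.mb l) (G'.zb l) (hs l) (G'.beta T hK l)
  obtain ⟨m', hm', h2⟩ := T.const (X := fun n => X l n - g)
    ((G.cX l).sub (Cau.const hg)) fun i => by
      have h3 : Nul v fun _ : ℕ => D1 p D ((), i) g - b' l ((), i) :=
        TWC.Nul.of_ge fun _ => (h1 ((), i)).ge
      refine ((G'.spl l ((), i)).sub h3).congr fun n => ?_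
      have h4 : D (p ^ i) (X l n - g) = D (p ^ i) (X l n) - D (p ^ i) g :=
        T.jx.sub _ ((G.cX l).mem n) hg
      rw [h4]
      simp only [D1]
      ring
  exact ⟨g, hg, m', hm', h2⟩

end Pool.Agent.TWHT
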