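import Pool.Agent.Lib.TWC.B2
import Pool.Agent.Lib.TWC.IsoD
import Pool.Agent.Lib.TWHT.EndC

/-!
# TANK W, leaf (Ht): `FV(y)` for the operators `Th g`

* `ev_th`: the operators on the values at `y` of the polynomials over `E`;
* **`fvt_one`**: the systems over `E<y>` with the operators `Th g`, from Theorem B2.
-/

set_option autoImplicit false
set_option linter.unusedSectionVars false

open Polynomial

namespace Pool.Agent.TWHT

open Pool.Agent.H15JM (RVal)
open Pool.Agent.D2 (Ctx0)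
open Pool.Agent.TWM
open Pool.Agent.TWC (Nul Cau InBL Opr fn cf Oper NSD PC Rel Spl)
open Pool.Agent.TWIV

universe u

variable {k H : Type u} [Field k] [Field H] [Algebra k H] {v : RVal H} [hk : Fact (Ctx0 k v)]
  {C E : IntermediateField k H} {P : ℕ} {Th : ℕ → Module.End k H} {T₀ : Submodule k (Opr v E)}
  {ψ : ℕ → Opr v E} {η : ℕ → H} {y : H}

/-- A common gain. -/
theorem exists_kap {u : ℕ → H} (P : ℕ) (h : ∀ g, 0 < g → g < P → Gt v 0 (u g)) :
    ∃ κ : ℝ, 0 < κ ∧ ∀ g, 0 < g → g < P → v.Ge κ (u g) := by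
  induction P with
  | zero => exact ⟨1, one_pos, fun g _ hg => absurd hg (Nat.not_lt_zero g)⟩
  | succ P ih =>
    obtain ⟨κ, hκ, h1⟩ := ih fun g h0 hg => h g h0 (hg.trans (Nat.lt_succ_self P))
    rcases Nat.eq_zero_or_pos P with h0 | h0
    · exact ⟨1, one_pos, fun g hg0 hg => by omega⟩
    · have h2 : ∃ κ' : ℝ, 0 < κ' ∧ v.Ge κ' (u P) := by
        by_cases h3 : u P = 0
        · exact ⟨1, one_pos, by rw [h3]; exact RVal.Ge.zero⟩
        · exact ⟨v (u P), h P h0 (Nat.lt_succ_self P) h3, RVal.ge_self _⟩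
      obtain ⟨κ', hκ', h3⟩ := h2
      refine ⟨min κ κ', lt_min hκ hκ', fun g hg0 hg => ?_⟩
      rcases Nat.lt_succ_iff_lt_or_eq.1 hg with h4 | rfl
      · exact (h1 g hg0 h4).mono (min_le_left _ _)
      · exact h3.mono (min_le_right _ _)

theorem unit_val {e : H} (h : Gt v 0 (e - 1)) : e ≠ 0 ∧ v e = 0 := by
  have h1 : Gt v (v (1 : H)) (1 - e) := by
    rw [v.map_one, ← neg_sub]
    exact h.neg
  have h2 := Gt.val_eq one_ne_zero h1
  rw [v.map_one] at h2
  exact h2

theorem ge_of_unit_mul {e x : H} (h : Gt v 0 (e - 1)) {b : ℝ} (hx : v.Ge b (e * x)) :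
    v.Ge b x := by
  intro h0
  obtain ⟨h1, h2⟩ := unit_val h
  have h3 := hx (mul_ne_zero h1 h0)
  rwa [v.map_mul h1 h0, h2, zero_add] at h3

theorem fn_opSum {ι : Type*} (S : Finset ι) (φ : ι → Opr v E) (a : ι → k) (x : H) :
    fn (∑ i ∈ S, a i • φ i) x = ∑ i ∈ S, a i • fn (φ i) x := by
  classical
  induction S using Finset.induction_on with
  | empty => rw [Finset.sum_empty, Finset.sum_empty, TWC.fn_opZero]
  | insert i S hi ih =>
    rw [Finset.sum_insert hi, Finset.sum_insert hi, TWC.fn_opAdd, TWC.fn_opSmul, ih]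

theorem eval_cf (φ : Opr v E) (f : Polynomial H) (y : H) :
    (cf φ f).eval y = ∑ i ∈ f.support, fn φ (f.coeff i) * y ^ i := by
  rw [cf, eval_finsetSum]
  exact Finset.sum_congr rfl fun i _ => eval_monomial

theorem eval_cf_sum {ι : Type*} (S : Finset ι) (φ : ι → Opr v E) (a : ι → k)
    (f : Polynomial H) (y : H) : (cf (∑ i ∈ S, a i • φ i) f).eval y =
      ∑ i ∈ S, algebraMap k H (a i) * (cf (φ i) f).eval y := by
  rw [eval_cf, Finset.sum_congr rfl fun j _ => by rw [fn_opSum, Finset.sum_mul],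
    Finset.sum_comm]
  refine Finset.sum_congr rfl fun i _ => ?_
  rw [eval_cf, Finset.mul_sum]
  refine Finset.sum_congr rfl fun j _ => ?_
  rw [Algebra.smul_def, mul_assoc]

/-- **The operators on the values of the polynomials over `E`.** -/
theorem ev_th (hlin : ∀ g < P, ∀ x ∈ cadj v E y, Th g (y * x) = y * Th g x)
    (hr : RepT v E P Th T₀ ψ η) {g : ℕ} (h0 : 0 < g) (hg : g < P) {f : Polynomial H}
    (hf : f ∈ PI E) : Th g (f.eval y) = η g * (cf (ψ g) f).eval y := by
  have hy : y ∈ cadj v E y := self_mem_cadj v E y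
  have h1 : ∀ (i : ℕ), ∀ x ∈ cadj v E y, Th g (x * y ^ i) = Th g x * y ^ i := by
    intro i
    induction i with
    | zero => exact fun x _ => by rw [pow_zero, mul_one, mul_one]
    | succ i ih =>
      intro x hx
      rw [pow_succ, ← mul_assoc, mul_comm (x * y ^ i) y, hlin g hg _ (mul_mem hx (pow_mem hy i)),
        ih x hx]
      ring
  rw [eval_eq_sum, Polynomial.sum_def, map_sum, eval_cf, Finset.mul_sum]
  refine Finset.sum_congr rfl fun i _ => ?_
  rw [h1 i _ (le_cadj v E y (hf i)), (hr g h0 hg).2.2.2 _ (hf i)]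
  ring

variable {p : ℕ} [hp : Fact p.Prime] [CharP k p] [PerfectRing k p] [CharP H p]
  [PerfectRing H p] [IsAlgClosed H]

/-- **`FV(y)` for the operators `Th g`.** -/
theorem fvt_one (h : Oper p v C E T₀) (hV : NSD p h) (hz : TL v E y 0) (hzC : Lim v C 0 y)
    (hP : 0 < P) (th0 : Th 0 = 1) (hge : ∀ g, ∀ (x : H) (b : ℝ), v.Ge b x → v.Ge b (Th g x))
    (hlin : ∀ g < P, ∀ x ∈ cadj v E y, Th g (y * x) = y * Th g x)
    (hr : RepT v E P Th T₀ ψ η) : FVT p v P Th E (cadj v E y) := by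
  classical
  intro κ _ X f a hX hf hR l
  have hyE : y ∈ cadj v E y := self_mem_cadj v E y
  have hphg : ∀ (b : ℕ → k) (x : H) (s : ℝ), v.Ge s x → v.Ge s (phT P Th b x) := by
    intro b x s hx
    rw [phT_apply]
    refine RVal.Ge.sum _ _ fun g _ => ?_
    rw [Algebra.smul_def]
    have h1 := (hk.out.ge (b g)).mul (hge g x s hx)
    rwa [zero_add] at h1
  -- polynomials
  have h1 : ∀ l n, ∃ g ∈ PI E, v.Ge 0 (X l n - g.eval y) := fun l n =>
    hz.dense ((hX l).mem n) 0
  choose x hx hxX using h1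
  have h2 : ∀ l, ∃ g ∈ PI E, v.Ge 0 (f l - g.eval y) := fun l => hz.dense (hf l) 0
  choose f0 hf0 hf0f using h2
  have hxn : ∀ l, Nul v fun n => X l n - (x l n).eval y := fun l => TWC.Nul.of_ge (hxX l)
  have hpc : ∀ l, PC v E y (x l) := fun l => ⟨hx l, fun ε hε => by
    obtain ⟨N, hN⟩ := (hX l).cau ε hε
    refine ⟨N, fun m n hm hn => ?_⟩
    rw [eval_sub]
    refine (congrArg (v.Ge (-ε)) ?_).mp (((hN m n hm hn).sub ((hxX l m).mono (by linarith))).add
      ((hxX l n).mono (by linarith)))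
    ring⟩
  -- the gain
  obtain ⟨κ₀, hκ, hκ1⟩ := exists_kap (v := v) (u := fun g => η g - 1) P
    fun g h0 hg => (hr g h0 hg).2.2.1
  obtain ⟨N₀, hN₀⟩ : ∃ N₀, ∀ l m n, N₀ ≤ m → N₀ ≤ n →
      v.Ge (-κ₀) ((x l m - x l n).eval y) := by
    choose N hN using fun l => (hpc l).cau κ₀ hκ
    exact ⟨Finset.univ.sup N, fun l m n hm hn => hN l m n
      ((Finset.le_sup (f := N) (Finset.mem_univ l)).trans hm)
      ((Finset.le_sup (f := N) (Finset.mem_univ l)).trans hn)⟩
  set S : Finset ℕ := (Finset.range P).erase 0 with hS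
  have hSg : ∀ g ∈ S, 0 < g ∧ g < P := fun g hg => by
    rw [hS, Finset.mem_erase, Finset.mem_range] at hg
    exact ⟨Nat.pos_of_ne_zero hg.1, hg.2⟩
  -- the operators on the polynomials
  have hphx : ∀ (b : ℕ → k) (g : Polynomial H), g ∈ PI E → phT P Th b (g.eval y) =
      b 0 • g.eval y + (cf (∑ i ∈ S, b i • ψ i) g).eval y +
        ∑ i ∈ S, algebraMap k H (b i) * ((η i - 1) * (cf (ψ i) g).eval y) := by
    intro b g hg
    rw [phT_apply, ← Finset.add_sum_erase _ _ (Finset.mem_range.2 hP), th0,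
      Module.End.one_apply, ← hS, eval_cf_sum, add_assoc, ← Finset.sum_add_distrib]
    congr 1
    refine Finset.sum_congr rfl fun i hi => ?_
    rw [ev_th hlin hr (hSg i hi).1 (hSg i hi).2 hg, Algebra.smul_def]
    ring
  set kap : κ → Polynomial H := fun j => f0 j + ∑ l, ∑ i ∈ S,
    Polynomial.C (algebraMap k H (a j l i) * (η i - 1)) * cf (ψ i) (x l N₀) with hkap
  have hkapm : ∀ j, kap j ∈ PI E := fun j => by
    refine add_mem (hf0 j) (sum_mem fun l _ => sum_mem fun i hi => mul_mem (C_mem_PI ?_)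
      (TWC.cf_mem _ _))
    exact mul_mem (E.algebraMap_mem _) (sub_mem (hr i (hSg i hi).1 (hSg i hi).2).2.1 (one_mem E))
  have hkape : ∀ j, (kap j).eval y = (f0 j).eval y + ∑ l, ∑ i ∈ S,
      algebraMap k H (a j l i) * ((η i - 1) * (cf (ψ i) (x l N₀)).eval y) := fun j => by
    simp only [hkap, eval_add, eval_finsetSum, eval_mul, eval_C]
    congr 1
    exact Finset.sum_congr rfl fun l _ => Finset.sum_congr rfl fun i _ => by ring
  have hgain : ∀ j, Nul v fun n => ∑ l, ∑ i ∈ S, algebraMap k H (a j l i) *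
      ((η i - 1) * ((cf (ψ i) (x l n)).eval y - (cf (ψ i) (x l N₀)).eval y)) := by
    intro j ε hε
    refine ⟨N₀, fun n hn => RVal.Ge.sum _ _ fun l _ => RVal.Ge.sum _ _ fun i hi => ?_⟩
    obtain ⟨h0, hg⟩ := hSg i hi
    have h3 := hge i _ _ (hN₀ l n N₀ hn le_rfl)
    rw [eval_sub, map_sub, ev_th hlin hr h0 hg (hx l n), ev_th hlin hr h0 hg (hx l N₀),
      ← mul_sub] at h3
    have h4 := ge_of_unit_mul (hr i h0 hg).2.2.1 h3
    have h5 := (hk.out.ge (a j l i)).mul ((hκ1 i h0 hg).mul h4)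
    rw [add_neg_cancel, add_zero] at h5
    exact h5.mono (by linarith)
  have R : Rel p T₀ y x 1 (fun _ j l => a j l 0) (fun _ j l => ∑ i ∈ S, a j l i • ψ i) kap := by
    refine ⟨hpc, le_rfl, fun _ j l => sum_mem fun i hi => T₀.smul_mem _
      (hr i (hSg i hi).1 (hSg i hi).2).1, hkapm, fun j => ?_⟩
    have h3 : Nul v fun n => (X j n - (x j n).eval y) ^ p := TWC.Nul.pow (hxn j) p
    have h4 : Nul v fun n => ps (fun l j => phT P Th (a l j)) j
        (fun l => X l n - (x l n).eval y) := ps_nul (fun i j => hphg _) hxn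
    have h5 : Nul v fun _ : ℕ => f j - (f0 j).eval y := TWC.Nul.of_ge fun _ => hf0f j
    refine (((((hR j).sub h3).add h4).add h5).add (hgain j)).congr fun n => ?_
    have e1 : ps (fun l j => phT P Th (a l j)) j (fun l => (x l n).eval y) =
        (∑ l, (a j l 0 • (x l n).eval y + (cf (∑ i ∈ S, a j l i • ψ i) (x l n)).eval y)) +
        ∑ l, ∑ i ∈ S, algebraMap k H (a j l i) * ((η i - 1) * (cf (ψ i) (x l n)).eval y) := by
      rw [ps, ← Finset.sum_add_distrib]
      exact Finset.sum_congr rfl fun l _ => hphx _ _ (hx l n)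
    have e2 : ∑ l, ∑ i ∈ S, algebraMap k H (a j l i) *
        ((η i - 1) * ((cf (ψ i) (x l n)).eval y - (cf (ψ i) (x l N₀)).eval y)) =
        (∑ l, ∑ i ∈ S, algebraMap k H (a j l i) * ((η i - 1) * (cf (ψ i) (x l n)).eval y)) -
        ∑ l, ∑ i ∈ S, algebraMap k H (a j l i) * ((η i - 1) * (cf (ψ i) (x l N₀)).eval y) := by
      rw [← Finset.sum_sub_distrib]
      refine Finset.sum_congr rfl fun l _ => ?_
      rw [← Finset.sum_sub_distrib]
      exact Finset.sum_congr rfl fun i _ => by ring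
    simp only [Finset.range_one, Finset.sum_singleton, pow_one, pow_zero]
    rw [ps_sub, sub_pow_char, e1, e2, hkape]
    ring
  obtain ⟨b, m, hs⟩ := TWC.B2 p h hV hz hzC R l
  refine ⟨b.eval y, eval_mem (PI_mono (le_cadj v E y) hs.mem) hyE, m, hs.cau,
    ((hxn l).add hs.nul).congr fun n => ?_⟩
  ring

end Pool.Agent.TWHT
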