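import Pool.Agent.Lib.TWS.MonH
import Pool.Agent.Lib.TWHT.NT0
import Pool.Agent.Lib.TWC.TowRpi
import Pool.Agent.Lib.TWHT.HtDefs

/-!
# TANK W, leaf (Ht), row R7a: the rational step, rank one

* `exch_one`: a tower whose first letter is `w`, all the limits of the base in the span of `x`:
  `x = c w` modulo the base, `c` in `k`;
* `TowR.exch_one`: `x = f M g` homogeneous: `f` is a first letter of the tower without monomials;
* `DescM.step_one`: if the operators kill `x`, the tower over `B = clI (N ⊔ P)` continues over the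
  next rational stage `clI (N<f> ⊔ P)`, `f` in `L`.
-/

set_option autoImplicit false
set_option linter.unusedSectionVars false

open Polynomial

namespace Pool.Agent.TWHT

open Pool.Agent.H15JM (RVal)
open Pool.Agent.LU1 (VPos adj)
open Pool.Agent.D2 (Ctx0)
open Pool.Agent.D2P (hen clI mem_clI)
open Pool.Agent.TWM Pool.Agent.TWS
open Pool.Agent.TWC (Opr Tow Spn IsExt Desc)

universe u

variable {k Ω : Type u} [Field k] [Field Ω] [Algebra k Ω] {v : RVal Ω}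
  {A B C P L LP N T : IntermediateField k Ω} {G : AddSubgroup ℝ} {M : ℝ → Ω} {n : ℕ} {w x f : Ω}
  {g : ℝ} {p : ℕ} [hp : Fact p.Prime] [CharP Ω p] [IsAlgClosed Ω] [hcx : Fact (Ctx0 k v)]

/-- **The first letter of a tower of rank one.** -/
theorem exch_one (hw : TL v A w 0) (hT : Tow v n (cadj v A w) T) (hx : x ∈ T)
    (hl : Lim v A 0 x) (hS : ∀ y ∈ T, Lim v A 0 y → Spn p v A x y) :
    ∃ κ : k, κ ≠ 0 ∧ Nr' v A 0 (x - algebraMap k Ω κ * w) := by
  classical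
  have h0 := hcx.out
  have hi : Imm v A T := hw.imm.trans hT.imm
  have hwT : w ∈ T := hT.le_top (self_mem_cadj v A w)
  have hwN : w ∉ N0 h0 A := by
    have := Fil.not_mem p (h0 := h0) hw 0
    rwa [pow_zero, pow_one] at this
  -- `w` in the span of `x`
  obtain ⟨N, c, h1⟩ := hS w hwT hw.lim
  have hc : ∃ i < N, c i ≠ 0 := by
    by_contra hcon
    push Not at hcon
    refine hwN (mem_N0.2 ?_)
    rwa [Finset.sum_eq_zero fun i hi => by
      rw [hcon i (Finset.mem_range.1 hi), map_zero, zero_mul], sub_zero] at h1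
  -- `x` in the span of `w`
  obtain ⟨m, hm⟩ : ∃ m, x ∈ Fil p h0 A w m := by
    have h2 : Nr v (cadj v A w) 0 (∑ i ∈ Finset.range N, algebraMap k Ω (c i) * x ^ p ^ i) := by
      obtain ⟨a, ha, h3⟩ := h1
      refine ⟨w - a, sub_mem (self_mem_cadj v A w) (le_cadj v A w ha), ?_⟩
      have h4 := h3.neg
      rwa [show -(w - ∑ i ∈ Finset.range N, algebraMap k Ω (c i) * x ^ p ^ i - a) =
        ∑ i ∈ Finset.range N, algebraMap k Ω (c i) * x ^ p ^ i - (w - a) by ring] at h4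
    obtain ⟨b, hb, h3⟩ := Tow.tf hT hx hc h2
    have hlb : Lim v A 0 b := by
      intro ε hε
      obtain ⟨a, ha, h4⟩ := hl ε hε
      refine ⟨a, ha, ?_⟩
      have h5 := h4.sub (h3.mono (show 0 - ε ≤ 0 by linarith))
      rwa [show x - a - (x - b) = b - a by ring] at h5
    obtain ⟨m, hm⟩ := spn_fil p (h0 := h0) (TWC.spn_of_mem p hw hb hlb)
    refine ⟨m, ?_⟩
    have h4 : x - b ∈ Fil p h0 A w m :=
      Fil.mono p (Nat.zero_le m) (mem_N0.2 ⟨0, zero_mem _, by rwa [sub_zero]⟩)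
    have := add_mem h4 hm
    rwa [sub_add_cancel] at this
  -- the degree
  have hx0 : x ∉ Fil p h0 A w 0 := by
    intro h2
    refine hwN (mem_N0.2 ?_)
    have hpow : ∀ i : ℕ, x ^ p ^ i ∈ N0 h0 A := by
      intro i
      induction i with
      | zero => rwa [pow_zero, pow_one]
      | succ i ih =>
        rw [pow_succ, pow_mul]
        exact N0.pow p ih
    have h3 : ∑ i ∈ Finset.range N, algebraMap k Ω (c i) * x ^ p ^ i ∈ N0 h0 A := by
      refine sum_mem fun i _ => ?_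
      rw [← Algebra.smul_def]
      exact Submodule.smul_mem _ _ (hpow i)
    have := add_mem (show _ ∈ N0 h0 A from h1) h3
    rwa [sub_add_cancel] at this
  obtain ⟨m, hm, hm'⟩ : ∃ m, x ∈ Fil p h0 A w (m + 1) ∧ x ∉ Fil p h0 A w m := by
    induction m with
    | zero => exact absurd hm hx0
    | succ m ih =>
      by_cases h2 : x ∈ Fil p h0 A w m
      · exact ih h2
      · exact ⟨m, hm, h2⟩
  -- the top coefficient
  obtain ⟨t, ht, ht', htop⟩ : ∃ t < N, c t ≠ 0 ∧ ∀ i < N, t < i → c i = 0 := by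
    obtain ⟨i0, hi0, h2⟩ := hc
    set S := (Finset.range N).filter fun i => c i ≠ 0 with hSd
    have hne : S.Nonempty := ⟨i0, Finset.mem_filter.2 ⟨Finset.mem_range.2 hi0, h2⟩⟩
    have h3 := Finset.mem_filter.1 (Finset.max'_mem S hne)
    refine ⟨S.max' hne, Finset.mem_range.1 h3.1, h3.2, fun i hi hlt => ?_⟩
    by_contra h4
    exact absurd (Finset.le_max' S i (Finset.mem_filter.2 ⟨Finset.mem_range.2 hi, h4⟩))
      (not_le.2 hlt)
  have hmt : m + t = 0 := by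
    by_contra hpos
    have h2 : w ∈ Fil p h0 A w (m + t) := by
      refine Fil.mono p (show 1 ≤ m + t by omega) ?_
      have := Fil.self p (h0 := h0) (A := A) (z := w) 0
      rwa [pow_zero, pow_one, zero_add] at this
    have h3 : w - ∑ i ∈ Finset.range N, algebraMap k Ω (c i) * x ^ p ^ i ∈
        Fil p h0 A w (m + t) := Fil.mono p (Nat.zero_le _) (show _ ∈ N0 h0 A from h1)
    have h4 : ∑ i ∈ Finset.range N, algebraMap k Ω (c i) * x ^ p ^ i ∈ Fil p h0 A w (m + t) := by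
      have := sub_mem h2 h3
      rwa [sub_sub_cancel] at this
    rw [← Finset.add_sum_erase _ _ (Finset.mem_range.2 ht)] at h4
    have h5 : ∑ i ∈ (Finset.range N).erase t, algebraMap k Ω (c i) * x ^ p ^ i ∈
        Fil p h0 A w (m + t) := by
      refine sum_mem fun i hi => ?_
      rw [← Algebra.smul_def]
      obtain ⟨h6, h7⟩ := Finset.mem_erase.1 hi
      rcases lt_or_gt_of_ne h6 with h8 | h8
      · refine Submodule.smul_mem _ _ (Fil.mono p ?_ (Fil.pow_pow p hm i))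
        omega
      · rw [htop i (Finset.mem_range.1 h7) h8, zero_smul]
        exact zero_mem _
    have h6 := sub_mem h4 h5
    rw [add_sub_cancel_right, ← Algebra.smul_def] at h6
    refine Fil.pow_pow_not_mem p hw hm hm' t ?_
    have := Submodule.smul_mem _ (c t)⁻¹ h6
    rwa [smul_smul, inv_mul_cancel₀ ht', one_smul] at this
  obtain rfl : m = 0 := by omega
  obtain ⟨κ, y, hy, hxy⟩ := Fil.exists p hm
  rw [pow_zero, pow_one] at hxy
  have hκ : κ ≠ 0 := by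
    rintro rfl
    rw [zero_smul, add_zero] at hxy
    rw [hxy] at hx0
    exact hx0 hy
  obtain ⟨a, ha, h2⟩ := mem_N0.1 (show y ∈ N0 h0 A from hy)
  have hyT : y ∈ T := by
    have : y = x - κ • w := by rw [hxy, add_sub_cancel_right]
    rw [this]
    exact sub_mem hx (T.smul_mem hwT)
  refine ⟨κ, hκ, ?_⟩
  obtain ⟨b, hb, h3⟩ : ∃ b ∈ A, Gt v 0 (y - a - b) := by
    by_cases h3 : y - a = 0
    · exact ⟨0, zero_mem A, by rw [h3, sub_zero]; exact TWM.Gt.zero⟩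
    · obtain ⟨b, hb, h4⟩ := hi.imm _ (sub_mem hyT (hi.le ha)) h3
      exact ⟨b, hb, fun h5 => (h2 h3).trans_lt (h4 h5)⟩
  refine ⟨a + b, add_mem ha hb, ?_⟩
  rw [hxy, Algebra.smul_def, show y + algebraMap k Ω κ * w - algebraMap k Ω κ * w - (a + b) =
    y - a - b by ring]
  exact h3

/-- A generator of the limits is a first letter. -/
theorem tow_one_gen (hA : Cld v A) (hT : Tow v (n + 1) A T) (hx : x ∈ T) (hl : Lim v A 0 x)
    (hS : ∀ y ∈ T, Lim v A 0 y → Spn p v A x y) : TL v A x 0 ∧ Tow v n (cadj v A x) T := by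
  obtain ⟨w, hw, hT1⟩ := TWC.tow_succ.1 hT
  obtain ⟨κ, hκ, b, hb, h1⟩ := exch_one hw hT1 hx hl hS
  have hκΩ : algebraMap k Ω κ ≠ 0 := fun h => hκ ((map_eq_zero _).1 h)
  have h2 : TL v A (algebraMap k Ω κ * w + b) 0 := by
    have h3 := hw.affine (A.algebraMap_mem κ) hκΩ hb
    rwa [hcx.out.triv κ hκ, zero_add] at h3
  have h3 : Gt v 0 (x - (algebraMap k Ω κ * w + b)) := by
    rwa [← sub_sub]
  refine ⟨h2.congr h3, TWC.Tow.exch hA h2 ?_ hx h3⟩
  rw [cadj_affine (A.algebraMap_mem κ) hκΩ hb]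
  exact hT1

/-- **Exchange at the level of the fields without monomials.** -/
theorem TowR.exch_one (hM : MonG v P G M) (hΩ : CompleteV v) (hi : Imm v P LP) (hC : Cld v LP)
    (hvals : ∀ s : ℝ, ∃ e ∈ P, e ≠ 0 ∧ ∃ g ∈ G, v e + g = s) (hA : Imm v P A) (hAc : Cld v A)
    (hT : TowR v (n + 1) A LP) (hf : f ∈ LP) (hg : g ∈ G) (hx : Nr' v (PM v A G M) 0 (x - f * M g))
    (ht : TL v (PM v A G M) x 0)
    (hS : ∀ y ∈ PM v LP G M, Lim v (PM v A G M) 0 y → Spn p v (PM v A G M) x y) :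
    TL v A f (-g) ∧ TowR v n (cadj v A f) LP := by
  obtain ⟨u, s, hu, hT1⟩ := TWS.towR_iff_succ.1 hT
  have hAL : A ≤ LP := hT.le
  have hs : ∀ s : ℝ, ∃ c ∈ PM v P G M, c ≠ 0 ∧ v c = s := fun s => by
    obtain ⟨e, he, he0, g, hg, h1⟩ := hvals s
    have hMg := hM.ms.ne g hg
    exact ⟨e * M g, mul_mem (PM.le he) (PM.mon hg), mul_ne_zero he0 hMg, by
      rw [v.map_mul he0 hMg, hM.ms.val g hg, h1]⟩
  have hfM : f * M g ∈ PM v LP G M := mul_mem (PM.le hf) (PM.mon hg)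
  obtain ⟨b₀, hb₀, hx1⟩ := hx
  have hxL : TL v (PM v A G M) (f * M g) 0 := by
    refine (ht.sub_mem hb₀).congr ?_
    have := hx1.neg
    rwa [show -(x - f * M g - b₀) = f * M g - (x - b₀) by ring] at this
  -- the first letter with monomials
  obtain ⟨e, he, he0, g₀, hg₀, hes⟩ := hvals (-s)
  have hMg₀ := hM.ms.ne g₀ hg₀
  have heM : e * M g₀ ∈ PM v A G M := mul_mem (PM.le (hA.le he)) (PM.mon hg₀)
  have heM0 : e * M g₀ ≠ 0 := mul_ne_zero he0 hMg₀
  have hve : v (e * M g₀) = -s := by rw [v.map_mul he0 hMg₀, hM.ms.val g₀ hg₀, hes]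
  have hw : TL v (PM v A G M) (e * M g₀ * u) 0 := by
    have h1 := (TWS.TL.pm hM hA hu).affine heM heM0 (zero_mem _)
    rw [hve, add_zero] at h1
    rwa [show -s + s = (0 : ℝ) by ring] at h1
  have hT2 : Tow v n (cadj v (PM v A G M) (e * M g₀ * u)) (PM v LP G M) := by
    have h1 := TWS.TowR.pm hM hs (hA.trans hu.imm) hT1
    rw [PM.cadj] at h1
    have h2 := cadj_affine (v := v) (z := u) heM heM0 (zero_mem (PM v A G M))
    rw [add_zero] at h2
    rwa [h2]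
  obtain ⟨κ, hκ, h1⟩ := TWHT.exch_one (p := p) hw hT2 hfM hxL.lim fun y hy hl =>
    (hS y hy hl).move ⟨b₀, hb₀, hx1⟩
  obtain ⟨b, hb, h2⟩ := h1
  have hg' := G.neg_mem hg
  have hMg := hM.ms.ne g hg
  obtain ⟨π, hπ⟩ := exists_pi0 hΩ hM hi hC
  -- the component of degree zero
  have hbA : b * M (-g) ∈ PM v A G M := mul_mem hb (PM.mon hg')
  have hbL : b * M (-g) ∈ PM v LP G M := PM.mono hAL hbA
  have hπb : π ⟨_, hbL⟩ ∈ A := hπ.sub A hA hAL hAc _ hbA
  have huLP : u ∈ LP := hT1.le (self_mem_cadj v A u)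
  have hkeu : algebraMap k Ω κ * e * u ∈ LP :=
    mul_mem (mul_mem (LP.algebraMap_mem κ) (hAL (hA.le he))) huLP
  have hgg : g₀ - g ∈ G := G.sub_mem hg₀ hg
  have hwM : algebraMap k Ω κ * e * u * M (g₀ - g) ∈ PM v LP G M :=
    mul_mem (PM.le hkeu) (PM.mon hgg)
  have h3 : Gt v (-g) (f - algebraMap k Ω κ * e * u * M (g₀ - g) - b * M (-g)) := by
    have h4 := h2.mul_ge (RVal.ge_self (v := v) (M (-g)))
    rw [hM.ms.val _ hg', zero_add] at h4
    have h5 : M g * M (-g) = 1 := by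
      rw [← hM.ms.mul _ hg _ hg', add_neg_cancel, hM.ms.zero]
    have h6 : M (g₀ - g) = M g₀ * M (-g) := by
      rw [sub_eq_add_neg, hM.ms.mul _ hg₀ _ hg']
    rw [h6]
    refine (congrArg (Gt v (-g)) ?_).mp h4
    linear_combination f * h5
  -- the projection
  have hπgt : ∀ {y : PM v LP G M} {b : ℝ}, Gt v b (y : Ω) → Gt v b (π y) := by
    intro y b hy h0
    have h4 : (y : Ω) ≠ 0 := by
      intro h5
      refine h0 ?_
      rw [show y = 0 from Subtype.ext h5, map_zero]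
    exact (hy h4).trans_le (hπ.norm y _ (RVal.ge_self (v := v) (y : Ω)) h0)
  have h4 : Gt v (-g) (f - π ⟨_, hwM⟩ - π ⟨_, hbL⟩) := by
    have h5 := hπgt (y := ⟨f, PM.le hf⟩ - ⟨_, hwM⟩ - ⟨_, hbL⟩) h3
    rwa [map_sub, map_sub, hπ.self f hf] at h5
  have hkey : g₀ - g ∈ VG v P := by
    by_contra hnot
    have h5 : π ⟨_, hwM⟩ = 0 := by
      have h6 := hπ.lin _ hkeu ⟨M (g₀ - g), PM.mon hgg⟩
      rw [hπ.mon _ hgg hnot, mul_zero] at h6
      exact h6
    rw [h5, sub_zero] at h4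
    have h6 := h4.mul_ge (RVal.ge_self (v := v) (M g))
    rw [hM.ms.val _ hg, neg_add_cancel, sub_mul] at h6
    have hmem : π ⟨_, hbL⟩ * M g ∈ PM v A G M := mul_mem (PM.le hπb) (PM.mon hg)
    obtain ⟨h7, h8⟩ := hxL.far _ (isAlgebraic_algebraMap (⟨_, hmem⟩ : PM v A G M))
    exact absurd (h6 (sub_ne_zero.2 h7)) (not_lt.2 h8.le)
  have hMP : M (g₀ - g) ∈ P := hM.mem _ hgg hkey
  have h5 : π ⟨_, hwM⟩ = algebraMap k Ω κ * e * u * M (g₀ - g) :=
    hπ.self _ (mul_mem hkeu (hi.le hMP))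
  rw [h5] at h4
  -- the letter
  set d : Ω := algebraMap k Ω κ * e * M (g₀ - g) with hd
  have hdA : d ∈ A := mul_mem (mul_mem (A.algebraMap_mem κ) (hA.le he)) (hA.le hMP)
  have hκΩ : algebraMap k Ω κ ≠ 0 := fun h => hκ ((map_eq_zero _).1 h)
  have hMgg := hM.ms.ne _ hgg
  have hd0 : d ≠ 0 := mul_ne_zero (mul_ne_zero hκΩ he0) hMgg
  have hvd : v d = -s - g := by
    have h6 : v (algebraMap k Ω κ) = 0 := hcx.out.triv κ hκ
    rw [hd, v.map_mul (mul_ne_zero hκΩ he0) hMgg, v.map_mul hκΩ he0, h6, hM.ms.val _ hgg]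
    linarith
  have hu' : TL v A (d * u + π ⟨_, hbL⟩) (-g) := by
    have h6 := hu.affine hdA hd0 hπb
    rw [hvd] at h6
    rwa [show -s - g + s = -g by ring] at h6
  have hT3 : TowR v n (cadj v A (d * u + π ⟨_, hbL⟩)) LP := by
    rw [cadj_affine hdA hd0 hπb]
    exact hT1
  have h6 : Gt v (-g) (f - (d * u + π ⟨_, hbL⟩)) := by
    have e1 : f - algebraMap k Ω κ * e * u * M (g₀ - g) - π ⟨_, hbL⟩ =
        f - (d * u + π ⟨_, hbL⟩) := by
      rw [hd]
      ring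
    rwa [e1] at h4
  exact ⟨hu'.congr h6, TWS.TowR.exch hu' hT3 hf h6⟩

/-- **The rational step, rank one.** `x` spans the limits of `B = clI (N ⊔ P)`, the operators kill
it: the tower over `B` continues over `clI (N<f> ⊔ P)`. -/
theorem DescM.step_one {T : Submodule k (Opr v (PM v P G M))} (D : DescM p v C P L LP G M T)
    (hvals : ∀ s : ℝ, ∃ e ∈ P, e ≠ 0 ∧ ∃ g ∈ G, v e + g = s) (hN : Cld v N) (hiN : Imm v C N)
    (hNL : N ≤ L) (hT : TowR v (n + 1) (clI v (N ⊔ P)) LP) (hx : x ∈ PM v LP G M)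
    (ht : TL v (PM v (clI v (N ⊔ P)) G M) x 0)
    (hS : ∀ y ∈ PM v LP G M, Lim v (PM v (clI v (N ⊔ P)) G M) 0 y →
      Spn p v (PM v (clI v (N ⊔ P)) G M) x y)
    (hop : ∀ φ ∈ T, ∀ Φ : Opr v (PM v LP G M), IsExt (PM v L G M) φ Φ →
      Nr v (PM v (clI v (N ⊔ P)) G M) 0 (TWC.fn Φ x)) :
    ∃ f ∈ L, ∃ g ∈ G, Nr' v (PM v (clI v (N ⊔ P)) G M) 0 (x - f * M g) ∧
      TL v (PM v (clI v (N ⊔ P)) G M) (f * M g) 0 ∧ TL v N f (-g) ∧ cadj v N f ≤ L ∧
      Imm v C (cadj v N f) ∧ clI v (cadj v N f ⊔ P) = cadj v (clI v (N ⊔ P)) f ∧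
      PM v (clI v (cadj v N f ⊔ P)) G M = cadj v (PM v (clI v (N ⊔ P)) G M) (f * M g) ∧
      TowR v n (clI v (cadj v N f ⊔ P)) LP := by
  have hLLP : L ≤ LP := D.LLP
  obtain ⟨f, hf, g, hg, h1, h2, h3, -⟩ := D.step hN hiN hNL hx ht hop
    (Or.inr fun w hw hl => hS w (PM.mono hLLP hw) hl)
  have h4 : clI v (cadj v N f ⊔ P) = cadj v (clI v (N ⊔ P)) f := by
    refine le_antisymm (TWC.clI_le' (sup_le ?_ ?_) (cld_cadj v _ _)) (cadj_le (cld_clI v _)
      (TWC.clI_mono' (sup_le_sup_right (le_cadj v N f) P)) ?_)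
    · exact cadj_le (cld_cadj v _ _) ((le_sup_left.trans (TWC.self_le_clI v _)).trans
        (le_cadj v _ _)) (self_mem_cadj v _ _)
    · exact (le_sup_right.trans (TWC.self_le_clI v _)).trans (le_cadj v _ _)
    · exact TWC.self_le_clI v _ ((le_sup_left : cadj v N f ≤ _) (self_mem_cadj v N f))
  have h5 : PM v (clI v (cadj v N f ⊔ P)) G M =
      cadj v (PM v (clI v (N ⊔ P)) G M) (f * M g) := by
    rw [h4, PM.cadj]
    have h6 := cadj_affine (v := v) (z := f) (PM.mon (A := clI v (N ⊔ P)) (v := v) (M := M) hg)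
      (D.mc.ms.ne g hg) (zero_mem _)
    rw [add_zero, mul_comm] at h6
    exact h6.symm
  have hiB : Imm v P (clI v (N ⊔ P)) := D.immB hNL
  obtain ⟨-, h6⟩ := TowR.exch_one D.mP D.cpl D.imm D.cld hvals hiB (cld_clI v _) hT
    (hLLP hf) hg h1 ht hS
  exact ⟨f, hf, g, hg, h1, h2, h3, cadj_le D.cldL hNL hf, hiN.trans h3.imm, h4, h5, by rwa [h4]⟩

section Ht

variable [CharP k p] [PerfectRing k p] {T : Submodule k (Opr v (PM v P G M))}
  {𝒜 : Submodule k (Module.End k Ω)}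

/-- A basis of rank one. -/
theorem ABas.spn {a : Fin 1 → Ω} (hM : MS v G M) (ha : ABas p v L LP M T B a) : ∀ y ∈ PM v LP G M,
    Lim v B 0 y → Spn p v B (a 0) y := by
  intro y hy hl
  obtain ⟨Q, b, hb, h1⟩ := ha.bas.span y hy hl
  rw [Fin.sum_univ_one, TWIV.ev00_fev hM, TWIV.fev_eq_range (N := (Q 0).natDegree + 1)
    fun i hi => coeff_eq_zero_of_natDegree_lt (by omega)] at h1
  exact ⟨(Q 0).natDegree + 1, (Q 0).coeff, b, hb, h1.ge⟩

/-- **R7a. The rational step, rank one.** -/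
theorem HtOp.step_one (H : HtOp p v C P L LP G M T 𝒜) (hN : Cld v N) (hiN : Imm v C N)
    (hNL : N ≤ L) (hT : TowR v (n + 1) (clI v (N ⊔ P)) LP) {a : Fin 1 → Ω}
    (ha : ABas p v L LP M T (PM v (clI v (N ⊔ P)) G M) a) :
    ∃ f ∈ L, ∃ g ∈ G, Nr' v (PM v (clI v (N ⊔ P)) G M) 0 (a 0 - f * M g) ∧
      TL v (PM v (clI v (N ⊔ P)) G M) (f * M g) 0 ∧ TL v N f (-g) ∧ cadj v N f ≤ L ∧
      Imm v C (cadj v N f) ∧ clI v (cadj v N f ⊔ P) = cadj v (clI v (N ⊔ P)) f ∧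
      PM v (clI v (cadj v N f ⊔ P)) G M = cadj v (PM v (clI v (N ⊔ P)) G M) (f * M g) ∧
      TowR v n (clI v (cadj v N f ⊔ P)) LP := by
  have hs : ∀ s : ℝ, ∃ c ∈ PM v P G M, c ≠ 0 ∧ v c = s := fun s => by
    obtain ⟨e, he, he0, g, hg, h1⟩ := H.vals s
    have hMg := H.D.mc.ms.ne g hg
    exact ⟨e * M g, mul_mem (PM.le he) (PM.mon hg), mul_ne_zero he0 hMg, by
      rw [v.map_mul he0 hMg, H.D.mc.ms.val g hg, h1]⟩
  have hS := ha.spn H.D.mc.ms
  have hT' := TWS.TowR.pm H.D.mP hs (H.D.immB hNL) hT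
  obtain ⟨h1, -⟩ := tow_one_gen PM.cld hT' (ha.bas.mem 0 (Finset.mem_univ _))
    (ha.bas.lim 0 (Finset.mem_univ _)) hS
  refine DescM.step_one H.D H.vals hN hiN hNL hT (ha.bas.mem 0 (Finset.mem_univ _)) h1 hS ?_
  intro φ hφ Φ hΦ
  obtain ⟨Q, hQ, h2⟩ := ha.adp 0 φ hφ Φ hΦ
  rwa [Fin.sum_univ_one, hQ 0 le_rfl, TWM.ev_zero, sub_zero] at h2

end Ht

end Pool.Agent.TWHT
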