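import Pool.Agent.Lib.TWHT.ThH
import Pool.Agent.Lib.TWIV.RADa

/-!
# TANK W, leaf (Ht): the letters of the root of `y`

`y` a limit of the constants `C`, `y_D = y ^ (1 / p ^ D)`, `η c_D ∈ C`, `η ∈ E` near to `1`, `ψ_i` the
extension of `Th D i` to `Ω`: the letters `z_i = η ^ i ψ_i y_D`, `i < p ^ D`.

* **`Tht.exists_inp`**: the jets `Z_i = ∑ ψ_l (z_i) X ^ l`, limits of jets of elements of
  `DX C (x D)`, with coefficients in `k z_(i + l) + E + O`.
-/

set_option autoImplicit false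
set_option linter.unusedSectionVars false

open Polynomial

namespace Pool.Agent.TWHT

open Pool.Agent.H15JM (RVal)
open Pool.Agent.LU1 (VPos adj)
open Pool.Agent.D2 (Ctx0)
open Pool.Agent.D2P (clI mem_clI)
open Pool.Agent.TWM Pool.Agent.TWC
open Pool.Agent.TWIV (HSn coeff_psi GeP op op_mono op_zero)

universe u

variable {k Ω : Type u} [Field k] [Field Ω] [Algebra k Ω] {v : RVal Ω} {p : ℕ}
  {C L E T A : IntermediateField k Ω} {x c : ℕ → Ω} {r : ℝ} {Th : ℕ → ℕ → Ω → Ω}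
  {𝒜 : Submodule k (Module.End k Ω)}

/-- Roots and values. -/
theorem ge_root {q : ℕ} (hq : 0 < q) {r : ℝ} {a : Ω} (h : v.Ge (q * r) (a ^ q)) : v.Ge r a := by
  intro h0
  have h1 := h (pow_ne_zero q h0)
  rw [v.map_pow h0] at h1
  have hq' : (0 : ℝ) < q := by exact_mod_cast hq
  exact le_of_mul_le_mul_left h1 hq'

theorem ge_of_neg {a : Ω} (h : ∀ ε : ℝ, 0 < ε → v.Ge (-ε) a) : v.Ge 0 a := by
  intro h0
  by_contra h1
  rw [not_le] at h1
  have := h (-(v a) / 2) (by linarith) h0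
  linarith

theorem one_unit_val {a : Ω} (ha : Gt v 0 (a - 1)) : a ≠ 0 ∧ v a = 0 := by
  have h1 : Gt v (v (1 : Ω)) (1 - a) := by
    rw [v.map_one, ← neg_sub]
    exact ha.neg
  have h2 := Gt.val_eq (v := v) one_ne_zero h1
  rwa [v.map_one] at h2

theorem one_unit_inv' {a : Ω} (ha : Gt v 0 (a - 1)) : Gt v 0 (a⁻¹ - 1) := by
  obtain ⟨h0, h1⟩ := one_unit_val ha
  have h2 : Gt v (v a) (1 - a) := by
    rw [h1, ← neg_sub]
    exact ha.neg
  have h3 := one_unit_div (v := v) h0 h2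
  rwa [one_div] at h3

namespace Tht

variable [hp : Fact p.Prime] [CharP Ω p]

/-- The operators `η ^ i Th D i` on `C[x D]`. -/
theorem psi_DX (h : Tht p v C L E x c r Th) {D i : ℕ} (hi : i < p ^ D) {η : Ω}
    (hη : η * c D ∈ C) {w : Ω} (hw : w ∈ DX C (x D)) : η ^ i * Th D i w ∈ DX C (x D) := by
  obtain ⟨P, hP, rfl⟩ := hw
  rw [h.ev hi (PI_mono h.dat.le hP), ← mul_assoc, ← mul_pow, taylor_coeff]
  exact mul_mem (DX.base (pow_mem hη i)) ⟨_, hasse_mem_PI hP i, rfl⟩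

/-- **The letters of the root of `y`.** -/
theorem exists_inp [IsAlgClosed Ω] [hcx : Fact (Ctx0 k v)]
    (h : Tht p v C L E x c r Th)
    (hroot : ∀ a ∈ C, ∃ Q ∈ PI C, (Q.eval (x 1)) ^ p = a)
    (hrep : ∀ N j, 0 < j → j < p ^ N → ∃ ψ ∈ 𝒜, ∀ z ∈ E, ψ z = Th N j z)
    (hge : ∀ ψ ∈ 𝒜, ∀ (z : Ω) (b : ℝ), v.Ge b z → v.Ge b (ψ z))
    {y : Ω} (hl : Lim v C 0 y) (D : ℕ) :
    ∃ (z : Fin (p ^ D) → Ω) (Z : Fin (p ^ D) → Polynomial Ω) (i₀ : Fin (p ^ D)),
      (∀ i, (Z i).coeff 0 = z i) ∧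
      (∀ i, ∀ ε : ℝ, 0 < ε → ∃ σ ∈ DX C (x D), GeP v (p ^ D) (-ε) (Z i - TWIV.psi (p ^ D) (Th D) σ)) ∧
      (∀ i, ∀ l < p ^ D, ∃ Q : Fin (p ^ D) → k[X],
        Nr v E 0 ((Z i).coeff l - ∑ j, op p (Q j) (z j))) ∧ z i₀ ^ p ^ D = y := by
  classical
  have hpD : 0 < p ^ D := pow_pos hp.out.pos D
  have hE0 : ∀ w ∈ DX C (x D), w ∈ E := fun w hw => DX.le h.dat.CE (h.dat.mem D) hw
  obtain ⟨η, hηE, hη, hηc⟩ := h.exists_eta D
  obtain ⟨hη0, hηv⟩ := one_unit_val hη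
  have hηi := one_unit_inv' hη
  have hgeη : ∀ n, v.Ge 0 (η ^ n) := fun n => ge_one_unit (one_unit_pow hη n)
  choose! ψ hψA hψ using fun (l : ℕ) (h0 : 0 < l) (hl : l < p ^ D) => hrep D l h0 hl
  let χ : ℕ → Module.End k Ω := fun l => if 0 < l then ψ l else 1
  have hχ : ∀ l < p ^ D, ∀ z ∈ E, χ l z = Th D l z := by
    intro l hl z hz
    by_cases h0 : 0 < l
    · change (if 0 < l then ψ l else 1) z = _
      rw [if_pos h0, hψ l h0 hl z hz]
    · change (if 0 < l then ψ l else 1) z = _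
      rw [if_neg h0, Nat.eq_zero_of_not_pos h0, h.zero D (h.dat.leE hz)]
      rfl
  have hχg : ∀ l < p ^ D, ∀ (z : Ω) (b : ℝ), v.Ge b z → v.Ge b (χ l z) := by
    intro l hl z b hb
    by_cases h0 : 0 < l
    · change v.Ge b ((if 0 < l then ψ l else 1) z)
      rw [if_pos h0]
      exact hge _ (hψA l h0 hl) z b hb
    · change v.Ge b ((if 0 < l then ψ l else 1) z)
      rw [if_neg h0]
      exact hb
  have hχ0 : ∀ z, χ 0 z = z := fun z => by
    change (if 0 < 0 then ψ 0 else 1) z = z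
    rw [if_neg (lt_irrefl 0)]
    rfl
  have hΨg : ∀ l < p ^ D, ∀ (z : Ω) (b : ℝ), v.Ge b z → v.Ge b (η ^ l * χ l z) := by
    intro l hl z b hb
    have h1 := (hgeη l).mul (hχg l hl z b hb)
    rwa [zero_add] at h1
  -- the root of `y`
  obtain ⟨yD, hyD⟩ := IsAlgClosed.exists_pow_nat_eq y hpD
  have happ : ∀ ε : ℝ, 0 < ε → ∃ w ∈ DX C (x D), v.Ge (-ε) (yD - w) := by
    intro ε hε
    have hq : (0 : ℝ) < ((p ^ D : ℕ) : ℝ) := by exact_mod_cast hpD
    obtain ⟨a, ha, h1⟩ := hl (((p ^ D : ℕ) : ℝ) * ε) (mul_pos hq hε)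
    obtain ⟨w, hw⟩ := IsAlgClosed.exists_pow_nat_eq a hpD
    refine ⟨w, root_le_DX h.dat.nbx.root hroot D (by rwa [hw]), ge_root hpD ?_⟩
    rw [sub_pow_char_pow, hyD, hw]
    refine h1.mono (le_of_eq ?_)
    ring
  let z : Fin (p ^ D) → Ω := fun i => η ^ (i : ℕ) * χ i yD
  have hlim : ∀ i : Fin (p ^ D), Lim v E 0 (z i) := by
    intro i ε hε
    obtain ⟨w, hw, h1⟩ := happ ε hε
    have h2 : η ^ (i : ℕ) * χ i w = η ^ (i : ℕ) * Th D i w := by rw [hχ i i.2 w (hE0 w hw)]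
    refine ⟨η ^ (i : ℕ) * χ i w, ?_, ?_⟩
    · rw [h2]
      exact hE0 _ (h.psi_DX i.2 hηc hw)
    · change v.Ge (0 - ε) (η ^ (i : ℕ) * χ i yD - η ^ (i : ℕ) * χ i w)
      rw [← mul_sub, ← map_sub, zero_sub]
      exact hΨg i i.2 _ _ h1
  refine ⟨z, fun i => TWIV.psi (p ^ D) (fun l => χ l) (z i), ⟨0, hpD⟩, ?_, ?_, ?_, ?_⟩
  · intro i
    rw [coeff_psi, if_pos hpD, hχ0]
  · intro i ε hε
    obtain ⟨w, hw, h1⟩ := happ ε hε
    have hwE := hE0 w hw
    have hσ := h.psi_DX i.2 hηc hw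
    refine ⟨_, hσ, fun l hl => ?_⟩
    rw [coeff_sub, coeff_psi, coeff_psi, if_pos hl, if_pos hl, ← hχ l hl _ (hE0 _ hσ),
      ← hχ i i.2 w hwE, ← map_sub]
    refine hχg l hl _ _ ?_
    change v.Ge (-ε) (η ^ (i : ℕ) * χ i yD - η ^ (i : ℕ) * χ i w)
    rw [← mul_sub, ← map_sub]
    exact hΨg i i.2 _ _ h1
  · intro i l hl
    rw [coeff_psi, if_pos hl]
    have hinv : ∀ n, (η⁻¹) ^ n ∈ E := fun n => pow_mem (inv_mem hηE) n
    have hginv : ∀ n, v.Ge 0 ((η⁻¹) ^ n) := fun n => ge_one_unit (one_unit_pow hηi n)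
    have hcan : ∀ a : Ω, (η⁻¹) ^ l * (η ^ l * a) = a := fun a => by
      rw [← mul_assoc, ← mul_pow, inv_mul_cancel₀ hη0, one_pow, one_mul]
    by_cases hil : l + i < p ^ D
    · -- the composition
      have hA : v.Ge 0 (η ^ l * χ l (z i) -
          (((l + i).choose l : ℕ) : Ω) * z ⟨l + i, hil⟩) := by
        refine ge_of_neg fun ε hε => ?_
        obtain ⟨w, hw, h1⟩ := happ ε hε
        have hwE := hE0 w hw
        have h2 := h.psi_comp hl i.2 hil hηc (h.dat.leE hwE)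
        rw [← hχ i i.2 w hwE, ← hχ (l + i) hil w hwE] at h2
        have h3 : η ^ (i : ℕ) * χ i w ∈ E := by
          rw [hχ i i.2 w hwE]
          exact hE0 _ (h.psi_DX i.2 hηc hw)
        rw [← hχ l hl _ h3] at h2
        have h4 : v.Ge (-ε) (η ^ l * χ l (η ^ (i : ℕ) * χ i (yD - w)) -
            (((l + i).choose l : ℕ) : Ω) * (η ^ (l + (i : ℕ)) * χ (l + i) (yD - w))) := by
          refine (hΨg l hl _ _ (hΨg i i.2 _ _ h1)).sub ?_
          have h5 := (ge_natCast' hcx.out ((l + i).choose l)).mul (hΨg (l + i) hil _ _ h1)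
          rwa [zero_add] at h5
        refine Eq.mp (congrArg (fun t => v.Ge (-ε) t) ?_) h4
        change _ = η ^ l * χ l (η ^ (i : ℕ) * χ i yD) -
          (((l + i).choose l : ℕ) : Ω) * (η ^ (l + (i : ℕ)) * χ (l + i) yD)
        simp only [map_sub, mul_sub]
        rw [h2]
        ring
      refine ⟨fun j => if (j : ℕ) = l + i then Polynomial.C ((((l + i).choose l : ℕ) : k)) else 0,
        ?_⟩
      have h5 : ∑ j : Fin (p ^ D), op p (if (j : ℕ) = l + i then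
          Polynomial.C ((((l + i).choose l : ℕ) : k)) else 0) (z j) =
          (((l + i).choose l : ℕ) : Ω) * z ⟨l + i, hil⟩ := by
        rw [Finset.sum_eq_single (⟨l + i, hil⟩ : Fin (p ^ D))]
        · rw [if_pos rfl]
          have h6 := op_mono (p := p) (((l + i).choose l : ℕ) : k) 0 (z ⟨l + i, hil⟩)
          have h7 : algebraMap k Ω (((l + i).choose l : ℕ) : k) = (((l + i).choose l : ℕ) : Ω) :=
            map_natCast _ _
          rw [pow_zero, mul_one, pow_zero, pow_one, h7] at h6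
          exact h6
        · intro j _ hj
          rw [if_neg fun h7 => hj (Fin.ext h7), op_zero]
        · exact fun h7 => absurd (Finset.mem_univ _) h7
      rw [h5]
      have h6 : Lim v E 0 ((((l + i).choose l : ℕ) : Ω) * z ⟨l + i, hil⟩) := by
        intro ε hε
        obtain ⟨e, he, h7⟩ := hlim ⟨l + i, hil⟩ ε hε
        refine ⟨(((l + i).choose l : ℕ) : Ω) * e, mul_mem (natCast_mem _ _) he, ?_⟩
        rw [← mul_sub]
        have h8 := (ge_natCast' hcx.out ((l + i).choose l)).mul h7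
        rwa [zero_add] at h8
      obtain ⟨e, he, h7⟩ := nr_mul_sub (hinv l) (one_unit_pow hηi l) h6
      refine ⟨e, he, ?_⟩
      have h8 := (hginv l).mul hA
      rw [zero_add, mul_sub, hcan] at h8
      refine Eq.mp (congrArg (fun t => v.Ge 0 t) ?_) (h8.add h7)
      ring
    · refine ⟨fun _ => 0, 0, zero_mem _, ?_⟩
      have h5 : ∑ j : Fin (p ^ D), op p (0 : k[X]) (z j) = 0 :=
        Finset.sum_eq_zero fun j _ => op_zero _
      rw [h5, sub_zero, sub_zero]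
      have hA : v.Ge 0 (η ^ l * χ l (z i)) := by
        refine ge_of_neg fun ε hε => ?_
        obtain ⟨w, hw, h1⟩ := happ ε hε
        have hwE := hE0 w hw
        have h2 := h.psi_comp_zero hl i.2 (not_lt.1 hil) hηc (h.dat.leE hwE)
        rw [← hχ i i.2 w hwE] at h2
        have h3 : η ^ (i : ℕ) * χ i w ∈ E := by
          rw [hχ i i.2 w hwE]
          exact hE0 _ (h.psi_DX i.2 hηc hw)
        rw [← hχ l hl _ h3] at h2
        have h4 := hΨg l hl _ _ (hΨg i i.2 _ _ h1)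
        refine Eq.mp (congrArg (fun t => v.Ge (-ε) t) ?_) h4
        change _ = η ^ l * χ l (η ^ (i : ℕ) * χ i yD)
        simp only [map_sub, mul_sub]
        rw [h2, sub_zero]
      have h8 := (hginv l).mul hA
      rwa [zero_add, hcan] at h8
  · change (η ^ 0 * χ 0 yD) ^ p ^ D = y
    rw [pow_zero, one_mul, hχ0, hyD]

end Tht

end Pool.Agent.TWHT
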